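import Pool.Agent.Lib_helper39.AQM.Defs
import Pool.Agent.Lib_helper39.AQM.AB
import Pool.Agent.Lib_helper39.MQX.ALG
import Pool.Agent.Lib_helper39.MQX.SBA
import Pool.Agent.Lib_helper39.MQX.SBB
import Pool.Agent.Lib_helper39.MQX.SBC
import Pool.Agent.Lib_helper39.MQX.LSV
import Pool.Agent.Lib_helper39.MQX.PAR
import Pool.Agent.Lib_helper39.MQX.FEJ
import Pool.Agent.Lib_helper39.MQX.EXP

/-! block AF1 of AQM, proved by helper67 -/

/-! # AQM, block AF1: the sum of the arguments, negative discriminant -/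

set_option autoImplicit false

namespace Pool.Agent.AQM

open Pool.Agent.MQ Pool.Agent.T2 Filter Topology MeasureTheory

/-- `√(-D)` -/
noncomputable def af1_s (b c : ℤ) : ℝ := Real.sqrt (4 * (c : ℝ) - (b : ℝ) ^ 2)

theorem af1_s_sq {b c : ℤ} (hd : dsc b c < 0) :
    0 < af1_s b c ∧ af1_s b c ^ 2 = 4 * (c : ℝ) - (b : ℝ) ^ 2 := by
  have h1 : (0 : ℝ) < 4 * (c : ℝ) - (b : ℝ) ^ 2 := by
    have h2 : ((dsc b c : ℤ) : ℝ) < 0 := by exact_mod_cast hd
    unfold dsc at h2
    push_cast at h2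
    linarith
  exact ⟨Real.sqrt_pos.2 h1, Real.sq_sqrt h1.le⟩

/-- the complex number of an element -/
noncomputable def af1_z (b c : ℤ) (v : El) : ℂ :=
  (v.1 : ℂ) + v.2 * ((b : ℂ) / 2 + ((af1_s b c : ℝ) : ℂ) / 2 * Complex.I)

theorem af1_mul {b c : ℤ} (hd : dsc b c < 0) (v w : El) :
    af1_z b c (ml b c v w) = af1_z b c v * af1_z b c w := by
  have h1 : ((af1_s b c : ℝ) : ℂ) ^ 2 = 4 * (c : ℂ) - (b : ℂ) ^ 2 := by
    exact_mod_cast congrArg (fun x : ℝ => (x : ℂ)) (af1_s_sq hd).2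
  have h2 : Complex.I ^ 2 = -1 := Complex.I_sq
  unfold af1_z ml
  push_cast
  linear_combination (-(v.2 : ℂ) * w.2 / 4 * ((af1_s b c : ℝ) : ℂ) ^ 2) * h2 +
    ((v.2 : ℂ) * w.2 / 4) * h1

theorem af1_neg (b c : ℤ) (v : El) : af1_z b c (-v) = -af1_z b c v := by
  unfold af1_z
  simp only [Prod.fst_neg, Prod.snd_neg]
  push_cast
  ring

theorem af1_ur {b c : ℤ} (S : Sys b c) (hd : dsc b c < 0) (t : ℝ) :
    S.ur t = 1 / 2 - Real.arctan ((2 * t + b) / af1_s b c) / Real.pi := by
  obtain ⟨hs0, hs2⟩ := af1_s_sq hd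
  set s := af1_s b c with hs
  have hpi := Real.pi_pos
  -- the function is constant
  have hder : ∀ x : ℝ, HasDerivAt
      (fun t : ℝ => S.ur t + S.κ * (2 / s) * Real.arctan ((2 * t + b) / s)) 0 x := by
    intro x
    have h1 := S.der x (Or.inl hd)
    have h2 : HasDerivAt (fun t : ℝ => (2 * t + b) / s) (2 / s) x := by
      have h3 : HasDerivAt (fun t : ℝ => 2 * t + (b : ℝ)) 2 x := by
        simpa using ((hasDerivAt_id x).const_mul 2).add_const (b : ℝ)
      exact h3.div_const s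
    have h3 := h2.arctan
    have h4 := h1.add (h3.const_mul (S.κ * (2 / s)))
    have h5 : -S.κ / (x ^ 2 + b * x + c) + S.κ * (2 / s) *
        (1 / (1 + ((2 * x + b) / s) ^ 2) * (2 / s)) = 0 := by
      have hQ : 0 < x ^ 2 + b * x + c := S.pos x (Or.inl hd)
      have h6 : 1 + ((2 * x + b) / s) ^ 2 = 4 * (x ^ 2 + b * x + c) / s ^ 2 := by
        field_simp
        rw [hs2]
        ring
      rw [h6]
      field_simp
      ring
    rw [h5] at h4
    exact h4
  have hconst : ∀ x y : ℝ, S.ur x + S.κ * (2 / s) * Real.arctan ((2 * x + b) / s) =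
      S.ur y + S.κ * (2 / s) * Real.arctan ((2 * y + b) / s) := by
    intro x y
    exact is_const_of_deriv_eq_zero (fun z => (hder z).differentiableAt)
      (fun z => (hder z).deriv) x y
  -- the limits
  have hlin : Tendsto (fun t : ℝ => (2 * t + b) / s) atTop atTop := by
    apply Filter.Tendsto.atTop_div_const hs0
    apply Filter.tendsto_atTop_add_const_right
    exact Filter.Tendsto.const_mul_atTop two_pos tendsto_id
  have hlin' : Tendsto (fun t : ℝ => (2 * t + b) / s) atBot atBot := by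
    apply Filter.Tendsto.atBot_div_const hs0
    apply Filter.tendsto_atBot_add_const_right
    exact Filter.Tendsto.const_mul_atBot two_pos tendsto_id
  have hT : Tendsto (fun t : ℝ => S.ur t + S.κ * (2 / s) * Real.arctan ((2 * t + b) / s)) atTop
      (𝓝 (0 + S.κ * (2 / s) * (Real.pi / 2))) := by
    apply S.top.add
    apply Filter.Tendsto.const_mul
    exact (tendsto_nhds_of_tendsto_nhdsWithin Real.tendsto_arctan_atTop).comp hlin
  have hB : Tendsto (fun t : ℝ => S.ur t + S.κ * (2 / s) * Real.arctan ((2 * t + b) / s)) atBot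
      (𝓝 (1 + S.κ * (2 / s) * (-(Real.pi / 2)))) := by
    apply (S.botN hd).add
    apply Filter.Tendsto.const_mul
    exact (tendsto_nhds_of_tendsto_nhdsWithin Real.tendsto_arctan_atBot).comp hlin'
  have e1 : S.ur t + S.κ * (2 / s) * Real.arctan ((2 * t + b) / s) =
      0 + S.κ * (2 / s) * (Real.pi / 2) := by
    apply tendsto_nhds_unique _ hT
    have : (fun y : ℝ => S.ur y + S.κ * (2 / s) * Real.arctan ((2 * y + b) / s)) =
        fun _ => S.ur t + S.κ * (2 / s) * Real.arctan ((2 * t + b) / s) := by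
      funext y
      exact hconst y t
    rw [this]
    exact tendsto_const_nhds
  have e2 : S.ur t + S.κ * (2 / s) * Real.arctan ((2 * t + b) / s) =
      1 + S.κ * (2 / s) * (-(Real.pi / 2)) := by
    apply tendsto_nhds_unique _ hB
    have : (fun y : ℝ => S.ur y + S.κ * (2 / s) * Real.arctan ((2 * y + b) / s)) =
        fun _ => S.ur t + S.κ * (2 / s) * Real.arctan ((2 * t + b) / s) := by
      funext y
      exact hconst y t
    rw [this]
    exact tendsto_const_nhds
  have e3 : S.κ * (2 / s) * Real.pi = 1 := by linarith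
  have e4 : S.κ * (2 / s) = 1 / Real.pi := by
    rw [eq_div_iff hpi.ne']
    exact e3
  rw [e4] at e1
  have e5 : 1 / Real.pi * (Real.pi / 2) = 1 / 2 := by field_simp
  rw [e5] at e1
  have e6 : 1 / Real.pi * Real.arctan ((2 * t + b) / s) =
      Real.arctan ((2 * t + b) / s) / Real.pi := by ring
  linarith

theorem af1_pol {b c : ℤ} (S : Sys b c) (hd : dsc b c < 0) {v : El} (hv : S.wd v) :
    ∃ ρ : ℝ, 0 < ρ ∧ af1_z b c v = (ρ : ℂ) * Complex.exp (((Real.pi * S.u v : ℝ) : ℂ) *
      Complex.I) := by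
  obtain ⟨hs0, hs2⟩ := af1_s_sq hd
  rcases hv with ⟨h1, h2⟩ | ⟨h1, _⟩
  · refine ⟨v.1, by exact_mod_cast h2, ?_⟩
    have h3 : S.u v = 0 := by
      unfold Sys.u uu
      rw [if_pos h1, if_pos h2]
    rw [h3]
    unfold af1_z
    rw [h1]
    simp
  · have h2 : (0 : ℝ) < v.2 := by exact_mod_cast h1
    set t : ℝ := v.1 / v.2 with ht
    set x : ℝ := (2 * t + b) / af1_s b c with hx
    have h3 : Real.pi * S.u v = Real.pi / 2 - Real.arctan x := by
      have h4 : S.u v = S.ur t := by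
        unfold Sys.u uu
        rw [if_neg h1.ne']
      rw [h4, af1_ur S hd t, ← hx]
      have := Real.pi_pos.ne'
      field_simp
    have hx0 : 0 < Real.sqrt (1 + x ^ 2) := Real.sqrt_pos.2 (by positivity)
    refine ⟨v.2 * (af1_s b c / 2) * Real.sqrt (1 + x ^ 2), by positivity, ?_⟩
    rw [Complex.exp_mul_I, ← Complex.ofReal_cos, ← Complex.ofReal_sin, h3,
      Real.cos_pi_div_two_sub, Real.sin_pi_div_two_sub, Real.sin_arctan, Real.cos_arctan]
    have h5 : (v.1 : ℝ) = v.2 * t := by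
      rw [ht]
      field_simp
    have h6 : 2 * t + b = af1_s b c * x := by
      rw [hx]
      field_simp
    have h7 : ((v.2 * (af1_s b c / 2) * Real.sqrt (1 + x ^ 2) : ℝ) : ℂ) *
        (((x / Real.sqrt (1 + x ^ 2) : ℝ) : ℂ) + ((1 / Real.sqrt (1 + x ^ 2) : ℝ) : ℂ) *
          Complex.I) =
        ((v.2 * (af1_s b c / 2) * x : ℝ) : ℂ) + ((v.2 * (af1_s b c / 2) : ℝ) : ℂ) * Complex.I := by
      have g1 : v.2 * (af1_s b c / 2) * Real.sqrt (1 + x ^ 2) * (x / Real.sqrt (1 + x ^ 2)) =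
          v.2 * (af1_s b c / 2) * x := by
        field_simp
      have g2 : v.2 * (af1_s b c / 2) * Real.sqrt (1 + x ^ 2) * (1 / Real.sqrt (1 + x ^ 2)) =
          v.2 * (af1_s b c / 2) := by
        field_simp
      rw [mul_add, ← mul_assoc, ← Complex.ofReal_mul, ← Complex.ofReal_mul, g1, g2]
    rw [h7]
    unfold af1_z
    have h8 : v.2 * (af1_s b c / 2) * x = (v.1 : ℝ) + v.2 * ((b : ℝ) / 2) := by
      linear_combination (-(v.2 : ℝ) / 2) * h6 - h5
    rw [h8]
    push_cast
    ring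

theorem af1_conv {b c : ℤ} (S : Sys b c) (hd : dsc b c < 0) {m : El} {ρ θ : ℝ} (hρ : 0 < ρ)
    (hθ : 0 ≤ θ) (hθ1 : θ < 1) (h : af1_z b c m = (ρ : ℂ) *
      Complex.exp (((Real.pi * θ : ℝ) : ℂ) * Complex.I)) : S.wd m ∧ S.u m = θ := by
  obtain ⟨hs0, hs2⟩ := af1_s_sq hd
  have hpi := Real.pi_pos
  have hre : (m.1 : ℝ) + m.2 * ((b : ℝ) / 2) = ρ * Real.cos (Real.pi * θ) := by
    have h1 := congrArg Complex.re h
    rw [Complex.re_ofReal_mul, Complex.exp_ofReal_mul_I_re] at h1
    unfold af1_z at h1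
    simpa using h1
  have him : (m.2 : ℝ) * (af1_s b c / 2) = ρ * Real.sin (Real.pi * θ) := by
    have h1 := congrArg Complex.im h
    rw [Complex.im_ofReal_mul, Complex.exp_ofReal_mul_I_im] at h1
    unfold af1_z at h1
    simpa using h1
  rcases eq_or_lt_of_le hθ with h0 | h0
  · rw [← h0, mul_zero, Real.sin_zero, mul_zero] at him
    have h2 : (m.2 : ℝ) = 0 := by
      rcases mul_eq_zero.1 him with h3 | h3
      · exact h3
      · linarith
    have h3 : m.2 = 0 := by exact_mod_cast h2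
    rw [← h0, mul_zero, Real.cos_zero, h2, zero_mul, add_zero, mul_one] at hre
    have h4 : 0 < m.1 := by
      have : (0 : ℝ) < m.1 := by rw [hre]; exact hρ
      exact_mod_cast this
    refine ⟨Or.inl ⟨h3, h4⟩, ?_⟩
    unfold Sys.u uu
    rw [if_pos h3, if_pos h4, h0]
  · have hsin : 0 < Real.sin (Real.pi * θ) := by
      apply Real.sin_pos_of_pos_of_lt_pi (by positivity)
      calc Real.pi * θ < Real.pi * 1 := mul_lt_mul_of_pos_left hθ1 hpi
        _ = Real.pi := mul_one _
    have h2 : 0 < m.2 := by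
      have h3 : 0 < (m.2 : ℝ) * (af1_s b c / 2) := by
        rw [him]
        positivity
      have h4 : (0 : ℝ) < m.2 := by
        by_contra hc
        push Not at hc
        have : (m.2 : ℝ) * (af1_s b c / 2) ≤ 0 := mul_nonpos_of_nonpos_of_nonneg hc (by positivity)
        linarith
      exact_mod_cast h4
    have hwd : S.wd m := Or.inr ⟨h2, Or.inl hd⟩
    refine ⟨hwd, ?_⟩
    obtain ⟨ρ', hρ', h5⟩ := af1_pol S hd hwd
    obtain ⟨g1, g2⟩ := u_range S hwd
    have h6 : (ρ : ℂ) * Complex.exp (((Real.pi * θ : ℝ) : ℂ) * Complex.I) =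
        (ρ' : ℂ) * Complex.exp (((Real.pi * S.u m : ℝ) : ℂ) * Complex.I) := by rw [← h, h5]
    have h7 : ρ = ρ' := by
      have h8 := congrArg norm h6
      rw [norm_mul, norm_mul, Complex.norm_exp_ofReal_mul_I, Complex.norm_exp_ofReal_mul_I,
        mul_one, mul_one, Complex.norm_real, Complex.norm_real, Real.norm_of_nonneg hρ.le,
        Real.norm_of_nonneg hρ'.le] at h8
      exact h8
    rw [← h7] at h6
    have h8 : (ρ : ℂ) ≠ 0 := by exact_mod_cast hρ.ne'
    have h9 := mul_left_cancel₀ h8 h6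
    have h10 : Real.cos (Real.pi * θ) = Real.cos (Real.pi * S.u m) := by
      have h11 := congrArg Complex.re h9
      rw [Complex.exp_ofReal_mul_I_re, Complex.exp_ofReal_mul_I_re] at h11
      exact h11
    have h11 : Real.pi * θ = Real.pi * S.u m := by
      apply Real.injOn_cos _ _ h10
      · constructor
        · positivity
        · calc Real.pi * θ ≤ Real.pi * 1 := mul_le_mul_of_nonneg_left hθ1.le hpi.le
            _ = Real.pi := mul_one _
      · constructor
        · positivity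
        · calc Real.pi * S.u m ≤ Real.pi * 1 := mul_le_mul_of_nonneg_left g2.le hpi.le
            _ = Real.pi := mul_one _
    exact (mul_left_cancel₀ hpi.ne' h11).symm

/-- the sum of the arguments. -/
theorem u_plane_pr {b c : ℤ} (S : Sys b c) (hd : dsc b c < 0) {v w : El} (hv : S.wd v)
    (hw : S.wd w) : (S.u v + S.u w < 1 → S.wd (ml b c v w) ∧ S.u (ml b c v w) = S.u v + S.u w) ∧
      (1 ≤ S.u v + S.u w → S.wd (-ml b c v w) ∧ S.u (-ml b c v w) = S.u v + S.u w - 1) := by
  obtain ⟨ρ, hρ, h1⟩ := af1_pol S hd hv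
  obtain ⟨ρ', hρ', h2⟩ := af1_pol S hd hw
  obtain ⟨g1, g2⟩ := u_range S hv
  obtain ⟨g3, g4⟩ := u_range S hw
  have h3 : af1_z b c (ml b c v w) = ((ρ * ρ' : ℝ) : ℂ) *
      Complex.exp (((Real.pi * (S.u v + S.u w) : ℝ) : ℂ) * Complex.I) := by
    rw [af1_mul hd, h1, h2]
    have h4 : ((Real.pi * (S.u v + S.u w) : ℝ) : ℂ) * Complex.I =
        ((Real.pi * S.u v : ℝ) : ℂ) * Complex.I + ((Real.pi * S.u w : ℝ) : ℂ) * Complex.I := by
      push_cast
      ring
    rw [h4, Complex.exp_add]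
    push_cast
    ring
  constructor
  · intro h
    exact af1_conv S hd (mul_pos hρ hρ') (by linarith) h h3
  · intro h
    have h5 : af1_z b c (-ml b c v w) = ((ρ * ρ' : ℝ) : ℂ) *
        Complex.exp (((Real.pi * (S.u v + S.u w - 1) : ℝ) : ℂ) * Complex.I) := by
      rw [af1_neg, h3]
      have h4 : ((Real.pi * (S.u v + S.u w - 1) : ℝ) : ℂ) * Complex.I =
          ((Real.pi * (S.u v + S.u w) : ℝ) : ℂ) * Complex.I - (Real.pi : ℂ) * Complex.I := by
        push_cast
        ring
      rw [h4, Complex.exp_sub, Complex.exp_pi_mul_I]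
      ring
    exact af1_conv S hd (mul_pos hρ hρ') (by linarith) (by linarith) h5

theorem u_plane : type_of% @u_plane_pr := @u_plane_pr

end Pool.Agent.AQM
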