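import Pool.Agent.Lib_helper39.AQM.Defs
import Pool.Agent.Lib_helper39.AQM.AB
import Pool.Agent.Lib_helper39.MQX.ALG
import Pool.Agent.Lib_helper39.MQX.SBA
import Pool.Agent.Lib_helper39.MQX.SBB
import Pool.Agent.Lib_helper39.MQX.SBC
import Pool.Agent.Lib_helper39.MQX.LSV
import Pool.Agent.Lib_helper39.MQX.PAR
import Pool.Agent.Lib_helper39.MQX.FEJ
import Pool.Agent.Lib_helper39.MQX.EXP

/-! block CN1 of AQM, proved by helper73 -/

/-! AQM, block CN1 -/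

set_option autoImplicit false

namespace Pool.Agent.AQM

open Pool.Agent.MQ Pool.Agent.T2 Filter Topology MeasureTheory

section sigma

/-- the largest `s` with `A s² + B s u + C u² ≤ 1` -/
noncomputable def cn1_sg (A B C u : ℝ) : ℝ :=
  if C * u ^ 2 ≤ 1 then (Real.sqrt (B ^ 2 * u ^ 2 + 4 * A * (1 - C * u ^ 2)) - B * u) / (2 * A)
  else 0

variable {A B C : ℝ}

theorem cn1_iff (hA : 0 < A) (hB : 0 < B) {s u : ℝ} (hs : 0 < s) (hu : 0 ≤ u) :
    A * s ^ 2 + B * s * u + C * u ^ 2 ≤ 1 ↔ s ≤ cn1_sg A B C u := by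
  unfold cn1_sg
  by_cases h : C * u ^ 2 ≤ 1
  · have hd : 0 ≤ B ^ 2 * u ^ 2 + 4 * A * (1 - C * u ^ 2) := by
      have h2 : 0 ≤ 4 * A * (1 - C * u ^ 2) := mul_nonneg (by positivity) (by linarith)
      positivity
    rw [if_pos h, le_div_iff₀ (by positivity), le_sub_iff_add_le,
      Real.le_sqrt (by positivity) hd]
    have key : (s * (2 * A) + B * u) ^ 2 - (B ^ 2 * u ^ 2 + 4 * A * (1 - C * u ^ 2)) =
      4 * A * (A * s ^ 2 + B * s * u + C * u ^ 2 - 1) := by ring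
    have hA4 : 0 < 4 * A := by positivity
    constructor
    · intro h1
      have h2 : 4 * A * (A * s ^ 2 + B * s * u + C * u ^ 2 - 1) ≤ 0 :=
        mul_nonpos_of_nonneg_of_nonpos hA4.le (by linarith)
      linarith
    · intro h1
      have h2 : 4 * A * (A * s ^ 2 + B * s * u + C * u ^ 2 - 1) ≤ 0 := by linarith
      have h3 := nonpos_of_mul_nonpos_right h2 hA4
      linarith
  · rw [if_neg h]
    have h1 : 0 ≤ A * s ^ 2 := by positivity
    have h2 : 0 ≤ B * s * u := by positivity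
    constructor
    · intro h3
      exact absurd (by linarith) h
    · intro h3
      linarith

theorem cn1_nonneg (hA : 0 < A) (hB : 0 < B) {u : ℝ} (hu : 0 ≤ u) : 0 ≤ cn1_sg A B C u := by
  unfold cn1_sg
  by_cases h : C * u ^ 2 ≤ 1
  · rw [if_pos h]
    have h1 : B * u ≤ Real.sqrt (B ^ 2 * u ^ 2 + 4 * A * (1 - C * u ^ 2)) := by
      have h2 : 0 ≤ 4 * A * (1 - C * u ^ 2) := mul_nonneg (by positivity) (by linarith)
      apply Real.le_sqrt_of_sq_le
      nlinarith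
    exact div_nonneg (by linarith) (by positivity)
  · rw [if_neg h]

theorem cn1_le_one (hA : 1 ≤ A) (hB : 0 < B) (hC : 0 < C) {u : ℝ} (hu : 0 ≤ u) :
    cn1_sg A B C u ≤ 1 := by
  by_contra hcon
  push Not at hcon
  have hs : 0 < cn1_sg A B C u := by linarith
  have h1 := (cn1_iff (C := C) (by linarith) hB hs hu).2 le_rfl
  have h2 : 0 ≤ B * cn1_sg A B C u * u := by positivity
  have h3 : 0 ≤ C * u ^ 2 := by positivity
  nlinarith

theorem cn1_anti (hA : 0 < A) (hB : 0 < B) (hC : 0 < C) {u v : ℝ} (hu : 0 ≤ u) (huv : u ≤ v) :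
    cn1_sg A B C v ≤ cn1_sg A B C u := by
  by_cases hs : 0 < cn1_sg A B C v
  · have hv : 0 ≤ v := hu.trans huv
    have h1 := (cn1_iff (C := C) hA hB hs hv).2 le_rfl
    rw [← cn1_iff (C := C) hA hB hs hu]
    have h2 : B * cn1_sg A B C v * u ≤ B * cn1_sg A B C v * v :=
      mul_le_mul_of_nonneg_left huv (by positivity)
    have h3 : C * u ^ 2 ≤ C * v ^ 2 :=
      mul_le_mul_of_nonneg_left (pow_le_pow_left₀ hu huv 2) hC.le
    linarith
  · exact (not_lt.1 hs).trans (cn1_nonneg hA hB hu)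

theorem cn1_zero (hC : 1 ≤ C) {u : ℝ} (hu : 1 < u) : cn1_sg A B C u = 0 := by
  unfold cn1_sg
  rw [if_neg]
  push Not
  nlinarith

theorem cn1_int (hA : 0 < A) (hB : 0 < B) (hC : 0 < C) {a b : ℝ} (ha : 0 ≤ a) (hb : 0 ≤ b) :
    IntervalIntegrable (cn1_sg A B C) volume a b := by
  apply AntitoneOn.intervalIntegrable
  intro u hu v _ huv
  refine cn1_anti hA hB hC ?_ huv
  rcases le_total a b with h | h
  · rw [Set.uIcc_of_le h] at hu
    exact ha.trans hu.1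
  · rw [Set.uIcc_of_ge h] at hu
    exact hb.trans hu.1

/-- the area -/
noncomputable def cn1_kap (A B C : ℝ) : ℝ := ∫ u in (0 : ℝ)..1, cn1_sg A B C u

theorem cn1_kap_R (hA : 0 < A) (hB : 0 < B) (hC : 1 ≤ C) {R : ℝ} (hR : 1 ≤ R) :
    ∫ u in (0 : ℝ)..R, cn1_sg A B C u = cn1_kap A B C := by
  have hC0 : 0 < C := by linarith
  unfold cn1_kap
  rw [← intervalIntegral.integral_add_adjacent_intervals
    (cn1_int hA hB hC0 le_rfl zero_le_one) (cn1_int hA hB hC0 zero_le_one (by linarith : (0 : ℝ) ≤ R))]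
  have h : ∫ u in (1 : ℝ)..R, cn1_sg A B C u = ∫ u in (1 : ℝ)..R, (0 : ℝ) := by
    apply intervalIntegral.integral_congr_ae
    refine Filter.Eventually.of_forall fun u hu => ?_
    rw [Set.uIoc_of_le hR] at hu
    exact cn1_zero hC hu.1
  rw [h]
  simp

theorem cn1_kap_pos (hA : 1 ≤ A) (hB : 0 < B) (hC : 0 < C) : 0 < cn1_kap A B C := by
  have hA0 : 0 < A := by linarith
  have hS : 1 ≤ A + B + C := by linarith
  obtain ⟨w, hw⟩ : ∃ w, w = 1 / Real.sqrt (A + B + C) := ⟨_, rfl⟩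
  have hsq : 1 ≤ Real.sqrt (A + B + C) := by
    rw [Real.one_le_sqrt]
    exact hS
  have hw0 : 0 < w := by rw [hw]; positivity
  have hw1 : w ≤ 1 := by
    rw [hw, div_le_one (by linarith)]
    exact hsq
  have hww : (A + B + C) * w ^ 2 = 1 := by
    rw [hw, div_pow, Real.sq_sqrt (by linarith)]
    field_simp
  have h1 : w ≤ cn1_sg A B C w := by
    rw [← cn1_iff (C := C) hA0 hB hw0 hw0.le]
    have : A * w ^ 2 + B * w * w + C * w ^ 2 = (A + B + C) * w ^ 2 := by ring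
    rw [this, hww]
  unfold cn1_kap
  rw [← intervalIntegral.integral_add_adjacent_intervals
    (cn1_int hA0 hB hC le_rfl hw0.le) (cn1_int hA0 hB hC hw0.le zero_le_one)]
  have h2 : 0 ≤ ∫ u in w..1, cn1_sg A B C u := by
    apply intervalIntegral.integral_nonneg hw1
    intro u hu
    exact cn1_nonneg hA0 hB (hw0.le.trans hu.1)
  have h3 : w * w ≤ ∫ u in (0 : ℝ)..w, cn1_sg A B C u := by
    have h4 : ∫ u in (0 : ℝ)..w, w ≤ ∫ u in (0 : ℝ)..w, cn1_sg A B C u := by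
      apply intervalIntegral.integral_mono_on hw0.le
      · exact intervalIntegrable_const
      · exact cn1_int hA0 hB hC le_rfl hw0.le
      · intro u hu
        exact h1.trans (cn1_anti hA0 hB hC hu.1 hu.2)
    rw [intervalIntegral.integral_const] at h4
    simpa using h4
  have h5 : 0 < w * w := by positivity
  linarith

/-- sums over progressions -/
theorem cn1_sum (hA : 1 ≤ A) (hB : 0 < B) (hC : 1 ≤ C) {X M v : ℝ} (hX : 1 ≤ X) (hM : 1 ≤ M)
    (hv : 0 ≤ v) (hvM : v ≤ M) {N : ℕ} (hN : X ≤ N) :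
    |∑ n ∈ Finset.range N, X * cn1_sg A B C ((v + M * n) / X) - cn1_kap A B C * X ^ 2 / M| ≤ X := by
  have hA0 : 0 < A := by linarith
  have hC0 : 0 < C := by linarith
  have hX0 : 0 < X := by linarith
  have hM0 : 0 < M := by linarith
  have hN0 : (0 : ℝ) ≤ N := Nat.cast_nonneg N
  have hanti : ∀ y z : ℝ, 0 ≤ y → y ≤ z →
      X * cn1_sg A B C (M * z / X) ≤ X * cn1_sg A B C (M * y / X) := by
    intro y z hy hyz
    apply mul_le_mul_of_nonneg_left _ hX0.le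
    apply cn1_anti hA0 hB hC0 (by positivity)
    gcongr
  have hAn : AntitoneOn (fun y : ℝ => X * cn1_sg A B C (M * y / X)) (Set.Icc (0 : ℝ) (0 + N)) := by
    intro y hy z _ hyz
    exact hanti y z hy.1 hyz
  have hAn' : AntitoneOn (fun y : ℝ => X * cn1_sg A B C (M * y / X))
      (Set.Icc (0 : ℝ) (0 + (N : ℕ))) := hAn
  have hlow := hAn'.sum_le_integral
  have hup := hAn'.integral_le_sum
  have hI : ∫ y in (0 : ℝ)..(0 + (N : ℕ)), X * cn1_sg A B C (M * y / X) =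
      cn1_kap A B C * X ^ 2 / M := by
    rw [zero_add]
    have h1 : ∀ y : ℝ, X * cn1_sg A B C (M * y / X) = X * cn1_sg A B C ((M / X) * y) := by
      intro y
      congr 2
      ring
    simp_rw [h1]
    rw [intervalIntegral.integral_const_mul, intervalIntegral.integral_comp_mul_left
      (fun u => cn1_sg A B C u) (by positivity : M / X ≠ 0)]
    rw [mul_zero, cn1_kap_R hA0 hB hC]
    · rw [smul_eq_mul]
      field_simp
    · rw [div_mul_eq_mul_div, le_div_iff₀ hX0, one_mul]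
      nlinarith
  rw [hI] at hlow hup
  have hlo2 : ∑ i ∈ Finset.range N, X * cn1_sg A B C (M * (0 + ((i + 1 : ℕ) : ℝ)) / X) ≤
      ∑ n ∈ Finset.range N, X * cn1_sg A B C ((v + M * n) / X) := by
    apply Finset.sum_le_sum
    intro n _
    apply mul_le_mul_of_nonneg_left _ hX0.le
    have hn : (0 : ℝ) ≤ n := Nat.cast_nonneg n
    apply cn1_anti hA0 hB hC0 (by positivity)
    push_cast
    gcongr
    nlinarith
  have hup2 : ∑ n ∈ Finset.range N, X * cn1_sg A B C ((v + M * n) / X) ≤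
      ∑ i ∈ Finset.range N, X * cn1_sg A B C (M * (0 + (i : ℝ)) / X) := by
    apply Finset.sum_le_sum
    intro n _
    apply mul_le_mul_of_nonneg_left _ hX0.le
    have hn : (0 : ℝ) ≤ n := Nat.cast_nonneg n
    apply cn1_anti hA0 hB hC0 (by positivity)
    gcongr
    nlinarith
  have htel : ∑ i ∈ Finset.range N, X * cn1_sg A B C (M * (0 + (i : ℝ)) / X) -
      ∑ i ∈ Finset.range N, X * cn1_sg A B C (M * (0 + ((i + 1 : ℕ) : ℝ)) / X) ≤ X := by
    rw [← Finset.sum_sub_distrib]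
    have h1 := Finset.sum_range_sub' (fun i : ℕ => X * cn1_sg A B C (M * (0 + (i : ℝ)) / X)) N
    rw [h1]
    have h2 : 0 ≤ X * cn1_sg A B C (M * (0 + (N : ℝ)) / X) :=
      mul_nonneg hX0.le (cn1_nonneg hA0 hB (by positivity))
    have h3 : X * cn1_sg A B C (M * (0 + ((0 : ℕ) : ℝ)) / X) ≤ X * 1 :=
      mul_le_mul_of_nonneg_left (cn1_le_one hA hB hC0 (by positivity)) hX0.le
    linarith
  rw [abs_le]
  constructor <;> linarith

end sigma


/-! ### residue classes -/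

theorem cn1_crt {m n : ℕ} (h : Nat.Coprime m n) (a b : ℤ) : ∃ e : ℤ, ∀ s : ℤ,
    ((m : ℤ) ∣ s - a ∧ (n : ℤ) ∣ s - b) ↔ ((m * n : ℕ) : ℤ) ∣ s - e := by
  have hc : IsCoprime (m : ℤ) (n : ℤ) := Nat.isCoprime_iff_coprime.2 h
  obtain ⟨x, y, hxy⟩ := hc
  refine ⟨b * x * m + a * y * n, fun s => ?_⟩
  have h1 : (m : ℤ) ∣ (b * x * m + a * y * n) - a := by
    refine ⟨b * x - a * x, ?_⟩
    have : a = a * (x * m + y * n) := by rw [hxy, mul_one]
    linear_combination (-1 : ℤ) * this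
  have h2 : (n : ℤ) ∣ (b * x * m + a * y * n) - b := by
    refine ⟨a * y - b * y, ?_⟩
    have : b = b * (x * m + y * n) := by rw [hxy, mul_one]
    linear_combination (-1 : ℤ) * this
  push_cast
  constructor
  · rintro ⟨h3, h4⟩
    refine IsCoprime.mul_dvd ⟨x, y, hxy⟩ ?_ ?_
    · have := dvd_sub h3 h1
      have e : s - a - (b * x * m + a * y * n - a) = s - (b * x * m + a * y * n) := by ring
      rwa [e] at this
    · have := dvd_sub h4 h2
      have e : s - b - (b * x * m + a * y * n - b) = s - (b * x * m + a * y * n) := by ring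
      rwa [e] at this
  · intro h3
    have h4 : (m : ℤ) ∣ s - (b * x * m + a * y * n) := (Dvd.intro _ rfl).trans h3
    have h5 : (n : ℤ) ∣ s - (b * x * m + a * y * n) := (Dvd.intro_left _ rfl).trans h3
    constructor
    · have := dvd_add h4 h1
      have e : s - (b * x * m + a * y * n) + (b * x * m + a * y * n - a) = s - a := by ring
      rwa [e] at this
    · have := dvd_add h5 h2
      have e : s - (b * x * m + a * y * n) + (b * x * m + a * y * n - b) = s - b := by ring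
      rwa [e] at this

/-- a residue class has a representative -/
theorem cn1_rep {M : ℕ} (hM : 1 ≤ M) (a : ℤ) : ∃ v : ℕ, v < M ∧ ∀ s : ℤ,
    (M : ℤ) ∣ s - a ↔ (M : ℤ) ∣ s - v := by
  have hM0 : (M : ℤ) ≠ 0 := by
    have : M ≠ 0 := by omega
    exact_mod_cast this
  have hM1 : (0 : ℤ) < M := by exact_mod_cast hM
  refine ⟨(a % M).toNat, ?_, fun s => ?_⟩
  · have h1 := Int.emod_nonneg a hM0
    have h2 := Int.emod_lt_of_pos a hM1
    omega
  · rw [Int.toNat_of_nonneg (Int.emod_nonneg a hM0)]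
    have h3 : (M : ℤ) ∣ a - a % M := Int.dvd_self_sub_emod
    constructor
    · intro h
      have := dvd_add h h3
      have e : s - a + (a - a % M) = s - a % M := by ring
      rwa [e] at this
    · intro h
      have := dvd_sub h h3
      have e : s - a % M - (a - a % M) = s - a := by ring
      rwa [e] at this

/-- the number of elements of a class below `y` -/
theorem cn1_res {M : ℕ} (hM : 1 ≤ M) (a : ℤ) {y : ℝ} (hy : 0 ≤ y) :
    |((((Finset.Icc 1 ⌊y⌋₊).filter (fun s : ℕ => (M : ℤ) ∣ (s : ℤ) - a)).card : ℝ) - y / M)| ≤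
      2 := by
  obtain ⟨v, _, hv⟩ := cn1_rep hM a
  have hM1 : (1 : ℝ) ≤ M := by exact_mod_cast hM
  have hM0 : (0 : ℝ) < M := by linarith
  have h1 : (Finset.Icc 1 ⌊y⌋₊).filter (fun s : ℕ => (M : ℤ) ∣ (s : ℤ) - a) =
      (Finset.Ioc 0 ⌊y⌋₊).filter (fun s : ℕ => s ≡ v [MOD M]) := by
    ext s
    rw [Finset.mem_filter, Finset.mem_filter, Finset.mem_Icc, Finset.mem_Ioc, hv,
      Nat.succ_le_iff, Nat.ModEq.comm, Nat.modEq_iff_dvd]
  rw [h1]
  obtain ⟨N, hN⟩ : ∃ N, N = ⌊y⌋₊ := ⟨_, rfl⟩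
  rw [← hN]
  obtain ⟨n, hn⟩ : ∃ n, n = ((Finset.Ioc 0 N).filter (fun s : ℕ => s ≡ v [MOD M])).card := ⟨_, rfl⟩
  rw [← hn]
  have h2 := Nat.Ioc_filter_modEq_card 0 N (r := M) hM v
  rw [← hn] at h2
  have hMq : (0 : ℚ) < M := by
    have : 0 < M := hM
    exact_mod_cast this
  have h3 := Int.floor_le (((N : ℚ) - v) / M)
  have h4 := Int.lt_floor_add_one (((N : ℚ) - v) / M)
  have h5 := Int.floor_le ((((0 : ℕ) : ℚ) - v) / M)
  have h6 := Int.lt_floor_add_one ((((0 : ℕ) : ℚ) - v) / M)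
  have h7 : (n : ℚ) = max ((⌊((N : ℚ) - v) / M⌋ : ℚ) - ⌊(((0 : ℕ) : ℚ) - v) / M⌋) 0 := by
    have h8 : ((n : ℤ) : ℚ) = ((max (⌊((N : ℚ) - v) / M⌋ - ⌊(((0 : ℕ) : ℚ) - v) / M⌋) 0 : ℤ) : ℚ) := by
      rw [h2]
    rw [Int.cast_natCast] at h8
    rw [h8]
    push_cast
    rfl
  have h9 : ((N : ℚ) - v) / M - (((0 : ℕ) : ℚ) - v) / M = N / M := by
    push_cast
    ring
  have h10 : (0 : ℚ) ≤ N / M := by positivity
  have h11 : |(n : ℚ) - N / M| ≤ 1 := by
    rw [h7, abs_le]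
    constructor
    · have := le_max_left ((⌊((N : ℚ) - v) / M⌋ : ℚ) - ⌊(((0 : ℕ) : ℚ) - v) / M⌋) 0
      linarith
    · have : max ((⌊((N : ℚ) - v) / M⌋ : ℚ) - ⌊(((0 : ℕ) : ℚ) - v) / M⌋) 0 ≤ N / M + 1 := by
        apply max_le
        · linarith
        · linarith
      linarith
  have h12 : |(n : ℝ) - N / M| ≤ 1 := by
    have := (Rat.cast_le (K := ℝ)).2 h11
    push_cast at this
    exact this
  have h13 : (N : ℝ) ≤ y := by rw [hN]; exact Nat.floor_le hy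
  have h14 : y < N + 1 := by rw [hN]; exact Nat.lt_floor_add_one y
  have h15 : |(N : ℝ) / M - y / M| ≤ 1 := by
    rw [← sub_div, abs_div, abs_of_pos hM0, div_le_one hM0, abs_le]
    constructor <;> linarith
  have h16 : (n : ℝ) - y / M = (n - N / M) + (N / M - y / M) := by ring
  rw [h16]
  refine (abs_add_le _ _).trans ?_
  linarith

/-- sums over a residue class -/
theorem cn1_ap {M : ℕ} (hM : 1 ≤ M) (a : ℤ) : ∃ v : ℕ, v < M ∧ ∀ (T N : ℕ) (f : ℕ → ℝ),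
    (∀ t, T < t → f t = 0) → T < N →
    ∑ t ∈ (Finset.Icc 0 T).filter (fun t : ℕ => (M : ℤ) ∣ (t : ℤ) - a), f t =
      ∑ n ∈ Finset.range N, f (v + M * n) := by
  obtain ⟨v, hvM, hv⟩ := cn1_rep hM a
  refine ⟨v, hvM, fun T N f hf hTN => ?_⟩
  have hinj : Set.InjOn (fun n : ℕ => v + M * n) (Finset.range N : Set ℕ) := by
    intro n _ n' _ h
    have h1 : M * n = M * n' := by
      have : v + M * n = v + M * n' := h
      omega
    exact Nat.eq_of_mul_eq_mul_left (by omega) h1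
  have h1 : ∑ n ∈ Finset.range N, f (v + M * n) =
      ∑ t ∈ (Finset.range N).image (fun n : ℕ => v + M * n), f t := by
    rw [Finset.sum_image hinj]
  rw [h1]
  apply Finset.sum_subset
  · intro t ht
    rw [Finset.mem_filter, Finset.mem_Icc, hv] at ht
    obtain ⟨⟨_, htT⟩, k, hk⟩ := ht
    have hk0 : 0 ≤ k := by
      by_contra hcon
      push Not at hcon
      have h2 : (M : ℤ) * k ≤ (M : ℤ) * (-1) := mul_le_mul_of_nonneg_left (by omega) (by omega)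
      omega
    rw [Finset.mem_image]
    refine ⟨k.toNat, ?_, ?_⟩
    · rw [Finset.mem_range]
      have h3 : k ≤ (M : ℤ) * k := le_mul_of_one_le_left hk0 (by exact_mod_cast hM)
      omega
    · zify
      rw [Int.toNat_of_nonneg hk0]
      linarith
  · intro t ht ht'
    rw [Finset.mem_image] at ht
    obtain ⟨n, _, rfl⟩ := ht
    apply hf
    by_contra hcon
    push Not at hcon
    apply ht'
    rw [Finset.mem_filter, Finset.mem_Icc, hv]
    refine ⟨⟨Nat.zero_le _, hcon⟩, n, ?_⟩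
    push_cast
    ring


/-! ### the line modulo `d` -/

theorem cn1_line {d g q : ℕ} (hd : 1 ≤ d) (hdq : Nat.Coprime d q) {α β : ℤ}
    (hl : ∀ l : ℕ, l.Prime → l ∣ d → ¬ ((l : ℤ) ∣ α ∧ (l : ℤ) ∣ β))
    (hg : g = Int.gcd d α) (s₀ t : ℤ) :
    (¬ (g : ℤ) ∣ t → ∀ s : ℤ, ¬ ((d : ℤ) ∣ s * α + t * β)) ∧
    ((g : ℤ) ∣ t → ∃ a : ℤ, ∀ s : ℤ, ((q : ℤ) ∣ s - s₀ ∧ (d : ℤ) ∣ s * α + t * β) ↔
      ((q * (d / g) : ℕ) : ℤ) ∣ s - a) := by
  have hgd : (g : ℤ) ∣ d := by rw [hg]; exact Int.gcd_dvd_left ..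
  have hga : (g : ℤ) ∣ α := by rw [hg]; exact Int.gcd_dvd_right ..
  have hgdn : g ∣ d := by exact_mod_cast hgd
  have hg0 : 0 < g := Nat.pos_of_dvd_of_pos hgdn hd
  constructor
  · intro h s hs
    apply h
    have h1 : (g : ℤ) ∣ t * β := by
      have := dvd_sub (hgd.trans hs) (hga.mul_left s)
      have e : s * α + t * β - s * α = t * β := by ring
      rwa [e] at this
    have h2 : IsCoprime (g : ℤ) β := by
      rw [Int.isCoprime_iff_gcd_eq_one]
      by_contra hne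
      obtain ⟨l, hl1, hl2⟩ := Nat.exists_prime_and_dvd hne
      have h3 : (l : ℤ) ∣ (g : ℤ) := (Int.natCast_dvd_natCast.2 hl2).trans (Int.gcd_dvd_left ..)
      have h4 : (l : ℤ) ∣ β := (Int.natCast_dvd_natCast.2 hl2).trans (Int.gcd_dvd_right ..)
      exact hl l hl1 (by exact_mod_cast h3.trans hgd) ⟨h3.trans hga, h4⟩
    exact h2.dvd_of_dvd_mul_right h1
  · rintro ⟨t', rfl⟩
    obtain ⟨d', hd'⟩ := hgdn
    obtain ⟨α', hα'⟩ := hga
    have hdg : d / g = d' := by rw [hd', Nat.mul_div_cancel_left d' hg0]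
    have hcop : Int.gcd d' α' = 1 := by
      have h1 : Int.gcd ((g : ℤ) * d') ((g : ℤ) * α') = g * Int.gcd d' α' := by
        rw [Int.gcd_mul_left]
        simp
      have h2 : (g : ℕ) * Int.gcd d' α' = g * 1 := by
        rw [← h1, mul_one, ← hα']
        have : ((g : ℤ) * d') = (d : ℤ) := by rw [hd']; push_cast; ring
        rw [this, ← hg]
      exact Nat.eq_of_mul_eq_mul_left hg0 h2
    obtain ⟨y, z, hyz⟩ := Int.isCoprime_iff_gcd_eq_one.2 hcop
    have hqd : Nat.Coprime q d' := Nat.Coprime.coprime_dvd_right ⟨g, by rw [hd', mul_comm]⟩ hdq.symm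
    obtain ⟨e, he⟩ := cn1_crt hqd s₀ (-(z * t' * β))
    refine ⟨e, fun s => ?_⟩
    rw [hdg, ← he]
    have h3 : (d : ℤ) ∣ s * α + (g : ℤ) * t' * β ↔ (d' : ℤ) ∣ s * α' + t' * β := by
      have e1 : (d : ℤ) = (g : ℤ) * d' := by rw [hd']; push_cast; ring
      have e2 : s * α + (g : ℤ) * t' * β = (g : ℤ) * (s * α' + t' * β) := by rw [hα']; ring
      rw [e1, e2]
      exact mul_dvd_mul_iff_left (by exact_mod_cast hg0.ne')
    have h4 : (d' : ℤ) ∣ s * α' + t' * β ↔ (d' : ℤ) ∣ s - -(z * t' * β) := by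
      constructor
      · intro h
        have h5 := dvd_add (h.mul_left z) (Dvd.intro (y * s) rfl : (d' : ℤ) ∣ d' * (y * s))
        have e3 : z * (s * α' + t' * β) + d' * (y * s) = s - -(z * t' * β) := by
          linear_combination s * hyz
        rwa [e3] at h5
      · intro h
        have h5 := dvd_add (h.mul_left α') (Dvd.intro (y * t' * β) rfl : (d' : ℤ) ∣ d' * (y * t' * β))
        have e3 : α' * (s - -(z * t' * β)) + d' * (y * t' * β) = s * α' + t' * β := by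
          linear_combination t' * β * hyz
        rwa [e3] at h5
    rw [h3, h4]

open Classical in
theorem quad_count_pr (A B C : ℤ) (hA : 0 < A) (hB : 0 < B) (hC : 0 < C) : ∃ κ : ℝ, 0 < κ ∧
    ∀ q : ℕ, 1 ≤ q → ∃ K : ℝ, 1 ≤ K ∧ ∀ (s₀ t₀ α β : ℤ) (d : ℕ), 1 ≤ d → Nat.Coprime d q →
    (∀ l : ℕ, l.Prime → l ∣ d → ¬ ((l : ℤ) ∣ α ∧ (l : ℤ) ∣ β)) → ∀ x : ℝ, 1 ≤ x →
    |((((Finset.Icc 1 ⌊Real.sqrt x⌋₊) ×ˢ (Finset.Icc 0 ⌊Real.sqrt x⌋₊)).filter
      (fun z : ℕ × ℕ => (A : ℝ) * z.1 ^ 2 + B * z.1 * z.2 + C * z.2 ^ 2 ≤ x ∧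
        (q : ℤ) ∣ z.1 - s₀ ∧ (q : ℤ) ∣ z.2 - t₀ ∧ (d : ℤ) ∣ z.1 * α + z.2 * β)).card : ℝ) -
      κ * x / ((q : ℝ) ^ 2 * d)| ≤ K * Real.sqrt x := by
  have hA1 : (1 : ℝ) ≤ A := by exact_mod_cast hA
  have hB0 : (0 : ℝ) < B := by exact_mod_cast hB
  have hC1 : (1 : ℝ) ≤ C := by exact_mod_cast hC
  have hA0 : (0 : ℝ) < A := by linarith
  have hC0 : (0 : ℝ) < C := by linarith
  refine ⟨cn1_kap A B C, cn1_kap_pos hA1 hB0 hC0, fun q hq => ⟨5, by norm_num, ?_⟩⟩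
  intro s₀ t₀ α β d hd hdq hl x hx
  obtain ⟨X, hX⟩ : ∃ X, X = Real.sqrt x := ⟨_, rfl⟩
  have hXX : X ^ 2 = x := by rw [hX]; exact Real.sq_sqrt (by linarith)
  have hX1 : 1 ≤ X := by rw [hX, Real.one_le_sqrt]; exact hx
  have hX0 : 0 < X := by linarith
  rw [← hX]
  obtain ⟨T, hT⟩ : ∃ T, T = ⌊X⌋₊ := ⟨_, rfl⟩
  rw [← hT]
  obtain ⟨g, hg⟩ : ∃ g, g = Int.gcd d α := ⟨_, rfl⟩
  have hgd : g ∣ d := by
    have : (g : ℤ) ∣ d := by rw [hg]; exact Int.gcd_dvd_left ..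
    exact_mod_cast this
  have hg0 : 0 < g := Nat.pos_of_dvd_of_pos hgd hd
  obtain ⟨d', hd'⟩ := hgd
  have hd0 : 0 < d' := by
    rcases Nat.eq_zero_or_pos d' with h | h
    · rw [h, mul_zero] at hd'
      omega
    · exact h
  have hdg : d / g = d' := by rw [hd', Nat.mul_div_cancel_left d' hg0]
  obtain ⟨f, hf⟩ : ∃ f : ℕ → ℝ, f = fun t : ℕ => X * cn1_sg A B C ((t : ℝ) / X) := ⟨_, rfl⟩
  have hf0 : ∀ t, 0 ≤ f t := by
    intro t
    rw [hf]
    exact mul_nonneg hX0.le (cn1_nonneg hA0 hB0 (by positivity))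
  have hfX : ∀ t, f t ≤ X := by
    intro t
    rw [hf]
    have := cn1_le_one (C := (C : ℝ)) hA1 hB0 hC0 (by positivity : (0 : ℝ) ≤ (t : ℝ) / X)
    calc X * cn1_sg A B C ((t : ℝ) / X) ≤ X * 1 := mul_le_mul_of_nonneg_left this hX0.le
      _ = X := mul_one X
  have hfT : ∀ t, T < t → f t = 0 := by
    intro t ht
    rw [hf]
    have h1 : X < t := by
      rw [hT] at ht
      exact (Nat.floor_lt hX0.le).1 ht
    have h2 : cn1_sg (A : ℝ) (B : ℝ) (C : ℝ) ((t : ℝ) / X) = 0 :=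
      cn1_zero hC1 (by rw [lt_div_iff₀ hX0, one_mul]; exact h1)
    show X * cn1_sg (A : ℝ) (B : ℝ) (C : ℝ) ((t : ℝ) / X) = 0
    rw [h2, mul_zero]
  -- the region
  have hreg : ∀ s t : ℕ, 1 ≤ s → ((A : ℝ) * s ^ 2 + B * s * t + C * t ^ 2 ≤ x ↔ s ≤ ⌊f t⌋₊) := by
    intro s t hs
    rw [Nat.le_floor_iff (hf0 t), hf]
    have hs0 : (0 : ℝ) < (s : ℝ) / X := by
      have : (0 : ℝ) < s := by exact_mod_cast hs
      positivity
    have h1 := cn1_iff (C := (C : ℝ)) hA0 hB0 hs0 (by positivity : (0 : ℝ) ≤ (t : ℝ) / X)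
    have h2 : (s : ℝ) ≤ X * cn1_sg A B C ((t : ℝ) / X) ↔ (s : ℝ) / X ≤ cn1_sg A B C ((t : ℝ) / X) := by
      rw [div_le_iff₀ hX0, mul_comm]
    rw [h2, ← h1, ← hXX]
    have h3 : (A : ℝ) * ((s : ℝ) / X) ^ 2 + B * ((s : ℝ) / X) * ((t : ℝ) / X) +
        C * ((t : ℝ) / X) ^ 2 = (A * s ^ 2 + B * s * t + C * t ^ 2) / X ^ 2 := by
      field_simp
    rw [h3, div_le_one (by positivity)]
  -- the classes
  have hgq : Nat.Coprime q g := Nat.Coprime.coprime_dvd_right ⟨d', hd'⟩ hdq.symm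
  obtain ⟨e, he⟩ := cn1_crt hgq t₀ 0
  have hM : 1 ≤ q * g := Nat.mul_pos hq hg0
  obtain ⟨v, hvM, hv⟩ := cn1_ap hM e
  -- the count for fixed t
  have hcol : ∀ t : ℕ, ∃ n : ℕ, n = ((Finset.Icc 1 T).filter (fun s : ℕ =>
      (A : ℝ) * s ^ 2 + B * s * t + C * t ^ 2 ≤ x ∧
        (q : ℤ) ∣ s - s₀ ∧ (q : ℤ) ∣ t - t₀ ∧ (d : ℤ) ∣ s * α + t * β)).card ∧
      ((((q * g : ℕ) : ℤ) ∣ (t : ℤ) - e → |(n : ℝ) - f t / ((q * d' : ℕ) : ℝ)| ≤ 2) ∧
      (¬ ((q * g : ℕ) : ℤ) ∣ (t : ℤ) - e → n = 0)) := by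
    intro t
    refine ⟨_, rfl, ?_, ?_⟩
    · intro ht
      have h1 := (he t).2 ht
      rw [sub_zero] at h1
      obtain ⟨a, ha⟩ := (cn1_line hd hdq hl hg s₀ t).2 h1.2
      have h2 : (Finset.Icc 1 T).filter (fun s : ℕ =>
          (A : ℝ) * s ^ 2 + B * s * t + C * t ^ 2 ≤ x ∧
          (q : ℤ) ∣ s - s₀ ∧ (q : ℤ) ∣ t - t₀ ∧ (d : ℤ) ∣ s * α + t * β) =
          (Finset.Icc 1 ⌊f t⌋₊).filter (fun s : ℕ => ((q * d' : ℕ) : ℤ) ∣ (s : ℤ) - a) := by
        ext s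
        rw [Finset.mem_filter, Finset.mem_filter, Finset.mem_Icc, Finset.mem_Icc]
        have h3 := ha s
        rw [hdg] at h3
        constructor
        · rintro ⟨⟨h4, _⟩, h5, h6, _, h8⟩
          exact ⟨⟨h4, (hreg s t h4).1 h5⟩, h3.1 ⟨h6, h8⟩⟩
        · rintro ⟨⟨h4, h5⟩, h6⟩
          have h7 := h3.2 h6
          refine ⟨⟨h4, ?_⟩, (hreg s t h4).2 h5, h7.1, h1.1, h7.2⟩
          rw [hT]
          exact h5.trans (Nat.floor_le_floor (hfX t))
      rw [h2]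
      exact cn1_res (Nat.mul_pos hq hd0) a (hf0 t)
    · intro ht
      rw [Finset.card_eq_zero, Finset.filter_eq_empty_iff]
      rintro s _ ⟨_, _, h6, h8⟩
      by_cases h1 : (g : ℤ) ∣ t
      · exact ht ((he t).1 ⟨h6, by rw [sub_zero]; exact h1⟩)
      · exact (cn1_line hd hdq hl hg s₀ t).1 h1 s h8
  choose n hn1 hn2 hn3 using hcol
  -- the sum over t
  have hcard : (((Finset.Icc 1 T) ×ˢ (Finset.Icc 0 T)).filter
      (fun z : ℕ × ℕ => (A : ℝ) * z.1 ^ 2 + B * z.1 * z.2 + C * z.2 ^ 2 ≤ x ∧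
        (q : ℤ) ∣ z.1 - s₀ ∧ (q : ℤ) ∣ z.2 - t₀ ∧ (d : ℤ) ∣ z.1 * α + z.2 * β)).card =
      ∑ t ∈ Finset.Icc 0 T, n t := by
    rw [Finset.card_filter, Finset.sum_product_right]
    apply Finset.sum_congr rfl
    intro t _
    rw [hn1, Finset.card_filter]
  have hsum1 : ∑ t ∈ Finset.Icc 0 T, n t =
      ∑ t ∈ (Finset.Icc 0 T).filter (fun t : ℕ => ((q * g : ℕ) : ℤ) ∣ (t : ℤ) - e), n t := by
    rw [Finset.sum_filter]
    apply Finset.sum_congr rfl
    intro t _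
    by_cases h : ((q * g : ℕ) : ℤ) ∣ (t : ℤ) - e
    · rw [if_pos h]
    · rw [if_neg h, hn3 t h]
  rw [hcard, hsum1]
  obtain ⟨S, hS⟩ : ∃ S, S = (Finset.Icc 0 T).filter
    (fun t : ℕ => ((q * g : ℕ) : ℤ) ∣ (t : ℤ) - e) := ⟨_, rfl⟩
  have hq1 : (1 : ℝ) ≤ q := by exact_mod_cast hq
  have hg1 : (1 : ℝ) ≤ g := by exact_mod_cast hg0
  have hd1 : (1 : ℝ) ≤ d' := by exact_mod_cast hd0
  have hScard : (S.card : ℝ) ≤ 2 * X := by
    have h1 : S.card ≤ T + 1 := by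
      rw [hS]
      refine (Finset.card_filter_le _ _).trans ?_
      rw [Nat.card_Icc]
      omega
    have h2 : (S.card : ℝ) ≤ T + 1 := by exact_mod_cast h1
    have h3 : (T : ℝ) ≤ X := by rw [hT]; exact Nat.floor_le hX0.le
    linarith
  have hsumf : ∑ t ∈ S, f t = ∑ i ∈ Finset.range (T + 1), f (v + (q * g) * i) := by
    rw [hS]
    exact hv T (T + 1) f hfT (Nat.lt_succ_self T)
  have hmain := cn1_sum (A := (A : ℝ)) (B := (B : ℝ)) (C := (C : ℝ)) hA1 hB0 hC1 hX1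
    (M := ((q * g : ℕ) : ℝ)) (v := (v : ℝ)) (by exact_mod_cast hM) (Nat.cast_nonneg v)
    (by exact_mod_cast hvM.le) (N := T + 1)
    (by rw [hT]; push_cast; exact (Nat.lt_floor_add_one X).le)
  have hmain2 : |∑ t ∈ S, f t - cn1_kap A B C * x / ((q * g : ℕ) : ℝ)| ≤ X := by
    rw [hsumf, hf]
    rw [hXX] at hmain
    have h1 : ∀ i : ℕ, X * cn1_sg A B C (((v + (q * g) * i : ℕ) : ℝ) / X) =
        X * cn1_sg A B C (((v : ℝ) + ((q * g : ℕ) : ℝ) * i) / X) := by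
      intro i
      push_cast
      rfl
    simp_rw [h1]
    exact hmain
  have herr : |((∑ t ∈ S, n t : ℕ) : ℝ) - (∑ t ∈ S, f t) / ((q * d' : ℕ) : ℝ)| ≤ 2 * S.card := by
    push_cast
    rw [Finset.sum_div, ← Finset.sum_sub_distrib]
    refine (Finset.abs_sum_le_sum_abs _ _).trans ?_
    have h1 : ∀ t ∈ S, |(n t : ℝ) - f t / ((q : ℝ) * (d' : ℝ))| ≤ 2 := by
      intro t ht
      rw [hS, Finset.mem_filter] at ht
      have := hn2 t ht.2
      push_cast at this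
      exact this
    refine (Finset.sum_le_sum h1).trans ?_
    rw [Finset.sum_const, nsmul_eq_mul]
    linarith
  have hdiv : |(∑ t ∈ S, f t) / ((q * d' : ℕ) : ℝ) -
      cn1_kap A B C * x / ((q : ℝ) ^ 2 * d)| ≤ X := by
    have e1 : (∑ t ∈ S, f t) / ((q * d' : ℕ) : ℝ) - cn1_kap A B C * x / ((q : ℝ) ^ 2 * d) =
        (∑ t ∈ S, f t - cn1_kap A B C * x / ((q * g : ℕ) : ℝ)) / ((q * d' : ℕ) : ℝ) := by
      have e2 : (d : ℝ) = g * d' := by rw [hd']; push_cast; ring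
      rw [e2]
      push_cast
      have hq0 : (q : ℝ) ≠ 0 := by linarith
      have hg00 : (g : ℝ) ≠ 0 := by linarith
      have hd00 : (d' : ℝ) ≠ 0 := by linarith
      field_simp
    rw [e1, abs_div]
    have h2 : (1 : ℝ) ≤ |((q * d' : ℕ) : ℝ)| := by
      rw [abs_of_nonneg (Nat.cast_nonneg _)]
      push_cast
      nlinarith
    rw [div_le_iff₀ (by linarith)]
    calc |∑ t ∈ S, f t - cn1_kap A B C * x / ((q * g : ℕ) : ℝ)| ≤ X := hmain2
      _ ≤ X * |((q * d' : ℕ) : ℝ)| := le_mul_of_one_le_right hX0.le h2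
  rw [← hS]
  have e3 : ((∑ t ∈ S, n t : ℕ) : ℝ) - cn1_kap A B C * x / ((q : ℝ) ^ 2 * d) =
      (((∑ t ∈ S, n t : ℕ) : ℝ) - (∑ t ∈ S, f t) / ((q * d' : ℕ) : ℝ)) +
      ((∑ t ∈ S, f t) / ((q * d' : ℕ) : ℝ) - cn1_kap A B C * x / ((q : ℝ) ^ 2 * d)) := by ring
  rw [e3]
  refine (abs_add_le _ _).trans ?_
  linarith

theorem quad_count : type_of% @quad_count_pr := @quad_count_pr

end Pool.Agent.AQM
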