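import Pool.Agent.Lib_helper39.AQM.Defs
import Pool.Agent.Lib_helper39.AQM.AB
import Pool.Agent.Lib_helper39.MQX.ALG
import Pool.Agent.Lib_helper39.MQX.SBA
import Pool.Agent.Lib_helper39.MQX.SBB
import Pool.Agent.Lib_helper39.MQX.SBC
import Pool.Agent.Lib_helper39.MQX.LSV
import Pool.Agent.Lib_helper39.MQX.PAR
import Pool.Agent.Lib_helper39.MQX.FEJ
import Pool.Agent.Lib_helper39.MQX.EXP
import Pool.Agent.Lib_helper39.AQMF.CN1

/-! block CN2 of AQM, proved by helper77 -/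

/-! AQM, block CN2: lattice points in the window, residue classes and lines. -/

set_option autoImplicit false

namespace Pool.Agent.AQM

open Pool.Agent.MQ Pool.Agent.T2 Filter Topology MeasureTheory

section
variable {b c : ℤ} (S : Sys b c)

theorem cn2_dt_cn (e : ℕ → El) (i s t : ℕ) (r : El) :
    dt (cn e i s t) r = s * dt (e i) r + t * dt (e (i + 1)) r := by
  simp only [dt, cn]
  ring

theorem cn2_det (i : ℕ) (hi : i < S.r) :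
    (S.e i).1 * (S.e (i + 1)).2 - (S.e i).2 * (S.e (i + 1)).1 = 1 := S.e_det i hi

theorem cn2_class (i : ℕ) (hi : i < S.r) (q : ℤ) (v₀ : El) (s t : ℕ) :
    dv q (cn S.e i s t - v₀) ↔ q ∣ (s : ℤ) - dt v₀ (S.e (i + 1)) ∧ q ∣ (t : ℤ) - dt (S.e i) v₀ := by
  have hd := cn2_det S i hi
  have e1 : (cn S.e i s t - v₀).1 = (s : ℤ) * (S.e i).1 + t * (S.e (i + 1)).1 - v₀.1 := rfl
  have e2 : (cn S.e i s t - v₀).2 = (s : ℤ) * (S.e i).2 + t * (S.e (i + 1)).2 - v₀.2 := rfl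
  unfold dv
  rw [e1, e2]
  unfold dt
  constructor
  · rintro ⟨h1, h2⟩
    constructor
    · have h3 := dvd_sub (h1.mul_right (S.e (i + 1)).2) (h2.mul_right (S.e (i + 1)).1)
      have h4 : ((s : ℤ) * (S.e i).1 + t * (S.e (i + 1)).1 - v₀.1) * (S.e (i + 1)).2 -
          ((s : ℤ) * (S.e i).2 + t * (S.e (i + 1)).2 - v₀.2) * (S.e (i + 1)).1 =
          (s : ℤ) - (v₀.1 * (S.e (i + 1)).2 - v₀.2 * (S.e (i + 1)).1) := by
        linear_combination (s : ℤ) * hd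
      rwa [h4] at h3
    · have h3 := dvd_sub (h2.mul_right (S.e i).1) (h1.mul_right (S.e i).2)
      have h4 : ((s : ℤ) * (S.e i).2 + t * (S.e (i + 1)).2 - v₀.2) * (S.e i).1 -
          ((s : ℤ) * (S.e i).1 + t * (S.e (i + 1)).1 - v₀.1) * (S.e i).2 =
          (t : ℤ) - ((S.e i).1 * v₀.2 - (S.e i).2 * v₀.1) := by
        linear_combination (t : ℤ) * hd
      rwa [h4] at h3
  · rintro ⟨h1, h2⟩
    constructor
    · have h3 := dvd_add (h1.mul_right (S.e i).1) (h2.mul_right (S.e (i + 1)).1)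
      have h4 : ((s : ℤ) - (v₀.1 * (S.e (i + 1)).2 - v₀.2 * (S.e (i + 1)).1)) * (S.e i).1 +
          ((t : ℤ) - ((S.e i).1 * v₀.2 - (S.e i).2 * v₀.1)) * (S.e (i + 1)).1 =
          (s : ℤ) * (S.e i).1 + t * (S.e (i + 1)).1 - v₀.1 := by
        linear_combination (-v₀.1) * hd
      rwa [h4] at h3
    · have h3 := dvd_add (h1.mul_right (S.e i).2) (h2.mul_right (S.e (i + 1)).2)
      have h4 : ((s : ℤ) - (v₀.1 * (S.e (i + 1)).2 - v₀.2 * (S.e (i + 1)).1)) * (S.e i).2 +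
          ((t : ℤ) - ((S.e i).1 * v₀.2 - (S.e i).2 * v₀.1)) * (S.e (i + 1)).2 =
          (s : ℤ) * (S.e i).2 + t * (S.e (i + 1)).2 - v₀.2 := by
        linear_combination (-v₀.2) * hd
      rwa [h4] at h3

theorem cn2_line (i : ℕ) (hi : i < S.r) (l : ℤ) (r : El) (h1 : l ∣ dt (S.e i) r)
    (h2 : l ∣ dt (S.e (i + 1)) r) : dv l r := by
  have hd := cn2_det S i hi
  unfold dt at h1 h2
  constructor
  · have h3 := dvd_sub (h1.mul_right (S.e (i + 1)).1) (h2.mul_right (S.e i).1)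
    have h4 : ((S.e i).1 * r.2 - (S.e i).2 * r.1) * (S.e (i + 1)).1 -
        ((S.e (i + 1)).1 * r.2 - (S.e (i + 1)).2 * r.1) * (S.e i).1 = r.1 := by
      linear_combination r.1 * hd
    rwa [h4] at h3
  · have h3 := dvd_sub (h1.mul_right (S.e (i + 1)).2) (h2.mul_right (S.e i).2)
    have h4 : ((S.e i).1 * r.2 - (S.e i).2 * r.1) * (S.e (i + 1)).2 -
        ((S.e (i + 1)).1 * r.2 - (S.e (i + 1)).2 * r.1) * (S.e i).2 = r.2 := by
      linear_combination r.2 * hd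
    rwa [h4] at h3

/-- the cones are disjoint -/
theorem cn2_disj {i j s t s' t' : ℕ} (hij : i < j) (hj : j < S.r) (hs : 1 ≤ s) (hs' : 1 ≤ s') :
    cn S.e i s t ≠ cn S.e j s' t' := by
  intro h
  have hi : i < S.r := hij.trans hj
  obtain ⟨M, hM, hM'⟩ := sbc_bound S
  have hv : S.wd (cn S.e i s t) := (S.e_wd _).2 ⟨i, s, t, hi, hs, rfl⟩
  have h0 : (0 : ℝ) < nm b c (cn S.e i s t) := by exact_mod_cast wd_nm S hv
  have h1 := sbc_gap S hM hM' hi hs (X := 1 + nm b c (cn S.e i s t)) (t := t) (by linarith)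
    (by linarith)
  have h2 := sbc_mono S (show i + 1 ≤ j from hij) hj.le
  have h3 := sbc_low S (i := j) (s := s') (t := t') hj (by omega)
  have h4 : 0 < S.c₁ / M / (1 + nm b c (cn S.e i s t)) := by
    have := S.c₁_pos
    positivity
  rw [← h] at h3
  linarith

theorem cn2_size {A B C : ℤ} (hA : 0 < A) (hB : 0 < B) (hC : 0 < C) {s t : ℕ} {x : ℝ}
    (h : (A : ℝ) * s ^ 2 + B * s * t + C * t ^ 2 ≤ x) :
    s ≤ ⌊Real.sqrt x⌋₊ ∧ t ≤ ⌊Real.sqrt x⌋₊ := by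
  have hA' : (1 : ℝ) ≤ A := by exact_mod_cast hA
  have hB' : (0 : ℝ) ≤ B := by exact_mod_cast hB.le
  have hC' : (1 : ℝ) ≤ C := by exact_mod_cast hC
  have hs : (0 : ℝ) ≤ s := by positivity
  have ht : (0 : ℝ) ≤ t := by positivity
  have h1 : (0 : ℝ) ≤ B * s * t := by positivity
  have h2 : (s : ℝ) ^ 2 ≤ A * s ^ 2 := by nlinarith [sq_nonneg (s : ℝ)]
  have h3 : (t : ℝ) ^ 2 ≤ C * t ^ 2 := by nlinarith [sq_nonneg (t : ℝ)]
  constructor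
  · apply Nat.le_floor
    apply Real.le_sqrt_of_sq_le
    nlinarith [sq_nonneg (t : ℝ)]
  · apply Nat.le_floor
    apply Real.le_sqrt_of_sq_le
    nlinarith [sq_nonneg (s : ℝ)]

end

open Classical in
theorem cls_count_pr {b c : ℤ} (S : Sys b c) : ∃ κ : ℝ, 0 < κ ∧ ∀ q : ℕ, 1 ≤ q → ∃ C : ℝ, 1 ≤ C ∧
    ∀ (v₀ r : El) (d : ℕ), 1 ≤ d → Nat.Coprime d q → (∀ l : ℕ, l.Prime → l ∣ d → ¬ dv l r) →
    ∀ x : ℝ, 1 ≤ x → |(((S.MF x).filter (fun w => dv q (w - v₀) ∧ (d : ℤ) ∣ dt w r)).card : ℝ) -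
      κ * x / ((q : ℝ) ^ 2 * d)| ≤ C * Real.sqrt x := by
  set B : ℕ → ℤ := fun i => nm b c (cn S.e i 1 1) - nm b c (S.e i) - nm b c (S.e (i + 1)) with hB
  have hex : ∀ i : ℕ, ∃ κ : ℝ, i < S.r → 0 < κ ∧ ∀ q : ℕ, 1 ≤ q → ∃ K : ℝ, 1 ≤ K ∧
      ∀ (s₀ t₀ α β : ℤ) (d : ℕ), 1 ≤ d → Nat.Coprime d q →
      (∀ l : ℕ, l.Prime → l ∣ d → ¬ ((l : ℤ) ∣ α ∧ (l : ℤ) ∣ β)) → ∀ x : ℝ, 1 ≤ x →
      |((((Finset.Icc 1 ⌊Real.sqrt x⌋₊) ×ˢ (Finset.Icc 0 ⌊Real.sqrt x⌋₊)).filter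
        (fun z : ℕ × ℕ => ((nm b c (S.e i) : ℤ) : ℝ) * z.1 ^ 2 + ((B i : ℤ) : ℝ) * z.1 * z.2 +
          ((nm b c (S.e (i + 1)) : ℤ) : ℝ) * z.2 ^ 2 ≤ x ∧
          (q : ℤ) ∣ z.1 - s₀ ∧ (q : ℤ) ∣ z.2 - t₀ ∧ (d : ℤ) ∣ z.1 * α + z.2 * β)).card : ℝ) -
        κ * x / ((q : ℝ) ^ 2 * d)| ≤ K * Real.sqrt x := by
    intro i
    by_cases hi : i < S.r
    · obtain ⟨κ, h1, h2⟩ := quad_count (nm b c (S.e i)) (B i) (nm b c (S.e (i + 1)))
        (S.e_nm i hi.le) (S.e_ac i hi) (S.e_nm (i + 1) hi)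
      exact ⟨κ, fun _ => ⟨h1, h2⟩⟩
    · exact ⟨0, fun h => absurd h hi⟩
  choose κ hκ using hex
  refine ⟨∑ i ∈ Finset.range S.r, κ i, ?_, ?_⟩
  · apply Finset.sum_pos
    · intro i hi
      exact (hκ i (Finset.mem_range.1 hi)).1
    · exact Finset.nonempty_range_iff.2 (by have := S.r_pos; omega)
  intro q hq
  have hex2 : ∀ i : ℕ, ∃ K : ℝ, 1 ≤ K ∧ (i < S.r → 
      ∀ (s₀ t₀ α β : ℤ) (d : ℕ), 1 ≤ d → Nat.Coprime d q →
      (∀ l : ℕ, l.Prime → l ∣ d → ¬ ((l : ℤ) ∣ α ∧ (l : ℤ) ∣ β)) → ∀ x : ℝ, 1 ≤ x →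
      |((((Finset.Icc 1 ⌊Real.sqrt x⌋₊) ×ˢ (Finset.Icc 0 ⌊Real.sqrt x⌋₊)).filter
        (fun z : ℕ × ℕ => ((nm b c (S.e i) : ℤ) : ℝ) * z.1 ^ 2 + ((B i : ℤ) : ℝ) * z.1 * z.2 +
          ((nm b c (S.e (i + 1)) : ℤ) : ℝ) * z.2 ^ 2 ≤ x ∧
          (q : ℤ) ∣ z.1 - s₀ ∧ (q : ℤ) ∣ z.2 - t₀ ∧ (d : ℤ) ∣ z.1 * α + z.2 * β)).card : ℝ) -
        κ i * x / ((q : ℝ) ^ 2 * d)| ≤ K * Real.sqrt x) := by
    intro i
    by_cases hi : i < S.r
    · obtain ⟨K, h1, h2⟩ := (hκ i hi).2 q hq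
      exact ⟨K, h1, fun _ => h2⟩
    · exact ⟨1, le_rfl, fun h => absurd h hi⟩
  choose K hK using hex2
  refine ⟨∑ i ∈ Finset.range S.r, K i, ?_, ?_⟩
  · have h0 : (0 : ℕ) ∈ Finset.range S.r := Finset.mem_range.2 S.r_pos
    exact (hK 0).1.trans (Finset.single_le_sum (f := K)
      (fun i _ => le_trans zero_le_one (hK i).1) h0)
  intro v₀ r d hd hdq hlr x hx
  set Q : ℕ → Finset (ℕ × ℕ) := fun i =>
    ((Finset.Icc 1 ⌊Real.sqrt x⌋₊) ×ˢ (Finset.Icc 0 ⌊Real.sqrt x⌋₊)).filter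
        (fun z : ℕ × ℕ => ((nm b c (S.e i) : ℤ) : ℝ) * z.1 ^ 2 + ((B i : ℤ) : ℝ) * z.1 * z.2 +
          ((nm b c (S.e (i + 1)) : ℤ) : ℝ) * z.2 ^ 2 ≤ x ∧
          (q : ℤ) ∣ z.1 - dt v₀ (S.e (i + 1)) ∧ (q : ℤ) ∣ z.2 - dt (S.e i) v₀ ∧
          (d : ℤ) ∣ z.1 * dt (S.e i) r + z.2 * dt (S.e (i + 1)) r) with hQ
  have hnm : ∀ i s t : ℕ, ((nm b c (cn S.e i s t) : ℤ) : ℝ) =
      ((nm b c (S.e i) : ℤ) : ℝ) * (s : ℝ) ^ 2 + ((B i : ℤ) : ℝ) * s * t +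
          ((nm b c (S.e (i + 1)) : ℤ) : ℝ) * (t : ℝ) ^ 2 := by
    intro i s t
    rw [sbb_nm b c S.e i s t]
    simp only [hB]
    push_cast
    ring
  have hset : (S.MF x).filter (fun w => dv q (w - v₀) ∧ (d : ℤ) ∣ dt w r) =
      (Finset.range S.r).biUnion (fun i => (Q i).image (fun z : ℕ × ℕ => cn S.e i z.1 z.2)) := by
    ext w
    simp only [Finset.mem_filter, Finset.mem_biUnion, Finset.mem_image, Finset.mem_range, hQ,
      Finset.mem_product, Finset.mem_Icc, Prod.exists]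
    constructor
    · rintro ⟨hw, hcl, hln⟩
      obtain ⟨hwd, hwx⟩ := (mem_MF S).1 hw
      obtain ⟨i, s, t, hi, hs, rfl⟩ := (S.e_wd w).1 hwd
      rw [hnm] at hwx
      have hsz := cn2_size (S.e_nm i hi.le) (S.e_ac i hi) (S.e_nm (i + 1) hi) hwx
      rw [cn2_class S i hi] at hcl
      rw [cn2_dt_cn] at hln
      exact ⟨i, hi, s, t, ⟨⟨⟨hs, hsz.1⟩, ⟨Nat.zero_le _, hsz.2⟩⟩, hwx, hcl.1, hcl.2, hln⟩, rfl⟩
    · rintro ⟨i, hi, s, t, ⟨⟨⟨hs, -⟩, -⟩, hwx, h1, h2, h3⟩, rfl⟩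
      refine ⟨(mem_MF S).2 ⟨(S.e_wd _).2 ⟨i, s, t, hi, hs, rfl⟩, ?_⟩, ?_, ?_⟩
      · rw [hnm]
        exact hwx
      · rw [cn2_class S i hi]
        exact ⟨h1, h2⟩
      · rw [cn2_dt_cn]
        exact h3
  have hcard : ((S.MF x).filter (fun w => dv q (w - v₀) ∧ (d : ℤ) ∣ dt w r)).card =
      ∑ i ∈ Finset.range S.r, (Q i).card := by
    rw [hset, Finset.card_biUnion]
    · apply Finset.sum_congr rfl
      intro i hi
      apply Finset.card_image_of_injOn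
      rintro ⟨s, t⟩ - ⟨s', t'⟩ - h
      obtain ⟨h1, h2⟩ := sbb_inj S (Finset.mem_range.1 hi) h
      exact Prod.ext h1 h2
    · intro i hi j hj hij
      rw [Finset.mem_coe, Finset.mem_range] at hi hj
      rw [Function.onFun, Finset.disjoint_left]
      intro w hw hw'
      obtain ⟨z, hz, rfl⟩ := Finset.mem_image.1 hw
      obtain ⟨z', hz', h⟩ := Finset.mem_image.1 hw'
      simp only [hQ, Finset.mem_filter, Finset.mem_product, Finset.mem_Icc] at hz hz'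
      rcases lt_or_gt_of_ne hij with h1 | h1
      · exact cn2_disj S h1 hj hz.1.1.1 hz'.1.1.1 h.symm
      · exact cn2_disj S h1 hi hz'.1.1.1 hz.1.1.1 h
  have hmain : ∀ i ∈ Finset.range S.r, |((Q i).card : ℝ) - κ i * x / ((q : ℝ) ^ 2 * d)| ≤
      K i * Real.sqrt x := by
    intro i hi
    rw [Finset.mem_range] at hi
    exact (hK i).2 hi _ _ _ _ d hd hdq
      (fun l hl hld h => hlr l hl hld (cn2_line S i hi l r h.1 h.2)) x hx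
  rw [hcard]
  push_cast
  have e1 : (∑ i ∈ Finset.range S.r, ((Q i).card : ℝ)) -
      (∑ i ∈ Finset.range S.r, κ i) * x / ((q : ℝ) ^ 2 * d) =
      ∑ i ∈ Finset.range S.r, (((Q i).card : ℝ) - κ i * x / ((q : ℝ) ^ 2 * d)) := by
    rw [Finset.sum_sub_distrib, Finset.sum_mul, Finset.sum_div]
  rw [e1, Finset.sum_mul]
  exact (Finset.abs_sum_le_sum_abs _ _).trans (Finset.sum_le_sum hmain)

theorem cls_count : type_of% @cls_count_pr := @cls_count_pr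

end Pool.Agent.AQM
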