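import Pool.Agent.Lib_helper39.AQM.Defs
import Pool.Agent.Lib_helper39.AQM.AB
import Pool.Agent.Lib_helper39.MQX.ALG
import Pool.Agent.Lib_helper39.MQX.SBA
import Pool.Agent.Lib_helper39.MQX.SBB
import Pool.Agent.Lib_helper39.MQX.SBC
import Pool.Agent.Lib_helper39.MQX.LSV
import Pool.Agent.Lib_helper39.MQX.PAR
import Pool.Agent.Lib_helper39.MQX.FEJ
import Pool.Agent.Lib_helper39.MQX.EXP
import Pool.Agent.Lib_helper39.AQMF.CN2
import Pool.Agent.Lib_helper39.AQMF.EC3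
import Pool.Agent.Lib_helper39.AQMF.AF1

/-! block AF2 of AQM, proved by helper67 -/

/-! # AQM, block AF2: the full plane, negative discriminant -/

set_option autoImplicit false

namespace Pool.Agent.AQM

open Pool.Agent.MQ Pool.Agent.T2 Filter Topology MeasureTheory

theorem af2_wd {b c : ℤ} (S : Sys b c) (hd : dsc b c < 0) (v : El) :
    S.wd v ↔ (v.2 = 0 ∧ 0 < v.1) ∨ 0 < v.2 := by
  unfold Sys.wd wdw
  constructor
  · rintro (h | h)
    · exact Or.inl h
    · exact Or.inr h.1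
  · rintro (h | h)
    · exact Or.inl h
    · exact Or.inr ⟨h, Or.inl hd⟩

theorem af2_or {b c : ℤ} (S : Sys b c) (hd : dsc b c < 0) {v : El} (hv : v ≠ 0) :
    S.wd v ∨ S.wd (-v) := by
  rw [af2_wd S hd, af2_wd S hd, Prod.fst_neg, Prod.snd_neg]
  rcases lt_trichotomy v.2 0 with h | h | h
  · right; right; omega
  · rcases lt_trichotomy v.1 0 with h1 | h1 | h1
    · right; left; omega
    · exact absurd (Prod.ext h1 h) hv
    · left; left; exact ⟨h, h1⟩
  · left; right; exact h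

theorem af2_not {b c : ℤ} (S : Sys b c) (hd : dsc b c < 0) {v : El} (h : S.wd v) :
    ¬ S.wd (-v) := by
  rw [af2_wd S hd] at h ⊢
  rw [Prod.fst_neg, Prod.snd_neg]
  omega

theorem af2_ne {b c : ℤ} (S : Sys b c) (hd : dsc b c < 0) {v : El} (h : S.wd v) : v ≠ 0 := by
  rintro rfl
  rw [af2_wd S hd] at h
  simp at h

theorem af2_nm {b c : ℤ} (hd : dsc b c < 0) {v : El} (hv : v ≠ 0) : 0 < nm b c v := by
  have h1 : 4 * nm b c v = (2 * v.1 + b * v.2) ^ 2 + (-dsc b c) * v.2 ^ 2 := by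
    unfold nm dsc
    ring
  by_cases h2 : v.2 = 0
  · have h3 : v.1 ≠ 0 := fun h => hv (Prod.ext h h2)
    unfold nm
    rw [h2]
    have : 0 < v.1 ^ 2 := by positivity
    linarith
  · have h3 : 0 < v.2 ^ 2 := by positivity
    have h4 : 0 < (-dsc b c) * v.2 ^ 2 := mul_pos (by linarith) h3
    nlinarith [sq_nonneg (2 * v.1 + b * v.2)]

theorem af2_nm_neg (b c : ℤ) (v : El) : nm b c (-v) = nm b c v := by
  unfold nm
  rw [Prod.fst_neg, Prod.snd_neg]
  ring

open Classical in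
/-- the coordinate -/
noncomputable def af2_u {b c : ℤ} (S : Sys b c) (v : El) : ℝ :=
  if S.wd v then S.u v / 2 else (S.u (-v) + 1) / 2

theorem af2_u1 {b c : ℤ} (S : Sys b c) {v : El} (h : S.wd v) : af2_u S v = S.u v / 2 := by
  unfold af2_u
  rw [if_pos h]

theorem af2_u2 {b c : ℤ} (S : Sys b c) (hd : dsc b c < 0) {v : El} (h : S.wd (-v)) :
    af2_u S v = (S.u (-v) + 1) / 2 := by
  unfold af2_u
  rw [if_neg]
  intro h1
  exact af2_not S hd h1 h

theorem af2_uneg {b c : ℤ} (S : Sys b c) (hd : dsc b c < 0) {v : El} (hv : v ≠ 0) :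
    ∃ n : ℤ, af2_u S (-v) = af2_u S v + 1 / 2 + n := by
  rcases af2_or S hd hv with h | h
  · refine ⟨0, ?_⟩
    rw [af2_u1 S h, af2_u2 S hd (v := -v) (by rw [neg_neg]; exact h), neg_neg]
    push_cast
    ring
  · refine ⟨-1, ?_⟩
    rw [af2_u2 S hd h, af2_u1 S h]
    push_cast
    ring

theorem af2_ml_neg (b c : ℤ) (v w : El) : ml b c (-v) w = -ml b c v w := by
  unfold ml
  ext
  · simp only [Prod.fst_neg, Prod.snd_neg]; ring
  · simp only [Prod.fst_neg, Prod.snd_neg]; ring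

theorem af2_ml_neg' (b c : ℤ) (v w : El) : ml b c v (-w) = -ml b c v w := by
  unfold ml
  ext
  · simp only [Prod.fst_neg, Prod.snd_neg]; ring
  · simp only [Prod.fst_neg, Prod.snd_neg]; ring

theorem af2_ml_ne {b c : ℤ} (hd : dsc b c < 0) {v w : El} (hv : v ≠ 0) (hw : w ≠ 0) :
    ml b c v w ≠ 0 := by
  intro h
  have h1 := nm_ml b c v w
  rw [h] at h1
  have h2 := mul_pos (af2_nm hd hv) (af2_nm hd hw)
  have h3 : nm b c (0 : El) = 0 := by simp [nm]
  omega

/-- additivity on the window -/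
theorem af2_hom0 {b c : ℤ} (S : Sys b c) (hd : dsc b c < 0) {v w : El} (hv : S.wd v)
    (hw : S.wd w) : af2_u S (ml b c v w) = af2_u S v + af2_u S w := by
  have h1 := u_plane S hd hv hw
  rw [af2_u1 S hv, af2_u1 S hw]
  rcases lt_or_ge (S.u v + S.u w) 1 with h | h
  · obtain ⟨h2, h3⟩ := h1.1 h
    rw [af2_u1 S h2, h3]
    ring
  · obtain ⟨h2, h3⟩ := h1.2 h
    rw [af2_u2 S hd h2, h3]
    ring

theorem af2_hom {b c : ℤ} (S : Sys b c) (hd : dsc b c < 0) {v w : El} (hv : v ≠ 0)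
    (hw : w ≠ 0) : ∃ n : ℤ, af2_u S (ml b c v w) = af2_u S v + af2_u S w + n := by
  -- first `w` in the window
  have key : ∀ v w : El, v ≠ 0 → S.wd w →
      ∃ n : ℤ, af2_u S (ml b c v w) = af2_u S v + af2_u S w + n := by
    intro v w hv hw
    rcases af2_or S hd hv with h | h
    · exact ⟨0, by rw [af2_hom0 S hd h hw]; push_cast; ring⟩
    · have h1 := af2_hom0 S hd h hw
      rw [af2_ml_neg] at h1
      obtain ⟨n, hn⟩ := af2_uneg S hd hv
      obtain ⟨m, hm⟩ := af2_uneg S hd (af2_ml_ne hd hv (af2_ne S hd hw))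
      refine ⟨n - m, ?_⟩
      push_cast
      linarith
  rcases af2_or S hd hw with h | h
  · exact key v w hv h
  · obtain ⟨k, hk⟩ := key v (-w) hv h
    rw [af2_ml_neg'] at hk
    obtain ⟨n, hn⟩ := af2_uneg S hd hw
    obtain ⟨m, hm⟩ := af2_uneg S hd (af2_ml_ne hd hv hw)
    refine ⟨k + n - m, ?_⟩
    push_cast
    linarith

/-- the units of the window are `1` and `-1` -/
theorem af2_rp {b c : ℤ} (S : Sys b c) (hd : dsc b c < 0) {v : El} (h : S.wd (-v)) :
    S.rp v = -v := by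
  have hv : v ≠ 0 := by
    intro h0
    exact af2_ne S hd h (by rw [h0, neg_zero])
  have hv0 := af2_nm hd hv
  obtain ⟨w, h1, h2, h3⟩ := S.rp_unit v hv0
  have hone : (0 : ℤ) < nm b c (1, 0) := by simp [nm]
  have hwd1 : S.wd (1, 0) := by
    rw [af2_wd S hd]
    left
    simp
  have hrp1 : S.rp (1, 0) = (1, 0) := S.rp_self _ hwd1
  -- `w` is not in the window unless it is one
  have g1 : S.wd w → w = (1, 0) := by
    intro hw
    have h4 := h2 (1, 0) hone
    rw [ml_one, S.rp_self w hw, hrp1] at h4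
    exact h4
  have g2 : S.wd (cj b w) → cj b w = (1, 0) := by
    intro hw
    have h5 : 0 < nm b c (cj b w) := by rw [nm_cj, h1]; norm_num
    have h4 := h2 (cj b w) h5
    rw [S.rp_self _ hw, ml_comm, ml_cj_self, h1, hrp1] at h4
    exact h4.symm
  have hw2 : w.2 = 0 := by
    rcases lt_trichotomy w.2 0 with h4 | h4 | h4
    · have h5 : S.wd (cj b w) := by
        rw [af2_wd S hd]
        right
        simp only [cj]
        omega
      have h6 := congrArg Prod.snd (g2 h5)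
      simp only [cj] at h6
      omega
    · exact h4
    · have h5 : S.wd w := by
        rw [af2_wd S hd]
        right
        exact h4
      have h6 := congrArg Prod.snd (g1 h5)
      simp only at h6
      omega
  have hw1 : w.1 ^ 2 = 1 := by
    unfold nm at h1
    rw [hw2] at h1
    linarith
  have hw1' : w.1 = 1 ∨ w.1 = -1 := by
    rcases mul_eq_zero.1 (show (w.1 - 1) * (w.1 + 1) = 0 by linear_combination hw1) with h | h
    · left; linarith
    · right; linarith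
  rcases hw1' with h4 | h4
  · exfalso
    have h5 : w = (1, 0) := Prod.ext h4 hw2
    have h6 : S.rp v = v := by
      rw [h3, h5, ml_comm, ml_one]
    have h7 := S.rp_wd v hv0
    rw [h6] at h7
    exact af2_not S hd h7 h
  · have h5 : w = -(1, 0) := Prod.ext (by rw [h4]; rfl) (by rw [hw2]; rfl)
    rw [h3, h5, af2_ml_neg, ml_comm, ml_one]

theorem af2_uS {b c : ℤ} (S : Sys b c) (hd : dsc b c < 0) {v : El} (hv : v ≠ 0) :
    ∃ n : ℤ, (2 : ℝ) * af2_u S v = S.u (S.rp v) + n := by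
  rcases af2_or S hd hv with h | h
  · refine ⟨0, ?_⟩
    rw [af2_u1 S h, S.rp_self v h]
    push_cast
    ring
  · refine ⟨1, ?_⟩
    rw [af2_u2 S hd h, af2_rp S hd h]
    push_cast
    ring

theorem af2_fin {b c : ℤ} (S : Sys b c) (hd : dsc b c < 0) (X : ℝ) :
    {v : El | v ≠ 0 ∧ (nm b c v : ℝ) ≤ X}.Finite := by
  classical
  apply Set.Finite.subset ((S.MF X ∪ (S.MF X).image (fun v => -v)).finite_toSet)
  rintro v ⟨h1, h2⟩
  rw [Finset.mem_coe, Finset.mem_union, Finset.mem_image]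
  rcases af2_or S hd h1 with h | h
  · left
    rw [mem_MF]
    exact ⟨h, h2⟩
  · right
    refine ⟨-v, ?_, neg_neg v⟩
    rw [mem_MF, af2_nm_neg]
    exact ⟨h, h2⟩

theorem af2_par {v w : El} (hv : Pm v) (hw : Pm w) (h : dt v w = 0) : w = v ∨ w = -v := by
  unfold Pm at hv hw
  have h1 : IsCoprime v.1 v.2 := Int.isCoprime_iff_gcd_eq_one.2 hv
  have h2 : IsCoprime w.1 w.2 := Int.isCoprime_iff_gcd_eq_one.2 hw
  obtain ⟨a, a', ha⟩ := h1
  have h3 : v.1 * w.2 - v.2 * w.1 = 0 := h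
  set k := a * w.1 + a' * w.2 with hk
  have h4 : w.1 = k * v.1 := by
    rw [hk]
    linear_combination (-w.1) * ha - a' * h3
  have h5 : w.2 = k * v.2 := by
    rw [hk]
    linear_combination (-w.2) * ha + a * h3
  have h6 : IsUnit k := h2.isUnit_of_dvd' ⟨v.1, h4⟩ ⟨v.2, h5⟩
  rcases Int.isUnit_iff.1 h6 with h7 | h7
  · left
    rw [h7, one_mul] at h4 h5
    exact Prod.ext h4 h5
  · right
    rw [h7] at h4 h5
    exact Prod.ext (by rw [h4, Prod.fst_neg]; ring) (by rw [h5, Prod.snd_neg]; ring)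

theorem af2_dt {b c : ℤ} (S : Sys b c) (hd : dsc b c < 0) {v w : El} (hv : S.wd v)
    (hw : S.wd w) (hv1 : Pm v) (hw1 : Pm w) (h : v ≠ w) : dt v w ≠ 0 := by
  intro h1
  rcases af2_par hv1 hw1 h1 with h2 | h2
  · exact h h2.symm
  · rw [h2] at hw
    exact af2_not S hd hv hw

theorem af2_Pm {v : El} (h : Pm v) : Pm (-v) := by
  unfold Pm at h ⊢
  rw [Prod.fst_neg, Prod.snd_neg, Int.gcd_neg, Int.neg_gcd]
  exact h

theorem af2_odd (N : ℤ) (h : ¬ Even N) : 1 ≤ |(N : ℝ)| := by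
  have h1 : N ≠ 0 := by
    rintro rfl
    exact h ⟨0, rfl⟩
  have h2 : 1 ≤ |N| := Int.one_le_abs h1
  exact_mod_cast h2

/-- separation -/
theorem af2_sep {b c : ℤ} (S : Sys b c) (hd : dsc b c < 0) {δ : ℝ} (hδ1 : δ ≤ 1)
    (hsep : ∀ X : ℝ, 1 ≤ X → ∀ v w : El, S.wd v → S.wd w →
      (nm b c v : ℝ) ≤ X → (nm b c w : ℝ) ≤ X → dt v w ≠ 0 → ∀ n : ℤ,
      δ / X ≤ |S.u v - S.u w + n|) {X : ℝ} (hX : 1 ≤ X) {v w : El} (hv : v ≠ 0) (hw : w ≠ 0)
    (hv1 : Pm v) (hw1 : Pm w) (hne : v ≠ w) (hvX : (nm b c v : ℝ) ≤ X)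
    (hwX : (nm b c w : ℝ) ≤ X) (n : ℤ) : δ / 2 / X ≤ |af2_u S v - af2_u S w + n| := by
  -- two representatives in the window
  have key : ∀ (v' w' : El) (N : ℤ), S.wd v' → S.wd w' → Pm v' → Pm w' →
      (nm b c v' : ℝ) ≤ X → (nm b c w' : ℝ) ≤ X → (v' = w' → ¬ Even N) →
      δ / 2 / X ≤ |(S.u v' - S.u w' + N) / 2| := by
    intro v' w' N h1 h2 h3 h4 h5 h6 h7
    rw [abs_div, abs_two]
    have h8 : δ / 2 / X = δ / X / 2 := by ring
    rw [h8]
    apply div_le_div_of_nonneg_right _ (by norm_num)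
    by_cases h9 : v' = w'
    · rw [h9, sub_self, zero_add]
      have h10 := af2_odd N (h7 h9)
      have h11 : δ / X ≤ 1 := by
        rw [div_le_one (by linarith)]
        linarith
      linarith
    · exact hsep X hX v' w' h1 h2 h5 h6 (af2_dt S hd h1 h2 h3 h4 h9) N
  rcases af2_or S hd hv with h1 | h1 <;> rcases af2_or S hd hw with h2 | h2
  · have h3 := key v w (2 * n) h1 h2 hv1 hw1 hvX hwX (fun h => absurd h hne)
    rw [af2_u1 S h1, af2_u1 S h2]
    have h4 : (S.u v - S.u w + ((2 * n : ℤ) : ℝ)) / 2 = S.u v / 2 - S.u w / 2 + n := by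
      push_cast
      ring
    rwa [h4] at h3
  · have h3 := key v (-w) (2 * n - 1) h1 h2 hv1 (af2_Pm hw1) hvX (by rw [af2_nm_neg]; exact hwX)
      (fun _ h => by
        rw [Int.even_sub] at h
        simp at h)
    rw [af2_u1 S h1, af2_u2 S hd h2]
    have h4 : (S.u v - S.u (-w) + ((2 * n - 1 : ℤ) : ℝ)) / 2 =
        S.u v / 2 - (S.u (-w) + 1) / 2 + n := by
      push_cast
      ring
    rwa [h4] at h3
  · have h3 := key (-v) w (2 * n + 1) h1 h2 (af2_Pm hv1) hw1 (by rw [af2_nm_neg]; exact hvX) hwX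
      (fun _ h => by
        rw [Int.even_add] at h
        simp at h)
    rw [af2_u2 S hd h1, af2_u1 S h2]
    have h4 : (S.u (-v) - S.u w + ((2 * n + 1 : ℤ) : ℝ)) / 2 =
        (S.u (-v) + 1) / 2 - S.u w / 2 + n := by
      push_cast
      ring
    rwa [h4] at h3
  · have h3 := key (-v) (-w) (2 * n) h1 h2 (af2_Pm hv1) (af2_Pm hw1)
      (by rw [af2_nm_neg]; exact hvX) (by rw [af2_nm_neg]; exact hwX)
      (fun h => absurd (neg_injective h) hne)
    rw [af2_u2 S hd h1, af2_u2 S hd h2]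
    have h4 : (S.u (-v) - S.u (-w) + ((2 * n : ℤ) : ℝ)) / 2 =
        (S.u (-v) + 1) / 2 - (S.u (-w) + 1) / 2 + n := by
      push_cast
      ring
    rwa [h4] at h3

open Classical in
/-- the elements of the plane -/
theorem af2_split {b c : ℤ} (S : Sys b c) (hd : dsc b c < 0) {G : Type} [AddCommMonoid G]
    (X : ℝ) (T : Finset El) (hT : ∀ v, v ∈ T ↔ v ≠ 0 ∧ (nm b c v : ℝ) ≤ X) (P : El → Prop)
    (F : El → G) : ∑ v ∈ T.filter P, F v =
      ∑ v ∈ (S.MF X).filter P, F v + ∑ v ∈ (S.MF X).filter (fun v => P (-v)), F (-v) := by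
  have h1 : ∑ v ∈ (S.MF X).filter (fun v => P (-v)), F (-v) =
      ∑ v ∈ (T.filter P).filter (fun v => ¬ S.wd v), F v := by
    apply Finset.sum_nbij (fun v => -v)
    · intro v hv
      rw [Finset.mem_filter, mem_MF] at hv
      rw [Finset.mem_filter, Finset.mem_filter, hT, af2_nm_neg]
      refine ⟨⟨⟨neg_ne_zero.2 (af2_ne S hd hv.1.1), hv.1.2⟩, hv.2⟩, af2_not S hd hv.1.1⟩
    · intro v _ w _ h
      exact neg_injective h
    · intro v hv
      rw [Finset.mem_coe, Finset.mem_filter, Finset.mem_filter, hT] at hv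
      refine ⟨-v, ?_, neg_neg v⟩
      rw [Finset.mem_coe, Finset.mem_filter, mem_MF, af2_nm_neg, neg_neg]
      exact ⟨⟨(af2_or S hd hv.1.1.1).resolve_left hv.2, hv.1.1.2⟩, hv.1.2⟩
    · intro v _
      rfl
  have h2 : (S.MF X).filter P = (T.filter P).filter (fun v => S.wd v) := by
    ext v
    rw [Finset.mem_filter, Finset.mem_filter, Finset.mem_filter, mem_MF, hT]
    constructor
    · rintro ⟨⟨g1, g2⟩, g3⟩
      exact ⟨⟨⟨af2_ne S hd g1, g2⟩, g3⟩, g1⟩
    · rintro ⟨⟨⟨g1, g2⟩, g3⟩, g4⟩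
      exact ⟨⟨g4, g2⟩, g3⟩
  rw [h1, h2, Finset.sum_filter_add_sum_filter_not]

theorem af2_dv (q : ℕ) (v v₀ : El) : dv q (-v - v₀) ↔ dv q (v - -v₀) := by
  unfold dv
  have h1 : (-v - v₀).1 = -(v - -v₀).1 := by
    simp only [Prod.fst_sub, Prod.fst_neg]
    ring
  have h2 : (-v - v₀).2 = -(v - -v₀).2 := by
    simp only [Prod.snd_sub, Prod.snd_neg]
    ring
  rw [h1, h2, dvd_neg, dvd_neg]

/-- the angular system without the counting axioms -/
theorem af2_ang0 {b c : ℤ} (S : Sys b c) (hd : dsc b c < 0) : ∃ A : Ang0 b c, A.S = S ∧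
    A.mu = 2 ∧ (∀ v, A.wd v ↔ v ≠ 0) ∧ (∀ v, A.rp v = v) ∧ (∀ v, A.u v = af2_u S v) := by
  obtain ⟨δ, hδ, hδ1, hsep⟩ := u_sep S
  refine ⟨{
    S := S
    mu := 2
    mu_pos := by norm_num
    wd := fun v => v ≠ 0
    rp := fun v => v
    u := af2_u S
    δ := δ / 2
    δ_pos := by positivity
    δ_one := by linarith
    wd_nm := fun v hv => af2_nm hd hv
    rp_wd := ?_
    rp_self := fun _ _ => rfl
    rp_unit := ?_
    wd_sm := ?_
    u_sm := ?_
    u_hom := fun v w hv hw => af2_hom S hd hv hw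
    u_S := ?_
    fin := af2_fin S hd
    par := fun v w _ _ h1 h2 h3 => af2_par h1 h2 h3
    sep := fun X hX v w hv hw h1 h2 h3 h4 h5 n =>
      af2_sep S hd hδ1 hsep hX hv hw h1 h2 h3 h4 h5 n }, rfl, rfl, fun _ => Iff.rfl,
    fun _ => rfl, fun _ => rfl⟩
  · intro v hv h
    rw [h] at hv
    simp [nm] at hv
  · intro v _
    refine ⟨(1, 0), by simp [nm], fun z _ => ?_, ?_⟩
    · show ml b c (1, 0) z = z
      rw [ml_comm, ml_one]
    · show v = ml b c (1, 0) v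
      rw [ml_comm, ml_one]
  · intro v n hn
    have hn' : (n : ℤ) ≠ 0 := by
      have : n ≠ 0 := by omega
      exact_mod_cast this
    show sm n v ≠ 0 ↔ v ≠ 0
    apply not_congr
    constructor
    · intro h
      have h1 := congrArg Prod.fst h
      have h2 := congrArg Prod.snd h
      simp only [sm, Prod.fst_zero, Prod.snd_zero, mul_eq_zero, hn', false_or] at h1 h2
      exact Prod.ext h1 h2
    · rintro rfl
      simp [sm]
  · intro v n hv hn
    have h1 : -sm n v = sm n (-v) := by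
      unfold sm
      ext
      · simp only [Prod.fst_neg]; ring
      · simp only [Prod.snd_neg]; ring
    rcases af2_or S hd hv with h | h
    · show af2_u S (sm n v) = af2_u S v
      rw [af2_u1 S h, af2_u1 S ((wd_sm S hn).2 h), u_sm S hn]
    · show af2_u S (sm n v) = af2_u S v
      rw [af2_u2 S hd h, af2_u2 S hd (by rw [h1]; exact (wd_sm S hn).2 h), h1, u_sm S hn]
  · intro v hv
    obtain ⟨n, hn⟩ := af2_uS S hd hv
    exact ⟨n, by push_cast; exact hn⟩

/-- `A.u v = S.u v / 2` for `v` in the window, `(S.u (-v) + 1) / 2` otherwise. -/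
theorem ang_full_pr {b c : ℤ} (S : Sys b c) (hd : dsc b c < 0) : ∃ A : Ang b c, A.S = S ∧
    A.mu = 2 ∧ (∀ v, A.wd v ↔ v ≠ 0) ∧ (∀ v, A.rp v = v) ∧
    (∀ v, S.wd v → A.u v = S.u v / 2) ∧ ∀ v, S.wd (-v) → A.u v = (S.u (-v) + 1) / 2 := by
  classical
  obtain ⟨A, hA1, hA2, hA3, hA4, hA5⟩ := af2_ang0 S hd
  have hMF : ∀ (X : ℝ) (v : El), v ∈ A.MF X ↔ v ≠ 0 ∧ (nm b c v : ℝ) ≤ X := by
    intro X v
    unfold Ang0.MF
    rw [Set.Finite.mem_toFinset]
    show A.wd v ∧ (nm b c v : ℝ) ≤ X ↔ _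
    rw [hA3]
  have hcnt : ∃ κ : ℝ, 0 < κ ∧ ∀ q : ℕ, 1 ≤ q → ∃ C : ℝ, 1 ≤ C ∧
      ∀ (v₀ r : El) (d : ℕ), 1 ≤ d → Nat.Coprime d q → (∀ l : ℕ, l.Prime → l ∣ d → ¬ dv l r) →
      ∀ x : ℝ, 1 ≤ x →
      |(((A.MF x).filter (fun w => dv q (w - v₀) ∧ (d : ℤ) ∣ dt w r)).card : ℝ) -
        κ * x / ((q : ℝ) ^ 2 * d)| ≤ C * Real.sqrt x := by
    obtain ⟨κ, hκ, hcls⟩ := cls_count S
    refine ⟨2 * κ, by positivity, fun q hq => ?_⟩
    obtain ⟨C, hC, hcls⟩ := hcls q hq
    refine ⟨2 * C, by linarith, fun v₀ r d h1 h2 h3 x hx => ?_⟩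
    have h4 := hcls v₀ r d h1 h2 h3 x hx
    have h5 := hcls (-v₀) r d h1 h2 h3 x hx
    have h6 := af2_split S hd x (A.MF x) (hMF x) (fun w => dv q (w - v₀) ∧ (d : ℤ) ∣ dt w r)
      (fun _ => (1 : ℕ))
    simp only [Finset.sum_const, smul_eq_mul, mul_one] at h6
    have h7 : ∀ w : El, (dv q (-w - v₀) ∧ (d : ℤ) ∣ dt (-w) r) ↔
        (dv q (w - -v₀) ∧ (d : ℤ) ∣ dt w r) := by
      intro w
      rw [af2_dv]
      have h8 : dt (-w) r = -dt w r := by
        unfold dt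
        rw [Prod.fst_neg, Prod.snd_neg]
        ring
      rw [h8, dvd_neg]
    simp only [h7] at h6
    have h6' : ((A.MF x).filter (fun w => dv q (w - v₀) ∧ (d : ℤ) ∣ dt w r)).card =
        ((S.MF x).filter (fun w => dv q (w - v₀) ∧ (d : ℤ) ∣ dt w r)).card +
        ((S.MF x).filter (fun w => dv q (w - -v₀) ∧ (d : ℤ) ∣ dt w r)).card := by
      convert h6
    rw [h6']
    push_cast
    have h9 : 2 * κ * x / ((q : ℝ) ^ 2 * d) = κ * x / ((q : ℝ) ^ 2 * d) +
        κ * x / ((q : ℝ) ^ 2 * d) := by ring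
    rw [h9]
    rw [abs_le] at h4 h5 ⊢
    constructor <;> linarith [h4.1, h4.2, h5.1, h5.2]
  have hexps : ∃ κ : ℝ, 0 < κ ∧ κ ≤ 1 ∧ ∀ q : ℕ, 1 ≤ q → ∃ X₀ : ℝ, ∀ X : ℝ, X₀ ≤ X →
      ∀ k : ℤ, k ≠ 0 → |(k : ℝ)| ≤ X ^ 3 → ∀ v₀ : El,
        ‖∑ v ∈ (A.MF X).filter (fun v => dv q (v - v₀)), ex (k * A.u v)‖ ≤ X ^ (1 - κ) := by
    obtain ⟨κ, hκ, hκ1, hexp⟩ := exp_real
    refine ⟨κ / 2, by positivity, by linarith, fun q hq => ?_⟩
    obtain ⟨X₀, hexp⟩ := hexp b c S q hq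
    refine ⟨max X₀ ((2 : ℝ) ^ (2 / κ)), fun X hX k hk hkX v₀ => ?_⟩
    have hX0 : X₀ ≤ X := (le_max_left _ _).trans hX
    have hX2 : (2 : ℝ) ^ (2 / κ) ≤ X := (le_max_right _ _).trans hX
    have h20 : (0 : ℝ) < (2 : ℝ) ^ (2 / κ) := by positivity
    have hXp : 0 < X := by linarith
    have hξ : |(k : ℝ) / 2| ≤ X ^ 3 := by
      rw [abs_div, abs_two]
      have := abs_nonneg (k : ℝ)
      linarith
    obtain ⟨Z, hZ, hexp⟩ := hexp X hX0 ((k : ℝ) / 2) hξ
    have h1 := hexp v₀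
    have h2 := hexp (-v₀)
    have h6 := af2_split S hd X (A.MF X) (hMF X) (fun w => dv q (w - v₀))
      (fun v => ex (k * A.u v))
    have h3 : ∑ v ∈ (S.MF X).filter (fun v => dv q (v - v₀)), ex (k * A.u v) =
        ∑ v ∈ (S.MF X).filter (fun v => dv q (v - v₀)), ex ((k : ℝ) / 2 * S.u v) := by
      apply Finset.sum_congr rfl
      intro v hv
      rw [Finset.mem_filter, mem_MF] at hv
      rw [hA5, af2_u1 S hv.1.1]
      congr 1
      ring
    have h4 : ∑ v ∈ (S.MF X).filter (fun v => dv q (-v - v₀)), ex (k * A.u (-v)) =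
        ex ((k : ℝ) / 2) * ∑ v ∈ (S.MF X).filter (fun v => dv q (v - -v₀)),
          ex ((k : ℝ) / 2 * S.u v) := by
      have h5 : ∀ v : El, dv q (-v - v₀) ↔ dv q (v - -v₀) := fun v => af2_dv q v v₀
      simp only [h5]
      rw [Finset.mul_sum]
      apply Finset.sum_congr rfl
      intro v hv
      rw [Finset.mem_filter, mem_MF] at hv
      rw [hA5, af2_u2 S hd (by rw [neg_neg]; exact hv.1.1), neg_neg, ← par_ex_add]
      congr 1
      ring
    rw [h6, h3, h4]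
    set S1 := ∑ v ∈ (S.MF X).filter (fun v => dv q (v - v₀)), ex ((k : ℝ) / 2 * S.u v) with hS1
    set S2 := ∑ v ∈ (S.MF X).filter (fun v => dv q (v - -v₀)), ex ((k : ℝ) / 2 * S.u v)
      with hS2
    have h7 : ‖S1 + ex ((k : ℝ) / 2) * S2‖ ≤ 2 * X ^ (1 - κ) := by
      rcases Int.even_or_odd k with ⟨m, hm⟩ | ⟨m, hm⟩
      · have h8 : (k : ℝ) / 2 = m := by
          rw [hm]
          push_cast
          ring
        have h9 : Z = 0 := by
          apply hZ
          refine ⟨m, ?_, h8⟩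
          rintro rfl
          exact hk (by rw [hm]; ring)
        rw [h9, sub_zero] at h1 h2
        rw [h8, par_ex_int, one_mul]
        calc ‖S1 + S2‖ ≤ ‖S1‖ + ‖S2‖ := norm_add_le _ _
          _ ≤ 2 * X ^ (1 - κ) := by linarith
      · have h8 : (k : ℝ) / 2 = m + 1 / 2 := by
          rw [hm]
          push_cast
          ring
        have h9 : ex (1 / 2) = -1 := by
          unfold ex
          rw [← Complex.exp_pi_mul_I]
          congr 1
          push_cast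
          ring
        have h10 : ex ((k : ℝ) / 2) = -1 := by
          rw [h8, par_ex_add, par_ex_int, one_mul, h9]
        rw [h10]
        have h11 : S1 + -1 * S2 = (S1 - Z) - (S2 - Z) := by ring
        rw [h11]
        calc ‖(S1 - Z) - (S2 - Z)‖ ≤ ‖S1 - Z‖ + ‖S2 - Z‖ := norm_sub_le _ _
          _ ≤ 2 * X ^ (1 - κ) := by linarith
    refine h7.trans ?_
    have h12 : (2 : ℝ) ≤ X ^ (κ / 2) := by
      calc (2 : ℝ) = ((2 : ℝ) ^ (2 / κ)) ^ (κ / 2) := by
            rw [← Real.rpow_mul (by norm_num)]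
            have : 2 / κ * (κ / 2) = 1 := by field_simp
            rw [this, Real.rpow_one]
        _ ≤ X ^ (κ / 2) := Real.rpow_le_rpow h20.le hX2 (by positivity)
    have h13 : X ^ (1 - κ / 2) = X ^ (κ / 2) * X ^ (1 - κ) := by
      rw [← Real.rpow_add hXp]
      congr 1
      ring
    rw [h13]
    exact mul_le_mul_of_nonneg_right h12 (Real.rpow_nonneg hXp.le _)
  refine ⟨{ toAng0 := A, cnt := hcnt, exps := hexps }, hA1, hA2, hA3, hA4, ?_, ?_⟩
  · intro v hv
    show A.u v = _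
    rw [hA5, af2_u1 S hv]
  · intro v hv
    show A.u v = _
    rw [hA5, af2_u2 S hd hv]

theorem ang_full : type_of% @ang_full_pr := @ang_full_pr

end Pool.Agent.AQM
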