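import Pool.Agent.Lib_helper39.AQM.Defs
import Pool.Agent.Lib_helper39.AQM.AB
import Pool.Agent.Lib_helper39.MQX.ALG
import Pool.Agent.Lib_helper39.MQX.SBA
import Pool.Agent.Lib_helper39.MQX.SBB
import Pool.Agent.Lib_helper39.MQX.SBC
import Pool.Agent.Lib_helper39.MQX.LSV
import Pool.Agent.Lib_helper39.MQX.PAR
import Pool.Agent.Lib_helper39.MQX.FEJ
import Pool.Agent.Lib_helper39.MQX.EXP

/-! block EC1 of AQM, proved by helper9 -/

/-!
# AQM, block EC1: the shifted lines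
-/

set_option autoImplicit false

namespace Pool.Agent.AQM

open Pool.Agent.MQ Pool.Agent.T2 Filter Topology MeasureTheory

section
open Pool.Agent.Lib_helper44.EXP Polynomial

variable {b c : ℤ}

theorem ec1_der (Y : Sys b c) (k : ℝ) {y : ℝ} (hy : 0 < y) (i : ℕ) {θ x : ℝ}
    (hx : dsc b c < 0 ∨ Y.lam < (x + θ) / y) :
    HasDerivAt (fun x => Fam Y k y i (x + θ)) (Fam Y k y (i + 1) (x + θ)) x :=
  HasDerivAt.comp_add_const x θ (Fam_der Y k hy i hx)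

theorem ec1_len (Y : Sys b c) {c0 : ℝ} (h0 : 0 < c0)
    (hc0 : ∀ t : ℝ, (dsc b c < 0 ∨ Y.lam ≤ t) → c0 * (1 + t ^ 2) ≤ t ^ 2 + b * t + c)
    {q y : ℝ} (hq : 1 ≤ q) (hy : 0 < y) {θ : ℝ} {a b' : ℤ} (hab : ∀ x : ℝ, (a : ℝ) ≤ x → x ≤ b' - 1 →
      (dsc b c < 0 ∨ Y.lam < (x + θ) / y) ∧ nr b c (x + θ) y ≤ q ^ 1000) :
    ((b' - a : ℤ) : ℝ) ≤ (2 * (1 + 1 / c0) + 1) * q ^ 500 := by
  have hx : ∀ x : ℝ, (a : ℝ) ≤ x → x ≤ b' - 1 → |x + θ| ≤ (1 + 1 / c0) * q ^ 500 := by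
    intro x h1 h2
    obtain ⟨h3, h4⟩ := hab x h1 h2
    have h5 := (nr_lower Y.lam hc0 hy (h3.imp id le_of_lt)).trans h4
    apply abs_le_of_sq_le_sq _ (by positivity)
    have h6 : c0 * (x + θ) ^ 2 ≤ q ^ 1000 := by
      have : 0 ≤ c0 * y ^ 2 := by positivity
      nlinarith
    have h7 : (x + θ) ^ 2 ≤ 1 / c0 * q ^ 1000 := by
      rw [one_div, inv_mul_eq_div, le_div_iff₀ h0]
      linarith
    refine h7.trans ?_
    have h8 : ((1 + 1 / c0) * q ^ 500) ^ 2 = (1 + 1 / c0) ^ 2 * q ^ 1000 := by ring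
    rw [h8]
    apply mul_le_mul_of_nonneg_right _ (by positivity)
    have : 0 < 1 / c0 := by positivity
    nlinarith
  have hq5 : (1 : ℝ) ≤ q ^ 500 := one_le_pow₀ hq
  have hc1 : 0 < 1 / c0 := by positivity
  rcases le_or_gt b' a with h | h
  · have : ((b' - a : ℤ) : ℝ) ≤ 0 := by
      have : b' - a ≤ 0 := by omega
      exact_mod_cast this
    refine this.trans (by positivity)
  · have h1 : (a : ℝ) ≤ b' - 1 := by
      have : (a : ℝ) + 1 ≤ b' := by exact_mod_cast h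
      linarith
    have h2 := hx a le_rfl h1
    have h3 := hx (b' - 1) h1 le_rfl
    rw [abs_le] at h2 h3
    push_cast
    linarith [h2.1, h3.2]
theorem med_shift_pr (Y : Sys b c) {c0 : ℝ} (h0 : 0 < c0)
    (hc0 : ∀ t : ℝ, (dsc b c < 0 ∨ Y.lam ≤ t) → c0 * (1 + t ^ 2) ≤ t ^ 2 + b * t + c)
    {q k y : ℝ} (hq : 1 ≤ q) (hk : q ^ 21 ≤ |k|) (hk2 : |k| * (2 * Cst Y c0) ≤ q ^ 495)
    (hy : q ^ 495 ≤ y) {θ : ℝ} {a b' : ℤ} (hab : ∀ x : ℝ, (a : ℝ) ≤ x → x ≤ b' - 1 →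
      (dsc b c < 0 ∨ Y.lam < (x + θ) / y) ∧ nr b c (x + θ) y ≤ q ^ 1000) :
    ‖S (fun n => k * Y.ur ((n + θ) / y)) a b'‖ ≤ ((2 * (1 + 1 / c0) + 1) + 1 / Y.κ +
      (2 * (1 + 1 / c0) + 1) * Cst Y c0 / Y.κ ^ 2) * q ^ 499 := by
  have hκ := Y.κ_pos
  have hq0 : 0 < q := by linarith
  have hy0 : 0 < y := lt_of_lt_of_le (by positivity) hy
  have hk0 : 0 < |k| := lt_of_lt_of_le (by positivity) hk
  set K1 : ℝ := 2 * (1 + 1 / c0) + 1 with hK1
  have hK1' : 3 ≤ K1 := by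
    rw [hK1]
    have : 0 < 1 / c0 := by positivity
    linarith
  have hc_0 := Cs_nonneg Y h0 0
  have hc_1 := Cs_nonneg Y h0 1
  have hc_6 := Cs_nonneg Y h0 6
  have hc_7 := Cs_nonneg Y h0 7
  set Ct : ℝ := Cst Y c0 with hCt
  have hCt0 : Cs Y c0 0 ≤ Ct := by rw [hCt, Cst]; linarith
  have hCt1 : Cs Y c0 1 ≤ Ct := by rw [hCt, Cst]; linarith
  have hCtp : 1 ≤ Ct := by rw [hCt, Cst]; linarith
  have hH : q ≤ ((⌊q⌋₊ + 1 : ℕ) : ℝ) := by
    push_cast; exact (Nat.lt_floor_add_one q).le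
  have hH2 : ((⌊q⌋₊ + 1 : ℕ) : ℝ) ≤ K1 * q ^ 500 := by
    push_cast
    have e1 : (⌊q⌋₊ : ℝ) ≤ q := Nat.floor_le hq0.le
    have e2 : q ^ 1 ≤ q ^ 500 := pow_le_pow_right₀ hq (by norm_num)
    rw [pow_one] at e2
    have e3 : (1 : ℝ) ≤ q ^ 500 := one_le_pow₀ hq
    have e4 := mul_le_mul_of_nonneg_right hK1' (zero_le_one.trans e3)
    linarith
  have main := abs_test 0 (fun i x => Fam Y k y i (x + θ)) a (b' - 1) a b' le_rfl le_rfl
    (fun i _ x hx => ec1_der Y k hy0 i (hab x hx.1 hx.2).1)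
    (|k| * Y.κ * q ^ 495 / q ^ 1000) (|k| * Ct / q ^ 495) (|k| * Ct / (q ^ 495) ^ 2)
    (by positivity) (by positivity)
    (by
      intro x hx
      obtain ⟨h3, h4⟩ := hab x hx.1 hx.2
      have h5 : 0 < nr b c (x + θ) y := by
        rw [nr_eq b c (x + θ) y hy0]
        have := Y.pos ((x + θ) / y) (h3.imp id le_of_lt)
        positivity
      have := Fam_lower Y k hy0 0 (ρ := 1) h5 h4 (by simp [Up])
      refine le_trans ?_ this
      simp only [Nat.factorial_zero, Nat.cast_one, mul_one, CharP.cast_eq_zero, zero_add, one_pow,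
        pow_one]
      gcongr)
    (by
      intro x hx
      obtain ⟨h3, h4⟩ := hab x hx.1 hx.2
      have := Fam_upper Y h0 hc0 k hy0 0 (h3.imp id le_of_lt)
      refine this.trans ?_
      change |k| * Cs Y c0 0 / y ^ (0 + 1) ≤ _
      rw [zero_add, pow_one]
      gcongr)
    (by
      intro x hx
      obtain ⟨h3, h4⟩ := hab x hx.1 hx.2
      have := Fam_upper Y h0 hc0 k hy0 1 (h3.imp id le_of_lt)
      refine this.trans ?_
      change |k| * Cs Y c0 1 / y ^ 2 ≤ _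
      gcongr)
    (⌊q⌋₊ + 1) (by omega)
    (by
      rw [pow_zero, one_mul, div_le_iff₀ (by positivity)]
      linarith)
    (K1 * q ^ 500) ((⌊q⌋₊ + 1 : ℕ) : ℝ) (ec1_len Y h0 hc0 hq hy0 hab) hH2 (by positivity)
    (by
      have : ∀ h ∈ Finset.Ico 1 (⌊q⌋₊ + 1), (1 / (h : ℝ)) ≤ 1 := by
        intro h hh
        rw [Finset.mem_Ico] at hh
        have : (1 : ℝ) ≤ h := by exact_mod_cast hh.1
        rw [div_le_one (by linarith)]
        exact this
      refine (Finset.sum_le_sum this).trans ?_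
      simp)
  simp only [pow_zero, pow_one, mul_one, Cw, one_mul] at main
  change ‖S (fun n => k * Y.ur ((n + θ) / y)) a b'‖ ≤ _ at main
  refine main.trans ?_
  have hL0 : 0 < K1 * q ^ 500 := by positivity
  have e1 : K1 * q ^ 500 * (1 / ((⌊q⌋₊ + 1 : ℕ) : ℝ)) ≤ K1 * q ^ 499 := by
    rw [mul_one_div, div_le_iff₀ (by positivity)]
    have : K1 * q ^ 500 = K1 * q ^ 499 * q := by ring
    rw [this]
    gcongr
  have e2 : K1 * q ^ 500 * ((1 / (|k| * Y.κ * q ^ 495 / q ^ 1000) +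
      K1 * q ^ 500 * (|k| * Ct / (q ^ 495) ^ 2) / (|k| * Y.κ * q ^ 495 / q ^ 1000) ^ 2) /
      (K1 * q ^ 500)) = (1 / Y.κ * q ^ 505 + K1 * Ct / Y.κ ^ 2 * q ^ 520) / |k| := by
    field_simp
  have e3 : (1 / Y.κ * q ^ 505 + K1 * Ct / Y.κ ^ 2 * q ^ 520) / |k| ≤
      1 / Y.κ * q ^ 499 + K1 * Ct / Y.κ ^ 2 * q ^ 499 := by
    rw [div_le_iff₀ hk0]
    have e4 : q ^ 505 ≤ q ^ 499 * |k| := by
      calc q ^ 505 ≤ q ^ 520 := pow_le_pow_right₀ hq (by norm_num)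
        _ = q ^ 499 * q ^ 21 := by ring
        _ ≤ q ^ 499 * |k| := by gcongr
    have e5 : q ^ 520 ≤ q ^ 499 * |k| := by
      calc q ^ 520 = q ^ 499 * q ^ 21 := by ring
        _ ≤ q ^ 499 * |k| := by gcongr
    have e6 : 0 ≤ 1 / Y.κ := by positivity
    have e7 : 0 ≤ K1 * Ct / Y.κ ^ 2 := by positivity
    calc 1 / Y.κ * q ^ 505 + K1 * Ct / Y.κ ^ 2 * q ^ 520
        ≤ 1 / Y.κ * (q ^ 499 * |k|) + K1 * Ct / Y.κ ^ 2 * (q ^ 499 * |k|) := by gcongr
      _ = _ := by ring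
  rw [mul_add]
  push_cast at e1 e2 ⊢
  rw [e2]
  linarith
theorem large_shift_pr (Y : Sys b c) {c0 : ℝ} (h0 : 0 < c0)
    (hc0 : ∀ t : ℝ, (dsc b c < 0 ∨ Y.lam ≤ t) → c0 * (1 + t ^ 2) ≤ t ^ 2 + b * t + c) :
    ∃ C : ℝ, 0 ≤ C ∧ ∀ q k y : ℝ, 1 ≤ q → 2 * Cst Y c0 ≤ q → q ^ 495 ≤ 2 * Cst Y c0 * |k| →
    |k| ≤ q ^ 3000 → q ^ 495 ≤ y → ∀ (θ : ℝ) (a b' : ℤ), (∀ x : ℝ, (a : ℝ) ≤ x → x ≤ b' - 1 →
      (dsc b c < 0 ∨ Y.lam < (x + θ) / y) ∧ nr b c (x + θ) y ≤ q ^ 1000) →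
    ‖S (fun n => k * Y.ur ((n + θ) / y)) a b'‖ ≤ C * q ^ 499 := by
  have hκ := Y.κ_pos
  set K1 : ℝ := 2 * (1 + 1 / c0) + 1 with hK1
  have hK1' : 3 ≤ K1 := by
    rw [hK1]
    have : 0 < 1 / c0 := by positivity
    linarith
  have hc_0 := Cs_nonneg Y h0 0
  have hc_1 := Cs_nonneg Y h0 1
  have hc_6 := Cs_nonneg Y h0 6
  have hc_7 := Cs_nonneg Y h0 7
  set Ct : ℝ := Cst Y c0 with hCt
  have hCt6 : Cs Y c0 6 ≤ Ct := by rw [hCt, Cst]; linarith
  have hCt7 : Cs Y c0 7 ≤ Ct := by rw [hCt, Cst]; linarith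
  have hCtp : 1 ≤ Ct := by rw [hCt, Cst]; linarith
  set C3 : ℝ := (1 / Y.κ + Ct / Y.κ ^ 2) * (501 ^ 6 * 128 * Ct) with hC3
  have hC3' : 0 ≤ C3 := by positivity
  have hCw := Cw_pos 6
  set C4 : ℝ := Cw 6 * K1 ^ 64 * (2 + C3) + 1 with hC4
  have hC4' : 1 ≤ C4 := by
    rw [hC4]
    have : 0 ≤ Cw 6 * K1 ^ 64 * (2 + C3) := by positivity
    linarith
  refine ⟨64 * (C4 + 3), by positivity, ?_⟩
  intro q k y hq hq2 hk hk2 hy θ a b' hab
  have hq0 : 0 < q := by linarith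
  have hy0 : 0 < y := lt_of_lt_of_le (by positivity) hy
  have hk0 : 0 < |k| := by
    by_contra h
    have h1 : |k| = 0 := le_antisymm (not_lt.1 h) (abs_nonneg k)
    rw [h1, mul_zero] at hk
    have : 0 < q ^ 495 := by positivity
    linarith
  -- the number `H`
  set w : ℝ := q ^ 3465 / (2 * Ct * |k|) with hw
  have hw0 : 0 < w := by positivity
  set h₀ : ℝ := w ^ (1 / 6 : ℝ) with hh0
  have hh0p : 0 < h₀ := Real.rpow_pos_of_pos hw0 _
  have hh6 : h₀ ^ 6 = w := by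
    rw [hh0, ← Real.rpow_natCast, ← Real.rpow_mul hw0.le]
    norm_num
  have hlow : q ^ 77 ≤ h₀ := by
    refine le_of_pow_le_pow_left₀ (n := 6) (by norm_num) hh0p.le ?_
    rw [hh6, hw, le_div_iff₀ (by positivity)]
    calc (q ^ 77) ^ 6 * (2 * Ct * |k|) ≤ (q ^ 77) ^ 6 * (q * q ^ 3000) := by gcongr
      _ = q ^ 3463 := by ring
      _ ≤ q ^ 3465 := pow_le_pow_right₀ hq (by norm_num)
  have hup : h₀ ≤ q ^ 500 := by
    refine le_of_pow_le_pow_left₀ (n := 6) (by norm_num) (by positivity) ?_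
    rw [hh6, hw, div_le_iff₀ (by positivity)]
    calc q ^ 3465 = q ^ 2970 * q ^ 495 := by ring
      _ ≤ q ^ 3000 * q ^ 495 := by
          apply mul_le_mul_of_nonneg_right _ (by positivity)
          exact pow_le_pow_right₀ hq (by norm_num)
      _ ≤ q ^ 3000 * (2 * Ct * |k|) := by gcongr
      _ = (q ^ 500) ^ 6 * (2 * Ct * |k|) := by ring
  have hq77 : (1 : ℝ) ≤ q ^ 77 := one_le_pow₀ hq
  have hh1 : 1 ≤ h₀ := hq77.trans hlow
  set H : ℕ := ⌊h₀⌋₊ with hH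
  have hH1 : 1 ≤ H := by
    rw [hH]; exact Nat.one_le_floor_iff _ |>.2 hh1
  have hHr : (1 : ℝ) ≤ H := by exact_mod_cast hH1
  have hHle : (H : ℝ) ≤ h₀ := Nat.floor_le hh0p.le
  have hHge : h₀ ≤ 2 * H := by
    have : h₀ < H + 1 := Nat.lt_floor_add_one _
    linarith
  have hL0 : 0 < K1 * q ^ 500 := by positivity
  have hq5 : (1 : ℝ) ≤ q ^ 500 := one_le_pow₀ hq
  -- sum of 1/h
  have hℓ : ∑ h ∈ Finset.Ico 1 H, (1 / (h : ℝ)) ≤ 501 * q := by
    refine (harm_bound H).trans ?_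
    have h1 : Real.log H ≤ Real.log (q ^ 500) := Real.log_le_log (by linarith) (hHle.trans hup)
    rw [Real.log_pow] at h1
    have h2 : Real.log q ≤ q := (Real.log_le_sub_one_of_pos hq0).trans (by linarith)
    push_cast at h1
    linarith
  -- the polynomial
  set P : ℝ[X] := Up (b * y) (c * y ^ 2) 7 with hP
  have hPc : P.natDegree ≤ 6 ∧ P.coeff 6 = 7 := by
    have := (Up_coeff (b * y) (c * y ^ 2) 6).1
    refine ⟨this.1, this.2.trans (by norm_num)⟩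
  obtain ⟨Z, hZl, hZ⟩ := root_excl P 6 hPc.1 (by rw [hPc.2]; norm_num)
  have hsplit := split_sum (fun n => ee (k * Y.ur ((n + θ) / y))) (fun n => (ee_norm _).le) (q ^ 495)
    (C4 * q ^ 499) (by positivity) (by positivity) (Z.map (fun z => z - θ)) a b' (by
    intro a₁ b₁ ha₁ hb₁ hx
    have hsub : ∀ x : ℝ, (a₁ : ℝ) ≤ x → x ≤ (b₁ : ℝ) - 1 → (a : ℝ) ≤ x ∧ x ≤ (b' : ℝ) - 1 := by
      intro x h1 h2
      have h3 : (a : ℝ) ≤ a₁ := by exact_mod_cast ha₁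
      have h4 : (b₁ : ℝ) ≤ b' := by exact_mod_cast hb₁
      exact ⟨by linarith, by linarith⟩
    have hab' : ∀ x : ℝ, (a₁ : ℝ) ≤ x → x ≤ b₁ - 1 →
        (dsc b c < 0 ∨ Y.lam < (x + θ) / y) ∧ nr b c (x + θ) y ≤ q ^ 1000 := fun x h1 h2 =>
      hab x (hsub x h1 h2).1 (hsub x h1 h2).2
    change ‖S (fun n => k * Y.ur ((n + θ) / y)) a₁ b₁‖ ≤ _
    have main := abs_test 6 (fun i x => Fam Y k y i (x + θ)) a₁ (b₁ - 1) a₁ b₁ le_rfl le_rfl
      (fun i _ x hx => ec1_der Y k hy0 i (hab' x hx.1 hx.2).1)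
      (5040 * Y.κ * |k| * q ^ 3465 / q ^ 7000) (|k| * Ct / q ^ 3465) (|k| * Ct / q ^ 3960)
      (by positivity) (by positivity)
      (by
        intro x hx'
        obtain ⟨h3, h4⟩ := hab' x hx'.1 hx'.2
        have h5 : 0 < nr b c (x + θ) y := by
          rw [nr_eq b c (x + θ) y hy0]
          have := Y.pos ((x + θ) / y) (h3.imp id le_of_lt)
          positivity
        have h6 := hZ (q ^ 495) (by positivity) (x + θ) (fun z hz => by
          have h61 := hx x hx'.1 hx'.2 (z - θ) (List.mem_map.2 ⟨z, hz, rfl⟩)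
          rwa [show x + θ - z = x - (z - θ) by ring])
        rw [hPc.2, abs_of_pos (by norm_num : (0 : ℝ) < 7)] at h6
        have := Fam_lower Y k hy0 6 (ρ := q ^ 495) h5 h4 (by
          refine le_trans (le_of_eq ?_) h6
          norm_num)
        refine le_trans ?_ this
        have e7 : ((Nat.factorial 6 : ℕ) : ℝ) = 720 := by norm_num [Nat.factorial]
        rw [e7]
        have e8 : (q ^ 1000) ^ (6 + 1) = q ^ 7000 := by ring
        rw [e8]
        apply div_le_div_of_nonneg_right _ (by positivity)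
        have e9 : 5040 * Y.κ * |k| * q ^ 3465 =
            |k| * Y.κ * 720 * q ^ 495 * (((6 : ℕ) : ℝ) + 1) * (q ^ 495) ^ 6 := by
          push_cast; ring
        rw [e9, mul_assoc (|k| * Y.κ * 720 * q ^ 495)]
        gcongr)
      (by
        intro x hx'
        obtain ⟨h3, h4⟩ := hab' x hx'.1 hx'.2
        have := Fam_upper Y h0 hc0 k hy0 6 (h3.imp id le_of_lt)
        refine this.trans ?_
        change |k| * Cs Y c0 6 / y ^ 7 ≤ _
        have e8 : q ^ 3465 = (q ^ 495) ^ 7 := by ring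
        rw [e8]
        gcongr)
      (by
        intro x hx'
        obtain ⟨h3, h4⟩ := hab' x hx'.1 hx'.2
        have := Fam_upper Y h0 hc0 k hy0 7 (h3.imp id le_of_lt)
        refine this.trans ?_
        change |k| * Cs Y c0 7 / y ^ 8 ≤ _
        have e8 : q ^ 3960 = (q ^ 495) ^ 8 := by ring
        rw [e8]
        gcongr)
      H hH1
      (by
        calc (H : ℝ) ^ 6 * (|k| * Ct / q ^ 3465) ≤ h₀ ^ 6 * (|k| * Ct / q ^ 3465) := by gcongr
          _ = 1 / 2 := by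
              rw [hh6, hw]
              field_simp)
      (K1 * q ^ 500) (501 * q) (ec1_len Y h0 hc0 hq hy0 hab')
      ((hHle.trans hup).trans (le_mul_of_one_le_left (zero_le_one.trans hq5) (by linarith))) (by positivity) hℓ
    change ‖S (fun n => k * Y.ur ((n + θ) / y)) a₁ b₁‖ ^ (2 ^ 6) ≤ _ at main
    have h64 : (2 : ℕ) ^ 6 = 64 := by norm_num
    rw [h64] at main
    -- the two terms
    have e1 : 1 / (H : ℝ) ≤ 2 / q ^ 77 := by
      rw [div_le_div_iff₀ (by positivity) (by positivity)]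
      linarith
    have e2 : (501 * q / (H : ℝ)) ^ 6 ≤ 501 ^ 6 * 64 * q ^ 6 * (2 * Ct * |k|) / q ^ 3465 := by
      have e3 : (501 * q / (H : ℝ)) ^ 6 ≤ (501 * q * 2 / h₀) ^ 6 := by
        apply pow_le_pow_left₀ (by positivity)
        rw [div_le_div_iff₀ (by positivity) hh0p]
        have e5 := mul_le_mul_of_nonneg_left hHge (show (0 : ℝ) ≤ 501 * q by positivity)
        linarith
      refine e3.trans (le_of_eq ?_)
      rw [div_pow, hh6, hw]
      field_simp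
      ring
    have e4 : (1 / (5040 * Y.κ * |k| * q ^ 3465 / q ^ 7000) + K1 * q ^ 500 *
        (|k| * Ct / q ^ 3960) / (5040 * Y.κ * |k| * q ^ 3465 / q ^ 7000) ^ 2) /
        (K1 * q ^ 500) ≤ (1 / Y.κ + Ct / Y.κ ^ 2) * q ^ 3110 / |k| := by
      have e5 : (1 / (5040 * Y.κ * |k| * q ^ 3465 / q ^ 7000) + K1 * q ^ 500 *
        (|k| * Ct / q ^ 3960) / (5040 * Y.κ * |k| * q ^ 3465 / q ^ 7000) ^ 2) /
        (K1 * q ^ 500) = (1 / (5040 * K1) * (1 / Y.κ * q ^ 3035) +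
          1 / 5040 ^ 2 * (Ct / Y.κ ^ 2 * q ^ 3110)) / |k| := by
        field_simp
      rw [e5]
      apply div_le_div_of_nonneg_right _ hk0.le
      have e6 : 1 / (5040 * K1) * (1 / Y.κ * q ^ 3035) ≤ 1 * (1 / Y.κ * q ^ 3110) := by
        apply mul_le_mul _ _ (by positivity) (by norm_num)
        · rw [div_le_one (by positivity)]
          linarith
        · apply mul_le_mul_of_nonneg_left _ (by positivity)
          exact pow_le_pow_right₀ hq (by norm_num)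
      have e7 : 1 / 5040 ^ 2 * (Ct / Y.κ ^ 2 * q ^ 3110) ≤ 1 * (Ct / Y.κ ^ 2 * q ^ 3110) := by
        apply mul_le_mul_of_nonneg_right _ (by positivity)
        norm_num
      calc _ ≤ 1 * (1 / Y.κ * q ^ 3110) + 1 * (Ct / Y.κ ^ 2 * q ^ 3110) := add_le_add e6 e7
        _ = _ := by ring
    have e8 : (1 / Y.κ + Ct / Y.κ ^ 2) * q ^ 3110 / |k| *
        (501 ^ 6 * 64 * q ^ 6 * (2 * Ct * |k|) / q ^ 3465) ≤ C3 / q ^ 77 := by
      have e9 : (1 / Y.κ + Ct / Y.κ ^ 2) * q ^ 3110 / |k| *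
        (501 ^ 6 * 64 * q ^ 6 * (2 * Ct * |k|) / q ^ 3465) = C3 / q ^ 349 := by
        rw [hC3]
        field_simp
        ring
      rw [e9]
      apply div_le_div_of_nonneg_left hC3' (by positivity)
      exact pow_le_pow_right₀ hq (by norm_num)
    have e10 : 1 / (H : ℝ) + (1 / (5040 * Y.κ * |k| * q ^ 3465 / q ^ 7000) + K1 * q ^ 500 *
        (|k| * Ct / q ^ 3960) / (5040 * Y.κ * |k| * q ^ 3465 / q ^ 7000) ^ 2) /
        (K1 * q ^ 500) * (501 * q / (H : ℝ)) ^ 6 ≤ (2 + C3) / q ^ 77 := by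
      have e11 : (1 / (5040 * Y.κ * |k| * q ^ 3465 / q ^ 7000) + K1 * q ^ 500 *
        (|k| * Ct / q ^ 3960) / (5040 * Y.κ * |k| * q ^ 3465 / q ^ 7000) ^ 2) /
        (K1 * q ^ 500) * (501 * q / (H : ℝ)) ^ 6 ≤ C3 / q ^ 77 := by
        refine le_trans ?_ e8
        exact mul_le_mul e4 e2 (by positivity) (by positivity)
      rw [add_div 2 C3]
      exact add_le_add e1 e11
    have e12 : ‖S (fun n => k * Y.ur ((n + θ) / y)) a₁ b₁‖ ^ 64 ≤ (C4 * q ^ 499) ^ 64 := by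
      refine main.trans ?_
      calc _ ≤ Cw 6 * (K1 * q ^ 500) ^ 64 * ((2 + C3) / q ^ 77) := by
            apply mul_le_mul_of_nonneg_left e10 (by positivity)
        _ = Cw 6 * K1 ^ 64 * (2 + C3) * q ^ 31923 := by
            field_simp
        _ ≤ C4 * q ^ 31936 := by
            apply mul_le_mul _ _ (by positivity) (by positivity)
            · rw [hC4]; linarith
            · exact pow_le_pow_right₀ hq (by norm_num)
        _ ≤ C4 ^ 64 * q ^ 31936 := by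
            apply mul_le_mul_of_nonneg_right _ (by positivity)
            calc C4 = C4 ^ 1 := (pow_one _).symm
              _ ≤ C4 ^ 64 := pow_le_pow_right₀ hC4' (by norm_num)
        _ = (C4 * q ^ 499) ^ 64 := by
            rw [mul_pow, ← pow_mul]
    exact le_of_pow_le_pow_left₀ (n := 64) (by norm_num) (by positivity) e12)
  rw [List.length_map, hZl] at hsplit
  change ‖S (fun n => k * Y.ur ((n + θ) / y)) a b'‖ ≤ _ at hsplit
  refine hsplit.trans ?_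
  have e1 : q ^ 495 ≤ q ^ 499 := pow_le_pow_right₀ hq (by norm_num)
  have e2 : (1 : ℝ) ≤ q ^ 499 := one_le_pow₀ hq
  have e3 : (0 : ℝ) ≤ q ^ 495 := by positivity
  have e4 : 64 * (C4 + 3) * q ^ 499 = 64 * (C4 * q ^ 499) + 192 * q ^ 499 := by ring
  rw [e4]
  linarith
end

theorem med_shift : type_of% @med_shift_pr := @med_shift_pr
theorem large_shift : type_of% @large_shift_pr := @large_shift_pr

end Pool.Agent.AQM
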