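import Pool.Agent.Lib_helper39.AQM.Defs
import Pool.Agent.Lib_helper39.AQM.AB
import Pool.Agent.Lib_helper39.MQX.ALG
import Pool.Agent.Lib_helper39.MQX.SBA
import Pool.Agent.Lib_helper39.MQX.SBB
import Pool.Agent.Lib_helper39.MQX.SBC
import Pool.Agent.Lib_helper39.MQX.LSV
import Pool.Agent.Lib_helper39.MQX.PAR
import Pool.Agent.Lib_helper39.MQX.FEJ
import Pool.Agent.Lib_helper39.MQX.EXP
import Pool.Agent.Lib_helper39.AQMF.EC1
import Pool.Agent.Lib_helper39.AQMF.EC2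

/-! block EC3 of AQM, proved by helper97 -/

set_option autoImplicit false

namespace Pool.Agent.AQM

open Pool.Agent.MQ Pool.Agent.T2 Filter Topology MeasureTheory

section
open Pool.Agent.Lib_helper44.EXP

variable {b c : ℤ}

theorem ec3_zero (Y : Sys b c) {c0 : ℝ} (h0 : 0 < c0)
    (hc0 : ∀ t : ℝ, (dsc b c < 0 ∨ Y.lam ≤ t) → c0 * (1 + t ^ 2) ≤ t ^ 2 + b * t + c) (X : ℝ) :
    (((Y.MF X).filter (fun v => v.2.toNat = 0)).card : ℝ) ≤ Real.sqrt X := by
  have h5 : ((Y.MF X).filter (fun v => v.2.toNat = 0)).card ≤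
      (Finset.Icc (1 : ℤ) ⌊Real.sqrt X⌋).card := by
    apply Finset.card_le_card_of_injOn Prod.fst
    · rintro ⟨x, y⟩ hv
      simp only [Finset.coe_filter, Set.mem_ofPred_eq] at hv
      have h6 := (snd_bound Y h0 hc0 hv.1).1
      simp only at h6
      have h7 : y = 0 := by omega
      subst h7
      obtain ⟨h8, h9⟩ := (mem_MF' Y).1 hv.1
      have h10 : 0 < x := by
        rcases h8 with ⟨_, h8⟩ | ⟨h8, _⟩
        · exact h8
        · simp at h8
      simp only [Finset.coe_Icc, Set.mem_Icc]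
      refine ⟨h10, ?_⟩
      rw [Int.le_floor]
      apply Real.le_sqrt_of_sq_le
      simp only [nm] at h9
      push_cast at h9
      linarith
    · rintro ⟨x, y⟩ hv ⟨x', y'⟩ hv' h
      simp only [Finset.coe_filter, Set.mem_ofPred_eq] at hv hv'
      have h6 := (snd_bound Y h0 hc0 hv.1).1
      have h6' := (snd_bound Y h0 hc0 hv'.1).1
      simp only at h6 h6' h hv hv'
      rw [Prod.mk.injEq]
      exact ⟨h, by omega⟩
  have h6 : (((Finset.Icc (1 : ℤ) ⌊Real.sqrt X⌋).card : ℕ) : ℝ) ≤ Real.sqrt X := by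
    rw [Int.card_Icc]
    have h7 : 0 ≤ ⌊Real.sqrt X⌋ := Int.floor_nonneg.2 (Real.sqrt_nonneg _)
    have h8 : ((⌊Real.sqrt X⌋ + 1 - 1).toNat : ℤ) = ⌊Real.sqrt X⌋ := by omega
    have h9 : (((⌊Real.sqrt X⌋ + 1 - 1).toNat : ℕ) : ℝ) = (⌊Real.sqrt X⌋ : ℝ) := by
      exact_mod_cast congrArg (Int.cast (R := ℝ)) h8
    rw [h9]
    exact Int.floor_le _
  have h7 : (((Y.MF X).filter (fun v => v.2.toNat = 0)).card : ℝ) ≤
      (((Finset.Icc (1 : ℤ) ⌊Real.sqrt X⌋).card : ℕ) : ℝ) := by exact_mod_cast h5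
  exact h7.trans h6

open Classical in
theorem ec3_decomp (Y : Sys b c) {c0 : ℝ} (h0 : 0 < c0)
    (hc0 : ∀ t : ℝ, (dsc b c < 0 ∨ Y.lam ≤ t) → c0 * (1 + t ^ 2) ≤ t ^ 2 + b * t + c) (X : ℝ)
    (ξ : ℝ) (r : ℕ) (v₀ : El) :
    ‖∑ v ∈ (Y.MF X).filter (fun v => dv r (v - v₀)), ex (ξ * Y.u v) -
      ∑ y ∈ (Finset.Icc 1 ⌊Real.sqrt (X / c0)⌋₊).filter (fun y : ℕ => (r : ℤ) ∣ (y : ℤ) - v₀.2),
        ∑ x ∈ (Fy Y X y).filter (fun x => (r : ℤ) ∣ x - v₀.1), ee (ξ * Y.ur (x / y))‖ ≤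
      Real.sqrt X := by
  set m := ⌊Real.sqrt (X / c0)⌋₊ with hm
  set P : Finset El := (Y.MF X).filter (fun v => dv r (v - v₀)) with hP
  have hPM : ∀ v ∈ P, v ∈ Y.MF X := fun v hv => (Finset.mem_filter.1 hv).1
  have h1 : ∑ v ∈ P, ex (ξ * Y.u v) = ∑ y ∈ Finset.range (m + 1),
      ∑ v ∈ P.filter (fun v => v.2.toNat = y), ex (ξ * Y.u v) := by
    rw [Finset.sum_fiberwise_of_maps_to]
    intro v hv
    rw [Finset.mem_range]
    exact Nat.lt_succ_of_le (snd_bound Y h0 hc0 (hPM v hv)).2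
  have h2 : ∀ y ∈ Finset.Icc 1 m, ∑ v ∈ P.filter (fun v => v.2.toNat = y),
      ex (ξ * Y.u v) = if (r : ℤ) ∣ (y : ℤ) - v₀.2 then
        ∑ x ∈ (Fy Y X y).filter (fun x => (r : ℤ) ∣ x - v₀.1), ee (ξ * Y.ur (x / y)) else 0 := by
    intro y hy
    rw [Finset.mem_Icc] at hy
    split_ifs with hry
    · have e1 : P.filter (fun v => v.2.toNat = y) =
          ((Fy Y X y).filter (fun x => (r : ℤ) ∣ x - v₀.1)).image
            (fun x : ℤ => ((x, (y : ℤ)) : El)) := by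
        ext ⟨x, z⟩
        simp only [hP, Finset.mem_filter, Finset.mem_image, Prod.mk.injEq]
        constructor
        · rintro ⟨⟨h3, h3'⟩, h4⟩
          have h5 := (snd_bound Y h0 hc0 h3).1
          simp only at h5
          have h6 : z = y := by omega
          subst h6
          exact ⟨x, ⟨(mem_Fy Y X y x).2 h3, h3'.1⟩, rfl, rfl⟩
        · rintro ⟨x', ⟨h3, h3'⟩, rfl, rfl⟩
          exact ⟨⟨(mem_Fy Y X y x').1 h3, h3', hry⟩, by simp⟩
      rw [e1, Finset.sum_image (by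
        intro x _ x' _ h
        simpa using h)]
      refine Finset.sum_congr rfl fun x _ => ?_
      rw [ex_eq]
      unfold Sys.u uu
      have : ((x, (y : ℤ)) : El).2 ≠ 0 := by simp only; omega
      rw [if_neg this]
      simp
    · apply Finset.sum_eq_zero
      rintro ⟨x, z⟩ hv
      exfalso
      rw [Finset.mem_filter, hP, Finset.mem_filter] at hv
      obtain ⟨⟨h3, h3'⟩, h4⟩ := hv
      have h5 := (snd_bound Y h0 hc0 h3).1
      simp only at h5 h4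
      have h6 : z = y := by omega
      subst h6
      exact hry h3'.2
  have h3 : Finset.range (m + 1) = insert 0 (Finset.Icc 1 m) := by
    ext j
    simp only [Finset.mem_range, Finset.mem_insert, Finset.mem_Icc]
    omega
  rw [h1, h3, Finset.sum_insert (by simp), Finset.sum_congr rfl h2, ← Finset.sum_filter,
    add_sub_cancel_right]
  have h4 : ‖∑ v ∈ P.filter (fun v => v.2.toNat = 0), ex (ξ * Y.u v)‖ ≤
      ((P.filter (fun v => v.2.toNat = 0)).card : ℝ) := by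
    refine (norm_sum_le _ _).trans ?_
    simp [ex_eq, ee_norm]
  refine h4.trans (le_trans ?_ (ec3_zero Y h0 hc0 X))
  have h5 : (P.filter (fun v => v.2.toNat = 0)).card ≤
      ((Y.MF X).filter (fun v => v.2.toNat = 0)).card := by
    apply Finset.card_le_card
    intro v hv
    rw [Finset.mem_filter] at hv ⊢
    exact ⟨hPM v hv.1, hv.2⟩
  exact_mod_cast h5

/-- the sum over one line as a sum over an interval -/
theorem ec3_line (Y : Sys b c) {X : ℝ} {y : ℕ} (hy : 1 ≤ y) (ξ : ℝ) {r : ℕ} (hr : 1 ≤ r)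
    (x₀ : ℤ) : ∃ a e : ℤ,
    ∑ x ∈ (Fy Y X y).filter (fun x => (r : ℤ) ∣ x - x₀), ee (ξ * Y.ur (x / y)) =
      S (fun n => ξ * Y.ur ((n + (x₀ : ℝ) / r) / ((y : ℝ) / r))) a e ∧
    ∀ x : ℝ, (a : ℝ) ≤ x → x ≤ e - 1 →
      (dsc b c < 0 ∨ Y.lam < (x + (x₀ : ℝ) / r) / ((y : ℝ) / r)) ∧
        nr b c (x + (x₀ : ℝ) / r) ((y : ℝ) / r) ≤ X := by
  have hy0 : (0 : ℝ) < y := by exact_mod_cast hy
  have hr0 : (0 : ℝ) < r := by exact_mod_cast hr
  have hr1 : (1 : ℝ) ≤ r := by exact_mod_cast hr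
  have hrz : (0 : ℤ) < r := by exact_mod_cast hr
  have hpt : ∀ x : ℝ, (x + (x₀ : ℝ) / r) / ((y : ℝ) / r) = (x₀ + r * x) / y := by
    intro x
    field_simp
    ring
  set F : Finset ℤ := ((Fy Y X y).filter (fun x => (r : ℤ) ∣ x - x₀)).image
    (fun x => (x - x₀) / r) with hF
  have hFm : ∀ n : ℤ, n ∈ F ↔ ((x₀ : ℝ) + r * n) / y ∈ Ty Y X y := by
    intro n
    have e1 : ((x₀ : ℝ) + r * n) / y = ((x₀ + r * n : ℤ) : ℝ) / y := by push_cast; ring
    rw [e1, ← Fy_Ty Y X hy, hF, Finset.mem_image]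
    constructor
    · rintro ⟨x, hx, rfl⟩
      rw [Finset.mem_filter] at hx
      rw [Int.mul_ediv_cancel' hx.2]
      have : x₀ + (x - x₀) = x := by ring
      rw [this]
      exact hx.1
    · intro h
      refine ⟨x₀ + r * n, ?_, ?_⟩
      · rw [Finset.mem_filter]
        exact ⟨h, ⟨n, by ring⟩⟩
      · rw [show x₀ + (r : ℤ) * n - x₀ = r * n by ring, Int.mul_ediv_cancel_left _ hrz.ne']
  have hS : ∑ n ∈ F, ee (ξ * Y.ur (((n : ℝ) + (x₀ : ℝ) / r) / ((y : ℝ) / r))) =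
      ∑ x ∈ (Fy Y X y).filter (fun x => (r : ℤ) ∣ x - x₀), ee (ξ * Y.ur (x / y)) := by
    rw [hF, Finset.sum_image]
    · refine Finset.sum_congr rfl fun x hx => ?_
      rw [Finset.mem_filter] at hx
      rw [hpt]
      have e1 : (x₀ : ℝ) + r * (((x - x₀) / r : ℤ) : ℝ) = x := by
        have := Int.mul_ediv_cancel' hx.2
        have h2 : (r : ℝ) * (((x - x₀) / r : ℤ) : ℝ) = ((x - x₀ : ℤ) : ℝ) := by
          exact_mod_cast congrArg (Int.cast (R := ℝ)) this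
        rw [h2]
        push_cast
        ring
      rw [e1]
    · intro x hx z hz hxz
      simp only [Finset.coe_filter, Set.mem_ofPred_eq] at hx hz
      have h1 := Int.mul_ediv_cancel' hx.2
      have h2 := Int.mul_ediv_cancel' hz.2
      simp only at hxz
      rw [hxz, h2] at h1
      linarith
  rw [← hS]
  rcases Finset.eq_empty_or_nonempty F with h | hne
  · refine ⟨0, 0, by rw [h]; simp [S], ?_⟩
    intro x hx hx2
    push_cast at hx hx2
    linarith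
  · set a : ℤ := F.min' hne with ha
    set e : ℤ := F.max' hne with he
    have haT := (hFm a).1 (F.min'_mem hne)
    have heT := (hFm e).1 (F.max'_mem hne)
    have hconn := Ty_conn Y X hy0
    have hmono : ∀ s t : ℝ, s ≤ t → ((x₀ : ℝ) + r * s) / y ≤ (x₀ + r * t) / y := by
      intro s t hst
      apply div_le_div_of_nonneg_right _ hy0.le
      have := mul_le_mul_of_nonneg_left hst hr0.le
      linarith
    have hFI : F = Finset.Ico a (e + 1) := by
      ext n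
      rw [Finset.mem_Ico]
      constructor
      · intro hn; exact ⟨F.min'_le n hn, Int.lt_add_one_of_le (F.le_max' n hn)⟩
      · rintro ⟨h1, h2⟩
        rw [hFm]
        refine hconn.out haT heT ⟨hmono _ _ ?_, hmono _ _ ?_⟩
        · exact_mod_cast h1
        · exact_mod_cast Int.le_of_lt_add_one h2
    refine ⟨a, e + 1, ?_, ?_⟩
    · rw [hFI]
      rfl
    · intro x h1 h2
      push_cast at h2
      have h3 : ((x₀ : ℝ) + r * x) / y ∈ Ty Y X y :=
        hconn.out haT heT ⟨hmono _ _ h1, hmono _ _ (by linarith)⟩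
      have h4 := hpt x
      refine ⟨?_, ?_⟩
      · rw [h4]
        exact h3.1
      · rw [nr_eq b c _ _ (by positivity : (0 : ℝ) < (y : ℝ) / r), h4]
        have h5 : (y : ℝ) ^ 2 * ff b c (((x₀ : ℝ) + r * x) / y) ≤ X := h3.2
        have h6 : 0 < ff b c (((x₀ : ℝ) + r * x) / y) := ff_pos Y h3.1
        refine le_trans ?_ h5
        apply mul_le_mul_of_nonneg_right _ h6.le
        have h7 : (y : ℝ) / r ≤ y := div_le_self hy0.le hr1
        exact pow_le_pow_left₀ (by positivity) h7 2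

/-- the length of a line -/
theorem ec3_card (Y : Sys b c) {c0 : ℝ} (h0 : 0 < c0)
    (hc0 : ∀ t : ℝ, (dsc b c < 0 ∨ Y.lam ≤ t) → c0 * (1 + t ^ 2) ≤ t ^ 2 + b * t + c)
    {q : ℝ} (hq : 1 ≤ q) {y : ℕ} (hy : 1 ≤ y) :
    ((Fy Y (q ^ 1000) y).card : ℝ) ≤ (2 * (1 + 1 / c0) + 1) * q ^ 500 := by
  have hy0 : (0 : ℝ) < y := by exact_mod_cast hy
  obtain ⟨a, e, he1, he2⟩ := line Y (X := q ^ 1000) hy 0
  have h1 : ((Fy Y (q ^ 1000) y).card : ℝ) = ‖∑ x ∈ Fy Y (q ^ 1000) y, Gk Y 0 (x / y)‖ := by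
    have : ∀ t, Gk Y 0 t = 1 := by
      intro t
      unfold Gk
      rw [Int.cast_zero, zero_mul]
      exact ee_zero
    simp only [this, Finset.sum_const, nsmul_eq_mul, mul_one]
    rw [Complex.norm_natCast]
  rw [h1, he1]
  refine (S_norm_le _ a e).trans ?_
  have h2 := len_bound Y h0 hc0 hq hy0 he2
  rcases le_or_gt a e with h | h
  · have : (((e - a).toNat : ℕ) : ℤ) = e - a := by omega
    have h5 : (((e - a).toNat : ℕ) : ℝ) = ((e - a : ℤ) : ℝ) := by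
      exact_mod_cast congrArg (Int.cast (R := ℝ)) this
    rw [h5]
    exact h2
  · have : (e - a).toNat = 0 := by omega
    rw [this]
    push_cast
    positivity

open Classical in
theorem ec3_total (Y : Sys b c) {r : ℕ} (hr : 1 ≤ r) : ∃ C q0 : ℝ, 0 ≤ C ∧ 1 ≤ q0 ∧
    ∀ q : ℝ, q0 ≤ q → ∀ ξ : ℝ, |ξ| ≤ q ^ 3000 → ∃ Z : ℂ,
    ((∃ n : ℤ, n ≠ 0 ∧ ξ = n) → Z = 0) ∧ ∀ v₀ : El,
      ‖∑ v ∈ (Y.MF (q ^ 1000)).filter (fun v => dv r (v - v₀)), ex (ξ * Y.u v) - Z‖ ≤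
        C * q ^ 999 := by
  obtain ⟨c0, h0, hc0⟩ := exists_c0 Y
  obtain ⟨C1, hC1, hsmall⟩ := small_class Y h0 hc0 r hr
  obtain ⟨C2, hC2, hlarge⟩ := large_shift Y h0 hc0
  have hr0 : (0 : ℝ) < r := by exact_mod_cast hr
  have hκ := Y.κ_pos
  have hc_0 := Cs_nonneg Y h0 0
  have hc_1 := Cs_nonneg Y h0 1
  have hc_6 := Cs_nonneg Y h0 6
  have hc_7 := Cs_nonneg Y h0 7
  have hCtp : 1 ≤ Cst Y c0 := by rw [Cst]; linarith
  set K1 : ℝ := 2 * (1 + 1 / c0) + 1 with hK1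
  have hK1' : 3 ≤ K1 := by
    rw [hK1]
    have : 0 < 1 / c0 := by positivity
    linarith
  set C3 : ℝ := K1 + 1 / Y.κ + K1 * Cst Y c0 / Y.κ ^ 2 with hC3
  have hC3' : 0 ≤ C3 := by positivity
  set s0 : ℝ := Real.sqrt (1 / c0) with hs0
  have hs0' : 0 ≤ s0 := Real.sqrt_nonneg _
  refine ⟨1 + 3 * C1 + r * K1 + s0 * (C2 + C3), max 1 (2 * Cst Y c0),
    by positivity, le_max_left _ _, ?_⟩
  intro q hq ξ hk3
  have hq1 : 1 ≤ q := (le_max_left _ _).trans hq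
  have hq2 : 2 * Cst Y c0 ≤ q := (le_max_right _ _).trans hq
  have hq0 : 0 < q := by linarith
  have hX0 : 0 < q ^ 1000 := by positivity
  have hX1 : 1 ≤ q ^ 1000 := one_le_pow₀ hq1
  have hsX : Real.sqrt (q ^ 1000) = q ^ 500 := by
    rw [show q ^ 1000 = (q ^ 500) ^ 2 by ring, Real.sqrt_sq (by positivity)]
  have hsXc : Real.sqrt (q ^ 1000 / c0) = s0 * q ^ 500 := by
    rw [div_eq_mul_one_div, Real.sqrt_mul (by positivity), hsX, mul_comm]
  have hX34 : (q ^ 1000) ^ (3 / 4 : ℝ) = q ^ 750 := by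
    rw [← Real.rpow_natCast, ← Real.rpow_mul hq0.le, ← Real.rpow_natCast]
    norm_num
  have hp500 : q ^ 500 ≤ q ^ 999 := pow_le_pow_right₀ hq1 (by norm_num)
  rcases le_or_gt (|ξ|) (q ^ 21) with hks | hks
  · -- small
    obtain ⟨Z, hZ, hsm⟩ := hsmall (q ^ 1000) hX1 ξ
    refine ⟨Z, hZ, fun v₀ => ?_⟩
    have h1 := ec3_decomp Y h0 hc0 (q ^ 1000) ξ r v₀
    have h2 := hsm v₀
    rw [hsX, hX34] at h2
    rw [hsX] at h1
    have e1 : q ^ 521 ≤ q ^ 999 := pow_le_pow_right₀ hq1 (by norm_num)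
    have e2 : q ^ 750 ≤ q ^ 999 := pow_le_pow_right₀ hq1 (by norm_num)
    have e3 : C1 * q ^ 500 * (|ξ| + 1) ≤ 2 * C1 * q ^ 999 := by
      have e4 : |ξ| + 1 ≤ 2 * q ^ 21 := by
        have : (1 : ℝ) ≤ q ^ 21 := one_le_pow₀ hq1
        linarith
      calc C1 * q ^ 500 * (|ξ| + 1) ≤ C1 * q ^ 500 * (2 * q ^ 21) := by gcongr
        _ = 2 * C1 * q ^ 521 := by ring
        _ ≤ 2 * C1 * q ^ 999 := by gcongr
    have e5 : C1 * q ^ 750 ≤ C1 * q ^ 999 := by gcongr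
    have e6 : 0 ≤ (r * K1 + s0 * (C2 + C3)) * q ^ 999 := by positivity
    refine (norm_sub_le_norm_sub_add_norm_sub _ _ _).trans ((add_le_add h1 h2).trans ?_)
    have e7 : (1 + 3 * C1 + r * K1 + s0 * (C2 + C3)) * q ^ 999 = q ^ 999 + 2 * C1 * q ^ 999 +
      C1 * q ^ 999 + (r * K1 + s0 * (C2 + C3)) * q ^ 999 := by ring
    rw [e7]
    linarith
  · -- medium and large
    refine ⟨0, fun _ => rfl, fun v₀ => ?_⟩
    have h1 := ec3_decomp Y h0 hc0 (q ^ 1000) ξ r v₀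
    rw [hsX] at h1
    set m := ⌊Real.sqrt (q ^ 1000 / c0)⌋₊ with hm
    set P : Finset ℕ := (Finset.Icc 1 m).filter (fun y : ℕ => (r : ℤ) ∣ (y : ℤ) - v₀.2) with hP
    have hPm : ∀ y ∈ P, y ∈ Finset.Icc 1 m := fun y hy => (Finset.mem_filter.1 hy).1
    have hlines : ∀ y ∈ P,
        ‖∑ x ∈ (Fy Y (q ^ 1000) y).filter (fun x => (r : ℤ) ∣ x - v₀.1),
          ee (ξ * Y.ur (x / y))‖ ≤
          (if (y : ℝ) < r * q ^ 495 then K1 * q ^ 500 else 0) + (C2 + C3) * q ^ 499 := by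
      intro y hyP
      have hy := hPm y hyP
      rw [Finset.mem_Icc] at hy
      have hy0 : (0 : ℝ) < y := by exact_mod_cast hy.1
      by_cases hyq : (y : ℝ) < r * q ^ 495
      · rw [if_pos hyq]
        have h2 := ec3_card Y h0 hc0 hq1 hy.1
        have h3 : ‖∑ x ∈ (Fy Y (q ^ 1000) y).filter (fun x => (r : ℤ) ∣ x - v₀.1),
            ee (ξ * Y.ur (x / y))‖ ≤ ((Fy Y (q ^ 1000) y).card : ℝ) := by
          refine (norm_sum_le _ _).trans ?_
          simp only [ee_norm, Finset.sum_const, nsmul_eq_mul, mul_one]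
          exact_mod_cast Finset.card_filter_le _ _
        have h4 : 0 ≤ (C2 + C3) * q ^ 499 := by positivity
        linarith
      · rw [if_neg hyq, zero_add]
        have hyq' : q ^ 495 ≤ (y : ℝ) / r := by
          rw [le_div_iff₀ hr0]
          have := not_lt.1 hyq
          linarith
        obtain ⟨a, e, he1, he2⟩ := ec3_line Y (X := q ^ 1000) hy.1 ξ hr v₀.1
        rw [he1]
        rcases le_or_gt (|ξ| * (2 * Cst Y c0)) (q ^ 495) with hkm | hkm
        · have h1 := med_shift Y h0 hc0 (k := ξ) hq1 hks.le hkm hyq' he2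
          refine h1.trans ?_
          have : 0 ≤ C2 * q ^ 499 := by positivity
          rw [← hK1]
          calc (K1 + 1 / Y.κ + K1 * Cst Y c0 / Y.κ ^ 2) * q ^ 499 = C3 * q ^ 499 := by rw [hC3]
            _ ≤ C2 * q ^ 499 + C3 * q ^ 499 := by linarith
            _ = _ := by ring
        · have h1 := hlarge q ξ ((y : ℝ) / r) hq1 hq2 (by linarith) hk3 hyq' _ a e he2
          refine h1.trans ?_
          have : 0 ≤ C3 * q ^ 499 := by positivity
          linarith [add_mul C2 C3 (q ^ 499)]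
    have hmain : ‖∑ y ∈ P, ∑ x ∈ (Fy Y (q ^ 1000) y).filter (fun x => (r : ℤ) ∣ x - v₀.1),
          ee (ξ * Y.ur (x / y))‖ ≤ (r * K1 + s0 * (C2 + C3)) * q ^ 999 := by
      refine (norm_sum_le_of_le _ hlines).trans ?_
      rw [Finset.sum_add_distrib, Finset.sum_const, nsmul_eq_mul, ← Finset.sum_filter,
        Finset.sum_const, nsmul_eq_mul]
      have e1 : (P.card : ℝ) ≤ s0 * q ^ 500 := by
        have e0 : P.card ≤ m := by
          refine (Finset.card_filter_le _ _).trans ?_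
          rw [Nat.card_Icc, Nat.add_sub_cancel]
        have e2 : (P.card : ℝ) ≤ m := by exact_mod_cast e0
        refine e2.trans ?_
        rw [← hsXc]
        exact Nat.floor_le (Real.sqrt_nonneg _)
      have e2 : ((P.filter (fun y : ℕ => (y : ℝ) < r * q ^ 495)).card : ℝ) ≤ r * q ^ 495 := by
        have e3 : P.filter (fun y : ℕ => (y : ℝ) < r * q ^ 495) ⊆
            Finset.Icc 1 ⌊r * q ^ 495⌋₊ := by
          intro y hy
          rw [Finset.mem_filter] at hy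
          have := Finset.mem_Icc.1 (hPm y hy.1)
          rw [Finset.mem_Icc]
          exact ⟨this.1, Nat.le_floor hy.2.le⟩
        have e4 := Finset.card_le_card e3
        rw [Nat.card_Icc, Nat.add_sub_cancel] at e4
        have e5 : ((P.filter (fun y : ℕ => (y : ℝ) < r * q ^ 495)).card : ℝ) ≤
          (⌊r * q ^ 495⌋₊ : ℝ) := by exact_mod_cast e4
        exact e5.trans (Nat.floor_le (by positivity))
      have e6 : q ^ 995 ≤ q ^ 999 := pow_le_pow_right₀ hq1 (by norm_num)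
      calc _ ≤ r * q ^ 495 * (K1 * q ^ 500) + s0 * q ^ 500 * ((C2 + C3) * q ^ 499) := by gcongr
        _ = r * K1 * q ^ 995 + s0 * (C2 + C3) * q ^ 999 := by ring
        _ ≤ r * K1 * q ^ 999 + s0 * (C2 + C3) * q ^ 999 := by gcongr
        _ = _ := by ring
    have h5 := norm_sub_le_norm_sub_add_norm_sub
      (∑ v ∈ (Y.MF (q ^ 1000)).filter (fun v => dv r (v - v₀)), ex (ξ * Y.u v))
      (∑ y ∈ P, ∑ x ∈ (Fy Y (q ^ 1000) y).filter (fun x => (r : ℤ) ∣ x - v₀.1),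
          ee (ξ * Y.ur (x / y))) 0
    rw [sub_zero (∑ y ∈ P, ∑ x ∈ (Fy Y (q ^ 1000) y).filter (fun x => (r : ℤ) ∣ x - v₀.1),
          ee (ξ * Y.ur (x / y)))] at h5
    refine h5.trans ((add_le_add h1 hmain).trans ?_)
    have e6 : 0 ≤ 3 * C1 * q ^ 999 := by positivity
    have e7 : (1 + 3 * C1 + r * K1 + s0 * (C2 + C3)) * q ^ 999 = q ^ 999 + 3 * C1 * q ^ 999 +
      (r * K1 + s0 * (C2 + C3)) * q ^ 999 := by ring
    rw [e7]
    linarith

end

open Classical in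
theorem exp_real_pr : ∃ κ : ℝ, 0 < κ ∧ κ ≤ 1 ∧ ∀ (b c : ℤ) (S : Sys b c) (q : ℕ), 1 ≤ q →
    ∃ X₀ : ℝ, ∀ X : ℝ, X₀ ≤ X → ∀ ξ : ℝ, |ξ| ≤ X ^ 3 → ∃ Z : ℂ,
    ((∃ n : ℤ, n ≠ 0 ∧ ξ = n) → Z = 0) ∧ ∀ v₀ : El,
      ‖∑ v ∈ (S.MF X).filter (fun v => dv q (v - v₀)), ex (ξ * S.u v) - Z‖ ≤ X ^ (1 - κ) := by
  refine ⟨1 / 2000, by norm_num, by norm_num, ?_⟩
  intro b c Y r hr
  obtain ⟨C, q0, hC, hq0, htot⟩ := ec3_total Y hr
  refine ⟨(max q0 (C ^ 2)) ^ 1000, ?_⟩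
  intro X hX ξ hk3
  set Q : ℝ := max q0 (C ^ 2) with hQ
  have hQ1 : 1 ≤ Q := hq0.trans (le_max_left _ _)
  have hX1 : 1 ≤ X := (one_le_pow₀ hQ1).trans hX
  have hX0 : 0 < X := by linarith
  set q : ℝ := X ^ (1 / 1000 : ℝ) with hq
  have hqX : q ^ 1000 = X := by
    rw [hq, ← Real.rpow_natCast, ← Real.rpow_mul hX0.le]
    norm_num
  have hqQ : Q ≤ q := by
    refine le_of_pow_le_pow_left₀ (n := 1000) (by norm_num) (by positivity) ?_
    rw [hqX]
    exact hX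
  have hq0' : 0 < q := by linarith
  obtain ⟨Z, hZ, h1⟩ := htot q ((le_max_left _ _).trans hqQ) ξ (by
    refine hk3.trans (le_of_eq ?_)
    rw [← hqX]
    ring)
  rw [hqX] at h1
  refine ⟨Z, hZ, fun v₀ => (h1 v₀).trans ?_⟩
  have h2 : X ^ (1 - 1 / 2000 : ℝ) = q ^ 999 * q ^ (1 / 2 : ℝ) := by
    rw [← hqX, ← Real.rpow_natCast q 1000, ← Real.rpow_mul hq0'.le, ← Real.rpow_natCast q 999,
      ← Real.rpow_add hq0']
    norm_num
  rw [h2, mul_comm]
  apply mul_le_mul_of_nonneg_left _ (by positivity)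
  have h3 : C ^ 2 ≤ q := (le_max_right _ _).trans hqQ
  rw [← Real.sqrt_eq_rpow]
  exact Real.le_sqrt_of_sq_le h3

theorem exp_real : type_of% @exp_real_pr := @exp_real_pr

end Pool.Agent.AQM
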