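import Pool.Agent.Lib_helper39.MQX.SBA
import Pool.Agent.Lib_helper39.MQX.SBB
import Pool.Agent.Lib_helper39.MQX.SBC
import Pool.Agent.Lib_helper39.MQX.SAM
import Pool.Agent.Lib_helper39.AQM.Defs
import Pool.Agent.Lib_helper39.AQM.AB
import Pool.Agent.Lib_helper39.MQX.ALG
import Pool.Agent.Lib_helper39.MQX.LSV
import Pool.Agent.Lib_helper39.MQX.PAR
import Pool.Agent.Lib_helper39.MQX.FEJ
import Pool.Agent.Lib_helper39.MQX.EXP
import Pool.Agent.Lib_helper39.AQMF.CN2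
import Pool.Agent.Lib_helper39.AQMF.EC3

/-! block AS of AQM, proved by helper1 -/

/-! AQM. Block AS: the angular system of a window. -/

set_option autoImplicit false

namespace Pool.Agent.AQM

open Pool.Agent.MQ Pool.Agent.T2 Filter Topology MeasureTheory

theorem as_neg {b c : ℤ} (S : Sys b c) {v : El} (hv : S.wd v) : ¬ S.wd (-v) := by
  intro h
  obtain ⟨h1, h2⟩ := sam_wd_cases S hv
  obtain ⟨h3, h4⟩ := sam_wd_cases S h
  simp only [Prod.fst_neg, Prod.snd_neg] at h3 h4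
  have h5 : v.2 = 0 := by omega
  have h6 := h2 h5
  have h7 := h4 (by omega)
  omega

/-- the angular system of a window, without the counting axioms -/
theorem as_ang0 {b c : ℤ} (S : Sys b c) : ∃ A : Ang0 b c, A.S = S ∧ A.mu = 1 ∧
    (∀ v, A.wd v ↔ S.wd v) ∧ (∀ v, A.rp v = S.rp v) ∧ ∀ v, A.u v = S.u v := by
  obtain ⟨δ, h1, h2, h3⟩ := u_sep_pr S
  refine ⟨{
    S := S
    mu := 1
    mu_pos := le_rfl
    wd := S.wd
    rp := S.rp
    u := S.u
    δ := δ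
    δ_pos := h1
    δ_one := h2
    wd_nm := fun v hv => wd_nm_pr S hv
    rp_wd := S.rp_wd
    rp_self := S.rp_self
    rp_unit := S.rp_unit
    wd_sm := fun v n hn => wd_sm_pr S hn
    u_sm := fun v n _ hn => u_sm_pr S hn
    u_hom := S.u_hom
    u_S := fun v hv => ⟨0, by rw [S.rp_self v hv]; simp⟩
    fin := sbb_fin S
    par := fun v w hv hw pv pw h => Or.inl (sam_parallel S hv hw pv pw h).symm
    sep := fun X hX v w hv hw pv pw hne hvX hwX n =>
      h3 X hX v w hv hw hvX hwX (fun h => hne (sam_parallel S hv hw pv pw h)) n },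
    rfl, rfl, fun _ => Iff.rfl, fun _ => rfl, fun _ => rfl⟩

theorem ang_sys_pr {b c : ℤ} (S : Sys b c) : ∃ A : Ang b c, A.S = S ∧ A.mu = 1 ∧
    (∀ v, A.wd v ↔ S.wd v) ∧ (∀ v, A.rp v = S.rp v) ∧ ∀ v, A.u v = S.u v := by
  classical
  obtain ⟨A, hS, hmu, hwd, hrp, hu⟩ := as_ang0 S
  have hMF : ∀ X : ℝ, A.MF X = S.MF X := by
    intro X
    ext v
    unfold Ang0.MF
    rw [Set.Finite.mem_toFinset, mem_MF_pr S]
    change A.wd v ∧ _ ↔ _
    rw [hwd]
  refine ⟨{ toAng0 := A, cnt := ?_, exps := ?_ }, hS, hmu, hwd, hrp, hu⟩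
  · obtain ⟨κ, hκ, h⟩ := cls_count S
    refine ⟨κ, hκ, fun q hq => ?_⟩
    obtain ⟨C, hC, h'⟩ := h q hq
    refine ⟨C, hC, fun v₀ r d hd hcop hl x hx => ?_⟩
    rw [hMF]
    exact h' v₀ r d hd hcop hl x hx
  · obtain ⟨κ, hκ, hκ1, h⟩ := exp_real
    refine ⟨κ, hκ, hκ1, fun q hq => ?_⟩
    obtain ⟨X₀, h'⟩ := h b c S q hq
    refine ⟨X₀, fun X hX k hk hkX v₀ => ?_⟩
    obtain ⟨Z, hZ, h''⟩ := h' X hX (k : ℝ) hkX
    have hZ0 := hZ ⟨k, hk, rfl⟩
    have h3 := h'' v₀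
    rw [hZ0, sub_zero] at h3
    rw [hMF]
    have e : ∀ v, A.u v = S.u v := hu
    simp only [e]
    exact h3

theorem ang_sys : type_of% @ang_sys_pr := @ang_sys_pr

end Pool.Agent.AQM
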