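import Pool.Agent.Lib_helper39.MQX.PRM
import Pool.Agent.Lib_helper39.AQM.Defs
import Pool.Agent.Lib_helper39.AQM.AB
import Pool.Agent.Lib_helper39.MQX.ALG
import Pool.Agent.Lib_helper39.MQX.SBA
import Pool.Agent.Lib_helper39.MQX.SBB
import Pool.Agent.Lib_helper39.MQX.SBC
import Pool.Agent.Lib_helper39.MQX.LSV
import Pool.Agent.Lib_helper39.MQX.PAR
import Pool.Agent.Lib_helper39.MQX.FEJ
import Pool.Agent.Lib_helper39.MQX.EXP

/-! block TY of AQM, proved by helper67 -/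

/-! # AQM, block TY: typed sets -/

set_option autoImplicit false

namespace Pool.Agent.AQM

open Pool.Agent.MQ Pool.Agent.T2 Filter Topology MeasureTheory

theorem good_exists_pr {b c : ℤ} (hs : ¬ IsSquare (dsc b c)) : ∃ M₀ : ℕ, 1 ≤ M₀ ∧
    ∀ M : ℕ, 1 ≤ M → M₀ ∣ M → ∀ A : Ang b c, GoodM A M := by
  classical
  have hD0 : dsc b c ≠ 0 := fun h => hs (by rw [h]; exact ⟨0, rfl⟩)
  have hna : 1 ≤ (dsc b c).natAbs := Int.natAbs_pos.mpr hD0
  set K := (1 + b.natAbs + c.natAbs) * (1 + (dsc b c).natAbs) with hK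
  have hK1 : 1 ≤ K := Nat.mul_pos (by omega) (by omega)
  refine ⟨K.factorial * (dsc b c).natAbs, Nat.mul_pos K.factorial_pos hna, ?_⟩
  intro M hM hM₀ A
  refine ⟨hM, hD0, K * (M * K * (M * K)), Nat.mul_pos hK1 (Nat.mul_pos (Nat.mul_pos hM hK1)
    (Nat.mul_pos hM hK1)), ?_⟩
  intro E hE w hw
  have hKM : K.factorial ∣ M := (dvd_mul_right _ _).trans hM₀
  have hDM : (dsc b c).natAbs ∣ M := (dvd_mul_left _ _).trans hM₀
  -- the elements
  have hdata : ∀ p : ℕ, ∃ (v : El) (k : ℕ), p ∈ E → (1 ≤ k ∧ k ≤ K ∧ A.wd v ∧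
      nm b c v = k * p ∧ ¬ p ∣ M ∧ ¬ (p : ℤ) ∣ dsc b c) := by
    intro p
    by_cases hp : p ∈ E
    · obtain ⟨h2, h3, h4⟩ := hE p hp
      have hpM : ¬ p ∣ M := by
        intro h5
        have := Nat.le_of_dvd (by omega) h5
        omega
      have hpD : ¬ (p : ℤ) ∣ dsc b c := fun h5 => hpM ((Int.natCast_dvd.1 h5).trans hDM)
      obtain ⟨v, k, hk1, hk2, hv⟩ := prm_el hs h2 hpD h3
      have hv0 : 0 < nm b c v := by
        rw [hv]
        have : (0 : ℤ) < p := by exact_mod_cast h2.pos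
        have : (0 : ℤ) < k := by exact_mod_cast hk1
        positivity
      exact ⟨A.rp v, k, fun _ => ⟨hk1, hk2, A.rp_wd v hv0, by rw [AB.rp_nm A hv0, hv], hpM, hpD⟩⟩
    · exact ⟨(0, 0), 0, fun h => absurd h hp⟩
  choose el kk hel using hdata
  -- the colours
  set col : ℕ → ℕ × (ℕ × ℕ) := fun p => (kk p, (((el p).1 % ((M * kk p : ℕ) : ℤ)).toNat,
    ((el p).2 % ((M * kk p : ℕ) : ℤ)).toNat)) with hcol
  set Cs : Finset (ℕ × (ℕ × ℕ)) := (Finset.Icc 1 K) ×ˢ
    ((Finset.range (M * K)) ×ˢ (Finset.range (M * K))) with hCs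
  have hCard : Cs.card = K * (M * K * (M * K)) := by
    rw [hCs, Finset.card_product, Finset.card_product, Nat.card_Icc, Finset.card_range]
    simp
  have hmod : ∀ p ∈ E, ∀ a : ℤ, (a % ((M * kk p : ℕ) : ℤ)).toNat < M * K ∧
      (((a % ((M * kk p : ℕ) : ℤ)).toNat : ℕ) : ℤ) = a % ((M * kk p : ℕ) : ℤ) := by
    intro p hp a
    obtain ⟨h1, h2, _⟩ := hel p hp
    have hpos : 0 < M * kk p := Nat.mul_pos hM h1
    have hpos' : (0 : ℤ) < ((M * kk p : ℕ) : ℤ) := by exact_mod_cast hpos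
    have h3 := Int.emod_nonneg a hpos'.ne'
    have h4 := Int.emod_lt_of_pos a hpos'
    have h5 : M * kk p ≤ M * K := Nat.mul_le_mul_left M h2
    refine ⟨?_, Int.toNat_of_nonneg h3⟩
    omega
  have hmaps : ∀ p ∈ E, col p ∈ Cs := by
    intro p hp
    obtain ⟨h1, h2, _⟩ := hel p hp
    rw [hCs, Finset.mem_product, Finset.mem_product, Finset.mem_Icc, Finset.mem_range,
      Finset.mem_range]
    exact ⟨⟨h1, h2⟩, (hmod p hp _).1, (hmod p hp _).1⟩
  have hCpos : 0 < Cs.card := by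
    rw [hCard]
    exact Nat.mul_pos hK1 (Nat.mul_pos (Nat.mul_pos hM hK1) (Nat.mul_pos hM hK1))
  obtain ⟨y, hy, hle⟩ := Finset.exists_le_sum_fiber_of_maps_to_of_nsmul_le_sum (w := w)
    (b := (∑ p ∈ E, w p) / (Cs.card : ℝ)) hmaps (Finset.card_pos.1 hCpos) (by
      rw [nsmul_eq_mul]
      have : (Cs.card : ℝ) ≠ 0 := by exact_mod_cast hCpos.ne'
      rw [mul_div_cancel₀ _ this])
  rw [hCs, Finset.mem_product, Finset.mem_Icc] at hy
  have key : ∀ p ∈ E.filter (fun p => col p = y), p ∈ E ∧ kk p = y.1 ∧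
      ((el p).1 % ((M * kk p : ℕ) : ℤ)).toNat = y.2.1 ∧
      ((el p).2 % ((M * kk p : ℕ) : ℤ)).toNat = y.2.2 := by
    intro p hp
    rw [Finset.mem_filter] at hp
    obtain ⟨h1, h2⟩ := hp
    refine ⟨h1, ?_, ?_, ?_⟩
    · rw [← h2]
    · rw [← h2]
    · rw [← h2]
  refine ⟨E.filter (fun p => col p = y), Finset.filter_subset _ _, y.1,
    ((y.2.1 : ℤ), (y.2.2 : ℤ)), el, ?_, ?_⟩
  · refine ⟨hy.1.1, ?_, ?_, ?_, ?_, ?_, ?_, ?_, ?_⟩
    · exact ((Nat.dvd_factorial hy.1.1 hy.1.2)).trans hKM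
    · intro p hp
      exact (hE p (key p hp).1).1
    · intro p hp
      have h1 := (hE p (key p hp).1).2.1
      have h2 := Nat.mod_mul_right_mod p 4 (dsc b c).natAbs
      rw [h1] at h2
      rw [← h2]
    · intro p hp
      exact (hel p (key p hp).1).2.2.2.2.1
    · intro p hp
      exact (hel p (key p hp).1).2.2.2.2.2
    · intro p hp
      exact (hel p (key p hp).1).2.2.1
    · intro p hp
      rw [← (key p hp).2.1]
      exact (hel p (key p hp).1).2.2.2.1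
    · intro p hp
      obtain ⟨h1, h2, h3, h4⟩ := key p hp
      rw [← h2, ← h3, ← h4]
      have g1 := (hmod p h1 (el p).1).2
      have g2 := (hmod p h1 (el p).2).2
      refine ⟨?_, ?_⟩
      · show ((M * kk p : ℕ) : ℤ) ∣ (el p).1 - _
        rw [g1]
        exact Int.dvd_self_sub_emod
      · show ((M * kk p : ℕ) : ℤ) ∣ (el p).2 - _
        rw [g2]
        exact Int.dvd_self_sub_emod
  · rw [div_le_iff₀ (by exact_mod_cast hCpos)] at hle
    have h1 : (Cs.card : ℝ) = ((K * (M * K * (M * K)) : ℕ) : ℝ) := by rw [hCard]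
    rw [h1] at hle
    linarith

theorem good_exists : type_of% @good_exists_pr := @good_exists_pr

end Pool.Agent.AQM
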