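import Pool.Agent.Lib_helper39.AQM.Defs
import Pool.Agent.Lib_helper39.AQM.AB
import Pool.Agent.Lib_helper39.MQX.ALG
import Pool.Agent.Lib_helper39.MQX.SBA
import Pool.Agent.Lib_helper39.MQX.SBB
import Pool.Agent.Lib_helper39.MQX.SBC
import Pool.Agent.Lib_helper39.MQX.LSV
import Pool.Agent.Lib_helper39.MQX.PAR
import Pool.Agent.Lib_helper39.MQX.FEJ
import Pool.Agent.Lib_helper39.MQX.EXP
import Pool.Agent.Lib_helper39.AQMF.TY
import Pool.Agent.Lib_helper39.AQMF.E5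

/-! block Z of AQM, proved by helper99 -/

/-! # AQ, part II: block Z -/

set_option autoImplicit false

namespace Pool.Agent.AQM

open Pool.Agent.MQ Pool.Agent.T2 Filter Topology MeasureTheory

theorem part_two_pr {b c : ℤ} (hs : ¬ IsSquare (dsc b c)) : ∃ M₀ : ℕ, 1 ≤ M₀ ∧ ∀ M : ℕ, 1 ≤ M →
    M₀ ∣ M → ∀ A : Ang b c, ∀ T : El → Prop, Cls A M T → ∀ s₀ : El, T s₀ → Pm s₀ →
    0 < nm b c s₀ → ∃ ε H N₀ : ℝ, 0 < ε ∧ 16 ≤ H ∧ ∀ N : ℝ, N₀ ≤ N → ∀ h : ℕ → ℤ, Sgn h →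
      gg b c h s₀ = -1 → ∀ F : ℝ → ℝ, ¬ LocH A h M T N H ε F := by
  obtain ⟨M₀, h1, hg⟩ := good_exists hs
  refine ⟨M₀, h1, ?_⟩
  intro M hM hd A T hT s₀ hs₀ hp hn
  exact part_two_M A hs hT (hg M hM hd A) s₀ hs₀ hp hn

theorem part_two : type_of% @part_two_pr := @part_two_pr

end Pool.Agent.AQM
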