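import Pool.Agent.Lib_helper39.AQM.Defs
import Pool.Agent.Lib_helper39.AQM.AB
import Pool.Agent.Lib_helper39.MQX.ALG
import Pool.Agent.Lib_helper39.MQX.SBA
import Pool.Agent.Lib_helper39.MQX.SBB
import Pool.Agent.Lib_helper39.MQX.SBC
import Pool.Agent.Lib_helper39.MQX.LSV
import Pool.Agent.Lib_helper39.MQX.PAR
import Pool.Agent.Lib_helper39.MQX.FEJ
import Pool.Agent.Lib_helper39.MQX.EXP

/-! block AL1 of AQM, proved by helper37 -/

set_option autoImplicit false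

namespace Pool.Agent.AQM

open Pool.Agent.MQ Pool.Agent.T2 Filter Topology MeasureTheory

section
variable {b c : ℤ} (A : Ang b c)

theorem mem_PS_pr {q : ℕ} {V : El → Prop} {x : ℝ} {w : El} : w ∈ PS A q V x ↔
    A.wd w ∧ (nm b c w : ℝ) ≤ x ∧ V w ∧ ∀ l : ℕ, l.Prime → dv l w → l ∣ q := by
  classical
  unfold PS
  simp only [Finset.mem_filter, AB.mem_MF A]
  rw [and_assoc]

theorem al1_pm (w : El) : (∀ l : ℕ, l.Prime → ¬ dv l w) ↔ Pm w := by
  unfold Pm dv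
  rw [Nat.eq_one_iff_not_exists_prime_dvd]
  constructor
  · intro h p hp hd
    apply h p hp
    have h1 : (p : ℤ) ∣ ((Int.gcd w.1 w.2 : ℕ) : ℤ) := by exact_mod_cast hd
    exact ⟨h1.trans (Int.gcd_dvd_left _ _), h1.trans (Int.gcd_dvd_right _ _)⟩
  · intro h p hp hd
    apply h p hp
    have h1 : (p : ℤ) ∣ ((Int.gcd w.1 w.2 : ℕ) : ℤ) := Int.dvd_coe_gcd hd.1 hd.2
    exact_mod_cast h1

theorem mem_PF_pr {x : ℝ} {w : El} : w ∈ PF A x ↔ A.wd w ∧ (nm b c w : ℝ) ≤ x ∧ Pm w := by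
  unfold PF
  rw [mem_PS_pr A, ← al1_pm]
  have h : ∀ l : ℕ, l.Prime → (l ∣ 1 ↔ False) := by
    intro l hl
    rw [Nat.dvd_one]
    exact iff_false_intro hl.ne_one
  constructor
  · rintro ⟨h1, h2, -, h3⟩
    exact ⟨h1, h2, fun l hl hd => (h l hl).1 (h3 l hl hd)⟩
  · rintro ⟨h1, h2, h3⟩
    exact ⟨h1, h2, trivial, fun l hl hd => absurd hd (h3 l hl)⟩

theorem PS_sub_pr {q q' : ℕ} {V V' : El → Prop} {x x' : ℝ}
    (hq : ∀ l : ℕ, l.Prime → l ∣ q → l ∣ q') (hV : ∀ w, V w → V' w) (hx : x ≤ x') :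
    PS A q V x ⊆ PS A q' V' x' := by
  intro w hw
  rw [mem_PS_pr A] at hw ⊢
  exact ⟨hw.1, hw.2.1.trans hx, hV _ hw.2.2.1, fun l hl hd => hq l hl (hw.2.2.2 l hl hd)⟩

theorem PS_card_pr : ∃ C : ℝ, 1 ≤ C ∧ ∀ (q : ℕ) (V : El → Prop) (x : ℝ), 0 ≤ x →
    ((PS A q V x).card : ℝ) ≤ C * x := by
  classical
  obtain ⟨κ, hκ, h⟩ := A.cnt
  obtain ⟨C, hC, hh⟩ := h 1 le_rfl
  refine ⟨κ + C, by linarith, fun q V x hx => ?_⟩
  rcases lt_or_ge x 1 with h1 | h1
  · have he : PS A q V x = ∅ := by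
      rw [Finset.eq_empty_iff_forall_notMem]
      intro w hw
      rw [mem_PS_pr A] at hw
      have h2 := A.wd_nm w hw.1
      have h3 : (1 : ℝ) ≤ (nm b c w : ℝ) := by exact_mod_cast h2
      linarith [hw.2.1]
    rw [he, Finset.card_empty, Nat.cast_zero]
    positivity
  · have h2 := hh (0, 0) (0, 0) 1 le_rfl (Nat.coprime_one_right 1)
      (fun l hl hd => absurd (Nat.dvd_one.1 hd) hl.ne_one) x h1
    have h3 : (PS A q V x).card ≤ ((A.MF x).filter
        (fun w => dv ((1 : ℕ) : ℤ) (w - ((0, 0) : El)) ∧ ((1 : ℕ) : ℤ) ∣ dt w ((0, 0) : El))).card := by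
      apply Finset.card_le_card
      intro w hw
      rw [mem_PS_pr A] at hw
      rw [Finset.mem_filter, AB.mem_MF]
      refine ⟨⟨hw.1, hw.2.1⟩, ?_, ?_⟩
      · unfold dv
        rw [Nat.cast_one]
        exact ⟨one_dvd _, one_dvd _⟩
      · rw [Nat.cast_one]
        exact one_dvd _
    have h4 : ((PS A q V x).card : ℝ) ≤ (((A.MF x).filter
        (fun w => dv ((1 : ℕ) : ℤ) (w - ((0, 0) : El)) ∧
          ((1 : ℕ) : ℤ) ∣ dt w ((0, 0) : El))).card : ℝ) := by exact_mod_cast h3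
    have h5 := (abs_le.1 h2).2
    have h6 : Real.sqrt x ≤ x := by
      rw [Real.sqrt_le_left (by linarith)]
      nlinarith
    have h7 : κ * x / (((1 : ℕ) : ℝ) ^ 2 * ((1 : ℕ) : ℝ)) = κ * x := by
      rw [Nat.cast_one]
      ring
    rw [h7] at h5
    have h8 : C * Real.sqrt x ≤ C * x := mul_le_mul_of_nonneg_left h6 (by linarith)
    calc ((PS A q V x).card : ℝ) ≤ _ := h4
      _ ≤ κ * x + C * Real.sqrt x := by linarith
      _ ≤ (κ + C) * x := by linarith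

theorem ex_norm_pr (t : ℝ) : ‖ex t‖ = 1 := par_ex_norm t

theorem ex_add_pr (s t : ℝ) : ex (s + t) = ex s * ex t := par_ex_add s t

theorem ex_int_pr (n : ℤ) : ex (n : ℝ) = 1 := par_ex_int n

theorem ex_neg_pr (t : ℝ) : ex (-t) = (starRingEnd ℂ) (ex t) := by
  unfold ex
  rw [← Complex.exp_conj]
  congr 1
  simp only [map_mul, Complex.conj_ofReal, Complex.conj_I, map_ofNat]
  push_cast
  ring

theorem ex_ml_pr {v w : El} (hv : A.wd v) (hw : A.wd w) (k : ℤ) :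
    ex (k * A.u (A.rp (ml b c v w))) = ex (k * A.u v) * ex (k * A.u w) := by
  obtain ⟨n, hn⟩ := A.u_hom v w hv hw
  have h1 : (k : ℝ) * A.u (A.rp (ml b c v w)) =
      (k * A.u v + k * A.u w) + ((k * n : ℤ) : ℝ) := by
    rw [hn]
    push_cast
    ring
  rw [h1, ex_add_pr, ex_add_pr, ex_int_pr, mul_one]

theorem ex_sm_pr {v : El} (hv : A.wd v) {n : ℕ} (hn : 1 ≤ n) (k : ℤ) :
    ex (k * A.u (sm n v)) = ex (k * A.u v) := by
  rw [A.u_sm v n hv hn]

theorem gg_norm_pr {h : ℕ → ℤ} (hh : Sgn h) {v : El} (hv : nm b c v ≠ 0) :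
    ‖(gg b c h v : ℂ)‖ = 1 := by
  rcases gg_pm hh hv with h1 | h1
  · rw [h1]
    simp
  · rw [h1]
    simp

/-- at most two primitive elements of the window are parallel to `v` -/
theorem par_two_pr {v : El} (hv : v ≠ 0) : ∃ s : Finset El, s.card ≤ 2 ∧
    ∀ w : El, A.wd w → Pm w → dt v w = 0 → w ∈ s := by
  classical
  by_cases h : ∃ w₀ : El, A.wd w₀ ∧ Pm w₀ ∧ dt v w₀ = 0
  · obtain ⟨w₀, h1, h2, h3⟩ := h
    refine ⟨{w₀, -w₀}, Finset.card_le_two, fun w g1 g2 g3 => ?_⟩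
    have h4 : dt w₀ w = 0 := by
      unfold dt at h3 g3 ⊢
      have h5 : v.1 ≠ 0 ∨ v.2 ≠ 0 := by
        by_contra hcon
        push Not at hcon
        exact hv (Prod.ext hcon.1 hcon.2)
      rcases h5 with h5 | h5
      · have h6 : v.1 * (w₀.1 * w.2 - w₀.2 * w.1) = 0 := by
          linear_combination w₀.1 * g3 - w.1 * h3
        exact (mul_eq_zero.1 h6).resolve_left h5
      · have h6 : v.2 * (w₀.1 * w.2 - w₀.2 * w.1) = 0 := by
          linear_combination w₀.2 * g3 - w.2 * h3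
        exact (mul_eq_zero.1 h6).resolve_left h5
    rcases A.par w₀ w h1 g1 h2 g2 h4 with h5 | h5
    · rw [h5]
      simp
    · rw [h5]
      simp
  · refine ⟨∅, by simp, fun w g1 g2 g3 => absurd ⟨w, g1, g2, g3⟩ h⟩

/-- the primitive part in the window -/
theorem prim_part_pr {v : El} (hv : A.wd v) : ∃ (n : ℕ) (z : El), 1 ≤ n ∧ A.wd z ∧ Pm z ∧
    v = sm n z := by
  have h0 := A.wd_nm v hv
  obtain ⟨g, hg⟩ : ∃ g : ℕ, g = Int.gcd v.1 v.2 := ⟨_, rfl⟩
  have hg0 : 0 < g := by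
    rw [hg]
    apply Nat.pos_of_ne_zero
    intro h1
    rw [Int.gcd_eq_zero_iff] at h1
    have h2 : nm b c v = 0 := by
      unfold nm
      rw [h1.1, h1.2]
      ring
    omega
  obtain ⟨x, hx⟩ : (g : ℤ) ∣ v.1 := by
    rw [hg]
    exact Int.gcd_dvd_left _ _
  obtain ⟨y, hy⟩ : (g : ℤ) ∣ v.2 := by
    rw [hg]
    exact Int.gcd_dvd_right _ _
  have h1 : v = sm g (x, y) := by
    unfold sm
    exact Prod.ext hx hy
  refine ⟨g, (x, y), hg0, ?_, ?_, h1⟩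
  · rw [h1] at hv
    exact (A.wd_sm (x, y) g hg0).1 hv
  · unfold Pm
    have h2 : Int.gcd ((g : ℤ) * x) ((g : ℤ) * y) = g * Int.gcd x y := by
      rw [Int.gcd_mul_left, Int.natAbs_natCast]
    rw [← hx, ← hy, ← hg] at h2
    have h3 : g * Int.gcd x y = g * 1 := by omega
    exact Nat.eq_of_mul_eq_mul_left hg0 h3

/-- elements of a class are primitive at the primes of `M` -/
theorem cls_prim_pr {M : ℕ} {T : El → Prop} (hT : Cls A M T) {v : El} (hv : T v) {l : ℕ}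
    (hl : l.Prime) (hlM : l ∣ M) : ¬ dv l v := by
  intro hd
  have h1 := hT.cop v hv
  have h2 : (l : ℤ) ∣ nm b c v := by
    obtain ⟨⟨x, hx⟩, ⟨y, hy⟩⟩ := hd
    unfold nm
    rw [hx, hy]
    exact ⟨l * x ^ 2 + b * l * x * y + c * l * y ^ 2, by ring⟩
  have h3 : (l : ℤ) ∣ (M : ℤ) := by exact_mod_cast hlM
  have h4 : (l : ℤ) ∣ ((Int.gcd (nm b c v) M : ℕ) : ℤ) := Int.dvd_coe_gcd h2 h3
  rw [h1] at h4
  have h5 : l ∣ 1 := by exact_mod_cast h4
  exact hl.ne_one (Nat.dvd_one.1 h5)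

theorem PS_T_prim_pr {M : ℕ} {T : El → Prop} (hT : Cls A M T) {x : ℝ} {v : El}
    (hv : v ∈ PS A M T x) : Pm v := by
  rw [mem_PS_pr A] at hv
  rw [← al1_pm]
  intro l hl hd
  exact cls_prim_pr A hT hv.2.2.1 hl (hv.2.2.2 l hl hd) hd

end

theorem mem_PS : type_of% @mem_PS_pr := @mem_PS_pr
theorem mem_PF : type_of% @mem_PF_pr := @mem_PF_pr
theorem PS_sub : type_of% @PS_sub_pr := @PS_sub_pr
theorem PS_card : type_of% @PS_card_pr := @PS_card_pr
theorem ex_norm : type_of% @ex_norm_pr := @ex_norm_pr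
theorem ex_add : type_of% @ex_add_pr := @ex_add_pr
theorem ex_int : type_of% @ex_int_pr := @ex_int_pr
theorem ex_neg : type_of% @ex_neg_pr := @ex_neg_pr
theorem ex_ml : type_of% @ex_ml_pr := @ex_ml_pr
theorem ex_sm : type_of% @ex_sm_pr := @ex_sm_pr
theorem gg_norm : type_of% @gg_norm_pr := @gg_norm_pr
theorem par_two : type_of% @par_two_pr := @par_two_pr
theorem prim_part : type_of% @prim_part_pr := @prim_part_pr
theorem cls_prim : type_of% @cls_prim_pr := @cls_prim_pr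
theorem PS_T_prim : type_of% @PS_T_prim_pr := @PS_T_prim_pr

end Pool.Agent.AQM
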