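import Pool.Agent.Lib_helper39.AQM.Defs
import Pool.Agent.Lib_helper39.AQM.AB
import Pool.Agent.Lib_helper39.MQX.ALG
import Pool.Agent.Lib_helper39.MQX.SBA
import Pool.Agent.Lib_helper39.MQX.SBB
import Pool.Agent.Lib_helper39.MQX.SBC
import Pool.Agent.Lib_helper39.MQX.LSV
import Pool.Agent.Lib_helper39.MQX.PAR
import Pool.Agent.Lib_helper39.MQX.FEJ
import Pool.Agent.Lib_helper39.MQX.EXP

/-! block AL2 of AQM, proved by helper37 -/

set_option autoImplicit false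

namespace Pool.Agent.AQM

open Pool.Agent.MQ Pool.Agent.T2 Filter Topology MeasureTheory

/-- isotropic elements modulo a prime `p` -/
theorem al2_Dv_of_nm {b c : ℤ} {p : ℕ} (hp : p.Prime) {π v : El} (hπ : (p : ℤ) ∣ nm b c π)
    (hπ0 : ¬ dv p π) (h : Dv p π v) : (p : ℤ) ∣ nm b c v := by
  have hpp : Prime (p : ℤ) := Nat.prime_iff_prime_int.1 hp
  unfold Dv dt at h
  unfold nm at hπ ⊢
  unfold dv at hπ0
  have h0 : ¬ (p : ℤ) ∣ π.1 ∨ ¬ (p : ℤ) ∣ π.2 := by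
    by_contra hcon
    push Not at hcon
    exact hπ0 hcon
  rcases h0 with h0 | h0
  · have h1 : (p : ℤ) ∣ π.1 ^ 2 * (v.1 ^ 2 + b * v.1 * v.2 + c * v.2 ^ 2) := by
      have h2 : π.1 ^ 2 * (v.1 ^ 2 + b * v.1 * v.2 + c * v.2 ^ 2) =
          v.1 ^ 2 * (π.1 ^ 2 + b * π.1 * π.2 + c * π.2 ^ 2) +
          (v.1 * π.2 - v.2 * π.1) * (-(b * v.1 * π.1) - c * (v.1 * π.2 + v.2 * π.1)) := by ring
      rw [h2]
      exact dvd_add (hπ.mul_left _) (h.mul_right _)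
    rcases hpp.dvd_or_dvd h1 with h3 | h3
    · exact absurd (hpp.dvd_of_dvd_pow h3) h0
    · exact h3
  · have h1 : (p : ℤ) ∣ π.2 ^ 2 * (v.1 ^ 2 + b * v.1 * v.2 + c * v.2 ^ 2) := by
      have h2 : π.2 ^ 2 * (v.1 ^ 2 + b * v.1 * v.2 + c * v.2 ^ 2) =
          v.2 ^ 2 * (π.1 ^ 2 + b * π.1 * π.2 + c * π.2 ^ 2) +
          (v.1 * π.2 - v.2 * π.1) * (b * v.2 * π.2 + (v.1 * π.2 + v.2 * π.1)) := by ring
      rw [h2]
      exact dvd_add (hπ.mul_left _) (h.mul_right _)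
    rcases hpp.dvd_or_dvd h1 with h3 | h3
    · exact absurd (hpp.dvd_of_dvd_pow h3) h0
    · exact h3

theorem al2_snd {b c : ℤ} {p : ℕ} (hp : p.Prime) {σ : El} (hσ : (p : ℤ) ∣ nm b c σ)
    (hσ0 : ¬ dv p σ) : ¬ (p : ℤ) ∣ σ.2 := by
  have hpp : Prime (p : ℤ) := Nat.prime_iff_prime_int.1 hp
  intro h
  apply hσ0
  refine ⟨?_, h⟩
  unfold nm at hσ
  have h1 : (p : ℤ) ∣ σ.1 ^ 2 := by
    have h2 : σ.1 ^ 2 = (σ.1 ^ 2 + b * σ.1 * σ.2 + c * σ.2 ^ 2) -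
        σ.2 * (b * σ.1 + c * σ.2) := by ring
    rw [h2]
    exact dvd_sub hσ (h.mul_right _)
  exact hpp.dvd_of_dvd_pow h1

theorem al2_ml {b c : ℤ} {p : ℕ} (hp : p.Prime) {σ : El} (hσ : (p : ℤ) ∣ nm b c σ)
    (hσ0 : ¬ dv p σ) (v w : El) :
    Dv p σ (ml b c v w) ↔ Dv p σ v ∨ Dv p σ w := by
  have hpp : Prime (p : ℤ) := Nat.prime_iff_prime_int.1 hp
  have h0 := al2_snd hp hσ hσ0
  have h1 : σ.2 * dt (ml b c v w) σ = dt v σ * dt w σ - v.2 * w.2 * nm b c σ := by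
    unfold dt ml nm
    simp only
    ring
  unfold Dv
  constructor
  · intro h
    have h2 : (p : ℤ) ∣ dt v σ * dt w σ := by
      have h3 : dt v σ * dt w σ = σ.2 * dt (ml b c v w) σ + v.2 * w.2 * nm b c σ := by
        rw [h1]
        ring
      rw [h3]
      exact dvd_add (h.mul_left _) (hσ.mul_left _)
    exact hpp.dvd_or_dvd h2
  · intro h
    have h2 : (p : ℤ) ∣ dt v σ * dt w σ := by
      rcases h with h | h
      · exact h.mul_right _
      · exact h.mul_left _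
    have h3 : (p : ℤ) ∣ σ.2 * dt (ml b c v w) σ := by
      rw [h1]
      exact dvd_sub h2 (hσ.mul_left _)
    exact (hpp.dvd_or_dvd h3).resolve_left h0

theorem al2_dv_cj {b : ℤ} {p : ℤ} {v : El} : dv p (cj b v) ↔ dv p v := by
  unfold dv cj
  simp only
  constructor
  · rintro ⟨h1, h2⟩
    have h3 : p ∣ v.2 := by simpa using h2
    refine ⟨?_, h3⟩
    have h4 : v.1 = (v.1 + b * v.2) - b * v.2 := by ring
    rw [h4]
    exact dvd_sub h1 (h3.mul_left _)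
  · rintro ⟨h1, h2⟩
    exact ⟨dvd_add h1 (h2.mul_left _), h2.neg_right⟩

theorem al2_cj_cj (b : ℤ) (v : El) : cj b (cj b v) = v := by
  unfold cj
  apply Prod.ext <;> simp

/-- the cofactor -/
theorem al2_cof {b c : ℤ} {p k : ℕ} (hp : p.Prime) {σ : El} (hσ : nm b c σ = k * p) {v : El}
    (h : Dv p σ v) : ∃ w : El, ml b c (cj b σ) v = sm p w ∧ ml b c σ w = sm k v ∧
      (p : ℤ) * nm b c w = k * nm b c v := by
  have hpp : Prime (p : ℤ) := Nat.prime_iff_prime_int.1 hp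
  have hp0 : (p : ℤ) ≠ 0 := hpp.ne_zero
  have h1 : (p : ℤ) ∣ dt σ v := by
    have h2 : dt σ v = -dt v σ := by
      unfold dt
      ring
    rw [h2]
    unfold Dv at h
    exact h.neg_right
  have h2 : (p : ℤ) ∣ bl b c σ v := by
    have h3 : bl b c σ v ^ 2 = nm b c σ * nm b c v -
        dt σ v * (b * bl b c σ v + c * dt σ v) := by
      unfold bl dt nm
      ring
    have h4 : (p : ℤ) ∣ bl b c σ v ^ 2 := by
      rw [h3, hσ]
      exact dvd_sub ((Dvd.intro_left _ rfl).mul_right _) (h1.mul_right _)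
    exact hpp.dvd_of_dvd_pow h4
  obtain ⟨x, hx⟩ := h2
  obtain ⟨y, hy⟩ := h1
  have h3 : ml b c (cj b σ) v = sm p (x, y) := by
    rw [ml_cj, hx, hy]
    rfl
  have h4 : ml b c σ (sm p (x, y)) = sm (k * p) v := by
    rw [← h3, ← ml_assoc, ml_comm b c σ (cj b σ), ml_cj_self, hσ, ml_scal]
    unfold sm
    push_cast
    rfl
  have h5 : ml b c σ (x, y) = sm k v := by
    rw [sba_ml_sm] at h4
    unfold sm at h4 ⊢
    have h6 := congrArg Prod.fst h4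
    have h7 := congrArg Prod.snd h4
    simp only at h6 h7
    push_cast at h6 h7
    apply Prod.ext
    · simp only
      apply mul_left_cancel₀ hp0
      rw [h6]
      ring
    · simp only
      apply mul_left_cancel₀ hp0
      rw [h7]
      ring
  refine ⟨(x, y), h3, h5, ?_⟩
  have h6 : nm b c (ml b c (cj b σ) v) = nm b c σ * nm b c v := by
    rw [nm_ml, nm_cj]
  rw [h3, sba_nm_sm, hσ] at h6
  apply mul_left_cancel₀ hp0
  rw [show (p : ℤ) * (p * nm b c (x, y)) = (p : ℤ) ^ 2 * nm b c (x, y) by ring, h6]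
  ring

section
variable {b c : ℤ} (A : Ang b c)
variable {M k₀ : ℕ} {B : Finset ℕ} {r : El} {π : ℕ → El}

theorem ndk_pr (hB : TP A M B k₀ r π) {p : ℕ} (hp : p ∈ B) : ¬ p ∣ k₀ :=
  fun h => hB.ndM p hp (h.trans hB.kM)

theorem Dv_of_nm_pr {p : ℕ} (hp : p.Prime) {π v : El} (hπ : (p : ℤ) ∣ nm b c π) (hπ0 : ¬ dv p π)
    (h : Dv p π v) : (p : ℤ) ∣ nm b c v := al2_Dv_of_nm hp hπ hπ0 h

theorem Dv_self_pr (p : ℕ) (v : El) : Dv p v v := by
  unfold Dv dt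
  rw [mul_comm v.2 v.1, sub_self]
  exact dvd_zero _

theorem al2_nm_dvd (hB : TP A M B k₀ r π) {p : ℕ} (hp : p ∈ B) : (p : ℤ) ∣ nm b c (π p) := by
  rw [hB.nm p hp]
  exact Dvd.intro_left _ rfl

theorem Dv_not_dv_pr (hB : TP A M B k₀ r π) {p : ℕ} (hp : p ∈ B) : ¬ dv p (π p) := by
  intro h
  have hpr := hB.prime p hp
  have hpp : Prime (p : ℤ) := Nat.prime_iff_prime_int.1 hpr
  obtain ⟨⟨x, hx⟩, ⟨y, hy⟩⟩ := h
  have h1 := hB.nm p hp
  unfold nm at h1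
  rw [hx, hy] at h1
  have h2 : (p : ℤ) * (p * (x ^ 2 + b * x * y + c * y ^ 2)) = p * k₀ := by
    linear_combination h1
  have h3 := mul_left_cancel₀ hpp.ne_zero h2
  have h4 : (p : ℤ) ∣ (k₀ : ℤ) := ⟨_, h3.symm⟩
  exact ndk_pr A hB hp (by exact_mod_cast h4)

theorem al2_not_dv_cj (hB : TP A M B k₀ r π) {p : ℕ} (hp : p ∈ B) : ¬ dv p (cj b (π p)) := by
  rw [al2_dv_cj]
  exact Dv_not_dv_pr A hB hp

theorem al2_nm_cj_dvd (hB : TP A M B k₀ r π) {p : ℕ} (hp : p ∈ B) :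
    (p : ℤ) ∣ nm b c (cj b (π p)) := by
  rw [nm_cj]
  exact al2_nm_dvd A hB hp

theorem al2_lin (hB : TP A M B k₀ r π) {p : ℕ} (hp : p ∈ B) :
    ¬ (p : ℤ) ∣ 2 * (π p).1 + b * (π p).2 := by
  intro h
  have hpr := hB.prime p hp
  have hpp : Prime (p : ℤ) := Nat.prime_iff_prime_int.1 hpr
  have h0 := al2_snd hpr (al2_nm_dvd A hB hp) (Dv_not_dv_pr A hB hp)
  have h1 : (p : ℤ) ∣ dsc b c * (π p).2 ^ 2 := by
    have h2 : dsc b c * (π p).2 ^ 2 = (2 * (π p).1 + b * (π p).2) ^ 2 - 4 * nm b c (π p) := by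
      unfold dsc nm
      ring
    rw [h2]
    exact dvd_sub (h.trans (dvd_pow_self _ two_ne_zero)) ((al2_nm_dvd A hB hp).mul_left _)
  rcases hpp.dvd_or_dvd h1 with h2 | h2
  · exact hB.ndD p hp h2
  · exact h0 (hpp.dvd_of_dvd_pow h2)

theorem Dv_not_cj_pr (hB : TP A M B k₀ r π) {p : ℕ} (hp : p ∈ B) :
    ¬ Dv p (cj b (π p)) (π p) := by
  intro h
  have hpr := hB.prime p hp
  have hpp : Prime (p : ℤ) := Nat.prime_iff_prime_int.1 hpr
  have h0 := al2_snd hpr (al2_nm_dvd A hB hp) (Dv_not_dv_pr A hB hp)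
  unfold Dv at h
  have h1 : dt (π p) (cj b (π p)) = -((π p).2 * (2 * (π p).1 + b * (π p).2)) := by
    unfold dt cj
    simp only
    ring
  rw [h1, dvd_neg] at h
  rcases hpp.dvd_or_dvd h with h2 | h2
  · exact h0 h2
  · exact al2_lin A hB hp h2

theorem Dv_cj_pr {p : ℕ} {π v : El} : Dv p (cj b π) (cj b v) ↔ Dv p π v := by
  unfold Dv
  have h1 : dt (cj b v) (cj b π) = -dt v π := by
    unfold dt cj
    simp only
    ring
  rw [h1, dvd_neg]

theorem Dv_ml_pr (hB : TP A M B k₀ r π) {p : ℕ} (hp : p ∈ B) (v w : El) :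
    Dv p (π p) (ml b c v w) ↔ Dv p (π p) v ∨ Dv p (π p) w :=
  al2_ml (hB.prime p hp) (al2_nm_dvd A hB hp) (Dv_not_dv_pr A hB hp) v w

theorem Dv_ml'_pr (hB : TP A M B k₀ r π) {p : ℕ} (hp : p ∈ B) (v w : El) :
    Dv p (cj b (π p)) (ml b c v w) ↔ Dv p (cj b (π p)) v ∨ Dv p (cj b (π p)) w :=
  al2_ml (hB.prime p hp) (al2_nm_cj_dvd A hB hp) (al2_not_dv_cj A hB hp) v w

theorem Dv_dv_pr (hB : TP A M B k₀ r π) {p : ℕ} (hp : p ∈ B) (v : El) :
    dv p v ↔ Dv p (π p) v ∧ Dv p (cj b (π p)) v := by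
  have hpr := hB.prime p hp
  have hpp : Prime (p : ℤ) := Nat.prime_iff_prime_int.1 hpr
  have h0 := al2_snd hpr (al2_nm_dvd A hB hp) (Dv_not_dv_pr A hB hp)
  unfold Dv dv
  constructor
  · rintro ⟨h1, h2⟩
    constructor
    · unfold dt
      exact dvd_sub (h1.mul_right _) (h2.mul_right _)
    · unfold dt
      exact dvd_sub (h1.mul_right _) (h2.mul_right _)
  · rintro ⟨h1, h2⟩
    have h3 : (p : ℤ) ∣ v.2 * (2 * (π p).1 + b * (π p).2) := by
      have h4 : v.2 * (2 * (π p).1 + b * (π p).2) =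
          -(dt v (π p) + dt v (cj b (π p))) := by
        unfold dt cj
        simp only
        ring
      rw [h4]
      exact (dvd_add h1 h2).neg_right
    have h4 : (p : ℤ) ∣ v.2 := (hpp.dvd_or_dvd h3).resolve_right (al2_lin A hB hp)
    refine ⟨?_, h4⟩
    have h5 : (p : ℤ) ∣ v.1 * (π p).2 := by
      have h6 : v.1 * (π p).2 = dt v (π p) + v.2 * (π p).1 := by
        unfold dt
        ring
      rw [h6]
      exact dvd_add h1 (h4.mul_right _)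
    exact (hpp.dvd_or_dvd h5).resolve_right h0

theorem Dv_nm_pr (hB : TP A M B k₀ r π) {p : ℕ} (hp : p ∈ B) (v : El) :
    (p : ℤ) ∣ nm b c v ↔ Dv p (π p) v ∨ Dv p (cj b (π p)) v := by
  have hpr := hB.prime p hp
  have hpp : Prime (p : ℤ) := Nat.prime_iff_prime_int.1 hpr
  constructor
  · intro h
    have h1 : (p : ℤ) ∣ dt v (π p) * dt v (cj b (π p)) := by
      have h2 : dt v (π p) * dt v (cj b (π p)) =
          v.2 ^ 2 * nm b c (π p) - (π p).2 ^ 2 * nm b c v := by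
        unfold dt cj nm
        simp only
        ring
      rw [h2]
      exact dvd_sub ((al2_nm_dvd A hB hp).mul_left _) (h.mul_left _)
    exact hpp.dvd_or_dvd h1
  · rintro (h | h)
    · exact al2_Dv_of_nm hpr (al2_nm_dvd A hB hp) (Dv_not_dv_pr A hB hp) h
    · exact al2_Dv_of_nm hpr (al2_nm_cj_dvd A hB hp) (al2_not_dv_cj A hB hp) h

/-- the cofactor -/
theorem Dv_cof_pr (hB : TP A M B k₀ r π) {p : ℕ} (hp : p ∈ B) {v : El} (h : Dv p (π p) v) :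
    ∃ w : El, ml b c (cj b (π p)) v = sm p w ∧ ml b c (π p) w = sm k₀ v ∧
      (p : ℤ) * nm b c w = k₀ * nm b c v :=
  al2_cof (hB.prime p hp) (hB.nm p hp) h

theorem Dv_cof'_pr (hB : TP A M B k₀ r π) {p : ℕ} (hp : p ∈ B) {v : El}
    (h : Dv p (cj b (π p)) v) : ∃ w : El, ml b c (π p) v = sm p w ∧
      ml b c (cj b (π p)) w = sm k₀ v ∧ (p : ℤ) * nm b c w = k₀ * nm b c v := by
  have h1 : nm b c (cj b (π p)) = k₀ * p := by
    rw [nm_cj, hB.nm p hp]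
  have h2 := al2_cof (hB.prime p hp) h1 h
  rw [al2_cj_cj] at h2
  exact h2

end

theorem ndk : type_of% @ndk_pr := @ndk_pr
theorem Dv_of_nm : type_of% @Dv_of_nm_pr := @Dv_of_nm_pr
theorem Dv_self : type_of% @Dv_self_pr := @Dv_self_pr
theorem Dv_not_dv : type_of% @Dv_not_dv_pr := @Dv_not_dv_pr
theorem Dv_not_cj : type_of% @Dv_not_cj_pr := @Dv_not_cj_pr
theorem Dv_cj : type_of% @Dv_cj_pr := @Dv_cj_pr
theorem Dv_ml : type_of% @Dv_ml_pr := @Dv_ml_pr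
theorem Dv_ml' : type_of% @Dv_ml'_pr := @Dv_ml'_pr
theorem Dv_dv : type_of% @Dv_dv_pr := @Dv_dv_pr
theorem Dv_nm : type_of% @Dv_nm_pr := @Dv_nm_pr
theorem Dv_cof : type_of% @Dv_cof_pr := @Dv_cof_pr
theorem Dv_cof' : type_of% @Dv_cof'_pr := @Dv_cof'_pr

end Pool.Agent.AQM
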