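import Pool.Agent.Lib_helper39.AQM.Defs
import Pool.Agent.Lib_helper39.AQM.AB
import Pool.Agent.Lib_helper39.MQX.ALG
import Pool.Agent.Lib_helper39.MQX.SBA
import Pool.Agent.Lib_helper39.MQX.SBB
import Pool.Agent.Lib_helper39.MQX.SBC
import Pool.Agent.Lib_helper39.MQX.LSV
import Pool.Agent.Lib_helper39.MQX.PAR
import Pool.Agent.Lib_helper39.MQX.FEJ
import Pool.Agent.Lib_helper39.MQX.EXP

/-! block AL3 of AQM, proved by helper20 -/

/-! AQM, block AL3 (helper20): the condition `QC`. -/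

set_option autoImplicit false

namespace Pool.Agent.AQM

open Pool.Agent.MQ Pool.Agent.T2 Filter Topology MeasureTheory

/-- a shift of `z` by `M y` stays in `T` -/
theorem al3_T {M : ℕ} {T : El → Prop} (hT : Per M T) {z z' y : El} (hz : T z)
    (h1 : z.1 - z'.1 = (M : ℤ) * y.1) (h2 : z.2 - z'.2 = (M : ℤ) * y.2) : T z' :=
  hT z z' ⟨⟨y.1, h1⟩, ⟨y.2, h2⟩⟩ hz

theorem al3_dv {n : ℤ} {v : El} (h : dv n v) : ∃ y : El, v.1 = n * y.1 ∧ v.2 = n * y.2 := by
  obtain ⟨⟨y1, h1⟩, ⟨y2, h2⟩⟩ := h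
  exact ⟨(y1, y2), h1, h2⟩

/-- change of the multiplier -/
theorem al3_chg {b c : ℤ} {M k₀ : ℕ} {T : El → Prop} (hT : Per M T) {r s w z : El}
    (h : dv ((M * k₀ : ℕ) : ℤ) (r - s)) (hz : T z) (hr : ml b c r w = sm k₀ z) :
    ∃ z' : El, ml b c s w = sm k₀ z' ∧ T z' := by
  obtain ⟨y, h1, h2⟩ := al3_dv h
  have g1 : s.1 = r.1 - ((M * k₀ : ℕ) : ℤ) * y.1 := by
    have : (r - s).1 = r.1 - s.1 := rfl
    rw [this] at h1
    linarith
  have g2 : s.2 = r.2 - ((M * k₀ : ℕ) : ℤ) * y.2 := by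
    have : (r - s).2 = r.2 - s.2 := rfl
    rw [this] at h2
    linarith
  have e1 : r.1 * w.1 - c * r.2 * w.2 = (k₀ : ℤ) * z.1 := congrArg Prod.fst hr
  have e2 : r.1 * w.2 + r.2 * w.1 + b * r.2 * w.2 = (k₀ : ℤ) * z.2 := congrArg Prod.snd hr
  refine ⟨(z.1 - M * (ml b c y w).1, z.2 - M * (ml b c y w).2), ?_, ?_⟩
  · refine Prod.ext ?_ ?_
    · simp only [ml, sm, g1, g2]
      push_cast
      linear_combination e1
    · simp only [ml, sm, g1, g2]
      push_cast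
      linear_combination e2
  · exact al3_T hT hz (y := ml b c y w) (by ring) (by ring)

theorem al3_neg {n : ℤ} {v w : El} (h : dv n (v - w)) : dv n (w - v) := by
  obtain ⟨h1, h2⟩ := h
  have e1 : (v - w).1 = v.1 - w.1 := rfl
  have e2 : (v - w).2 = v.2 - w.2 := rfl
  have e3 : (w - v).1 = w.1 - v.1 := rfl
  have e4 : (w - v).2 = w.2 - v.2 := rfl
  rw [e1] at h1
  rw [e2] at h2
  refine ⟨?_, ?_⟩
  · rw [e3, ← neg_sub, dvd_neg]
    exact h1
  · rw [e4, ← neg_sub, dvd_neg]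
    exact h2

section
variable {b c : ℤ} (A : Ang b c)
variable {M k₀ : ℕ} {B : Finset ℕ} {r : El} {π : ℕ → El}

/-- invariance of the class under the units of the window -/
theorem al3_unit {T : El → Prop} (hT : Cls A M T) {o z : El} (ho : nm b c o = 1)
    (hrp : ∀ z, 0 < nm b c z → A.rp (ml b c o z) = A.rp z) (hz : 0 < nm b c z) :
    T (ml b c o z) ↔ T z := by
  have h1 : 0 < nm b c (ml b c o z) := by rw [nm_ml, ho, one_mul]; exact hz
  rw [← hT.rp _ h1, ← hT.rp _ hz, hrp z hz]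

theorem QC_per_pr {M : ℕ} {T : El → Prop} (hT : Per M T) (k₀ : ℕ) (hk : 1 ≤ k₀) (r : El) :
    Per (M * k₀) (QC b c k₀ r T) := by
  rintro v w h ⟨z, h1, h2⟩
  have h3 : ml b c v r = sm k₀ z := by rw [ml_comm]; exact h1
  obtain ⟨z', h4, h5⟩ := al3_chg hT h h2 h3
  exact ⟨z', by rw [ml_comm]; exact h4, h5⟩

theorem QC_nonempty_pr {T : El → Prop} (hT : Cls A M T) (hB : TP A M B k₀ r π)
    (hn : B.Nonempty) : ∃ w : El, QC b c k₀ r T w := by
  obtain ⟨p, hp⟩ := hn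
  have hpp := hB.prime p hp
  have hcop : IsCoprime (p : ℤ) (M : ℤ) := by
    rw [Nat.isCoprime_iff_coprime]
    exact (Nat.Prime.coprime_iff_not_dvd hpp).mpr (hB.ndM p hp)
  obtain ⟨x, y, hxy⟩ := hcop
  -- `π p * (conj (π p) x) = k₀ (p x)` and `p x = 1 - M y`
  have h1 : ml b c (π p) (ml b c (x, 0) (cj b (π p))) = sm k₀ ((p : ℤ) * x, 0) := by
    have e := hB.nm p hp
    unfold nm at e
    simp only [ml, cj, sm, Prod.mk.injEq]
    constructor
    · linear_combination x * e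
    · ring
  have h2 : T ((p : ℤ) * x, 0) :=
    al3_T hT.per hT.one (y := (y, 0)) (by simp only; linear_combination (-1 : ℤ) * hxy)
      (by simp)
  obtain ⟨z', h4, h5⟩ := al3_chg hT.per (hB.res p hp) h2 h1
  exact ⟨_, z', h4, h5⟩

theorem QC_rp_pr {T : El → Prop} (hT : Cls A M T) {w : El} (hk : 1 ≤ k₀) (hr : 0 < nm b c r)
    (hw : 0 < nm b c w) : QC b c k₀ r T (A.rp w) ↔ QC b c k₀ r T w := by
  obtain ⟨o, h1, h2, h3⟩ := A.rp_unit w hw
  have hk0 : (0 : ℤ) < k₀ := by exact_mod_cast hk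
  have hpos : ∀ w z : El, 0 < nm b c w → ml b c r w = sm k₀ z → 0 < nm b c z := by
    intro w z hw h
    have h4 : nm b c (ml b c r w) = nm b c (sm k₀ z) := by rw [h]
    rw [nm_ml, sba_nm_sm] at h4
    have h5 : 0 < (k₀ : ℤ) ^ 2 * nm b c z := by
      rw [← h4]
      positivity
    exact pos_of_mul_pos_right h5 (by positivity)
  rw [h3]
  constructor
  · rintro ⟨z, h4, h5⟩
    have hw' : 0 < nm b c (ml b c o w) := by rw [nm_ml, h1, one_mul]; exact hw
    have hz := hpos _ _ hw' h4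
    refine ⟨ml b c (cj b o) z, ?_, ?_⟩
    · have h6 : ml b c (cj b o) (ml b c r (ml b c o w)) = ml b c (cj b o) (sm k₀ z) := by rw [h4]
      rw [sba_ml_sm, ← ml_assoc b c r, ml_comm b c r o, ml_assoc, sba_cj_ml h1] at h6
      exact h6
    · have hz' : 0 < nm b c (ml b c (cj b o) z) := by rw [nm_ml, nm_cj, h1, one_mul]; exact hz
      rw [← al3_unit A hT h1 h2 hz', sba_ml_cj h1]
      exact h5
  · rintro ⟨z, h4, h5⟩
    have hz := hpos _ _ hw h4
    refine ⟨ml b c o z, ?_, ?_⟩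
    · rw [← ml_assoc, ml_comm b c r o, ml_assoc, h4, sba_ml_sm]
    · rw [al3_unit A hT h1 h2 hz]
      exact h5

/-- the cofactor of `p` in an element of the class -/
theorem QC_cof_pr {T : El → Prop} (hT : Cls A M T) (hB : TP A M B k₀ r π) {p : ℕ} (hp : p ∈ B)
    {z w : El} (hz : T z) (h : ml b c (π p) w = sm k₀ z) : QC b c k₀ r T w :=
  al3_chg hT.per (hB.res p hp) hz h

/-- and conversely -/
theorem QC_mul_pr {T : El → Prop} (hT : Cls A M T) (hB : TP A M B k₀ r π) {p : ℕ} (hp : p ∈ B)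
    {w : El} (h : QC b c k₀ r T w) : ∃ z : El, ml b c (π p) w = sm k₀ z ∧ T z := by
  obtain ⟨z, h1, h2⟩ := h
  exact al3_chg hT.per (al3_neg (hB.res p hp)) h2 h1

end

theorem QC_per : type_of% @QC_per_pr := @QC_per_pr
theorem QC_nonempty : type_of% @QC_nonempty_pr := @QC_nonempty_pr
theorem QC_rp : type_of% @QC_rp_pr := @QC_rp_pr
theorem QC_cof : type_of% @QC_cof_pr := @QC_cof_pr
theorem QC_mul : type_of% @QC_mul_pr := @QC_mul_pr

end Pool.Agent.AQM
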