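import Pool.Agent.Lib_helper39.AQM.Defs
import Pool.Agent.Lib_helper39.AQM.AB
import Pool.Agent.Lib_helper39.MQX.ALG
import Pool.Agent.Lib_helper39.MQX.SBA
import Pool.Agent.Lib_helper39.MQX.SBB
import Pool.Agent.Lib_helper39.MQX.SBC
import Pool.Agent.Lib_helper39.MQX.LSV
import Pool.Agent.Lib_helper39.MQX.PAR
import Pool.Agent.Lib_helper39.MQX.FEJ
import Pool.Agent.Lib_helper39.MQX.EXP

/-! block MO of AQM, proved by helper73 -/

/-! AQM, block MO -/

set_option autoImplicit false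

namespace Pool.Agent.AQM

open Pool.Agent.MQ Pool.Agent.T2 Filter Topology MeasureTheory

theorem mo_dv (e : ℕ) (w : El) : dv e w ↔ e ∣ Int.gcd w.1 w.2 := by
  constructor
  · rintro ⟨h1, h2⟩
    exact Int.dvd_gcd h1 h2
  · intro h
    exact ⟨(Int.natCast_dvd_natCast.mpr h).trans (Int.gcd_dvd_left ..),
      (Int.natCast_dvd_natCast.mpr h).trans (Int.gcd_dvd_right ..)⟩

theorem mo_sum (n : ℕ) : (∑ i ∈ n.divisors, (ArithmeticFunction.moebius i : ℂ)) =
    if n = 1 then 1 else 0 := by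
  have h5 := ArithmeticFunction.coe_moebius_mul_coe_zeta (R := ℂ)
  have h6 := congrArg (fun f : ArithmeticFunction ℂ => f n) h5
  simp only [ArithmeticFunction.one_apply] at h6
  rw [ArithmeticFunction.coe_mul_zeta_apply] at h6
  simp only [ArithmeticFunction.intCoe_apply] at h6
  exact h6

theorem mo_cop {q : ℕ} (s : Finset ℕ) (hs : ∀ e ∈ s, Nat.Coprime e q) :
    Nat.Coprime (s.lcm id) q := by
  classical
  induction s using Finset.induction_on with
  | empty => simp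
  | insert a s _ ih =>
    rw [Finset.lcm_insert]
    have h1 := hs a (Finset.mem_insert_self a s)
    have h2 := ih (fun e he => hs e (Finset.mem_insert_of_mem he))
    have h3 : Nat.Coprime (a * s.lcm id) q := Nat.Coprime.mul_left h1 h2
    exact Nat.Coprime.coprime_dvd_left (lcm_dvd (dvd_mul_right _ _) (dvd_mul_left _ _)) h3

/-- the part of `g` which is coprime to `q` -/
theorem mo_part (g q : ℕ) (hg : g ≠ 0) : ∃ g' : ℕ, g' ∣ g ∧ Nat.Coprime g' q ∧
    ∀ e, e ∣ g → Nat.Coprime e q → e ∣ g' := by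
  classical
  refine ⟨(g.divisors.filter (fun e => Nat.Coprime e q)).lcm id, ?_, ?_, ?_⟩
  · refine Finset.lcm_dvd fun e he => ?_
    exact Nat.dvd_of_mem_divisors (Finset.mem_filter.1 he).1
  · exact mo_cop _ fun e he => (Finset.mem_filter.1 he).2
  · intro e he hc
    exact Finset.dvd_lcm (f := id) (Finset.mem_filter.2 ⟨Nat.mem_divisors.2 ⟨he, hg⟩, hc⟩)

open Classical in
theorem mo_sumq (g q : ℕ) (hg : g ≠ 0) :
    (∑ i ∈ g.divisors.filter (fun e => Nat.Coprime e q), (ArithmeticFunction.moebius i : ℂ)) =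
      if (∀ l : ℕ, l.Prime → l ∣ g → l ∣ q) then 1 else 0 := by
  classical
  obtain ⟨g', h1, h2, h3⟩ := mo_part g q hg
  have hg' : g' ≠ 0 := fun h => hg (Nat.eq_zero_of_zero_dvd (h ▸ h1))
  have h4 : g.divisors.filter (fun e => Nat.Coprime e q) = g'.divisors := by
    ext e
    rw [Finset.mem_filter, Nat.mem_divisors, Nat.mem_divisors]
    constructor
    · rintro ⟨⟨ha, _⟩, hc⟩
      exact ⟨h3 e ha hc, hg'⟩
    · rintro ⟨ha, _⟩
      exact ⟨⟨ha.trans h1, hg⟩, Nat.Coprime.coprime_dvd_left ha h2⟩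
  rw [h4, mo_sum]
  have h5 : g' = 1 ↔ ∀ l : ℕ, l.Prime → l ∣ g → l ∣ q := by
    constructor
    · intro h l hl hlg
      by_contra hlq
      have h6 := h3 l hlg ((Nat.Prime.coprime_iff_not_dvd hl).2 hlq)
      rw [h] at h6
      exact hl.one_lt.ne' (Nat.dvd_one.1 h6)
    · intro h
      by_contra hne
      obtain ⟨l, hl, hlg⟩ := Nat.exists_prime_and_dvd hne
      have h6 := h l hl (hlg.trans h1)
      have h7 := Nat.dvd_gcd hlg h6
      rw [h2] at h7
      exact hl.one_lt.ne' (Nat.dvd_one.1 h7)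
  by_cases h : g' = 1
  · rw [if_pos h, if_pos (h5.1 h)]
  · rw [if_neg h, if_neg (fun h' => h (h5.2 h'))]

theorem mo_inj {e : ℕ} (he : 1 ≤ e) {v w : El} (h : sm e v = sm e w) : v = w := by
  have h0 : (e : ℤ) ≠ 0 := by
    have : e ≠ 0 := by omega
    exact_mod_cast this
  unfold sm at h
  have h1 := congrArg Prod.fst h
  have h2 := congrArg Prod.snd h
  exact Prod.ext (mul_left_cancel₀ h0 h1) (mul_left_cancel₀ h0 h2)

theorem mo_nm (b c : ℤ) (e : ℕ) (v : El) : (nm b c (sm e v) : ℝ) =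
    (e : ℝ) ^ 2 * (nm b c v : ℝ) := by
  rw [sba_nm_sm]
  push_cast
  ring

theorem mo_sm {e : ℕ} {w : El} (h : dv e w) : ∃ v : El, w = sm e v := by
  obtain ⟨⟨a, ha⟩, ⟨d, hd⟩⟩ := h
  exact ⟨(a, d), Prod.ext ha hd⟩

open Classical in
theorem mo_bij {b c : ℤ} (A : Ang b c) (V : El → Prop) (F : El → ℂ) (x : ℝ) (e : ℕ)
    (he : 1 ≤ e) :
    ∑ w ∈ (A.MF (x / (e : ℝ) ^ 2)).filter (fun w => V (sm e w)), F (sm e w) =
      ∑ w ∈ ((A.MF x).filter V).filter (fun w => dv e w), F w := by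
  have hep : (0 : ℝ) < (e : ℝ) ^ 2 := by
    have : (0 : ℝ) < (e : ℝ) := by exact_mod_cast he
    positivity
  refine Finset.sum_bij (fun z _ => sm e z) ?_ ?_ ?_ ?_
  · intro z hz
    rw [Finset.mem_filter, AB.mem_MF, le_div_iff₀ hep] at hz
    rw [Finset.mem_filter, Finset.mem_filter, AB.mem_MF]
    refine ⟨⟨⟨(A.wd_sm z e he).2 hz.1.1, ?_⟩, hz.2⟩, dvd_mul_right _ _, dvd_mul_right _ _⟩
    rw [mo_nm, mul_comm]
    exact hz.1.2
  · intro z _ w _ h
    exact mo_inj he h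
  · intro z hz
    rw [Finset.mem_filter, Finset.mem_filter, AB.mem_MF] at hz
    obtain ⟨⟨⟨hz1, hz2⟩, hz3⟩, hz4⟩ := hz
    obtain ⟨w, rfl⟩ := mo_sm hz4
    refine ⟨w, ?_, rfl⟩
    rw [Finset.mem_filter, AB.mem_MF, le_div_iff₀ hep]
    refine ⟨⟨(A.wd_sm w e he).1 hz1, ?_⟩, hz3⟩
    rw [mo_nm, mul_comm] at hz2
    exact hz2
  · intro z _
    rfl

theorem mo_le {b c : ℤ} (A : Ang b c) {x : ℝ} {D : ℕ} (hD : x < ((D : ℝ) + 1) ^ 2) {w : El}
    (hw : w ∈ A.MF x) {e : ℕ} (he : 1 ≤ e) (hd : dv e w) : e ≤ D := by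
  rw [AB.mem_MF] at hw
  obtain ⟨v, rfl⟩ := mo_sm hd
  by_contra hcon
  push Not at hcon
  have hv : 0 < nm b c v := A.wd_nm _ ((A.wd_sm v e he).1 hw.1)
  have h5 : (1 : ℝ) ≤ (nm b c v : ℝ) := by exact_mod_cast hv
  have h2 := mo_nm b c e v
  have h3 : ((D : ℝ) + 1) ≤ (e : ℝ) := by exact_mod_cast hcon
  have h4 : ((D : ℝ) + 1) ^ 2 ≤ (e : ℝ) ^ 2 := by
    have : (0 : ℝ) ≤ (D : ℝ) + 1 := by positivity
    exact pow_le_pow_left₀ this h3 2
  have h6 : (e : ℝ) ^ 2 ≤ (e : ℝ) ^ 2 * (nm b c v : ℝ) :=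
    le_mul_of_one_le_right (by positivity) h5
  linarith [hw.2]

open Classical in
theorem PS_moebius_pr {b c : ℤ} (A : Ang b c) {q : ℕ} (hq : 1 ≤ q) (V : El → Prop) (F : El → ℂ)
    (x : ℝ) (D : ℕ) (hD : x < ((D : ℝ) + 1) ^ 2) :
    ∑ w ∈ PS A q V x, F w = ∑ e ∈ (Finset.Icc 1 D).filter (fun e => Nat.Coprime e q),
      (ArithmeticFunction.moebius e : ℂ) *
        ∑ w ∈ (A.MF (x / (e : ℝ) ^ 2)).filter (fun w => V (sm e w)), F (sm e w) := by
  have h1 : ∀ e ∈ (Finset.Icc 1 D).filter (fun e => Nat.Coprime e q),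
      (ArithmeticFunction.moebius e : ℂ) *
        ∑ w ∈ (A.MF (x / (e : ℝ) ^ 2)).filter (fun w => V (sm e w)), F (sm e w) =
      ∑ w ∈ (A.MF x).filter V, if dv e w then (ArithmeticFunction.moebius e : ℂ) * F w else 0 := by
    intro e he
    rw [Finset.mem_filter, Finset.mem_Icc] at he
    rw [mo_bij A V F x e he.1.1, Finset.mul_sum, Finset.sum_filter]
  rw [Finset.sum_congr rfl h1, Finset.sum_comm]
  have h2 : ∀ w ∈ (A.MF x).filter V, (∑ e ∈ (Finset.Icc 1 D).filter (fun e => Nat.Coprime e q),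
      if dv e w then (ArithmeticFunction.moebius e : ℂ) * F w else 0) =
      if (∀ l : ℕ, l.Prime → dv l w → l ∣ q) then F w else 0 := by
    intro w hw
    rw [Finset.mem_filter] at hw
    have hw1 := hw.1
    have hg0 : Int.gcd w.1 w.2 ≠ 0 := by
      intro h0
      rw [Int.gcd_eq_zero_iff] at h0
      have h := A.wd_nm _ ((AB.mem_MF A).1 hw1).1
      have hnm : nm b c w = 0 := by
        unfold nm
        rw [h0.1, h0.2]
        ring
      omega
    rw [← Finset.sum_filter]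
    have h3 : ((Finset.Icc 1 D).filter (fun e => Nat.Coprime e q)).filter
        (fun e : ℕ => dv e w) = (Int.gcd w.1 w.2).divisors.filter (fun e => Nat.Coprime e q) := by
      ext e
      rw [Finset.mem_filter, Finset.mem_filter, Finset.mem_filter, Finset.mem_Icc,
        Nat.mem_divisors, mo_dv]
      constructor
      · rintro ⟨⟨_, hc⟩, h⟩
        exact ⟨⟨h, hg0⟩, hc⟩
      · rintro ⟨⟨h, _⟩, hc⟩
        have h4 : 1 ≤ e := Nat.pos_of_dvd_of_pos h (by omega)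
        exact ⟨⟨⟨h4, mo_le A hD hw1 h4 ((mo_dv e w).2 h)⟩, hc⟩, h⟩
    rw [h3, ← Finset.sum_mul, mo_sumq _ q hg0]
    have h5 : (∀ l : ℕ, l.Prime → l ∣ Int.gcd w.1 w.2 → l ∣ q) ↔
        (∀ l : ℕ, l.Prime → dv l w → l ∣ q) := by
      constructor
      · intro h l hl hd
        exact h l hl ((mo_dv l w).1 hd)
      · intro h l hl hd
        exact h l hl ((mo_dv l w).2 hd)
    by_cases h : ∀ l : ℕ, l.Prime → dv l w → l ∣ q
    · rw [if_pos h, if_pos (h5.2 h), one_mul]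
    · rw [if_neg h, if_neg (fun h' => h (h5.1 h')), zero_mul]
  rw [Finset.sum_congr rfl h2, ← Finset.sum_filter]
  unfold PS
  rw [Finset.filter_filter]

theorem PS_moebius : type_of% @PS_moebius_pr := @PS_moebius_pr

end Pool.Agent.AQM
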