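import Pool.Agent.Lib_helper39.AQM.Defs
import Pool.Agent.Lib_helper39.AQM.AB
import Pool.Agent.Lib_helper39.MQX.ALG
import Pool.Agent.Lib_helper39.MQX.SBA
import Pool.Agent.Lib_helper39.MQX.SBB
import Pool.Agent.Lib_helper39.MQX.SBC
import Pool.Agent.Lib_helper39.MQX.LSV
import Pool.Agent.Lib_helper39.MQX.PAR
import Pool.Agent.Lib_helper39.MQX.FEJ
import Pool.Agent.Lib_helper39.MQX.EXP
import Pool.Agent.Lib_helper39.AQMF.MO

/-! block CP of AQM, proved by helper77 -/

/-! AQM, block CP: counting in `PS`. -/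

set_option autoImplicit false

namespace Pool.Agent.AQM

open Pool.Agent.MQ Pool.Agent.T2 Filter Topology MeasureTheory

/-! ### the series -/

/-- the terms -/
noncomputable def cp_T (q d e : ℕ) : ℝ :=
  if Nat.Coprime e q then (ArithmeticFunction.moebius e : ℝ) * (Nat.gcd d e : ℝ) / (e : ℝ) ^ 2
  else 0

theorem cp_mu (d : ℕ) : |(ArithmeticFunction.moebius d : ℝ)| ≤ 1 := by
  have h := ArithmeticFunction.abs_moebius_le_one (n := d)
  exact_mod_cast h

theorem cp_T_le (q d e : ℕ) : |cp_T q d e| ≤ (Nat.gcd d e : ℝ) * ((e : ℝ) ^ 2)⁻¹ := by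
  unfold cp_T
  split_ifs with h
  · rw [abs_div, abs_mul, abs_of_nonneg (by positivity : (0 : ℝ) ≤ (e : ℝ) ^ 2),
      abs_of_nonneg (by positivity : (0 : ℝ) ≤ (Nat.gcd d e : ℝ)), div_eq_mul_inv]
    apply mul_le_mul_of_nonneg_right _ (by positivity)
    have := cp_mu e
    have h0 : (0 : ℝ) ≤ (Nat.gcd d e : ℝ) := by positivity
    nlinarith
  · rw [abs_zero]
    positivity

theorem cp_summable (q : ℕ) {d : ℕ} (hd : 1 ≤ d) : Summable (cp_T q d) := by
  have h : Summable (fun e : ℕ => (d : ℝ) * (1 / (e : ℝ) ^ 2)) :=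
    hasSum_zeta_two.summable.mul_left _
  apply Summable.of_norm_bounded h
  intro e
  rw [Real.norm_eq_abs]
  refine (cp_T_le q d e).trans ?_
  rw [one_div]
  apply mul_le_mul_of_nonneg_right _ (by positivity)
  exact_mod_cast Nat.gcd_le_left e (by omega)

theorem cp_split1 {q d l : ℕ} (hl : l.Prime) (hq : ¬ l ∣ q) (hd : ¬ l ∣ d) (e : ℕ) :
    cp_T q (l * d) e = cp_T (q * l) d e +
      (-(1 / (l : ℝ))) * (if l ∣ e then cp_T (q * l) d (e / l) else 0) := by
  have hl0 : (l : ℝ) ≠ 0 := by exact_mod_cast hl.pos.ne'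
  have hlq : Nat.Coprime l q := (Nat.Prime.coprime_iff_not_dvd hl).2 hq
  by_cases hle : l ∣ e
  · obtain ⟨f, rfl⟩ := hle
    rw [if_pos (dvd_mul_right l f), Nat.mul_div_cancel_left f hl.pos]
    have h1 : cp_T (q * l) d (l * f) = 0 := by
      unfold cp_T
      rw [if_neg]
      intro h
      have h2 : Nat.Coprime l l :=
        (Nat.Coprime.coprime_dvd_left (dvd_mul_right l f) h).coprime_dvd_right (dvd_mul_left l q)
      rw [Nat.coprime_self] at h2
      exact hl.one_lt.ne' h2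
    rw [h1, zero_add]
    by_cases hf0 : f = 0
    · subst hf0
      unfold cp_T
      simp
    by_cases hlf : l ∣ f
    · have h2 : cp_T (q * l) d f = 0 := by
        unfold cp_T
        rw [if_neg]
        intro h
        have h2 : Nat.Coprime l l :=
          (Nat.Coprime.coprime_dvd_left hlf h).coprime_dvd_right (dvd_mul_left l q)
        rw [Nat.coprime_self] at h2
        exact hl.one_lt.ne' h2
      have h3 : ArithmeticFunction.moebius (l * f) = 0 := by
        apply ArithmeticFunction.moebius_eq_zero_of_not_squarefree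
        intro hsq
        obtain ⟨g, rfl⟩ := hlf
        have := hsq l ⟨g, by ring⟩
        exact hl.one_lt.ne' (Nat.isUnit_iff.1 this)
      rw [h2]
      unfold cp_T
      rw [h3]
      simp
    · have hlf' : Nat.Coprime l f := (Nat.Prime.coprime_iff_not_dvd hl).2 hlf
      unfold cp_T
      by_cases hc : Nat.Coprime f q
      · have hc1 : Nat.Coprime (l * f) q := Nat.Coprime.mul_left hlq hc
        have hc2 : Nat.Coprime f (q * l) := Nat.Coprime.mul_right hc hlf'.symm
        rw [if_pos hc1, if_pos hc2,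
          ArithmeticFunction.isMultiplicative_moebius.map_mul_of_coprime hlf',
          ArithmeticFunction.moebius_apply_prime hl, Nat.gcd_mul_left]
        have hf : (f : ℝ) ≠ 0 := by exact_mod_cast hf0
        push_cast
        field_simp
      · have hc1 : ¬ Nat.Coprime (l * f) q := fun h =>
          hc (Nat.Coprime.coprime_dvd_left (dvd_mul_left f l) h)
        have hc2 : ¬ Nat.Coprime f (q * l) := fun h =>
          hc (h.coprime_dvd_right (dvd_mul_right q l))
        rw [if_neg hc1, if_neg hc2, mul_zero]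
  · rw [if_neg hle, mul_zero, add_zero]
    have hle' : Nat.Coprime l e := (Nat.Prime.coprime_iff_not_dvd hl).2 hle
    unfold cp_T
    rw [Nat.Coprime.gcd_mul_left_cancel d hle']
    by_cases hc : Nat.Coprime e q
    · rw [if_pos hc, if_pos (Nat.Coprime.mul_right hc hle'.symm)]
    · rw [if_neg hc, if_neg]
      exact fun h => hc (h.coprime_dvd_right (dvd_mul_right q l))

theorem cp_split2 {q d l : ℕ} (hl : l.Prime) (hq : ¬ l ∣ q) (hd : ¬ l ∣ d) (e : ℕ) :
    cp_T q d e = cp_T (q * l) d e +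
      (-(1 / (l : ℝ) ^ 2)) * (if l ∣ e then cp_T (q * l) d (e / l) else 0) := by
  have hl0 : (l : ℝ) ≠ 0 := by exact_mod_cast hl.pos.ne'
  have hlq : Nat.Coprime l q := (Nat.Prime.coprime_iff_not_dvd hl).2 hq
  have hld : Nat.Coprime l d := (Nat.Prime.coprime_iff_not_dvd hl).2 hd
  by_cases hle : l ∣ e
  · obtain ⟨f, rfl⟩ := hle
    rw [if_pos (dvd_mul_right l f), Nat.mul_div_cancel_left f hl.pos]
    have h1 : cp_T (q * l) d (l * f) = 0 := by
      unfold cp_T
      rw [if_neg]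
      intro h
      have h2 : Nat.Coprime l l :=
        (Nat.Coprime.coprime_dvd_left (dvd_mul_right l f) h).coprime_dvd_right (dvd_mul_left l q)
      rw [Nat.coprime_self] at h2
      exact hl.one_lt.ne' h2
    rw [h1, zero_add]
    by_cases hf0 : f = 0
    · subst hf0
      unfold cp_T
      simp
    by_cases hlf : l ∣ f
    · have h2 : cp_T (q * l) d f = 0 := by
        unfold cp_T
        rw [if_neg]
        intro h
        have h2 : Nat.Coprime l l :=
          (Nat.Coprime.coprime_dvd_left hlf h).coprime_dvd_right (dvd_mul_left l q)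
        rw [Nat.coprime_self] at h2
        exact hl.one_lt.ne' h2
      have h3 : ArithmeticFunction.moebius (l * f) = 0 := by
        apply ArithmeticFunction.moebius_eq_zero_of_not_squarefree
        intro hsq
        obtain ⟨g, rfl⟩ := hlf
        have := hsq l ⟨g, by ring⟩
        exact hl.one_lt.ne' (Nat.isUnit_iff.1 this)
      rw [h2]
      unfold cp_T
      rw [h3]
      simp
    · have hlf' : Nat.Coprime l f := (Nat.Prime.coprime_iff_not_dvd hl).2 hlf
      unfold cp_T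
      have hg : Nat.gcd d (l * f) = Nat.gcd d f := Nat.Coprime.gcd_mul_left_cancel_right f hld
      by_cases hc : Nat.Coprime f q
      · have hc1 : Nat.Coprime (l * f) q := Nat.Coprime.mul_left hlq hc
        have hc2 : Nat.Coprime f (q * l) := Nat.Coprime.mul_right hc hlf'.symm
        rw [if_pos hc1, if_pos hc2, hg,
          ArithmeticFunction.isMultiplicative_moebius.map_mul_of_coprime hlf',
          ArithmeticFunction.moebius_apply_prime hl]
        have hf : (f : ℝ) ≠ 0 := by exact_mod_cast hf0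
        push_cast
        field_simp
      · have hc1 : ¬ Nat.Coprime (l * f) q := fun h =>
          hc (Nat.Coprime.coprime_dvd_left (dvd_mul_left f l) h)
        have hc2 : ¬ Nat.Coprime f (q * l) := fun h =>
          hc (h.coprime_dvd_right (dvd_mul_right q l))
        rw [if_neg hc1, if_neg hc2, mul_zero]
  · rw [if_neg hle, mul_zero, add_zero]
    have hle' : Nat.Coprime l e := (Nat.Prime.coprime_iff_not_dvd hl).2 hle
    unfold cp_T
    by_cases hc : Nat.Coprime e q
    · rw [if_pos hc, if_pos (Nat.Coprime.mul_right hc hle'.symm)]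
    · rw [if_neg hc, if_neg]
      exact fun h => hc (h.coprime_dvd_right (dvd_mul_right q l))

theorem cp_pull {l : ℕ} (hl : 1 ≤ l) (f : ℕ → ℝ) :
    (∑' e, (if l ∣ e then f (e / l) else 0)) = ∑' e, f e := by
  have hinj : Function.Injective (fun e : ℕ => l * e) := fun a b h =>
    Nat.eq_of_mul_eq_mul_left (by omega) h
  rw [← hinj.tsum_eq (f := fun e => if l ∣ e then f (e / l) else 0)]
  · apply tsum_congr
    intro e
    rw [if_pos (dvd_mul_right l e), Nat.mul_div_cancel_left e (by omega)]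
  · intro e he
    rw [Function.mem_support] at he
    by_cases h : l ∣ e
    · obtain ⟨f, rfl⟩ := h
      exact ⟨f, rfl⟩
    · rw [if_neg h] at he
      exact absurd rfl he

theorem cp_pull_sum {l : ℕ} (hl : 1 ≤ l) {f : ℕ → ℝ} (hf : Summable f) :
    Summable (fun e : ℕ => if l ∣ e then f (e / l) else 0) := by
  have hinj : Function.Injective (fun e : ℕ => l * e) := fun a b h =>
    Nat.eq_of_mul_eq_mul_left (by omega) h
  rw [← hinj.summable_iff (f := fun e => if l ∣ e then f (e / l) else 0)]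
  · apply hf.congr
    intro e
    simp only [Function.comp_apply]
    rw [if_pos (dvd_mul_right l e), Nat.mul_div_cancel_left e (by omega)]
  · intro e he
    by_cases h : l ∣ e
    · obtain ⟨f, rfl⟩ := h
      exact absurd ⟨f, rfl⟩ he
    · rw [if_neg h]

theorem cp_step {q d l : ℕ} (hd1 : 1 ≤ d) (hl : l.Prime) (hq : ¬ l ∣ q) (hd : ¬ l ∣ d) :
    ∑' e, cp_T q (l * d) e = (l : ℝ) / (l + 1) * ∑' e, cp_T q d e := by
  have hs := cp_summable (q * l) hd1
  have hs2 := cp_pull_sum hl.one_le hs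
  have hl1 : (1 : ℝ) < l := by exact_mod_cast hl.one_lt
  have e1 : ∑' e, cp_T q (l * d) e = (1 - 1 / (l : ℝ)) * ∑' e, cp_T (q * l) d e := by
    rw [tsum_congr (cp_split1 hl hq hd), hs.tsum_add (hs2.mul_left _), tsum_mul_left,
      cp_pull hl.one_le]
    ring
  have e2 : ∑' e, cp_T q d e = (1 - 1 / (l : ℝ) ^ 2) * ∑' e, cp_T (q * l) d e := by
    rw [tsum_congr (cp_split2 hl hq hd), hs.tsum_add (hs2.mul_left _), tsum_mul_left,
      cp_pull hl.one_le]
    ring
  rw [e1, e2, ← mul_assoc]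
  congr 1
  field_simp
  ring

theorem cp_prod (q d : ℕ) (hd : Squarefree d) (hdq : Nat.Coprime d q) :
    ∑' e, cp_T q d e = (∏ l ∈ d.primeFactors, (l : ℝ) / (l + 1)) * ∑' e, cp_T q 1 e := by
  induction d using induction_on_primes with
  | zero => exact absurd hd (not_squarefree_zero)
  | one => simp
  | prime_mul p a hp ih =>
    have hpa : ¬ p ∣ a := by
      rintro ⟨g, rfl⟩
      have := hd p ⟨g, by ring⟩
      exact hp.one_lt.ne' (Nat.isUnit_iff.1 this)
    have hcop : Nat.Coprime p a := (Nat.Prime.coprime_iff_not_dvd hp).2 hpa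
    have ha : Squarefree a := hd.squarefree_of_dvd (dvd_mul_left a p)
    have haq : Nat.Coprime a q := Nat.Coprime.coprime_dvd_left (dvd_mul_left a p) hdq
    have hpq : ¬ p ∣ q := (Nat.Prime.coprime_iff_not_dvd hp).1
      (Nat.Coprime.coprime_dvd_left (dvd_mul_right p a) hdq)
    rw [cp_step (Nat.one_le_iff_ne_zero.2 ha.ne_zero) hp hpq hpa, ih ha haq,
      Nat.Coprime.primeFactors_mul hcop, hp.primeFactors, Finset.prod_union, Finset.prod_singleton,
      mul_assoc]
    rw [Finset.disjoint_singleton_left]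
    exact fun h => hpa (Nat.dvd_of_mem_primeFactors h)

theorem cp_G_pos (q : ℕ) : 1 / 4 ≤ ∑' e, cp_T q 1 e := by
  have h1 : HasSum (fun e : ℕ => cp_T q 1 e + 1 / (e : ℝ) ^ 2)
      ((∑' e, cp_T q 1 e) + Real.pi ^ 2 / 6) :=
    (cp_summable q le_rfl).hasSum.add hasSum_zeta_two
  have h2 : cp_T q 1 1 + 1 / ((1 : ℕ) : ℝ) ^ 2 ≤ (∑' e, cp_T q 1 e) + Real.pi ^ 2 / 6 := by
    apply le_hasSum h1 1
    intro j _
    have := cp_T_le q 1 j
    rw [Nat.gcd_one_left, abs_le] at this
    rw [one_div]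
    push_cast at this
    linarith [this.1]
  have h3 : cp_T q 1 1 + 1 / ((1 : ℕ) : ℝ) ^ 2 = 2 := by
    unfold cp_T
    simp
    norm_num
  rw [h3] at h2
  have h4 := Real.pi_lt_d2
  have h5 := Real.pi_pos
  nlinarith

theorem cp_G_le (q : ℕ) : ∑' e, cp_T q 1 e ≤ 2 := by
  have h1 : ∑' e, cp_T q 1 e ≤ ∑' e : ℕ, 1 / (e : ℝ) ^ 2 := by
    apply (cp_summable q le_rfl).tsum_le_tsum _ hasSum_zeta_two.summable
    intro j
    have := cp_T_le q 1 j
    rw [Nat.gcd_one_left, abs_le] at this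
    rw [one_div]
    push_cast at this
    linarith [this.2]
  rw [hasSum_zeta_two.tsum_eq] at h1
  have h4 := Real.pi_lt_d2
  have h5 := Real.pi_pos
  nlinarith

/-! ### the tail -/

theorem cp_mult {g D N : ℕ} (hg : 1 ≤ g) (hD : 1 ≤ D) :
    ∑ e ∈ (Finset.Ioc D N).filter (fun e => g ∣ e), (g : ℝ) * ((e : ℝ) ^ 2)⁻¹ ≤ 2 / (D : ℝ) := by
  have h1 : ∑ e ∈ (Finset.Ioc D N).filter (fun e => g ∣ e), (g : ℝ) * ((e : ℝ) ^ 2)⁻¹ ≤
      ∑ f ∈ Finset.Ioo (D / g) (N / g + 1), (1 / (g : ℝ)) * ((f : ℝ) ^ 2)⁻¹ := by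
    apply le_of_eq
    apply Finset.sum_nbij' (fun e => e / g) (fun f => g * f)
    · intro e he
      rw [Finset.mem_filter, Finset.mem_Ioc] at he
      obtain ⟨⟨h1, h2⟩, f, rfl⟩ := he
      rw [Nat.mul_div_cancel_left f (by omega), Finset.mem_Ioo]
      constructor
      · exact (Nat.div_lt_iff_lt_mul (by omega)).2 (by rwa [mul_comm])
      · exact Nat.lt_succ_of_le ((Nat.le_div_iff_mul_le (by omega)).2 (by rwa [mul_comm]))
    · intro f hf
      rw [Finset.mem_Ioo] at hf
      rw [Finset.mem_filter, Finset.mem_Ioc]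
      refine ⟨⟨?_, ?_⟩, dvd_mul_right g f⟩
      · have := (Nat.div_lt_iff_lt_mul (show 0 < g by omega)).1 hf.1
        rwa [mul_comm]
      · have := (Nat.le_div_iff_mul_le (show 0 < g by omega)).1 (Nat.lt_succ_iff.1 hf.2)
        rwa [mul_comm]
    · intro e he
      rw [Finset.mem_filter] at he
      exact Nat.mul_div_cancel' he.2
    · intro f _
      exact Nat.mul_div_cancel_left f (by omega)
    · intro e he
      rw [Finset.mem_filter] at he
      obtain ⟨-, f, rfl⟩ := he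
      rw [Nat.mul_div_cancel_left f (by omega)]
      have hg0 : (g : ℝ) ≠ 0 := by
        have : (0 : ℝ) < g := by exact_mod_cast hg
        exact this.ne'
      push_cast
      rw [mul_pow, mul_inv]
      field_simp
  refine h1.trans ?_
  rw [← Finset.mul_sum]
  have h2 := sum_Ioo_inv_sq_le (α := ℝ) (D / g) (N / g + 1)
  have hg0 : (0 : ℝ) < g := by exact_mod_cast hg
  have hD0 : (0 : ℝ) < D := by exact_mod_cast hD
  have h3 : (D : ℝ) ≤ g * (((D / g : ℕ) : ℝ) + 1) := by
    have := Nat.lt_mul_div_succ D (show 0 < g by omega)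
    have h4 : D ≤ g * (D / g + 1) := this.le
    exact_mod_cast h4
  calc (1 / (g : ℝ)) * ∑ f ∈ Finset.Ioo (D / g) (N / g + 1), ((f : ℝ) ^ 2)⁻¹
      ≤ (1 / (g : ℝ)) * (2 / (((D / g : ℕ) : ℝ) + 1)) :=
        mul_le_mul_of_nonneg_left h2 (by positivity)
    _ = 2 / (g * (((D / g : ℕ) : ℝ) + 1)) := by
        field_simp
    _ ≤ 2 / (D : ℝ) := div_le_div_of_nonneg_left (by norm_num) hD0 h3

theorem cp_tail_fin {d D N : ℕ} (hd : 1 ≤ d) (hD : 1 ≤ D) :
    ∑ e ∈ Finset.Ioc D N, (Nat.gcd d e : ℝ) * ((e : ℝ) ^ 2)⁻¹ ≤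
      2 * (d.divisors.card : ℝ) / (D : ℝ) := by
  calc ∑ e ∈ Finset.Ioc D N, (Nat.gcd d e : ℝ) * ((e : ℝ) ^ 2)⁻¹
      ≤ ∑ e ∈ Finset.Ioc D N, ∑ g ∈ d.divisors,
          (if g ∣ e then (g : ℝ) * ((e : ℝ) ^ 2)⁻¹ else 0) := by
        apply Finset.sum_le_sum
        intro e _
        have hm : Nat.gcd d e ∈ d.divisors := by
          rw [Nat.mem_divisors]
          exact ⟨Nat.gcd_dvd_left d e, by omega⟩
        have := Finset.single_le_sum (f := fun g : ℕ =>
          (if g ∣ e then (g : ℝ) * ((e : ℝ) ^ 2)⁻¹ else 0)) (fun g _ => by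
            split_ifs
            · positivity
            · exact le_rfl) hm
        simp only [Nat.gcd_dvd_right, if_true] at this
        exact this
    _ = ∑ g ∈ d.divisors, ∑ e ∈ (Finset.Ioc D N).filter (fun e => g ∣ e),
          (g : ℝ) * ((e : ℝ) ^ 2)⁻¹ := by
        rw [Finset.sum_comm]
        apply Finset.sum_congr rfl
        intro g _
        rw [Finset.sum_filter]
    _ ≤ ∑ g ∈ d.divisors, 2 / (D : ℝ) := by
        apply Finset.sum_le_sum
        intro g hg
        exact cp_mult (Nat.pos_of_mem_divisors hg) hD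
    _ = 2 * (d.divisors.card : ℝ) / (D : ℝ) := by
        rw [Finset.sum_const, nsmul_eq_mul]
        ring

theorem cp_tail (q : ℕ) {d D : ℕ} (hd : 1 ≤ d) (hD : 1 ≤ D) :
    |(∑' e, cp_T q d e) - ∑ e ∈ Finset.Icc 1 D, cp_T q d e| ≤
      2 * (d.divisors.card : ℝ) / (D : ℝ) := by
  have h0 : ∀ N, ∑ e ∈ Finset.Icc 1 N, cp_T q d e = ∑ e ∈ Finset.range (N + 1), cp_T q d e := by
    intro N
    rw [Finset.sum_range_succ', Finset.range_eq_Ico,
      Finset.sum_Ico_add' (fun e => cp_T q d e) 0 N 1]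
    have : cp_T q d 0 = 0 := by unfold cp_T; simp
    rw [this, add_zero]
    rfl
  have h1 : Tendsto (fun N => ∑ e ∈ Finset.Icc 1 N, cp_T q d e) atTop (𝓝 (∑' e, cp_T q d e)) := by
    have h2 := (cp_summable q hd).hasSum.tendsto_sum_nat
    have h3 := (tendsto_add_atTop_iff_nat 1).mpr h2
    exact h3.congr (fun N => (h0 N).symm)
  have h2 : Tendsto (fun N => |(∑ e ∈ Finset.Icc 1 N, cp_T q d e) -
      ∑ e ∈ Finset.Icc 1 D, cp_T q d e|) atTop
      (𝓝 |(∑' e, cp_T q d e) - ∑ e ∈ Finset.Icc 1 D, cp_T q d e|) := (h1.sub_const _).abs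
  apply le_of_tendsto h2
  rw [eventually_atTop]
  refine ⟨D, fun N hN => ?_⟩
  have h3 : (∑ e ∈ Finset.Icc 1 N, cp_T q d e) - ∑ e ∈ Finset.Icc 1 D, cp_T q d e =
      ∑ e ∈ Finset.Ioc D N, cp_T q d e := by
    rw [sub_eq_iff_eq_add, add_comm]
    have : Finset.Icc 1 N = Finset.Icc 1 D ∪ Finset.Ioc D N := by
      ext k
      simp only [Finset.mem_Icc, Finset.mem_union, Finset.mem_Ioc]
      omega
    rw [this, Finset.sum_union]
    rw [Finset.disjoint_left]
    intro k hk hk'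
    rw [Finset.mem_Icc] at hk
    rw [Finset.mem_Ioc] at hk'
    omega
  rw [h3]
  calc |∑ e ∈ Finset.Ioc D N, cp_T q d e| ≤ ∑ e ∈ Finset.Ioc D N, |cp_T q d e| :=
        Finset.abs_sum_le_sum_abs _ _
    _ ≤ ∑ e ∈ Finset.Ioc D N, (Nat.gcd d e : ℝ) * ((e : ℝ) ^ 2)⁻¹ :=
        Finset.sum_le_sum fun e _ => cp_T_le q d e
    _ ≤ _ := cp_tail_fin hd hD

/-! ### classes modulo `q` -/

/-- representatives -/
noncomputable def cp_R (q : ℕ) : Finset El := (Finset.Ico (0 : ℤ) q) ×ˢ (Finset.Ico (0 : ℤ) q)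

/-- reduction -/
def cp_red (q : ℕ) (w : El) : El := (w.1 % q, w.2 % q)

theorem cp_red_mem {q : ℕ} (hq : 1 ≤ q) (w : El) : cp_red q w ∈ cp_R q := by
  have hq' : (0 : ℤ) < q := by exact_mod_cast hq
  unfold cp_red cp_R
  rw [Finset.mem_product, Finset.mem_Ico, Finset.mem_Ico]
  exact ⟨⟨Int.emod_nonneg _ hq'.ne', Int.emod_lt_of_pos _ hq'⟩,
    ⟨Int.emod_nonneg _ hq'.ne', Int.emod_lt_of_pos _ hq'⟩⟩

theorem cp_red_dv {q : ℕ} (w : El) : dv q (w - cp_red q w) := by
  unfold cp_red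
  exact ⟨Int.dvd_self_sub_emod, Int.dvd_self_sub_emod⟩

theorem cp_dv_symm {q : ℤ} {v w : El} (h : dv q (v - w)) : dv q (w - v) := by
  obtain ⟨h1, h2⟩ := h
  refine ⟨?_, ?_⟩
  · have := h1.neg_right
    rwa [Prod.fst_sub, neg_sub] at this
  · have := h2.neg_right
    rwa [Prod.snd_sub, neg_sub] at this

theorem cp_red_eq {q : ℕ} {z : El} (hz : z ∈ cp_R q) (w : El) :
    cp_red q w = z ↔ dv q (w - z) := by
  unfold cp_R at hz
  rw [Finset.mem_product, Finset.mem_Ico, Finset.mem_Ico] at hz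
  obtain ⟨⟨h1, h2⟩, h3, h4⟩ := hz
  constructor
  · rintro rfl
    exact cp_red_dv w
  · rintro ⟨h5, h6⟩
    unfold cp_red
    have e1 : w.1 % q = z.1 := by
      have h7 : w.1 % q = z.1 % q := (Int.modEq_iff_dvd.2 h5).symm
      rw [h7, Int.emod_eq_of_lt h1 h2]
    have e2 : w.2 % q = z.2 := by
      have h7 : w.2 % q = z.2 % q := (Int.modEq_iff_dvd.2 h6).symm
      rw [h7, Int.emod_eq_of_lt h3 h4]
    exact Prod.ext e1 e2

theorem cp_R_card (q : ℕ) : (cp_R q).card = q ^ 2 := by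
  unfold cp_R
  rw [Finset.card_product, Int.card_Ico]
  simp [sq]

open Classical in
/-- multiplication by a unit does not change the number of classes -/
theorem cp_classes {q e : ℕ} (hq : 1 ≤ q) (he : Nat.Coprime e q) {V : El → Prop}
    (hV : Per q V) :
    ((cp_R q).filter (fun z => V (sm e z))).card = ((cp_R q).filter V).card := by
  set φ : El → El := fun z => cp_red q (sm e z) with hφ
  have hinj : Set.InjOn φ (cp_R q : Set El) := by
    intro z hz z' hz' h
    rw [Finset.mem_coe] at hz hz'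
    have h1 : dv q (sm e z - sm e z') := by
      have h2 : dv q (sm e z - cp_red q (sm e z')) := by
        rw [← cp_red_eq (cp_red_mem hq _)]
        exact h
      have h3 := cp_red_dv (q := q) (sm e z')
      refine ⟨?_, ?_⟩
      · have := dvd_sub h2.1 h3.1
        have h4 : (sm e z - cp_red q (sm e z')).1 - (sm e z' - cp_red q (sm e z')).1 =
            (sm e z - sm e z').1 := by
          simp only [Prod.fst_sub]
          ring
        rwa [h4] at this
      · have := dvd_sub h2.2 h3.2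
        have h4 : (sm e z - cp_red q (sm e z')).2 - (sm e z' - cp_red q (sm e z')).2 =
            (sm e z - sm e z').2 := by
          simp only [Prod.snd_sub]
          ring
        rwa [h4] at this
    have hcop : IsCoprime (q : ℤ) (e : ℤ) := (Nat.isCoprime_iff_coprime.2 he).symm
    have h2 : dv q (z - z') := by
      refine ⟨?_, ?_⟩
      · apply hcop.dvd_of_dvd_mul_left
        have := h1.1
        simp only [sm, Prod.fst_sub] at this
        rwa [← mul_sub] at this
      · apply hcop.dvd_of_dvd_mul_left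
        have := h1.2
        simp only [sm, Prod.snd_sub] at this
        rwa [← mul_sub] at this
    have h3 := (cp_red_eq hz' z).2 h2
    have h4 := (cp_red_eq hz z).2 (by refine ⟨?_, ?_⟩ <;> simp)
    rw [← h4, h3]
  have himg : (cp_R q).image φ = cp_R q := by
    apply Finset.eq_of_subset_of_card_le
    · intro z hz
      obtain ⟨y, -, rfl⟩ := Finset.mem_image.1 hz
      exact cp_red_mem hq _
    · rw [Finset.card_image_of_injOn hinj]
  have hVφ : ∀ z : El, V (φ z) ↔ V (sm e z) := by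
    intro z
    constructor
    · exact hV _ _ (cp_dv_symm (cp_red_dv (q := q) (sm e z)))
    · exact hV _ _ (cp_red_dv (q := q) (sm e z))
  calc ((cp_R q).filter (fun z => V (sm e z))).card
      = ((cp_R q).filter (fun z => V (φ z))).card := by
        congr 1
        apply Finset.filter_congr
        intro z _
        exact (hVφ z).symm
    _ = (((cp_R q).filter (fun z => V (φ z))).image φ).card := by
        rw [Finset.card_image_of_injOn]
        exact hinj.mono (by
          intro z hz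
          rw [Finset.mem_coe, Finset.mem_filter] at hz
          exact hz.1)
    _ = (((cp_R q).image φ).filter V).card := by
        rw [Finset.filter_image]
    _ = ((cp_R q).filter V).card := by rw [himg]

open Classical in
theorem cp_inner {b c : ℤ} (A : Ang b c) {q e d : ℕ} (hq : 1 ≤ q)
    {V : El → Prop} (hV : Per q V) (hd : 1 ≤ d) (r : El) (y : ℝ) :
    ((A.MF y).filter (fun w => V (sm e w) ∧ (d : ℤ) ∣ dt (sm e w) r)).card =
      ∑ z ∈ (cp_R q).filter (fun z => V (sm e z)),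
        ((A.MF y).filter (fun w => dv q (w - z) ∧
          ((d / Nat.gcd d e : ℕ) : ℤ) ∣ dt w r)).card := by
  have hVe : ∀ v w : El, dv q (v - w) → (V (sm e v) → V (sm e w)) := by
    intro v w h
    apply hV
    refine ⟨?_, ?_⟩
    · have := h.1.mul_left (e : ℤ)
      have h4 : (e : ℤ) * (v - w).1 = (sm e v - sm e w).1 := by
        simp only [sm, Prod.fst_sub]
        ring
      rwa [h4] at this
    · have := h.2.mul_left (e : ℤ)
      have h4 : (e : ℤ) * (v - w).2 = (sm e v - sm e w).2 := by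
        simp only [sm, Prod.snd_sub]
        ring
      rwa [h4] at this
  have hdt : ∀ w : El, (d : ℤ) ∣ dt (sm e w) r ↔ ((d / Nat.gcd d e : ℕ) : ℤ) ∣ dt w r := by
    intro w
    have h1 : dt (sm e w) r = (e : ℤ) * dt w r := by
      simp only [dt, sm]
      ring
    rw [h1, Int.natCast_dvd, Int.natCast_dvd, Int.natAbs_mul, Int.natAbs_natCast]
    have hg : 0 < Nat.gcd d e := Nat.gcd_pos_of_pos_left e (by omega)
    obtain ⟨d', hd'⟩ := Nat.gcd_dvd_left d e
    obtain ⟨e', he'⟩ := Nat.gcd_dvd_right d e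
    have hcop : Nat.Coprime (d / Nat.gcd d e) (e / Nat.gcd d e) := Nat.coprime_div_gcd_div_gcd hg
    have h2 : d / Nat.gcd d e = d' := Nat.div_eq_of_eq_mul_right hg hd'
    have h3 : e / Nat.gcd d e = e' := Nat.div_eq_of_eq_mul_right hg he'
    rw [h2, h3] at hcop
    rw [h2]
    have h4 : d ∣ e * (dt w r).natAbs ↔
        Nat.gcd d e * d' ∣ Nat.gcd d e * (e' * (dt w r).natAbs) := by
      rw [← mul_assoc, ← he', ← hd']
    rw [h4, Nat.mul_dvd_mul_iff_left hg]
    exact hcop.dvd_mul_left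
  rw [Finset.card_eq_sum_card_fiberwise (f := cp_red q)
    (t := (cp_R q).filter (fun z => V (sm e z)))]
  · apply Finset.sum_congr rfl
    intro z hz
    rw [Finset.mem_filter] at hz
    congr 1
    ext w
    simp only [Finset.mem_filter]
    rw [cp_red_eq hz.1, hdt]
    constructor
    · rintro ⟨⟨h1, h2, h3⟩, h4⟩
      exact ⟨h1, h4, h3⟩
    · rintro ⟨h1, h4, h3⟩
      exact ⟨⟨h1, hVe _ _ (cp_dv_symm h4) hz.2, h3⟩, h4⟩
  · intro w hw
    rw [Finset.mem_coe, Finset.mem_filter] at hw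
    rw [Finset.mem_coe, Finset.mem_filter]
    exact ⟨cp_red_mem hq w, hVe _ _ (cp_red_dv w) hw.2.1⟩

theorem cp_harm {D : ℕ} (hD : 1 ≤ D) {x : ℝ} (hx : (D : ℝ) ≤ x) :
    ∑ e ∈ Finset.Icc 1 D, ((e : ℝ))⁻¹ ≤ 1 + Real.log x := by
  have h1 := harmonic_le_one_add_log D
  rw [harmonic_eq_sum_Icc] at h1
  push_cast at h1
  have hD0 : (0 : ℝ) < D := by exact_mod_cast hD
  have h2 : Real.log D ≤ Real.log x := Real.log_le_log hD0 hx
  linarith

open Classical in
theorem cp_one {b c : ℤ} (A : Ang b c) {κ C : ℝ} {q : ℕ} (hq : 1 ≤ q)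
    (hC : ∀ (v₀ r : El) (d : ℕ), 1 ≤ d → Nat.Coprime d q →
      (∀ l : ℕ, l.Prime → l ∣ d → ¬ dv l r) → ∀ x : ℝ, 1 ≤ x →
      |(((A.MF x).filter (fun w => dv q (w - v₀) ∧ (d : ℤ) ∣ dt w r)).card : ℝ) -
        κ * x / ((q : ℝ) ^ 2 * d)| ≤ C * Real.sqrt x)
    {V : El → Prop} (hV : Per q V) {d : ℕ} (hd : 1 ≤ d) (hdq : Nat.Coprime d q) {r : El}
    (hlr : ∀ l : ℕ, l.Prime → l ∣ d → ¬ dv l r) {x : ℝ} {e : ℕ} (he : 1 ≤ e)
    (heq : Nat.Coprime e q) (hex : (e : ℝ) ≤ Real.sqrt x) (hx : 1 ≤ x) :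
    |(((A.MF (x / (e : ℝ) ^ 2)).filter (fun w => V (sm e w) ∧
      (d : ℤ) ∣ dt (sm e w) r)).card : ℝ) - (((cp_R q).filter V).card : ℝ) *
        (κ * (x / (e : ℝ) ^ 2) / ((q : ℝ) ^ 2 * (d / Nat.gcd d e : ℕ)))| ≤
      (((cp_R q).filter V).card : ℝ) * (C * (Real.sqrt x * (e : ℝ)⁻¹)) := by
  have hx0 : 0 < x := by linarith
  have he0 : (0 : ℝ) < e := by exact_mod_cast he
  have hg : 0 < Nat.gcd d e := Nat.gcd_pos_of_pos_left e (by omega)
  have hdd : d / Nat.gcd d e ∣ d := Nat.div_dvd_of_dvd (Nat.gcd_dvd_left d e)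
  have hd1 : 1 ≤ d / Nat.gcd d e := Nat.pos_of_dvd_of_pos hdd (by omega)
  have hy : 1 ≤ x / (e : ℝ) ^ 2 := by
    rw [one_le_div (by positivity)]
    have h := Real.sq_sqrt hx0.le
    nlinarith
  have hsq : Real.sqrt (x / (e : ℝ) ^ 2) = Real.sqrt x * (e : ℝ)⁻¹ := by
    rw [Real.sqrt_div hx0.le, Real.sqrt_sq he0.le, div_eq_mul_inv]
  rw [cp_inner A hq hV hd r, ← cp_classes hq heq hV, Nat.cast_sum, ← nsmul_eq_mul,
    ← Finset.sum_const, ← Finset.sum_sub_distrib, ← nsmul_eq_mul, ← Finset.sum_const]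
  refine (Finset.abs_sum_le_sum_abs _ _).trans (Finset.sum_le_sum fun z _ => ?_)
  have h := hC z r (d / Nat.gcd d e) hd1 (Nat.Coprime.coprime_dvd_left hdd hdq)
    (fun l hl hld => hlr l hl (hld.trans hdd)) _ hy
  rw [hsq] at h
  exact h

open Classical in
theorem PS_count_pr {b c : ℤ} (A : Ang b c) (q : ℕ) (hq : 1 ≤ q) : ∃ C : ℝ, 1 ≤ C ∧
    ∀ V : El → Prop, Per q V → ∃ a : ℝ, 0 ≤ a ∧ a ≤ C ∧ ((∃ v, V v) → 1 / C ≤ a) ∧
    ∀ (r : El) (d : ℕ), Squarefree d → Nat.Coprime d q → (∀ l : ℕ, l.Prime → l ∣ d → ¬ dv l r) →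
    ∀ x : ℝ, 1 ≤ x → |(((PS A q V x).filter (fun w => (d : ℤ) ∣ dt w r)).card : ℝ) -
      a * x / ∏ l ∈ d.primeFactors, ((l : ℝ) + 1)| ≤
        C * d.divisors.card * Real.sqrt x * (1 + Real.log x) := by
  obtain ⟨κ, hκ, hcnt⟩ := A.cnt
  obtain ⟨C, hC1, hC⟩ := hcnt q hq
  have hG1 := cp_G_pos q
  have hG2 := cp_G_le q
  set G : ℝ := ∑' e, cp_T q 1 e with hG
  have hq1 : (1 : ℝ) ≤ q := by exact_mod_cast hq
  have hq2 : (1 : ℝ) ≤ (q : ℝ) ^ 2 := one_le_pow₀ hq1
  set C' : ℝ := (q : ℝ) ^ 2 * C + 4 * κ + 4 * (q : ℝ) ^ 2 / κ with hC'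
  have hC'1 : 1 ≤ C' := by
    have h1 : 1 ≤ (q : ℝ) ^ 2 * C := by nlinarith
    have h2 : 0 ≤ 4 * (q : ℝ) ^ 2 / κ := by positivity
    linarith
  refine ⟨C', hC'1, ?_⟩
  intro V hV
  set n : ℝ := (((cp_R q).filter V).card : ℝ) with hn
  have hn0 : 0 ≤ n := by positivity
  have hnq : n ≤ (q : ℝ) ^ 2 := by
    have h := Finset.card_filter_le (cp_R q) V
    rw [cp_R_card] at h
    rw [hn]
    exact_mod_cast h
  refine ⟨n * κ * G / (q : ℝ) ^ 2, ?_, ?_, ?_, ?_⟩
  · have : 0 ≤ G := by linarith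
    positivity
  · rw [div_le_iff₀ (by positivity)]
    have h1 : κ * G ≤ C' := by
      have h2 : 0 ≤ 4 * (q : ℝ) ^ 2 / κ := by positivity
      have h3 : 1 ≤ (q : ℝ) ^ 2 * C := by nlinarith
      nlinarith
    have h2 : 0 ≤ κ * G := mul_nonneg hκ.le (by linarith)
    calc n * κ * G = (κ * G) * n := by ring
      _ ≤ C' * (q : ℝ) ^ 2 := mul_le_mul h1 hnq hn0 (by linarith)
  · rintro ⟨v, hv⟩
    have hn1 : 1 ≤ n := by
      have h : 1 ≤ ((cp_R q).filter V).card := by
        apply Finset.card_pos.2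
        refine ⟨cp_red q v, ?_⟩
        rw [Finset.mem_filter]
        exact ⟨cp_red_mem hq v, hV _ _ (cp_red_dv v) hv⟩
      rw [hn]
      exact_mod_cast h
    have h1 : 4 * (q : ℝ) ^ 2 / κ ≤ C' := by
      have h3 : 1 ≤ (q : ℝ) ^ 2 * C := by nlinarith
      linarith
    calc 1 / C' ≤ 1 / (4 * (q : ℝ) ^ 2 / κ) :=
          one_div_le_one_div_of_le (by positivity) h1
      _ = 1 * κ * (1 / 4) / (q : ℝ) ^ 2 := by
          field_simp
      _ ≤ n * κ * G / (q : ℝ) ^ 2 := by
          apply div_le_div_of_nonneg_right _ (by positivity)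
          apply mul_le_mul _ hG1 (by norm_num) (by positivity)
          exact mul_le_mul_of_nonneg_right hn1 hκ.le
  intro r d hsq hdq hlr x hx
  have hd : 1 ≤ d := Nat.one_le_iff_ne_zero.2 hsq.ne_zero
  have hd0 : (0 : ℝ) < d := by exact_mod_cast hd
  have hd1 : (1 : ℝ) ≤ d := by exact_mod_cast hd
  set D : ℕ := ⌊Real.sqrt x⌋₊ with hDdef
  have hx0 : 0 < x := by linarith
  have hs1 : 1 ≤ Real.sqrt x := by rwa [Real.one_le_sqrt]
  have hss : Real.sqrt x ^ 2 = x := Real.sq_sqrt hx0.le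
  have hDle : (D : ℝ) ≤ Real.sqrt x := Nat.floor_le (by linarith)
  have hDlt : Real.sqrt x < (D : ℝ) + 1 := Nat.lt_floor_add_one _
  have hD1 : 1 ≤ D := by
    rw [hDdef, Nat.one_le_floor_iff]
    exact hs1
  have hD1' : (1 : ℝ) ≤ (D : ℝ) := by exact_mod_cast hD1
  have hsx : Real.sqrt x ≤ x := by nlinarith
  have hlog : 0 ≤ Real.log x := Real.log_nonneg hx
  have hxD : x < ((D : ℝ) + 1) ^ 2 := by
    rw [← hss]
    exact pow_lt_pow_left₀ hDlt (by linarith) (by norm_num)
  set N : ℕ → ℕ := fun e => ((A.MF (x / (e : ℝ) ^ 2)).filter (fun w => V (sm e w) ∧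
      (d : ℤ) ∣ dt (sm e w) r)).card with hN
  set E : Finset ℕ := (Finset.Icc 1 D).filter (fun e => Nat.Coprime e q) with hE
  have h2 : (((PS A q V x).filter (fun w => (d : ℤ) ∣ dt w r)).card : ℝ) =
      ∑ e ∈ E, (ArithmeticFunction.moebius e : ℝ) * (N e : ℝ) := by
    have h1 := PS_moebius A hq V (fun w => if (d : ℤ) ∣ dt w r then (1 : ℂ) else 0) x D hxD
    rw [Finset.sum_boole] at h1
    have h1' := congrArg Complex.re h1
    rw [Complex.natCast_re, Complex.re_sum] at h1'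
    rw [h1']
    apply Finset.sum_congr rfl
    intro e _
    rw [Finset.sum_boole, Finset.filter_filter]
    have e' : ((ArithmeticFunction.moebius e : ℂ) * ((N e : ℕ) : ℂ)) =
        (((ArithmeticFunction.moebius e : ℝ) * (N e : ℝ) : ℝ) : ℂ) := by
      push_cast
      ring
    exact (congrArg Complex.re e').trans (Complex.ofReal_re _)
  have hdiv : ∀ e : ℕ, ((d / Nat.gcd d e : ℕ) : ℝ) = (d : ℝ) / (Nat.gcd d e : ℝ) := by
    intro e
    have hg : 0 < Nat.gcd d e := Nat.gcd_pos_of_pos_left e (by omega)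
    rw [Nat.cast_div (Nat.gcd_dvd_left d e)]
    exact_mod_cast hg.ne'
  have h3 : (((PS A q V x).filter (fun w => (d : ℤ) ∣ dt w r)).card : ℝ) -
      n * κ * x / ((q : ℝ) ^ 2 * d) * ∑ e ∈ Finset.Icc 1 D, cp_T q d e =
      ∑ e ∈ E, (ArithmeticFunction.moebius e : ℝ) * ((N e : ℝ) - n *
        (κ * (x / (e : ℝ) ^ 2) / ((q : ℝ) ^ 2 * (d / Nat.gcd d e : ℕ)))) := by
    rw [h2, hE, Finset.sum_filter, Finset.sum_filter, Finset.mul_sum, ← Finset.sum_sub_distrib]
    apply Finset.sum_congr rfl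
    intro e he
    rw [Finset.mem_Icc] at he
    have he0 : (e : ℝ) ≠ 0 := by
      have : (0 : ℝ) < e := by exact_mod_cast he.1
      exact this.ne'
    have hg : 0 < Nat.gcd d e := Nat.gcd_pos_of_pos_left e (by omega)
    have hg0 : (Nat.gcd d e : ℝ) ≠ 0 := by exact_mod_cast hg.ne'
    unfold cp_T
    split_ifs with h
    · rw [hdiv]
      field_simp
    · ring
  have h4 : |(((PS A q V x).filter (fun w => (d : ℤ) ∣ dt w r)).card : ℝ) -
      n * κ * x / ((q : ℝ) ^ 2 * d) * ∑ e ∈ Finset.Icc 1 D, cp_T q d e| ≤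
      (q : ℝ) ^ 2 * C * Real.sqrt x * (1 + Real.log x) := by
    rw [h3]
    calc _ ≤ ∑ e ∈ E, |(ArithmeticFunction.moebius e : ℝ) * ((N e : ℝ) - n *
        (κ * (x / (e : ℝ) ^ 2) / ((q : ℝ) ^ 2 * (d / Nat.gcd d e : ℕ))))| :=
          Finset.abs_sum_le_sum_abs _ _
      _ ≤ ∑ e ∈ E, n * (C * (Real.sqrt x * (e : ℝ)⁻¹)) := by
          apply Finset.sum_le_sum
          intro e he
          rw [hE, Finset.mem_filter, Finset.mem_Icc] at he
          have hex : (e : ℝ) ≤ Real.sqrt x := by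
            have : (e : ℝ) ≤ (D : ℝ) := by exact_mod_cast he.1.2
            linarith
          have h5 := cp_one A hq hC hV hd hdq hlr he.1.1 he.2 hex hx
          rw [abs_mul]
          calc |(ArithmeticFunction.moebius e : ℝ)| * |(N e : ℝ) - n *
              (κ * (x / (e : ℝ) ^ 2) / ((q : ℝ) ^ 2 * (d / Nat.gcd d e : ℕ)))|
              ≤ 1 * (n * (C * (Real.sqrt x * (e : ℝ)⁻¹))) :=
                mul_le_mul (cp_mu e) h5 (abs_nonneg _) (by norm_num)
            _ = _ := one_mul _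
      _ ≤ ∑ e ∈ Finset.Icc 1 D, n * (C * (Real.sqrt x * (e : ℝ)⁻¹)) := by
          apply Finset.sum_le_sum_of_subset_of_nonneg (Finset.filter_subset _ _)
          intro e _ _
          positivity
      _ = n * C * Real.sqrt x * ∑ e ∈ Finset.Icc 1 D, (e : ℝ)⁻¹ := by
          rw [Finset.mul_sum]
          apply Finset.sum_congr rfl
          intro e _
          ring
      _ ≤ (q : ℝ) ^ 2 * C * Real.sqrt x * (1 + Real.log x) := by
          have h6 := cp_harm hD1 (hDle.trans hsx)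
          apply mul_le_mul _ h6 (by positivity) (by positivity)
          apply mul_le_mul_of_nonneg_right _ (by positivity)
          exact mul_le_mul_of_nonneg_right hnq (by linarith)
  have hτ : (1 : ℝ) ≤ (d.divisors.card : ℝ) := by
    have : 1 ≤ d.divisors.card := Finset.card_pos.2 ⟨1, Nat.one_mem_divisors.2 (by omega)⟩
    exact_mod_cast this
  have h5 : |n * κ * x / ((q : ℝ) ^ 2 * d) * ∑ e ∈ Finset.Icc 1 D, cp_T q d e -
      n * κ * x / ((q : ℝ) ^ 2 * d) * ∑' e, cp_T q d e| ≤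
      4 * κ * d.divisors.card * Real.sqrt x := by
    rw [← mul_sub, abs_mul, abs_sub_comm]
    have h6 : |n * κ * x / ((q : ℝ) ^ 2 * d)| ≤ κ * x := by
      rw [abs_of_nonneg (by positivity), div_le_iff₀ (by positivity)]
      have h7 : n ≤ (q : ℝ) ^ 2 * d := by nlinarith
      calc n * κ * x = (κ * x) * n := by ring
        _ ≤ (κ * x) * ((q : ℝ) ^ 2 * d) := mul_le_mul_of_nonneg_left h7 (by positivity)
    have h8 := cp_tail q hd hD1
    calc _ ≤ (κ * x) * (2 * (d.divisors.card : ℝ) / (D : ℝ)) :=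
          mul_le_mul h6 h8 (abs_nonneg _) (by positivity)
      _ ≤ 4 * κ * d.divisors.card * Real.sqrt x := by
          rw [← mul_div_assoc, div_le_iff₀ (by linarith)]
          have h9 : x ≤ 2 * (Real.sqrt x * D) := by nlinarith
          calc κ * x * (2 * (d.divisors.card : ℝ)) =
              (2 * κ * d.divisors.card) * x := by ring
            _ ≤ (2 * κ * d.divisors.card) * (2 * (Real.sqrt x * D)) :=
                mul_le_mul_of_nonneg_left h9 (by positivity)
            _ = _ := by ring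
  have h6 : n * κ * G / (q : ℝ) ^ 2 * x / ∏ l ∈ d.primeFactors, ((l : ℝ) + 1) =
      n * κ * x / ((q : ℝ) ^ 2 * d) * ∑' e, cp_T q d e := by
    rw [cp_prod q d hsq hdq, Finset.prod_div_distrib, ← hG]
    have h7 : ∏ l ∈ d.primeFactors, (l : ℝ) = d := by
      rw [← Nat.cast_prod, Nat.prod_primeFactors_of_squarefree hsq]
    rw [h7]
    have h8 : (∏ l ∈ d.primeFactors, ((l : ℝ) + 1)) ≠ 0 := by
      apply Finset.prod_ne_zero_iff.2
      intro l _
      positivity
    field_simp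
  rw [h6]
  calc |(((PS A q V x).filter (fun w => (d : ℤ) ∣ dt w r)).card : ℝ) -
      n * κ * x / ((q : ℝ) ^ 2 * d) * ∑' e, cp_T q d e|
      ≤ (q : ℝ) ^ 2 * C * Real.sqrt x * (1 + Real.log x) +
        4 * κ * d.divisors.card * Real.sqrt x := by
        have h7 := abs_add_le ((((PS A q V x).filter (fun w => (d : ℤ) ∣ dt w r)).card : ℝ) -
          n * κ * x / ((q : ℝ) ^ 2 * d) * ∑ e ∈ Finset.Icc 1 D, cp_T q d e)
          (n * κ * x / ((q : ℝ) ^ 2 * d) * ∑ e ∈ Finset.Icc 1 D, cp_T q d e -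
            n * κ * x / ((q : ℝ) ^ 2 * d) * ∑' e, cp_T q d e)
        rw [sub_add_sub_cancel] at h7
        linarith
    _ ≤ C' * d.divisors.card * Real.sqrt x * (1 + Real.log x) := by
        have h7 : (q : ℝ) ^ 2 * C * Real.sqrt x * (1 + Real.log x) ≤
            (q : ℝ) ^ 2 * C * d.divisors.card * (Real.sqrt x * (1 + Real.log x)) := by
          have h8 : 0 ≤ (q : ℝ) ^ 2 * C * (Real.sqrt x * (1 + Real.log x)) := by positivity
          nlinarith
        have h8 : 4 * κ * d.divisors.card * Real.sqrt x ≤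
            4 * κ * d.divisors.card * (Real.sqrt x * (1 + Real.log x)) := by
          apply mul_le_mul_of_nonneg_left _ (by positivity)
          nlinarith
        have h9 : 0 ≤ 4 * (q : ℝ) ^ 2 / κ * d.divisors.card *
            (Real.sqrt x * (1 + Real.log x)) := by positivity
        have h10 : C' * d.divisors.card * Real.sqrt x * (1 + Real.log x) =
            (q : ℝ) ^ 2 * C * d.divisors.card * (Real.sqrt x * (1 + Real.log x)) +
            4 * κ * d.divisors.card * (Real.sqrt x * (1 + Real.log x)) +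
            4 * (q : ℝ) ^ 2 / κ * d.divisors.card * (Real.sqrt x * (1 + Real.log x)) := by
          rw [hC']
          ring
        rw [h10]
        linarith

theorem PS_low_pr {b c : ℤ} (A : Ang b c) (q : ℕ) (hq : 1 ≤ q) : ∃ C X₀ : ℝ, 1 ≤ C ∧
    ∀ V : El → Prop, Per q V → (∃ v, V v) → ∀ x : ℝ, X₀ ≤ x →
      x / C ≤ ((PS A q V x).card : ℝ) := by
  classical
  obtain ⟨C, hC1, hC⟩ := PS_count_pr A q hq
  refine ⟨2 * C, (10 * C ^ 2) ^ 4, by linarith, ?_⟩
  intro V hV hne x hx
  obtain ⟨a, -, -, ha, hcount⟩ := hC V hV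
  have ha' := ha hne
  have hC2 : 1 ≤ 10 * C ^ 2 := by nlinarith
  have hx1 : 1 ≤ x := (one_le_pow₀ hC2).trans hx
  have hx0 : 0 < x := by linarith
  have h1 := hcount (0, 0) 1 squarefree_one (Nat.coprime_one_left q)
    (fun l hl h => absurd (Nat.dvd_one.1 h) hl.one_lt.ne') x hx1
  have h2 : (PS A q V x).filter (fun w => ((1 : ℕ) : ℤ) ∣ dt w (0, 0)) = PS A q V x := by
    apply Finset.filter_true_of_mem
    intro w _
    simp
  rw [h2] at h1
  simp only [Nat.primeFactors_one, Finset.prod_empty, div_one, Nat.divisors_one,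
    Finset.card_singleton, Nat.cast_one, mul_one] at h1
  have h3 := (abs_le.1 h1).1
  -- fourth root
  set y : ℝ := x ^ (1 / 4 : ℝ) with hy
  have hy4 : y ^ 4 = x := by
    rw [hy, ← Real.rpow_natCast, ← Real.rpow_mul hx0.le]
    norm_num
  have hy0 : 0 < y := Real.rpow_pos_of_pos hx0 _
  have hyC : 10 * C ^ 2 ≤ y := by
    by_contra h
    push Not at h
    have h4 : y ^ 4 < (10 * C ^ 2) ^ 4 := pow_lt_pow_left₀ h hy0.le (by norm_num)
    rw [hy4] at h4
    linarith
  have hy1 : 1 ≤ y := hC2.trans hyC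
  have hsq : Real.sqrt x = y ^ 2 := by
    rw [← hy4, show y ^ 4 = (y ^ 2) ^ 2 by ring, Real.sqrt_sq (by positivity)]
  have hlog : Real.log x ≤ 4 * y := by
    rw [← hy4, Real.log_pow]
    have := Real.log_le_self hy0.le
    push_cast
    linarith
  have h5 : C * Real.sqrt x * (1 + Real.log x) ≤ C * y ^ 2 * (5 * y) := by
    rw [hsq]
    apply mul_le_mul_of_nonneg_left _ (by positivity)
    linarith
  have h6 : C * y ^ 2 * (5 * y) ≤ x / (2 * C) := by
    rw [le_div_iff₀ (by linarith), ← hy4]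
    have h7 : 10 * C ^ 2 * y ^ 3 ≤ y * y ^ 3 := mul_le_mul_of_nonneg_right hyC (by positivity)
    calc C * y ^ 2 * (5 * y) * (2 * C) = 10 * C ^ 2 * y ^ 3 := by ring
      _ ≤ y * y ^ 3 := h7
      _ = y ^ 4 := by ring
  have h7 : x / C ≤ a * x := by
    have : 1 / C * x ≤ a * x := mul_le_mul_of_nonneg_right ha' hx0.le
    calc x / C = 1 / C * x := by ring
      _ ≤ a * x := this
  have h8 : x / C = x / (2 * C) + x / (2 * C) := by
    field_simp
    ring
  linarith

theorem PS_count : type_of% @PS_count_pr := @PS_count_pr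
theorem PS_low : type_of% @PS_low_pr := @PS_low_pr

end Pool.Agent.AQM
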