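import Pool.Agent.Lib_helper39.AQM.Defs
import Pool.Agent.Lib_helper39.AQM.AB
import Pool.Agent.Lib_helper39.MQX.ALG
import Pool.Agent.Lib_helper39.MQX.SBA
import Pool.Agent.Lib_helper39.MQX.SBB
import Pool.Agent.Lib_helper39.MQX.SBC
import Pool.Agent.Lib_helper39.MQX.LSV
import Pool.Agent.Lib_helper39.MQX.PAR
import Pool.Agent.Lib_helper39.MQX.FEJ
import Pool.Agent.Lib_helper39.MQX.EXP
import Pool.Agent.Lib_helper39.AQMF.AL1

/-! block FC of AQM, proved by helper53 -/

/-! AQM, block FC (MP_892e4c): the Fejer mean at the elements -/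

set_option autoImplicit false

namespace Pool.Agent.AQM

open Pool.Agent.MQ Pool.Agent.T2 Filter Topology MeasureTheory

theorem fc_count {ι : Type} (s : Finset ι) (x : ι → ℝ) {η d : ℝ} (hη : 0 ≤ η) (hd : 0 < d)
    (hx : ∀ i ∈ s, |x i| ≤ η) (hsep : ∀ i ∈ s, ∀ j ∈ s, i ≠ j → d ≤ |x i - x j|) :
    (s.card : ℝ) ≤ 2 * η / d + 1 := by
  classical
  have hpos : ∀ i ∈ s, 0 ≤ (x i + η) / d := fun i hi => by
    have := abs_le.1 (hx i hi)
    exact div_nonneg (by linarith) hd.le
  have hinj : Set.InjOn (fun i => ⌊(x i + η) / d⌋₊) s := by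
    intro i hi j hj hij
    by_contra hne
    have h1 := hsep i hi j hj hne
    simp only at hij
    have a1 := Nat.floor_le (hpos i hi)
    have a2 := Nat.lt_floor_add_one ((x i + η) / d)
    have b1 := Nat.floor_le (hpos j hj)
    have b2 := Nat.lt_floor_add_one ((x j + η) / d)
    rw [hij] at a1 a2
    have h2 : |(x i + η) / d - (x j + η) / d| < 1 := by
      rw [abs_lt]
      constructor <;> linarith
    rw [← sub_div, abs_div, abs_of_pos hd, div_lt_one hd] at h2
    have h3 : x i + η - (x j + η) = x i - x j := by ring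
    rw [h3] at h2
    linarith
  have hmaps : ∀ i ∈ s, ⌊(x i + η) / d⌋₊ ∈ Finset.range (⌊2 * η / d⌋₊ + 1) := by
    intro i hi
    rw [Finset.mem_range, Nat.lt_add_one_iff]
    apply Nat.floor_le_floor
    have := abs_le.1 (hx i hi)
    gcongr
    linarith
  have hc := Finset.card_le_card_of_injOn _ hmaps hinj
  rw [Finset.card_range] at hc
  calc (s.card : ℝ) ≤ ((⌊2 * η / d⌋₊ + 1 : ℕ) : ℝ) := by exact_mod_cast hc
    _ ≤ 2 * η / d + 1 := by
        push_cast
        have := Nat.floor_le (show 0 ≤ 2 * η / d by positivity)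
        linarith

section
variable {b c : ℤ} (A : Ang b c) (hs : ¬ IsSquare (dsc b c)) {M : ℕ} {T : El → Prop}

theorem fm_close_pr (hT : Cls A M T) : ∃ C : ℝ, 1 ≤ C ∧ ∀ h : ℕ → ℤ, Sgn h → ∀ (N H ε : ℝ)
    (F : ℝ → ℝ), 16 ≤ H → H ≤ N → 0 ≤ ε → LocH A h M T N H ε F →
      ∑ m ∈ PS A M T N, ‖Fm F (N / Real.sqrt H) (A.u m) - gg b c h m‖ ≤
        C * (ε + H ^ (-(1 / 4) : ℝ)) * N := by
  classical
  obtain ⟨C₀, hC₀, hcard⟩ := PS_card A
  have hδ := A.δ_pos
  refine ⟨C₀ + 2 + 2 * (2 / A.δ + 1), by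
    have : 0 < 2 / A.δ := by positivity
    linarith, ?_⟩
  intro h hh N H ε F hH hHN hε hL
  obtain ⟨J, hJ, hjump⟩ := hL.jump
  have hH0 : 0 < H := by linarith
  have hN0 : 0 < N := by linarith
  have hN1 : 1 ≤ N := by linarith
  have hsq : Real.sqrt H = H ^ (1 / 2 : ℝ) := Real.sqrt_eq_rpow H
  set q : ℝ := H ^ (-(1 / 4) : ℝ) with hq
  have hq0 : 0 < q := Real.rpow_pos_of_pos hH0 _
  set η : ℝ := H ^ (3 / 4 : ℝ) / N with hη
  have hη0 : 0 < η := div_pos (Real.rpow_pos_of_pos hH0 _) hN0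
  have hq34 : H ^ (3 / 4 : ℝ) = H * q := by
    rw [hq]
    nth_rewrite 2 [← Real.rpow_one H]
    rw [← Real.rpow_add hH0]
    norm_num
  have hq2 : q ≤ 1 / 2 := by
    rw [hq, Real.rpow_neg hH0.le, one_div, one_div]
    apply inv_anti₀ (by norm_num)
    calc (2 : ℝ) = (16 : ℝ) ^ (4 : ℝ)⁻¹ := by
          rw [show (16 : ℝ) = 2 ^ (4 : ℝ) by norm_num, ← Real.rpow_mul (by norm_num)]
          norm_num
      _ ≤ H ^ (4 : ℝ)⁻¹ := Real.rpow_le_rpow (by norm_num) hH (by norm_num)
  have hη2 : η ≤ 1 / 2 := by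
    rw [hη, hq34, div_le_iff₀ hN0]
    calc H * q ≤ N * (1 / 2) := mul_le_mul hHN hq2 hq0.le hN0.le
      _ = _ := by ring
  have hK : 1 ≤ N / Real.sqrt H := by
    rw [le_div_iff₀ (Real.sqrt_pos.2 hH0), one_mul]
    calc Real.sqrt H ≤ Real.sqrt (H * H) := Real.sqrt_le_sqrt (by nlinarith)
      _ = H := Real.sqrt_mul_self hH0.le
      _ ≤ N := hHN
  have hKη : 1 / (N / Real.sqrt H * η) = q := by
    have e1 : N / Real.sqrt H * η = H ^ (1 / 4 : ℝ) := by
      rw [hη, hsq]
      have : N / H ^ (1 / 2 : ℝ) * (H ^ (3 / 4 : ℝ) / N) = H ^ (3 / 4 : ℝ) / H ^ (1 / 2 : ℝ) := by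
        have := Real.rpow_pos_of_pos hH0 (1 / 2)
        field_simp
      rw [this, ← Real.rpow_sub hH0]
      norm_num
    rw [e1, hq, Real.rpow_neg hH0.le, one_div]
  -- the exceptional sets
  set S := PS A M T N with hS
  set E := S.filter (fun m => F (A.u m) ≠ gg b c h m) with hE
  have hEc : (E.card : ℝ) ≤ ε * N := hL.good
  let near : ℝ → Finset El := fun j => S.filter (fun m => ∃ n : ℤ, |A.u m - j - n| ≤ η)
  have hmem : ∀ m ∈ S, A.wd m ∧ (nm b c m : ℝ) ≤ N ∧ Pm m := by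
    intro m hm
    have h1 := (mem_PS A).1 hm
    exact ⟨h1.1, h1.2.1, PS_T_prim A hT hm⟩
  have hnear : ∀ j : ℝ, ((near j).card : ℝ) ≤ 2 * η / (A.δ / N) + 1 := by
    intro j
    choose! n hn using fun (m : El) (hm : m ∈ near j) => (Finset.mem_filter.1 hm).2
    refine fc_count (near j) (fun m => A.u m - j - n m) hη0.le (by positivity) hn ?_
    intro v hv w hw hvw
    have hv1 := hmem v (Finset.mem_filter.1 hv).1
    have hw1 := hmem w (Finset.mem_filter.1 hw).1
    have := A.sep N hN1 v w hv1.1 hw1.1 hv1.2.2 hw1.2.2 hvw hv1.2.1 hw1.2.1 (n w - n v)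
    have e : A.u v - A.u w + ((n w - n v : ℤ) : ℝ) = A.u v - j - n v - (A.u w - j - n w) := by
      push_cast
      ring
    rwa [e] at this
  have hnorm : ∀ m ∈ S, ‖((gg b c h m : ℤ) : ℂ)‖ = 1 := fun m hm =>
    gg_norm hh (A.wd_nm m (hmem m hm).1).ne'
  have hpt : ∀ m ∈ S, ‖Fm F (N / Real.sqrt H) (A.u m) - gg b c h m‖ ≤
      q + (if m ∈ E then 2 else 0) + (if m ∈ J.biUnion near then 2 else 0) := by
    intro m hm
    have hfej := fejer_pr hL.per hL.meas hL.pm hK (A.u m)
    have htriv : ‖Fm F (N / Real.sqrt H) (A.u m) - gg b c h m‖ ≤ 2 := by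
      calc _ ≤ ‖Fm F (N / Real.sqrt H) (A.u m)‖ + ‖((gg b c h m : ℤ) : ℂ)‖ := norm_sub_le _ _
        _ ≤ 1 + 1 := add_le_add hfej.1 (hnorm m hm).le
        _ = 2 := by norm_num
    by_cases h1 : m ∈ J.biUnion near
    · rw [if_pos h1]
      have : (0 : ℝ) ≤ (if m ∈ E then 2 else 0) := by split_ifs <;> norm_num
      linarith
    by_cases h2 : m ∈ E
    · rw [if_pos h2, if_neg h1]
      linarith
    rw [if_neg h1, if_neg h2, add_zero, add_zero]
    have h3 : F (A.u m) = gg b c h m := by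
      by_contra h4
      exact h2 (Finset.mem_filter.2 ⟨hm, h4⟩)
    have h5 : ∀ j ∈ J, ∀ n : ℤ, η < |A.u m - j - n| := by
      intro j hj n
      by_contra h6
      exact h1 (Finset.mem_biUnion.2 ⟨j, hj, Finset.mem_filter.2 ⟨hm, n, not_lt.1 h6⟩⟩)
    have h7 := hfej.2 η (F (A.u m)) hη0 hη2 (by
      intro s hs'
      rw [abs_le] at hs'
      rcases le_total s (A.u m) with h8 | h8
      · refine hjump _ _ h8 fun j hj n hn => ?_
        have := h5 j hj n
        rw [lt_abs] at this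
        rcases this with h9 | h9 <;> linarith [hn.1, hn.2, hs'.1, hs'.2]
      · refine (hjump _ _ h8 fun j hj n hn => ?_).symm
        have := h5 j hj n
        rw [lt_abs] at this
        rcases this with h9 | h9 <;> linarith [hn.1, hn.2, hs'.1, hs'.2])
    rw [hKη, h3] at h7
    simpa [Fm] using h7
  have hB : ((J.biUnion near).card : ℝ) ≤ N * q * (2 / A.δ + 1) := by
    calc ((J.biUnion near).card : ℝ) ≤ ∑ j ∈ J, ((near j).card : ℝ) := by
          exact_mod_cast Finset.card_biUnion_le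
      _ ≤ ∑ _j ∈ J, (2 * η / (A.δ / N) + 1) := Finset.sum_le_sum fun j _ => hnear j
      _ = J.card * (2 * η / (A.δ / N) + 1) := by rw [Finset.sum_const, nsmul_eq_mul]
      _ ≤ N / H * (2 * η / (A.δ / N) + 1) := by
          gcongr
      _ = N * q * (2 / A.δ) + N / H := by
          rw [hη, hq34]
          field_simp
      _ ≤ N * q * (2 / A.δ) + N * q := by
          have : 1 / H ≤ q := by
            rw [hq, one_div, ← Real.rpow_neg_one H]
            exact Real.rpow_le_rpow_of_exponent_le (by linarith) (by norm_num)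
          have h2 : N / H = N * (1 / H) := by ring
          rw [h2]
          nlinarith
      _ = _ := by ring
  have hsub : (((S.filter (fun m => m ∈ J.biUnion near)).card : ℕ) : ℝ) ≤
      ((J.biUnion near).card : ℝ) := by
    exact_mod_cast Finset.card_le_card fun m hm => (Finset.mem_filter.1 hm).2
  calc ∑ m ∈ S, ‖Fm F (N / Real.sqrt H) (A.u m) - gg b c h m‖
      ≤ ∑ m ∈ S, (q + (if m ∈ E then 2 else 0) + (if m ∈ J.biUnion near then 2 else 0)) :=
        Finset.sum_le_sum hpt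
    _ = S.card * q + 2 * ((S.filter (fun m => m ∈ E)).card : ℝ) +
        2 * ((S.filter (fun m => m ∈ J.biUnion near)).card : ℝ) := by
        rw [Finset.sum_add_distrib, Finset.sum_add_distrib, Finset.sum_const, nsmul_eq_mul,
          ← Finset.sum_filter, ← Finset.sum_filter, Finset.sum_const, Finset.sum_const,
          nsmul_eq_mul, nsmul_eq_mul]
        ring
    _ ≤ C₀ * N * q + 2 * (ε * N) + 2 * (N * q * (2 / A.δ + 1)) := by
        have h1 : (S.card : ℝ) ≤ C₀ * N := hcard M T N hN0.le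
        have h2 : ((S.filter (fun m => m ∈ E)).card : ℝ) ≤ ε * N := by
          refine le_trans ?_ hEc
          exact_mod_cast Finset.card_le_card fun m hm => (Finset.mem_filter.1 hm).2
        gcongr
        exact hsub.trans hB
    _ ≤ (C₀ + 2 + 2 * (2 / A.δ + 1)) * (ε + q) * N := by
        have h1 : 0 ≤ 2 / A.δ := by positivity
        have h2 : 0 ≤ N * q := by positivity
        have h3 : 0 ≤ N * ε := by positivity
        nlinarith [mul_nonneg h1 h3, mul_nonneg h1 h2, mul_nonneg (by linarith : 0 ≤ C₀) h3]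

end

theorem fm_close : type_of% @fm_close_pr := @fm_close_pr

end Pool.Agent.AQM
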