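import Pool.Agent.Lib_helper39.AQM.Defs
import Pool.Agent.Lib_helper39.AQM.AB
import Pool.Agent.Lib_helper39.MQX.ALG
import Pool.Agent.Lib_helper39.MQX.SBA
import Pool.Agent.Lib_helper39.MQX.SBB
import Pool.Agent.Lib_helper39.MQX.SBC
import Pool.Agent.Lib_helper39.MQX.LSV
import Pool.Agent.Lib_helper39.MQX.PAR
import Pool.Agent.Lib_helper39.MQX.FEJ
import Pool.Agent.Lib_helper39.MQX.EXP
import Pool.Agent.Lib_helper39.AQMF.AL1
import Pool.Agent.Lib_helper39.AQMF.MM2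

/-! block L3 of AQM, proved by helper51 -/

/-! AQM block L3: `few_large` (template MRGF/L3.lean), by helper51. Cites `moment`, `mem_PS`,
`gg_norm`, `ex_norm`. -/

set_option autoImplicit false

namespace Pool.Agent.AQM

open Pool.Agent.MQ Pool.Agent.T2 Filter Topology MeasureTheory

theorem l3_nm_one (b c : ℤ) : nm b c (1, 0) = 1 := by
  simp [nm]

theorem l3_not_dv {v : El} (hv : Int.gcd v.1 v.2 = 1) {l : ℕ} (hl : l.Prime) : ¬ dv l v := by
  rintro ⟨h1, h2⟩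
  have h3 : (l : ℤ) ∣ ((Int.gcd v.1 v.2 : ℕ) : ℤ) := Int.dvd_coe_gcd h1 h2
  rw [hv] at h3
  have h4 : l ∣ 1 := by exact_mod_cast h3
  exact hl.one_lt.ne' (Nat.dvd_one.1 h4)

section
variable {b c : ℤ} (A : Ang b c) {M : ℕ}

theorem l3_one_mem : A.rp (1, 0) ∈ PS A M (fun _ => True) 1 := by
  have h0 : 0 < nm b c (1, 0) := by rw [l3_nm_one]; norm_num
  rw [mem_PS]
  refine ⟨A.rp_wd _ h0, ?_, trivial, ?_⟩
  · rw [AB.rp_nm A h0, l3_nm_one]; norm_num
  · intro l hl hd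
    refine absurd hd (l3_not_dv ?_ hl)
    rw [AB.rp_gcd A h0]
    simp

open Classical in
theorem few_large_pr (hM : 1 ≤ M) : ∃ C : ℝ, 1 ≤ C ∧ ∀ h : ℕ → ℤ, Sgn h →
    ∀ (X P α : ℝ) (B : Finset ℕ) (l : ℕ) (k₀ : ℕ) (r : El) (π : ℕ → El), TP A M B k₀ r π →
    1 ≤ X → 1 ≤ P → 0 < α → α ≤ 1 / 4 → (∀ p ∈ B, P < (p : ℝ) ∧ (p : ℝ) ≤ 2 * P) →
    X ≤ P ^ l → P ^ l ≤ X * P →
      (((Ks X).filter (fun k => P ^ (1 - α) < ‖Qv A h π k B‖)).card : ℝ) ≤
        C * (X * P) ^ (2 * α) * C ^ l * l.factorial := by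
  obtain ⟨C, hC, hmom⟩ := moment A M hM
  refine ⟨4 * C, by linarith, ?_⟩
  intro h hh X P α B l k₀ r π hB hX hP hα hα1 hBP hXl hlX
  set z₀ : El := A.rp (1, 0) with hz₀
  have hmem : z₀ ∈ PS A M (fun _ => True) 1 := l3_one_mem A
  have hβ : ∀ p : ℕ, ‖(if p ∈ B then (gg b c h (π p) : ℂ) else 0)‖ ≤ 1 := by
    intro p
    split_ifs with hp
    · have hn : nm b c (π p) ≠ 0 := by
        rw [hB.nm p hp]
        have h1 := hB.k1
        have h2 := (hB.prime p hp).pos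
        positivity
      exact (gg_norm hh hn).le
    · simp
  have hm := hmom X 1 P B k₀ r π (fun p => if p ∈ B then (gg b c h (π p) : ℂ) else 0)
    (fun z => if z = z₀ then 1 else 0) l hB (by linarith) le_rfl hP hBP hβ
    (fun z => by split_ifs <;> simp)
  have hin : ∀ k : ℤ, ∑ z ∈ PS A M (fun _ => True) 1,
      (if z = z₀ then (1 : ℂ) else 0) * ex (k * A.u z) = ex (k * A.u z₀) := by
    intro k
    rw [Finset.sum_eq_single z₀]
    · simp
    · intro b _ hb; simp [hb]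
    · intro h; exact absurd hmem h
  have hQ : ∀ k : ℤ, ∑ p ∈ B, (if p ∈ B then (gg b c h (π p) : ℂ) else 0) * ex (k * A.u (π p)) =
      Qv A h π k B := fun k => by
    unfold Qv
    exact Finset.sum_congr rfl (fun p hp => by simp [hp])
  simp only [hin, hQ, norm_mul, ex_norm, mul_one, one_mul] at hm
  set T := (Ks X).filter (fun k => P ^ (1 - α) < ‖Qv A h π k B‖) with hT
  have hP0 : (0 : ℝ) < P := by linarith
  have hPl : (1 : ℝ) ≤ P ^ l := one_le_pow₀ hP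
  -- lower bound
  have hlow : (T.card : ℝ) * ((P ^ (1 - α)) ^ l) ^ 2 ≤ ∑ k ∈ Ks X, ‖Qv A h π k B ^ l‖ ^ 2 := by
    calc (T.card : ℝ) * ((P ^ (1 - α)) ^ l) ^ 2 = ∑ k ∈ T, ((P ^ (1 - α)) ^ l) ^ 2 := by
          rw [Finset.sum_const, nsmul_eq_mul]
      _ ≤ ∑ k ∈ T, ‖Qv A h π k B ^ l‖ ^ 2 := by
          apply Finset.sum_le_sum
          intro k hk
          have hk' := (Finset.mem_filter.mp hk).2
          rw [norm_pow]
          have h0 : (0 : ℝ) ≤ P ^ (1 - α) := Real.rpow_nonneg hP0.le _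
          gcongr
      _ ≤ ∑ k ∈ Ks X, ‖Qv A h π k B ^ l‖ ^ 2 :=
          Finset.sum_le_sum_of_subset_of_nonneg (Finset.filter_subset _ _)
            (fun _ _ _ => by positivity)
  have hup : ∑ k ∈ Ks X, ‖Qv A h π k B ^ l‖ ^ 2 ≤
      4 * C * (P ^ l) ^ 2 * (4 * C) ^ l * l.factorial := by
    refine le_trans hm ?_
    have h1 : X + (2 * P) ^ l ≤ 2 * (2 * P) ^ l := by
      have : X ≤ (2 * P) ^ l := by
        refine le_trans hXl ?_
        exact pow_le_pow_left₀ hP0.le (by linarith) l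
      linarith
    calc C * (X + (2 * P) ^ l) * ((2 * P) ^ l) * C ^ l * l.factorial
        ≤ C * (2 * (2 * P) ^ l) * ((2 * P) ^ l) * C ^ l * l.factorial := by gcongr
      _ = 2 * C * (P ^ l) ^ 2 * (4 * C) ^ l * l.factorial := by
          rw [mul_pow, mul_pow, show (4 : ℝ) = 2 * 2 by norm_num, mul_pow]; ring
      _ ≤ 4 * C * (P ^ l) ^ 2 * (4 * C) ^ l * l.factorial := by
          gcongr
          linarith
  have hpow : ((P ^ (1 - α)) ^ l) ^ 2 * (P ^ l) ^ (2 * α) = (P ^ l) ^ 2 := by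
    rw [← Real.rpow_natCast (P ^ (1 - α)) l, ← Real.rpow_mul hP0.le,
      ← Real.rpow_natCast P l, ← Real.rpow_mul hP0.le, ← Real.rpow_natCast _ 2,
      ← Real.rpow_natCast _ 2, ← Real.rpow_mul hP0.le, ← Real.rpow_mul hP0.le,
      ← Real.rpow_add hP0]
    congr 1
    push_cast
    ring
  have hpos : (0 : ℝ) < ((P ^ (1 - α)) ^ l) ^ 2 := by positivity
  have hfin : (T.card : ℝ) * ((P ^ (1 - α)) ^ l) ^ 2 ≤
      (4 * C * (P ^ l) ^ (2 * α) * (4 * C) ^ l * l.factorial) * ((P ^ (1 - α)) ^ l) ^ 2 := by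
    refine le_trans (le_trans hlow hup) (le_of_eq ?_)
    rw [← hpow]; ring
  have hcard := le_of_mul_le_mul_right hfin hpos
  refine le_trans hcard ?_
  have h2 : (P ^ l) ^ (2 * α) ≤ (X * P) ^ (2 * α) :=
    Real.rpow_le_rpow (by positivity) hlX (by linarith)
  gcongr

end

theorem few_large : type_of% @few_large_pr := @few_large_pr

end Pool.Agent.AQM
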