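import Pool.Agent.Lib_helper39.AQM.Defs
import Pool.Agent.Lib_helper39.AQM.AB
import Pool.Agent.Lib_helper39.MQX.ALG
import Pool.Agent.Lib_helper39.MQX.SBA
import Pool.Agent.Lib_helper39.MQX.SBB
import Pool.Agent.Lib_helper39.MQX.SBC
import Pool.Agent.Lib_helper39.MQX.LSV
import Pool.Agent.Lib_helper39.MQX.PAR
import Pool.Agent.Lib_helper39.MQX.FEJ
import Pool.Agent.Lib_helper39.MQX.EXP
import Pool.Agent.Lib_helper39.AQMF.L3

/-! block L4D of AQM, proved by helper35 -/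

set_option autoImplicit false

namespace Pool.Agent.AQM

open Pool.Agent.MQ Pool.Agent.T2 Filter Topology MeasureTheory

section
variable {b c : ℤ} (A : Ang b c) (hs : ¬ IsSquare (dsc b c)) {M : ℕ} {T : El → Prop}

theorem l4d_Qv_empty (h : ℕ → ℤ) (π : ℕ → El) (k : ℤ) : Qv A h π k ∅ = 0 := by
  simp [Qv]

theorem l4d_tp {A : Ang b c} {B B' : Finset ℕ} {k₀ : ℕ} {r : El} {π : ℕ → El}
    (hB : TP A M B k₀ r π) (hs : B' ⊆ B) : TP A M B' k₀ r π where
  k1 := hB.k1
  kM := hB.kM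
  prime := fun p hp => hB.prime p (hs hp)
  m4 := fun p hp => hB.m4 p (hs hp)
  ndM := fun p hp => hB.ndM p (hs hp)
  ndD := fun p hp => hB.ndD p (hs hp)
  wd := fun p hp => hB.wd p (hs hp)
  nm := fun p hp => hB.nm p (hs hp)
  res := fun p hp => hB.res p (hs hp)

theorem l4d_blk_sub (ρ : ℝ) (v : ℕ) (B : Finset ℕ) : blk ρ v B ⊆ B :=
  fun _ hp => (lev_mem_blk.1 hp).1

theorem l4d_pset {A : Ang b c} {B : Finset ℕ} {k₀ : ℕ} {r : El} {π : ℕ → El}
    (hB : TP A M B k₀ r π) : Pset B := fun p hp => ⟨hB.prime p hp, hB.m4 p hp⟩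

open Classical in
/-- L4D: template `l4_D` -/
theorem l4_D_pr (hM : 1 ≤ M) (α : ℝ) (hα : 0 < α) : ∃ F₀ : ℝ, 1 ≤ F₀ ∧ ∀ h : ℕ → ℤ, Sgn h →
    ∀ (X F ρ a : ℝ) (B : Finset ℕ) (V : ℕ) (k₀ : ℕ) (r : El) (π : ℕ → El), TP A M B k₀ r π →
    F₀ ≤ F → 1 ≤ X → F ^ 4 ≤ Real.log X → Real.log X ≤ F ^ 16 → 1 < ρ → ρ ≤ 2 → 0 < a →
    a ≤ α / 4 → a ≤ 1 / 4 →
    (∀ p ∈ B, Real.exp F < (p : ℝ) ∧ (p : ℝ) ≤ Real.exp (F ^ 2)) → (V : ℝ) ≤ F ^ 4 →
    (((Ks X).filter (fun k => ∃ u < V, (ρ ^ u) ^ (1 - a) < ‖Qv A h π k (blk ρ u B)‖)).card : ℝ) ≤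
      X ^ α := by
  obtain ⟨C, hC, hfew⟩ := few_large A hM
  obtain ⟨F₁, hF₁⟩ := lev_log 1 (α / 256) (by positivity)
  refine ⟨max (max F₁ (4 * C)) (24 / α + 8), ?_, ?_⟩
  · have : 0 < 24 / α := by positivity
    exact le_max_of_le_right (by linarith)
  intro h hh X F ρ a B V k₀ r π hTP hF hX hXF hXF' hρ hρ2 ha haα ha4 hBp hV
  have hB : Pset B := l4d_pset hTP
  have hF1 : F₁ ≤ F := (le_max_left _ _).trans ((le_max_left _ _).trans hF)
  have hF2 : 4 * C ≤ F := (le_max_right _ _).trans ((le_max_left _ _).trans hF)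
  have hF3 : 24 / α + 8 ≤ F := (le_max_right _ _).trans hF
  have hF4 : 24 ≤ α * F := by
    have : 24 / α ≤ F := by linarith
    rw [div_le_iff₀ hα] at this
    linarith
  have hF8 : 8 ≤ F := by
    have : 0 < 24 / α := by positivity
    linarith
  have hlogF := hF₁ F hF1
  rw [pow_one] at hlogF
  have hF0 : 0 < F := by linarith
  set Av := Real.log X with hA
  have hXA : X = Real.exp Av := (Real.exp_log (by linarith)).symm
  have hF64 : 64 ≤ F ^ 2 := by nlinarith
  have hF4e : F ^ 4 = F ^ 2 * F ^ 2 := by ring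
  have hA0 : 0 < Av := lt_of_lt_of_le (by positivity) hXF
  -- one block
  have key : ∀ u < V, (((Ks X).filter (fun k => (ρ ^ u) ^ (1 - a) <
      ‖Qv A h π k (blk ρ u B)‖)).card : ℝ) ≤ Real.exp (α / 2 * Av + F ^ 2 / 2 +
        64 * Av * Real.log F / F + Real.log F) := by
    intro u hu
    by_cases h2 : (blk ρ u B).Nonempty
    swap
    · rw [Finset.not_nonempty_iff_eq_empty] at h2
      rw [h2]
      simp only [l4d_Qv_empty, norm_zero]
      rw [Finset.filter_false_of_mem, Finset.card_empty]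
      · push_cast; positivity
      · intro k hk
        have : 0 < (ρ ^ u) ^ (1 - a) := by positivity
        linarith
    obtain ⟨hb1, hb2, hb3⟩ := lev_blk hρ hρ2 hBp h2
    set bv := (u : ℝ) * Real.log ρ with hbdef
    have hb4 : F / 2 ≤ bv := by linarith
    have hb0 : 0 < bv := by linarith
    have hbA : bv ≤ Av := by
      have : F ^ 2 ≤ F ^ 4 := by rw [hF4e]; nlinarith
      linarith
    obtain ⟨hp1, hp2⟩ := lev_pow hb0 hA0.le
    have hfac := lev_fac 15 hC hF2 hb4 hbA (by norm_num; exact hXF')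
    set l := ⌈Av / bv⌉₊ with hl
    rw [← hXA, ← hb3] at hp2
    rw [← hb3, ← hXA] at hp1
    have h3 := hfew h hh X (ρ ^ u) a (blk ρ u B) l k₀ r π (l4d_tp hTP (l4d_blk_sub _ _ _)) hX
      (by rw [hb3]; exact Real.one_le_exp hb0.le) ha ha4
      (lev_blk_mem hρ hρ2 hB).2 hp1 hp2
    refine h3.trans ?_
    rw [hb3, hXA, ← Real.exp_add, ← Real.exp_mul]
    have hCF : C ≤ Real.exp (Real.log F) := by rw [Real.exp_log hF0]; linarith
    have h4 : (Av + bv) * (2 * a) ≤ α / 2 * Av + F ^ 2 / 2 := by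
      have : 2 * a ≤ α / 2 := by linarith
      have : bv * (2 * a) ≤ F ^ 2 * (1 / 2) := by
        apply mul_le_mul hb2 (by linarith) (by linarith) (by positivity)
      nlinarith
    calc C * Real.exp ((Av + bv) * (2 * a)) * C ^ l * (l.factorial : ℝ)
        = C * Real.exp ((Av + bv) * (2 * a)) * (C ^ l * (l.factorial : ℝ)) := by ring
      _ ≤ Real.exp (Real.log F) * Real.exp (α / 2 * Av + F ^ 2 / 2) *
          Real.exp (4 * (((15 : ℕ) : ℝ) + 1) * Av * Real.log F / F) := by gcongr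
      _ = _ := by
        rw [← Real.exp_add, ← Real.exp_add]
        congr 1
        push_cast
        ring
  have hcard : (((Ks X).filter (fun k => ∃ u < V, (ρ ^ u) ^ (1 - a) <
      ‖Qv A h π k (blk ρ u B)‖)).card : ℝ) ≤ V * Real.exp (α / 2 * Av + F ^ 2 / 2 +
        64 * Av * Real.log F / F + Real.log F) := by
    have h1 := lev_cover ((Ks X).filter (fun k => ∃ u < V, (ρ ^ u) ^ (1 - a) <
      ‖Qv A h π k (blk ρ u B)‖)) (Finset.range V) (fun u => (Ks X).filter (fun k =>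
      (ρ ^ u) ^ (1 - a) < ‖Qv A h π k (blk ρ u B)‖)) (fun _ => 1) (fun _ => zero_le_one) (by
        intro k hk
        obtain ⟨hk1, u, hu, hu'⟩ := Finset.mem_filter.1 hk
        exact ⟨u, Finset.mem_range.2 hu, Finset.mem_filter.2 ⟨hk1, hu'⟩⟩)
    simp only [Finset.sum_const, nsmul_eq_mul, mul_one] at h1
    refine h1.trans ?_
    calc ∑ u ∈ Finset.range V, (((Ks X).filter (fun k => (ρ ^ u) ^ (1 - a) <
          ‖Qv A h π k (blk ρ u B)‖)).card : ℝ)
        ≤ ∑ u ∈ Finset.range V, Real.exp (α / 2 * Av + F ^ 2 / 2 +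
        64 * Av * Real.log F / F + Real.log F) :=
          Finset.sum_le_sum (fun u hu => key u (Finset.mem_range.1 hu))
      _ = _ := by rw [Finset.sum_const, Finset.card_range, nsmul_eq_mul]
  refine hcard.trans ?_
  have hF4exp : F ^ 4 = Real.exp (4 * Real.log F) := by
    have := Real.exp_nat_mul (Real.log F) 4
    rw [Real.exp_log hF0] at this
    rw [← this]; norm_num
  have hXα : X ^ α = Real.exp (Av * α) := by rw [hXA, ← Real.exp_mul]
  calc (V : ℝ) * Real.exp (α / 2 * Av + F ^ 2 / 2 + 64 * Av * Real.log F / F + Real.log F)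
      ≤ F ^ 4 * Real.exp (α / 2 * Av + F ^ 2 / 2 + 64 * Av * Real.log F / F + Real.log F) := by
        gcongr
    _ = Real.exp (4 * Real.log F + (α / 2 * Av + F ^ 2 / 2 + 64 * Av * Real.log F / F +
        Real.log F)) := by rw [hF4exp, ← Real.exp_add]
    _ ≤ Real.exp (Av * α) := by
        apply Real.exp_le_exp.2
        have h5 : 64 * Av * Real.log F / F ≤ α / 4 * Av := by
          rw [div_le_iff₀ hF0]
          calc 64 * Av * Real.log F ≤ 64 * Av * (α / 256 * F) := by gcongr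
            _ = α / 4 * Av * F := by ring
        -- F ^ 2 ≤ A / F ^ 2, log F ≤ F
        have h6 : Real.log F ≤ F := (Real.log_le_sub_one_of_pos hF0).trans (by linarith)
        have h7 : F ^ 2 / 2 + 5 * F ≤ α / 4 * Av := by
          have : F ^ 2 / 2 + 5 * F ≤ 2 * F ^ 2 := by nlinarith
          have h8 : 2 * F ^ 2 ≤ α / 4 * F ^ 4 := by
            have : 8 ≤ α * F ^ 2 := by nlinarith
            calc 2 * F ^ 2 = 8 * F ^ 2 / 4 := by ring
              _ ≤ (α * F ^ 2) * F ^ 2 / 4 := by gcongr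
              _ = _ := by ring
          have h9 : α / 4 * F ^ 4 ≤ α / 4 * Av := by gcongr
          linarith
        nlinarith
    _ = X ^ α := hXα.symm

end

theorem l4_D : type_of% @l4_D_pr := @l4_D_pr

end Pool.Agent.AQM
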