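import Pool.Agent.Lib_helper10.T2F.TKA
import Pool.Agent.Lib_helper39.AQM.Defs
import Pool.Agent.Lib_helper39.AQM.AB
import Pool.Agent.Lib_helper39.MQX.ALG
import Pool.Agent.Lib_helper39.MQX.SBA
import Pool.Agent.Lib_helper39.MQX.SBB
import Pool.Agent.Lib_helper39.MQX.SBC
import Pool.Agent.Lib_helper39.MQX.LSV
import Pool.Agent.Lib_helper39.MQX.PAR
import Pool.Agent.Lib_helper39.MQX.FEJ
import Pool.Agent.Lib_helper39.MQX.EXP
import Pool.Agent.Lib_helper39.AQMF.AL1
import Pool.Agent.Lib_helper39.AQMF.AL2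

/-! block TA of AQM, proved by helper90 -/

/-! AQM, block TA: the number of ideals in an annulus -/

set_option autoImplicit false

namespace Pool.Agent.AQM

open Pool.Agent.MQ Pool.Agent.T2 Filter Topology MeasureTheory

theorem ta_sm_nm {b c : ℤ} (k : ℕ) (v : El) : nm b c (sm k v) = (k : ℤ) ^ 2 * nm b c v := by
  unfold nm sm
  ring

theorem ta_sm_inj {k : ℕ} (hk : 1 ≤ k) {v w : El} (h : sm k v = sm k w) : v = w := by
  have hk0 : (k : ℤ) ≠ 0 := by
    have : (1 : ℤ) ≤ k := by exact_mod_cast hk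
    omega
  unfold sm at h
  rw [Prod.mk.injEq] at h
  exact Prod.ext (mul_left_cancel₀ hk0 h.1) (mul_left_cancel₀ hk0 h.2)

theorem ta_ml_sm {b c : ℤ} (k : ℕ) (v w : El) : ml b c v (sm k w) = sm k (ml b c v w) := by
  unfold ml sm
  ext
  · simp only; ring
  · simp only; ring

/-- the number of elements of norm at most `x` -/
theorem ta_count {b c : ℤ} (A : Ang b c) : ∃ κ C : ℝ, 0 < κ ∧ 1 ≤ C ∧ ∀ x : ℝ, 1 ≤ x →
    |((A.MF x).card : ℝ) - κ * x| ≤ C * Real.sqrt x := by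
  classical
  obtain ⟨κ, hκ, h⟩ := A.cnt
  obtain ⟨C, hC, h2⟩ := h 1 le_rfl
  refine ⟨κ, C, hκ, hC, fun x hx => ?_⟩
  have h3 := h2 0 (1, 0) 1 le_rfl (Nat.coprime_one_left 1) (by
    intro l hl hl1
    exact absurd (Nat.dvd_one.mp hl1) hl.one_lt.ne') x hx
  have h4 : (A.MF x).filter (fun w => dv ((1 : ℕ) : ℤ) (w - 0) ∧
      (((1 : ℕ) : ℤ)) ∣ dt w (1, 0)) = A.MF x := by
    rw [Finset.filter_eq_self]
    intro w _
    refine ⟨⟨?_, ?_⟩, ?_⟩ <;> simp only [Nat.cast_one] <;> exact one_dvd _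
  have h5 : κ * x / (((1 : ℕ) : ℝ) ^ 2 * ((1 : ℕ) : ℝ)) = κ * x := by
    norm_num
  rw [h5] at h3
  have h6 : (((A.MF x).filter (fun w => dv ((1 : ℕ) : ℤ) (w - 0) ∧
      (((1 : ℕ) : ℤ)) ∣ dt w (1, 0))).card : ℝ) = ((A.MF x).card : ℝ) := by rw [h4]
  rw [← h6]
  convert h3

/-- multiples in an annulus -/
theorem ta_mult {b c : ℤ} (A : Ang b c) : ∃ κ C : ℝ, 0 < κ ∧ 1 ≤ C ∧
    ∀ (x ρ : ℝ) (P : El) (K K' N : ℕ) (F : Finset El), 1 ≤ x → 1 < ρ → ρ ≤ 2 → 0 < nm b c P →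
    1 ≤ K → 1 ≤ K' → 1 ≤ N → (N : ℝ) ≤ x →
    (∀ z ∈ F, A.wd z ∧ x < (nm b c z : ℝ) ∧ (nm b c z : ℝ) ≤ ρ * x ∧
      ∃ w : El, ml b c P w = sm K z ∧ (N : ℤ) * nm b c w = K' * nm b c z) →
      (F.card : ℝ) ≤ κ * (ρ - 1) * (K' * x) / N +
        C * (Real.sqrt (K' * x) / Real.sqrt N) := by
  classical
  obtain ⟨κ, C, hκ, hC, h⟩ := ta_count A
  refine ⟨κ, 4 * C, hκ, by linarith,
    fun x ρ P K K' N F hx hρ hρ2 hP hK hK' hN hNx hF => ?_⟩
  have hN' : (1 : ℝ) ≤ N := by exact_mod_cast hN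
  have hN0 : (0 : ℝ) < N := by linarith
  have hK1 : (1 : ℝ) ≤ K' := by exact_mod_cast hK'
  have hK0 : (0 : ℝ) < K' := by linarith
  have hx0 : 0 < x := by linarith
  set a : ℝ := K' * x / N with ha
  set e : ℝ := ρ * a with he
  have ha1 : 1 ≤ a := by
    rw [ha, le_div_iff₀ hN0]
    nlinarith
  have hae : a ≤ e := by rw [he]; nlinarith
  have he1 : 1 ≤ e := ha1.trans hae
  have hsub : A.MF a ⊆ A.MF e := by
    intro z hz
    rw [AB.mem_MF] at hz ⊢
    exact ⟨hz.1, hz.2.trans hae⟩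
  have hcard : F.card ≤ (A.MF e \ A.MF a).card := by
    have hf : ∀ z ∈ F, ∃ w : El, (ml b c P w = sm K z ∧ 0 < nm b c w) ∧
        A.rp w ∈ A.MF e \ A.MF a := by
      intro z hz
      obtain ⟨h1, h2, h3, w, h4, h5⟩ := hF z hz
      have hz0 := A.wd_nm z h1
      have h5' : (N : ℝ) * (nm b c w : ℝ) = K' * (nm b c z : ℝ) := by exact_mod_cast h5
      have hz0' : (0 : ℝ) < (nm b c z : ℝ) := by exact_mod_cast hz0
      have hw0' : (0 : ℝ) < (nm b c w : ℝ) := by
        have : 0 < (N : ℝ) * (nm b c w : ℝ) := by rw [h5']; positivity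
        exact pos_of_mul_pos_right this hN0.le
      have hw0 : 0 < nm b c w := by exact_mod_cast hw0'
      have hwe : (nm b c w : ℝ) = K' * (nm b c z : ℝ) / N := by
        rw [eq_div_iff hN0.ne', mul_comm]
        exact h5'
      refine ⟨w, ⟨h4, hw0⟩, ?_⟩
      rw [Finset.mem_sdiff, AB.mem_MF, AB.mem_MF, AB.rp_nm A hw0]
      refine ⟨⟨A.rp_wd w hw0, ?_⟩, fun hc => ?_⟩
      · rw [hwe, he, ha, div_le_iff₀ hN0]
        have : ρ * (K' * x / N) * N = K' * (ρ * x) := by field_simp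
        rw [this]
        exact mul_le_mul_of_nonneg_left h3 hK0.le
      · have h6 := hc.2
        rw [hwe, ha, div_le_div_iff_of_pos_right hN0] at h6
        have := le_of_mul_le_mul_left h6 hK0
        linarith
    choose! f hf1 hf2 using hf
    apply Finset.card_le_card_of_injOn (fun z => A.rp (f z))
    · intro z hz
      exact hf2 z hz
    · intro z hz z' hz' hzz
      have hw := (hf1 z hz).2
      have hw' := (hf1 z' hz').2
      have e1 : A.rp (ml b c P (f z)) = A.rp (ml b c P (f z')) := by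
        have g1 : A.rp (ml b c (A.rp (f z)) P) = A.rp (ml b c (f z) P) := AB.rp_ml_rp A hw hP
        have g2 : A.rp (ml b c (A.rp (f z')) P) = A.rp (ml b c (f z') P) :=
          AB.rp_ml_rp A hw' hP
        have hzz' : A.rp (f z) = A.rp (f z') := hzz
        rw [ml_comm b c P (f z), ml_comm b c P (f z'), ← g1, ← g2, hzz']
      rw [(hf1 z hz).1, (hf1 z' hz').1] at e1
      rw [A.rp_self _ ((A.wd_sm _ _ hK).2 (hF z hz).1),
        A.rp_self _ ((A.wd_sm _ _ hK).2 (hF z' hz').1)] at e1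
      exact ta_sm_inj hK e1
  have hc2 : ((A.MF e \ A.MF a).card : ℝ) = (A.MF e).card - (A.MF a).card := by
    rw [Finset.card_sdiff_of_subset hsub, Nat.cast_sub (Finset.card_le_card hsub)]
  have h1 := (abs_le.mp (h e he1)).2
  have h2 := (abs_le.mp (h a ha1)).1
  have hsa : Real.sqrt a = Real.sqrt (K' * x) / Real.sqrt N := by
    rw [ha, Real.sqrt_div (by positivity)]
  have hsb : Real.sqrt e ≤ 2 * Real.sqrt a := by
    rw [Real.sqrt_le_iff]
    refine ⟨by positivity, ?_⟩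
    rw [mul_pow, Real.sq_sqrt (by linarith), he]
    nlinarith
  have hmain : κ * e - κ * a = κ * (ρ - 1) * (K' * x) / N := by
    rw [he, ha]; ring
  have hA' : (F.card : ℝ) ≤ (A.MF e).card - (A.MF a).card := by
    rw [← hc2]; exact_mod_cast hcard
  have hsa0 : 0 ≤ Real.sqrt a := Real.sqrt_nonneg _
  rw [← hsa, ← hmain]
  nlinarith

section
variable {b c : ℤ} (A : Ang b c) (hs : ¬ IsSquare (dsc b c)) {M : ℕ} {T : El → Prop}
include hs

open Classical in
theorem tk_ann_pr (hT : Cls A M T) : ∃ C : ℝ, 1 ≤ C ∧ ∀ (x ρ : ℝ) (B : Finset ℕ) (k₀ : ℕ) (r : El)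
    (π : ℕ → El), TP A M B k₀ r π → 1 ≤ x → 1 < ρ → ρ ≤ 2 → x ^ (-(1 / 16) : ℝ) ≤ ρ - 1 →
    (∀ p ∈ B, (p : ℝ) ≤ x ^ (1 / 4 : ℝ)) →
      ∑ z ∈ (PS A M T (ρ * x)).filter (fun z => x < (nm b c z : ℝ)), omB π B z ^ 2 ≤
        C * (ρ - 1) * x * (rs B + 1) ^ 2 := by
  obtain ⟨κ₁, C₁, hκ₁, hC₁, h⟩ := ta_mult A
  have hM1 : (1 : ℝ) ≤ M := by exact_mod_cast hT.M1
  have hM0 : (0 : ℝ) < M := by linarith
  set κ : ℝ := κ₁ * M ^ 2 with hκ
  set C : ℝ := C₁ * M with hCdef
  have hκ0 : 0 < κ := by positivity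
  have hC0 : 0 < C := by positivity
  refine ⟨κ + 6 * C + 1, by linarith, fun x ρ B k₀ r π hB hx hρ hρ2 hxρ hb => ?_⟩
  have hx0 : 0 < x := by linarith
  have hk1 := hB.k1
  have hk1' : (1 : ℝ) ≤ k₀ := by exact_mod_cast hk1
  have hkM : (k₀ : ℝ) ≤ M := by exact_mod_cast Nat.le_of_dvd (by have := hT.M1; omega) hB.kM
  set F := (PS A M T (ρ * x)).filter (fun z => x < (nm b c z : ℝ)) with hFdef
  have hFm : ∀ z ∈ F, A.wd z ∧ x < (nm b c z : ℝ) ∧ (nm b c z : ℝ) ≤ ρ * x := by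
    intro z hz
    rw [hFdef, Finset.mem_filter, mem_PS] at hz
    exact ⟨hz.1.1, hz.2, hz.1.2.1⟩
  have hnmπ : ∀ p ∈ B, 0 < nm b c (π p) := fun p hp => A.wd_nm _ (hB.wd p hp)
  -- expansion of the square
  have e1 : ∀ z, omB π B z ^ 2 =
      ∑ p ∈ B, ∑ q ∈ B, (if Dv p (π p) z ∧ Dv q (π q) z then (1 : ℝ) else 0) := by
    intro z
    unfold omB
    rw [sq, Finset.card_filter]
    push_cast
    rw [Finset.sum_mul]
    refine Finset.sum_congr rfl fun p _ => ?_
    rw [Finset.mul_sum]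
    refine Finset.sum_congr rfl fun q _ => ?_
    by_cases h1 : Dv p (π p) z <;> by_cases h2 : Dv q (π q) z <;> simp [h1, h2]
  have e2 : ∑ z ∈ F, omB π B z ^ 2 =
      ∑ p ∈ B, ∑ q ∈ B, ((F.filter (fun z => Dv p (π p) z ∧ Dv q (π q) z)).card : ℝ) := by
    rw [Finset.sum_congr rfl (fun z _ => e1 z), Finset.sum_comm]
    refine Finset.sum_congr rfl fun p _ => ?_
    rw [Finset.sum_comm]
    refine Finset.sum_congr rfl fun q _ => ?_
    rw [Finset.card_filter]
    push_cast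
    rfl
  rw [e2]
  have hp0 : ∀ p ∈ B, (0 : ℝ) < p := fun p hp => by exact_mod_cast (hB.prime p hp).pos
  have hx4 : x ^ (1 / 4 : ℝ) * x ^ (1 / 4 : ℝ) ≤ x := by
    rw [← Real.rpow_add hx0]
    calc x ^ (1 / 4 + 1 / 4 : ℝ) ≤ x ^ (1 : ℝ) := Real.rpow_le_rpow_of_exponent_le hx (by norm_num)
      _ = x := Real.rpow_one x
  have hx41 : x ^ (1 / 4 : ℝ) ≤ x := by
    calc x ^ (1 / 4 : ℝ) ≤ x ^ (1 : ℝ) := Real.rpow_le_rpow_of_exponent_le hx (by norm_num)
      _ = x := Real.rpow_one x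
  have hρ1 : 0 < ρ - 1 := by linarith
  have hsx : 0 ≤ Real.sqrt x := Real.sqrt_nonneg x
  -- the single terms
  have e3 : ∀ p ∈ B, ∀ q ∈ B, ((F.filter (fun z => Dv p (π p) z ∧ Dv q (π q) z)).card : ℝ) ≤
      (if p = q then κ * (ρ - 1) * x * (1 / (p : ℝ)) + C * Real.sqrt x * (1 / Real.sqrt p)
        else 0) + (κ * (ρ - 1) * x * ((1 / (p : ℝ)) * (1 / (q : ℝ))) +
          C * Real.sqrt x * ((1 / Real.sqrt p) * (1 / Real.sqrt q))) := by
    intro p hp q hq
    have hpp := hp0 p hp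
    have hqp := hp0 q hq
    have hspos : 0 ≤ κ * (ρ - 1) * x * ((1 / (p : ℝ)) * (1 / (q : ℝ))) +
          C * Real.sqrt x * ((1 / Real.sqrt p) * (1 / Real.sqrt q)) := by positivity
    by_cases hpq : p = q
    · subst hpq
      rw [if_pos rfl]
      have h1 := h x ρ (π p) k₀ k₀ p (F.filter (fun z => Dv p (π p) z ∧ Dv p (π p) z)) hx hρ hρ2
        (hnmπ p hp) hk1 hk1 (hB.prime p hp).one_lt.le ((hb p hp).trans hx41) (by
          intro z hz
          rw [Finset.mem_filter] at hz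
          obtain ⟨w, -, g2, g3⟩ := Dv_cof A hB hp hz.2.1
          exact ⟨(hFm z hz.1).1, (hFm z hz.1).2.1, (hFm z hz.1).2.2, w, g2, g3⟩)
      have h2 : κ₁ * (ρ - 1) * (k₀ * x) / p ≤ κ * (ρ - 1) * x * (1 / (p : ℝ)) := by
        have g1 : (k₀ : ℝ) ≤ M ^ 2 := by nlinarith
        calc κ₁ * (ρ - 1) * (k₀ * x) / p = k₀ * (κ₁ * (ρ - 1) * x / p) := by ring
          _ ≤ (M : ℝ) ^ 2 * (κ₁ * (ρ - 1) * x / p) :=
              mul_le_mul_of_nonneg_right g1 (by positivity)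
          _ = κ * (ρ - 1) * x * (1 / (p : ℝ)) := by rw [hκ]; ring
      have h3 : C₁ * (Real.sqrt (k₀ * x) / Real.sqrt p) ≤
          C * Real.sqrt x * (1 / Real.sqrt p) := by
        have g1 : Real.sqrt (k₀ * x) ≤ M * Real.sqrt x := by
          rw [Real.sqrt_le_iff]
          refine ⟨by positivity, ?_⟩
          rw [mul_pow, Real.sq_sqrt hx0.le]
          apply mul_le_mul_of_nonneg_right _ hx0.le
          nlinarith
        calc C₁ * (Real.sqrt (k₀ * x) / Real.sqrt p) ≤ C₁ * ((M * Real.sqrt x) / Real.sqrt p) := by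
              apply mul_le_mul_of_nonneg_left _ (by linarith)
              exact div_le_div_of_nonneg_right g1 (Real.sqrt_nonneg _)
          _ = C * Real.sqrt x * (1 / Real.sqrt p) := by rw [hCdef]; ring
      linarith
    · rw [if_neg hpq, zero_add]
      have hnml : 0 < nm b c (ml b c (π p) (π q)) := by
        rw [nm_ml]
        exact mul_pos (hnmπ p hp) (hnmπ q hq)
      have h1 := h x ρ (ml b c (π p) (π q)) (k₀ * k₀) (k₀ * k₀) (p * q)
        (F.filter (fun z => Dv p (π p) z ∧ Dv q (π q) z)) hx hρ hρ2 hnml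
        (Nat.mul_le_mul hk1 hk1) (Nat.mul_le_mul hk1 hk1)
        (Nat.mul_le_mul (hB.prime p hp).one_lt.le (hB.prime q hq).one_lt.le) (by
          push_cast
          exact (mul_le_mul (hb p hp) (hb q hq) hqp.le (by positivity)).trans hx4) (by
          intro z hz
          rw [Finset.mem_filter] at hz
          obtain ⟨w, -, g2, g3⟩ := Dv_cof A hB hp hz.2.1
          -- `q` divides the cofactor
          have g4 : Dv q (π q) (ml b c (π p) w) := by
            rw [g2]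
            unfold Dv
            have : dt (sm k₀ z) (π q) = (k₀ : ℤ) * dt z (π q) := by
              unfold dt sm
              ring
            rw [this]
            exact Dvd.dvd.mul_left hz.2.2 _
          rw [Dv_ml A hB hq] at g4
          have g5 : Dv q (π q) w := by
            rcases g4 with g4 | g4
            · exfalso
              have g6 : (q : ℤ) ∣ nm b c (π p) := (Dv_nm A hB hq (π p)).2 (Or.inl g4)
              rw [hB.nm p hp] at g6
              have g7 : q ∣ k₀ * p := by exact_mod_cast g6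
              rcases (hB.prime q hq).dvd_mul.mp g7 with g8 | g8
              · exact ndk A hB hq g8
              · exact hpq ((Nat.prime_dvd_prime_iff_eq (hB.prime q hq) (hB.prime p hp)).mp g8).symm
            · exact g4
          obtain ⟨w₂, -, g6, g7⟩ := Dv_cof A hB hq g5
          refine ⟨(hFm z hz.1).1, (hFm z hz.1).2.1, (hFm z hz.1).2.2, w₂, ?_, ?_⟩
          · rw [ml_assoc, g6, ta_ml_sm, g2]
            unfold sm
            push_cast
            ext
            · simp only; ring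
            · simp only; ring
          · push_cast
            calc (p : ℤ) * q * nm b c w₂ = p * (q * nm b c w₂) := by ring
              _ = p * (k₀ * nm b c w) := by rw [g7]
              _ = k₀ * (p * nm b c w) := by ring
              _ = (k₀ : ℤ) * k₀ * nm b c z := by rw [g3]; ring)
      push_cast at h1
      rw [Real.sqrt_mul hpp.le] at h1
      have h2 : κ₁ * (ρ - 1) * (k₀ * k₀ * x) / (p * q) ≤
          κ * (ρ - 1) * x * ((1 / (p : ℝ)) * (1 / (q : ℝ))) := by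
        have g1 : (k₀ : ℝ) * k₀ ≤ M ^ 2 := by nlinarith
        calc κ₁ * (ρ - 1) * (k₀ * k₀ * x) / (p * q) =
              (k₀ * k₀ : ℝ) * (κ₁ * (ρ - 1) * x / (p * q)) := by ring
          _ ≤ (M : ℝ) ^ 2 * (κ₁ * (ρ - 1) * x / (p * q)) :=
              mul_le_mul_of_nonneg_right g1 (by positivity)
          _ = κ * (ρ - 1) * x * ((1 / (p : ℝ)) * (1 / (q : ℝ))) := by
              rw [hκ, one_div_mul_one_div]; ring
      have h3 : C₁ * (Real.sqrt (k₀ * k₀ * x) / (Real.sqrt p * Real.sqrt q)) ≤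
          C * Real.sqrt x * ((1 / Real.sqrt p) * (1 / Real.sqrt q)) := by
        have g1 : Real.sqrt (k₀ * k₀ * x) ≤ M * Real.sqrt x := by
          rw [Real.sqrt_le_iff]
          refine ⟨by positivity, ?_⟩
          rw [mul_pow, Real.sq_sqrt hx0.le]
          apply mul_le_mul_of_nonneg_right _ hx0.le
          nlinarith
        calc C₁ * (Real.sqrt (k₀ * k₀ * x) / (Real.sqrt p * Real.sqrt q)) ≤
              C₁ * ((M * Real.sqrt x) / (Real.sqrt p * Real.sqrt q)) := by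
              apply mul_le_mul_of_nonneg_left _ (by linarith)
              exact div_le_div_of_nonneg_right g1 (by positivity)
          _ = C * Real.sqrt x * ((1 / Real.sqrt p) * (1 / Real.sqrt q)) := by
              rw [hCdef, one_div_mul_one_div]; ring
      linarith
  set s := ∑ p ∈ B, 1 / Real.sqrt (p : ℝ) with hsdef
  have hs0 : 0 ≤ s := Finset.sum_nonneg fun p _ => by positivity
  have hrs0 : 0 ≤ rs B := Finset.sum_nonneg fun p _ => by positivity
  have hs1 := tka_sqrt x hx B (fun p hp => ⟨hB.prime p hp, hB.m4 p hp⟩) hb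
  rw [← hsdef] at hs1
  have e4 : ∑ p ∈ B, ∑ q ∈ B, ((if p = q then κ * (ρ - 1) * x * (1 / (p : ℝ)) +
        C * Real.sqrt x * (1 / Real.sqrt p) else 0) +
        (κ * (ρ - 1) * x * ((1 / (p : ℝ)) * (1 / (q : ℝ))) +
          C * Real.sqrt x * ((1 / Real.sqrt p) * (1 / Real.sqrt q)))) =
      κ * (ρ - 1) * x * (rs B + rs B ^ 2) + C * Real.sqrt x * (s + s ^ 2) := by
    have h1 : ∀ p ∈ B, ∑ q ∈ B, ((if p = q then κ * (ρ - 1) * x * (1 / (p : ℝ)) +
        C * Real.sqrt x * (1 / Real.sqrt p) else 0) +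
        (κ * (ρ - 1) * x * ((1 / (p : ℝ)) * (1 / (q : ℝ))) +
          C * Real.sqrt x * ((1 / Real.sqrt p) * (1 / Real.sqrt q)))) =
        (κ * (ρ - 1) * x * (1 / (p : ℝ)) + C * Real.sqrt x * (1 / Real.sqrt p)) +
        (κ * (ρ - 1) * x * rs B * (1 / (p : ℝ)) +
          C * Real.sqrt x * s * (1 / Real.sqrt p)) := by
      intro p hp
      rw [Finset.sum_add_distrib, Finset.sum_add_distrib, Finset.sum_ite_eq, if_pos hp]
      congr 2
      · rw [← Finset.mul_sum, ← Finset.mul_sum]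
        unfold rs
        ring
      · rw [← Finset.mul_sum, ← Finset.mul_sum, ← hsdef]
        ring
    rw [Finset.sum_congr rfl h1]
    simp only [Finset.sum_add_distrib, ← Finset.mul_sum]
    rw [← hsdef]
    have : ∑ p ∈ B, 1 / (p : ℝ) = rs B := rfl
    rw [this]
    ring
  refine (Finset.sum_le_sum fun p hp => Finset.sum_le_sum fun q hq => e3 p hp q hq).trans ?_
  rw [e4]
  have hx8 : x ^ (1 / 8 : ℝ) ≤ x ^ (1 / 4 : ℝ) :=
    Real.rpow_le_rpow_of_exponent_le hx (by norm_num)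
  have hx88 : x ^ (1 / 8 : ℝ) * x ^ (1 / 8 : ℝ) = x ^ (1 / 4 : ℝ) := by
    rw [← Real.rpow_add hx0]; norm_num
  have hss : s + s ^ 2 ≤ 6 * x ^ (1 / 4 : ℝ) := by nlinarith
  have herr : Real.sqrt x * x ^ (1 / 4 : ℝ) ≤ (ρ - 1) * x := by
    rw [Real.sqrt_eq_rpow, ← Real.rpow_add hx0]
    calc x ^ (1 / 2 + 1 / 4 : ℝ) ≤ x ^ (-(1 / 16) + 1 : ℝ) :=
          Real.rpow_le_rpow_of_exponent_le hx (by norm_num)
      _ = x ^ (-(1 / 16) : ℝ) * x := by rw [Real.rpow_add hx0, Real.rpow_one]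
      _ ≤ (ρ - 1) * x := mul_le_mul_of_nonneg_right hxρ hx0.le
  have hT0 : 0 ≤ (ρ - 1) * x * (rs B + 1) ^ 2 := by positivity
  have hT1 : κ * (ρ - 1) * x * (rs B + rs B ^ 2) ≤ κ * ((ρ - 1) * x * (rs B + 1) ^ 2) := by
    have h1 : rs B + rs B ^ 2 ≤ (rs B + 1) ^ 2 := by
      have : (rs B + 1) ^ 2 - (rs B + rs B ^ 2) = rs B + 1 := by ring
      linarith
    have h2 : 0 ≤ (ρ - 1) * x := by positivity
    calc κ * (ρ - 1) * x * (rs B + rs B ^ 2) =
          κ * (((ρ - 1) * x) * (rs B + rs B ^ 2)) := by ring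
      _ ≤ κ * (((ρ - 1) * x) * (rs B + 1) ^ 2) :=
          mul_le_mul_of_nonneg_left (mul_le_mul_of_nonneg_left h1 h2) hκ0.le
      _ = _ := by ring
  have hT2 : C * Real.sqrt x * (s + s ^ 2) ≤ 6 * C * ((ρ - 1) * x * (rs B + 1) ^ 2) := by
    have h1 : (1 : ℝ) ≤ (rs B + 1) ^ 2 := by
      have : (rs B + 1) ^ 2 - 1 = rs B * (rs B + 2) := by ring
      have h' : 0 ≤ rs B * (rs B + 2) := by positivity
      linarith
    calc C * Real.sqrt x * (s + s ^ 2) ≤ C * Real.sqrt x * (6 * x ^ (1 / 4 : ℝ)) := by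
          apply mul_le_mul_of_nonneg_left hss (by positivity)
      _ = 6 * C * (Real.sqrt x * x ^ (1 / 4 : ℝ)) := by ring
      _ ≤ 6 * C * ((ρ - 1) * x) := by
          apply mul_le_mul_of_nonneg_left herr (by positivity)
      _ = 6 * C * ((ρ - 1) * x * 1) := by ring
      _ ≤ 6 * C * ((ρ - 1) * x * (rs B + 1) ^ 2) := by
          apply mul_le_mul_of_nonneg_left _ (by positivity)
          apply mul_le_mul_of_nonneg_left h1 (by positivity)
  calc _ ≤ κ * ((ρ - 1) * x * (rs B + 1) ^ 2) + 6 * C * ((ρ - 1) * x * (rs B + 1) ^ 2) :=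
        add_le_add hT1 hT2
    _ ≤ (κ + 6 * C + 1) * ((ρ - 1) * x * (rs B + 1) ^ 2) := by
        have : (κ + 6 * C + 1) * ((ρ - 1) * x * (rs B + 1) ^ 2) =
          κ * ((ρ - 1) * x * (rs B + 1) ^ 2) + 6 * C * ((ρ - 1) * x * (rs B + 1) ^ 2) +
            ((ρ - 1) * x * (rs B + 1) ^ 2) := by ring
        linarith
    _ = _ := by ring

end

theorem tk_ann : type_of% @tk_ann_pr := @tk_ann_pr

end Pool.Agent.AQM
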