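import Pool.Agent.Lib_helper39.AQM.Defs
import Pool.Agent.Lib_helper39.AQM.AB
import Pool.Agent.Lib_helper39.MQX.ALG
import Pool.Agent.Lib_helper39.MQX.SBA
import Pool.Agent.Lib_helper39.MQX.SBB
import Pool.Agent.Lib_helper39.MQX.SBC
import Pool.Agent.Lib_helper39.MQX.LSV
import Pool.Agent.Lib_helper39.MQX.PAR
import Pool.Agent.Lib_helper39.MQX.FEJ
import Pool.Agent.Lib_helper39.MQX.EXP
import Pool.Agent.Lib_helper39.AQMF.AL1

/-! block TC of AQM, proved by helper85 -/

/-! AQM, block TC: `tk_cop` (port of T2F/TKA.lean). Cites W: `PS_card`, `mem_PF`. -/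

set_option autoImplicit false

namespace Pool.Agent.AQM

open Pool.Agent.MQ Pool.Agent.T2 Filter Topology MeasureTheory

theorem tc_pi {y : ℝ} (hy : 2 ≤ y) : (Nat.primeCounting ⌊y⌋₊ : ℝ) ≤ 5 * y / Real.log y := by
  have hy1 : 1 < y := by linarith
  have hy0 : 0 < y := by linarith
  have h1 := Chebyshev.pi_le_log4_mul_div hy1
  have hl : 0 < Real.log y := Real.log_pos hy1
  have h2 : Real.log (Real.sqrt y) = Real.log y / 2 := Real.log_sqrt hy0.le
  rw [h2] at h1
  have h3 : Real.log y ≤ 2 * Real.sqrt y := by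
    have h4 : Real.log (Real.sqrt y) ≤ Real.sqrt y := by
      have := Real.log_le_sub_one_of_pos (Real.sqrt_pos.mpr hy0)
      linarith
    linarith
  have h5 : Real.sqrt y ≤ 2 * y / Real.log y := by
    rw [le_div_iff₀ hl]
    have h6 : Real.sqrt y * Real.sqrt y = y := Real.mul_self_sqrt hy0.le
    nlinarith [Real.sqrt_nonneg y]
  have h7 : Real.log 4 < 1.4 := by
    have : Real.log 4 = 2 * Real.log 2 := by
      rw [show (4 : ℝ) = 2 ^ 2 by norm_num, Real.log_pow]; norm_num
    rw [this]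
    have := Real.log_two_lt_d9
    linarith
  have h8 : Real.log 4 * y / (Real.log y / 2) ≤ 2.8 * y / Real.log y := by
    have : Real.log 4 * y / (Real.log y / 2) = (2 * Real.log 4 * y) / Real.log y := by
      field_simp
    rw [this]
    apply div_le_div_of_nonneg_right _ hl.le
    nlinarith
  have h9 : 2.8 * y / Real.log y + 2 * y / Real.log y ≤ 5 * y / Real.log y := by
    rw [← add_div]
    apply div_le_div_of_nonneg_right _ hl.le
    linarith
  linarith

open Classical in
theorem tk_cop_pr {b c : ℤ} (A : Ang b c) : ∃ C : ℝ, 1 ≤ C ∧ ∀ x P : ℝ, 1 ≤ x → 2 ≤ P →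
    ∑ w ∈ PF A (2 * x), (((Finset.range (⌊x⌋₊ + 1)).filter (fun p : ℕ => p.Prime ∧ P < (p : ℝ) ∧
      (p : ℝ) ^ 2 * nm b c w ≤ 2 * x)).card : ℝ) ^ 2 ≤ C * x / Real.log P := by
  obtain ⟨C, hC, h⟩ := PS_card A
  refine ⟨4000 * C, by linarith, fun x P hx hP => ?_⟩
  have hx0 : 0 < x := by linarith
  have hP0 : 0 < P := by linarith
  have hlP : 0 < Real.log P := Real.log_pos (by linarith)
  have hl2 : 0 < Real.log 2 := Real.log_pos (by norm_num)
  have hl2' := Real.log_two_gt_d9
  have hl2'' := Real.log_two_lt_d9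
  set cn : El → ℝ := fun w => (((Finset.range (⌊x⌋₊ + 1)).filter (fun p : ℕ => p.Prime ∧
    P < (p : ℝ) ∧ (p : ℝ) ^ 2 * nm b c w ≤ 2 * x)).card : ℝ) with hcn
  set j₀ : ℕ := ⌈Real.log P / Real.log 2⌉₊ with hj₀
  have hj1 : 1 ≤ j₀ := by
    rw [hj₀, Nat.one_le_ceil_iff]
    positivity
  have hj2 : Real.log P / Real.log 2 ≤ j₀ := Nat.le_ceil _
  set N : ℕ := Nat.log 2 ⌊2 * x⌋₊ + 1 with hN
  -- the bound for one element
  have key : ∀ w ∈ PF A (2 * x), cn w ^ 2 ≤ ∑ i ∈ Finset.Ico j₀ N,
      (if (nm b c w : ℝ) ≤ 2 * x / 2 ^ i then 500 * 2 ^ i * ((i : ℝ) ^ 2)⁻¹ else 0) := by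
    intro w hw
    rw [mem_PF] at hw
    have hn1 : 1 ≤ nm b c w := A.wd_nm _ hw.1
    have hn1' : (1 : ℝ) ≤ nm b c w := by exact_mod_cast hn1
    have hn0 : (0 : ℝ) < nm b c w := by linarith
    by_cases hc : (Finset.range (⌊x⌋₊ + 1)).filter (fun p : ℕ => p.Prime ∧
      P < (p : ℝ) ∧ (p : ℝ) ^ 2 * nm b c w ≤ 2 * x) = ∅
    · have : cn w = 0 := by rw [hcn]; simp only [hc, Finset.card_empty, Nat.cast_zero]
      rw [this]
      simp only [ne_eq, OfNat.ofNat_ne_zero, not_false_eq_true, zero_pow]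
      apply Finset.sum_nonneg
      intro i _
      split_ifs <;> positivity
    · obtain ⟨p, hp⟩ := Finset.nonempty_iff_ne_empty.mpr hc
      rw [Finset.mem_filter] at hp
      obtain ⟨-, hp1, hp2, hp3⟩ := hp
      set T : ℝ := 2 * x / nm b c w with hT
      have hTP : P ^ 2 < T := by
        rw [hT, lt_div_iff₀ hn0]
        have : P ^ 2 < (p : ℝ) ^ 2 := by nlinarith
        nlinarith
      have hT4 : 4 < T := by nlinarith
      have hT0 : 0 < T := by linarith
      have hsT : 2 ≤ Real.sqrt T := by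
        rw [Real.le_sqrt (by norm_num)]
        · linarith
        · exact hT0.le
      have hlT : 0 < Real.log T := Real.log_pos (by linarith)
      -- number of primes
      have hcard : cn w ≤ 5 * Real.sqrt T / Real.log (Real.sqrt T) := by
        refine le_trans ?_ (tc_pi hsT)
        rw [hcn]
        simp only
        rw [Nat.primeCounting, Nat.primeCounting', Nat.count_eq_card_filter_range]
        apply Nat.cast_le.mpr
        apply Finset.card_le_card
        intro q hq
        rw [Finset.mem_filter] at hq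
        obtain ⟨-, hq1, hq2, hq3⟩ := hq
        rw [Finset.mem_filter, Finset.mem_range]
        refine ⟨?_, hq1⟩
        rw [Nat.lt_succ_iff]
        apply Nat.le_floor
        rw [Real.le_sqrt (by positivity)]
        · rw [hT, le_div_iff₀ hn0]
          exact hq3
        · exact hT0.le
      have hcn0 : 0 ≤ cn w := by rw [hcn]; positivity
      set i : ℕ := Nat.log 2 ⌊T⌋₊ with hi
      have hTf : ⌊T⌋₊ ≠ 0 := by
        have : 4 ≤ ⌊T⌋₊ := Nat.le_floor (by push_cast; linarith)
        omega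
      have hi1 : (2 : ℝ) ^ i ≤ T := by
        have h1 : 2 ^ i ≤ ⌊T⌋₊ := Nat.pow_log_le_self 2 hTf
        have h2 : ((2 ^ i : ℕ) : ℝ) ≤ (⌊T⌋₊ : ℝ) := by exact_mod_cast h1
        have h3 := Nat.floor_le hT0.le
        push_cast at h2
        linarith
      have hi2 : T < (2 : ℝ) ^ (i + 1) := by
        have h1 : ⌊T⌋₊ < 2 ^ (i + 1) := Nat.lt_pow_succ_log_self (by norm_num) _
        have h2 : T < ⌊T⌋₊ + 1 := Nat.lt_floor_add_one T
        have h3 : ((⌊T⌋₊ + 1 : ℕ) : ℝ) ≤ ((2 ^ (i + 1) : ℕ) : ℝ) := by exact_mod_cast h1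
        push_cast at h3
        linarith
      have hlogi : Real.log T < (i + 1) * Real.log 2 := by
        have := Real.log_lt_log hT0 hi2
        rw [Real.log_pow] at this
        push_cast at this
        exact this
      have hlogi2 : i * Real.log 2 ≤ Real.log T := by
        have := Real.log_le_log (by positivity) hi1
        rw [Real.log_pow] at this
        exact this
      have hlogP : 2 * Real.log P < Real.log T := by
        have := Real.log_lt_log (by positivity) hTP
        rw [Real.log_pow] at this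
        push_cast at this
        exact this
      have hlP2 : Real.log 2 ≤ Real.log P := Real.log_le_log (by norm_num) hP
      have hij : j₀ ≤ i := by
        rw [hj₀, Nat.ceil_le, div_le_iff₀ hl2]
        nlinarith
      have hi0 : (1 : ℝ) ≤ i := by exact_mod_cast hj1.trans hij
      have hiN : i < N := by
        rw [hN, Nat.lt_succ_iff, hi]
        apply Nat.log_mono_right
        apply Nat.floor_mono
        rw [hT]
        exact div_le_self (by positivity) hn1'
      have hfin : cn w ^ 2 ≤ 500 * 2 ^ i * ((i : ℝ) ^ 2)⁻¹ := by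
        have h1 : cn w ^ 2 ≤ (5 * Real.sqrt T / Real.log (Real.sqrt T)) ^ 2 :=
          pow_le_pow_left₀ hcn0 hcard 2
        have h2 : (5 * Real.sqrt T / Real.log (Real.sqrt T)) ^ 2 = 100 * T / Real.log T ^ 2 := by
          rw [div_pow, mul_pow, Real.sq_sqrt hT0.le, Real.log_sqrt hT0.le]
          field_simp
          ring
        rw [h2] at h1
        refine h1.trans ?_
        rw [div_le_iff₀ (by positivity)]
        have h3 : (i * Real.log 2) ^ 2 ≤ Real.log T ^ 2 := pow_le_pow_left₀ (by positivity) hlogi2 2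
        have h4 : (0.4 : ℝ) * (i : ℝ) ^ 2 ≤ Real.log T ^ 2 := by
          have : (0.4 : ℝ) ≤ Real.log 2 ^ 2 := by nlinarith
          nlinarith [sq_nonneg (i : ℝ)]
        have h5 : (0 : ℝ) < (i : ℝ) ^ 2 := by positivity
        have h6 : (0.4 : ℝ) ≤ ((i : ℝ) ^ 2)⁻¹ * Real.log T ^ 2 := by
          rw [inv_mul_eq_div, le_div_iff₀ h5]
          exact h4
        have h7 : 100 * T ≤ 500 * 2 ^ i * 0.4 := by
          rw [pow_succ] at hi2
          linarith
        calc 100 * T ≤ 500 * 2 ^ i * 0.4 := h7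
          _ ≤ 500 * 2 ^ i * (((i : ℝ) ^ 2)⁻¹ * Real.log T ^ 2) :=
              mul_le_mul_of_nonneg_left h6 (by positivity)
          _ = 500 * 2 ^ i * ((i : ℝ) ^ 2)⁻¹ * Real.log T ^ 2 := by ring
      refine hfin.trans ?_
      have hmem : i ∈ Finset.Ico j₀ N := Finset.mem_Ico.mpr ⟨hij, hiN⟩
      have hle : (nm b c w : ℝ) ≤ 2 * x / 2 ^ i := by
        rw [le_div_iff₀ (by positivity)]
        rw [hT, le_div_iff₀ hn0] at hi1
        linarith
      refine le_trans (le_of_eq ?_) (Finset.single_le_sum (f := fun i : ℕ =>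
        (if (nm b c w : ℝ) ≤ 2 * x / 2 ^ i then 500 * 2 ^ i * ((i : ℝ) ^ 2)⁻¹ else 0))
        (fun i _ => by split_ifs <;> positivity) hmem)
      simp only [if_pos hle]
  calc ∑ w ∈ PF A (2 * x), cn w ^ 2 ≤ ∑ w ∈ PF A (2 * x), ∑ i ∈ Finset.Ico j₀ N,
        (if (nm b c w : ℝ) ≤ 2 * x / 2 ^ i then 500 * 2 ^ i * ((i : ℝ) ^ 2)⁻¹ else 0) :=
        Finset.sum_le_sum key
    _ = ∑ i ∈ Finset.Ico j₀ N, ∑ w ∈ PF A (2 * x),
        (if (nm b c w : ℝ) ≤ 2 * x / 2 ^ i then 500 * 2 ^ i * ((i : ℝ) ^ 2)⁻¹ else 0) :=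
        Finset.sum_comm
    _ ≤ ∑ i ∈ Finset.Ico j₀ N, (1000 * C * x) * ((i : ℝ) ^ 2)⁻¹ := by
        apply Finset.sum_le_sum
        intro i _
        rw [← Finset.sum_filter, Finset.sum_const, nsmul_eq_mul]
        have h1 : (((PF A (2 * x)).filter (fun w => (nm b c w : ℝ) ≤ 2 * x / 2 ^ i)).card : ℝ) ≤
            C * (2 * x / 2 ^ i) := by
          refine le_trans ?_ (h 1 (fun _ => True) (2 * x / 2 ^ i) (by positivity))
          apply Nat.cast_le.mpr
          apply Finset.card_le_card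
          intro w hw
          rw [Finset.mem_filter, mem_PF] at hw
          change w ∈ PF A (2 * x / 2 ^ i)
          rw [mem_PF]
          exact ⟨hw.1.1, hw.2, hw.1.2.2⟩
        have h2 : (0 : ℝ) < 2 ^ i := by positivity
        calc _ ≤ (C * (2 * x / 2 ^ i)) * (500 * 2 ^ i * ((i : ℝ) ^ 2)⁻¹) :=
              mul_le_mul_of_nonneg_right h1 (by positivity)
          _ = (1000 * C * x) * ((i : ℝ) ^ 2)⁻¹ := by
              field_simp
              ring
    _ = (1000 * C * x) * ∑ i ∈ Finset.Ico j₀ N, ((i : ℝ) ^ 2)⁻¹ := by rw [Finset.mul_sum]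
    _ ≤ (1000 * C * x) * (2 / j₀) := by
        apply mul_le_mul_of_nonneg_left _ (by positivity)
        have h1 := sum_Ioo_inv_sq_le (α := ℝ) (j₀ - 1) N
        have h2 : Finset.Ioo (j₀ - 1) N = Finset.Ico j₀ N := by
          ext i
          simp only [Finset.mem_Ioo, Finset.mem_Ico]
          omega
        rw [h2] at h1
        have h3 : ((j₀ - 1 : ℕ) : ℝ) + 1 = j₀ := by
          rw [Nat.cast_sub hj1]; push_cast; ring
        rw [h3] at h1
        exact h1
    _ ≤ (1000 * C * x) * (2 / (Real.log P / Real.log 2)) := by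
        apply mul_le_mul_of_nonneg_left _ (by positivity)
        apply div_le_div_of_nonneg_left (by norm_num) (by positivity) hj2
    _ ≤ 4000 * C * x / Real.log P := by
        have : (1000 * C * x) * (2 / (Real.log P / Real.log 2)) =
            (2000 * Real.log 2) * C * x / Real.log P := by
          field_simp
          ring
        rw [this]
        apply div_le_div_of_nonneg_right _ hlP.le
        have : (2000 * Real.log 2) ≤ 4000 := by linarith
        have hCx : 0 ≤ C * x := by positivity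
        nlinarith


theorem tk_cop : type_of% @tk_cop_pr := @tk_cop_pr

end Pool.Agent.AQM
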