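import Pool.Agent.Lib_helper39.AQM.Defs
import Pool.Agent.Lib_helper39.AQM.AB
import Pool.Agent.Lib_helper39.MQX.ALG
import Pool.Agent.Lib_helper39.MQX.SBA
import Pool.Agent.Lib_helper39.MQX.SBB
import Pool.Agent.Lib_helper39.MQX.SBC
import Pool.Agent.Lib_helper39.MQX.LSV
import Pool.Agent.Lib_helper39.MQX.PAR
import Pool.Agent.Lib_helper39.MQX.FEJ
import Pool.Agent.Lib_helper39.MQX.EXP
import Pool.Agent.Lib_helper39.AQMF.AL1
import Pool.Agent.Lib_helper39.AQMF.AL2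
import Pool.Agent.Lib_helper39.AQMF.AL3

/-! block TR1 of AQM, proved by helper85 -/

/-! AQM, block TR1: `rep_prime` (port of MRGF/T1.lean). Cites W: `mem_PS`, `mem_PF`, `ex_ml`, `ex_sm`,
`Dv_self`, `Dv_not_cj`, `Dv_ml`, `Dv_ml'`, `Dv_dv`, `Dv_cof`, `Dv_cof'`, `ndk`, `QC_cof`, `QC_mul`. -/

set_option autoImplicit false

namespace Pool.Agent.AQM

open Pool.Agent.MQ Pool.Agent.T2 Filter Topology MeasureTheory

section
variable {b c : ℤ} (A : Ang b c) {M k₀ : ℕ} {T : El → Prop} {B : Finset ℕ} {r : El} {π : ℕ → El}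

theorem tr1_dv_gcd {l : ℕ} {v : El} : dv l v ↔ l ∣ Int.gcd v.1 v.2 := by
  unfold dv
  rw [← Int.natCast_dvd_natCast, Int.dvd_coe_gcd_iff]

theorem tr1_dv_rp {l : ℕ} {v : El} (hv : 0 < nm b c v) : dv l (A.rp v) ↔ dv l v := by
  rw [tr1_dv_gcd, tr1_dv_gcd, AB.rp_gcd A hv]

theorem tr1_Pm {v : El} : Pm v ↔ ∀ l : ℕ, l.Prime → ¬ dv l v := by
  unfold Pm
  constructor
  · intro h l hl hd
    rw [tr1_dv_gcd, h] at hd
    exact hl.one_lt.ne' (Nat.dvd_one.1 hd)
  · intro h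
    by_contra hne
    obtain ⟨l, hl, hd⟩ := Nat.exists_prime_and_dvd hne
    exact h l hl (tr1_dv_gcd.2 hd)

theorem tr1_dv_sm {l k : ℕ} (hl : l.Prime) {v : El} (h : dv l (sm k v)) (hk : ¬ l ∣ k) :
    dv l v := by
  unfold dv sm at h
  simp only at h
  have hlp : Prime (l : ℤ) := Nat.prime_iff_prime_int.1 hl
  refine ⟨?_, ?_⟩
  · rcases hlp.dvd_or_dvd h.1 with h1 | h1
    · exact absurd (Int.natCast_dvd_natCast.1 h1) hk
    · exact h1
  · rcases hlp.dvd_or_dvd h.2 with h1 | h1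
    · exact absurd (Int.natCast_dvd_natCast.1 h1) hk
    · exact h1

theorem tr1_sm_dv {l k : ℕ} {v : El} (h : dv l v) : dv l (sm k v) := by
  unfold dv sm
  exact ⟨Dvd.dvd.mul_left h.1 _, Dvd.dvd.mul_left h.2 _⟩

theorem tr1_dv_ml {l : ℕ} {v : El} (w : El) (h : dv l v) : dv l (ml b c w v) := by
  rw [tr1_dv_gcd] at h ⊢
  exact h.trans (sba_gcd_dvd w v)

theorem tr1_sm_inj {k : ℕ} (hk : 1 ≤ k) {v w : El} (h : sm k v = sm k w) : v = w := by
  unfold sm at h
  rw [Prod.mk.injEq] at h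
  have hk' : (k : ℤ) ≠ 0 := by positivity
  exact Prod.ext (mul_left_cancel₀ hk' h.1) (mul_left_cancel₀ hk' h.2)

theorem tr1_sm_sm (j k : ℕ) (v : El) : sm j (sm k v) = sm (j * k) v := by
  unfold sm
  simp only [Prod.mk.injEq]
  push_cast
  constructor <;> ring

/-- classes are invariant under the units of the window -/
theorem tr1_T_unit (hT : Cls A M T) {o z : El} (ho1 : nm b c o = 1)
    (ho : ∀ z, 0 < nm b c z → A.rp (ml b c o z) = A.rp z) (hz : 0 < nm b c z) :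
    T (ml b c o z) ↔ T z := by
  have h1 : 0 < nm b c (ml b c o z) := by rw [nm_ml, ho1, one_mul]; exact hz
  rw [← hT.rp _ h1, ho z hz, hT.rp _ hz]

/-- the condition `QC` in terms of `π p`, and representatives -/
theorem tr1_QC_rp (hT : Cls A M T) (hB : TP A M B k₀ r π) {p : ℕ} (hp : p ∈ B) {w : El}
    (hw : 0 < nm b c w) : QC b c k₀ r T (A.rp w) ↔ QC b c k₀ r T w := by
  have hk := hB.k1
  have hP : 0 < nm b c (π p) := A.wd_nm _ (hB.wd p hp)
  obtain ⟨o, ho1, ho, h3⟩ := A.rp_unit w hw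
  have hnz : ∀ {x z : El}, 0 < nm b c x → ml b c (π p) x = sm k₀ z → 0 < nm b c z := by
    intro x z hx h
    have h4 : nm b c (π p) * nm b c x = (k₀ : ℤ) ^ 2 * nm b c z := by
      rw [← nm_ml, h, sba_nm_sm]
    have h5 : 0 < (k₀ : ℤ) ^ 2 * nm b c z := by rw [← h4]; positivity
    have h6 : (0 : ℤ) < (k₀ : ℤ) ^ 2 := by positivity
    exact (mul_pos_iff_of_pos_left h6).1 h5
  constructor
  · intro h
    obtain ⟨z, h1, h2⟩ := QC_mul A hT hB hp h
    have hz : 0 < nm b c z := hnz (by rw [AB.rp_nm A hw]; exact hw) h1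
    have ho' : nm b c (cj b o) = 1 := by rw [nm_cj, ho1]
    have e1 : ml b c (π p) w = sm k₀ (ml b c (cj b o) z) := by
      rw [← sba_ml_sm, ← h1, h3, ← ml_assoc, ml_comm b c (cj b o), ml_assoc, sba_cj_ml ho1]
    have hz' : 0 < nm b c (ml b c (cj b o) z) := by rw [nm_ml, ho', one_mul]; exact hz
    refine QC_cof A hT hB hp ?_ e1
    rw [← tr1_T_unit A hT ho1 ho hz', sba_ml_cj ho1]
    exact h2
  · intro h
    obtain ⟨z, h1, h2⟩ := QC_mul A hT hB hp h
    have hz : 0 < nm b c z := hnz hw h1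
    have e1 : ml b c (π p) (A.rp w) = sm k₀ (ml b c o z) := by
      rw [h3, ← ml_assoc, ml_comm b c (π p) o, ml_assoc, h1, sba_ml_sm]
    exact QC_cof A hT hB hp ((tr1_T_unit A hT ho1 ho hz).2 h2) e1

end

section
variable {b c : ℤ} (A : Ang b c) (hs : ¬ IsSquare (dsc b c)) {M : ℕ} {T : El → Prop}
include hs

open Classical in
theorem rep_prime_pr (hT : Cls A M T) {h : ℕ → ℤ} (hh : Sgn h) {B : Finset ℕ} {k₀ : ℕ} {r : El}
    {π : ℕ → El} (hB : TP A M B k₀ r π) (k : ℤ) {Y ρ : ℝ} {p v : ℕ} (hp : p ∈ B) (hY : 1 ≤ Y)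
    (hρ : 1 < ρ) (hρ2 : ρ ≤ 2) (hv1 : ρ ^ v < (p : ℝ)) (hv2 : (p : ℝ) ≤ ρ ^ (v + 1)) :
    (gg b c h (π p) : ℂ) * ex (k * A.u (π p)) *
        Sv A h (M * k₀) (QC b c k₀ r T) k (k₀ * Y / ρ ^ v) =
      ∑ z ∈ (PF A (2 * Y)).filter (fun z => QC b c k₀ r T (ml b c (cj b (π p)) z) ∧
          (∀ l : ℕ, l.Prime → dv l (ml b c (cj b (π p)) z) → l ∣ M * k₀) ∧
          (p : ℝ) * nm b c z * ρ ^ v ≤ Y), (gg b c h z : ℂ) * ex (k * A.u z)
      + ∑ z ∈ (PF A (2 * Y)).filter (fun z => T z ∧ Dv p (π p) z ∧ Y < (nm b c z : ℝ) ∧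
          (nm b c z : ℝ) * ρ ^ v ≤ p * Y), (gg b c h z : ℂ) * ex (k * A.u z)
      + ∑ z ∈ (PF A Y).filter (fun z => T z ∧ Dv p (π p) z),
          (gg b c h z : ℂ) * ex (k * A.u z) := by
  have hk := hB.k1
  have hkR : (1 : ℝ) ≤ k₀ := by exact_mod_cast hk
  have hkR0 : (0 : ℝ) < k₀ := by linarith
  have hkZ : (0 : ℤ) < k₀ := by exact_mod_cast hk
  have hpp := hB.prime p hp
  have hp0 : (0 : ℝ) < p := by exact_mod_cast hpp.pos
  have hp1 : (1 : ℝ) ≤ p := by exact_mod_cast hpp.one_lt.le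
  have hpZ : (0 : ℤ) < p := by exact_mod_cast hpp.pos
  have hpk : ¬ p ∣ k₀ := ndk A hB hp
  have hP : 0 < nm b c (π p) := A.wd_nm _ (hB.wd p hp)
  have hPn : nm b c (π p) = k₀ * p := hB.nm p hp
  have hCn : nm b c (cj b (π p)) = k₀ * p := by rw [nm_cj, hPn]
  have hC : 0 < nm b c (cj b (π p)) := by rw [nm_cj]; exact hP
  have hρ0 : 0 < ρ := by linarith
  have hρv : 0 < ρ ^ v := by positivity
  have hρv1 : 1 ≤ ρ ^ v := one_le_pow₀ hρ.le
  have hY0 : 0 < Y := by linarith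
  obtain ⟨F, hF⟩ : ∃ F : El → ℂ, F = fun w => (gg b c h (π p) : ℂ) * ex (k * A.u (π p)) *
    ((gg b c h w : ℂ) * ex (k * A.u w)) := ⟨_, rfl⟩
  -- the term in terms of the product
  have hFm : ∀ w : El, A.wd w → ∀ j : ℕ, 1 ≤ j → ∀ z : El, A.wd z →
      A.rp (ml b c (π p) w) = sm j z → F w = (gg b c h z : ℂ) * ex (k * A.u z) := by
    intro w hw j hj z hz e
    have hw0 := A.wd_nm _ hw
    have hz0 := A.wd_nm _ hz
    have hmw : 0 < nm b c (ml b c (π p) w) := by rw [nm_ml]; positivity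
    have e1 : ex (k * A.u (π p)) * ex (k * A.u w) = ex (k * A.u z) := by
      rw [← ex_ml A (hB.wd p hp) hw k, e, ex_sm A hz hj k]
    have e2 : gg b c h (π p) * gg b c h w = gg b c h z := by
      rw [← gg_ml hh hP.ne' hw0.ne', ← AB.gg_rp A h hmw, e, gg_sm hh hz0.ne' hj]
    rw [hF]
    simp only
    rw [← e1, ← e2]
    push_cast
    ring
  obtain ⟨S, hS⟩ : ∃ S : Finset El, S = PS A (M * k₀) (QC b c k₀ r T) (k₀ * Y / ρ ^ v) := ⟨_, rfl⟩
  have hLHS : (gg b c h (π p) : ℂ) * ex (k * A.u (π p)) *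
        Sv A h (M * k₀) (QC b c k₀ r T) k (k₀ * Y / ρ ^ v) = ∑ w ∈ S, F w := by
    rw [Sv, hS, hF, Finset.mul_sum]
  have hmS : ∀ w, w ∈ S ↔ A.wd w ∧ (nm b c w : ℝ) * ρ ^ v ≤ k₀ * Y ∧ QC b c k₀ r T w ∧
      ∀ l : ℕ, l.Prime → dv l w → l ∣ M * k₀ := by
    intro w
    rw [hS, mem_PS, le_div_iff₀ hρv]
  have hlM : ∀ l : ℕ, l.Prime → l ∣ M * k₀ → l ∣ M := by
    intro l hl hd
    rcases hl.dvd_mul.1 hd with h1 | h1
    · exact h1
    · exact h1.trans hB.kM
  have hTl : ∀ z : El, T z → ∀ l : ℕ, l.Prime → dv l z → ¬ l ∣ M := by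
    intro z hz l hl hd hlm
    have h1 := hT.cop z hz
    have h2 : (l : ℤ) ∣ nm b c z := by
      unfold nm
      obtain ⟨⟨x, hx⟩, ⟨y, hy⟩⟩ := hd
      rw [hx, hy]
      exact ⟨l * x ^ 2 + b * (l * x) * y + c * l * y ^ 2, by ring⟩
    have h3 : (l : ℤ) ∣ (Int.gcd (nm b c z) M : ℤ) :=
      Int.dvd_coe_gcd h2 (Int.natCast_dvd_natCast.2 hlm)
    rw [h1] at h3
    exact hl.one_lt.ne' (Nat.dvd_one.1 (Int.natCast_dvd_natCast.1 (by exact_mod_cast h3)))
  -- the norm of the cofactor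
  have hnk : ∀ w z : El, ml b c (π p) w = sm k₀ z → (k₀ : ℤ) * nm b c z = p * nm b c w := by
    intro w z e
    have h1 : nm b c (π p) * nm b c w = (k₀ : ℤ) ^ 2 * nm b c z := by
      rw [← nm_ml, e, sba_nm_sm]
    rw [hPn] at h1
    have h2 : (k₀ : ℤ) * ((p : ℤ) * nm b c w) = (k₀ : ℤ) * (k₀ * nm b c z) := by
      linarith
    exact (mul_left_cancel₀ hkZ.ne' h2).symm
  -- part (ii)
  have e2 : ∑ w ∈ S.filter (fun w => Dv p (cj b (π p)) w), F w =
      ∑ z ∈ (PF A (2 * Y)).filter (fun z => QC b c k₀ r T (ml b c (cj b (π p)) z) ∧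
          (∀ l : ℕ, l.Prime → dv l (ml b c (cj b (π p)) z) → l ∣ M * k₀) ∧
          (p : ℝ) * nm b c z * ρ ^ v ≤ Y), (gg b c h z : ℂ) * ex (k * A.u z) := by
    symm
    apply Finset.sum_nbij (fun z => A.rp (ml b c (cj b (π p)) z))
    · intro z hz
      rw [Finset.mem_filter, mem_PF] at hz
      obtain ⟨⟨hz1, hz2, hz3⟩, hz4, hz5, hz6⟩ := hz
      have hz0 := A.wd_nm _ hz1
      have hm : 0 < nm b c (ml b c (cj b (π p)) z) := by rw [nm_ml]; positivity
      rw [Finset.mem_filter, hmS]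
      refine ⟨⟨A.rp_wd _ hm, ?_, (tr1_QC_rp A hT hB hp hm).2 hz4, ?_⟩, ?_⟩
      · rw [AB.rp_nm A hm, nm_ml, hCn]
        push_cast
        nlinarith
      · intro l hl hd
        exact hz5 l hl ((tr1_dv_rp A hm).1 hd)
      · obtain ⟨o, _, _, ho3⟩ := A.rp_unit _ hm
        rw [ho3]
        exact (Dv_ml' A hB hp _ _).2 (Or.inr ((Dv_ml' A hB hp _ _).2 (Or.inl (Dv_self _ _))))
    · intro z hz z' hz' he
      rw [Finset.mem_coe, Finset.mem_filter, mem_PF] at hz hz'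
      exact AB.rp_inj A hC hz.1.1 hz'.1.1 he
    · intro w hw
      rw [Finset.mem_coe, Finset.mem_filter, hmS] at hw
      obtain ⟨⟨hw1, hw2, hw3, hw4⟩, hw5⟩ := hw
      have hw0 := A.wd_nm _ hw1
      obtain ⟨z1, h1, h2⟩ := QC_mul A hT hB hp hw3
      obtain ⟨z0, g1, g2, g3⟩ := Dv_cof' A hB hp hw5
      have hpz : dv p z1 := by
        apply tr1_dv_sm hpp _ hpk
        rw [← h1, g1]
        exact ⟨Dvd.intro _ rfl, Dvd.intro _ rfl⟩
      obtain ⟨⟨x, hx⟩, ⟨y, hy⟩⟩ := hpz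
      have hz1 : z1 = sm p (x, y) := Prod.ext hx hy
      have hPw : ml b c (π p) w = sm (k₀ * p) (x, y) := by rw [h1, hz1, tr1_sm_sm]
      have hw' : w = ml b c (cj b (π p)) (x, y) := by
        apply tr1_sm_inj (k := k₀ * p) (Nat.mul_pos hk hpp.pos)
        rw [← sba_ml_sm, ← hPw, ← ml_assoc, ml_cj_self, ml_scal, hPn]
        unfold sm
        push_cast
        rfl
      have hxy : 0 < nm b c (x, y) := by
        have h5 : 0 < nm b c (cj b (π p)) * nm b c (x, y) := by rw [← nm_ml, ← hw']; exact hw0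
        exact (mul_pos_iff_of_pos_left hC).1 h5
      have hrw : A.rp (ml b c (cj b (π p)) (A.rp (x, y))) = w := by
        rw [ml_comm, AB.rp_ml_rp A hxy hC, ml_comm, ← hw', A.rp_self w hw1]
      have hrm : 0 < nm b c (ml b c (cj b (π p)) (A.rp (x, y))) := by
        rw [nm_ml, AB.rp_nm A hxy]; positivity
      refine ⟨A.rp (x, y), ?_, hrw⟩
      rw [Finset.mem_coe, Finset.mem_filter, mem_PF, AB.rp_nm A hxy]
      have hnw : nm b c w = k₀ * p * nm b c (x, y) := by rw [← hCn, ← nm_ml, ← hw']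
      have hn6 : (p : ℝ) * nm b c (x, y) * ρ ^ v ≤ Y := by
        have h6 : (k₀ : ℝ) * ((p : ℝ) * nm b c (x, y) * ρ ^ v) ≤ k₀ * Y := by
          rw [hnw] at hw2
          push_cast at hw2
          linarith
        exact le_of_mul_le_mul_left h6 hkR0
      have hxyR : (0 : ℝ) < nm b c (x, y) := by exact_mod_cast hxy
      refine ⟨⟨A.rp_wd _ hxy, ?_, ?_⟩, ?_, ?_, hn6⟩
      · have h7 : (nm b c (x, y) : ℝ) ≤ p * nm b c (x, y) * ρ ^ v := by
          calc (nm b c (x, y) : ℝ) = 1 * nm b c (x, y) * 1 := by ring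
            _ ≤ p * nm b c (x, y) * ρ ^ v := by
              apply mul_le_mul _ hρv1 zero_le_one (by positivity)
              exact mul_le_mul_of_nonneg_right hp1 hxyR.le
        linarith
      · rw [tr1_Pm]
        intro l hl hd
        rw [tr1_dv_rp A hxy] at hd
        have h8 : dv l w := by rw [hw']; exact tr1_dv_ml _ hd
        have h9 : dv l z1 := by rw [hz1]; exact tr1_sm_dv hd
        exact hTl z1 h2 l hl h9 (hlM l hl (hw4 l hl h8))
      · rw [← tr1_QC_rp A hT hB hp hrm, hrw]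
        exact hw3
      · intro l hl hd
        rw [← tr1_dv_rp A hrm, hrw] at hd
        exact hw4 l hl hd
    · intro z hz
      rw [Finset.mem_filter, mem_PF] at hz
      have hz1 := hz.1.1
      have hz0 := A.wd_nm _ hz1
      have hm : 0 < nm b c (ml b c (cj b (π p)) z) := by rw [nm_ml]; positivity
      symm
      have hj : 1 ≤ k₀ * p := Nat.mul_pos hk hpp.pos
      apply hFm _ (A.rp_wd _ hm) (k₀ * p) hj z hz1
      rw [ml_comm, AB.rp_ml_rp A hm hP, ml_comm, ← ml_assoc, ml_comm b c (π p), ml_cj_self,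
        ml_scal, hPn]
      have e : (((k₀ : ℤ) * p) * z.1, ((k₀ : ℤ) * p) * z.2) = sm (k₀ * p) z := by
        unfold sm
        push_cast
        rfl
      rw [e, A.rp_self _ ((A.wd_sm z _ hj).2 hz1)]
  -- part (i)
  have e1 : ∑ w ∈ S.filter (fun w => ¬ Dv p (cj b (π p)) w), F w =
      ∑ z ∈ (PF A (2 * Y)).filter (fun z => T z ∧ Dv p (π p) z ∧
        (nm b c z : ℝ) * ρ ^ v ≤ p * Y), (gg b c h z : ℂ) * ex (k * A.u z) := by
    obtain ⟨f, hf⟩ : ∃ f : El → El, f = fun x => (x.1 / (k₀ : ℤ), x.2 / (k₀ : ℤ)) := ⟨_, rfl⟩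
    have hfs : ∀ z : El, f (sm k₀ z) = z := by
      intro z
      rw [hf]
      unfold sm
      simp only
      rw [Int.mul_ediv_cancel_left _ hkZ.ne', Int.mul_ediv_cancel_left _ hkZ.ne']
    have hex : ∀ w : El, A.wd w → QC b c k₀ r T w → ∃ z : El, T z ∧ ml b c (π p) w = sm k₀ z ∧
        0 < nm b c z ∧ A.rp (ml b c (π p) w) = sm k₀ (A.rp z) := by
      intro w hw1 hw3
      have hw0 := A.wd_nm _ hw1
      obtain ⟨z, h1, h2⟩ := QC_mul A hT hB hp hw3
      have h3 := hnk w z h1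
      have hz0 : 0 < nm b c z := by
        have : 0 < (k₀ : ℤ) * nm b c z := by rw [h3]; positivity
        exact (mul_pos_iff_of_pos_left hkZ).1 this
      exact ⟨z, h2, h1, hz0, by rw [h1, AB.rp_sm A hz0 hk]⟩
    apply Finset.sum_nbij (fun w => f (A.rp (ml b c (π p) w)))
    · intro w hw
      rw [Finset.mem_filter, hmS] at hw
      obtain ⟨⟨hw1, hw2, hw3, hw4⟩, hw5⟩ := hw
      have hw0 := A.wd_nm _ hw1
      obtain ⟨z, h1, h2, hz0, h3⟩ := hex w hw1 hw3
      rw [h3, hfs, Finset.mem_filter, mem_PF, AB.rp_nm A hz0, hT.rp z hz0]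
      have hnz := hnk w z h2
      have hnzR : (k₀ : ℝ) * nm b c z = p * nm b c w := by exact_mod_cast hnz
      have h6 : (nm b c z : ℝ) * ρ ^ v ≤ p * Y := by
        have h7 : (k₀ : ℝ) * ((nm b c z : ℝ) * ρ ^ v) ≤ k₀ * (p * Y) := by
          calc (k₀ : ℝ) * ((nm b c z : ℝ) * ρ ^ v) = p * (nm b c w * ρ ^ v) := by
                rw [← mul_assoc, hnzR]; ring
            _ ≤ p * (k₀ * Y) := mul_le_mul_of_nonneg_left hw2 hp0.le
            _ = _ := by ring
        exact le_of_mul_le_mul_left h7 hkR0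
      have hDz : Dv p (π p) (A.rp z) := by
        have h8 : Dv p (π p) (sm k₀ z) := by
          rw [← h2]
          exact (Dv_ml A hB hp _ _).2 (Or.inl (Dv_self _ _))
        have h9 : Dv p (π p) z := by
          unfold Dv at h8 ⊢
          have e : dt (sm k₀ z) (π p) = k₀ * dt z (π p) := by unfold dt sm; ring
          rw [e] at h8
          rcases (Nat.prime_iff_prime_int.1 hpp).dvd_or_dvd h8 with h10 | h10
          · exact absurd (Int.natCast_dvd_natCast.1 h10) hpk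
          · exact h10
        obtain ⟨o, _, _, ho3⟩ := A.rp_unit z hz0
        rw [ho3]
        exact (Dv_ml A hB hp _ _).2 (Or.inr h9)
      refine ⟨⟨A.rp_wd _ hz0, ?_, ?_⟩, h1, hDz, h6⟩
      · have h7 : (p : ℝ) * Y ≤ (2 * Y) * ρ ^ v := by
          have h7a : (p : ℝ) ≤ 2 * ρ ^ v := by
            have h7b : (p : ℝ) ≤ ρ ^ v * ρ := by rw [← pow_succ]; exact hv2
            have h7c : ρ ^ v * ρ ≤ ρ ^ v * 2 := mul_le_mul_of_nonneg_left hρ2 hρv.le
            linarith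
          calc (p : ℝ) * Y ≤ (2 * ρ ^ v) * Y := mul_le_mul_of_nonneg_right h7a hY0.le
            _ = (2 * Y) * ρ ^ v := by ring
        have h8 : (nm b c z : ℝ) * ρ ^ v ≤ (2 * Y) * ρ ^ v := h6.trans h7
        exact le_of_mul_le_mul_right h8 hρv
      · rw [tr1_Pm]
        intro l hl hd
        rw [tr1_dv_rp A hz0] at hd
        have hlM' := hTl z h1 l hl hd
        by_cases hlp : l = p
        · subst hlp
          have h8 : dv l (ml b c (π l) w) := by rw [h2]; exact tr1_sm_dv hd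
          have h9 := (Dv_dv A hB hp _).1 h8
          rcases (Dv_ml' A hB hp _ _).1 h9.2 with h10 | h10
          · exact Dv_not_cj A hB hp h10
          · exact hw5 h10
        · have h8 : sm (k₀ * p) w = sm k₀ (ml b c (cj b (π p)) z) := by
            rw [← sba_ml_sm, ← h2, ← ml_assoc, ml_cj_self, ml_scal, hPn]
            unfold sm
            push_cast
            rfl
          have h9 : sm p w = ml b c (cj b (π p)) z := by
            apply tr1_sm_inj hk
            rw [tr1_sm_sm]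
            exact h8
          have h10 : dv l (sm p w) := by rw [h9]; exact tr1_dv_ml _ hd
          have h11 : dv l w := by
            apply tr1_dv_sm hl h10
            intro hc
            exact hlp ((Nat.prime_dvd_prime_iff_eq hl hpp).1 hc)
          exact hlM' (hlM l hl (hw4 l hl h11))
    · intro w hw w' hw' he
      rw [Finset.mem_coe, Finset.mem_filter, hmS] at hw hw'
      obtain ⟨z, _, _, hz0, h3⟩ := hex w hw.1.1 hw.1.2.2.1
      obtain ⟨z', _, _, hz0', h3'⟩ := hex w' hw'.1.1 hw'.1.2.2.1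
      simp only at he
      rw [h3, h3', hfs, hfs] at he
      apply AB.rp_inj A hP hw.1.1 hw'.1.1
      rw [h3, h3', he]
    · intro z hz
      rw [Finset.mem_coe, Finset.mem_filter, mem_PF] at hz
      obtain ⟨⟨hz1, hz2, hz3⟩, hz4, hz5, hz6⟩ := hz
      have hz0 := A.wd_nm _ hz1
      obtain ⟨w0, g1, g2, g3⟩ := Dv_cof A hB hp hz5
      have hw0 : 0 < nm b c w0 := by
        have : 0 < (p : ℤ) * nm b c w0 := by rw [g3]; positivity
        exact (mul_pos_iff_of_pos_left hpZ).1 this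
      have hQ : QC b c k₀ r T w0 := QC_cof A hT hB hp hz4 g2
      have hrw : A.rp (ml b c (π p) (A.rp w0)) = sm k₀ z := by
        rw [ml_comm, AB.rp_ml_rp A hw0 hP, ml_comm, g2, A.rp_self _ ((A.wd_sm z _ hk).2 hz1)]
      have hmp : 0 < nm b c (ml b c (π p) (A.rp w0)) := by
        rw [nm_ml, AB.rp_nm A hw0]; positivity
      refine ⟨A.rp w0, ?_, ?_⟩
      · rw [Finset.mem_coe, Finset.mem_filter, hmS, AB.rp_nm A hw0]
        refine ⟨⟨A.rp_wd _ hw0, ?_, (tr1_QC_rp A hT hB hp hw0).2 hQ, ?_⟩, ?_⟩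
        · have hnzR : (p : ℝ) * nm b c w0 = k₀ * nm b c z := by exact_mod_cast g3
          have h7 : (p : ℝ) * ((nm b c w0 : ℝ) * ρ ^ v) ≤ p * (k₀ * Y) := by
            calc (p : ℝ) * ((nm b c w0 : ℝ) * ρ ^ v) = k₀ * (nm b c z * ρ ^ v) := by
                  rw [← mul_assoc, hnzR]; ring
              _ ≤ k₀ * (p * Y) := mul_le_mul_of_nonneg_left hz6 hkR0.le
              _ = _ := by ring
          exact le_of_mul_le_mul_left h7 hp0
        · intro l hl hd
          rw [tr1_dv_rp A hw0] at hd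
          by_cases hlk : l ∣ k₀
          · exact Dvd.dvd.mul_left hlk M
          · exfalso
            have h8 : dv l (sm k₀ z) := by rw [← g2]; exact tr1_dv_ml _ hd
            exact tr1_Pm.1 hz3 l hl (tr1_dv_sm hl h8 hlk)
        · intro hc
          have h8 : dv p (ml b c (π p) (A.rp w0)) :=
            (Dv_dv A hB hp _).2 ⟨(Dv_ml A hB hp _ _).2 (Or.inl (Dv_self _ _)),
              (Dv_ml' A hB hp _ _).2 (Or.inr hc)⟩
          rw [← tr1_dv_rp A hmp, hrw] at h8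
          exact tr1_Pm.1 hz3 p hpp (tr1_dv_sm hpp h8 hpk)
      · simp only
        rw [hrw, hfs]
    · intro w hw
      rw [Finset.mem_filter, hmS] at hw
      obtain ⟨z, _, _, hz0, h3⟩ := hex w hw.1.1 hw.1.2.2.1
      rw [h3, hfs]
      exact hFm w hw.1.1 k₀ hk (A.rp z) (A.rp_wd _ hz0) h3
  -- splitting the second sum
  have e3 : ∑ z ∈ (PF A (2 * Y)).filter (fun z => T z ∧ Dv p (π p) z ∧
        (nm b c z : ℝ) * ρ ^ v ≤ p * Y), (gg b c h z : ℂ) * ex (k * A.u z) =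
      ∑ z ∈ (PF A (2 * Y)).filter (fun z => T z ∧ Dv p (π p) z ∧ Y < (nm b c z : ℝ) ∧
          (nm b c z : ℝ) * ρ ^ v ≤ p * Y), (gg b c h z : ℂ) * ex (k * A.u z)
      + ∑ z ∈ (PF A Y).filter (fun z => T z ∧ Dv p (π p) z),
          (gg b c h z : ℂ) * ex (k * A.u z) := by
    rw [← Finset.sum_filter_add_sum_filter_not ((PF A (2 * Y)).filter (fun z => T z ∧
      Dv p (π p) z ∧ (nm b c z : ℝ) * ρ ^ v ≤ p * Y)) (fun z => Y < (nm b c z : ℝ))]
    congr 1
    · apply Finset.sum_congr _ (fun _ _ => rfl)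
      ext z
      simp only [Finset.mem_filter]
      tauto
    · apply Finset.sum_congr _ (fun _ _ => rfl)
      ext z
      simp only [Finset.mem_filter, mem_PF, not_lt]
      constructor
      · rintro ⟨⟨⟨h1, _, h3⟩, h4, h5, _⟩, h7⟩
        exact ⟨⟨h1, h7, h3⟩, h4, h5⟩
      · rintro ⟨⟨h1, h2, h3⟩, h4, h5⟩
        have h0 : (0 : ℝ) < nm b c z := by exact_mod_cast A.wd_nm _ h1
        refine ⟨⟨⟨h1, by linarith, h3⟩, h4, h5, ?_⟩, h2⟩
        calc (nm b c z : ℝ) * ρ ^ v ≤ Y * p := mul_le_mul h2 hv1.le hρv.le hY0.le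
          _ = p * Y := mul_comm _ _
  rw [hLHS, ← Finset.sum_filter_add_sum_filter_not S (fun w => Dv p (cj b (π p)) w), e1, e2, e3,
    add_assoc]

end

theorem rep_prime : type_of% @rep_prime_pr := @rep_prime_pr

end Pool.Agent.AQM
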