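import Pool.Agent.Lib_helper10.T2F.TKA
import Pool.Agent.Lib_helper39.AQM.Defs
import Pool.Agent.Lib_helper39.AQM.AB
import Pool.Agent.Lib_helper39.MQX.ALG
import Pool.Agent.Lib_helper39.MQX.SBA
import Pool.Agent.Lib_helper39.MQX.SBB
import Pool.Agent.Lib_helper39.MQX.SBC
import Pool.Agent.Lib_helper39.MQX.LSV
import Pool.Agent.Lib_helper39.MQX.PAR
import Pool.Agent.Lib_helper39.MQX.FEJ
import Pool.Agent.Lib_helper39.MQX.EXP
import Pool.Agent.Lib_helper39.AQMF.AL2
import Pool.Agent.Lib_helper39.AQMF.CP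

/-! block TV of AQM, proved by helper30 -/

/-!
# AQM, block TV: Turan and Kubilius
-/

set_option autoImplicit false

namespace Pool.Agent.AQM

open Pool.Agent.MQ Pool.Agent.T2 Filter Topology MeasureTheory

/-- simultaneous congruences for vectors -/
theorem tv_crt {p q : ℕ} (h : Nat.Coprime p q) (v w : El) :
    ∃ r : El, ((p : ℤ) ∣ r.1 - v.1 ∧ (p : ℤ) ∣ r.2 - v.2) ∧
      ((q : ℤ) ∣ r.1 - w.1 ∧ (q : ℤ) ∣ r.2 - w.2) := by
  have h1 : IsCoprime (p : ℤ) (q : ℤ) := Nat.isCoprime_iff_coprime.2 h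
  obtain ⟨a, b, hab⟩ := h1
  refine ⟨(v.1 * (b * q) + w.1 * (a * p), v.2 * (b * q) + w.2 * (a * p)),
    ⟨⟨(w.1 - v.1) * a, ?_⟩, ⟨(w.2 - v.2) * a, ?_⟩⟩,
    ⟨⟨(v.1 - w.1) * b, ?_⟩, ⟨(v.2 - w.2) * b, ?_⟩⟩⟩
  · show v.1 * (b * q) + w.1 * (a * p) - v.1 = (p : ℤ) * ((w.1 - v.1) * a)
    linear_combination v.1 * hab
  · show v.2 * (b * q) + w.2 * (a * p) - v.2 = (p : ℤ) * ((w.2 - v.2) * a)
    linear_combination v.2 * hab
  · show v.1 * (b * q) + w.1 * (a * p) - w.1 = (q : ℤ) * ((v.1 - w.1) * b)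
    linear_combination w.1 * hab
  · show v.2 * (b * q) + w.2 * (a * p) - w.2 = (q : ℤ) * ((v.2 - w.2) * b)
    linear_combination w.2 * hab

theorem tv_dt {p : ℕ} {r v : El} (h1 : (p : ℤ) ∣ r.1 - v.1) (h2 : (p : ℤ) ∣ r.2 - v.2) (w : El) :
    (p : ℤ) ∣ dt w r ↔ (p : ℤ) ∣ dt w v := by
  have e : dt w r - dt w v = w.1 * (r.2 - v.2) - w.2 * (r.1 - v.1) := by
    unfold dt
    ring
  have h3 : (p : ℤ) ∣ dt w r - dt w v := by
    rw [e]
    exact dvd_sub (Dvd.dvd.mul_left h2 _) (Dvd.dvd.mul_left h1 _)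
  exact dvd_iff_dvd_of_dvd_sub h3

/-- `∑ (1 / p - 1 / (p + 1)) ≤ 1` -/
theorem tv_tel (B : Finset ℕ) (hB : ∀ p ∈ B, 1 ≤ p) :
    ∑ p ∈ B, (1 / (p : ℝ) - 1 / ((p : ℝ) + 1)) ≤ 1 := by
  have h7 : ∀ n : ℕ, ∑ p ∈ Finset.Icc 1 n, (1 / (p : ℝ) - 1 / ((p : ℝ) + 1)) =
      1 - 1 / ((n : ℝ) + 1) := by
    intro n
    induction n with
    | zero => simp
    | succ n ih =>
      rw [Finset.sum_Icc_succ_top (by omega), ih]
      push_cast
      ring
  have h8 : B ⊆ Finset.Icc 1 (B.sup id) := by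
    intro p hp
    rw [Finset.mem_Icc]
    exact ⟨hB p hp, Finset.le_sup (f := id) hp⟩
  calc ∑ p ∈ B, (1 / (p : ℝ) - 1 / ((p : ℝ) + 1)) ≤
      ∑ p ∈ Finset.Icc 1 (B.sup id), (1 / (p : ℝ) - 1 / ((p : ℝ) + 1)) := by
        apply Finset.sum_le_sum_of_subset_of_nonneg h8
        intro p hp _
        rw [Finset.mem_Icc] at hp
        have : (1 : ℝ) ≤ p := by exact_mod_cast hp.1
        rw [sub_nonneg]
        apply one_div_le_one_div_of_le <;> linarith
    _ = 1 - 1 / (((B.sup id : ℕ) : ℝ) + 1) := h7 _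
    _ ≤ 1 := by
        have : 0 ≤ 1 / (((B.sup id : ℕ) : ℝ) + 1) := by positivity
        linarith

/-- the number of the primes -/
theorem tv_card {x : ℝ} (hx : 1 ≤ x) (B : Finset ℕ) (hB : ∀ p ∈ B, p.Prime ∧ p % 4 = 1)
    (hb : ∀ p ∈ B, (p : ℝ) ≤ x ^ (1 / 4 : ℝ)) (hne : B.Nonempty) :
    1 ≤ Real.log x ∧ (B.card : ℝ) * Real.log x ≤ 20 * x ^ (1 / 4 : ℝ) := by
  have hx0 : 0 < x := by linarith
  set y := x ^ (1 / 4 : ℝ) with hy
  have hy5 : 5 ≤ y := by
    obtain ⟨p, hp⟩ := hne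
    have h1 := hB p hp
    have h2 : 5 ≤ p := by
      have := h1.1.two_le
      have := h1.2
      omega
    have h3 : (5 : ℝ) ≤ p := by exact_mod_cast h2
    exact h3.trans (hb p hp)
  have hlog : Real.log y = 1 / 4 * Real.log x := by
    rw [hy, Real.log_rpow hx0]
  have hlogy : 1 ≤ Real.log y := by
    rw [Real.le_log_iff_exp_le (by linarith)]
    have := Real.exp_one_lt_d9
    linarith
  have h1 := tka_pi (y := y) (by linarith)
  have h2 : B.card ≤ Nat.primeCounting ⌊y⌋₊ := by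
    rw [Nat.primeCounting, Nat.primeCounting', Nat.count_eq_card_filter_range]
    apply Finset.card_le_card
    intro q hq
    rw [Finset.mem_filter, Finset.mem_range]
    exact ⟨Nat.lt_succ_of_le (Nat.le_floor (hb q hq)), (hB q hq).1⟩
  have h3 : (B.card : ℝ) ≤ 5 * y / Real.log y := by
    refine le_trans ?_ h1
    exact_mod_cast h2
  rw [le_div_iff₀ (by linarith), hlog] at h3
  constructor
  · linarith
  · linarith

section
variable {b c : ℤ} (A : Ang b c) (hs : ¬ IsSquare (dsc b c)) {M : ℕ} {T : El → Prop}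
include hs

omit hs in
open Classical in
/-- the three counts -/
theorem tv_cnt (hT : Cls A M T) : ∃ C a : ℝ, 1 ≤ C ∧ 0 ≤ a ∧ a ≤ C ∧ ∀ (x : ℝ) (B : Finset ℕ)
    (k₀ : ℕ) (r : El) (π : ℕ → El), TP A M B k₀ r π → 1 ≤ x →
    ((PS A M T x).card : ℝ) ≤ a * x + C * Real.sqrt x * (1 + Real.log x) ∧
    (∀ p ∈ B, |(((PS A M T x).filter (fun z => Dv p (π p) z)).card : ℝ) -
      a * x * (1 / ((p : ℝ) + 1))| ≤ 2 * (C * Real.sqrt x * (1 + Real.log x))) ∧
    ∀ p ∈ B, ∀ q ∈ B, p ≠ q →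
      (((PS A M T x).filter (fun z => Dv p (π p) z ∧ Dv q (π q) z)).card : ℝ) ≤
      a * x * (1 / ((p : ℝ) + 1) * (1 / ((q : ℝ) + 1))) +
        4 * (C * Real.sqrt x * (1 + Real.log x)) := by
  obtain ⟨C, hC, hcount⟩ := PS_count A M hT.M1
  obtain ⟨a, ha0, haC, -, hcnt⟩ := hcount T hT.per
  refine ⟨C, a, hC, ha0, haC, ?_⟩
  intro x B k₀ r π hB hx
  have hcop : ∀ p ∈ B, Nat.Coprime p M := fun p hp =>
    (Nat.Prime.coprime_iff_not_dvd (hB.prime p hp)).2 (hB.ndM p hp)
  refine ⟨?_, ?_, ?_⟩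
  · have h1 := hcnt (1, 0) 1 squarefree_one (Nat.coprime_one_left M)
      (fun l hl h => absurd (Nat.dvd_one.1 h) hl.ne_one) x hx
    have h2 : (PS A M T x).filter (fun w => ((1 : ℕ) : ℤ) ∣ dt w (1, 0)) = PS A M T x := by
      apply Finset.filter_true_of_mem
      intro w _
      simp
    rw [h2] at h1
    simp only [Nat.primeFactors_one, Finset.prod_empty, div_one, Nat.divisors_one,
      Finset.card_singleton, Nat.cast_one, mul_one] at h1
    have h3 := (abs_le.1 h1).2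
    linarith
  · intro p hp
    have hpp := hB.prime p hp
    have h1 := hcnt (π p) p hpp.squarefree (hcop p hp) (fun l hl h => by
      rw [(Nat.prime_dvd_prime_iff_eq hl hpp).1 h]
      exact Dv_not_dv A hB hp) x hx
    rw [Nat.Prime.primeFactors hpp, Finset.prod_singleton, Nat.Prime.divisors hpp,
      Finset.card_pair hpp.one_lt.ne] at h1
    have h2 : (PS A M T x).filter (fun w => (p : ℤ) ∣ dt w (π p)) =
        (PS A M T x).filter (fun z => Dv p (π p) z) := by
      apply Finset.filter_congr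
      intro w _
      rfl
    rw [h2] at h1
    push_cast at h1
    have h3 : a * x * (1 / ((p : ℝ) + 1)) = a * x / ((p : ℝ) + 1) := by ring
    rw [h3]
    refine h1.trans (le_of_eq ?_)
    ring
  · intro p hp q hq hpq
    have hpp := hB.prime p hp
    have hqp := hB.prime q hq
    have hpqc : Nat.Coprime p q := (Nat.coprime_primes hpp hqp).2 hpq
    obtain ⟨v, ⟨hv1, hv2⟩, ⟨hv3, hv4⟩⟩ := tv_crt hpqc (π p) (π q)
    have h1 := hcnt v (p * q) ((Nat.squarefree_mul hpqc).2 ⟨hpp.squarefree, hqp.squarefree⟩)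
      (Nat.Coprime.mul_left (hcop p hp) (hcop q hq)) (fun l hl h => by
        rcases (hl.dvd_mul).1 h with h | h
        · rw [(Nat.prime_dvd_prime_iff_eq hl hpp).1 h]
          intro hd
          exact Dv_not_dv A hB hp ⟨(dvd_iff_dvd_of_dvd_sub hv1).1 hd.1,
            (dvd_iff_dvd_of_dvd_sub hv2).1 hd.2⟩
        · rw [(Nat.prime_dvd_prime_iff_eq hl hqp).1 h]
          intro hd
          exact Dv_not_dv A hB hq ⟨(dvd_iff_dvd_of_dvd_sub hv3).1 hd.1,
            (dvd_iff_dvd_of_dvd_sub hv4).1 hd.2⟩) x hx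
    rw [hpqc.primeFactors_mul, Nat.Prime.primeFactors hpp, Nat.Prime.primeFactors hqp,
      Finset.prod_union (Finset.disjoint_singleton.2 hpq), Finset.prod_singleton,
      Finset.prod_singleton, hpqc.card_divisors_mul, Nat.Prime.divisors hpp,
      Nat.Prime.divisors hqp, Finset.card_pair hpp.one_lt.ne, Finset.card_pair hqp.one_lt.ne] at h1
    have h2 : (PS A M T x).filter (fun w => ((p * q : ℕ) : ℤ) ∣ dt w v) =
        (PS A M T x).filter (fun z => Dv p (π p) z ∧ Dv q (π q) z) := by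
      apply Finset.filter_congr
      intro w _
      unfold Dv
      rw [← tv_dt hv1 hv2 w, ← tv_dt hv3 hv4 w]
      constructor
      · intro h
        push_cast at h
        exact ⟨(dvd_mul_right _ _).trans h, (dvd_mul_left _ _).trans h⟩
      · rintro ⟨h3, h4⟩
        push_cast
        exact (Nat.isCoprime_iff_coprime.2 hpqc).mul_dvd h3 h4
    rw [h2] at h1
    have h3 := (abs_le.1 h1).2
    have h4 : a * x * (1 / ((p : ℝ) + 1) * (1 / ((q : ℝ) + 1))) =
        a * x / (((p : ℝ) + 1) * ((q : ℝ) + 1)) := by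
      have hp0 : ((p : ℝ) + 1) ≠ 0 := by positivity
      have hq0 : ((q : ℝ) + 1) ≠ 0 := by positivity
      field_simp
    rw [h4]
    push_cast at h3
    linarith

/-- TV: `PS_count` with `d = 1`, `d = p`, `d = p q` -/
theorem tk_var_pr (hT : Cls A M T) : ∃ C : ℝ, 1 ≤ C ∧ ∀ (x : ℝ) (B : Finset ℕ) (k₀ : ℕ) (r : El)
    (π : ℕ → El), TP A M B k₀ r π → 1 ≤ x → (∀ p ∈ B, (p : ℝ) ≤ x ^ (1 / 4 : ℝ)) → 1 ≤ rs B →
      ∑ z ∈ PS A M T x, (omB π B z - rs B) ^ 2 ≤ C * x * rs B := by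
  classical
  obtain ⟨C, a, hC, ha0, haC, hcnt⟩ := tv_cnt A hT
  refine ⟨8802 * C, by linarith, ?_⟩
  intro x B k₀ r π hB hx hb hR1
  have hx0 : 0 < x := by linarith
  obtain ⟨hN0, hN1, hN2⟩ := hcnt x B k₀ r π hB hx
  have hne : B.Nonempty := by
    rw [Finset.nonempty_iff_ne_empty]
    rintro rfl
    unfold rs at hR1
    rw [Finset.sum_empty] at hR1
    linarith
  obtain ⟨hlx, hcard⟩ := tv_card hx B (fun p hp => ⟨hB.prime p hp, hB.m4 p hp⟩) hb hne
  set R := rs B with hRdef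
  set N := PS A M T x with hN
  set E := C * Real.sqrt x * (1 + Real.log x) with hE
  have hE0 : 0 ≤ E := by
    rw [hE]
    have := Real.sqrt_nonneg x
    have : 0 ≤ 1 + Real.log x := by linarith
    positivity
  set n : ℝ := (B.card : ℝ) with hn
  have hn1 : 1 ≤ n := by
    rw [hn]
    exact_mod_cast hne.card_pos
  set R1 := ∑ p ∈ B, 1 / ((p : ℝ) + 1) with hR1def
  have hp1 : ∀ p ∈ B, (1 : ℝ) ≤ p := fun p hp => by
    exact_mod_cast (hB.prime p hp).one_lt.le
  have hR10 : 0 ≤ R1 := Finset.sum_nonneg fun p _ => by positivity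
  have hR1R : R1 ≤ R := by
    rw [hRdef, hR1def]
    unfold rs
    apply Finset.sum_le_sum
    intro p hp
    have := hp1 p hp
    apply one_div_le_one_div_of_le <;> linarith
  have hdiff : R - R1 ≤ 1 := by
    have h1 := tv_tel B (fun p hp => (hB.prime p hp).one_lt.le)
    rw [Finset.sum_sub_distrib] at h1
    exact h1
  have hRn : R ≤ n := by
    rw [hRdef, hn]
    unfold rs
    calc ∑ p ∈ B, 1 / (p : ℝ) ≤ ∑ p ∈ B, (1 : ℝ) := by
          apply Finset.sum_le_sum
          intro p hp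
          have := hp1 p hp
          rw [div_le_one (by linarith)]
          exact this
      _ = (B.card : ℝ) := by simp
  -- the error
  have herr : n ^ 2 * E ≤ 800 * C * x := by
    have h1 : (n * Real.log x) ^ 2 ≤ (20 * x ^ (1 / 4 : ℝ)) ^ 2 :=
      pow_le_pow_left₀ (by positivity) hcard 2
    have h2 : (x ^ (1 / 4 : ℝ)) ^ 2 = Real.sqrt x := by
      rw [← Real.rpow_natCast, ← Real.rpow_mul hx0.le, Real.sqrt_eq_rpow]
      norm_num
    have h3 : (20 * x ^ (1 / 4 : ℝ)) ^ 2 = 400 * Real.sqrt x := by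
      rw [mul_pow, h2]
      norm_num
    rw [h3] at h1
    have h4 : Real.sqrt x * Real.sqrt x = x := Real.mul_self_sqrt hx0.le
    have hsx := Real.sqrt_nonneg x
    have h5 : n ^ 2 * (1 + Real.log x) ≤ 2 * (400 * Real.sqrt x) := by
      have h6 : n ^ 2 * (1 + Real.log x) ≤ 2 * (n * Real.log x) ^ 2 := by
        have h7 : 1 + Real.log x ≤ 2 * Real.log x ^ 2 := by nlinarith
        calc n ^ 2 * (1 + Real.log x) ≤ n ^ 2 * (2 * Real.log x ^ 2) :=
              mul_le_mul_of_nonneg_left h7 (by positivity)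
          _ = _ := by ring
      linarith
    calc n ^ 2 * E = C * Real.sqrt x * (n ^ 2 * (1 + Real.log x)) := by
          rw [hE]
          ring
      _ ≤ C * Real.sqrt x * (2 * (400 * Real.sqrt x)) :=
          mul_le_mul_of_nonneg_left h5 (by positivity)
      _ = 800 * C * (Real.sqrt x * Real.sqrt x) := by ring
      _ = 800 * C * x := by rw [h4]
  -- the moments as sums
  have hom : ∀ z : El, omB π B z = ∑ p ∈ B, (if Dv p (π p) z then (1 : ℝ) else 0) := by
    intro z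
    unfold omB
    rw [Finset.card_filter]
    push_cast
    rfl
  have hM1 : ∑ z ∈ N, omB π B z = ∑ p ∈ B, ((N.filter (fun z => Dv p (π p) z)).card : ℝ) := by
    simp_rw [hom]
    rw [Finset.sum_comm]
    apply Finset.sum_congr rfl
    intro p _
    rw [Finset.card_filter]
    push_cast
    rfl
  have hM2 : ∑ z ∈ N, omB π B z ^ 2 = ∑ p ∈ B, ∑ q ∈ B,
      ((N.filter (fun z => Dv p (π p) z ∧ Dv q (π q) z)).card : ℝ) := by
    simp_rw [hom, sq, Finset.sum_mul_sum]
    rw [Finset.sum_comm]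
    apply Finset.sum_congr rfl
    intro p _
    rw [Finset.sum_comm]
    apply Finset.sum_congr rfl
    intro q _
    rw [Finset.card_filter]
    push_cast
    apply Finset.sum_congr rfl
    intro z _
    by_cases h1 : Dv p (π p) z <;> by_cases h2 : Dv q (π q) z <;> simp [h1, h2]
  have hM1_low : a * x * R1 - 2 * n * E ≤ ∑ z ∈ N, omB π B z := by
    rw [hM1]
    have h1 : ∑ p ∈ B, (a * x * (1 / ((p : ℝ) + 1)) - 2 * E) ≤
        ∑ p ∈ B, ((N.filter (fun z => Dv p (π p) z)).card : ℝ) := by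
      apply Finset.sum_le_sum
      intro p hp
      have := (abs_le.1 (hN1 p hp)).1
      linarith
    rw [Finset.sum_sub_distrib, ← Finset.mul_sum, Finset.sum_const, nsmul_eq_mul] at h1
    refine le_trans (le_of_eq ?_) h1
    rw [hR1def, hn]
    ring
  have hM2_up : ∑ z ∈ N, omB π B z ^ 2 ≤ a * x * R1 + 2 * n * E + (a * x * R1 ^ 2 +
      4 * n ^ 2 * E) := by
    rw [hM2]
    have h1 : ∀ p ∈ B, ∑ q ∈ B, ((N.filter (fun z => Dv p (π p) z ∧ Dv q (π q) z)).card : ℝ) ≤
        (a * x * (1 / ((p : ℝ) + 1)) + 2 * E) +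
          (a * x * R1 * (1 / ((p : ℝ) + 1)) + n * (4 * E)) := by
      intro p hp
      rw [← Finset.add_sum_erase B _ hp]
      apply add_le_add
      · simp only [and_self]
        have := (abs_le.1 (hN1 p hp)).2
        linarith
      · calc ∑ q ∈ B.erase p, ((N.filter (fun z => Dv p (π p) z ∧ Dv q (π q) z)).card : ℝ)
            ≤ ∑ q ∈ B.erase p, (a * x * (1 / ((p : ℝ) + 1) * (1 / ((q : ℝ) + 1))) + 4 * E) := by
              apply Finset.sum_le_sum
              intro q hq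
              rw [Finset.mem_erase] at hq
              exact hN2 p hp q hq.2 (fun h => hq.1 h.symm)
          _ ≤ ∑ q ∈ B, (a * x * (1 / ((p : ℝ) + 1) * (1 / ((q : ℝ) + 1))) + 4 * E) := by
              apply Finset.sum_le_sum_of_subset_of_nonneg (Finset.erase_subset _ _)
              intro q _ _
              positivity
          _ = _ := by
              rw [Finset.sum_add_distrib, Finset.sum_const, nsmul_eq_mul, ← hn, hR1def,
                ← Finset.mul_sum, ← Finset.mul_sum]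
              ring
    calc ∑ p ∈ B, ∑ q ∈ B, ((N.filter (fun z => Dv p (π p) z ∧ Dv q (π q) z)).card : ℝ)
        ≤ ∑ p ∈ B, ((a * x * (1 / ((p : ℝ) + 1)) + 2 * E) +
          (a * x * R1 * (1 / ((p : ℝ) + 1)) + n * (4 * E))) := Finset.sum_le_sum h1
      _ = ∑ p ∈ B, (a * x * (1 + R1) * (1 / ((p : ℝ) + 1)) + (2 * E + n * (4 * E))) := by
          apply Finset.sum_congr rfl
          intro p _
          ring
      _ = _ := by
          rw [Finset.sum_add_distrib, ← Finset.mul_sum, Finset.sum_const, nsmul_eq_mul, ← hn,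
            ← hR1def]
          ring
  -- conclusion
  have hexp : ∑ z ∈ N, (omB π B z - R) ^ 2 =
      ∑ z ∈ N, omB π B z ^ 2 - 2 * R * ∑ z ∈ N, omB π B z + R ^ 2 * (N.card : ℝ) := by
    have : ∀ z ∈ N, (omB π B z - R) ^ 2 = omB π B z ^ 2 - 2 * R * omB π B z + R ^ 2 := by
      intro z _
      ring
    rw [Finset.sum_congr rfl this, Finset.sum_add_distrib, Finset.sum_sub_distrib,
      ← Finset.mul_sum, Finset.sum_const, nsmul_eq_mul]
    ring
  rw [hexp]
  have hR0 : 0 ≤ R := by linarith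
  have h1 : 2 * R * (a * x * R1 - 2 * n * E) ≤ 2 * R * ∑ z ∈ N, omB π B z :=
    mul_le_mul_of_nonneg_left hM1_low (by linarith)
  have h2 : R ^ 2 * (N.card : ℝ) ≤ R ^ 2 * (a * x + E) :=
    mul_le_mul_of_nonneg_left hN0 (by positivity)
  have hax : 0 ≤ a * x := by positivity
  have h3 : a * x * (R1 + (R - R1) ^ 2) ≤ C * x * (2 * R) := by
    have h4 : R1 + (R - R1) ^ 2 ≤ 2 * R := by nlinarith
    have h5 : 0 ≤ R1 + (R - R1) ^ 2 := by positivity
    calc a * x * (R1 + (R - R1) ^ 2) ≤ a * x * (2 * R) := mul_le_mul_of_nonneg_left h4 hax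
      _ ≤ C * x * (2 * R) := by
          apply mul_le_mul_of_nonneg_right _ (by linarith)
          exact mul_le_mul_of_nonneg_right haC hx0.le
  have h6 : (2 * n + 4 * n ^ 2 + 4 * R * n + R ^ 2) * E ≤ 11 * (n ^ 2 * E) := by
    have h7 : 2 * n + 4 * n ^ 2 + 4 * R * n + R ^ 2 ≤ 11 * n ^ 2 := by nlinarith
    calc (2 * n + 4 * n ^ 2 + 4 * R * n + R ^ 2) * E ≤ (11 * n ^ 2) * E :=
          mul_le_mul_of_nonneg_right h7 hE0
      _ = _ := by ring
  have h8 : 8800 * C * x ≤ 8800 * C * x * R := by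
    have : 0 ≤ 8800 * C * x := by positivity
    nlinarith
  have hid : a * x * R1 + 2 * n * E + (a * x * R1 ^ 2 + 4 * n ^ 2 * E) -
      2 * R * (a * x * R1 - 2 * n * E) + R ^ 2 * (a * x + E) =
      a * x * (R1 + (R - R1) ^ 2) + (2 * n + 4 * n ^ 2 + 4 * R * n + R ^ 2) * E := by ring
  have hfin : 8802 * C * x * R = C * x * (2 * R) + 8800 * C * x * R := by ring
  rw [hfin]
  linarith

end

theorem tk_var : type_of% @tk_var_pr := @tk_var_pr

end Pool.Agent.AQM
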