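import Pool.Agent.Lib_helper10.T2F.TKR
import Pool.Agent.Lib_helper39.AQM.Defs
import Pool.Agent.Lib_helper39.AQM.AB
import Pool.Agent.Lib_helper39.MQX.ALG
import Pool.Agent.Lib_helper39.MQX.SBA
import Pool.Agent.Lib_helper39.MQX.SBB
import Pool.Agent.Lib_helper39.MQX.SBC
import Pool.Agent.Lib_helper39.MQX.LSV
import Pool.Agent.Lib_helper39.MQX.PAR
import Pool.Agent.Lib_helper39.MQX.FEJ
import Pool.Agent.Lib_helper39.MQX.EXP
import Pool.Agent.Lib_helper39.AQMF.AL1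
import Pool.Agent.Lib_helper39.AQMF.TV
import Pool.Agent.Lib_helper39.AQMF.TA
import Pool.Agent.Lib_helper39.AQMF.TC
import Pool.Agent.Lib_helper39.AQMF.TR1

/-! block TR2 of AQM, proved by helper90 -/

/-! AQM, block TR2: the representation of the twisted sum -/

set_option autoImplicit false

namespace Pool.Agent.AQM

open Pool.Agent.MQ Pool.Agent.T2 Filter Topology MeasureTheory

section
variable {b c : ℤ} (A : Ang b c) (hs : ¬ IsSquare (dsc b c)) {M : ℕ} {T : El → Prop}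
include hs

theorem tk_rep_pr (hT : Cls A M T) : ∃ C : ℝ, 1 ≤ C ∧ ∀ h : ℕ → ℤ, Sgn h → ∀ (Y ρ P : ℝ)
    (B : Finset ℕ) (V : ℕ) (k₀ : ℕ) (r : El) (π : ℕ → El), TP A M B k₀ r π →
    1 ≤ Y → 1 < ρ → ρ ≤ 2 → Y ^ (-(1 / 16) : ℝ) ≤ ρ - 1 → 2 ≤ P →
    (∀ p ∈ B, P < (p : ℝ) ∧ (p : ℝ) ≤ Y ^ (1 / 4 : ℝ) ∧ (p : ℝ) ≤ ρ ^ V) → 1 ≤ rs B →
    ∃ a : El → ℂ, ∑ z ∈ PF A (2 * Y), ‖a z‖ ^ 2 ≤
        C * Y * (1 / rs B + (ρ - 1) + 1 / (rs B ^ 2 * Real.log P)) ∧
      ∀ k : ℤ, Sv A h M T k Y - (1 / (rs B : ℂ)) * ∑ v ∈ Finset.range V,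
        Qv A h π k (blk ρ v B) * Sv A h (M * k₀) (QC b c k₀ r T) k (k₀ * Y / ρ ^ v) =
          ∑ z ∈ PF A (2 * Y), a z * ex (k * A.u z) := by
  classical
  obtain ⟨C₁, hC₁, hvar⟩ := tk_var A hs hT
  obtain ⟨C₂, hC₂, hann⟩ := tk_ann A hs hT
  obtain ⟨C₃, hC₃, hcop⟩ := tk_cop A
  refine ⟨3 * (C₁ + 4 * C₂ + C₃), by linarith, ?_⟩
  intro h hh Y ρ P B V k₀ r π hB hY hρ hρ2 hYρ hP hBr hrs
  obtain ⟨e, heV, he, hblk⟩ := tkr_block hρ (V := V) (B := B)
    (fun p hp => ⟨by linarith [(hBr p hp).1], (hBr p hp).2.2⟩)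
  have hY0 : 0 < Y := by linarith
  obtain ⟨Ω, hΩ⟩ : ∃ Ω : ℝ, Ω = rs B := ⟨_, rfl⟩
  rw [← hΩ] at hrs
  simp only [← hΩ]
  have hΩ0 : 0 < Ω := by linarith
  have hΩc : (Ω : ℂ) ≠ 0 := by exact_mod_cast hΩ0.ne'
  have hlogP : 0 < Real.log P := Real.log_pos (by linarith)
  have hrange : ∀ p ∈ B, (p : ℝ) ≤ Y := by
    intro p hp
    refine le_trans (hBr p hp).2.1 ?_
    calc Y ^ (1 / 4 : ℝ) ≤ Y ^ (1 : ℝ) := Real.rpow_le_rpow_of_exponent_le hY (by norm_num)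
      _ = Y := Real.rpow_one Y
  have hnpos : ∀ z ∈ PF A (2 * Y), 0 < nm b c z := by
    intro z hz
    rw [mem_PF] at hz
    exact A.wd_nm z hz.1
  have hgn : ∀ z ∈ PF A (2 * Y), ‖(gg b c h z : ℂ)‖ = 1 :=
    fun z hz => gg_norm hh (hnpos z hz).ne'
  have hPS : ∀ X : ℝ, X ≤ 2 * Y → ∀ z : El, z ∈ PS A M T X ↔
      (z ∈ PF A (2 * Y) ∧ T z ∧ (nm b c z : ℝ) ≤ X) := by
    intro X hX z
    constructor
    · intro hz
      have h1 := PS_T_prim A hT hz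
      rw [mem_PS] at hz
      exact ⟨(mem_PF A).2 ⟨hz.1, hz.2.1.trans hX, h1⟩, hz.2.2.1, hz.2.1⟩
    · rintro ⟨h1, h2, h3⟩
      rw [mem_PF] at h1
      rw [mem_PS]
      refine ⟨h1.1, h3, h2, fun l hl hlz => ?_⟩
      exfalso
      have h4 : (l : ℤ) ∣ (Int.gcd z.1 z.2 : ℤ) := Int.dvd_coe_gcd hlz.1 hlz.2
      have h5 : Int.gcd z.1 z.2 = 1 := h1.2.2
      rw [h5] at h4
      have h6 : l ∣ 1 := by exact_mod_cast h4
      exact hl.one_lt.ne' (Nat.dvd_one.mp h6)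
  -- the coefficients
  obtain ⟨N₁, hN₁⟩ : ∃ N₁ : El → Finset ℕ, N₁ = fun z => B.filter (fun p => T z ∧ Dv p (π p) z ∧
    Y < (nm b c z : ℝ) ∧ (nm b c z : ℝ) * ρ ^ (e p) ≤ p * Y) := ⟨_, rfl⟩
  obtain ⟨N₂, hN₂⟩ : ∃ N₂ : El → Finset ℕ, N₂ = fun z => B.filter (fun p =>
    QC b c k₀ r T (ml b c (cj b (π p)) z) ∧
          (∀ l : ℕ, l.Prime → dv l (ml b c (cj b (π p)) z) → l ∣ M * k₀) ∧
          (p : ℝ) * nm b c z * ρ ^ (e p) ≤ Y) := ⟨_, rfl⟩
  obtain ⟨c₁, hc₁⟩ : ∃ c₁ : El → ℂ, c₁ = fun z => -(1 / (Ω : ℂ)) * ((gg b c h z : ℂ) *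
    ((N₁ z).card : ℂ)) := ⟨_, rfl⟩
  obtain ⟨c₂, hc₂⟩ : ∃ c₂ : El → ℂ, c₂ = fun z => -(1 / (Ω : ℂ)) * ((gg b c h z : ℂ) *
    ((N₂ z).card : ℂ)) := ⟨_, rfl⟩
  obtain ⟨c₃, hc₃⟩ : ∃ c₃ : El → ℂ, c₃ = fun z => if T z ∧ (nm b c z : ℝ) ≤ Y then
    (1 - (omB π B z : ℂ) / (Ω : ℂ)) * (gg b c h z : ℂ) else 0 := ⟨_, rfl⟩
  have hnΩ : ‖-(1 / (Ω : ℂ))‖ = 1 / Ω := by
    rw [norm_neg, norm_div, norm_one, Complex.norm_real, Real.norm_eq_abs, abs_of_pos hΩ0]
  -- bound for `c₁`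
  have hb₁ : ∑ z ∈ PF A (2 * Y), ‖c₁ z‖ ^ 2 ≤ 4 * C₂ * ((ρ - 1) * Y) := by
    have hle : ∀ z ∈ PF A (2 * Y), ‖c₁ z‖ ≤ 1 / Ω * ((N₁ z).card : ℝ) := by
      intro z hz
      rw [hc₁]
      simp only
      rw [norm_mul, hnΩ, norm_mul, Complex.norm_natCast, hgn z hz, one_mul]
    have hρY : ρ * Y ≤ 2 * Y := mul_le_mul_of_nonneg_right hρ2 hY0.le
    have hsub : (PS A M T (ρ * Y)).filter (fun z => Y < (nm b c z : ℝ)) ⊆ PF A (2 * Y) := by
      intro z hz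
      rw [Finset.mem_filter, hPS _ hρY] at hz
      exact hz.1.1
    have hzero : ∀ z ∈ PF A (2 * Y),
        z ∉ (PS A M T (ρ * Y)).filter (fun z => Y < (nm b c z : ℝ)) → ‖c₁ z‖ ^ 2 = 0 := by
      intro z hz hz2
      have hem : N₁ z = ∅ := by
        rw [hN₁]
        simp only
        rw [Finset.filter_eq_empty_iff]
        rintro p hp ⟨h0, h1, h2, h3⟩
        apply hz2
        rw [Finset.mem_filter, hPS _ hρY]
        refine ⟨⟨hz, h0, ?_⟩, h2⟩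
        have hρb : 0 < ρ ^ (e p) := by positivity
        have h4 : (nm b c z : ℝ) * ρ ^ (e p) ≤ (ρ * Y) * ρ ^ (e p) := by
          refine le_trans h3 ?_
          have h5 := (he p hp).2
          rw [pow_succ] at h5
          calc (p : ℝ) * Y ≤ (ρ ^ (e p) * ρ) * Y := mul_le_mul_of_nonneg_right h5 hY0.le
            _ = _ := by ring
        exact le_of_mul_le_mul_right h4 hρb
      have : ‖c₁ z‖ ≤ 0 := by
        refine le_trans (hle z hz) ?_
        rw [hem]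
        simp
      have h0 : ‖c₁ z‖ = 0 := le_antisymm this (norm_nonneg _)
      rw [h0]
      norm_num
    rw [← Finset.sum_subset hsub hzero]
    have hA := hann Y ρ B k₀ r π hB hY hρ hρ2 hYρ (fun p hp => (hBr p hp).2.1)
    rw [← hΩ] at hA
    have hom : ∀ z ∈ (PS A M T (ρ * Y)).filter (fun z => Y < (nm b c z : ℝ)),
        ‖c₁ z‖ ^ 2 ≤ (1 / Ω) ^ 2 * omB π B z ^ 2 := by
      intro z hz
      rw [← mul_pow]
      apply pow_le_pow_left₀ (norm_nonneg _)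
      refine le_trans (hle z (hsub hz)) ?_
      apply mul_le_mul_of_nonneg_left _ (by positivity)
      rw [omB, hN₁]
      simp only [Nat.cast_le]
      apply Finset.card_le_card
      intro p hp
      rw [Finset.mem_filter] at hp ⊢
      exact ⟨hp.1, hp.2.2.1⟩
    calc ∑ z ∈ (PS A M T (ρ * Y)).filter (fun z => Y < (nm b c z : ℝ)), ‖c₁ z‖ ^ 2 ≤
        ∑ z ∈ (PS A M T (ρ * Y)).filter (fun z => Y < (nm b c z : ℝ)),
          (1 / Ω) ^ 2 * omB π B z ^ 2 := Finset.sum_le_sum hom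
      _ = (1 / Ω) ^ 2 * ∑ z ∈ (PS A M T (ρ * Y)).filter (fun z => Y < (nm b c z : ℝ)),
          omB π B z ^ 2 := by rw [Finset.mul_sum]
      _ ≤ (1 / Ω) ^ 2 * (C₂ * (ρ - 1) * Y * (Ω + 1) ^ 2) :=
          mul_le_mul_of_nonneg_left hA (by positivity)
      _ ≤ (1 / Ω) ^ 2 * (C₂ * (ρ - 1) * Y * (2 * Ω) ^ 2) := by
          apply mul_le_mul_of_nonneg_left _ (by positivity)
          have h1 : 0 ≤ C₂ * (ρ - 1) * Y := by
            have : 0 ≤ ρ - 1 := by linarith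
            positivity
          apply mul_le_mul_of_nonneg_left _ h1
          apply pow_le_pow_left₀ (by linarith)
          linarith
      _ = 4 * C₂ * ((ρ - 1) * Y) := by
          field_simp
          ring
  -- bound for `c₂`
  have hb₂ : ∑ z ∈ PF A (2 * Y), ‖c₂ z‖ ^ 2 ≤ C₃ * (Y * (1 / (Ω ^ 2 * Real.log P))) := by
    have hle : ∀ z ∈ PF A (2 * Y), ‖c₂ z‖ ^ 2 ≤ (1 / Ω) ^ 2 * (((Finset.range (⌊Y⌋₊ + 1)).filter
        (fun p : ℕ => p.Prime ∧ P < (p : ℝ) ∧ (p : ℝ) ^ 2 * nm b c z ≤ 2 * Y)).card : ℝ) ^ 2 := by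
      intro z hz
      rw [← mul_pow]
      apply pow_le_pow_left₀ (norm_nonneg _)
      rw [hc₂]
      simp only
      rw [norm_mul, hnΩ, norm_mul, Complex.norm_natCast, hgn z hz, one_mul]
      apply mul_le_mul_of_nonneg_left _ (by positivity)
      rw [hN₂]
      simp only [Nat.cast_le]
      apply Finset.card_le_card
      intro p hp
      rw [Finset.mem_filter] at hp
      obtain ⟨hp1, hp2, hp2', hp3⟩ := hp
      rw [Finset.mem_filter, Finset.mem_range]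
      refine ⟨?_, hB.prime p hp1, (hBr p hp1).1, ?_⟩
      · rw [Nat.lt_succ_iff]
        exact Nat.le_floor (hrange p hp1)
      · have h5 := (he p hp1).2
        rw [pow_succ] at h5
        have hp0 : (0 : ℝ) ≤ p := Nat.cast_nonneg _
        have hn0 : (0 : ℝ) ≤ (nm b c z : ℝ) := by exact_mod_cast (hnpos z hz).le
        have hρb : 0 < ρ ^ (e p) := by positivity
        calc (p : ℝ) ^ 2 * nm b c z = (p * nm b c z) * p := by ring
          _ ≤ (p * nm b c z) * (ρ ^ (e p) * ρ) :=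
              mul_le_mul_of_nonneg_left h5 (by positivity)
          _ = ρ * (p * nm b c z * ρ ^ (e p)) := by ring
          _ ≤ ρ * Y := mul_le_mul_of_nonneg_left hp3 (by linarith)
          _ ≤ 2 * Y := mul_le_mul_of_nonneg_right hρ2 hY0.le
    calc ∑ z ∈ PF A (2 * Y), ‖c₂ z‖ ^ 2 ≤ ∑ z ∈ PF A (2 * Y), (1 / Ω) ^ 2 *
          (((Finset.range (⌊Y⌋₊ + 1)).filter
          (fun p : ℕ => p.Prime ∧ P < (p : ℝ) ∧ (p : ℝ) ^ 2 * nm b c z ≤ 2 * Y)).card : ℝ) ^ 2 :=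
          Finset.sum_le_sum hle
      _ = (1 / Ω) ^ 2 * ∑ z ∈ PF A (2 * Y), (((Finset.range (⌊Y⌋₊ + 1)).filter
          (fun p : ℕ => p.Prime ∧ P < (p : ℝ) ∧ (p : ℝ) ^ 2 * nm b c z ≤ 2 * Y)).card : ℝ) ^ 2 := by
          rw [Finset.mul_sum]
      _ ≤ (1 / Ω) ^ 2 * (C₃ * Y / Real.log P) :=
          mul_le_mul_of_nonneg_left (hcop Y P hY hP) (by positivity)
      _ = C₃ * (Y * (1 / (Ω ^ 2 * Real.log P))) := by
          field_simp
  -- bound for `c₃`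
  have hb₃ : ∑ z ∈ PF A (2 * Y), ‖c₃ z‖ ^ 2 ≤ C₁ * (Y * (1 / Ω)) := by
    have hYY : Y ≤ 2 * Y := by linarith
    have hsub : PS A M T Y ⊆ PF A (2 * Y) := by
      intro z hz
      rw [hPS _ hYY] at hz
      exact hz.1
    have hzero : ∀ z ∈ PF A (2 * Y), z ∉ PS A M T Y → ‖c₃ z‖ ^ 2 = 0 := by
      intro z hz hz2
      have : ¬ (T z ∧ (nm b c z : ℝ) ≤ Y) := fun h => hz2 ((hPS _ hYY z).2 ⟨hz, h.1, h.2⟩)
      rw [hc₃]
      simp only [if_neg this, norm_zero]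
      norm_num
    rw [← Finset.sum_subset hsub hzero]
    have hV := hvar Y B k₀ r π hB hY (fun p hp => (hBr p hp).2.1) (by rw [← hΩ]; exact hrs)
    rw [← hΩ] at hV
    have hle : ∀ z ∈ PS A M T Y, ‖c₃ z‖ ^ 2 ≤ (1 / Ω) ^ 2 * (omB π B z - Ω) ^ 2 := by
      intro z hz
      have hz1 := hsub hz
      rw [hPS _ hYY] at hz
      rw [hc₃]
      simp only [if_pos (show T z ∧ (nm b c z : ℝ) ≤ Y from ⟨hz.2.1, hz.2.2⟩)]
      rw [← mul_pow, ← sq_abs (1 / Ω * (omB π B z - Ω))]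
      apply pow_le_pow_left₀ (norm_nonneg _)
      rw [norm_mul, hgn z hz1, mul_one]
      have : (1 - (omB π B z : ℂ) / (Ω : ℂ)) = ((-(1 / Ω * (omB π B z - Ω)) : ℝ) : ℂ) := by
        push_cast
        field_simp
        ring
      rw [this, Complex.norm_real, Real.norm_eq_abs, abs_neg]
    calc ∑ z ∈ PS A M T Y, ‖c₃ z‖ ^ 2 ≤ ∑ z ∈ PS A M T Y, (1 / Ω) ^ 2 * (omB π B z - Ω) ^ 2 :=
          Finset.sum_le_sum hle
      _ = (1 / Ω) ^ 2 * ∑ z ∈ PS A M T Y, (omB π B z - Ω) ^ 2 := by rw [Finset.mul_sum]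
      _ ≤ (1 / Ω) ^ 2 * (C₁ * Y * Ω) := mul_le_mul_of_nonneg_left hV (by positivity)
      _ = C₁ * (Y * (1 / Ω)) := by
          field_simp
  refine ⟨fun z => c₁ z + c₂ z + c₃ z, ?_, ?_⟩
  · calc ∑ z ∈ PF A (2 * Y), ‖c₁ z + c₂ z + c₃ z‖ ^ 2 ≤
        ∑ z ∈ PF A (2 * Y), 3 * (‖c₁ z‖ ^ 2 + ‖c₂ z‖ ^ 2 + ‖c₃ z‖ ^ 2) :=
          Finset.sum_le_sum (fun z _ => tkr_three _ _ _)
      _ = 3 * (∑ z ∈ PF A (2 * Y), ‖c₁ z‖ ^ 2 + ∑ z ∈ PF A (2 * Y), ‖c₂ z‖ ^ 2 +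
          ∑ z ∈ PF A (2 * Y), ‖c₃ z‖ ^ 2) := by
          rw [← Finset.mul_sum, Finset.sum_add_distrib, Finset.sum_add_distrib]
      _ ≤ 3 * (4 * C₂ * ((ρ - 1) * Y) + C₃ * (Y * (1 / (Ω ^ 2 * Real.log P))) +
          C₁ * (Y * (1 / Ω))) := by linarith
      _ ≤ 3 * (C₁ + 4 * C₂ + C₃) * Y * (1 / Ω + (ρ - 1) + 1 / (Ω ^ 2 * Real.log P)) := by
          have h1 : 0 ≤ (ρ - 1) * Y := mul_nonneg (by linarith) hY0.le
          have h2 : 0 ≤ Y * (1 / (Ω ^ 2 * Real.log P)) := by positivity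
          have h3 : 0 ≤ Y * (1 / Ω) := by positivity
          have h4 : 3 * (C₁ + 4 * C₂ + C₃) * Y * (1 / Ω + (ρ - 1) + 1 / (Ω ^ 2 * Real.log P)) =
            3 * ((C₁ + 4 * C₂ + C₃) * ((ρ - 1) * Y) +
              (C₁ + 4 * C₂ + C₃) * (Y * (1 / (Ω ^ 2 * Real.log P))) +
              (C₁ + 4 * C₂ + C₃) * (Y * (1 / Ω))) := by ring
          rw [h4]
          have h5 := mul_le_mul_of_nonneg_right (show 4 * C₂ ≤ C₁ + 4 * C₂ + C₃ by linarith) h1
          have h6 := mul_le_mul_of_nonneg_right (show C₃ ≤ C₁ + 4 * C₂ + C₃ by linarith) h2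
          have h7 := mul_le_mul_of_nonneg_right (show C₁ ≤ C₁ + 4 * C₂ + C₃ by linarith) h3
          linarith
  · intro k
    have hQ : ∑ v ∈ Finset.range V, Qv A h π k (blk ρ v B) *
        Sv A h (M * k₀) (QC b c k₀ r T) k (k₀ * Y / ρ ^ v) =
        ∑ p ∈ B, (gg b c h (π p) : ℂ) * ex (k * A.u (π p)) *
          Sv A h (M * k₀) (QC b c k₀ r T) k (k₀ * Y / ρ ^ (e p)) := by
      rw [← Finset.sum_fiberwise_of_maps_to heV]
      apply Finset.sum_congr rfl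
      intro v _
      rw [hblk v, Qv, Finset.sum_mul]
      apply Finset.sum_congr rfl
      intro p hp
      rw [Finset.mem_filter] at hp
      rw [hp.2]
    have hprime : ∀ p ∈ B, (gg b c h (π p) : ℂ) * ex (k * A.u (π p)) *
          Sv A h (M * k₀) (QC b c k₀ r T) k (k₀ * Y / ρ ^ (e p)) =
        ∑ z ∈ (PF A (2 * Y)).filter (fun z => QC b c k₀ r T (ml b c (cj b (π p)) z) ∧
          (∀ l : ℕ, l.Prime → dv l (ml b c (cj b (π p)) z) → l ∣ M * k₀) ∧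
          (p : ℝ) * nm b c z * ρ ^ (e p) ≤ Y), (gg b c h z : ℂ) * ex (k * A.u z)
        + ∑ z ∈ (PF A (2 * Y)).filter (fun z => T z ∧ Dv p (π p) z ∧ Y < (nm b c z : ℝ) ∧
          (nm b c z : ℝ) * ρ ^ (e p) ≤ p * Y), (gg b c h z : ℂ) * ex (k * A.u z)
        + ∑ z ∈ (PF A Y).filter (fun z => T z ∧ Dv p (π p) z),
          (gg b c h z : ℂ) * ex (k * A.u z) := by
      intro p hp
      exact rep_prime A hs hT hh hB k hp hY hρ hρ2 (he p hp).1 (he p hp).2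
    rw [hQ, Finset.sum_congr rfl hprime, Finset.sum_add_distrib, Finset.sum_add_distrib]
    -- exchange the sums
    have s2 : ∑ p ∈ B, ∑ z ∈ (PF A (2 * Y)).filter (fun z =>
          QC b c k₀ r T (ml b c (cj b (π p)) z) ∧
          (∀ l : ℕ, l.Prime → dv l (ml b c (cj b (π p)) z) → l ∣ M * k₀) ∧
          (p : ℝ) * nm b c z * ρ ^ (e p) ≤ Y), (gg b c h z : ℂ) * ex (k * A.u z) =
        ∑ z ∈ PF A (2 * Y), ((N₂ z).card : ℂ) * ((gg b c h z : ℂ) * ex (k * A.u z)) := by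
      simp only [hN₂, Finset.card_filter, Finset.sum_filter]
      rw [Finset.sum_comm]
      apply Finset.sum_congr rfl
      intro z _
      rw [Nat.cast_sum, Finset.sum_mul]
      apply Finset.sum_congr rfl
      intro p _
      split_ifs <;> simp
    have s1 : ∑ p ∈ B, ∑ z ∈ (PF A (2 * Y)).filter (fun z => T z ∧ Dv p (π p) z ∧
          Y < (nm b c z : ℝ) ∧ (nm b c z : ℝ) * ρ ^ (e p) ≤ p * Y),
          (gg b c h z : ℂ) * ex (k * A.u z) =
        ∑ z ∈ PF A (2 * Y), ((N₁ z).card : ℂ) * ((gg b c h z : ℂ) * ex (k * A.u z)) := by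
      simp only [hN₁, Finset.card_filter, Finset.sum_filter]
      rw [Finset.sum_comm]
      apply Finset.sum_congr rfl
      intro z _
      rw [Nat.cast_sum, Finset.sum_mul]
      apply Finset.sum_congr rfl
      intro p _
      split_ifs <;> simp
    have hPFY : PF A Y = (PF A (2 * Y)).filter (fun z => (nm b c z : ℝ) ≤ Y) := by
      ext z
      rw [Finset.mem_filter, mem_PF, mem_PF]
      constructor
      · rintro ⟨h1, h2, h3⟩
        exact ⟨⟨h1, by linarith, h3⟩, h2⟩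
      · rintro ⟨⟨h1, _, h3⟩, h2⟩
        exact ⟨h1, h2, h3⟩
    have hPSY : PS A M T Y = (PF A (2 * Y)).filter (fun z => T z ∧ (nm b c z : ℝ) ≤ Y) := by
      ext z
      rw [Finset.mem_filter]
      exact hPS Y (by linarith) z
    have s3 : ∑ p ∈ B, ∑ z ∈ (PF A Y).filter (fun z => T z ∧ Dv p (π p) z),
          (gg b c h z : ℂ) * ex (k * A.u z) =
        ∑ z ∈ PS A M T Y, (omB π B z : ℂ) * ((gg b c h z : ℂ) * ex (k * A.u z)) := by
      rw [hPSY, hPFY]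
      simp only [omB, Finset.card_filter, Finset.sum_filter]
      rw [Finset.sum_comm]
      apply Finset.sum_congr rfl
      intro z _
      by_cases h1 : T z
      · by_cases h2 : (nm b c z : ℝ) ≤ Y
        · rw [if_pos ⟨h1, h2⟩]
          push_cast
          rw [Finset.sum_mul]
          apply Finset.sum_congr rfl
          intro p _
          rw [if_pos h2]
          by_cases h3 : Dv p (π p) z
          · rw [if_pos ⟨h1, h3⟩, if_pos h3]
            simp only [Int.cast_one, Nat.cast_one, Complex.ofReal_one, one_mul]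
          · rw [if_neg (fun h => h3 h.2), if_neg h3]
            simp only [Int.cast_zero, Nat.cast_zero, Complex.ofReal_zero, zero_mul]
        · rw [if_neg (fun h => h2 h.2)]
          apply Finset.sum_eq_zero
          intro p _
          rw [if_neg h2]
      · rw [if_neg (fun h => h1 h.1)]
        apply Finset.sum_eq_zero
        intro p _
        split_ifs with h2 h3
        · exact absurd h3.1 h1
        · rfl
        · rfl
    have f3 : ∑ z ∈ PF A (2 * Y), c₃ z * ex (k * A.u z) = Sv A h M T k Y -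
        (1 / (Ω : ℂ)) * ∑ z ∈ PS A M T Y, (omB π B z : ℂ) *
          ((gg b c h z : ℂ) * ex (k * A.u z)) := by
      rw [Sv, Finset.mul_sum, ← Finset.sum_sub_distrib, hPSY, Finset.sum_filter]
      apply Finset.sum_congr rfl
      intro z _
      rw [hc₃]
      simp only
      split_ifs
      · ring
      · rw [zero_mul]
    have f1 : ∑ z ∈ PF A (2 * Y), c₁ z * ex (k * A.u z) = -((1 / (Ω : ℂ)) *
        ∑ z ∈ PF A (2 * Y), ((N₁ z).card : ℂ) * ((gg b c h z : ℂ) * ex (k * A.u z))) := by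
      rw [Finset.mul_sum, ← Finset.sum_neg_distrib]
      apply Finset.sum_congr rfl
      intro z _
      rw [hc₁]
      simp only
      ring
    have f2 : ∑ z ∈ PF A (2 * Y), c₂ z * ex (k * A.u z) = -((1 / (Ω : ℂ)) *
        ∑ z ∈ PF A (2 * Y), ((N₂ z).card : ℂ) * ((gg b c h z : ℂ) * ex (k * A.u z))) := by
      rw [Finset.mul_sum, ← Finset.sum_neg_distrib]
      apply Finset.sum_congr rfl
      intro z _
      rw [hc₂]
      simp only
      ring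
    rw [s1, s2, s3]
    simp only [add_mul, Finset.sum_add_distrib]
    rw [f1, f2, f3]
    ring

end

theorem tk_rep : type_of% @tk_rep_pr := @tk_rep_pr

end Pool.Agent.AQM
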