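import Pool.Agent.Lib_helper39.AQM.Defs
import Pool.Agent.Lib_helper39.AQM.AB
import Pool.Agent.Lib_helper39.MQX.ALG
import Pool.Agent.Lib_helper39.MQX.SBA
import Pool.Agent.Lib_helper39.MQX.SBB
import Pool.Agent.Lib_helper39.MQX.SBC
import Pool.Agent.Lib_helper39.MQX.LSV
import Pool.Agent.Lib_helper39.MQX.PAR
import Pool.Agent.Lib_helper39.MQX.FEJ
import Pool.Agent.Lib_helper39.MQX.EXP
import Pool.Agent.Lib_helper39.AQMF.LS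
import Pool.Agent.Lib_helper39.AQMF.TR2

/-! block L4A of AQM, proved by helper32 -/

/-! block L4A of AQM (helper32) -/

set_option autoImplicit false

namespace Pool.Agent.AQM

open Pool.Agent.MQ Pool.Agent.T2 Filter Topology MeasureTheory

section
variable {b c : ℤ} (A : Ang b c) (hs : ¬ IsSquare (dsc b c)) {M : ℕ} {T : El → Prop}

include hs in
/-- L4A: template `l4_A` -/
theorem l4_A_pr (hT : Cls A M T) : ∃ C : ℝ, 1 ≤ C ∧ ∀ h : ℕ → ℤ, Sgn h → ∀ (Y ρ P : ℝ)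
    (B : Finset ℕ) (V : ℕ) (k₀ : ℕ) (r : El) (π : ℕ → El) (U : Finset ℤ), TP A M B k₀ r π →
    1 ≤ Y → 1 < ρ → ρ ≤ 2 → Y ^ (-(1 / 16) : ℝ) ≤ ρ - 1 → 2 ≤ P →
    (∀ p ∈ B, P < (p : ℝ) ∧ (p : ℝ) ≤ Y ^ (1 / 4 : ℝ) ∧ (p : ℝ) ≤ ρ ^ V) → 1 ≤ rs B →
    U ⊆ Ks Y → ∑ k ∈ U, ‖Sv A h M T k Y‖ ^ 2 ≤ C * Y ^ 2 * (1 / rs B + (ρ - 1)) +
      2 * ∑ k ∈ U, ‖∑ v ∈ Finset.range V, Qv A h π k (blk ρ v B) *
        Sv A h (M * k₀) (QC b c k₀ r T) k (k₀ * Y / ρ ^ v)‖ ^ 2 := by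
  obtain ⟨C₁, hC₁, h1⟩ := tk_rep A hs hT
  obtain ⟨C₂, hC₂, h2⟩ := lsieve A
  refine ⟨18 * C₁ * C₂, by nlinarith, ?_⟩
  intro h hh Y ρ P B V k₀ r π U hB hY hρ hρ2 hYρ hP hBp hrs hU
  obtain ⟨a, ha, hrep⟩ := h1 h hh Y ρ P B V k₀ r π hB hY hρ hρ2 hYρ hP hBp hrs
  have hls := (h2 Y (2 * Y) (by linarith) (by linarith)).1 a
  have hlogP : (1 / 2 : ℝ) ≤ Real.log P := by
    have : Real.log 2 ≤ Real.log P := Real.log_le_log (by norm_num) hP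
    have := Real.log_two_gt_d9
    linarith
  have hrs0 : 0 < rs B := by linarith
  have h3 : 1 / (rs B ^ 2 * Real.log P) ≤ 2 * (1 / rs B) := by
    rw [div_le_iff₀ (by positivity)]
    have : 2 * (1 / rs B) * (rs B ^ 2 * Real.log P) = 2 * rs B * Real.log P := by field_simp
    rw [this]
    nlinarith
  have h4 : ∑ k ∈ U, ‖∑ z ∈ PF A (2 * Y), a z * ex (k * A.u z)‖ ^ 2 ≤
      9 * C₁ * C₂ * Y ^ 2 * (1 / rs B + (ρ - 1)) := by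
    calc ∑ k ∈ U, ‖∑ z ∈ PF A (2 * Y), a z * ex (k * A.u z)‖ ^ 2
        ≤ ∑ k ∈ Ks Y, ‖∑ z ∈ PF A (2 * Y), a z * ex (k * A.u z)‖ ^ 2 :=
          Finset.sum_le_sum_of_subset_of_nonneg hU (fun _ _ _ => by positivity)
      _ ≤ C₂ * (Y + 2 * Y) * ∑ z ∈ PF A (2 * Y), ‖a z‖ ^ 2 := hls
      _ ≤ C₂ * (Y + 2 * Y) * (C₁ * Y * (1 / rs B + (ρ - 1) + 1 / (rs B ^ 2 * Real.log P))) := by
          gcongr
      _ ≤ C₂ * (Y + 2 * Y) * (C₁ * Y * (1 / rs B + (ρ - 1) + 2 * (1 / rs B))) := by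
          gcongr
      _ ≤ C₂ * (Y + 2 * Y) * (C₁ * Y * (3 * (1 / rs B + (ρ - 1)))) := by
          gcongr
          linarith
      _ = _ := by ring
  have h5 : ∀ k, ‖Sv A h M T k Y‖ ^ 2 ≤ 2 * ‖∑ z ∈ PF A (2 * Y), a z * ex (k * A.u z)‖ ^ 2 +
      2 * ‖∑ v ∈ Finset.range V, Qv A h π k (blk ρ v B) *
        Sv A h (M * k₀) (QC b c k₀ r T) k (k₀ * Y / ρ ^ v)‖ ^ 2 := by
    intro k
    have h6 := hrep k
    set S := ∑ v ∈ Finset.range V, Qv A h π k (blk ρ v B) *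
      Sv A h (M * k₀) (QC b c k₀ r T) k (k₀ * Y / ρ ^ v) with hS
    set R := ∑ z ∈ PF A (2 * Y), a z * ex (k * A.u z) with hR
    have h7 : Sv A h M T k Y = R + (1 / (rs B : ℂ)) * S := by rw [← h6]; ring
    have h8 : ‖(1 / (rs B : ℂ)) * S‖ ≤ ‖S‖ := by
      rw [norm_mul]
      have : ‖(1 / (rs B : ℂ))‖ ≤ 1 := by
        rw [norm_div, norm_one, Complex.norm_real, Real.norm_of_nonneg hrs0.le,
          div_le_one hrs0]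
        exact hrs
      nlinarith [norm_nonneg S]
    have h9 : ‖Sv A h M T k Y‖ ≤ ‖R‖ + ‖S‖ := by
      rw [h7]
      exact (norm_add_le _ _).trans (by linarith)
    have := norm_nonneg R
    have := norm_nonneg S
    have := norm_nonneg (Sv A h M T k Y)
    nlinarith [sq_nonneg (‖R‖ - ‖S‖)]
  calc ∑ k ∈ U, ‖Sv A h M T k Y‖ ^ 2
      ≤ ∑ k ∈ U, (2 * ‖∑ z ∈ PF A (2 * Y), a z * ex (k * A.u z)‖ ^ 2 +
      2 * ‖∑ v ∈ Finset.range V, Qv A h π k (blk ρ v B) *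
        Sv A h (M * k₀) (QC b c k₀ r T) k (k₀ * Y / ρ ^ v)‖ ^ 2) :=
        Finset.sum_le_sum (fun k _ => h5 k)
    _ = 2 * ∑ k ∈ U, ‖∑ z ∈ PF A (2 * Y), a z * ex (k * A.u z)‖ ^ 2 + 2 * ∑ k ∈ U,
      ‖∑ v ∈ Finset.range V, Qv A h π k (blk ρ v B) *
        Sv A h (M * k₀) (QC b c k₀ r T) k (k₀ * Y / ρ ^ v)‖ ^ 2 := by
        rw [Finset.sum_add_distrib, Finset.mul_sum, Finset.mul_sum]
    _ ≤ _ := by nlinarith [h4]

end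

theorem l4_A : type_of% @l4_A_pr := @l4_A_pr

end Pool.Agent.AQM
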