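import Pool.Agent.Lib_helper39.AQM.Defs
import Pool.Agent.Lib_helper39.AQM.AB
import Pool.Agent.Lib_helper39.MQX.ALG
import Pool.Agent.Lib_helper39.MQX.SBA
import Pool.Agent.Lib_helper39.MQX.SBB
import Pool.Agent.Lib_helper39.MQX.SBC
import Pool.Agent.Lib_helper39.MQX.LSV
import Pool.Agent.Lib_helper39.MQX.PAR
import Pool.Agent.Lib_helper39.MQX.FEJ
import Pool.Agent.Lib_helper39.MQX.EXP
import Pool.Agent.Lib_helper39.AQMF.AL1

/-! block LS of AQM, proved by helper41 -/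

set_option autoImplicit false

namespace Pool.Agent.AQM

open Pool.Agent.MQ Pool.Agent.T2 Filter Topology MeasureTheory

theorem ls_KK (K : ℝ) : KK (⌊K⌋ + 1 : ℤ) = Ks K := by
  unfold KK Ks
  ext k
  rw [Finset.mem_Icc]
  simp only [Finset.mem_Ioo, Int.ceil_intCast]
  omega

theorem lsieve_pr {b c : ℤ} (A : Ang b c) : ∃ C : ℝ, 1 ≤ C ∧ ∀ K x : ℝ, 0 ≤ K → 1 ≤ x →
    (∀ a : El → ℂ, ∑ k ∈ Ks K, ‖∑ z ∈ PF A x, a z * ex (k * A.u z)‖ ^ 2 ≤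
      C * (K + x) * ∑ z ∈ PF A x, ‖a z‖ ^ 2) ∧
    (∀ a : ℤ → ℂ, ∑ z ∈ PF A x, ‖∑ k ∈ Ks K, a k * ex (k * A.u z)‖ ^ 2 ≤
      C * (K + x) * ∑ k ∈ Ks K, ‖a k‖ ^ 2) := by
  obtain ⟨C, hC, h⟩ := MQ.large_sieve
  have hδ := A.δ_pos
  have hδ1 := A.δ_one
  refine ⟨max 1 (C * (1 + 1 / A.δ)), le_max_left _ _, fun K x hK hx => ?_⟩
  have hx0 : 0 < x := by linarith
  have h0 : 0 < A.δ / x := by positivity
  have h1 : A.δ / x ≤ 1 := by
    rw [div_le_one hx0]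
    linarith
  have hsep : ∀ i ∈ PF A x, ∀ j ∈ PF A x, i ≠ j → ∀ n : ℤ, A.δ / x ≤ |A.u i - A.u j + n| := by
    intro i hi j hj hij n
    obtain ⟨i1, i2, i3⟩ := (mem_PF A).1 hi
    obtain ⟨j1, j2, j3⟩ := (mem_PF A).1 hj
    exact A.sep x hx i j i1 j1 i3 j3 hij i2 j2 n
  have hfl : 0 ≤ ⌊K⌋ := Int.floor_nonneg.2 hK
  have hflR : (⌊K⌋ : ℝ) ≤ K := Int.floor_le K
  have hK1 : (1 : ℝ) ≤ ((⌊K⌋ + 1 : ℤ) : ℝ) := by
    push_cast
    have : (0 : ℝ) ≤ ⌊K⌋ := by exact_mod_cast hfl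
    linarith
  obtain ⟨g1, g2⟩ := h (PF A x) A.u (A.δ / x) h0 h1 hsep _ hK1
  rw [ls_KK K] at g1 g2
  have hc : C * (((⌊K⌋ + 1 : ℤ) : ℝ) + 1 / (A.δ / x)) ≤ max 1 (C * (1 + 1 / A.δ)) * (K + x) := by
    refine le_trans ?_ (mul_le_mul_of_nonneg_right (le_max_right _ _) (by positivity))
    rw [mul_assoc]
    refine mul_le_mul_of_nonneg_left ?_ hC.le
    rw [one_div_div, add_mul, one_mul]
    push_cast
    have h2 : x / A.δ ≤ 1 / A.δ * (K + x) := by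
      rw [div_mul_eq_mul_div, one_mul]
      exact div_le_div_of_nonneg_right (by linarith) hδ.le
    linarith
  constructor
  · intro a
    exact (g1 a).trans (mul_le_mul_of_nonneg_right hc (Finset.sum_nonneg fun _ _ => by positivity))
  · intro a
    exact (g2 a).trans (mul_le_mul_of_nonneg_right hc (Finset.sum_nonneg fun _ _ => by positivity))

theorem lsieve : type_of% @lsieve_pr := @lsieve_pr

end Pool.Agent.AQM
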