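import Pool.Agent.Lib_helper39.AQM.Defs
import Pool.Agent.Lib_helper39.AQM.AB
import Pool.Agent.Lib_helper39.MQX.ALG
import Pool.Agent.Lib_helper39.MQX.SBA
import Pool.Agent.Lib_helper39.MQX.SBB
import Pool.Agent.Lib_helper39.MQX.SBC
import Pool.Agent.Lib_helper39.MQX.LSV
import Pool.Agent.Lib_helper39.MQX.PAR
import Pool.Agent.Lib_helper39.MQX.FEJ
import Pool.Agent.Lib_helper39.MQX.EXP
import Pool.Agent.Lib_helper39.AQMF.AL1
import Pool.Agent.Lib_helper39.AQMF.AL2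
import Pool.Agent.Lib_helper39.AQMF.LS

/-! block MM2 of AQM, proved by helper98 -/

/-! AQM, block MM2 (with the count behind MM1): the moment inequality for angular systems -/

set_option autoImplicit false

namespace Pool.Agent.AQM

open Pool.Agent.MQ Pool.Agent.T2 Finset

section mm2
variable {b c : ℤ} (A : Ang b c)

/-- the units which do not change the representative -/
def mm2Un (o : El) : Prop := nm b c o = 1 ∧ ∀ z, 0 < nm b c z → A.rp (ml b c o z) = A.rp z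

/-- parallel up to a unit -/
def mm2Rel (U V : El) : Prop := ∃ o : El, mm2Un A o ∧ dt (ml b c o U) V = 0

theorem mm2_un_one : mm2Un A (1, 0) := by
  refine ⟨by simp [nm], fun z _ => ?_⟩
  rw [ml_comm, ml_one]

variable {A} in
theorem mm2_un_cj {o : El} (h : mm2Un A o) : mm2Un A (cj b o) := by
  refine ⟨by rw [nm_cj, h.1], fun z hz => ?_⟩
  have h1 : 0 < nm b c (ml b c (cj b o) z) := by rw [nm_ml, nm_cj, h.1, one_mul]; exact hz
  rw [← h.2 _ h1, sba_ml_cj h.1]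

variable {A} in
theorem mm2_un_ml {o o' : El} (h : mm2Un A o) (h' : mm2Un A o') : mm2Un A (ml b c o o') := by
  refine ⟨by rw [nm_ml, h.1, h'.1, one_mul], fun z hz => ?_⟩
  have h1 : 0 < nm b c (ml b c o' z) := by rw [nm_ml, h'.1, one_mul]; exact hz
  rw [ml_assoc, h.2 _ h1, h'.2 _ hz]

theorem mm2_dt_ml (x u v : El) : dt (ml b c x u) (ml b c x v) = nm b c x * dt u v := by
  unfold dt ml nm; ring
theorem mm2_dt_sm (k : ℕ) (u v : El) : dt (sm k u) v = k * dt u v := by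
  unfold dt sm; ring
theorem mm2_dt_sm' (k : ℕ) (u v : El) : dt u (sm k v) = k * dt u v := by
  unfold dt sm; ring
theorem mm2_dt_comm (u v : El) : dt u v = - dt v u := by
  unfold dt; ring

variable {A} in
theorem mm2_rel_symm {U V : El} (h : mm2Rel A U V) : mm2Rel A V U := by
  obtain ⟨o, ho, h1⟩ := h
  refine ⟨cj b o, mm2_un_cj ho, ?_⟩
  have h2 := mm2_dt_ml (b := b) (c := c) (cj b o) (ml b c o U) V
  rw [sba_cj_ml ho.1, h1, mul_zero] at h2
  rw [mm2_dt_comm, h2, neg_zero]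

/-! ### products -/

theorem mm2_ml_left (u v w : El) : ml b c u (ml b c v w) = ml b c v (ml b c u w) := by
  rw [← ml_assoc, ml_comm b c u v, ml_assoc]

theorem mm2_pr_ml (π : ℕ → El) {l : ℕ} (q : Fin l → ℕ) (v w : El) :
    pr b c π q (ml b c v w) = ml b c v (pr b c π q w) := by
  induction l with
  | zero => rfl
  | succ l ih =>
    show ml b c (π (q 0)) (pr b c π (fun i => q i.succ) (ml b c v w)) =
      ml b c v (ml b c (π (q 0)) (pr b c π (fun i => q i.succ) w))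
    rw [ih, mm2_ml_left]

theorem mm2_pr_sm (π : ℕ → El) {l : ℕ} (q : Fin l → ℕ) (k : ℕ) (w : El) :
    pr b c π q (sm k w) = sm k (pr b c π q w) := by
  induction l with
  | zero => rfl
  | succ l ih =>
    show ml b c (π (q 0)) (pr b c π (fun i => q i.succ) (sm k w)) =
      sm k (ml b c (π (q 0)) (pr b c π (fun i => q i.succ) w))
    rw [ih, sba_ml_sm]

theorem mm2_pr_nm (π : ℕ → El) {l : ℕ} (q : Fin l → ℕ) (w : El) :
    nm b c (pr b c π q w) = (∏ i, nm b c (π (q i))) * nm b c w := by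
  induction l with
  | zero => simp [pr]
  | succ l ih =>
    show nm b c (ml b c (π (q 0)) (pr b c π (fun i => q i.succ) w)) = _
    rw [nm_ml, ih, Fin.prod_univ_succ, mul_assoc]

/-- take out a factor -/
theorem mm2_pr_at (π : ℕ → El) {l : ℕ} (q : Fin (l + 1) → ℕ) (j : Fin (l + 1)) (w : El) :
    pr b c π q w = ml b c (π (q j)) (pr b c π (fun i => q (j.succAbove i)) w) := by
  induction l with
  | zero =>
    have hj : j = 0 := Fin.eq_zero j
    subst hj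
    rfl
  | succ l ih =>
    refine Fin.cases ?_ (fun i => ?_) j
    · rfl
    · show ml b c (π (q 0)) (pr b c π (fun i => q i.succ) w) = _
      rw [ih (fun i => q i.succ) i, mm2_ml_left]
      congr 1
      show _ = ml b c (π (q (i.succ.succAbove 0)))
        (pr b c π (fun k => q (i.succ.succAbove k.succ)) w)
      simp only [Fin.succ_succAbove_zero, Fin.succ_succAbove_succ]

section tp
variable {A} {M k₀ : ℕ} {B : Finset ℕ} {r : El} {π : ℕ → El}

theorem mm2_pr_pos (hB : TP A M B k₀ r π) {l : ℕ} {q : Fin l → ℕ} (hq : ∀ i, q i ∈ B) {w : El}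
    (hw : 0 < nm b c w) : 0 < nm b c (pr b c π q w) := by
  rw [mm2_pr_nm]
  refine mul_pos (prod_pos fun i _ => ?_) hw
  exact A.wd_nm _ (hB.wd _ (hq i))

theorem mm2_Dv_pr (hB : TP A M B k₀ r π) {p : ℕ} (hp : p ∈ B) {l : ℕ} (q : Fin l → ℕ) (w : El)
    (h : Dv p (π p) (pr b c π q w)) : (∃ i, Dv p (π p) (π (q i))) ∨ Dv p (π p) w := by
  induction l with
  | zero => exact Or.inr h
  | succ l ih =>
    rcases (Dv_ml A hB hp _ _).1 h with h1 | h1
    · exact Or.inl ⟨0, h1⟩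
    · rcases ih (fun i => q i.succ) h1 with ⟨i, h2⟩ | h2
      · exact Or.inl ⟨i.succ, h2⟩
      · exact Or.inr h2

theorem mm2_Dv_pr' (hB : TP A M B k₀ r π) {p : ℕ} (hp : p ∈ B) {l : ℕ} (q : Fin l → ℕ) (w : El)
    (h : Dv p (cj b (π p)) (pr b c π q w)) :
    (∃ i, Dv p (cj b (π p)) (π (q i))) ∨ Dv p (cj b (π p)) w := by
  induction l with
  | zero => exact Or.inr h
  | succ l ih =>
    rcases (Dv_ml' A hB hp _ _).1 h with h1 | h1
    · exact Or.inl ⟨0, h1⟩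
    · rcases ih (fun i => q i.succ) h1 with ⟨i, h2⟩ | h2
      · exact Or.inl ⟨i.succ, h2⟩
      · exact Or.inr h2

/-- an ideal over `p` divides `π q` only if `p = q` -/
theorem mm2_prime_eq (hB : TP A M B k₀ r π) {p q : ℕ} (hp : p ∈ B) (hq : q ∈ B)
    (h : (p : ℤ) ∣ nm b c (π q)) : q = p := by
  rw [hB.nm q hq] at h
  have h1 : p ∣ k₀ * q := by exact_mod_cast h
  rcases (hB.prime p hp).dvd_mul.1 h1 with h2 | h2
  · exact absurd h2 (ndk A hB hp)
  · exact ((Nat.prime_dvd_prime_iff_eq (hB.prime p hp) (hB.prime q hq)).1 h2).symm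

theorem mm2_un_ndv (hB : TP A M B k₀ r π) {p : ℕ} (hp : p ∈ B) {o : El} (ho : nm b c o = 1) :
    ¬ (p : ℤ) ∣ nm b c o := by
  rw [ho]
  intro h
  have h1 : p ∣ 1 := by exact_mod_cast h
  exact (hB.prime p hp).one_lt.ne' (Nat.dvd_one.mp h1)

theorem mm2_gcd {x y : ℤ} (h : x ≠ 0) : ∃ g r s : ℤ, g ≠ 0 ∧ IsCoprime r s ∧ x = r * g ∧
    y = s * g := by
  obtain ⟨g, r', s', hg, hc, h1, h2⟩ := Int.exists_gcd_one' (m := x) (n := y)
    (Int.gcd_pos_of_ne_zero_left _ h)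
  exact ⟨g, r', s', by exact_mod_cast hg.ne', Int.isCoprime_iff_gcd_eq_one.2 hc, h1, h2⟩

/-- parallel vectors -/
theorem mm2_par {X Y : El} (hX : X ≠ 0) (hY : Y ≠ 0) (h : dt X Y = 0) : ∃ r s : ℤ,
    IsCoprime r s ∧ s * X.1 = r * Y.1 ∧ s * X.2 = r * Y.2 := by
  unfold dt at h
  by_cases h1 : X.1 = 0
  · have hX2 : X.2 ≠ 0 := by
      intro h2
      exact hX (Prod.ext h1 h2)
    have hY1 : Y.1 = 0 := by
      rw [h1] at h
      have : X.2 * Y.1 = 0 := by linarith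
      exact (mul_eq_zero.1 this).resolve_left hX2
    obtain ⟨g, r', s', hg0, hc, e1, e2⟩ := mm2_gcd (y := Y.2) hX2
    refine ⟨r', s', hc, by rw [h1, hY1]; ring, ?_⟩
    rw [e1, e2]; ring
  · obtain ⟨g, r', s', hg0, hc, e1, e2⟩ := mm2_gcd (y := Y.1) h1
    refine ⟨r', s', hc, ?_, ?_⟩
    · rw [e1, e2]; ring
    · rw [e1, e2] at h
      apply mul_left_cancel₀ hg0
      linear_combination -h

theorem mm2_ne_zero {v : El} (h : 0 < nm b c v) : v ≠ 0 := by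
  rintro rfl
  simp [nm] at h

/-- the basic trichotomy -/
theorem mm2_cases (hB : TP A M B k₀ r π) {p : ℕ} (hp : p ∈ B) {l l' : ℕ} {q : Fin l → ℕ}
    {q' : Fin l' → ℕ} (hq : ∀ i, q i ∈ B) (hq' : ∀ i, q' i ∈ B) {w w' : El}
    (hw : 0 < nm b c w) (hw' : 0 < nm b c w')
    (h : mm2Rel A (ml b c (π p) (pr b c π q w)) (pr b c π q' w')) :
    Dv p (cj b (π p)) w ∨ (∃ j, q' j = p) ∨ Dv p (π p) w' := by
  obtain ⟨o, ho, h⟩ := h
  have hpp := hB.prime p hp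
  have hpi : Prime (p : ℤ) := Nat.prime_iff_prime_int.1 hpp
  have hX : 0 < nm b c (ml b c o (ml b c (π p) (pr b c π q w))) := by
    rw [nm_ml, nm_ml, ho.1, one_mul]
    exact mul_pos (A.wd_nm _ (hB.wd p hp)) (mm2_pr_pos hB hq hw)
  have hY := mm2_pr_pos hB hq' hw'
  obtain ⟨r', s', hc, e1, e2⟩ := mm2_par (mm2_ne_zero hX) (mm2_ne_zero hY) h
  have hDX : Dv p (π p) (ml b c o (ml b c (π p) (pr b c π q w))) :=
    (Dv_ml A hB hp _ _).2 (Or.inr ((Dv_ml A hB hp _ _).2 (Or.inl (Dv_self p _))))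
  set X := ml b c o (ml b c (π p) (pr b c π q w)) with hXd
  set Y := pr b c π q' w' with hYd
  by_cases hr : (p : ℤ) ∣ r'
  · left
    have hs : ¬ (p : ℤ) ∣ s' := by
      intro hs
      have := hc.isUnit_of_dvd' hr hs
      exact hpi.not_isUnit this
    have h1 : dv p X := by
      constructor
      · have : (p : ℤ) ∣ s' * X.1 := by rw [e1]; exact Dvd.dvd.mul_right hr _
        exact (hpi.dvd_or_dvd this).resolve_left hs
      · have : (p : ℤ) ∣ s' * X.2 := by rw [e2]; exact Dvd.dvd.mul_right hr _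
        exact (hpi.dvd_or_dvd this).resolve_left hs
    have h2 := ((Dv_dv A hB hp X).1 h1).2
    rcases (Dv_ml' A hB hp _ _).1 h2 with h3 | h3
    · exact absurd ((Dv_nm A hB hp o).2 (Or.inr h3)) (mm2_un_ndv hB hp ho.1)
    · rcases (Dv_ml' A hB hp _ _).1 h3 with h4 | h4
      · exact absurd h4 (Dv_not_cj A hB hp)
      · rcases mm2_Dv_pr' hB hp q w h4 with ⟨i, h5⟩ | h5
        · have h6 := mm2_prime_eq hB hp (hq i) ((Dv_nm A hB hp _).2 (Or.inr h5))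
          rw [h6] at h5
          exact absurd h5 (Dv_not_cj A hB hp)
        · exact h5
  · right
    have h1 : Dv p (π p) Y := by
      have h2 : (p : ℤ) ∣ r' * dt Y (π p) := by
        have h3 : r' * dt Y (π p) = s' * dt X (π p) := by
          unfold dt
          linear_combination (-(π p).2) * e1 + (π p).1 * e2
        rw [h3]
        exact Dvd.dvd.mul_left hDX _
      exact (hpi.dvd_or_dvd h2).resolve_left hr
    rcases mm2_Dv_pr hB hp q' w' h1 with ⟨j, h2⟩ | h2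
    · exact Or.inl ⟨j, mm2_prime_eq hB hp (hq' j) ((Dv_nm A hB hp _).2 (Or.inl h2))⟩
    · exact Or.inr h2

/-! ### the relation -/

theorem mm2_rel_sm {k : ℕ} (hk : 1 ≤ k) {U V : El} (h : mm2Rel A (sm k U) V) : mm2Rel A U V := by
  obtain ⟨o, ho, h⟩ := h
  refine ⟨o, ho, ?_⟩
  rw [sba_ml_sm, mm2_dt_sm] at h
  exact (mul_eq_zero.1 h).resolve_left (by exact_mod_cast (by omega : k ≠ 0))

theorem mm2_rel_sm' {k : ℕ} {U V : El} (h : mm2Rel A U V) : mm2Rel A U (sm k V) := by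
  obtain ⟨o, ho, h⟩ := h
  refine ⟨o, ho, ?_⟩
  rw [mm2_dt_sm', h, mul_zero]

theorem mm2_rel_un {o : El} (ho : mm2Un A o) {U V : El} (h : mm2Rel A (ml b c o U) V) :
    mm2Rel A U V := by
  obtain ⟨o', ho', h⟩ := h
  exact ⟨ml b c o' o, mm2_un_ml ho' ho, by rw [ml_assoc]; exact h⟩

theorem mm2_rel_un' {o : El} (ho : mm2Un A o) {U V : El} (h : mm2Rel A U (ml b c o V)) :
    mm2Rel A U V := mm2_rel_symm (mm2_rel_un ho (mm2_rel_symm h))

theorem mm2_rel_ml {x : El} (hx : nm b c x ≠ 0) {U V : El}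
    (h : mm2Rel A (ml b c x U) (ml b c x V)) : mm2Rel A U V := by
  obtain ⟨o, ho, h⟩ := h
  refine ⟨o, ho, ?_⟩
  rw [mm2_ml_left, mm2_dt_ml] at h
  exact (mul_eq_zero.1 h).resolve_left hx

/-! ### cofactors in the window -/

/-- division -/
def mm2_div (k : ℕ) (v : El) : El := (v.1 / k, v.2 / k)

theorem mm2_div_sm {k : ℕ} (hk : 1 ≤ k) {w z : El} (h : sm k w = z) : w = mm2_div k z := by
  have hk' : (k : ℤ) ≠ 0 := by exact_mod_cast (by omega : k ≠ 0)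
  rw [← h]
  unfold mm2_div sm
  simp only [Int.mul_ediv_cancel_left _ hk']

theorem mm2_dv_gcd {l : ℕ} {v : El} : dv l v ↔ l ∣ Int.gcd v.1 v.2 := by
  unfold dv
  constructor
  · rintro ⟨h1, h2⟩
    exact Int.natCast_dvd_natCast.1 (Int.dvd_coe_gcd h1 h2)
  · intro h
    have h' : (l : ℤ) ∣ (Int.gcd v.1 v.2 : ℤ) := Int.natCast_dvd_natCast.2 h
    exact ⟨h'.trans (Int.gcd_dvd_left ..), h'.trans (Int.gcd_dvd_right ..)⟩

theorem mm2_dv_ml {n : ℤ} {u v : El} (h : dv n v) : dv n (ml b c u v) := by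
  constructor
  · show n ∣ u.1 * v.1 - c * u.2 * v.2
    exact dvd_sub (Dvd.dvd.mul_left h.1 _) (Dvd.dvd.mul_left h.2 _)
  · show n ∣ u.1 * v.2 + u.2 * v.1 + b * u.2 * v.2
    exact dvd_add (dvd_add (Dvd.dvd.mul_left h.2 _) (Dvd.dvd.mul_left h.1 _))
      (Dvd.dvd.mul_left h.2 _)

theorem mm2_dv_sm {l k : ℕ} (hl : l.Prime) {v : El} (h : dv l (sm k v)) : l ∣ k ∨ dv l v := by
  have hli : Prime (l : ℤ) := Nat.prime_iff_prime_int.1 hl
  by_cases hk : l ∣ k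
  · exact Or.inl hk
  · right
    have hk' : ¬ (l : ℤ) ∣ (k : ℤ) := fun h' => hk (Int.natCast_dvd_natCast.1 h')
    exact ⟨(hli.dvd_or_dvd h.1).resolve_left hk', (hli.dvd_or_dvd h.2).resolve_left hk'⟩

/-- common part of the two reductions: `ρ w₁ = k₀ w` -/
theorem mm2_cof_mem (hB : TP A M B k₀ r π) {p : ℕ} (hp : p ∈ B) {ρ w w₁ : El} {x : ℝ}
    (hw : w ∈ PS A M (fun _ => True) x) (h2 : ml b c ρ w₁ = sm k₀ w)
    (h3 : (p : ℤ) * nm b c w₁ = k₀ * nm b c w) :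
    0 < nm b c w₁ ∧ A.rp w₁ ∈ PS A M (fun _ => True) (k₀ * x / p) ∧
      w = mm2_div k₀ (A.rp (ml b c ρ (A.rp w₁))) := by
  rw [mem_PS] at hw
  obtain ⟨hw1, hw2, _, hw3⟩ := hw
  have hwp := A.wd_nm _ hw1
  have hpp := hB.prime p hp
  have hp0 : (0 : ℤ) < p := by exact_mod_cast hpp.pos
  have hp0' : (0 : ℝ) < p := by exact_mod_cast hpp.pos
  have hk0 : (0 : ℤ) < k₀ := by exact_mod_cast hB.k1
  have hk0' : (0 : ℝ) < k₀ := by exact_mod_cast hB.k1
  have hpos : 0 < nm b c w₁ := by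
    have : 0 < (p : ℤ) * nm b c w₁ := by rw [h3]; positivity
    exact (mul_pos_iff_of_pos_left hp0).1 this
  refine ⟨hpos, ?_, ?_⟩
  · rw [mem_PS]
    refine ⟨A.rp_wd _ hpos, ?_, trivial, fun l hl hd => ?_⟩
    · rw [AB.rp_nm A hpos, le_div_iff₀ hp0']
      have h4 : (p : ℝ) * (nm b c w₁ : ℝ) = k₀ * (nm b c w : ℝ) := by exact_mod_cast h3
      calc (nm b c w₁ : ℝ) * p = k₀ * (nm b c w : ℝ) := by rw [← h4]; ring
        _ ≤ k₀ * x := by gcongr
    · rw [mm2_dv_gcd, AB.rp_gcd A hpos, ← mm2_dv_gcd] at hd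
      have h5 : dv l (sm k₀ w) := by
        rw [← h2]
        exact mm2_dv_ml hd
      rcases mm2_dv_sm hl h5 with h6 | h6
      · exact h6.trans hB.kM
      · exact hw3 l hl h6
  · apply mm2_div_sm hB.k1
    have hs : 0 < nm b c (sm k₀ w) := by
      rw [sba_nm_sm]
      positivity
    have hρ : 0 < nm b c ρ := by
      have h6 : nm b c ρ * nm b c w₁ = nm b c (sm k₀ w) := by rw [← nm_ml, h2]
      have h7 : 0 < nm b c ρ * nm b c w₁ := by rw [h6]; exact hs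
      exact (mul_pos_iff_of_pos_right hpos).1 h7
    rw [ml_comm, AB.rp_ml_rp A hpos hρ, ml_comm, h2]
    exact (A.rp_self _ ((A.wd_sm _ _ hB.k1).2 hw1)).symm

theorem mm2_red1 (hB : TP A M B k₀ r π) {p : ℕ} (hp : p ∈ B) {w : El} {x : ℝ}
    (hw : w ∈ PS A M (fun _ => True) x) (hD : Dv p (cj b (π p)) w) :
    ∃ w₂ o : El, mm2Un A o ∧ w₂ ∈ PS A M (fun _ => True) (k₀ * x / p) ∧
      w = mm2_div k₀ (A.rp (ml b c (cj b (π p)) w₂)) ∧
      ml b c (π p) w = sm p (ml b c o w₂) := by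
  obtain ⟨w₁, h1, h2, h3⟩ := Dv_cof' A hB hp hD
  obtain ⟨hpos, h4, h5⟩ := mm2_cof_mem hB hp hw h2 h3
  obtain ⟨o, ho1, ho2, ho3⟩ := A.rp_unit w₁ hpos
  refine ⟨A.rp w₁, cj b o, mm2_un_cj ⟨ho1, ho2⟩, h4, h5, ?_⟩
  rw [h1, ho3, sba_cj_ml ho1]

theorem mm2_red3 (hB : TP A M B k₀ r π) {p : ℕ} (hp : p ∈ B) {w : El} {x : ℝ}
    (hw : w ∈ PS A M (fun _ => True) x) (hD : Dv p (π p) w) :
    ∃ w₂ o : El, mm2Un A o ∧ w₂ ∈ PS A M (fun _ => True) (k₀ * x / p) ∧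
      w = mm2_div k₀ (A.rp (ml b c (π p) w₂)) ∧
      sm k₀ w = ml b c (π p) (ml b c o w₂) := by
  obtain ⟨w₁, h1, h2, h3⟩ := Dv_cof A hB hp hD
  obtain ⟨hpos, h4, h5⟩ := mm2_cof_mem hB hp hw h2 h3
  obtain ⟨o, ho1, ho2, ho3⟩ := A.rp_unit w₁ hpos
  refine ⟨A.rp w₁, cj b o, mm2_un_cj ⟨ho1, ho2⟩, h4, h5, ?_⟩
  rw [← h2, ho3, sba_cj_ml ho1]

end tp

/-! ### the recurrence -/

open Classical in
/-- pairs of products which are parallel up to a unit -/
noncomputable def mm2D (M : ℕ) (B : Finset ℕ) (π : ℕ → El) (l l' : ℕ) (x x' : ℝ) :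
    Finset (((Fin l → ℕ) × El) × ((Fin l' → ℕ) × El)) :=
  ((Fintype.piFinset (fun _ : Fin l => B) ×ˢ PS A M (fun _ => True) x) ×ˢ
    (Fintype.piFinset (fun _ : Fin l' => B) ×ˢ PS A M (fun _ => True) x')).filter (fun t =>
      mm2Rel A (pr b c π t.1.1 t.1.2) (pr b c π t.2.1 t.2.2))

theorem mm2_mem {M : ℕ} {B : Finset ℕ} {π : ℕ → El} {l l' : ℕ} {x x' : ℝ}
    {t : ((Fin l → ℕ) × El) × ((Fin l' → ℕ) × El)} :
    t ∈ mm2D A M B π l l' x x' ↔ ((∀ i, t.1.1 i ∈ B) ∧ t.1.2 ∈ PS A M (fun _ => True) x) ∧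
      ((∀ i, t.2.1 i ∈ B) ∧ t.2.2 ∈ PS A M (fun _ => True) x') ∧
      mm2Rel A (pr b c π t.1.1 t.1.2) (pr b c π t.2.1 t.2.2) := by
  unfold mm2D
  simp only [mem_filter, mem_product, Fintype.mem_piFinset]
  tauto

theorem mm2D_swap (M : ℕ) (B : Finset ℕ) (π : ℕ → El) (l l' : ℕ) (x x' : ℝ) :
    (mm2D A M B π l l' x x').card = (mm2D A M B π l' l x' x).card := by
  apply Finset.card_bij (fun t _ => (t.2, t.1))
  · intro t ht
    rw [mm2_mem] at ht ⊢
    exact ⟨ht.2.1, ht.1, mm2_rel_symm ht.2.2⟩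
  · intro t _ t' _ h
    simp only [Prod.mk.injEq] at h
    exact Prod.ext h.2 h.1
  · intro t ht
    refine ⟨(t.2, t.1), ?_, rfl⟩
    rw [mm2_mem] at ht ⊢
    exact ⟨ht.2.1, ht.1, mm2_rel_symm ht.2.2⟩

section tp
variable {A} {M k₀ : ℕ} {B : Finset ℕ} {r : El} {π : ℕ → El}

theorem mm2_pos_of_mem {x : ℝ} {w : El} (hw : w ∈ PS A M (fun _ => True) x) :
    0 < nm b c w := A.wd_nm _ (((mem_PS A).1 hw).1)

/-- the first reduction, for the relation -/
theorem mm2_step1 (hB : TP A M B k₀ r π) {p : ℕ} (hp : p ∈ B) {l : ℕ} {q : Fin l → ℕ}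
    {w w₂ o Y : El} (ho : mm2Un A o) (h : ml b c (π p) w = sm p (ml b c o w₂))
    (hr : mm2Rel A (ml b c (π p) (pr b c π q w)) Y) : mm2Rel A (pr b c π q w₂) Y := by
  rw [← mm2_pr_ml, h, mm2_pr_sm, mm2_pr_ml] at hr
  exact mm2_rel_un ho (mm2_rel_sm (hB.prime p hp).one_le hr)

theorem mm2_step3 (hB : TP A M B k₀ r π) {p : ℕ} (hp : p ∈ B) {l' : ℕ} {q' : Fin l' → ℕ}
    {w' w₂ o U : El} (ho : mm2Un A o) (h : sm k₀ w' = ml b c (π p) (ml b c o w₂))
    (hr : mm2Rel A (ml b c (π p) U) (pr b c π q' w')) : mm2Rel A U (pr b c π q' w₂) := by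
  have h1 := mm2_rel_sm' (k := k₀) hr
  rw [← mm2_pr_sm, h, mm2_pr_ml, mm2_pr_ml] at h1
  exact mm2_rel_un' ho (mm2_rel_ml (A.wd_nm _ (hB.wd p hp)).ne' h1)

/-- the recurrence, second index zero -/
theorem mm2D_rec_zero (hB : TP A M B k₀ r π) (l : ℕ) (x x' : ℝ) :
    (mm2D A M B π (l + 1) 0 x x').card ≤ ∑ p ∈ B, ((mm2D A M B π l 0 (k₀ * x / p) x').card +
      (mm2D A M B π l 0 x (k₀ * x' / p)).card) := by
  classical
  have hcov : mm2D A M B π (l + 1) 0 x x' ⊆ B.biUnion (fun p =>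
      (mm2D A M B π l 0 (k₀ * x / p) x').image (fun t =>
        ((Fin.cons p t.1.1, mm2_div k₀ (A.rp (ml b c (cj b (π p)) t.1.2))), t.2)) ∪
      (mm2D A M B π l 0 x (k₀ * x' / p)).image (fun t =>
        ((Fin.cons p t.1.1, t.1.2),
          (t.2.1, mm2_div k₀ (A.rp (ml b c (π p) t.2.2)))))) := by
    rintro ⟨⟨q, w⟩, ⟨q', w'⟩⟩ ht
    rw [mm2_mem] at ht
    obtain ⟨⟨hq, hw⟩, ⟨hq', hw'⟩, hsim⟩ := ht
    simp only at hq hw hq' hw' hsim
    have hsim' : mm2Rel A (ml b c (π (q 0)) (pr b c π (fun i => q i.succ) w))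
      (pr b c π q' w') := hsim
    rw [mem_biUnion]
    refine ⟨q 0, hq 0, ?_⟩
    rw [mem_union, mem_image, mem_image]
    rcases mm2_cases hB (hq 0) (fun i => hq i.succ) hq' (mm2_pos_of_mem hw)
      (mm2_pos_of_mem hw') hsim' with h | h | h
    · left
      obtain ⟨w₂, o, ho, h1, h2, h3⟩ := mm2_red1 hB (hq 0) hw h
      refine ⟨((fun i => q i.succ, w₂), (q', w')), ?_, ?_⟩
      · rw [mm2_mem]
        exact ⟨⟨fun i => hq _, h1⟩, ⟨hq', hw'⟩, mm2_step1 hB (hq 0) ho h3 hsim'⟩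
      · simp only [Prod.mk.injEq, and_true]
        exact ⟨Fin.cons_self_tail q, h2.symm⟩
    · obtain ⟨j, _⟩ := h
      exact j.elim0
    · right
      obtain ⟨w₂, o, ho, h1, h2, h3⟩ := mm2_red3 hB (hq 0) hw' h
      refine ⟨((fun i => q i.succ, w), (q', w₂)), ?_, ?_⟩
      · rw [mm2_mem]
        exact ⟨⟨fun i => hq _, hw⟩, ⟨hq', h1⟩, mm2_step3 hB (hq 0) ho h3 hsim'⟩
      · simp only [Prod.mk.injEq, true_and, and_true]
        exact ⟨Fin.cons_self_tail q, h2.symm⟩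
  refine (card_le_card hcov).trans (card_biUnion_le.trans (sum_le_sum fun p _ => ?_))
  exact (card_union_le _ _).trans (add_le_add card_image_le card_image_le)

/-- the recurrence -/
theorem mm2D_rec (hB : TP A M B k₀ r π) (l l' : ℕ) (x x' : ℝ) :
    (mm2D A M B π (l + 1) (l' + 1) x x').card ≤ ∑ p ∈ B,
      ((mm2D A M B π l (l' + 1) (k₀ * x / p) x').card +
      ((l' + 1) * (mm2D A M B π l l' x x').card +
        (mm2D A M B π l (l' + 1) x (k₀ * x' / p)).card)) := by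
  classical
  have hcov : mm2D A M B π (l + 1) (l' + 1) x x' ⊆ B.biUnion (fun p =>
      (mm2D A M B π l (l' + 1) (k₀ * x / p) x').image (fun t =>
        ((Fin.cons p t.1.1, mm2_div k₀ (A.rp (ml b c (cj b (π p)) t.1.2))), t.2)) ∪
      ((univ : Finset (Fin (l' + 1))).biUnion (fun j => (mm2D A M B π l l' x x').image (fun t =>
        ((Fin.cons p t.1.1, t.1.2), (j.insertNth p t.2.1, t.2.2)))) ∪
      (mm2D A M B π l (l' + 1) x (k₀ * x' / p)).image (fun t =>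
        ((Fin.cons p t.1.1, t.1.2),
          (t.2.1, mm2_div k₀ (A.rp (ml b c (π p) t.2.2))))))) := by
    rintro ⟨⟨q, w⟩, ⟨q', w'⟩⟩ ht
    rw [mm2_mem] at ht
    obtain ⟨⟨hq, hw⟩, ⟨hq', hw'⟩, hsim⟩ := ht
    simp only at hq hw hq' hw' hsim
    have hsim' : mm2Rel A (ml b c (π (q 0)) (pr b c π (fun i => q i.succ) w))
      (pr b c π q' w') := hsim
    rw [mem_biUnion]
    refine ⟨q 0, hq 0, ?_⟩
    rw [mem_union, mem_union, mem_image, mem_image, mem_biUnion]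
    rcases mm2_cases hB (hq 0) (fun i => hq i.succ) hq' (mm2_pos_of_mem hw)
      (mm2_pos_of_mem hw') hsim' with h | h | h
    · left
      obtain ⟨w₂, o, ho, h1, h2, h3⟩ := mm2_red1 hB (hq 0) hw h
      refine ⟨((fun i => q i.succ, w₂), (q', w')), ?_, ?_⟩
      · rw [mm2_mem]
        exact ⟨⟨fun i => hq _, h1⟩, ⟨hq', hw'⟩, mm2_step1 hB (hq 0) ho h3 hsim'⟩
      · simp only [Prod.mk.injEq, and_true]
        exact ⟨Fin.cons_self_tail q, h2.symm⟩
    · right; left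
      obtain ⟨j, hj⟩ := h
      refine ⟨j, mem_univ _, ?_⟩
      rw [mem_image]
      refine ⟨((fun i => q i.succ, w), (fun i => q' (j.succAbove i), w')), ?_, ?_⟩
      · rw [mm2_mem]
        refine ⟨⟨fun i => hq _, hw⟩, ⟨fun i => hq' _, hw'⟩, ?_⟩
        rw [mm2_pr_at π q' j w', hj] at hsim'
        exact mm2_rel_ml (A.wd_nm _ (hB.wd _ (hq 0))).ne' hsim'
      · simp only [Prod.mk.injEq, and_true]
        refine ⟨Fin.cons_self_tail q, ?_⟩
        rw [← hj]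
        exact Fin.insertNth_self_removeNth j q'
    · right; right
      obtain ⟨w₂, o, ho, h1, h2, h3⟩ := mm2_red3 hB (hq 0) hw' h
      refine ⟨((fun i => q i.succ, w), (q', w₂)), ?_, ?_⟩
      · rw [mm2_mem]
        exact ⟨⟨fun i => hq _, hw⟩, ⟨hq', h1⟩, mm2_step3 hB (hq 0) ho h3 hsim'⟩
      · simp only [Prod.mk.injEq, true_and, and_true]
        exact ⟨Fin.cons_self_tail q, h2.symm⟩
  refine (card_le_card hcov).trans (card_biUnion_le.trans (sum_le_sum fun p _ => ?_))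
  refine (card_union_le _ _).trans (add_le_add card_image_le ?_)
  refine (card_union_le _ _).trans (add_le_add ?_ card_image_le)
  refine card_biUnion_le.trans ?_
  refine (sum_le_card_nsmul _ _ _ (fun j _ => card_image_le)).trans ?_
  simp

end tp

/-! ### the base case -/

open Classical in
/-- the numbers up to `N` composed of primes of `M` -/
noncomputable def mm2J (M N : ℕ) : Finset ℕ :=
  (Finset.Icc 1 N).filter (fun j => ∀ l : ℕ, l.Prime → l ∣ j → l ∣ M)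

theorem mm2_J_pos {M N j : ℕ} (h : j ∈ mm2J M N) : 1 ≤ j := by
  classical
  unfold mm2J at h
  rw [mem_filter, mem_Icc] at h
  exact h.1.1

/-- the inverse, as a multiplicative function -/
noncomputable def mm2inv : ℕ →* ℝ where
  toFun n := (n : ℝ)⁻¹
  map_one' := by simp
  map_mul' m n := by simp [mul_comm]

theorem mm2_J_sum (M : ℕ) (hM : 1 ≤ M) : ∃ S : ℝ, 1 ≤ S ∧
    ∀ N : ℕ, ∑ j ∈ mm2J M N, (j : ℝ)⁻¹ ≤ S := by
  classical
  have h := EulerProduct.summable_and_hasSum_factoredNumbers_prod_filter_prime_geometric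
    (f := mm2inv) (by
      intro p hp
      show ‖(p : ℝ)⁻¹‖ < 1
      rw [norm_inv, Real.norm_natCast]
      exact inv_lt_one_of_one_lt₀ (by exact_mod_cast hp.one_lt)) M.primeFactors
  refine ⟨max 1 (∑' m : Nat.factoredNumbers M.primeFactors, mm2inv m), le_max_left _ _,
    fun N => le_max_of_le_right ?_⟩
  have hs : Summable (fun m : Nat.factoredNumbers M.primeFactors => mm2inv (m : ℕ)) :=
    h.2.summable
  have h1 : ∀ j ∈ mm2J M N, j ∈ Nat.factoredNumbers M.primeFactors := by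
    intro j hj
    unfold mm2J at hj
    rw [mem_filter, mem_Icc] at hj
    rw [Nat.mem_factoredNumbers']
    intro p hp hpj
    rw [Nat.mem_primeFactors]
    exact ⟨hp, hj.2 p hp hpj, by omega⟩
  have h2 : ∑ j ∈ mm2J M N, (j : ℝ)⁻¹ =
      ∑ j ∈ (mm2J M N).subtype (fun j => j ∈ Nat.factoredNumbers M.primeFactors),
        mm2inv (j : ℕ) := by
    rw [Finset.sum_subtype_of_mem (fun j => mm2inv j) h1]
    rfl
  rw [h2]
  refine hs.sum_le_tsum _ (fun j _ => ?_)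
  show 0 ≤ ((j : ℕ) : ℝ)⁻¹
  positivity

/-- the content -/
noncomputable def mm2n (v : El) : ℕ := by
  classical
  exact if h : A.wd v then (prim_part A h).choose else 1

/-- the primitive part -/
noncomputable def mm2z (v : El) : El := by
  classical
  exact if h : A.wd v then (prim_part A h).choose_spec.choose else (1, 0)

theorem mm2_nz {v : El} (h : A.wd v) : 1 ≤ mm2n A v ∧ A.wd (mm2z A v) ∧ Pm (mm2z A v) ∧
    v = sm (mm2n A v) (mm2z A v) := by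
  unfold mm2n mm2z
  simp only [dif_pos h]
  exact (prim_part A h).choose_spec.choose_spec

theorem mm2_prim_par {u v : El} (hu : Pm u) (hv : Pm v) (hu0 : u ≠ 0) (hv0 : v ≠ 0)
    (h : dt u v = 0) : u = v ∨ u = -v := by
  obtain ⟨r, s, hc, e1, e2⟩ := mm2_par hu0 hv0 h
  unfold Pm at hu hv
  have hs : s ∣ 1 := by
    have h1 : s ∣ v.1 := hc.symm.dvd_of_dvd_mul_left ⟨u.1, e1.symm⟩
    have h2 : s ∣ v.2 := hc.symm.dvd_of_dvd_mul_left ⟨u.2, e2.symm⟩
    have h3 := Int.dvd_coe_gcd h1 h2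
    rw [hv] at h3
    exact_mod_cast h3
  have hr : r ∣ 1 := by
    have h1 : r ∣ u.1 := hc.dvd_of_dvd_mul_left ⟨v.1, e1⟩
    have h2 : r ∣ u.2 := hc.dvd_of_dvd_mul_left ⟨v.2, e2⟩
    have h3 := Int.dvd_coe_gcd h1 h2
    rw [hu] at h3
    exact_mod_cast h3
  have hs' := Int.isUnit_iff.1 (isUnit_of_dvd_one hs)
  have hr' := Int.isUnit_iff.1 (isUnit_of_dvd_one hr)
  rcases hs' with rfl | rfl <;> rcases hr' with rfl | rfl
  · left; exact Prod.ext (by linarith) (by linarith)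
  · right
    refine Prod.ext ?_ ?_
    · show u.1 = -v.1
      linarith
    · show u.2 = -v.2
      linarith
  · right
    refine Prod.ext ?_ ?_
    · show u.1 = -v.1
      linarith
    · show u.2 = -v.2
      linarith
  · left; exact Prod.ext (by linarith) (by linarith)

theorem mm2_nm_neg (v : El) : nm b c (-v) = nm b c v := by
  unfold nm
  show (-v.1) ^ 2 + b * (-v.1) * (-v.2) + c * (-v.2) ^ 2 = _
  ring

/-- two elements of the window related up to a unit -/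
theorem mm2_z_rel {w w' : El} (hw : A.wd w) (hw' : A.wd w') (h : mm2Rel A w w') :
    nm b c (mm2z A w) = nm b c (mm2z A w') ∧
      (mm2z A w = mm2z A w' ∨ mm2z A w = A.rp (-(mm2z A w'))) := by
  obtain ⟨o, ho, h⟩ := h
  obtain ⟨h1, h2, h3, h4⟩ := mm2_nz A hw
  obtain ⟨g1, g2, g3, g4⟩ := mm2_nz A hw'
  set z := mm2z A w
  set z' := mm2z A w'
  have h5 : dt (ml b c o z) z' = 0 := by
    rw [h4, g4, sba_ml_sm, mm2_dt_sm, mm2_dt_sm'] at h
    have e1 : ((mm2n A w : ℕ) : ℤ) ≠ 0 := by exact_mod_cast (by omega : mm2n A w ≠ 0)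
    have e2 : ((mm2n A w' : ℕ) : ℤ) ≠ 0 := by exact_mod_cast (by omega : mm2n A w' ≠ 0)
    exact (mul_eq_zero.1 ((mul_eq_zero.1 h).resolve_left e1)).resolve_left e2
  have hz := A.wd_nm _ h2
  have hz' := A.wd_nm _ g2
  have hoz : nm b c (ml b c o z) = nm b c z := by rw [nm_ml, ho.1, one_mul]
  have h6 : Pm (ml b c o z) := by
    unfold Pm
    have h7 := sba_gcd_dvd (b := b) (c := c) (cj b o) (ml b c o z)
    rw [sba_cj_ml ho.1] at h7
    unfold Pm at h3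
    rw [h3] at h7
    exact Nat.dvd_one.1 h7
  rcases mm2_prim_par h6 g3 (mm2_ne_zero (by rw [hoz]; exact hz)) (mm2_ne_zero hz') h5 with
    h8 | h8
  · refine ⟨by rw [← hoz, h8], Or.inl ?_⟩
    rw [← A.rp_self z h2, ← ho.2 z hz, h8, A.rp_self z' g2]
  · refine ⟨by rw [← hoz, h8, mm2_nm_neg], Or.inr ?_⟩
    rw [← h8, ho.2 z hz, A.rp_self z h2]

theorem mm2_mem_J {M : ℕ} {x : ℝ} {w : El} (hw : w ∈ PS A M (fun _ => True) x) :
    mm2n A w ∈ mm2J M ⌊x⌋₊ ∧ (nm b c (mm2z A w) : ℝ) ≤ x / (mm2n A w : ℝ) ^ 2 := by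
  classical
  rw [mem_PS] at hw
  obtain ⟨hw1, hw2, _, hw3⟩ := hw
  obtain ⟨h1, h2, h3, h4⟩ := mm2_nz A hw1
  set n := mm2n A w with hn
  set z := mm2z A w
  have hz := A.wd_nm _ h2
  have hz' : (1 : ℝ) ≤ (nm b c z : ℝ) := by exact_mod_cast hz
  have hn0 : (1 : ℝ) ≤ n := by exact_mod_cast h1
  have e : (nm b c w : ℝ) = (n : ℝ) ^ 2 * nm b c z := by
    have : nm b c w = (n : ℤ) ^ 2 * nm b c z := by
      conv_lhs => rw [h4]
      rw [sba_nm_sm]
    rw [this]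
    push_cast
    ring
  constructor
  · unfold mm2J
    rw [mem_filter, mem_Icc]
    refine ⟨⟨h1, Nat.le_floor ?_⟩, fun l hl hd => hw3 l hl ?_⟩
    · calc (n : ℝ) = n * 1 := by ring
        _ ≤ n * n := by gcongr
        _ = (n : ℝ) ^ 2 * 1 := by ring
        _ ≤ (n : ℝ) ^ 2 * nm b c z := by gcongr
        _ = nm b c w := e.symm
        _ ≤ x := hw2
    · rw [h4]
      have hd' : (l : ℤ) ∣ (n : ℤ) := by exact_mod_cast hd
      exact ⟨Dvd.dvd.mul_right hd' _, Dvd.dvd.mul_right hd' _⟩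
  · rw [le_div_iff₀ (by positivity), mul_comm, ← e]
    exact hw2

theorem mm2_base (M : ℕ) (hM : 1 ≤ M) : ∃ C : ℝ, 1 ≤ C ∧ ∀ (B : Finset ℕ) (π : ℕ → El)
    (x x' : ℝ), 0 ≤ x → 0 ≤ x' →
      ((mm2D A M B π 0 0 x x').card : ℝ) ≤ C * Real.sqrt (x * x') := by
  classical
  obtain ⟨S, hS, hsum⟩ := mm2_J_sum M hM
  obtain ⟨C, hC, hcard⟩ := PS_card A
  have hC0 : 0 ≤ C := by linarith
  refine ⟨2 * C * (S * S), ?_, ?_⟩
  · have : 1 ≤ S * S := one_le_mul_of_one_le_of_one_le hS hS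
    have : 1 ≤ C * (S * S) := one_le_mul_of_one_le_of_one_le hC this
    linarith
  intro B π x x' hx hx'
  let Φ : (((Fin 0 → ℕ) × El) × ((Fin 0 → ℕ) × El)) → ((ℕ × ℕ) × (El × Bool)) := fun t =>
    ((mm2n A t.1.2, mm2n A t.2.2), (mm2z A t.2.2, decide (mm2z A t.1.2 = mm2z A t.2.2)))
  have h1 : (mm2D A M B π 0 0 x x').card ≤
      ((mm2J M ⌊x⌋₊ ×ˢ mm2J M ⌊x'⌋₊).biUnion (fun jj => ({jj} : Finset (ℕ × ℕ)) ×ˢ
        (PF A (min (x / (jj.1 : ℝ) ^ 2) (x' / (jj.2 : ℝ) ^ 2)) ×ˢ (univ : Finset Bool)))).card := by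
    apply Finset.card_le_card_of_injOn Φ
    · intro t ht
      obtain ⟨⟨_, hw⟩, ⟨_, hw'⟩, hs⟩ := (mm2_mem A).1 (Finset.mem_coe.1 ht)
      have hs' : mm2Rel A t.1.2 t.2.2 := hs
      have h2 := mm2_mem_J A hw
      have h3 := mm2_mem_J A hw'
      have h4 := mm2_z_rel A ((mem_PS A).1 hw).1 ((mem_PS A).1 hw').1 hs'
      have h5 := mm2_nz A ((mem_PS A).1 hw').1
      rw [Finset.mem_coe, mem_biUnion]
      refine ⟨(mm2n A t.1.2, mm2n A t.2.2), mem_product.2 ⟨h2.1, h3.1⟩, ?_⟩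
      rw [mem_product, mem_product]
      refine ⟨mem_singleton.2 rfl, ?_, mem_univ _⟩
      rw [mem_PF]
      refine ⟨h5.2.1, le_min ?_ h3.2, h5.2.2.1⟩
      show (nm b c (mm2z A t.2.2) : ℝ) ≤ _
      rw [← h4.1]
      exact h2.2
    · intro t ht t' ht' he
      obtain ⟨⟨_, hw⟩, ⟨_, hw'⟩, hs⟩ := (mm2_mem A).1 (Finset.mem_coe.1 ht)
      obtain ⟨⟨_, hv⟩, ⟨_, hv'⟩, hs'⟩ := (mm2_mem A).1 (Finset.mem_coe.1 ht')
      have h4 := mm2_z_rel A ((mem_PS A).1 hw).1 ((mem_PS A).1 hw').1 hs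
      have g4 := mm2_z_rel A ((mem_PS A).1 hv).1 ((mem_PS A).1 hv').1 hs'
      have k1 := (mm2_nz A ((mem_PS A).1 hw).1).2.2.2
      have k2 := (mm2_nz A ((mem_PS A).1 hw').1).2.2.2
      have k3 := (mm2_nz A ((mem_PS A).1 hv).1).2.2.2
      have k4 := (mm2_nz A ((mem_PS A).1 hv').1).2.2.2
      have he' : ((mm2n A t.1.2, mm2n A t.2.2),
          (mm2z A t.2.2, decide (mm2z A t.1.2 = mm2z A t.2.2))) =
        ((mm2n A t'.1.2, mm2n A t'.2.2),
          (mm2z A t'.2.2, decide (mm2z A t'.1.2 = mm2z A t'.2.2))) := he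
      simp only [Prod.mk.injEq, decide_eq_decide] at he'
      obtain ⟨⟨e1, e2⟩, e3, e4⟩ := he'
      have e5 : t.2.2 = t'.2.2 := by rw [k2, k4, e2, e3]
      have e6 : mm2z A t.1.2 = mm2z A t'.1.2 := by
        by_cases hb : mm2z A t.1.2 = mm2z A t.2.2
        · rw [hb, e3, e4.1 hb]
        · have hb' : ¬ mm2z A t'.1.2 = mm2z A t'.2.2 := fun hb' => hb (e4.2 hb')
          rw [h4.2.resolve_left hb, g4.2.resolve_left hb', e3]
      have e7 : t.1.2 = t'.1.2 := by rw [k1, k3, e1, e6]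
      exact Prod.ext (Prod.ext (Subsingleton.elim _ _) e7)
        (Prod.ext (Subsingleton.elim _ _) e5)
  have h2 : ∀ jj ∈ mm2J M ⌊x⌋₊ ×ˢ mm2J M ⌊x'⌋₊,
      ((({jj} : Finset (ℕ × ℕ)) ×ˢ (PF A (min (x / (jj.1 : ℝ) ^ 2) (x' / (jj.2 : ℝ) ^ 2)) ×ˢ
        (univ : Finset Bool))).card : ℝ) ≤
        2 * C * Real.sqrt (x * x') * ((jj.1 : ℝ)⁻¹ * (jj.2 : ℝ)⁻¹) := by
    intro jj hjj
    rw [mem_product] at hjj
    have hj1 : (0 : ℝ) < jj.1 := by exact_mod_cast mm2_J_pos hjj.1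
    have hj2 : (0 : ℝ) < jj.2 := by exact_mod_cast mm2_J_pos hjj.2
    rw [card_product, card_product, card_singleton, one_mul, card_univ, Fintype.card_bool]
    push_cast
    have h3 : 0 ≤ x / (jj.1 : ℝ) ^ 2 := by positivity
    have h4 : 0 ≤ x' / (jj.2 : ℝ) ^ 2 := by positivity
    have h5 := hcard 1 (fun _ => True) (min (x / (jj.1 : ℝ) ^ 2) (x' / (jj.2 : ℝ) ^ 2))
      (le_min h3 h4)
    have h6 : min (x / (jj.1 : ℝ) ^ 2) (x' / (jj.2 : ℝ) ^ 2) ≤
        Real.sqrt (x * x') * ((jj.1 : ℝ)⁻¹ * (jj.2 : ℝ)⁻¹) := by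
      have h7 : Real.sqrt (x / (jj.1 : ℝ) ^ 2 * (x' / (jj.2 : ℝ) ^ 2)) =
          Real.sqrt (x * x') * ((jj.1 : ℝ)⁻¹ * (jj.2 : ℝ)⁻¹) := by
        have h8 : x / (jj.1 : ℝ) ^ 2 * (x' / (jj.2 : ℝ) ^ 2) =
            (x * x') / ((jj.1 : ℝ) * jj.2) ^ 2 := by
          field_simp
        rw [h8, Real.sqrt_div' _ (by positivity), Real.sqrt_sq (by positivity), div_eq_mul_inv,
          mul_inv]
      rw [← h7]
      apply Real.le_sqrt_of_sq_le
      rw [sq]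
      exact mul_le_mul (min_le_left _ _) (min_le_right _ _) (le_min h3 h4) h3
    have h9 : ((PF A (min (x / (jj.1 : ℝ) ^ 2) (x' / (jj.2 : ℝ) ^ 2))).card : ℝ) ≤
        C * (Real.sqrt (x * x') * ((jj.1 : ℝ)⁻¹ * (jj.2 : ℝ)⁻¹)) :=
      h5.trans (mul_le_mul_of_nonneg_left h6 hC0)
    linarith
  calc ((mm2D A M B π 0 0 x x').card : ℝ)
      ≤ ∑ jj ∈ mm2J M ⌊x⌋₊ ×ˢ mm2J M ⌊x'⌋₊,
        ((({jj} : Finset (ℕ × ℕ)) ×ˢ (PF A (min (x / (jj.1 : ℝ) ^ 2) (x' / (jj.2 : ℝ) ^ 2)) ×ˢ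
        (univ : Finset Bool))).card : ℝ) := by
        exact_mod_cast h1.trans card_biUnion_le
    _ ≤ ∑ jj ∈ mm2J M ⌊x⌋₊ ×ˢ mm2J M ⌊x'⌋₊,
        2 * C * Real.sqrt (x * x') * ((jj.1 : ℝ)⁻¹ * (jj.2 : ℝ)⁻¹) := sum_le_sum h2
    _ = 2 * C * Real.sqrt (x * x') * ((∑ j ∈ mm2J M ⌊x⌋₊, (j : ℝ)⁻¹) *
        ∑ j ∈ mm2J M ⌊x'⌋₊, (j : ℝ)⁻¹) := by
        rw [← mul_sum, sum_mul_sum, sum_product]
    _ ≤ 2 * C * Real.sqrt (x * x') * (S * S) := by
        refine mul_le_mul_of_nonneg_left ?_ (by positivity)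
        exact mul_le_mul (hsum _) (hsum _) (sum_nonneg fun j _ => by positivity) (by linarith)
    _ = 2 * C * (S * S) * Real.sqrt (x * x') := by ring

/-! ### the bound -/

section tp
variable {A} {M k₀ : ℕ} {B : Finset ℕ} {r : El} {π : ℕ → El}

theorem mm2_card_le {P : ℝ} (hP : 1 ≤ P) (hB : TP A M B k₀ r π)
    (h : ∀ p ∈ B, P < (p : ℝ) ∧ (p : ℝ) ≤ 2 * P) : (B.card : ℝ) ≤ 2 * P := by
  have h1 : B ⊆ Finset.Icc 1 ⌊2 * P⌋₊ := by
    intro p hp
    rw [mem_Icc]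
    exact ⟨(hB.prime p hp).one_le, Nat.le_floor (h p hp).2⟩
  have h2 := card_le_card h1
  rw [Nat.card_Icc] at h2
  have h3 : B.card ≤ ⌊2 * P⌋₊ := by omega
  calc (B.card : ℝ) ≤ (⌊2 * P⌋₊ : ℝ) := by exact_mod_cast h3
    _ ≤ 2 * P := Nat.floor_le (by linarith)

theorem mm2_sqrt_div {P : ℝ} (hP : 1 ≤ P) {p : ℕ} (hp : P < (p : ℝ)) {κ y : ℝ} (hκ : 0 ≤ κ)
    (hy : 0 ≤ y) : Real.sqrt (κ ^ 2 * y / p) ≤
      κ * (Real.sqrt 2 * Real.sqrt y / Real.sqrt (2 * P)) := by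
  have e : κ * (Real.sqrt 2 * Real.sqrt y / Real.sqrt (2 * P)) =
      Real.sqrt (κ ^ 2 * (2 * y) / (2 * P)) := by
    rw [Real.sqrt_div (by positivity), Real.sqrt_mul (by positivity : (0 : ℝ) ≤ κ ^ 2) (2 * y),
      Real.sqrt_sq hκ, Real.sqrt_mul (by norm_num : (0 : ℝ) ≤ 2) y]
    ring
  rw [e]
  apply Real.sqrt_le_sqrt
  have e2 : κ ^ 2 * (2 * y) / (2 * P) = κ ^ 2 * y / P := by
    field_simp
  rw [e2]
  exact div_le_div_of_nonneg_left (by positivity) (by linarith) hp.le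

/-- the sum over `p` of a bound with `√(κ² y / p)` -/
theorem mm2_sum_p {P : ℝ} (hP : 1 ≤ P) (hB : TP A M B k₀ r π)
    (h : ∀ p ∈ B, P < (p : ℝ) ∧ (p : ℝ) ≤ 2 * P) {κ y : ℝ} (hκ : 0 ≤ κ) (hy : 0 ≤ y) :
    ∑ p ∈ B, Real.sqrt (κ ^ 2 * y / p) ≤ 3 / 2 * (κ * Real.sqrt (2 * P)) * Real.sqrt y := by
  have hs : 0 < Real.sqrt (2 * P) := Real.sqrt_pos.2 (by linarith)
  have hss : Real.sqrt (2 * P) * Real.sqrt (2 * P) = 2 * P := Real.mul_self_sqrt (by linarith)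
  calc ∑ p ∈ B, Real.sqrt (κ ^ 2 * y / p)
      ≤ ∑ p ∈ B, κ * (Real.sqrt 2 * Real.sqrt y / Real.sqrt (2 * P)) :=
        sum_le_sum fun p hp => mm2_sqrt_div hP (h p hp).1 hκ hy
    _ = B.card * (κ * (Real.sqrt 2 * Real.sqrt y / Real.sqrt (2 * P))) := by
        rw [sum_const, nsmul_eq_mul]
    _ ≤ (2 * P) * (κ * (Real.sqrt 2 * Real.sqrt y / Real.sqrt (2 * P))) :=
        mul_le_mul_of_nonneg_right (mm2_card_le hP hB h) (by positivity)
    _ = Real.sqrt 2 * (κ * Real.sqrt (2 * P)) * Real.sqrt y := by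
        have e : (2 * P) * (κ * (Real.sqrt 2 * Real.sqrt y / Real.sqrt (2 * P))) =
            (Real.sqrt (2 * P) * Real.sqrt (2 * P)) *
              (κ * (Real.sqrt 2 * Real.sqrt y / Real.sqrt (2 * P))) := by rw [hss]
        rw [e]
        generalize Real.sqrt (2 * P) = S at hs
        field_simp
    _ ≤ 3 / 2 * (κ * Real.sqrt (2 * P)) * Real.sqrt y := by
        gcongr
        rw [Real.sqrt_le_left (by norm_num)]; norm_num

theorem mm2D_zero {C : ℝ} (hC0 : 0 ≤ C) (hbase : ∀ x x' : ℝ, 0 ≤ x → 0 ≤ x' →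
      ((mm2D A M B π 0 0 x x').card : ℝ) ≤ C * Real.sqrt (x * x'))
    {P : ℝ} (hP : 1 ≤ P) (hB : TP A M B k₀ r π)
    (h : ∀ p ∈ B, P < (p : ℝ) ∧ (p : ℝ) ≤ 2 * P) (l : ℕ) : ∀ {x x' : ℝ}, 0 ≤ x → 0 ≤ x' →
    ((mm2D A M B π l 0 x x').card : ℝ) ≤
      C * Real.sqrt (x * x') * (4 * (Real.sqrt k₀ * Real.sqrt (2 * P))) ^ l := by
  induction l with
  | zero =>
    intro x x' hx hx'
    simpa using hbase x x' hx hx'
  | succ l ih =>
    intro x x' hx hx'
    have h1 : ((mm2D A M B π (l + 1) 0 x x').card : ℝ) ≤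
      ∑ p ∈ B, (((mm2D A M B π l 0 (k₀ * x / p) x').card : ℝ) +
      ((mm2D A M B π l 0 x (k₀ * x' / p)).card : ℝ)) := by
      exact_mod_cast mm2D_rec_zero hB l x x'
    have hk : (Real.sqrt k₀) ^ 2 = (k₀ : ℝ) := Real.sq_sqrt (by positivity)
    have hs : 0 < Real.sqrt (2 * P) := Real.sqrt_pos.2 (by linarith)
    set κ := Real.sqrt (k₀ : ℝ) with hκd
    have hκ : 0 ≤ κ := Real.sqrt_nonneg _
    set s := Real.sqrt (2 * P)
    have h2 : ∀ p ∈ B, (((mm2D A M B π l 0 (k₀ * x / p) x').card : ℝ) +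
      ((mm2D A M B π l 0 x (k₀ * x' / p)).card : ℝ)) ≤
        (2 * C * (4 * (κ * s)) ^ l) * Real.sqrt (κ ^ 2 * (x * x') / p) := by
      intro p hp
      have h3 := ih (x := k₀ * x / p) (x' := x') (by positivity) hx'
      have h4 := ih (x := x) (x' := k₀ * x' / p) hx (by positivity)
      have e1 : k₀ * x / p * x' = κ ^ 2 * (x * x') / p := by rw [hk]; ring
      have e2 : x * (k₀ * x' / p) = κ ^ 2 * (x * x') / p := by rw [hk]; ring
      rw [e1] at h3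
      rw [e2] at h4
      linarith
    have h5 := mm2_sum_p hP hB h hκ (y := x * x') (by positivity)
    calc ((mm2D A M B π (l + 1) 0 x x').card : ℝ)
        ≤ ∑ p ∈ B, (2 * C * (4 * (κ * s)) ^ l) * Real.sqrt (κ ^ 2 * (x * x') / p) :=
          h1.trans (sum_le_sum h2)
      _ = (2 * C * (4 * (κ * s)) ^ l) * ∑ p ∈ B, Real.sqrt (κ ^ 2 * (x * x') / p) := by
          rw [mul_sum]
      _ ≤ (2 * C * (4 * (κ * s)) ^ l) * (3 / 2 * (κ * s) * Real.sqrt (x * x')) :=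
          mul_le_mul_of_nonneg_left h5 (by positivity)
      _ = 3 / 4 * (C * Real.sqrt (x * x') * (4 * (κ * s)) ^ (l + 1)) := by
          rw [pow_succ]; ring
      _ ≤ C * Real.sqrt (x * x') * (4 * (κ * s)) ^ (l + 1) := by
          have : 0 ≤ C * Real.sqrt (x * x') * (4 * (κ * s)) ^ (l + 1) := by positivity
          linarith

theorem mm2D_le {C : ℝ} (hC0 : 0 ≤ C) (hbase : ∀ x x' : ℝ, 0 ≤ x → 0 ≤ x' →
      ((mm2D A M B π 0 0 x x').card : ℝ) ≤ C * Real.sqrt (x * x'))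
    {P : ℝ} (hP : 1 ≤ P) (hB : TP A M B k₀ r π)
    (h : ∀ p ∈ B, P < (p : ℝ) ∧ (p : ℝ) ≤ 2 * P) (l : ℕ) : ∀ (l' : ℕ) {x x' : ℝ},
    0 ≤ x → 0 ≤ x' → ((mm2D A M B π l l' x x').card : ℝ) ≤
      C * Real.sqrt (x * x') * (4 * (Real.sqrt k₀ * Real.sqrt (2 * P))) ^ (l + l') *
        l'.factorial := by
  induction l with
  | zero =>
    intro l' x x' hx hx'
    have h1 := mm2D_zero hC0 hbase hP hB h l' hx' hx
    rw [mm2D_swap, mul_comm x x', zero_add]
    refine h1.trans ?_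
    have h2 : (1 : ℝ) ≤ l'.factorial := by exact_mod_cast l'.factorial_pos
    have h3 : 0 ≤ C * Real.sqrt (x' * x) * (4 * (Real.sqrt k₀ * Real.sqrt (2 * P))) ^ l' := by
      positivity
    nlinarith
  | succ l ih =>
    intro l'
    cases l' with
    | zero =>
      intro x x' hx hx'
      have h1 := mm2D_zero hC0 hbase hP hB h (l + 1) hx hx'
      simpa using h1
    | succ l' =>
      intro x x' hx hx'
      have h1 : ((mm2D A M B π (l + 1) (l' + 1) x x').card : ℝ) ≤ ∑ p ∈ B,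
        (((mm2D A M B π l (l' + 1) (k₀ * x / p) x').card : ℝ) +
        ((l' + 1) * ((mm2D A M B π l l' x x').card : ℝ) +
          ((mm2D A M B π l (l' + 1) x (k₀ * x' / p)).card : ℝ))) := by
        exact_mod_cast mm2D_rec hB l l' x x'
      have hk : (Real.sqrt k₀) ^ 2 = (k₀ : ℝ) := Real.sq_sqrt (by positivity)
      have hs : 0 < Real.sqrt (2 * P) := Real.sqrt_pos.2 (by linarith)
      have hss : Real.sqrt (2 * P) * Real.sqrt (2 * P) = 2 * P :=
        Real.mul_self_sqrt (by linarith)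
      have hκ1 : 1 ≤ Real.sqrt (k₀ : ℝ) := by
        rw [Real.one_le_sqrt]
        exact_mod_cast hB.k1
      set κ := Real.sqrt (k₀ : ℝ) with hκd
      have hκ : 0 ≤ κ := Real.sqrt_nonneg _
      set s := Real.sqrt (2 * P)
      set F : ℝ := ((l' + 1).factorial : ℝ) with hF
      have hF0 : 0 ≤ F := Nat.cast_nonneg _
      have hF' : ((l' : ℝ) + 1) * (l'.factorial : ℝ) = F := by
        rw [hF, Nat.factorial_succ]
        push_cast
        ring
      have h2 : ∀ p ∈ B, (((mm2D A M B π l (l' + 1) (k₀ * x / p) x').card : ℝ) +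
          ((l' + 1) * ((mm2D A M B π l l' x x').card : ℝ) +
          ((mm2D A M B π l (l' + 1) x (k₀ * x' / p)).card : ℝ))) ≤
          (2 * C * (4 * (κ * s)) ^ (l + l' + 1) * F) * Real.sqrt (κ ^ 2 * (x * x') / p) +
            C * Real.sqrt (x * x') * (4 * (κ * s)) ^ (l + l') * F := by
        intro p hp
        have h3 := ih (l' + 1) (x := k₀ * x / p) (x' := x') (by positivity) hx'
        have h4 := ih (l' + 1) (x := x) (x' := k₀ * x' / p) hx (by positivity)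
        have h5 := mul_le_mul_of_nonneg_left (ih l' hx hx')
          (by positivity : (0 : ℝ) ≤ (l' : ℝ) + 1)
        have e1 : k₀ * x / p * x' = κ ^ 2 * (x * x') / p := by rw [hk]; ring
        have e2 : x * (k₀ * x' / p) = κ ^ 2 * (x * x') / p := by rw [hk]; ring
        rw [e1, ← add_assoc l l' 1] at h3
        rw [e2, ← add_assoc l l' 1] at h4
        have e3 : ((l' : ℝ) + 1) * (C * Real.sqrt (x * x') * (4 * (κ * s)) ^ (l + l') *
            l'.factorial) = C * Real.sqrt (x * x') * (4 * (κ * s)) ^ (l + l') * F := by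
          rw [← hF']; ring
        rw [e3] at h5
        linarith
      have h5 := mm2_sum_p hP hB h hκ (y := x * x') (by positivity)
      have h7 : (B.card : ℝ) ≤ s * s := by
        rw [hss]
        exact mm2_card_le hP hB h
      calc ((mm2D A M B π (l + 1) (l' + 1) x x').card : ℝ)
          ≤ ∑ p ∈ B, ((2 * C * (4 * (κ * s)) ^ (l + l' + 1) * F) *
              Real.sqrt (κ ^ 2 * (x * x') / p) +
            C * Real.sqrt (x * x') * (4 * (κ * s)) ^ (l + l') * F) := h1.trans (sum_le_sum h2)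
        _ = (2 * C * (4 * (κ * s)) ^ (l + l' + 1) * F) *
              ∑ p ∈ B, Real.sqrt (κ ^ 2 * (x * x') / p) +
            B.card * (C * Real.sqrt (x * x') * (4 * (κ * s)) ^ (l + l') * F) := by
            rw [sum_add_distrib, mul_sum, sum_const, nsmul_eq_mul]
        _ ≤ (2 * C * (4 * (κ * s)) ^ (l + l' + 1) * F) *
              (3 / 2 * (κ * s) * Real.sqrt (x * x')) +
            (s * s) * (C * Real.sqrt (x * x') * (4 * (κ * s)) ^ (l + l') * F) :=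
            add_le_add (mul_le_mul_of_nonneg_left h5 (by positivity))
              (mul_le_mul_of_nonneg_right h7 (by positivity))
        _ ≤ (2 * C * (4 * (κ * s)) ^ (l + l' + 1) * F) *
              (3 / 2 * (κ * s) * Real.sqrt (x * x')) +
            ((κ * s) * (κ * s)) * (C * Real.sqrt (x * x') * (4 * (κ * s)) ^ (l + l') * F) := by
            refine add_le_add le_rfl (mul_le_mul_of_nonneg_right ?_ (by positivity))
            have : s ≤ κ * s := by nlinarith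
            exact mul_le_mul this this hs.le (by positivity)
        _ ≤ C * Real.sqrt (x * x') * (4 * (κ * s)) ^ (l + 1 + (l' + 1)) * F := by
            have e : l + 1 + (l' + 1) = (l + l') + 2 := by ring
            rw [e, pow_add _ (l + l') 2, pow_add _ (l + l') 1]
            have h6 : 0 ≤ C * (4 * (κ * s)) ^ (l + l') * Real.sqrt (x * x') *
              ((κ * s) * (κ * s)) * F := by positivity
            nlinarith

end tp

/-- the count of the pairs of products which are parallel up to a unit -/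
theorem mm2_count (M : ℕ) (hM : 1 ≤ M) : ∃ C : ℝ, 1 ≤ C ∧
    ∀ (P : ℝ) (B : Finset ℕ) (k₀ : ℕ) (r : El) (π : ℕ → El), TP A M B k₀ r π → 1 ≤ P →
    (∀ p ∈ B, P < (p : ℝ) ∧ (p : ℝ) ≤ 2 * P) → ∀ (l l' : ℕ) (x x' : ℝ), 0 ≤ x → 0 ≤ x' →
      ((mm2D A M B π l l' x x').card : ℝ) ≤
        C * Real.sqrt (x * x') * (C * Real.sqrt P) ^ (l + l') * l'.factorial := by
  obtain ⟨C, hC, hbase⟩ := mm2_base A M hM
  set D : ℝ := 4 * (Real.sqrt M * Real.sqrt 2) with hD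
  refine ⟨max C D, le_max_of_le_left hC, ?_⟩
  intro P B k₀ r π hB hP h l l' x x' hx hx'
  have h1 := mm2D_le (by linarith) (hbase B π) hP hB h l l' hx hx'
  refine h1.trans ?_
  have hk : (k₀ : ℝ) ≤ M := by exact_mod_cast Nat.le_of_dvd hM hB.kM
  have h2 : 4 * (Real.sqrt k₀ * Real.sqrt (2 * P)) ≤ max C D * Real.sqrt P := by
    have h3 : 4 * (Real.sqrt k₀ * Real.sqrt (2 * P)) ≤ D * Real.sqrt P := by
      rw [Real.sqrt_mul (by norm_num), hD]
      have h4 : Real.sqrt k₀ ≤ Real.sqrt M := Real.sqrt_le_sqrt hk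
      have h5 : 0 ≤ Real.sqrt 2 * Real.sqrt P := by positivity
      nlinarith
    exact h3.trans (mul_le_mul_of_nonneg_right (le_max_right _ _) (Real.sqrt_nonneg _))
  have h3 : C ≤ max C D := le_max_left _ _
  gcongr

theorem par_count_pr {b c : ℤ} (A : Ang b c) (M : ℕ) (hM : 1 ≤ M) : ∃ C : ℝ, 1 ≤ C ∧
    ∀ (P : ℝ) (B : Finset ℕ) (k₀ : ℕ) (r : El) (π : ℕ → El), TP A M B k₀ r π → 1 ≤ P →
    (∀ p ∈ B, P < (p : ℝ) ∧ (p : ℝ) ≤ 2 * P) → ∀ (l l' : ℕ) (x x' : ℝ), 0 ≤ x → 0 ≤ x' →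
      ((ParD A M B π l l' x x').card : ℝ) ≤
        C * Real.sqrt (x * x') * (C * Real.sqrt P) ^ (l + l') * l'.factorial := by
  obtain ⟨C, hC, h⟩ := mm2_count A M hM
  refine ⟨C, hC, fun P B k₀ r π hB hP hb l l' x x' hx hx' => ?_⟩
  refine le_trans ?_ (h P B k₀ r π hB hP hb l l' x x' hx hx')
  have h1 : ParD A M B π l l' x x' ⊆ mm2D A M B π l l' x x' := by
    intro t ht
    unfold ParD at ht
    rw [mm2_mem]
    simp only [mem_filter, mem_product, Fintype.mem_piFinset] at ht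
    refine ⟨ht.1.1, ht.1.2, (1, 0), mm2_un_one A, ?_⟩
    rw [ml_comm, ml_one]
    exact ht.2
  exact_mod_cast card_le_card h1

/-! ### the moment -/

section tp
variable {A} {M k₀ : ℕ} {B : Finset ℕ} {r : El} {π : ℕ → El}

/-- the character of a product -/
theorem mm2_ex_ml {v w : El} (hv : A.wd v) (hw : 0 < nm b c w) (k : ℤ) :
    ex (k * A.u (A.rp (ml b c v w))) = ex (k * A.u v) * ex (k * A.u (A.rp w)) := by
  obtain ⟨n, hn⟩ := AB.u_ml A (A.wd_nm _ hv) hw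
  rw [A.rp_self v hv] at hn
  have e : (k : ℝ) * A.u (A.rp (ml b c v w)) = k * A.u v + k * A.u (A.rp w) +
      ((k * n : ℤ) : ℝ) := by
    rw [hn]
    push_cast
    ring
  rw [e, par_ex_add, par_ex_add, par_ex_int, mul_one]

theorem mm2_ex_pr (hB : TP A M B k₀ r π) (k : ℤ) {l : ℕ} (q : Fin l → ℕ) (hq : ∀ i, q i ∈ B)
    {w : El} (hw : A.wd w) : ex (k * A.u (A.rp (pr b c π q w))) =
      (∏ i, ex (k * A.u (π (q i)))) * ex (k * A.u w) := by
  induction l with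
  | zero =>
    show ex (k * A.u (A.rp w)) = _
    rw [A.rp_self w hw]
    simp
  | succ l ih =>
    show ex (k * A.u (A.rp (ml b c (π (q 0)) (pr b c π (fun i => q i.succ) w)))) = _
    rw [mm2_ex_ml (hB.wd _ (hq 0)) (mm2_pr_pos hB (fun i => hq i.succ) (A.wd_nm _ hw)),
      ih (fun i => q i.succ) (fun i => hq i.succ), Fin.prod_univ_succ, mul_assoc]

/-- the expansion -/
theorem mm2_expand (hB : TP A M B k₀ r π) (k : ℤ) (β : ℕ → ℂ) (a : El → ℂ) (l : ℕ) (x : ℝ) :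
    (∑ p ∈ B, β p * ex (k * A.u (π p))) ^ l *
      ∑ z ∈ PS A M (fun _ => True) x, a z * ex (k * A.u z) =
      ∑ t ∈ Fintype.piFinset (fun _ : Fin l => B) ×ˢ PS A M (fun _ => True) x,
        ((∏ i, β (t.1 i)) * a t.2) * ex (k * A.u (A.rp (pr b c π t.1 t.2))) := by
  classical
  have h1 : (∑ p ∈ B, β p * ex (k * A.u (π p))) ^ l =
      ∑ q ∈ Fintype.piFinset (fun _ : Fin l => B), ∏ i, (β (q i) * ex (k * A.u (π (q i)))) := by
    rw [← Finset.prod_univ_sum (fun _ : Fin l => B) (fun _ p => β p * ex (k * A.u (π p)))]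
    simp
  rw [h1, sum_mul_sum, sum_product]
  refine sum_congr rfl fun q hq => sum_congr rfl fun w hw => ?_
  rw [mm2_ex_pr hB k q (Fintype.mem_piFinset.1 hq) (((mem_PS A).1 hw).1), prod_mul_distrib]
  ring

theorem mm2_nm_le {P : ℝ} (hP : 1 ≤ P) (hM : 1 ≤ M) (hB : TP A M B k₀ r π)
    (h : ∀ p ∈ B, P < (p : ℝ) ∧ (p : ℝ) ≤ 2 * P) {l : ℕ} {q : Fin l → ℕ} (hq : ∀ i, q i ∈ B)
    {w : El} {x : ℝ} (hx : 0 ≤ x) (hw0 : 0 < nm b c w) (hw : (nm b c w : ℝ) ≤ x) :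
    (nm b c (pr b c π q w) : ℝ) ≤ x * (M * (2 * P)) ^ l := by
  rw [mm2_pr_nm]
  push_cast
  have hk : (k₀ : ℝ) ≤ M := by exact_mod_cast Nat.le_of_dvd hM hB.kM
  have h1 : ∏ i, (nm b c (π (q i)) : ℝ) ≤ (M * (2 * P)) ^ l := by
    calc ∏ i, (nm b c (π (q i)) : ℝ) ≤ ∏ _i : Fin l, (M * (2 * P)) := by
          refine prod_le_prod (fun i _ => ?_) (fun i _ => ?_)
          · have := A.wd_nm _ (hB.wd _ (hq i))
            exact_mod_cast this.le
          · rw [hB.nm _ (hq i)]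
            push_cast
            exact mul_le_mul hk (h _ (hq i)).2 (Nat.cast_nonneg _) (Nat.cast_nonneg _)
      _ = (M * (2 * P)) ^ l := by simp
  rw [mul_comm x]
  have h0 : (0 : ℝ) ≤ (nm b c w : ℝ) := by exact_mod_cast hw0.le
  exact mul_le_mul h1 hw h0 (by positivity)

/-- sum over fibres -/
theorem mm2_fibre {P : ℝ} (hP : 1 ≤ P) (hM : 1 ≤ M) (hB : TP A M B k₀ r π)
    (h : ∀ p ∈ B, P < (p : ℝ) ∧ (p : ℝ) ≤ 2 * P) (l : ℕ) {x : ℝ} (hx : 0 ≤ x)
    (β : ((Fin l → ℕ) × El) → ℂ) (hβ : ∀ t, ‖β t‖ ≤ 1) :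
    ∃ a : El → ℂ, (∀ k : ℤ,
      ∑ t ∈ Fintype.piFinset (fun _ : Fin l => B) ×ˢ PS A M (fun _ => True) x,
        β t * ex (k * A.u (A.rp (pr b c π t.1 t.2))) =
          ∑ z ∈ PF A (x * (M * (2 * P)) ^ l), a z * ex (k * A.u z)) ∧
      ∑ z ∈ PF A (x * (M * (2 * P)) ^ l), ‖a z‖ ^ 2 ≤ ((mm2D A M B π l l x x).card : ℝ) := by
  classical
  set T := Fintype.piFinset (fun _ : Fin l => B) ×ˢ PS A M (fun _ => True) x with hT
  set N := x * (M * (2 * P)) ^ l with hN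
  let U : ((Fin l → ℕ) × El) → El := fun t => A.rp (pr b c π t.1 t.2)
  let Z : ((Fin l → ℕ) × El) → El := fun t => mm2z A (U t)
  have hmem : ∀ t ∈ T, (∀ i, t.1 i ∈ B) ∧ t.2 ∈ PS A M (fun _ => True) x := by
    intro t ht
    rw [hT, mem_product, Fintype.mem_piFinset] at ht
    exact ht
  have hpos : ∀ t ∈ T, 0 < nm b c (pr b c π t.1 t.2) := by
    intro t ht
    obtain ⟨h1, h2⟩ := hmem t ht
    exact mm2_pr_pos hB h1 (mm2_pos_of_mem h2)
  have hU : ∀ t ∈ T, A.wd (U t) := fun t ht => A.rp_wd _ (hpos t ht)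
  have hUle : ∀ t ∈ T, (nm b c (U t) : ℝ) ≤ N := by
    intro t ht
    obtain ⟨h1, h2⟩ := hmem t ht
    show (nm b c (A.rp (pr b c π t.1 t.2)) : ℝ) ≤ N
    rw [AB.rp_nm A (hpos t ht)]
    exact mm2_nm_le hP hM hB h h1 hx (mm2_pos_of_mem h2) (((mem_PS A).1 h2).2.1)
  have hZ : ∀ t ∈ T, Z t ∈ PF A N := by
    intro t ht
    obtain ⟨h1, h2, h3, h4⟩ := mm2_nz A (hU t ht)
    rw [mem_PF]
    refine ⟨h2, le_trans ?_ (hUle t ht), h3⟩
    have hz := A.wd_nm _ h2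
    have e : nm b c (U t) = ((mm2n A (U t) : ℕ) : ℤ) ^ 2 * nm b c (Z t) := by
      conv_lhs => rw [h4]
      rw [sba_nm_sm]
    have h5 : (1 : ℤ) ≤ ((mm2n A (U t) : ℕ) : ℤ) ^ 2 := by
      have : (1 : ℤ) ≤ ((mm2n A (U t) : ℕ) : ℤ) := by exact_mod_cast h1
      nlinarith
    have h6 : nm b c (Z t) ≤ nm b c (U t) := by
      rw [e]
      have hz' : 0 < nm b c (Z t) := hz
      nlinarith
    exact_mod_cast h6
  have hang : ∀ k : ℤ, ∀ t ∈ T, ex (k * A.u (U t)) = ex (k * A.u (Z t)) := by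
    intro k t ht
    obtain ⟨h1, h2, h3, h4⟩ := mm2_nz A (hU t ht)
    have h5 : A.u (U t) = A.u (Z t) := by
      conv_lhs => rw [h4]
      exact A.u_sm _ _ h2 h1
    rw [h5]
  refine ⟨fun z => ∑ t ∈ T.filter (fun t => Z t = z), β t, ?_, ?_⟩
  · intro k
    calc ∑ t ∈ T, β t * ex (k * A.u (U t))
        = ∑ t ∈ T, β t * ex (k * A.u (Z t)) := sum_congr rfl fun t ht => by rw [hang k t ht]
      _ = ∑ z ∈ PF A N, ∑ t ∈ T.filter (fun t => Z t = z), β t * ex (k * A.u (Z t)) :=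
          (sum_fiberwise_of_maps_to hZ _).symm
      _ = ∑ z ∈ PF A N, (∑ t ∈ T.filter (fun t => Z t = z), β t) * ex (k * A.u z) := by
          refine sum_congr rfl fun z _ => ?_
          rw [sum_mul]
          refine sum_congr rfl fun t ht => ?_
          rw [(mem_filter.1 ht).2]
  · have h1 : ∀ z ∈ PF A N, ‖∑ t ∈ T.filter (fun t => Z t = z), β t‖ ^ 2 ≤
        (((T ×ˢ T).filter (fun s => Z s.1 = z ∧ Z s.2 = z)).card : ℝ) := by
      intro z _
      have h2 : ‖∑ t ∈ T.filter (fun t => Z t = z), β t‖ ≤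
          ((T.filter (fun t => Z t = z)).card : ℝ) := by
        calc ‖∑ t ∈ T.filter (fun t => Z t = z), β t‖
            ≤ ∑ t ∈ T.filter (fun t => Z t = z), ‖β t‖ := norm_sum_le _ _
          _ ≤ ∑ t ∈ T.filter (fun t => Z t = z), (1 : ℝ) := sum_le_sum fun t _ => hβ t
          _ = _ := by simp
      have h3 : (T ×ˢ T).filter (fun s => Z s.1 = z ∧ Z s.2 = z) =
          T.filter (fun t => Z t = z) ×ˢ T.filter (fun t => Z t = z) := by
        ext s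
        simp only [mem_filter, mem_product]
        tauto
      rw [h3, card_product]
      push_cast
      rw [sq]
      exact mul_le_mul h2 h2 (norm_nonneg _) (Nat.cast_nonneg _)
    refine (sum_le_sum h1).trans ?_
    have h4 : ∑ z ∈ PF A N, ((T ×ˢ T).filter (fun s => Z s.1 = z ∧ Z s.2 = z)).card ≤
        (mm2D A M B π l l x x).card := by
      rw [← card_biUnion]
      · apply card_le_card
        intro s hs
        rw [mem_biUnion] at hs
        obtain ⟨z, _, hs⟩ := hs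
        rw [mem_filter, mem_product] at hs
        obtain ⟨⟨hs1, hs2⟩, hz1, hz2⟩ := hs
        rw [mm2_mem]
        refine ⟨hmem _ hs1, hmem _ hs2, ?_⟩
        obtain ⟨g1, g2, g3, g4⟩ := mm2_nz A (hU _ hs1)
        obtain ⟨k1, k2, k3, k4⟩ := mm2_nz A (hU _ hs2)
        obtain ⟨o, ho1, ho2, ho3⟩ := A.rp_unit _ (hpos _ hs1)
        obtain ⟨o', ho1', ho2', ho3'⟩ := A.rp_unit _ (hpos _ hs2)
        -- `o U₁ = n z`, `o' U₂ = n' z`
        have e1 : ml b c o (pr b c π s.1.1 s.1.2) = sm (mm2n A (U s.1)) z := by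
          rw [← ho3, ← hz1]
          exact g4
        have e2 : ml b c o' (pr b c π s.2.1 s.2.2) = sm (mm2n A (U s.2)) z := by
          rw [← ho3', ← hz2]
          exact k4
        refine ⟨ml b c (cj b o') o, mm2_un_ml (mm2_un_cj ⟨ho1', ho2'⟩) ⟨ho1, ho2⟩, ?_⟩
        have e3 := mm2_dt_ml (b := b) (c := c) (cj b o')
          (ml b c o (pr b c π s.1.1 s.1.2)) (ml b c o' (pr b c π s.2.1 s.2.2))
        rw [sba_cj_ml ho1'] at e3
        rw [ml_assoc, e3, e1, e2, mm2_dt_sm, mm2_dt_sm']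
        have e4 : dt z z = 0 := by unfold dt; ring
        rw [e4]
        ring
      · intro z _ z' _ hzz
        rw [Function.onFun, disjoint_left]
        intro s hs hs'
        rw [mem_filter] at hs hs'
        exact hzz (hs.2.1.symm.trans hs'.2.1)
    exact_mod_cast h4

end tp

theorem moment_pr {b c : ℤ} (A : Ang b c) (M : ℕ) (hM : 1 ≤ M) : ∃ C : ℝ, 1 ≤ C ∧
    ∀ (K x P : ℝ) (B : Finset ℕ) (k₀ : ℕ) (r : El) (π : ℕ → El) (β : ℕ → ℂ) (a : El → ℂ) (l : ℕ),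
    TP A M B k₀ r π → 0 ≤ K → 1 ≤ x → 1 ≤ P → (∀ p ∈ B, P < (p : ℝ) ∧ (p : ℝ) ≤ 2 * P) →
    (∀ p, ‖β p‖ ≤ 1) → (∀ z, ‖a z‖ ≤ 1) →
      ∑ k ∈ Ks K, ‖(∑ p ∈ B, β p * ex (k * A.u (π p))) ^ l *
        ∑ z ∈ PS A M (fun _ => True) x, a z * ex (k * A.u z)‖ ^ 2 ≤
        C * (K + x * (2 * P) ^ l) * (x * (2 * P) ^ l) * C ^ l * l.factorial := by
  obtain ⟨C₁, hC₁, hls⟩ := lsieve A
  obtain ⟨C₂, hC₂, hct⟩ := mm2_count A M hM
  have hM' : (1 : ℝ) ≤ M := by exact_mod_cast hM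
  have hCC : 1 ≤ C₁ * C₂ := one_le_mul_of_one_le_of_one_le hC₁ hC₂
  refine ⟨max (C₁ * C₂) (M * C₂ ^ 2), le_max_of_le_left hCC, ?_⟩
  intro K x P B k₀ r π β a l hB hK hx hP h hb ha
  have hN1 : 1 ≤ x * (M * (2 * P)) ^ l := by
    refine one_le_mul_of_one_le_of_one_le hx (one_le_pow₀ ?_)
    exact one_le_mul_of_one_le_of_one_le hM' (by linarith)
  have hβ : ∀ t : (Fin l → ℕ) × El, ‖(∏ i, β (t.1 i)) * a t.2‖ ≤ 1 := by
    intro t
    rw [norm_mul, norm_prod]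
    have h1 : ∏ i, ‖β (t.1 i)‖ ≤ 1 := prod_le_one (fun i _ => norm_nonneg _) (fun i _ => hb _)
    exact mul_le_one₀ h1 (norm_nonneg _) (ha _)
  obtain ⟨d, hd1, hd2⟩ := mm2_fibre hP hM hB h l (by linarith : (0 : ℝ) ≤ x) _ hβ
  have h1 : ∑ k ∈ Ks K, ‖(∑ p ∈ B, β p * ex (k * A.u (π p))) ^ l *
        ∑ z ∈ PS A M (fun _ => True) x, a z * ex (k * A.u z)‖ ^ 2 =
      ∑ k ∈ Ks K, ‖∑ z ∈ PF A (x * (M * (2 * P)) ^ l), d z * ex (k * A.u z)‖ ^ 2 := by
    refine sum_congr rfl fun k _ => ?_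
    rw [mm2_expand hB, hd1]
  rw [h1]
  have h2 := (hls K (x * (M * (2 * P)) ^ l) hK hN1).1 d
  have h3 := hct P B k₀ r π hB hP h l l x x (by linarith) (by linarith)
  have h4 : Real.sqrt (x * x) = x := Real.sqrt_mul_self (by linarith)
  have h5 : (C₂ * Real.sqrt P) ^ (l + l) = (C₂ ^ 2 * P) ^ l := by
    rw [← two_mul, pow_mul, mul_pow C₂, Real.sq_sqrt (by linarith)]
  rw [h4, h5] at h3
  have hP0 : 0 ≤ P := by linarith
  have hx0 : 0 ≤ x := by linarith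
  have hC10 : 0 ≤ C₁ := by linarith
  have hC20 : 0 ≤ C₂ := by linarith
  refine h2.trans ?_
  have h6 : 0 ≤ C₁ * (K + x * (M * (2 * P)) ^ l) := by positivity
  refine (mul_le_mul_of_nonneg_left (hd2.trans h3) h6).trans ?_
  have h7 : C₁ * (K + x * (M * (2 * P)) ^ l) ≤ C₁ * ((M : ℝ) ^ l * (K + x * (2 * P) ^ l)) := by
    refine mul_le_mul_of_nonneg_left ?_ hC10
    have h8 : K ≤ (M : ℝ) ^ l * K := le_mul_of_one_le_left hK (one_le_pow₀ hM')
    rw [mul_pow (M : ℝ)]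
    nlinarith
  have h8 : (C₂ ^ 2 * P) ^ l ≤ (C₂ ^ 2) ^ l * (2 * P) ^ l := by
    rw [← mul_pow]
    apply pow_le_pow_left₀ (by positivity)
    nlinarith [sq_nonneg C₂, mul_nonneg (sq_nonneg C₂) hP0]
  have h9 : ((M : ℝ) * C₂ ^ 2) ^ l ≤ (max (C₁ * C₂) (M * C₂ ^ 2)) ^ l :=
    pow_le_pow_left₀ (by positivity) (le_max_right _ _) l
  have h10 : C₁ * C₂ ≤ max (C₁ * C₂) (M * C₂ ^ 2) := le_max_left _ _
  calc C₁ * (K + x * (M * (2 * P)) ^ l) * (C₂ * x * (C₂ ^ 2 * P) ^ l * l.factorial)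
      ≤ C₁ * ((M : ℝ) ^ l * (K + x * (2 * P) ^ l)) *
        (C₂ * x * ((C₂ ^ 2) ^ l * (2 * P) ^ l) * l.factorial) := by
        gcongr
    _ = (C₁ * C₂) * (K + x * (2 * P) ^ l) * (x * (2 * P) ^ l) * ((M : ℝ) * C₂ ^ 2) ^ l *
        l.factorial := by
        rw [mul_pow (M : ℝ)]
        ring
    _ ≤ _ := by
        gcongr

end mm2

theorem par_count : type_of% @par_count_pr := @par_count_pr
theorem moment : type_of% @moment_pr := @moment_pr

end Pool.Agent.AQM
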