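import Pool.Agent.Lib_helper39.AQM.Defs
import Pool.Agent.Lib_helper39.AQM.AB
import Pool.Agent.Lib_helper39.MQX.ALG
import Pool.Agent.Lib_helper39.MQX.SBA
import Pool.Agent.Lib_helper39.MQX.SBB
import Pool.Agent.Lib_helper39.MQX.SBC
import Pool.Agent.Lib_helper39.MQX.LSV
import Pool.Agent.Lib_helper39.MQX.PAR
import Pool.Agent.Lib_helper39.MQX.FEJ
import Pool.Agent.Lib_helper39.MQX.EXP
import Pool.Agent.Lib_helper39.AQMF.MM2

/-! block L2 of AQM, proved by helper50 -/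

/-! block L2 of AQM (MP_892e4c_nt), proved by helper50 (template: MRGF/L2.lean of helper39) -/

set_option autoImplicit false
set_option linter.unusedSectionVars false

namespace Pool.Agent.AQM

open Pool.Agent.MQ Pool.Agent.T2 Filter Topology MeasureTheory

theorem l2_gg {b c : ℤ} {h : ℕ → ℤ} (hh : Sgn h) {v : El} (hv : nm b c v ≠ 0) :
    ‖(gg b c h v : ℂ)‖ ≤ 1 := by
  have h1 : 1 ≤ (nm b c v).natAbs := Nat.one_le_iff_ne_zero.2 (Int.natAbs_ne_zero.2 hv)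
  unfold gg
  rcases hh.pm _ h1 with h2 | h2
  · rw [h2]; simp
  · rw [h2]; simp

theorem l2_MF {b c : ℤ} (A : Ang b c) {q : ℕ} {V : El → Prop} {x : ℝ} {z : El}
    (hz : z ∈ PS A q V x) : z ∈ A.MF x := by
  classical
  unfold PS at hz
  exact Finset.mem_of_mem_filter z hz

open Classical in
theorem l2_PS {b c : ℤ} (A : Ang b c) {M k₀ : ℕ} (hk : k₀ ∣ M) (V : El → Prop)
    (x : ℝ) : PS A (M * k₀) V x = (PS A M (fun _ => True) x).filter V := by
  have hdiv : ∀ l : ℕ, l.Prime → (l ∣ M * k₀ ↔ l ∣ M) := by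
    intro l hl
    constructor
    · intro h
      rcases (Nat.Prime.dvd_mul hl).1 h with h1 | h1
      · exact h1
      · exact h1.trans hk
    · intro h
      exact h.mul_right k₀
  unfold PS
  ext w
  simp only [Finset.mem_filter]
  constructor
  · rintro ⟨h1, h2, h3⟩
    exact ⟨⟨h1, trivial, fun l hl hlw => (hdiv l hl).1 (h3 l hl hlw)⟩, h2⟩
  · rintro ⟨⟨h1, _, h3⟩, h2⟩
    exact ⟨h1, h2, fun l hl hlw => (hdiv l hl).2 (h3 l hl hlw)⟩

open Classical in
theorem l2_Sv {b c : ℤ} (A : Ang b c) {M k₀ : ℕ} (hk : k₀ ∣ M) (V : El → Prop)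
    (h : ℕ → ℤ) (k : ℤ) (x : ℝ) :
    ∑ z ∈ PS A M (fun _ => True) x,
      (if V z ∧ nm b c z ≠ 0 then (gg b c h z : ℂ) else 0) * ex (k * A.u z) =
    Sv A h (M * k₀) V k x := by
  unfold Sv
  rw [l2_PS A hk V x, Finset.sum_filter]
  refine Finset.sum_congr rfl (fun z hz => ?_)
  have hz0 : nm b c z ≠ 0 := by
    have h1 := (AB.mem_MF A).1 (l2_MF A hz)
    exact (A.wd_nm _ h1.1).ne'
  by_cases hV : V z
  · rw [if_pos ⟨hV, hz0⟩, if_pos hV]
  · rw [if_neg (fun h => hV h.1), if_neg hV, zero_mul]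

section
variable {b c : ℤ} (A : Ang b c) (hs : ¬ IsSquare (dsc b c)) {M : ℕ} {T : El → Prop}
include hs

theorem level_step_pr (hT : Cls A M T) : ∃ C : ℝ, 1 ≤ C ∧ ∀ h : ℕ → ℤ, Sgn h →
    ∀ (Y K R R' α α' : ℝ) (B B' : Finset ℕ) (l : ℕ) (U : Finset ℤ) (k₀ k₀' : ℕ) (r r' : El)
    (π π' : ℕ → El), TP A M B k₀ r π → TP A M B' k₀' r' π' → 1 ≤ R → R ≤ Y → 1 ≤ R' → 0 ≤ K →
    K ≤ Y → 0 < α' → α' ≤ α → α ≤ 1 / 4 → (∀ p ∈ B', R' < (p : ℝ) ∧ (p : ℝ) ≤ 2 * R') →
    R ≤ R' ^ l → R' ^ l ≤ R * R' → U ⊆ Ks K → (∀ k ∈ U, ‖Qv A h π k B‖ ≤ R ^ (1 - α)) →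
    (∀ k ∈ U, R' ^ (1 - α') ≤ ‖Qv A h π' k B'‖) →
      ∑ k ∈ U, ‖Qv A h π k B * Sv A h (M * k₀) (QC b c k₀ r T) k (k₀ * Y / R)‖ ^ 2 ≤
        C * Y ^ 2 * R ^ (-(2 * (α - α'))) * R' ^ (2 * α') * C ^ l * l.factorial := by
  classical
  have hM1 := hT.M1
  obtain ⟨C, hC1, hmom⟩ := moment A M hM1
  have hMr : (1 : ℝ) ≤ M := by exact_mod_cast hM1
  have hMr2 : (1 : ℝ) ≤ (M : ℝ) ^ 2 := one_le_pow₀ hMr
  have hCM : 1 ≤ 4 * C * (M : ℝ) ^ 2 := by
    have h1 : (1 : ℝ) ≤ 4 * C := by linarith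
    calc (1 : ℝ) = 1 * 1 := by ring
      _ ≤ 4 * C * (M : ℝ) ^ 2 := mul_le_mul h1 hMr2 zero_le_one (by linarith)
  refine ⟨4 * C * (M : ℝ) ^ 2, hCM, ?_⟩
  intro h hh Y K R R' α α' B B' l U k₀ k₀' r r' π π' hB hB' hR hRY hR' hK hKY hα' hαα hα hB'r
    hRl hRl' hU hUB hUB'
  have hk1 : 1 ≤ k₀ := hB.k1
  have hkM : k₀ ≤ M := Nat.le_of_dvd (by omega) hB.kM
  have hk1r : (1 : ℝ) ≤ k₀ := by exact_mod_cast hk1
  have hkMr : (k₀ : ℝ) ≤ M := by exact_mod_cast hkM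
  have hR0 : 0 < R := by linarith
  have hR'0 : 0 < R' := by linarith
  have hY0 : 0 < Y := by linarith
  have hC0 : 0 < C := by linarith
  have hk0r : (0 : ℝ) < k₀ := by linarith
  -- abbreviations
  set V : El → Prop := QC b c k₀ r T with hV
  set x : ℝ := k₀ * Y / R with hx
  set q : ℤ → ℂ := fun k => Qv A h π k B with hq
  set q' : ℤ → ℂ := fun k => Qv A h π' k B' with hq'
  set s : ℤ → ℂ := fun k => Sv A h (M * k₀) V k x with hs'
  -- pointwise
  set W : ℝ := R ^ (2 * (1 - α)) * (R' ^ (-(2 * (1 - α')))) ^ l with hW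
  have hW0 : 0 ≤ W := by positivity
  have hx1 : 1 ≤ x := by
    rw [hx, le_div_iff₀ hR0, one_mul]
    calc R ≤ Y := hRY
      _ = 1 * Y := by ring
      _ ≤ k₀ * Y := mul_le_mul_of_nonneg_right hk1r hY0.le
  have hpt : ∀ k ∈ U, ‖q k * s k‖ ^ 2 ≤ W * ‖(q' k) ^ l * s k‖ ^ 2 := by
    intro k hk
    have h1 : ‖q k‖ ^ 2 ≤ R ^ (2 * (1 - α)) := by
      have h := pow_le_pow_left₀ (norm_nonneg _) (hUB k hk) 2
      refine h.trans (le_of_eq ?_)
      rw [← Real.rpow_natCast, ← Real.rpow_mul hR0.le]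
      congr 1
      push_cast
      ring
    have h2 : 1 ≤ (R' ^ (-(2 * (1 - α')))) ^ l * ‖(q' k) ^ l‖ ^ 2 := by
      have h3 : 1 ≤ R' ^ (-(2 * (1 - α'))) * ‖q' k‖ ^ 2 := by
        have h := pow_le_pow_left₀ (by positivity) (hUB' k hk) 2
        have h4 : (R' ^ (1 - α')) ^ 2 = R' ^ (2 * (1 - α')) := by
          rw [← Real.rpow_natCast, ← Real.rpow_mul hR'0.le]
          congr 1
          push_cast
          ring
        rw [h4] at h
        calc (1 : ℝ) = R' ^ (-(2 * (1 - α'))) * R' ^ (2 * (1 - α')) := by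
              rw [← Real.rpow_add hR'0]
              simp
          _ ≤ _ := mul_le_mul_of_nonneg_left h (by positivity)
      rw [norm_pow, ← pow_mul, mul_comm l 2, pow_mul, ← mul_pow]
      exact one_le_pow₀ h3
    rw [norm_mul, norm_mul, mul_pow, mul_pow]
    calc ‖q k‖ ^ 2 * ‖s k‖ ^ 2
        ≤ R ^ (2 * (1 - α)) * ‖s k‖ ^ 2 :=
          mul_le_mul_of_nonneg_right h1 (by positivity)
      _ = (R ^ (2 * (1 - α)) * ‖s k‖ ^ 2) * 1 := by ring
      _ ≤ (R ^ (2 * (1 - α)) * ‖s k‖ ^ 2) *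
          ((R' ^ (-(2 * (1 - α')))) ^ l * ‖(q' k) ^ l‖ ^ 2) :=
          mul_le_mul_of_nonneg_left h2 (by positivity)
      _ = _ := by rw [hW]; ring
  -- the moment
  have hm := hmom K x R' B' k₀' r' π'
    (fun p => if p ∈ B' then (gg b c h (π' p) : ℂ) else 0)
    (fun z => if V z ∧ nm b c z ≠ 0 then (gg b c h z : ℂ) else 0) l
    hB' hK hx1 hR' hB'r
    (by
      intro p
      by_cases hp : p ∈ B'
      · simp only [hp, if_true]
        refine l2_gg hh ?_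
        have := A.wd_nm _ (hB'.wd p hp)
        exact this.ne'
      · simp only [hp, if_false]
        simp)
    (by
      intro z
      by_cases hz : V z ∧ nm b c z ≠ 0
      · simp only [hz.1, hz.2, ne_eq, not_false_eq_true, and_self, if_true]
        exact l2_gg hh hz.2
      · simp only [hz, if_false]
        simp)
  have hrw : ∀ k : ℤ, (∑ p ∈ B', (if p ∈ B' then (gg b c h (π' p) : ℂ) else 0) *
      ex (k * A.u (π' p))) ^ l *
      ∑ z ∈ PS A M (fun _ => True) x,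
        (if V z ∧ nm b c z ≠ 0 then (gg b c h z : ℂ) else 0) * ex (k * A.u z) =
      (q' k) ^ l * s k := by
    intro k
    rw [l2_Sv A hB.kM V h k x]
    have h1 : ∑ p ∈ B', (if p ∈ B' then (gg b c h (π' p) : ℂ) else 0) *
        ex (k * A.u (π' p)) = q' k := by
      rw [hq']
      unfold Qv
      refine Finset.sum_congr rfl (fun p hp => ?_)
      rw [if_pos hp]
    rw [h1]
  simp only [hrw] at hm
  set N₀ : ℝ := Y / R * (2 * R') ^ l with hN₀
  set N : ℝ := x * (2 * R') ^ l with hN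
  have hNN : N = k₀ * N₀ := by
    rw [hN, hN₀, hx]
    ring
  have hN₀Y : Y ≤ N₀ := by
    have h1 : R ≤ (2 * R') ^ l := by
      refine hRl.trans (pow_le_pow_left₀ hR'0.le (by linarith) l)
    calc Y = Y / R * R := by field_simp
      _ ≤ Y / R * (2 * R') ^ l := mul_le_mul_of_nonneg_left h1 (by positivity)
  have hN₀0 : 0 < N₀ := by linarith
  have hNY : Y ≤ N := by
    rw [hNN]
    calc Y ≤ N₀ := hN₀Y
      _ = 1 * N₀ := by ring
      _ ≤ k₀ * N₀ := mul_le_mul_of_nonneg_right hk1r hN₀0.le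
  have hN0 : 0 < N := by linarith
  have hsum : ∑ k ∈ U, ‖q k * s k‖ ^ 2 ≤ W * (2 * C * N ^ 2 * C ^ l * l.factorial) := by
    calc ∑ k ∈ U, ‖q k * s k‖ ^ 2
        ≤ ∑ k ∈ U, W * ‖(q' k) ^ l * s k‖ ^ 2 := Finset.sum_le_sum hpt
      _ ≤ ∑ k ∈ Ks K, W * ‖(q' k) ^ l * s k‖ ^ 2 :=
          Finset.sum_le_sum_of_subset_of_nonneg hU (fun k _ _ => by positivity)
      _ = W * ∑ k ∈ Ks K, ‖(q' k) ^ l * s k‖ ^ 2 := by
          rw [Finset.mul_sum]
      _ ≤ W * (C * (K + N) * N * C ^ l * l.factorial) :=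
          mul_le_mul_of_nonneg_left hm hW0
      _ ≤ W * (2 * C * N ^ 2 * C ^ l * l.factorial) := by
          refine mul_le_mul_of_nonneg_left ?_ hW0
          have h1 : C * (K + N) * N ≤ 2 * C * N ^ 2 := by
            have : K + N ≤ 2 * N := by linarith
            calc C * (K + N) * N ≤ C * (2 * N) * N := by
                  refine mul_le_mul_of_nonneg_right ?_ hN0.le
                  exact mul_le_mul_of_nonneg_left this hC0.le
              _ = _ := by ring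
          refine mul_le_mul_of_nonneg_right ?_ (by positivity)
          exact mul_le_mul_of_nonneg_right h1 (by positivity)
  -- the exponents
  have hWN : W * N₀ ^ 2 ≤ Y ^ 2 * R ^ (-(2 * (α - α'))) * R' ^ (2 * α') * 4 ^ l := by
    have e1 : R ^ (2 * (1 - α)) = R ^ 2 * R ^ (-(2 * α)) := by
      rw [← Real.rpow_natCast, ← Real.rpow_add hR0]
      congr 1
      push_cast
      ring
    have e2 : (R' ^ (-(2 * (1 - α')))) ^ l * (R' ^ l) ^ 2 = (R' ^ l) ^ (2 * α') := by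
      have : (R' ^ (-(2 * (1 - α')))) ^ l = (R' ^ l) ^ (-(2 * (1 - α'))) := by
        rw [← Real.rpow_natCast, ← Real.rpow_mul hR'0.le, ← Real.rpow_natCast R' l,
          ← Real.rpow_mul hR'0.le, mul_comm]
      rw [this, ← Real.rpow_natCast (R' ^ l) 2, ← Real.rpow_add (by positivity)]
      congr 1
      push_cast
      ring
    have e3 : (R' ^ l) ^ (2 * α') ≤ R ^ (2 * α') * R' ^ (2 * α') := by
      rw [← Real.mul_rpow hR0.le hR'0.le]
      exact Real.rpow_le_rpow (by positivity) hRl' (by positivity)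
    have e4 : R ^ (-(2 * (α - α'))) = R ^ (-(2 * α)) * R ^ (2 * α') := by
      rw [← Real.rpow_add hR0]
      congr 1
      ring
    have e5 : W * N₀ ^ 2 = Y ^ 2 * R ^ (-(2 * α)) *
        ((R' ^ (-(2 * (1 - α')))) ^ l * (R' ^ l) ^ 2) * 4 ^ l := by
      rw [hW, hN₀, e1, mul_pow, mul_pow, div_pow]
      have : ((2 : ℝ) ^ l) ^ 2 = 4 ^ l := by
        rw [← pow_mul, mul_comm, pow_mul]
        norm_num
      rw [mul_pow, this]
      field_simp
    rw [e5, e2, e4]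
    have h5 : Y ^ 2 * R ^ (-(2 * α)) * (R' ^ l) ^ (2 * α') * 4 ^ l ≤
        Y ^ 2 * R ^ (-(2 * α)) * (R ^ (2 * α') * R' ^ (2 * α')) * 4 ^ l := by
      refine mul_le_mul_of_nonneg_right ?_ (by positivity)
      exact mul_le_mul_of_nonneg_left e3 (by positivity)
    refine h5.trans (le_of_eq ?_)
    ring
  refine hsum.trans ?_
  have hk2 : (k₀ : ℝ) ^ 2 ≤ (M : ℝ) ^ 2 := pow_le_pow_left₀ hk0r.le hkMr 2
  have hMl : (1 : ℝ) ≤ ((M : ℝ) ^ 2) ^ l := one_le_pow₀ hMr2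
  set Z : ℝ := Y ^ 2 * R ^ (-(2 * (α - α'))) * R' ^ (2 * α') with hZ
  have hZ0 : 0 ≤ Z := by positivity
  calc W * (2 * C * N ^ 2 * C ^ l * l.factorial)
      = (W * N₀ ^ 2) * ((k₀ : ℝ) ^ 2 * (2 * C * C ^ l * l.factorial)) := by rw [hNN]; ring
    _ ≤ (Z * 4 ^ l) * ((k₀ : ℝ) ^ 2 * (2 * C * C ^ l * l.factorial)) :=
        mul_le_mul_of_nonneg_right hWN (by positivity)
    _ ≤ (Z * 4 ^ l) * ((M : ℝ) ^ 2 * (4 * C * C ^ l * l.factorial)) := by
        refine mul_le_mul_of_nonneg_left ?_ (by positivity)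
        refine mul_le_mul hk2 ?_ (by positivity) (by positivity)
        refine mul_le_mul_of_nonneg_right ?_ (by positivity)
        refine mul_le_mul_of_nonneg_right ?_ (by positivity)
        linarith
    _ = (4 * C * (M : ℝ) ^ 2) * Z * (4 * C) ^ l * l.factorial * 1 := by
        rw [mul_pow]
        ring
    _ ≤ (4 * C * (M : ℝ) ^ 2) * Z * (4 * C) ^ l * l.factorial * ((M : ℝ) ^ 2) ^ l :=
        mul_le_mul_of_nonneg_left hMl (by positivity)
    _ = _ := by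
        rw [hZ, mul_pow (4 * C) ((M : ℝ) ^ 2) l]
        ring

end

theorem level_step : type_of% @level_step_pr := @level_step_pr

end Pool.Agent.AQM
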