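import Pool.Agent.Lib_helper39.AQM.Defs
import Pool.Agent.Lib_helper39.AQM.AB
import Pool.Agent.Lib_helper39.MQX.ALG
import Pool.Agent.Lib_helper39.MQX.SBA
import Pool.Agent.Lib_helper39.MQX.SBB
import Pool.Agent.Lib_helper39.MQX.SBC
import Pool.Agent.Lib_helper39.MQX.LSV
import Pool.Agent.Lib_helper39.MQX.PAR
import Pool.Agent.Lib_helper39.MQX.FEJ
import Pool.Agent.Lib_helper39.MQX.EXP
import Pool.Agent.Lib_helper39.AQMF.L2

/-! block L4C of AQM, proved by helper35 -/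

set_option autoImplicit false

namespace Pool.Agent.AQM

open Pool.Agent.MQ Pool.Agent.T2 Filter Topology MeasureTheory

section
variable {b c : ℤ} (A : Ang b c) (hs : ¬ IsSquare (dsc b c)) {M : ℕ} {T : El → Prop}

theorem l4c_Qv_empty (h : ℕ → ℤ) (π : ℕ → El) (k : ℤ) : Qv A h π k ∅ = 0 := by
  simp [Qv]

theorem l4c_tp {A : Ang b c} {B B' : Finset ℕ} {k₀ : ℕ} {r : El} {π : ℕ → El}
    (hB : TP A M B k₀ r π) (hs : B' ⊆ B) : TP A M B' k₀ r π where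
  k1 := hB.k1
  kM := hB.kM
  prime := fun p hp => hB.prime p (hs hp)
  m4 := fun p hp => hB.m4 p (hs hp)
  ndM := fun p hp => hB.ndM p (hs hp)
  ndD := fun p hp => hB.ndD p (hs hp)
  wd := fun p hp => hB.wd p (hs hp)
  nm := fun p hp => hB.nm p (hs hp)
  res := fun p hp => hB.res p (hs hp)

theorem l4c_blk_sub (ρ : ℝ) (v : ℕ) (B : Finset ℕ) : blk ρ v B ⊆ B :=
  fun _ hp => (lev_mem_blk.1 hp).1

theorem l4c_pset {A : Ang b c} {B : Finset ℕ} {k₀ : ℕ} {r : El} {π : ℕ → El}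
    (hB : TP A M B k₀ r π) : Pset B := fun p hp => ⟨hB.prime p hp, hB.m4 p hp⟩

include hs in
/-- L4C: template `l4_C` -/
theorem l4_C_pr (hT : Cls A M T) : ∃ C : ℝ, 1 ≤ C ∧ ∀ h : ℕ → ℤ, Sgn h →
    ∀ (Y K E ρ ρ' a a' : ℝ) (B B' : Finset ℕ) (V V' : ℕ) (U : Finset ℤ) (k₀ k₀' : ℕ) (r r' : El)
    (π π' : ℕ → El), TP A M B k₀ r π → TP A M B' k₀' r' π' →
    C ≤ E → 0 ≤ K → K ≤ Y → Real.exp (E ^ 8) ≤ Y →
    1 < ρ → ρ ≤ 2 → 1 < ρ' → ρ' ≤ 2 → 0 < a' → a' ≤ a → a ≤ 1 / 4 →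
    (∀ p ∈ B, Real.exp (E ^ 4) < (p : ℝ) ∧ (p : ℝ) ≤ Real.exp (E ^ 8)) →
    (∀ p ∈ B', Real.exp E < (p : ℝ) ∧ (p : ℝ) ≤ Real.exp (E ^ 2)) →
    64 * Real.log E ≤ (a - a') * E → 4 ≤ (a - a') * E ^ 2 → U ⊆ Ks K →
    (∀ k ∈ U, ∀ v < V, ‖Qv A h π k (blk ρ v B)‖ ≤ (ρ ^ v) ^ (1 - a)) →
    (∀ k ∈ U, ∃ u < V', (ρ' ^ u) ^ (1 - a') < ‖Qv A h π' k (blk ρ' u B')‖) →
      ∑ k ∈ U, ‖∑ v ∈ Finset.range V, Qv A h π k (blk ρ v B) *
          Sv A h (M * k₀) (QC b c k₀ r T) k (k₀ * Y / ρ ^ v)‖ ^ 2 ≤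
        C * Y ^ 2 * ((V : ℝ) ^ 2 * V') * Real.exp (-E ^ 2) := by
  obtain ⟨C, hC, hstep⟩ := level_step A hs hT
  refine ⟨8 * C, by linarith, ?_⟩
  intro h hh Y K E ρ ρ' a a' B B' V V' U k₀ k₀' r r' π π' hTP hTP' hE hK0 hKY hEY hρ hρ2 hρ' hρ2'
    ha' haa' ha hBp hBp' hg1 hg2 hT hgood hbad
  classical
  have hB : Pset B := l4c_pset hTP
  have hB' : Pset B' := l4c_pset hTP'
  have hE8 : 8 ≤ E := by linarith
  have hE0 : 0 < E := by linarith
  have hY0 : 0 < Y := lt_of_lt_of_le (Real.exp_pos _) hEY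
  have hE2 : 64 ≤ E ^ 2 := by nlinarith
  have hE4 : E ^ 4 = E ^ 2 * E ^ 2 := by ring
  -- one term
  have key : ∀ v < V, ∀ u < V', ∑ k ∈ U.filter (fun k => (ρ' ^ u) ^ (1 - a') <
      ‖Qv A h π' k (blk ρ' u B')‖), ‖Qv A h π k (blk ρ v B) *
        Sv A h (M * k₀) (QC b c k₀ r T) k (k₀ * Y / ρ ^ v)‖ ^ 2 ≤
      C * Y ^ 2 * Real.exp (-E ^ 2) := by
    intro v hv u hu
    by_cases h1 : (blk ρ v B).Nonempty
    swap
    · rw [Finset.not_nonempty_iff_eq_empty] at h1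
      rw [h1]
      simp only [l4c_Qv_empty, zero_mul, norm_zero]
      rw [Finset.sum_eq_zero (fun _ _ => by norm_num)]
      positivity
    by_cases h2 : (blk ρ' u B').Nonempty
    swap
    · rw [Finset.not_nonempty_iff_eq_empty] at h2
      rw [h2]
      simp only [l4c_Qv_empty, norm_zero]
      rw [Finset.filter_false_of_mem, Finset.sum_empty]
      · positivity
      · intro k hk
        have : 0 < (ρ' ^ u) ^ (1 - a') := by positivity
        linarith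
    obtain ⟨hA1, hA2, hA3⟩ := lev_blk hρ hρ2 hBp h1
    obtain ⟨hb1, hb2, hb3⟩ := lev_blk hρ' hρ2' hBp' h2
    set Av := (v : ℝ) * Real.log ρ with hAdef
    set bv := (u : ℝ) * Real.log ρ' with hbdef
    have hb4 : E / 2 ≤ bv := by linarith
    have hb0 : 0 < bv := by linarith
    have hA4 : E ^ 4 / 2 ≤ Av := by
      have : (2 : ℝ) ≤ E ^ 4 := by rw [hE4]; nlinarith
      linarith
    have hbA : bv ≤ Av := by
      have : E ^ 2 ≤ E ^ 4 / 2 := by rw [hE4]; nlinarith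
      linarith
    have hA0 : 0 < Av := by linarith
    obtain ⟨hp1, hp2⟩ := lev_pow hb0 hA0.le
    have hfac := lev_fac 7 hC (by linarith : 4 * C ≤ E) hb4 hbA (by norm_num; exact hA2)
    set l := ⌈Av / bv⌉₊ with hl
    rw [← hA3, ← hb3] at hp2
    rw [← hb3, ← hA3] at hp1
    have h3 := hstep h hh Y K (ρ ^ v) (ρ' ^ u) a a' (blk ρ v B) (blk ρ' u B') l
      (U.filter (fun k => (ρ' ^ u) ^ (1 - a') < ‖Qv A h π' k (blk ρ' u B')‖)) k₀ k₀' r r' π π'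
      (l4c_tp hTP (l4c_blk_sub _ _ _)) (l4c_tp hTP' (l4c_blk_sub _ _ _))
      (by rw [hA3]; exact Real.one_le_exp hA0.le)
      (by rw [hA3]; exact (Real.exp_le_exp.2 hA2).trans hEY)
      (by rw [hb3]; exact Real.one_le_exp hb0.le) hK0 hKY ha' haa' ha
      (lev_blk_mem hρ' hρ2' hB').2 hp1 hp2
      ((Finset.filter_subset _ _).trans hT)
      (fun k hk => hgood k (Finset.mem_filter.1 hk).1 v hv)
      (fun k hk => (Finset.mem_filter.1 hk).2.le)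
    refine h3.trans ?_
    rw [hA3, hb3, ← Real.exp_mul, ← Real.exp_mul]
    have h4 : Real.exp (Av * -(2 * (a - a'))) * Real.exp (bv * (2 * a')) *
        Real.exp (4 * (((7 : ℕ) : ℝ) + 1) * Av * Real.log E / E) ≤ Real.exp (-E ^ 2) := by
      rw [← Real.exp_add, ← Real.exp_add]
      apply Real.exp_le_exp.2
      have h5 : 4 * (((7 : ℕ) : ℝ) + 1) * Av * Real.log E / E ≤ (a - a') * Av / 2 := by
        rw [div_le_iff₀ hE0]
        have : 64 * Real.log E * Av ≤ (a - a') * E * Av := by gcongr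
        push_cast
        linarith
      have h6 : bv * (2 * a') ≤ E ^ 2 / 2 := by
        have : a' ≤ 1 / 4 := by linarith
        nlinarith [sq_nonneg E]
      have h7 : 2 * E ^ 2 ≤ (a - a') * Av := by
        calc 2 * E ^ 2 ≤ ((a - a') * E ^ 2) * E ^ 2 / 2 := by nlinarith
          _ = (a - a') * (E ^ 4 / 2) := by ring
          _ ≤ (a - a') * Av := by
            have : 0 ≤ a - a' := by linarith
            gcongr
      nlinarith
    calc C * Y ^ 2 * Real.exp (Av * -(2 * (a - a'))) * Real.exp (bv * (2 * a')) * C ^ l *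
          (l.factorial : ℝ)
        = C * Y ^ 2 * (Real.exp (Av * -(2 * (a - a'))) * Real.exp (bv * (2 * a')) * (C ^ l *
          (l.factorial : ℝ))) := by ring
      _ ≤ C * Y ^ 2 * (Real.exp (Av * -(2 * (a - a'))) * Real.exp (bv * (2 * a')) *
          Real.exp (4 * (((7 : ℕ) : ℝ) + 1) * Av * Real.log E / E)) := by gcongr
      _ ≤ C * Y ^ 2 * Real.exp (-E ^ 2) := by gcongr
  -- the sum over `u`
  have key2 : ∀ v < V, ∑ k ∈ U, ‖Qv A h π k (blk ρ v B) *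
      Sv A h (M * k₀) (QC b c k₀ r T) k (k₀ * Y / ρ ^ v)‖ ^ 2 ≤
      V' * (C * Y ^ 2 * Real.exp (-E ^ 2)) := by
    intro v hv
    calc ∑ k ∈ U, ‖Qv A h π k (blk ρ v B) *
        Sv A h (M * k₀) (QC b c k₀ r T) k (k₀ * Y / ρ ^ v)‖ ^ 2
        ≤ ∑ u ∈ Finset.range V', ∑ k ∈ U.filter (fun k => (ρ' ^ u) ^ (1 - a') <
          ‖Qv A h π' k (blk ρ' u B')‖), ‖Qv A h π k (blk ρ v B) *
            Sv A h (M * k₀) (QC b c k₀ r T) k (k₀ * Y / ρ ^ v)‖ ^ 2 := by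
          apply lev_cover _ _ _ _ (fun _ => by positivity)
          intro k hk
          obtain ⟨u, hu, hu'⟩ := hbad k hk
          exact ⟨u, Finset.mem_range.2 hu, Finset.mem_filter.2 ⟨hk, hu'⟩⟩
      _ ≤ ∑ u ∈ Finset.range V', C * Y ^ 2 * Real.exp (-E ^ 2) :=
          Finset.sum_le_sum (fun u hu => key v hv u (Finset.mem_range.1 hu))
      _ = _ := by rw [Finset.sum_const, Finset.card_range, nsmul_eq_mul]
  calc ∑ k ∈ U, ‖∑ v ∈ Finset.range V, Qv A h π k (blk ρ v B) *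
      Sv A h (M * k₀) (QC b c k₀ r T) k (k₀ * Y / ρ ^ v)‖ ^ 2
      ≤ ∑ k ∈ U, (V : ℝ) * ∑ v ∈ Finset.range V,
        ‖Qv A h π k (blk ρ v B) *
          Sv A h (M * k₀) (QC b c k₀ r T) k (k₀ * Y / ρ ^ v)‖ ^ 2 := by
        apply Finset.sum_le_sum
        intro k _
        have h1 := sq_sum_le_card_mul_sum_sq (s := Finset.range V)
          (f := fun v => ‖Qv A h π k (blk ρ v B) *
            Sv A h (M * k₀) (QC b c k₀ r T) k (k₀ * Y / ρ ^ v)‖)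
        rw [Finset.card_range] at h1
        refine le_trans ?_ h1
        have := norm_sum_le (Finset.range V) (fun v => Qv A h π k (blk ρ v B) *
          Sv A h (M * k₀) (QC b c k₀ r T) k (k₀ * Y / ρ ^ v))
        gcongr
    _ = (V : ℝ) * ∑ v ∈ Finset.range V, ∑ k ∈ U,
        ‖Qv A h π k (blk ρ v B) *
          Sv A h (M * k₀) (QC b c k₀ r T) k (k₀ * Y / ρ ^ v)‖ ^ 2 := by
        rw [← Finset.mul_sum, Finset.sum_comm]
    _ ≤ (V : ℝ) * ∑ v ∈ Finset.range V, (V' * (C * Y ^ 2 * Real.exp (-E ^ 2))) := by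
        gcongr with v hv
        exact key2 v (Finset.mem_range.1 hv)
    _ = C * Y ^ 2 * ((V : ℝ) ^ 2 * V') * Real.exp (-E ^ 2) := by
        rw [Finset.sum_const, Finset.card_range, nsmul_eq_mul]; ring
    _ ≤ 8 * C * Y ^ 2 * ((V : ℝ) ^ 2 * V') * Real.exp (-E ^ 2) := by
        gcongr
        linarith

end

theorem l4_C : type_of% @l4_C_pr := @l4_C_pr

end Pool.Agent.AQM
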