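import Pool.Agent.Lib_helper90.PNT.WienerIkehara
import Pool.Agent.Lib_helper39.AQM.Defs
import Pool.Agent.Lib_helper39.AQM.AB
import Pool.Agent.Lib_helper39.MQX.ALG
import Pool.Agent.Lib_helper39.MQX.SBA
import Pool.Agent.Lib_helper39.MQX.SBB
import Pool.Agent.Lib_helper39.MQX.SBC
import Pool.Agent.Lib_helper39.MQX.LSV
import Pool.Agent.Lib_helper39.MQX.PAR
import Pool.Agent.Lib_helper39.MQX.FEJ
import Pool.Agent.Lib_helper39.MQX.EXP

/-! block ME of AQM, proved by helper90 -/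

/-! AQM, block ME: sums over typed sets of primes -/

set_option autoImplicit false

namespace Pool.Agent.AQM

open Pool.Agent.MQ Pool.Agent.T2 Filter Topology MeasureTheory

open Classical in
/-- the primes `1 mod q` in `(P, Q]` -/
noncomputable def mePr (q : ℕ) (P Q : ℝ) : Finset ℕ :=
  (Finset.range (⌊Q⌋₊ + 1)).filter (fun p => p.Prime ∧ p % q = 1 ∧ P < (p : ℝ) ∧ (p : ℝ) ≤ Q)

theorem me_mem {q : ℕ} {P Q : ℝ} {p : ℕ} : p ∈ mePr q P Q ↔
    p.Prime ∧ p % q = 1 ∧ P < (p : ℝ) ∧ (p : ℝ) ≤ Q := by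
  classical
  unfold mePr
  rw [Finset.mem_filter, Finset.mem_range]
  constructor
  · rintro ⟨-, h⟩; exact h
  · intro h
    refine ⟨?_, h⟩
    rw [Nat.lt_succ_iff]
    exact Nat.le_floor h.2.2.2

theorem me_disj {q i j : ℕ} (hij : i ≠ j) :
    Disjoint (mePr q (2 ^ i) (2 ^ (i + 1))) (mePr q (2 ^ j) (2 ^ (j + 1))) := by
  rw [Finset.disjoint_left]
  intro p hp hp'
  rw [me_mem] at hp hp'
  rcases lt_or_gt_of_ne hij with h | h
  · have h1 : (2 : ℝ) ^ (i + 1) ≤ 2 ^ j := pow_le_pow_right₀ (by norm_num) h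
    linarith [hp.2.2.2, hp'.2.2.1]
  · have h1 : (2 : ℝ) ^ (j + 1) ≤ 2 ^ i := pow_le_pow_right₀ (by norm_num) h
    linarith [hp.2.2.1, hp'.2.2.2]

theorem me_log_le (a b : ℕ) (hab : a ≤ b) :
    Real.log (((b : ℝ) + 1) / (a + 1)) ≤ ∑ j ∈ Finset.Ico a b, (1 : ℝ) / (j + 1) := by
  induction b, hab using Nat.le_induction with
  | base =>
    have ha0 : (a : ℝ) + 1 ≠ 0 := by positivity
    rw [Finset.Ico_self, Finset.sum_empty, div_self ha0, Real.log_one]
  | succ b hab ih =>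
    rw [Finset.sum_Ico_succ_top hab]
    have h1 : Real.log ((((b + 1 : ℕ) : ℝ) + 1) / (a + 1)) = Real.log (((b : ℝ) + 1) / (a + 1)) +
        Real.log ((((b + 1 : ℕ) : ℝ) + 1) / (b + 1)) := by
      rw [← Real.log_mul (by positivity) (by positivity)]
      congr 1
      field_simp
    have h2 : Real.log ((((b + 1 : ℕ) : ℝ) + 1) / (b + 1)) ≤ (1 : ℝ) / (b + 1) := by
      have h3 := Real.log_le_sub_one_of_pos (x := (((b + 1 : ℕ) : ℝ) + 1) / (b + 1)) (by positivity)
      refine h3.trans (le_of_eq ?_)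
      push_cast
      field_simp
      ring
    linarith

/-- the sum of the logarithms over the primes `1 mod q` in `(t, 2t]` -/
theorem me_theta (q : ℕ) (hq : 2 ≤ q) : ∃ T₀ : ℝ, ∀ t : ℝ, T₀ ≤ t →
    (q.totient : ℝ)⁻¹ / 2 * t ≤ ∑ p ∈ mePr q t (2 * t), Real.log p := by
  classical
  have : NeZero q := ⟨by omega⟩
  have hφ : (0 : ℝ) < (q.totient : ℝ)⁻¹ := by
    have : 0 < q.totient := Nat.totient_pos.2 (by omega)
    positivity
  have h := Pool.Agent.Lib_helper90.PNT.pnt_residueClass (q := q) (a := 1) isUnit_one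
  set φ : ℝ := (q.totient : ℝ)⁻¹ with hφd
  set R : ℕ → ℝ := ArithmeticFunction.vonMangoldt.residueClass (1 : ZMod q) with hR
  set A : ℝ → ℝ := fun x => ∑ k ∈ Finset.Icc 1 ⌊x⌋₊, R k with hA
  obtain ⟨C, hC⟩ := Chebyshev.psi_sub_theta_le_mul_sqrt
  have h1 : ∀ᶠ x : ℝ in atTop, 7 / 8 * φ * x ≤ A x ∧ A x ≤ 9 / 8 * φ * x := by
    have h2 := h.eventually (Ioo_mem_nhds (show 7 / 8 * φ < φ by linarith)
      (show φ < 9 / 8 * φ by linarith))
    filter_upwards [h2, eventually_gt_atTop 0] with x hx hx0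
    rw [lt_div_iff₀ hx0, div_lt_iff₀ hx0] at hx
    exact ⟨hx.1.le, hx.2.le⟩
  obtain ⟨T₁, hT₁⟩ := eventually_atTop.1 h1
  -- the key inequality
  have key : ∀ t : ℝ, 1 ≤ t → A (2 * t) - A t ≤
      ∑ p ∈ mePr q t (2 * t), Real.log p + C * Real.sqrt (2 * t) := by
    intro t ht
    have hfl : ⌊t⌋₊ ≤ ⌊2 * t⌋₊ := Nat.floor_le_floor (by linarith)
    have hsplit : A (2 * t) - A t = ∑ k ∈ Finset.Ioc ⌊t⌋₊ ⌊2 * t⌋₊, R k := by
      simp only [hA]
      rw [sub_eq_iff_eq_add, ← Finset.sum_union]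
      · apply Finset.sum_congr _ (fun _ _ => rfl)
        ext k
        simp only [Finset.mem_union, Finset.mem_Ioc, Finset.mem_Icc]
        omega
      · rw [Finset.disjoint_left]
        intro k
        simp only [Finset.mem_Ioc, Finset.mem_Icc]
        omega
    rw [hsplit, ← Finset.sum_filter_add_sum_filter_not _ (fun k : ℕ => k.Prime)]
    have hp1 : ∑ k ∈ (Finset.Ioc ⌊t⌋₊ ⌊2 * t⌋₊).filter (fun k : ℕ => k.Prime), R k ≤
        ∑ p ∈ mePr q t (2 * t), Real.log p := by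
      have hsub : mePr q t (2 * t) ⊆ (Finset.Ioc ⌊t⌋₊ ⌊2 * t⌋₊).filter (fun k : ℕ => k.Prime) := by
        intro p hp
        rw [me_mem] at hp
        rw [Finset.mem_filter, Finset.mem_Ioc]
        exact ⟨⟨(Nat.floor_lt (by linarith)).2 hp.2.2.1, Nat.le_floor hp.2.2.2⟩, hp.1⟩
      rw [← Finset.sum_subset hsub]
      · apply Finset.sum_le_sum
        intro p hp
        rw [me_mem] at hp
        refine (ArithmeticFunction.vonMangoldt.residueClass_le _ _).trans (le_of_eq ?_)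
        exact ArithmeticFunction.vonMangoldt_apply_prime hp.1
      · intro p hp hnp
        rw [Finset.mem_filter, Finset.mem_Ioc] at hp
        rw [me_mem] at hnp
        have h4 : p % q ≠ 1 := by
          intro h4
          apply hnp
          refine ⟨hp.2, h4, ?_, ?_⟩
          · exact (Nat.floor_lt (by linarith)).1 hp.1.1
          · exact (Nat.le_floor_iff (by linarith)).1 hp.1.2
        rw [hR]
        unfold ArithmeticFunction.vonMangoldt.residueClass
        rw [Set.indicator_of_notMem]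
        intro hmem
        apply h4
        rw [Set.mem_ofPred_eq] at hmem
        have h5 : ((p : ℕ) : ZMod q) = ((1 : ℕ) : ZMod q) := by rw [hmem]; simp
        rw [ZMod.natCast_eq_natCast_iff] at h5
        unfold Nat.ModEq at h5
        rw [h5, Nat.mod_eq_of_lt (by omega)]
    have hp2 : ∑ k ∈ (Finset.Ioc ⌊t⌋₊ ⌊2 * t⌋₊).filter (fun k : ℕ => ¬ k.Prime), R k ≤
        C * Real.sqrt (2 * t) := by
      refine le_trans ?_ (hC (2 * t))
      rw [Chebyshev.psi_sub_theta_eq_sum_not_prime]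
      refine le_trans (Finset.sum_le_sum (fun k _ =>
        ArithmeticFunction.vonMangoldt.residueClass_le (1 : ZMod q) k)) ?_
      apply Finset.sum_le_sum_of_subset_of_nonneg
      · intro k hk
        simp only [Finset.mem_filter, Finset.mem_Ioc] at hk ⊢
        exact ⟨⟨by omega, hk.1.2⟩, hk.2⟩
      · intro k _ _
        exact ArithmeticFunction.vonMangoldt_nonneg
    linarith
  -- square root is small
  have h3 : ∀ᶠ t : ℝ in atTop, C * Real.sqrt (2 * t) ≤ φ / 8 * t := by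
    have h4 : ∀ᶠ t : ℝ in atTop, (16 / φ * (|C| + 1)) ^ 2 ≤ t := eventually_ge_atTop _
    filter_upwards [h4, eventually_ge_atTop 1] with t ht ht1
    have h5 : Real.sqrt (2 * t) ≤ 2 * Real.sqrt t := by
      rw [Real.sqrt_mul (by norm_num)]
      have : Real.sqrt 2 ≤ 2 := by
        rw [Real.sqrt_le_left (by norm_num)]; norm_num
      exact mul_le_mul_of_nonneg_right this (Real.sqrt_nonneg _)
    have h6 : 16 / φ * (|C| + 1) ≤ Real.sqrt t := by
      apply Real.le_sqrt_of_sq_le ht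
    have h6' : 16 * (|C| + 1) ≤ φ * Real.sqrt t := by
      rw [div_mul_eq_mul_div, div_le_iff₀ hφ] at h6
      linarith
    have h7 : Real.sqrt t * Real.sqrt t = t := Real.mul_self_sqrt (by linarith)
    have h8 : 0 ≤ Real.sqrt t := Real.sqrt_nonneg _
    have h9 : C ≤ |C| := le_abs_self C
    have h10 : 0 ≤ |C| := abs_nonneg C
    calc C * Real.sqrt (2 * t) ≤ |C| * (2 * Real.sqrt t) :=
          mul_le_mul h9 h5 (Real.sqrt_nonneg _) h10
      _ = (2 * |C|) * Real.sqrt t := by ring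
      _ ≤ (φ / 8 * Real.sqrt t) * Real.sqrt t := by
          apply mul_le_mul_of_nonneg_right _ h8
          linarith
      _ = φ / 8 * (Real.sqrt t * Real.sqrt t) := by ring
      _ = φ / 8 * t := by rw [h7]
  obtain ⟨T₂, hT₂⟩ := eventually_atTop.1 h3
  refine ⟨max (max T₁ T₂) 1, fun t ht => ?_⟩
  have ht1 : T₁ ≤ t := le_trans (le_trans (le_max_left _ _) (le_max_left _ _)) ht
  have ht2 : T₂ ≤ t := le_trans (le_trans (le_max_right _ _) (le_max_left _ _)) ht
  have ht3 : 1 ≤ t := le_trans (le_max_right _ _) ht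
  have e1 := hT₁ t ht1
  have e2 := hT₁ (2 * t) (by linarith)
  have e3 := hT₂ t ht2
  have e4 := key t ht3
  have e5 : φ / 2 * t = 7 / 8 * φ * (2 * t) - 9 / 8 * φ * t - φ / 8 * t := by ring
  linarith [e1.2, e2.1]

/-- the reciprocal sum over a dyadic block, lower bound -/
theorem me_dy_lower (q : ℕ) (hq : 2 ≤ q) : ∃ j₀ : ℕ, ∀ j : ℕ, j₀ ≤ j →
    ((q.totient : ℝ)⁻¹ / 4) * (1 / ((j : ℝ) + 1)) ≤ rs (mePr q (2 ^ j) (2 ^ (j + 1))) := by
  obtain ⟨T₀, hT⟩ := me_theta q hq
  set φ : ℝ := (q.totient : ℝ)⁻¹ with hφd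
  obtain ⟨j₀, hj₀⟩ := pow_unbounded_of_one_lt T₀ (show (1 : ℝ) < 2 by norm_num)
  refine ⟨j₀, fun j hj => ?_⟩
  have hp0 : (0 : ℝ) < 2 ^ j := by positivity
  have h1 := hT (2 ^ j) (hj₀.le.trans (pow_le_pow_right₀ (by norm_num) hj))
  have e : (2 : ℝ) * 2 ^ j = 2 ^ (j + 1) := by rw [pow_succ]; ring
  rw [e] at h1
  have hl2 : 0 < Real.log 2 := Real.log_pos (by norm_num)
  have hL : 0 < ((j : ℝ) + 1) * Real.log 2 := by positivity
  have h2 : (∑ p ∈ mePr q (2 ^ j) (2 ^ (j + 1)), Real.log p) ≤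
      (((j : ℝ) + 1) * Real.log 2 * 2 ^ (j + 1)) * rs (mePr q (2 ^ j) (2 ^ (j + 1))) := by
    unfold rs
    rw [Finset.mul_sum]
    apply Finset.sum_le_sum
    intro p hp
    rw [me_mem] at hp
    have hp1 : (0 : ℝ) < p := by linarith [hp.2.2.1]
    have hlp : Real.log p ≤ ((j : ℝ) + 1) * Real.log 2 := by
      have := Real.log_le_log hp1 hp.2.2.2
      rw [Real.log_pow] at this
      push_cast at this
      exact this
    rw [mul_one_div, le_div_iff₀ hp1]
    exact mul_le_mul hlp hp.2.2.2 hp1.le hL.le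
  have h3 : φ / 2 * 2 ^ j ≤ (((j : ℝ) + 1) * Real.log 2 * 2 ^ (j + 1)) *
      rs (mePr q (2 ^ j) (2 ^ (j + 1))) := h1.trans h2
  have h4 : φ / 4 ≤ ((j : ℝ) + 1) * Real.log 2 * rs (mePr q (2 ^ j) (2 ^ (j + 1))) := by
    have h5 : (((j : ℝ) + 1) * Real.log 2 * 2 ^ (j + 1)) * rs (mePr q (2 ^ j) (2 ^ (j + 1))) =
        (2 * (((j : ℝ) + 1) * Real.log 2 * rs (mePr q (2 ^ j) (2 ^ (j + 1))))) * 2 ^ j := by
      rw [pow_succ]; ring
    rw [h5] at h3
    have := le_of_mul_le_mul_right h3 hp0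
    linarith
  have h6 : Real.log 2 < 0.6931471808 := Real.log_two_lt_d9
  have hrs : 0 ≤ rs (mePr q (2 ^ j) (2 ^ (j + 1))) := Finset.sum_nonneg (fun p _ => by positivity)
  have hj1 : 0 < (j : ℝ) + 1 := by positivity
  rw [mul_one_div, div_le_iff₀ hj1]
  have h7 : ((j : ℝ) + 1) * Real.log 2 * rs (mePr q (2 ^ j) (2 ^ (j + 1))) ≤
      0.6931471808 * (rs (mePr q (2 ^ j) (2 ^ (j + 1))) * ((j : ℝ) + 1)) := by
    have : 0 ≤ rs (mePr q (2 ^ j) (2 ^ (j + 1))) * ((j : ℝ) + 1) := mul_nonneg hrs hj1.le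
    nlinarith
  have h8 : 0 ≤ rs (mePr q (2 ^ j) (2 ^ (j + 1))) * ((j : ℝ) + 1) := mul_nonneg hrs hj1.le
  linarith

theorem me_lower (q : ℕ) (hq : 2 ≤ q) : ∃ C : ℝ, 1 ≤ C ∧ ∀ P Q : ℝ, 2 ≤ P → P ≤ Q →
    ((q.totient : ℝ)⁻¹ / 4) * Real.log (Real.log Q / Real.log P) - C ≤ rs (mePr q P Q) := by
  classical
  obtain ⟨j₀, hj₀⟩ := me_dy_lower q hq
  have hφ : (0 : ℝ) < (q.totient : ℝ)⁻¹ := by
    have : 0 < q.totient := Nat.totient_pos.2 (by omega)
    positivity
  have hφ1 : (q.totient : ℝ)⁻¹ ≤ 1 := by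
    apply inv_le_one_of_one_le₀
    exact_mod_cast Nat.totient_pos.2 (by omega : 0 < q)
  set φ : ℝ := (q.totient : ℝ)⁻¹ with hφd
  refine ⟨j₀ + 2, by have : (0 : ℝ) ≤ j₀ := Nat.cast_nonneg _
                     linarith, fun P Q hP hPQ => ?_⟩
  have hl2 : 0 < Real.log 2 := Real.log_pos (by norm_num)
  have hlP : Real.log 2 ≤ Real.log P := Real.log_le_log (by norm_num) hP
  have hlQ : Real.log P ≤ Real.log Q := Real.log_le_log (by linarith) hPQ
  have hP0 : 0 < Real.log P := by linarith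
  have hQ0 : 0 < Real.log Q := by linarith
  have hrs : 0 ≤ rs (mePr q P Q) := Finset.sum_nonneg (fun p _ => by positivity)
  have hj0' : (0 : ℝ) ≤ j₀ := Nat.cast_nonneg _
  set a := ⌈Real.log P / Real.log 2⌉₊ with ha
  set b := ⌊Real.log Q / Real.log 2⌋₊ with hb
  have haP : Real.log P / Real.log 2 ≤ a := Nat.le_ceil _
  have haP' : (a : ℝ) < Real.log P / Real.log 2 + 1 := Nat.ceil_lt_add_one (by positivity)
  have hbQ : (b : ℝ) ≤ Real.log Q / Real.log 2 := Nat.floor_le (by positivity)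
  have hbQ' : Real.log Q / Real.log 2 < (b : ℝ) + 1 := Nat.lt_floor_add_one _
  -- the ratio
  have hr : Real.log (Real.log Q / Real.log P) ≤ Real.log (((b : ℝ) + 1) / (a + 1)) + 2 := by
    have h1 : (a : ℝ) + 1 ≤ 3 * (Real.log P / Real.log 2) := by
      have : 1 ≤ Real.log P / Real.log 2 := by rw [one_le_div hl2]; exact hlP
      linarith
    have h2 : Real.log Q / Real.log P ≤ 3 * (((b : ℝ) + 1) / (a + 1)) := by
      rw [div_le_iff₀ hP0]
      rw [mul_comm 3, mul_assoc, div_mul_eq_mul_div, le_div_iff₀ (by positivity)]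
      have e1 : Real.log Q ≤ ((b : ℝ) + 1) * Real.log 2 := by
        rw [div_lt_iff₀ hl2] at hbQ'; exact hbQ'.le
      have e2 : ((a : ℝ) + 1) * Real.log 2 ≤ 3 * Real.log P := by
        have := mul_le_mul_of_nonneg_right h1 hl2.le
        rw [mul_assoc, div_mul_cancel₀ _ hl2.ne'] at this
        exact this
      calc Real.log Q * ((a : ℝ) + 1) ≤ (((b : ℝ) + 1) * Real.log 2) * ((a : ℝ) + 1) :=
            mul_le_mul_of_nonneg_right e1 (by positivity)
        _ = ((b : ℝ) + 1) * (((a : ℝ) + 1) * Real.log 2) := by ring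
        _ ≤ ((b : ℝ) + 1) * (3 * Real.log P) := mul_le_mul_of_nonneg_left e2 (by positivity)
    have h3 : Real.log 3 ≤ 2 := by
      have := Real.log_le_sub_one_of_pos (show (0 : ℝ) < 3 by norm_num)
      linarith
    calc Real.log (Real.log Q / Real.log P) ≤ Real.log (3 * (((b : ℝ) + 1) / (a + 1))) :=
          Real.log_le_log (by positivity) h2
      _ = Real.log 3 + Real.log (((b : ℝ) + 1) / (a + 1)) :=
          Real.log_mul (by norm_num) (by positivity)
      _ ≤ _ := by linarith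
  rcases le_or_gt a b with hab | hab
  · have h1 := me_log_le a b hab
    have hsub : (Finset.Ico a b).biUnion (fun j => mePr q (2 ^ j) (2 ^ (j + 1))) ⊆ mePr q P Q := by
      intro p hp
      rw [Finset.mem_biUnion] at hp
      obtain ⟨j, hj, hp⟩ := hp
      rw [Finset.mem_Ico] at hj
      rw [me_mem] at hp ⊢
      refine ⟨hp.1, hp.2.1, ?_, ?_⟩
      · refine lt_of_le_of_lt ?_ hp.2.2.1
        rw [← Real.log_le_log_iff (by linarith) (by positivity), Real.log_pow]
        rw [div_le_iff₀ hl2] at haP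
        refine haP.trans (mul_le_mul_of_nonneg_right ?_ hl2.le)
        exact_mod_cast hj.1
      · refine hp.2.2.2.trans ?_
        rw [← Real.log_le_log_iff (by positivity) (by linarith), Real.log_pow]
        rw [le_div_iff₀ hl2] at hbQ
        refine le_trans (mul_le_mul_of_nonneg_right ?_ hl2.le) hbQ
        exact_mod_cast hj.2
    have h2 : ∑ j ∈ Finset.Ico a b, rs (mePr q (2 ^ j) (2 ^ (j + 1))) ≤ rs (mePr q P Q) := by
      unfold rs
      refine le_trans (le_of_eq ?_) (Finset.sum_le_sum_of_subset_of_nonneg hsub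
        (fun p _ _ => by positivity))
      rw [Finset.sum_biUnion]
      intro i _ j _ hij
      exact me_disj hij
    have h3 : ∑ j ∈ Finset.Ico a b, ((φ / 4) * ((1 : ℝ) / ((j : ℝ) + 1)) -
        (if j < j₀ then (1 : ℝ) else 0)) ≤ ∑ j ∈ Finset.Ico a b, rs (mePr q (2 ^ j) (2 ^ (j + 1))) := by
      apply Finset.sum_le_sum
      intro j _
      by_cases hj : j < j₀
      · rw [if_pos hj]
        have h5 : (0 : ℝ) ≤ rs (mePr q (2 ^ j) (2 ^ (j + 1))) :=
          Finset.sum_nonneg (fun p _ => by positivity)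
        have h6 : (1 : ℝ) / ((j : ℝ) + 1) ≤ 1 := by
          rw [div_le_one (by positivity)]
          have : (0 : ℝ) ≤ j := Nat.cast_nonneg _
          linarith
        have h7 : (φ / 4) * ((1 : ℝ) / ((j : ℝ) + 1)) ≤ 1 * 1 :=
          mul_le_mul (by linarith) h6 (by positivity) (by norm_num)
        linarith
      · rw [if_neg hj, sub_zero]
        exact hj₀ j (not_lt.1 hj)
    rw [Finset.sum_sub_distrib, ← Finset.mul_sum] at h3
    have h4 : ∑ j ∈ Finset.Ico a b, (if j < j₀ then (1 : ℝ) else 0) ≤ j₀ := by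
      rw [← Finset.sum_filter, Finset.sum_const, nsmul_eq_mul, mul_one]
      have : ((Finset.Ico a b).filter (fun j => j < j₀)).card ≤ (Finset.range j₀).card := by
        apply Finset.card_le_card
        intro j hj
        rw [Finset.mem_filter] at hj
        exact Finset.mem_range.2 hj.2
      rw [Finset.card_range] at this
      exact_mod_cast this
    have h5 := mul_le_mul_of_nonneg_left (hr.trans (add_le_add_left h1 2)) (show 0 ≤ φ / 4 by linarith)
    have h6 : φ / 4 * 2 ≤ 1 := by linarith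
    linarith
  · have h1 : Real.log (((b : ℝ) + 1) / (a + 1)) ≤ 0 := by
      apply Real.log_nonpos (by positivity)
      rw [div_le_one (by positivity)]
      have : (b : ℝ) < a := by exact_mod_cast hab
      linarith
    have h5 := mul_le_mul_of_nonneg_left (hr.trans (add_le_add_left h1 2)) (show 0 ≤ φ / 4 by linarith)
    have h6 : φ / 4 * 2 ≤ 1 := by linarith
    linarith

/-- the reciprocal sum without the small primes -/
theorem me_rem (q M : ℕ) (P Q : ℝ) :
    rs (mePr q P Q) - M ≤ rs ((mePr q P Q).filter (fun p => M < p)) := by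
  classical
  unfold rs
  rw [← Finset.sum_filter_add_sum_filter_not (mePr q P Q) (fun p => M < p)]
  have h1 : ∑ p ∈ (mePr q P Q).filter (fun p => ¬ M < p), 1 / (p : ℝ) ≤ M := by
    have h2 : ∑ p ∈ (mePr q P Q).filter (fun p => ¬ M < p), 1 / (p : ℝ) ≤
        ∑ p ∈ Finset.Icc 1 M, (1 : ℝ) := by
      refine le_trans (Finset.sum_le_sum_of_subset_of_nonneg (t := Finset.Icc 1 M) ?_
        (fun p _ _ => by positivity)) ?_
      · intro p hp
        rw [Finset.mem_filter, me_mem] at hp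
        rw [Finset.mem_Icc]
        exact ⟨hp.1.1.pos, not_lt.1 hp.2⟩
      · apply Finset.sum_le_sum
        intro p hp
        rw [Finset.mem_Icc] at hp
        have h3 : (1 : ℝ) ≤ p := by exact_mod_cast hp.1
        rw [div_le_one (by linarith)]
        exact h3
    simpa using h2
  linarith

theorem typed_mer_pr {b c : ℤ} {A : Ang b c} {M : ℕ} (hM : GoodM A M) : ∃ c₁ C : ℝ, 0 < c₁ ∧
    1 ≤ C ∧ ∀ P Q : ℝ, 2 ≤ P → P ≤ Q → ∃ (B : Finset ℕ) (k₀ : ℕ) (r : El) (π : ℕ → El),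
    TP A M B k₀ r π ∧ (∀ p ∈ B, P < (p : ℝ) ∧ (p : ℝ) ≤ Q) ∧
      c₁ * Real.log (Real.log Q / Real.log P) - C ≤ rs B := by
  classical
  obtain ⟨_, hD, n, hn, hG⟩ := hM
  have hna : 1 ≤ (dsc b c).natAbs := Int.natAbs_pos.mpr hD
  set q := 4 * (dsc b c).natAbs with hq
  obtain ⟨C, hC, h⟩ := me_lower q (by omega)
  have hφ : (0 : ℝ) < (q.totient : ℝ)⁻¹ := by
    have : 0 < q.totient := Nat.totient_pos.2 (by omega)
    positivity
  have hn0 : (1 : ℝ) ≤ n := by exact_mod_cast hn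
  have hM0 : (0 : ℝ) ≤ M := Nat.cast_nonneg _
  refine ⟨(q.totient : ℝ)⁻¹ / 4 / n, C + M, by positivity, by linarith, fun P Q hP hPQ => ?_⟩
  obtain ⟨B, hBE, k₀, r, π, hT, hB⟩ := hG ((mePr q P Q).filter (fun p => M < p)) (by
    intro p hp
    rw [Finset.mem_filter, me_mem] at hp
    exact ⟨hp.1.1, hp.1.2.1, hp.2⟩) (fun p => 1 / (p : ℝ)) (fun p => by positivity)
  refine ⟨B, k₀, r, π, hT, fun p hp => ?_, ?_⟩
  · have h1 := hBE hp
    rw [Finset.mem_filter, me_mem] at h1
    exact h1.1.2.2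
  · have h1 := h P Q hP hPQ
    have h2 := me_rem q M P Q
    have h3 : rs ((mePr q P Q).filter (fun p => M < p)) ≤ n * rs B := hB
    have h4 : ((q.totient : ℝ)⁻¹ / 4 * Real.log (Real.log Q / Real.log P) - (C + M)) / n ≤ rs B := by
      rw [div_le_iff₀ (by linarith)]
      linarith
    refine le_trans ?_ h4
    rw [sub_div]
    have h5 : (C + M) / n ≤ C + M := div_le_self (by linarith) hn0
    have h6 : (q.totient : ℝ)⁻¹ / 4 / n * Real.log (Real.log Q / Real.log P) =
        (q.totient : ℝ)⁻¹ / 4 * Real.log (Real.log Q / Real.log P) / n := by ring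
    linarith

theorem typed_block_pr {b c : ℤ} {A : Ang b c} {M : ℕ} (hM : GoodM A M) : ∃ c₁ P₀ : ℝ, 0 < c₁ ∧
    ∀ P : ℝ, P₀ ≤ P → ∃ (B : Finset ℕ) (k₀ : ℕ) (r : El) (π : ℕ → El), TP A M B k₀ r π ∧
      (∀ p ∈ B, P < (p : ℝ) ∧ (p : ℝ) ≤ 2 * P) ∧ c₁ * (P / Real.log P) ≤ (B.card : ℝ) := by
  classical
  obtain ⟨_, hD, n, hn, hG⟩ := hM
  have hna : 1 ≤ (dsc b c).natAbs := Int.natAbs_pos.mpr hD
  set q := 4 * (dsc b c).natAbs with hq
  obtain ⟨T₀, h⟩ := me_theta q (by omega)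
  have hφ : (0 : ℝ) < (q.totient : ℝ)⁻¹ := by
    have : 0 < q.totient := Nat.totient_pos.2 (by omega)
    positivity
  set φ : ℝ := (q.totient : ℝ)⁻¹ with hφd
  have hn0 : (1 : ℝ) ≤ n := by exact_mod_cast hn
  refine ⟨φ / 4 / n, max T₀ (max 2 M), by positivity, fun P hP => ?_⟩
  have hP1 : T₀ ≤ P := (le_max_left _ _).trans hP
  have hP2 : 2 ≤ P := ((le_max_left _ _).trans (le_max_right _ _)).trans hP
  have hP3 : (M : ℝ) ≤ P := ((le_max_right _ _).trans (le_max_right _ _)).trans hP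
  have h1 := h P hP1
  have hl : 0 < Real.log P := Real.log_pos (by linarith)
  obtain ⟨B, hBE, k₀, r, π, hT, hB⟩ := hG (mePr q P (2 * P)) (by
    intro p hp
    rw [me_mem] at hp
    refine ⟨hp.1, hp.2.1, ?_⟩
    have : (M : ℝ) < p := by linarith [hp.2.2.1]
    exact_mod_cast this) (fun _ => 1) (fun _ => zero_le_one)
  refine ⟨B, k₀, r, π, hT, fun p hp => ?_, ?_⟩
  · have h2 := hBE hp
    rw [me_mem] at h2
    exact h2.2.2
  · rw [Finset.sum_const, Finset.sum_const, nsmul_eq_mul, nsmul_eq_mul, mul_one, mul_one] at hB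
    have h2 : ∑ p ∈ mePr q P (2 * P), Real.log p ≤ (mePr q P (2 * P)).card * (2 * Real.log P) := by
      rw [← nsmul_eq_mul]
      apply Finset.sum_le_card_nsmul
      intro p hp
      rw [me_mem] at hp
      have hp0 : (0 : ℝ) < p := by linarith [hp.2.2.1]
      calc Real.log p ≤ Real.log (P * P) := by
            apply Real.log_le_log hp0
            nlinarith [hp.2.2.2]
        _ = 2 * Real.log P := by
            rw [Real.log_mul (by linarith) (by linarith)]
            ring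
    have h3 : φ / 2 * P ≤ (n * B.card) * (2 * Real.log P) :=
      (h1.trans h2).trans (mul_le_mul_of_nonneg_right hB (by linarith))
    have h4 : φ / 4 / n * (P / Real.log P) = (φ / 2 * P) / (n * (2 * Real.log P)) := by
      field_simp
      ring
    rw [h4, div_le_iff₀ (by positivity)]
    linarith

theorem typed_mer : type_of% @typed_mer_pr := @typed_mer_pr
theorem typed_block : type_of% @typed_block_pr := @typed_block_pr

end Pool.Agent.AQM
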