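import Pool.Agent.Lib_helper39.MRGF.L4
import Pool.Agent.Lib_helper39.AQM.Defs
import Pool.Agent.Lib_helper39.AQM.AB
import Pool.Agent.Lib_helper39.MQX.ALG
import Pool.Agent.Lib_helper39.MQX.SBA
import Pool.Agent.Lib_helper39.MQX.SBB
import Pool.Agent.Lib_helper39.MQX.SBC
import Pool.Agent.Lib_helper39.MQX.LSV
import Pool.Agent.Lib_helper39.MQX.PAR
import Pool.Agent.Lib_helper39.MQX.FEJ
import Pool.Agent.Lib_helper39.MQX.EXP
import Pool.Agent.Lib_helper39.AQMF.L1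
import Pool.Agent.Lib_helper39.AQMF.ME
import Pool.Agent.Lib_helper39.AQMF.L4A
import Pool.Agent.Lib_helper39.AQMF.L4C

/-! block L4E of AQM, proved by helper32 -/

/-! block L4E of AQM (helper32) -/

set_option autoImplicit false

namespace Pool.Agent.AQM

open Pool.Agent.MQ Pool.Agent.T2 Filter Topology MeasureTheory

section
variable {b c : ℤ} (A : Ang b c) (hs : ¬ IsSquare (dsc b c)) {M : ℕ} {T : El → Prop}

include hs in
/-- the first level -/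
theorem l4e_sec0 (hT : Cls A M T) : ∃ C1 : ℝ, 1 ≤ C1 ∧ ∀ h : ℕ → ℤ, Sgn h → ∀
    (α c' L ε Y : ℝ) (B : Finset ℕ) (k₀ : ℕ) (r : El) (π : ℕ → El) (U : Finset ℤ),
    TP A M B k₀ r π → B ⊆ levB L 0 → 0 < α → α ≤ 1 → 0 < c' → c' ≤ 1 → 0 < ε → 2 ≤ L →
    8 * C1 / (ε * (α / 8) ^ 4 * c' ^ 2) ≤ L →
    (∀ p ∈ levB L 0, (p : ℝ) ≤ levR c' 0 ^ (levV L c' 0)) → 1 ≤ Y → Real.exp (L ^ 2) ≤ Y →
    U ⊆ Ks (Y / Real.exp (L ^ 2)) →
    (∀ k ∈ U, ∀ v < levV L c' 0, ‖Qv A h π k (blk (levR c' 0) v B)‖ ≤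
      (levR c' 0 ^ v) ^ (1 - levA α 0)) →
    ∑ k ∈ U, ‖∑ v ∈ Finset.range (levV L c' 0), Qv A h π k (blk (levR c' 0) v B) *
      Sv A h (M * k₀) (QC b c k₀ r T) k (k₀ * Y / levR c' 0 ^ v)‖ ^ 2 ≤ ε / 8 * Y ^ 2 := by
  obtain ⟨C1, hC1, h1⟩ := level_one A hs hT
  refine ⟨C1, hC1, ?_⟩
  intro h hh α c' L ε Y B k₀ r π U hB hBs hα hα1 hc0 hc1 hε hL4 hL8 hV hY1 hHY hU hgood
  obtain ⟨hR1, hR2, hR3⟩ := lev_R hc0 hc1 0
  obtain ⟨ha1, ha2, ha3, ha4⟩ := lev_A_bd hα hα1 0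
  have hF0 : levF L 0 = L := by unfold levF; simp
  have h2 := h1 h hh Y (Real.exp (L ^ 2)) (levR c' 0) (Real.exp L) (Real.exp (L ^ 2)) (levA α 0)
    B (levV L c' 0) U k₀ r π hB hY1 hR1 hR2 ha1 ha3
    (by have := Real.add_one_le_exp L
        linarith) le_rfl hHY (fun p hp => by
          obtain ⟨e1, e2, e3, e4⟩ := lev_mem_B (hBs hp)
          rw [hF0] at e3 e4
          exact ⟨e3, e4, hV p (hBs hp)⟩) hU hgood
  have ha00 : levA α 0 = α / 8 := by unfold levA; norm_num; ring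
  have hR0 : levR c' 0 - 1 = c' := by unfold levR; norm_num
  rw [ha00, hR0, ← Real.exp_mul] at h2
  refine h2.trans ?_
  have h4 := Pool.Agent.PENT.MRG.l4_num0 hC1 hε (show 0 < α / 8 by positivity) hc0 hL4 hL8
  calc C1 * Y ^ 2 * (Real.exp (L * -(α / 8)) / (α / 8 * c')) ^ 2
      = (C1 * (Real.exp (L * -(α / 8)) / (α / 8 * c')) ^ 2) * Y ^ 2 := by ring
    _ ≤ ε / 8 * Y ^ 2 := by gcongr

include hs in
/-- the other levels -/
theorem l4e_secS (hT : Cls A M T) : ∃ CC : ℝ, 1 ≤ CC ∧ ∀ h : ℕ → ℤ, Sgn h → ∀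
    (α c' L ε Y : ℝ) (i : ℕ) (B B' : Finset ℕ) (k₀ k₀' : ℕ) (r r' : El) (π π' : ℕ → El)
    (U : Finset ℤ), TP A M B k₀ r π → TP A M B' k₀' r' π' → B ⊆ levB L (i + 1) →
    B' ⊆ levB L i → 0 < α → α ≤ 1 → 0 < c' → c' ≤ 1 → 0 < ε →
    1 ≤ Real.log L → 2 ≤ L → CC ≤ levF L i → Real.log (levF L i) ^ 2 ≤ α / 1024 * levF L i →
    levF L i ^ 37 * Real.exp (-levF L i) ≤ ε / (32 * CC) →
    (∀ j, (levV L c' j : ℝ) ≤ levF L j ^ 4) → 1 ≤ Y → Real.exp (levF L (i + 1) ^ 2) ≤ Y →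
    U ⊆ Ks (Y / Real.exp (L ^ 2)) →
    (∀ k ∈ U, ∀ v < levV L c' (i + 1), ‖Qv A h π k (blk (levR c' (i + 1)) v B)‖ ≤
      (levR c' (i + 1) ^ v) ^ (1 - levA α (i + 1))) →
    (∀ k ∈ U, ∃ u < levV L c' i, (levR c' i ^ u) ^ (1 - levA α i) <
      ‖Qv A h π' k (blk (levR c' i) u B')‖) →
    2 * ∑ k ∈ U, ‖∑ v ∈ Finset.range (levV L c' (i + 1)),
      Qv A h π k (blk (levR c' (i + 1)) v B) *
      Sv A h (M * k₀) (QC b c k₀ r T) k (k₀ * Y / levR c' (i + 1) ^ v)‖ ^ 2 ≤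
        ε / 4 * (1 / 4) ^ (i + 1) * Y ^ 2 := by
  obtain ⟨CC, hCC, hC⟩ := l4_C A hs hT
  refine ⟨CC, hCC, ?_⟩
  intro h hh α c' L ε Y i B B' k₀ k₀' r r' π π' U hB hB' hBs hBs' hα hα1 hc0 hc1 hε hLlog1 hL4 hL6
    hEsq hE37 hV hY1 hEY hU hgood hbad
  have hL1' : 1 ≤ L := by linarith
  have hEL : L ≤ levF L i := lev_F_ge hL1' i
  have hE2 : 2 ≤ levF L i := hL4.trans hEL
  have hlogE1 : 1 ≤ Real.log (levF L i) :=
    hLlog1.trans (Real.log_le_log (by linarith) hEL)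
  obtain ⟨hg1, hg2, hg3⟩ := Pool.Agent.PENT.MRG.l4_gap (i := i) hα hα1 hE2 hlogE1
    (lev_F_log hLlog1 i) hEsq
  have h5 := Pool.Agent.PENT.MRG.l4_numS hCC hε hE2 (lev_F_log hLlog1 i) hE37
  obtain ⟨hR1, hR2, _⟩ := lev_R hc0 hc1 (i + 1)
  obtain ⟨hR1', hR2', _⟩ := lev_R hc0 hc1 i
  obtain ⟨ha1, ha2, ha3, ha4⟩ := lev_A_bd hα hα1 (i + 1)
  obtain ⟨hb1, hb2, hb3, hb4⟩ := lev_A_bd hα hα1 i
  have hKY : Y / Real.exp (L ^ 2) ≤ Y :=
    div_le_self (by linarith) (Real.one_le_exp (by positivity))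
  have hFE : levF L (i + 1) = levF L i ^ 4 := lev_F_succ L i
  set E := levF L i with hE
  have hE8 : levF L (i + 1) ^ 2 = E ^ 8 := by rw [hFE]; ring
  have hE0 : 0 < E := by linarith
  have hV1 : (levV L c' (i + 1) : ℝ) ≤ E ^ 16 := by
    refine (hV (i + 1)).trans ?_
    rw [hFE]
    exact le_of_eq (by ring)
  have hV2 : (levV L c' i : ℝ) ≤ E ^ 4 := hV i
  have h4 : Real.exp (-E ^ 2) ≤ Real.exp (-E) := by
    apply Real.exp_le_exp.2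
    have : E * 1 ≤ E * E := by gcongr; linarith
    linarith
  have h2 := hC h hh Y (Y / Real.exp (L ^ 2)) E (levR c' (i + 1)) (levR c' i) (levA α (i + 1))
    (levA α i) B B' (levV L c' (i + 1)) (levV L c' i) U k₀ k₀' r r' π π' hB hB'
    hL6 (by positivity) hKY (by rw [← hE8]; exact hEY) hR1 hR2 hR1' hR2' hb1 hg3 ha3
    (fun p hp => by
      obtain ⟨e1, e2, e3, e4⟩ := lev_mem_B (hBs hp)
      rw [hFE] at e3
      rw [hE8] at e4
      exact ⟨e3, e4⟩) (fun p hp => by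
      obtain ⟨e1, e2, e3, e4⟩ := lev_mem_B (hBs' hp)
      exact ⟨e3, e4⟩) hg1 hg2 hU hgood hbad
  calc 2 * ∑ k ∈ U, ‖∑ v ∈ Finset.range (levV L c' (i + 1)),
      Qv A h π k (blk (levR c' (i + 1)) v B) *
        Sv A h (M * k₀) (QC b c k₀ r T) k (k₀ * Y / levR c' (i + 1) ^ v)‖ ^ 2
      ≤ 2 * (CC * Y ^ 2 * ((levV L c' (i + 1) : ℝ) ^ 2 * levV L c' i) * Real.exp (-E ^ 2)) :=
        mul_le_mul_of_nonneg_left h2 (by norm_num)
    _ ≤ 2 * (CC * Y ^ 2 * ((E ^ 16) ^ 2 * E ^ 4) * Real.exp (-E)) := by gcongr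
    _ = 2 * (CC * E ^ 36 * Real.exp (-E)) * Y ^ 2 := by ring
    _ ≤ ε / 4 * (1 / 4) ^ (i + 1) * Y ^ 2 := by gcongr

end

/-- typed level sets and their reciprocal sums -/
theorem l4e_sets {b c : ℤ} {A : Ang b c} {M : ℕ} (hM : GoodM A M) : ∃ c₁ C : ℝ, 0 < c₁ ∧
    1 ≤ C ∧ ∀ L : ℝ, 2 ≤ L → ∃ (B : ℕ → Finset ℕ) (k₀ : ℕ → ℕ) (r : ℕ → El)
    (π : ℕ → ℕ → El), LevT A M L B k₀ r π ∧
      ∀ j, c₁ * (4 ^ j * Real.log L) - C ≤ rs (B j) := by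
  obtain ⟨c₁, C, hc₁, hC, h⟩ := typed_mer hM
  refine ⟨c₁, C, hc₁, hC, ?_⟩
  intro L hL
  have hL1 : 1 ≤ L := by linarith
  have hex : ∀ j, ∃ (B : Finset ℕ) (k₀ : ℕ) (r : El) (π : ℕ → El),
      TP A M B k₀ r π ∧ (∀ p ∈ B, Real.exp (levF L j) < (p : ℝ) ∧
        (p : ℝ) ≤ Real.exp (levF L j ^ 2)) ∧ c₁ * (4 ^ j * Real.log L) - C ≤ rs B := by
    intro j
    have hF2 : 2 ≤ levF L j := hL.trans (lev_F_ge hL1 j)
    have hF0 : 0 < levF L j := by linarith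
    obtain ⟨B, k₀, r, π, h1, h2, h3⟩ := h (Real.exp (levF L j)) (Real.exp (levF L j ^ 2))
      (by have := Real.add_one_le_exp (levF L j)
          linarith) (Real.exp_le_exp.2 (by nlinarith))
    refine ⟨B, k₀, r, π, h1, h2, ?_⟩
    have h4 : Real.log (levF L j) = 4 ^ j * Real.log L := by
      unfold levF; rw [Real.log_pow]; push_cast; ring
    rw [Real.log_exp, Real.log_exp, show levF L j ^ 2 / levF L j = levF L j by field_simp, h4] at h3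
    exact h3
  choose B k₀ r π h1 h2 h3 using hex
  refine ⟨B, k₀, r, π, ⟨h1, ?_⟩, h3⟩
  intro j p hp
  classical
  unfold levB pr1
  obtain ⟨e1, e2⟩ := h2 j p hp
  have e3 := (h1 j).prime p hp
  have e4 := (h1 j).m4 p hp
  rw [Finset.mem_filter]
  refine ⟨?_, e3, e4, e1, e2⟩
  exact Finset.mem_range.2 (Nat.lt_succ_of_le (Nat.le_floor e2))

/-- L4E: template `l4_sec0`, `l4_secS`, `l4_lvl`, at the single scale `Y = X` (`δ = 1`). The sets `levB L j`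
are replaced by typed subsets (`typed_mer` with `P = exp F`, `Q = exp (F²)`, `F = levF L j`,
`log (log Q / log P) = log F = 4^j log L`; then as in `l4_rs` with `c₁ log L ≥ κ + C`). `l4_Y`, `l4_err`,
`l4_num0`, `l4_gap`, `l4_numS`, `l4_par` of MRGF/L4.lean and the `lev_` lemmas of T2F/LEV.lean may be
cited. -/
theorem l4_lvl_pr {b c : ℤ} (A : Ang b c) (hs : ¬ IsSquare (dsc b c)) {M : ℕ} {T : El → Prop}
    (hT : Cls A M T) (hM : GoodM A M) (α ε F₀ : ℝ) (hα : 0 < α) (hα1 : α ≤ 1) (hε : 0 < ε) :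
    ∃ c' L : ℝ, 0 < c' ∧ c' ≤ 1 ∧ 1 ≤ Real.log L ∧ 2 ≤ L ∧ F₀ ≤ L ∧
    (∀ j, (levV L c' j : ℝ) ≤ levF L j ^ 4) ∧ ∃ (B : ℕ → Finset ℕ) (k₀ : ℕ → ℕ) (r : ℕ → El)
    (π : ℕ → ℕ → El), LevT A M L B k₀ r π ∧
    ∀ h : ℕ → ℤ, Sgn h → ∀ (X : ℝ) (j : ℕ) (U : Finset ℤ), 1 ≤ X →
      levF L j ^ 4 ≤ Real.log X → U ⊆ Ks (X / Real.exp (L ^ 2)) →
      (∀ k ∈ U, ¬ l4Bad A h B π L c' α j k) → (∀ k ∈ U, ∀ i < j, l4Bad A h B π L c' α i k) →
        ∑ k ∈ U, ‖Sv A h M T k X‖ ^ 2 ≤ ε / 2 * (1 / 4) ^ j * X ^ 2 := by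
  obtain ⟨CA, hCA, hA⟩ := l4_A A hs hT
  obtain ⟨C1, hC1, h1⟩ := l4e_sec0 A hs hT
  obtain ⟨CC, hCC, hC⟩ := l4e_secS A hs hT
  obtain ⟨c₁, CM, hc₁, hCM, hset⟩ := l4e_sets (A := A) hM
  set CA' : ℝ := CA + CA / (4 * c₁) + ε / (32 * c₁) with hCA'
  have hCA'1 : 1 ≤ CA' := by
    have e1 : 0 < CA / (4 * c₁) := by positivity
    have e2 : 0 < ε / (32 * c₁) := by positivity
    linarith
  set CM' : ℝ := max 1 (CM / (4 * c₁)) with hCM'
  obtain ⟨c', κ, L, hc0, hc1, hcε', hκ1, hκε', hLlog1, hL4, hL0, hL6, hLlog, hL8, hF⟩ :=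
    Pool.Agent.PENT.MRG.l4_par 1 α ε F₀ CA' C1 CC CM' one_pos hα hε hCA'1 hC1 hCC (le_max_left _ _)
  have hκ0 : 0 < κ := by linarith
  -- the constants
  have hcε : CA * c' ≤ ε / 8 := by
    refine le_trans ?_ hcε'
    have e1 : 0 < CA / (4 * c₁) := by positivity
    have e2 : 0 < ε / (32 * c₁) := by positivity
    have : CA ≤ CA' := by linarith
    gcongr
  set κ' : ℝ := 4 * c₁ * κ with hκ'
  have hκ'0 : 0 < κ' := by positivity
  have hκ'1 : 1 ≤ κ' := by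
    have e1 : 0 < CA / (4 * c₁) := by positivity
    have e2 : ε / (32 * c₁) ≤ CA' := by linarith
    have e3 : ε / (32 * c₁) / κ ≤ ε / 8 := by
      refine le_trans ?_ hκε'
      gcongr
    rw [div_div, div_le_div_iff₀ (by positivity) (by norm_num)] at e3
    -- ε * 8 ≤ ε * (32 * c₁ * κ)
    have e4 : 8 ≤ 32 * c₁ * κ := by
      have := le_of_mul_le_mul_left e3 hε
      linarith
    rw [hκ']
    linarith
  have hκ'ε : CA / κ' ≤ ε / 8 := by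
    have e0 : CA / κ' = CA / (4 * c₁) / κ := by rw [hκ', div_div]
    have e2 : 0 < ε / (32 * c₁) := by positivity
    have e1 : CA / (4 * c₁) ≤ CA' := by linarith
    rw [e0]
    refine le_trans ?_ hκε'
    gcongr
  have hL1' : 1 ≤ L := by linarith
  obtain ⟨B, k₀, r, π, hLev, hrsB⟩ := hset L hL4
  have hrs : ∀ j, 4 ^ j * κ' ≤ rs (B j) := by
    intro j
    refine le_trans ?_ (hrsB j)
    have e1 : CM / (4 * c₁) ≤ CM' := le_max_right _ _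
    have e2 : CM ≤ 4 * c₁ * CM' := by
      rw [div_le_iff₀ (by positivity)] at e1
      linarith
    have e3 : (1 : ℝ) ≤ 4 ^ j := one_le_pow₀ (by norm_num)
    have e4 : c₁ * (4 ^ j * (4 * (κ + CM'))) ≤ c₁ * (4 ^ j * Real.log L) := by gcongr
    have e5 : 0 < CM := by linarith
    have e6 : 1 * CM ≤ 4 ^ j * (4 * c₁ * CM') := by gcongr
    calc 4 ^ j * κ' = c₁ * (4 ^ j * (4 * (κ + CM'))) - 4 ^ j * (4 * c₁ * CM') := by
          rw [hκ']; ring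
      _ ≤ c₁ * (4 ^ j * Real.log L) - CM := by linarith
  -- facts on the levels
  have hFge : ∀ j, L ≤ levF L j := lev_F_ge hL1'
  have hV : ∀ j, (levV L c' j : ℝ) ≤ levF L j ^ 4 ∧ ∀ p ∈ levB L j,
      (p : ℝ) ≤ levR c' j ^ (levV L c' j) := fun j =>
    lev_V hc0 hc1 hLlog1 j (hF _ (hFge j)).2.1 (hL4.trans (hFge j))
  refine ⟨c', L, hc0, hc1, hLlog1, hL4, hL0, fun j => (hV j).1, B, k₀, r, π, hLev, ?_⟩
  intro h hh X j U hX hAF hU hgood hbad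
  have hX0 : 0 < X := by linarith
  have hFj := hF _ (hFge j)
  have hF2 : 2 ≤ levF L j := hL4.trans (hFge j)
  have h4j := lev_F_log hLlog1 j
  have hδA : 4 * levF L j ^ 3 ≤ 1 * Real.log X := by
    have h5 : 0 < levF L j := by linarith
    calc 4 * levF L j ^ 3 ≤ (1 * levF L j) * levF L j ^ 3 := by
          gcongr
          exact hFj.1
      _ = 1 * levF L j ^ 4 := by ring
      _ ≤ 1 * Real.log X := by gcongr
  have hAY : Real.exp (1 * Real.log X) ≤ X := by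
    rw [one_mul, Real.exp_log hX0]
  obtain ⟨hY1, hYρ, hY4⟩ := Pool.Agent.PENT.MRG.l4_Y hF2 hδA hAY h4j hFj.2.1
  obtain ⟨hR1, hR2, hR3⟩ := lev_R hc0 hc1 j
  have hRc : levR c' j - 1 = c' / 4 ^ j := by unfold levR; ring
  have hrs1 : 1 ≤ rs (B j) := by
    refine le_trans ?_ (hrs j)
    have : (1 : ℝ) ≤ 4 ^ j := one_le_pow₀ (by norm_num)
    calc (1 : ℝ) = 1 * 1 := by ring
      _ ≤ 4 ^ j * κ' := by gcongr
  have hFY : Real.exp (levF L j ^ 2) ≤ X := by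
    refine le_trans (Real.exp_le_exp.2 ?_) hAY
    have h5 : levF L j ^ 2 ≤ levF L j ^ 3 := pow_le_pow_right₀ (by linarith) (by norm_num)
    have h6 : 0 < levF L j ^ 3 := by positivity
    linarith
  have hHY : Real.exp (L ^ 2) ≤ X := by
    refine le_trans (Real.exp_le_exp.2 ?_) hFY
    have := hFge j
    gcongr
  have hUX : U ⊆ Ks X := by
    intro k hk
    have h5 := hU hk
    have h6 : X / Real.exp (L ^ 2) ≤ X :=
      div_le_self (by linarith) (Real.one_le_exp (by positivity))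
    rw [mem_Ks] at h5 ⊢
    linarith
  have hmain := hA h hh X (levR c' j) (Real.exp (levF L j)) (B j) (levV L c' j) (k₀ j) (r j) (π j)
    U (hLev.tp j) hX hR1 hR2
    (by rw [hRc]; exact hYρ)
    (by have := Real.add_one_le_exp (levF L j)
        linarith) (fun p hp => ⟨(lev_mem_B (hLev.sub j hp)).2.2.1,
          ((lev_mem_B (hLev.sub j hp)).2.2.2).trans hY4,
      (hV j).2 p (hLev.sub j hp)⟩) hrs1 hUX
  have herr : CA * X ^ 2 * (1 / rs (B j) + (levR c' j - 1)) ≤ ε / 4 * (1 / 4) ^ j * X ^ 2 := by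
    rw [hRc]
    exact Pool.Agent.PENT.MRG.l4_err hCA hκ'1 hκ'ε hcε (hrs j)
  have hgood' : ∀ k ∈ U, ∀ v < levV L c' j, ‖Qv A h (π j) k (blk (levR c' j) v (B j))‖ ≤
      (levR c' j ^ v) ^ (1 - levA α j) := by
    intro k hk v hv
    by_contra hcon
    push Not at hcon
    exact hgood k hk ⟨v, hv, hcon⟩
  have hsec : 2 * ∑ k ∈ U, ‖∑ v ∈ Finset.range (levV L c' j),
      Qv A h (π j) k (blk (levR c' j) v (B j)) *
      Sv A h (M * k₀ j) (QC b c (k₀ j) (r j) T) k (k₀ j * X / levR c' j ^ v)‖ ^ 2 ≤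
        ε / 4 * (1 / 4) ^ j * X ^ 2 := by
    rcases j with _ | i
    · have h5 := h1 h hh α c' L ε X (B 0) (k₀ 0) (r 0) (π 0) U (hLev.tp 0) (hLev.sub 0) hα hα1
        hc0 hc1 hε hL4 hL8 (hV 0).2 hX hHY hU hgood'
      rw [pow_zero, mul_one]
      linarith
    · have h6 := hF _ (hFge i)
      exact hC h hh α c' L ε X i (B (i + 1)) (B i) (k₀ (i + 1)) (k₀ i) (r (i + 1)) (r i)
        (π (i + 1)) (π i) U (hLev.tp (i + 1)) (hLev.tp i) (hLev.sub (i + 1)) (hLev.sub i)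
        hα hα1 hc0 hc1 hε hLlog1 hL4 (hL6.trans (hFge i)) h6.2.2.1
        h6.2.2.2 (fun j => (hV j).1) hX hFY hU hgood'
        (fun k hk => hbad k hk i (Nat.lt_succ_self i))
  calc ∑ k ∈ U, ‖Sv A h M T k X‖ ^ 2 ≤ ε / 4 * (1 / 4) ^ j * X ^ 2 + ε / 4 * (1 / 4) ^ j * X ^ 2 :=
        hmain.trans (add_le_add herr hsec)
    _ = _ := by ring

theorem l4_lvl : type_of% @l4_lvl_pr := @l4_lvl_pr

end Pool.Agent.AQM
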