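import Pool.Agent.Lib_helper39.AQM.Defs
import Pool.Agent.Lib_helper39.AQM.AB
import Pool.Agent.Lib_helper39.MQX.ALG
import Pool.Agent.Lib_helper39.MQX.SBA
import Pool.Agent.Lib_helper39.MQX.SBB
import Pool.Agent.Lib_helper39.MQX.SBC
import Pool.Agent.Lib_helper39.MQX.LSV
import Pool.Agent.Lib_helper39.MQX.PAR
import Pool.Agent.Lib_helper39.MQX.FEJ
import Pool.Agent.Lib_helper39.MQX.EXP
import Pool.Agent.Lib_helper39.AQMF.L4D
import Pool.Agent.Lib_helper39.AQMF.L4E

/-! block L4F of AQM, proved by helper30 -/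

/-!
# AQM, block L4F: typical frequencies (port of `mr_typical_g_pr`)
-/

set_option autoImplicit false

namespace Pool.Agent.AQM

open Pool.Agent.MQ Pool.Agent.T2 Filter Topology MeasureTheory

/-- L4F: template `mr_typical_g_pr` (`l4_lvl`, `l4_D`) -/
theorem mr_typical_pr {b c : ℤ} (A : Ang b c) (hs : ¬ IsSquare (dsc b c)) {M : ℕ} {T : El → Prop}
    (hT : Cls A M T) (hM : GoodM A M) (α ε : ℝ) (hα : 0 < α) (hα1 : α ≤ 1) (hε : 0 < ε) :
    ∃ H X₀ : ℝ, 1 ≤ H ∧ ∀ X : ℝ, X₀ ≤ X → ∀ h : ℕ → ℤ, Sgn h → ∃ U : Finset ℤ, U ⊆ Ks X ∧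
      (U.card : ℝ) ≤ X ^ α ∧ ∑ k ∈ Ks (X / H) \ U, ‖Sv A h M T k X‖ ^ 2 ≤ ε * X ^ 2 := by
  classical
  obtain ⟨F₀, hF₀, hD⟩ := l4_D A hM.1 α hα
  obtain ⟨c', L, hc0, hc1, hL1, hL2, hLF, hV, B, k₀, r, π, hB, hlvl⟩ :=
    l4_lvl A hs hT hM α ε F₀ hα hα1 hε
  have hL0 : 0 < L := by linarith
  have hL1' : 1 ≤ L := by linarith
  refine ⟨Real.exp (L ^ 2), Real.exp (L ^ 4), Real.one_le_exp (by positivity), ?_⟩
  intro X hX h hh
  have hX1 : 1 ≤ X := (Real.one_le_exp (by positivity)).trans hX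
  have hX0 : 0 < X := by linarith
  have hAL : L ^ 4 ≤ Real.log X := by rw [Real.le_log_iff_exp_le hX0]; exact hX
  have hex : ∃ n, Real.log X < levF L n ^ 4 := by
    obtain ⟨n, hn⟩ := exists_nat_gt (Real.log X)
    refine ⟨n, hn.trans ?_⟩
    have h1 : (4 : ℝ) ^ n ≤ levF L n := by
      have := lev_F_log hL1 n
      have h2 := lev_F_ge hL1' n
      have h3 := Real.log_le_sub_one_of_pos (show 0 < levF L n by linarith)
      linarith
    have h2 : (n : ℝ) < 4 ^ n := by exact_mod_cast Nat.lt_pow_self (by norm_num)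
    have h3 : levF L n ≤ levF L n ^ 4 := le_self_pow₀ (hL1'.trans (lev_F_ge hL1' n)) (by norm_num)
    linarith
  obtain ⟨J, hJ1, hJ2⟩ : ∃ J, levF L J ^ 4 ≤ Real.log X ∧ Real.log X < levF L (J + 1) ^ 4 := by
    have h1 := Nat.find_spec hex
    have h2 := fun i => Nat.find_min hex (m := i)
    rcases h3 : Nat.find hex with _ | J
    · rw [h3] at h1
      have : levF L 0 = L := by unfold levF; simp
      rw [this] at h1
      linarith
    · refine ⟨J, ?_, ?_⟩
      · have := h2 J (by rw [h3]; exact Nat.lt_succ_self J)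
        exact not_lt.1 this
      · rw [h3] at h1; exact h1
  refine ⟨(Ks X).filter (fun k => ∀ j ≤ J, l4Bad A h B π L c' α j k), Finset.filter_subset _ _,
    ?_, ?_⟩
  · obtain ⟨hR1, hR2, _⟩ := lev_R hc0 hc1 J
    obtain ⟨ha1, ha2, ha3, _⟩ := lev_A_bd hα hα1 J
    have h1 := hD h hh X (levF L J) (levR c' J) (levA α J) (B J) (levV L c' J) (k₀ J) (r J) (π J)
      (hB.tp J) (hLF.trans (lev_F_ge hL1' J)) hX1 hJ1 (by
        rw [lev_F_succ, ← pow_mul] at hJ2
        exact hJ2.le) hR1 hR2 ha1 ha2 ha3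
      (fun p hp => (lev_mem_B (hB.sub J hp)).2.2) (hV J)
    refine le_trans ?_ h1
    norm_cast
    apply Finset.card_le_card
    intro k hk
    rw [Finset.mem_filter] at hk ⊢
    exact ⟨hk.1, hk.2 J le_rfl⟩
  · set S := Ks (X / Real.exp (L ^ 2)) \ (Ks X).filter (fun k => ∀ j ≤ J, l4Bad A h B π L c' α j k)
      with hS
    have h1 := lev_cover S (Finset.range (J + 1)) (fun j => (Ks (X / Real.exp (L ^ 2))).filter
      (fun k => ¬ l4Bad A h B π L c' α j k ∧ ∀ i < j, l4Bad A h B π L c' α i k))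
      (fun k => ‖Sv A h M T k X‖ ^ 2)
      (fun k => by positivity) (by
        intro k hk
        rw [hS, Finset.mem_sdiff, Finset.mem_filter, not_and] at hk
        obtain ⟨hk1, hk2⟩ := hk
        have hkX : k ∈ Ks X := by
          rw [mem_Ks] at hk1 ⊢
          have : X / Real.exp (L ^ 2) ≤ X := div_le_self hX0.le (Real.one_le_exp (by positivity))
          linarith
        have hk3 := hk2 hkX
        push Not at hk3
        have hex2 : ∃ j, ¬ l4Bad A h B π L c' α j k := by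
          obtain ⟨j, _, hj⟩ := hk3
          exact ⟨j, hj⟩
        refine ⟨Nat.find hex2, ?_, ?_⟩
        · obtain ⟨j, hj, hj'⟩ := hk3
          exact Finset.mem_range.2 (Nat.lt_succ_of_le ((Nat.find_min' hex2 hj').trans hj))
        · rw [Finset.mem_filter]
          refine ⟨hk1, Nat.find_spec hex2, fun i hi => ?_⟩
          have := Nat.find_min hex2 hi
          exact not_not.1 this)
    calc ∑ k ∈ S, ‖Sv A h M T k X‖ ^ 2 ≤ _ := h1
      _ ≤ ∑ j ∈ Finset.range (J + 1), ε / 2 * (1 / 4) ^ j * X ^ 2 := by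
        apply Finset.sum_le_sum
        intro j hj
        have hjJ : j ≤ J := Nat.lt_succ_iff.1 (Finset.mem_range.1 hj)
        have hmono := lev_F_mono hL1' hjJ
        have hpos : 0 ≤ levF L j := by
          have := lev_F_ge hL1' j
          linarith
        apply hlvl h hh X j _ hX1 ((pow_le_pow_left₀ hpos hmono 4).trans hJ1)
          (Finset.filter_subset _ _)
        · intro k hk; exact (Finset.mem_filter.1 hk).2.1
        · intro k hk; exact (Finset.mem_filter.1 hk).2.2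
      _ = ε / 2 * X ^ 2 * ∑ j ∈ Finset.range (J + 1), (1 / 4 : ℝ) ^ j := by
        rw [Finset.mul_sum]
        apply Finset.sum_congr rfl
        intro j _; ring
      _ ≤ ε / 2 * X ^ 2 * 2 := by
        rw [lev_geom]
        have : (0 : ℝ) < (1 / 4) ^ (J + 1) := by positivity
        gcongr
        linarith
      _ = ε * X ^ 2 := by ring

theorem mr_typical : type_of% @mr_typical_pr := @mr_typical_pr

end Pool.Agent.AQM
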