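import Pool.Agent.Lib_helper39.AQM.Defs
import Pool.Agent.Lib_helper39.AQM.AB
import Pool.Agent.Lib_helper39.MQX.ALG
import Pool.Agent.Lib_helper39.MQX.SBA
import Pool.Agent.Lib_helper39.MQX.SBB
import Pool.Agent.Lib_helper39.MQX.SBC
import Pool.Agent.Lib_helper39.MQX.LSV
import Pool.Agent.Lib_helper39.MQX.PAR
import Pool.Agent.Lib_helper39.MQX.FEJ
import Pool.Agent.Lib_helper39.MQX.EXP
import Pool.Agent.Lib_helper39.AQMF.AL1
import Pool.Agent.Lib_helper39.AQMF.CP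
import Pool.Agent.Lib_helper39.AQMF.L4F
import Pool.Agent.Lib_helper39.AQMF.SP
import Pool.Agent.Lib_helper39.AQMF.FC

/-! block E1 of AQM, proved by helper39 -/

set_option autoImplicit false

namespace Pool.Agent.AQM

open Pool.Agent.MQ Pool.Agent.T2 Filter Topology MeasureTheory

theorem e1_mem_Ks {K : ℝ} {k : ℤ} : k ∈ Ks K ↔ |(k : ℝ)| ≤ K := by
  unfold Ks
  rw [Finset.mem_Icc, abs_le, Int.le_floor, neg_le, Int.le_floor]
  push_cast
  rw [neg_le]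

theorem e1_KK_sub {K K' : ℝ} (h : K ≤ K') : KK K ⊆ Ks K' := by
  intro k hk
  unfold KK at hk
  rw [Finset.mem_Ioo] at hk
  rw [e1_mem_Ks]
  have h1 : (⌈K⌉ : ℝ) < K + 1 := Int.ceil_lt_add_one K
  have h2 : (k : ℝ) ≤ ⌈K⌉ - 1 := by
    have : k ≤ ⌈K⌉ - 1 := by omega
    exact_mod_cast this
  have h3 : -(⌈K⌉ : ℝ) + 1 ≤ (k : ℝ) := by
    have : -⌈K⌉ + 1 ≤ k := by omega
    exact_mod_cast this
  rw [abs_le]
  constructor <;> linarith

theorem e1_wt {K : ℝ} (hK : 0 < K) {k : ℤ} (hk : k ∈ KK K) :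
    0 ≤ 1 - |(k : ℝ)| / ⌈K⌉ ∧ 1 - |(k : ℝ)| / ⌈K⌉ ≤ 1 := by
  unfold KK at hk
  rw [Finset.mem_Ioo] at hk
  have h0 : (0 : ℝ) < ⌈K⌉ := by
    have := Int.ceil_pos.2 hK
    exact_mod_cast this
  have h1 : |(k : ℝ)| ≤ ⌈K⌉ := by
    rw [abs_le]
    constructor
    · have : -⌈K⌉ ≤ k := by omega
      exact_mod_cast this
    · have : k ≤ ⌈K⌉ := by omega
      exact_mod_cast this
  constructor
  · rw [sub_nonneg, div_le_one h0]
    exact h1
  · have : 0 ≤ |(k : ℝ)| / ⌈K⌉ := by positivity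
    linarith

/-- Parseval for finite sets -/
theorem e1_pars {F : ℝ → ℝ} (hp : ∀ t, F (t + 1) = F t) (hm : Measurable F)
    (h1 : ∀ t, F t = 1 ∨ F t = -1) (U : Finset ℤ) : ∑ k ∈ U, ‖fc F k‖ ^ 2 ≤ 1 := by
  obtain ⟨h2, h3, _⟩ := parseval hp hm h1
  rw [← h3]
  exact h2.sum_le_tsum _ (fun _ _ => by positivity)

section
variable {b c : ℤ} (A : Ang b c) (hs : ¬ IsSquare (dsc b c)) {M : ℕ} {T : El → Prop}

/-- the coefficients of the Fejer mean -/
noncomputable def e1c (F : ℝ → ℝ) (K : ℝ) (k : ℤ) : ℂ :=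
  ((1 - |(k : ℝ)| / ⌈K⌉ : ℝ) : ℂ) * fc F k

theorem e1c_le {F : ℝ → ℝ} {K : ℝ} (hK : 0 < K) {k : ℤ} (hk : k ∈ KK K) :
    ‖e1c F K k‖ ≤ ‖fc F k‖ := by
  obtain ⟨h1, h2⟩ := e1_wt hK hk
  unfold e1c
  rw [norm_mul, Complex.norm_real, Real.norm_eq_abs, abs_of_nonneg h1]
  exact mul_le_of_le_one_left (norm_nonneg _) h2

open Classical in
/-- the part of the Fejer mean with frequencies in `U` -/
theorem e1_split (F : ℝ → ℝ) (K t : ℝ) (U : Finset ℤ) :
    Fm F K t = ∑ k ∈ (KK K).filter (fun k => k ∈ U), e1c F K k * ex (k * t) +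
      ∑ k ∈ (KK K).filter (fun k => k ∉ U), e1c F K k * ex (k * t) := by
  unfold Fm e1c
  rw [Finset.sum_filter_add_sum_filter_not]

theorem e1_cs {ι : Type} (s : Finset ι) (f g : ι → ℂ) :
    ‖∑ i ∈ s, f i * g i‖ ≤ Real.sqrt (∑ i ∈ s, ‖f i‖ ^ 2) * Real.sqrt (∑ i ∈ s, ‖g i‖ ^ 2) := by
  refine (norm_sum_le _ _).trans ?_
  simp_rw [norm_mul]
  exact Real.sum_mul_le_sqrt_mul_sqrt _ _ _

omit hs in
open Classical in
/-- the lower bound for the mass, with all constants explicit -/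
theorem e1_core {h : ℕ → ℤ} (hh : Sgn h) {N K η ε' Us : ℝ} {F : ℝ → ℝ}
    (hp : ∀ t, F (t + 1) = F t) (hm : Measurable F) (h1 : ∀ t, F t = 1 ∨ F t = -1)
    (hN : 1 ≤ N) (hK : 0 < K)
    (hclose : ∑ m ∈ PS A M T N, ‖Fm F K (A.u m) - gg b c h m‖ ≤ η * N)
    (U : Finset ℤ)
    (hout : ∑ k ∈ (KK K).filter (fun k => k ∉ U), ‖Sv A h M T k N‖ ^ 2 ≤ ε' * N ^ 2)
    (hsp : ∀ a : ℤ → ℂ, ∑ v ∈ PS A M T N, ‖∑ k ∈ (KK K).filter (fun k => k ∈ U),
      a k * ex (k * A.u v)‖ ^ 2 ≤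
        ((PS A M T N).card + Us) * ∑ k ∈ (KK K).filter (fun k => k ∈ U), ‖a k‖ ^ 2)
    (hUs : 0 ≤ Us) (hε' : 0 ≤ ε') :
    ((PS A M T N).card : ℝ) - η * N ≤ Real.sqrt ε' * N +
      ((PS A M T N).card + Us) * Real.sqrt (∑ k ∈ U, ‖fc F k‖ ^ 2) := by
  set P := PS A M T N with hP
  have hnm : ∀ m ∈ P, nm b c m ≠ 0 := by
    intro m hm'
    rw [hP, mem_PS] at hm'
    exact (A.wd_nm _ hm'.1).ne'
  -- step 1
  have s1 : ((P.card : ℝ)) - η * N ≤ ‖∑ m ∈ P, (gg b c h m : ℂ) * Fm F K (A.u m)‖ := by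
    have e1 : (P.card : ℂ) = ∑ m ∈ P, (gg b c h m : ℂ) * (gg b c h m : ℂ) := by
      have : ∀ m ∈ P, (gg b c h m : ℂ) * (gg b c h m : ℂ) = 1 := by
        intro m hm'
        rcases gg_pm hh (hnm m hm') with h2 | h2 <;> rw [h2] <;> norm_num
      rw [Finset.sum_congr rfl this]
      simp
    have e2 : ‖∑ m ∈ P, (gg b c h m : ℂ) * Fm F K (A.u m) - P.card‖ ≤ η * N := by
      rw [e1, ← Finset.sum_sub_distrib]
      refine (norm_sum_le_of_le _ (fun m hm' => ?_)).trans hclose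
      rw [← mul_sub, norm_mul, gg_norm hh (hnm m hm'), one_mul]
    have e3 : (P.card : ℝ) = ‖(P.card : ℂ)‖ := by simp
    have e4 : ‖(P.card : ℂ)‖ ≤ ‖∑ m ∈ P, (gg b c h m : ℂ) * Fm F K (A.u m)‖ +
        ‖∑ m ∈ P, (gg b c h m : ℂ) * Fm F K (A.u m) - P.card‖ := by
      have := norm_sub_le (∑ m ∈ P, (gg b c h m : ℂ) * Fm F K (A.u m))
        (∑ m ∈ P, (gg b c h m : ℂ) * Fm F K (A.u m) - P.card)
      simpa using this
    rw [← e3] at e4
    linarith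
  -- step 2
  have s2 : ∑ m ∈ P, (gg b c h m : ℂ) * Fm F K (A.u m) =
      ∑ m ∈ P, (gg b c h m : ℂ) * ∑ k ∈ (KK K).filter (fun k => k ∈ U),
        e1c F K k * ex (k * A.u m) +
      ∑ k ∈ (KK K).filter (fun k => k ∉ U), e1c F K k * Sv A h M T k N := by
    have e1 : ∑ k ∈ (KK K).filter (fun k => k ∉ U), e1c F K k * Sv A h M T k N =
        ∑ m ∈ P, (gg b c h m : ℂ) * ∑ k ∈ (KK K).filter (fun k => k ∉ U),
          e1c F K k * ex (k * A.u m) := by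
      unfold Sv
      simp_rw [Finset.mul_sum]
      rw [Finset.sum_comm]
      refine Finset.sum_congr rfl fun m _ => Finset.sum_congr rfl fun k _ => ?_
      ring
    rw [e1, ← Finset.sum_add_distrib]
    refine Finset.sum_congr rfl fun m _ => ?_
    rw [e1_split F K (A.u m) U, mul_add]
  have hfc : ∀ U' : Finset ℤ, U' ⊆ KK K → ∑ k ∈ U', ‖e1c F K k‖ ^ 2 ≤ ∑ k ∈ U', ‖fc F k‖ ^ 2 := by
    intro U' hU'
    refine Finset.sum_le_sum fun k hk => ?_
    exact pow_le_pow_left₀ (norm_nonneg _) (e1c_le hK (hU' hk)) 2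
  -- step 3
  have s3 : ‖∑ k ∈ (KK K).filter (fun k => k ∉ U), e1c F K k * Sv A h M T k N‖ ≤
      Real.sqrt ε' * N := by
    refine (e1_cs _ _ _).trans ?_
    have e1 : Real.sqrt (∑ k ∈ (KK K).filter (fun k => k ∉ U), ‖e1c F K k‖ ^ 2) ≤ 1 := by
      rw [Real.sqrt_le_one]
      exact (hfc _ (Finset.filter_subset _ _)).trans (e1_pars hp hm h1 _)
    have e2 : Real.sqrt (∑ k ∈ (KK K).filter (fun k => k ∉ U), ‖Sv A h M T k N‖ ^ 2) ≤
        Real.sqrt ε' * N := by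
      refine (Real.sqrt_le_sqrt hout).trans (le_of_eq ?_)
      rw [Real.sqrt_mul hε', Real.sqrt_sq (by linarith)]
    calc _ ≤ 1 * (Real.sqrt ε' * N) := mul_le_mul e1 e2 (Real.sqrt_nonneg _) zero_le_one
      _ = _ := one_mul _
  -- step 4
  have s4 : ‖∑ m ∈ P, (gg b c h m : ℂ) * ∑ k ∈ (KK K).filter (fun k => k ∈ U),
      e1c F K k * ex (k * A.u m)‖ ≤ (P.card + Us) * Real.sqrt (∑ k ∈ U, ‖fc F k‖ ^ 2) := by
    refine (e1_cs _ _ _).trans ?_
    have e1 : ∑ m ∈ P, ‖(gg b c h m : ℂ)‖ ^ 2 = P.card := by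
      have : ∀ m ∈ P, ‖(gg b c h m : ℂ)‖ ^ 2 = 1 := by
        intro m hm'
        rw [gg_norm hh (hnm m hm'), one_pow]
      rw [Finset.sum_congr rfl this]
      simp
    have e2 : ∑ k ∈ (KK K).filter (fun k => k ∈ U), ‖e1c F K k‖ ^ 2 ≤ ∑ k ∈ U, ‖fc F k‖ ^ 2 := by
      refine (hfc _ (Finset.filter_subset _ _)).trans ?_
      refine Finset.sum_le_sum_of_subset_of_nonneg ?_ (fun _ _ _ => by positivity)
      intro k hk
      exact (Finset.mem_filter.1 hk).2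
    have hc0 : (0 : ℝ) ≤ P.card := Nat.cast_nonneg _
    have hsq : (0 : ℝ) ≤ ∑ k ∈ U, ‖fc F k‖ ^ 2 := Finset.sum_nonneg fun _ _ => by positivity
    have e3 := (hsp (e1c F K)).trans (mul_le_mul_of_nonneg_left e2 (by positivity))
    calc _ ≤ Real.sqrt (P.card + Us) * Real.sqrt ((P.card + Us) * ∑ k ∈ U, ‖fc F k‖ ^ 2) := by
          refine mul_le_mul (Real.sqrt_le_sqrt ?_) (Real.sqrt_le_sqrt e3) (Real.sqrt_nonneg _)
            (Real.sqrt_nonneg _)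
          rw [e1]
          linarith
      _ = _ := by
          rw [Real.sqrt_mul (by positivity), ← mul_assoc, Real.mul_self_sqrt (by positivity)]
  calc ((P.card : ℝ)) - η * N ≤ _ := s1
    _ ≤ _ := by
        rw [s2]
        refine (norm_add_le _ _).trans ?_
        rw [add_comm]
        exact add_le_add s3 s4

include hs in
theorem mass_sparse_pr (hT : Cls A M T) (hM : GoodM A M) (α ε₁ : ℝ) (hα : 0 < α) (hε₁ : 0 < ε₁) :
    ∃ ε H N₀ : ℝ, 0 < ε ∧ 16 ≤ H ∧ ∀ N : ℝ, N₀ ≤ N → ∀ h : ℕ → ℤ, Sgn h → ∀ F : ℝ → ℝ,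
      LocH A h M T N H ε F → ∃ U : Finset ℤ, U ⊆ Ks N ∧ (U.card : ℝ) ≤ N ^ α ∧
        1 - ε₁ ≤ ∑ k ∈ U, ‖fc F k‖ ^ 2 := by
  classical
  obtain ⟨Cf, hCf1, hCf⟩ := fm_close A hT
  obtain ⟨Cl, Xl, hCl1, hCl⟩ := PS_low A M hT.M1
  obtain ⟨κ, hκ0, hκ1, hκ⟩ := sparse A
  obtain ⟨Xs, hXs1, hXs⟩ := hκ M hT.M1
  set α' : ℝ := min (min α 1) (κ / 2) with hα'
  have hα'0 : 0 < α' := lt_min (lt_min hα one_pos) (by linarith)
  have hα'1 : α' ≤ 1 := (min_le_left _ _).trans (min_le_right _ _)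
  have hα'α : α' ≤ α := (min_le_left _ _).trans (min_le_left _ _)
  have hα'κ : α' ≤ κ / 2 := min_le_right _ _
  set ε' : ℝ := (ε₁ / (8 * Cl)) ^ 2 with hε'
  have hε'0 : 0 < ε' := by positivity
  obtain ⟨H', X', hH'1, hH'⟩ := mr_typical A hs hT hM α' ε' hα'0 hα'1 hε'0
  set ε : ℝ := ε₁ / (16 * Cl * Cf) with hε
  have hε0 : 0 < ε := by positivity
  set H : ℝ := max 16 (max (H' ^ 2) ((16 * Cl * Cf / ε₁) ^ 4)) with hH
  have hH16 : 16 ≤ H := le_max_left _ _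
  have hHH' : H' ^ 2 ≤ H := (le_max_left _ _).trans (le_max_right _ _)
  have hHε : (16 * Cl * Cf / ε₁) ^ 4 ≤ H := (le_max_right _ _).trans (le_max_right _ _)
  have hH0 : 0 < H := by linarith
  refine ⟨ε, H, max (max (max H X') (max Xl Xs)) (max 2 ((8 * Cl / ε₁) ^ (2 / κ))), hε0, hH16, ?_⟩
  intro N hN h hh F hF
  have hNH : H ≤ N := (le_max_left _ _).trans ((le_max_left _ _).trans ((le_max_left _ _).trans hN))
  have hNX' : X' ≤ N :=
    (le_max_right _ _).trans ((le_max_left _ _).trans ((le_max_left _ _).trans hN))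
  have hNXl : Xl ≤ N :=
    (le_max_left _ _).trans ((le_max_right _ _).trans ((le_max_left _ _).trans hN))
  have hNXs : Xs ≤ N :=
    (le_max_right _ _).trans ((le_max_right _ _).trans ((le_max_left _ _).trans hN))
  have hN2 : 2 ≤ N := (le_max_left _ _).trans ((le_max_right _ _).trans hN)
  have hNκ : (8 * Cl / ε₁) ^ (2 / κ) ≤ N := (le_max_right _ _).trans ((le_max_right _ _).trans hN)
  have hN1 : 1 ≤ N := by linarith
  have hN0 : 0 < N := by linarith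
  obtain ⟨U, hU1, hU2, hU3⟩ := hH' N hNX' h hh
  refine ⟨U, hU1, hU2.trans (Real.rpow_le_rpow_of_exponent_le hN1 hα'α), ?_⟩
  have hclose := hCf h hh N H ε F hH16 hNH hε0.le hF
  set K : ℝ := N / Real.sqrt H with hK
  have hsH : 0 < Real.sqrt H := Real.sqrt_pos.2 hH0
  have hK0 : 0 < K := by positivity
  have hKH' : K ≤ N / H' := by
    rw [hK]
    refine div_le_div_of_nonneg_left hN0.le (by linarith) ?_
    exact Real.le_sqrt_of_sq_le hHH'
  have hKN : K ≤ N := by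
    refine hKH'.trans ?_
    exact div_le_self hN0.le hH'1
  -- the small quantities
  have hHq : H ^ (-(1 / 4) : ℝ) ≤ ε₁ / (16 * Cl * Cf) := by
    have e1 : (16 * Cl * Cf / ε₁) ≤ H ^ (1 / 4 : ℝ) := by
      have e2 : ((16 * Cl * Cf / ε₁) ^ 4) ^ (1 / 4 : ℝ) = 16 * Cl * Cf / ε₁ := by
        rw [← Real.rpow_natCast, ← Real.rpow_mul (by positivity)]
        norm_num
      rw [← e2]
      exact Real.rpow_le_rpow (by positivity) hHε (by norm_num)
    rw [Real.rpow_neg hH0.le]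
    calc (H ^ (1 / 4 : ℝ))⁻¹ ≤ (16 * Cl * Cf / ε₁)⁻¹ := inv_anti₀ (by positivity) e1
      _ = _ := by rw [inv_div]
  have hNs : N ^ (-(κ / 2) : ℝ) ≤ ε₁ / (8 * Cl) := by
    have e1 : 8 * Cl / ε₁ ≤ N ^ (κ / 2 : ℝ) := by
      have e2 : ((8 * Cl / ε₁) ^ (2 / κ)) ^ (κ / 2 : ℝ) = 8 * Cl / ε₁ := by
        rw [← Real.rpow_mul (by positivity)]
        have : 2 / κ * (κ / 2) = 1 := by field_simp
        rw [this, Real.rpow_one]
      rw [← e2]
      exact Real.rpow_le_rpow (by positivity) hNκ (by positivity)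
    rw [Real.rpow_neg hN0.le]
    calc (N ^ (κ / 2 : ℝ))⁻¹ ≤ (8 * Cl / ε₁)⁻¹ := inv_anti₀ (by positivity) e1
      _ = _ := by rw [inv_div]
  have hpow : (U.card : ℝ) * N ^ (1 - κ) ≤ ε₁ / (8 * Cl) * N := by
    calc (U.card : ℝ) * N ^ (1 - κ) ≤ N ^ α' * N ^ (1 - κ) := by gcongr
      _ ≤ N ^ (κ / 2) * N ^ (1 - κ) := by
          gcongr
      _ = N ^ (-(κ / 2) : ℝ) * N := by
          rw [← Real.rpow_add hN0]
          nth_rewrite 3 [← Real.rpow_one N]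
          rw [← Real.rpow_add hN0]
          congr 1
          ring
      _ ≤ _ := by gcongr
  have hcore := e1_core A hh (N := N) (K := K) (η := Cf * (ε + H ^ (-(1 / 4) : ℝ)))
    (ε' := ε') (Us := U.card * N ^ (1 - κ)) (F := F) (M := M) (T := T)
    hF.per hF.meas hF.pm hN1 hK0 hclose U ?_ ?_ (by positivity) hε'0.le
  · have hlow := hCl T hT.per ⟨_, hT.one⟩ N hNXl
    set P : ℝ := ((PS A M T N).card : ℝ) with hP
    set s : ℝ := Real.sqrt (∑ k ∈ U, ‖fc F k‖ ^ 2) with hs'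
    have hs0 : 0 ≤ s := Real.sqrt_nonneg _
    have hs1 : s ≤ 1 := by
      rw [hs', Real.sqrt_le_one]
      exact e1_pars hF.per hF.meas hF.pm U
    have hsq : s ^ 2 = ∑ k ∈ U, ‖fc F k‖ ^ 2 :=
      Real.sq_sqrt (Finset.sum_nonneg fun _ _ => by positivity)
    have hsε' : Real.sqrt ε' = ε₁ / (8 * Cl) := by
      rw [hε', Real.sqrt_sq (by positivity)]
    rw [hsε'] at hcore
    have hCl0 : 0 < Cl := by linarith
    have hCf0 : 0 < Cf := by linarith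
    have hPN : N ≤ Cl * P := by
      rw [div_le_iff₀ hCl0] at hlow
      linarith
    have hP0 : 0 < P := by
      by_contra hneg
      have : Cl * P ≤ 0 := mul_nonpos_of_nonneg_of_nonpos hCl0.le (not_lt.1 hneg)
      linarith
    have h5 : Cf * (ε + H ^ (-(1 / 4) : ℝ)) * N ≤ ε₁ / 8 * P := by
      have e1 : Cf * (ε + H ^ (-(1 / 4) : ℝ)) ≤ ε₁ / (8 * Cl) := by
        calc Cf * (ε + H ^ (-(1 / 4) : ℝ)) ≤ Cf * (ε₁ / (16 * Cl * Cf) + ε₁ / (16 * Cl * Cf)) := by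
              gcongr
          _ = _ := by field_simp; ring
      calc Cf * (ε + H ^ (-(1 / 4) : ℝ)) * N ≤ ε₁ / (8 * Cl) * (Cl * P) := by gcongr
        _ = _ := by field_simp
    have h6 : ε₁ / (8 * Cl) * N ≤ ε₁ / 8 * P := by
      calc ε₁ / (8 * Cl) * N ≤ ε₁ / (8 * Cl) * (Cl * P) := by gcongr
        _ = _ := by field_simp
    have h7 : ((U.card : ℝ) * N ^ (1 - κ)) * s ≤ ε₁ / 8 * P := by
      calc ((U.card : ℝ) * N ^ (1 - κ)) * s ≤ (ε₁ / (8 * Cl) * N) * 1 := by gcongr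
        _ = ε₁ / (8 * Cl) * N := mul_one _
        _ ≤ _ := h6
    have h8 : P * (1 - ε₁ / 2) ≤ P * s := by
      have e1 : (P + (U.card : ℝ) * N ^ (1 - κ)) * s =
        P * s + ((U.card : ℝ) * N ^ (1 - κ)) * s := by ring
      rw [e1] at hcore
      have e2 : 0 ≤ ε₁ * P := by positivity
      linarith
    have h9 : 1 - ε₁ / 2 ≤ s := le_of_mul_le_mul_left h8 hP0
    rw [← hsq]
    rcases le_or_gt (1 - ε₁ / 2) 0 with h10 | h10
    · have := sq_nonneg s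
      linarith
    · have e1 : (1 - ε₁ / 2) ^ 2 ≤ s ^ 2 := pow_le_pow_left₀ h10.le h9 2
      have e2 : (1 - ε₁ / 2) ^ 2 = 1 - ε₁ + ε₁ ^ 2 / 4 := by ring
      have e3 : 0 ≤ ε₁ ^ 2 / 4 := by positivity
      linarith
  · refine le_trans ?_ hU3
    refine Finset.sum_le_sum_of_subset_of_nonneg ?_ (fun _ _ _ => by positivity)
    intro k hk
    rw [Finset.mem_filter] at hk
    rw [Finset.mem_sdiff]
    exact ⟨e1_KK_sub hKH' hk.1, hk.2⟩
  · intro a
    have h1 := hXs T hT.per N hNXs ((KK K).filter (fun k => k ∈ U)) ?_ a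
    · refine h1.trans ?_
      refine mul_le_mul_of_nonneg_right ?_ (Finset.sum_nonneg fun _ _ => by positivity)
      have h2 : (((KK K).filter (fun k => k ∈ U)).card : ℝ) ≤ U.card := by
        have : (KK K).filter (fun k => k ∈ U) ⊆ U := by
          intro k hk
          exact (Finset.mem_filter.1 hk).2
        exact_mod_cast Finset.card_le_card this
      gcongr
    · intro k hk
      have h3 := hU1 (Finset.mem_filter.1 hk).2
      rw [e1_mem_Ks] at h3 ⊢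
      nlinarith

end

theorem mass_sparse : type_of% @mass_sparse_pr := @mass_sparse_pr

end Pool.Agent.AQM
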