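import Pool.Agent.Lib_helper39.AQM.Defs
import Pool.Agent.Lib_helper39.AQM.AB
import Pool.Agent.Lib_helper39.MQX.ALG
import Pool.Agent.Lib_helper39.MQX.SBA
import Pool.Agent.Lib_helper39.MQX.SBB
import Pool.Agent.Lib_helper39.MQX.SBC
import Pool.Agent.Lib_helper39.MQX.LSV
import Pool.Agent.Lib_helper39.MQX.PAR
import Pool.Agent.Lib_helper39.MQX.FEJ
import Pool.Agent.Lib_helper39.MQX.EXP
import Pool.Agent.Lib_helper39.AQMF.AL1
import Pool.Agent.Lib_helper39.AQMF.AL2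
import Pool.Agent.Lib_helper39.AQMF.AL3

/-! block E2A1 of AQM, proved by helper8 -/

/-! AQM, block E2A1 (helper8): products of typed primes and elements. -/

set_option autoImplicit false

namespace Pool.Agent.AQM

open Pool.Agent.MQ Pool.Agent.T2 Filter Topology MeasureTheory

theorem e2a_nm_sm {b c : ℤ} (k : ℕ) (v : El) : nm b c (sm k v) = (k : ℤ) ^ 2 * nm b c v := by
  unfold nm sm
  ring

theorem e2a_dv_of_ml {b c : ℤ} {l : ℤ} {v w : El} (h : dv l (ml b c v w)) :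
    dv l (ml b c (cj b v) (ml b c v w)) := by
  obtain ⟨⟨x, hx⟩, ⟨y, hy⟩⟩ := h
  unfold dv
  have e : ml b c v w = (l * x, l * y) := Prod.ext hx hy
  rw [e]
  unfold ml
  constructor
  · exact ⟨(cj b v).1 * x - c * (cj b v).2 * y, by simp only; ring⟩
  · exact ⟨(cj b v).1 * y + (cj b v).2 * x + b * (cj b v).2 * y, by simp only; ring⟩

theorem e2a_cj_ml (b c : ℤ) (v w : El) : ml b c (cj b v) (ml b c v w) =
    (nm b c v * w.1, nm b c v * w.2) := by
  rw [← ml_assoc, ml_cj_self, ml_scal]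

section
variable {b c : ℤ} (A : Ang b c) {M : ℕ} {T : El → Prop}

/-- `m` with `sm k₀ m = A.rp (ml b c v w)` -/
theorem mq_exists_pr (hT : Cls A M T) {B : Finset ℕ} {k₀ : ℕ} {r : El} {π : ℕ → El}
    (hB : TP A M B k₀ r π) {p : ℕ} (hp : p ∈ B) {w : El} (hw : A.wd w) (hq : QC b c k₀ r T w) :
    ∃ m : El, A.rp (ml b c (π p) w) = sm k₀ m ∧ A.wd m ∧ T m ∧
      (k₀ : ℤ) * nm b c m = p * nm b c w ∧ (∀ h : ℕ → ℤ, Sgn h →
        gg b c h m = gg b c h (π p) * gg b c h w) ∧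
      (∀ k : ℤ, ex (k * A.u m) = ex (k * A.u (π p)) * ex (k * A.u w)) ∧
      ((∀ l : ℕ, l.Prime → dv l w → l ∣ M * k₀) → ¬ Dv p (cj b (π p)) w → Pm m) := by
  obtain ⟨z, hz1, hz2⟩ := QC_mul A hT hB hp hq
  have hπ0 : 0 < nm b c (π p) := A.wd_nm _ (hB.wd p hp)
  have hw0 : 0 < nm b c w := A.wd_nm _ hw
  have hk1 : 1 ≤ k₀ := hB.k1
  have hkZ : (0 : ℤ) < k₀ := by exact_mod_cast hk1
  have hnmz : (k₀ : ℤ) ^ 2 * nm b c z = nm b c (π p) * nm b c w := by
    rw [← nm_ml, hz1, e2a_nm_sm]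
  have hz0 : 0 < nm b c z := by
    have h1 : 0 < (k₀ : ℤ) ^ 2 * nm b c z := by rw [hnmz]; positivity
    exact pos_of_mul_pos_right h1 (by positivity)
  have hrp : A.rp (ml b c (π p) w) = sm k₀ (A.rp z) := by
    rw [hz1, AB.rp_sm A hz0 hk1]
  have hm : A.wd (A.rp z) := A.rp_wd z hz0
  have hnm : nm b c (A.rp z) = nm b c z := AB.rp_nm A hz0
  have hnm2 : (k₀ : ℤ) * nm b c (A.rp z) = p * nm b c w := by
    rw [hnm]
    have h1 : (k₀ : ℤ) * ((k₀ : ℤ) * nm b c z) = k₀ * (p * nm b c w) := by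
      calc (k₀ : ℤ) * ((k₀ : ℤ) * nm b c z) = (k₀ : ℤ) ^ 2 * nm b c z := by ring
        _ = nm b c (π p) * nm b c w := hnmz
        _ = _ := by rw [hB.nm p hp]; ring
    exact mul_left_cancel₀ hkZ.ne' h1
  refine ⟨A.rp z, hrp, hm, (hT.rp z hz0).2 hz2, hnm2, ?_, ?_, ?_⟩
  · intro h hh
    have h1 : gg b c h (ml b c (π p) w) = gg b c h (π p) * gg b c h w :=
      gg_ml hh hπ0.ne' hw0.ne'
    rw [← h1, hz1, gg_sm hh hz0.ne' hk1]
    exact AB.gg_rp A h hz0
  · intro k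
    rw [← ex_ml A (hB.wd p hp) hw k, hrp, ex_sm A hm hk1 k]
  · intro h1 h2
    unfold Pm
    rw [AB.rp_gcd A hz0]
    by_contra hc
    obtain ⟨l, hl, hld⟩ := Nat.exists_prime_and_dvd hc
    have hlz : dv l z := ⟨(Int.natCast_dvd_natCast.2 hld).trans (Int.gcd_dvd_left _ _),
      (Int.natCast_dvd_natCast.2 hld).trans (Int.gcd_dvd_right _ _)⟩
    have hlM : ¬ l ∣ M := fun h3 => cls_prim A hT hz2 hl h3 hlz
    have hlk : ¬ l ∣ k₀ := fun h3 => hlM (h3.trans hB.kM)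
    have hlp : Prime (l : ℤ) := Nat.prime_iff_prime_int.1 hl
    -- `l` divides `π w`
    have h3 : dv l (ml b c (π p) w) := by
      rw [hz1]
      exact ⟨hlz.1.mul_left _, hlz.2.mul_left _⟩
    by_cases hlp' : l = p
    · rw [hlp'] at h3
      have h4 := (Dv_dv A hB hp _).1 h3
      rcases (Dv_ml' A hB hp _ _).1 h4.2 with h5 | h5
      · exact Dv_not_cj A hB hp h5
      · exact h2 h5
    · have h4 := e2a_dv_of_ml h3
      rw [e2a_cj_ml, hB.nm p hp] at h4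
      have h5 : ∀ x : ℤ, (l : ℤ) ∣ (k₀ : ℤ) * p * x → (l : ℤ) ∣ x := by
        intro x hx
        rcases hlp.dvd_or_dvd hx with h6 | h6
        · rcases hlp.dvd_or_dvd h6 with h7 | h7
          · exact absurd (by exact_mod_cast h7) hlk
          · have h8 : l ∣ p := by exact_mod_cast h7
            exact absurd ((Nat.prime_dvd_prime_iff_eq hl (hB.prime p hp)).1 h8) hlp'
        · exact h6
      have h6 : dv l w := ⟨h5 _ h4.1, h5 _ h4.2⟩
      rcases hl.dvd_mul.1 (h1 l hl h6) with h7 | h7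
      · exact hlM h7
      · exact hlk h7

end

theorem mq_exists : type_of% @mq_exists_pr := @mq_exists_pr

end Pool.Agent.AQM
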