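import Pool.Agent.Lib_helper39.AQM.Defs
import Pool.Agent.Lib_helper39.AQM.AB
import Pool.Agent.Lib_helper39.MQX.ALG
import Pool.Agent.Lib_helper39.MQX.SBA
import Pool.Agent.Lib_helper39.MQX.SBB
import Pool.Agent.Lib_helper39.MQX.SBC
import Pool.Agent.Lib_helper39.MQX.LSV
import Pool.Agent.Lib_helper39.MQX.PAR
import Pool.Agent.Lib_helper39.MQX.FEJ
import Pool.Agent.Lib_helper39.MQX.EXP
import Pool.Agent.Lib_helper39.AQMF.AL1
import Pool.Agent.Lib_helper39.AQMF.AL2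
import Pool.Agent.Lib_helper39.AQMF.E2A1

/-! block E2A2 of AQM, proved by helper51 -/

/-! AQM block E2A2: `pairs_le`, `bad_pairs`, by helper51. Cites `mem_PS`, `PS_card`, `ndk`,
`Dv_cof'`, `mq_exists`. -/

set_option autoImplicit false

namespace Pool.Agent.AQM

open Pool.Agent.MQ Pool.Agent.T2 Filter Topology MeasureTheory

theorem e2a2_not_dv {v : El} (hv : Pm v) {l : ℕ} (hl : l.Prime) : ¬ dv l v := by
  rintro ⟨h1, h2⟩
  have h3 : (l : ℤ) ∣ ((Int.gcd v.1 v.2 : ℕ) : ℤ) := Int.dvd_coe_gcd h1 h2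
  unfold Pm at hv
  rw [hv] at h3
  have h4 : l ∣ 1 := by exact_mod_cast h3
  exact hl.one_lt.ne' (Nat.dvd_one.1 h4)

theorem e2a2_dv_iff (v : El) (l : ℕ) : dv l v ↔ l ∣ Int.gcd v.1 v.2 := by
  constructor
  · rintro ⟨h1, h2⟩
    have h3 : (l : ℤ) ∣ ((Int.gcd v.1 v.2 : ℕ) : ℤ) := Int.dvd_coe_gcd h1 h2
    exact_mod_cast h3
  · intro h
    have h3 : (l : ℤ) ∣ ((Int.gcd v.1 v.2 : ℕ) : ℤ) := by exact_mod_cast h
    exact ⟨h3.trans (Int.gcd_dvd_left ..), h3.trans (Int.gcd_dvd_right ..)⟩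

theorem e2a2_primes {n : ℕ} (hn : n ≠ 0) {N : ℝ} (hN : 1 ≤ N) (hnN : (n : ℝ) ≤ N) :
    (n.primeFactors.filter (fun p : ℕ => N ^ (9 / 25 : ℝ) < (p : ℝ))).card ≤ 2 := by
  by_contra hc
  push Not at hc
  obtain ⟨p, hp, q, hq, s, hs, hpq, hps, hqs⟩ := Finset.two_lt_card.1 hc
  rw [Finset.mem_filter, Nat.mem_primeFactors] at hp hq hs
  have c1 : Nat.Coprime p q := (Nat.coprime_primes hp.1.1 hq.1.1).2 hpq
  have c2 : Nat.Coprime p s := (Nat.coprime_primes hp.1.1 hs.1.1).2 hps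
  have c3 : Nat.Coprime q s := (Nat.coprime_primes hq.1.1 hs.1.1).2 hqs
  have h1 : p * q ∣ n := c1.mul_dvd_of_dvd_of_dvd hp.1.2.1 hq.1.2.1
  have h2 : p * q * s ∣ n := (Nat.Coprime.mul_left c2 c3).mul_dvd_of_dvd_of_dvd h1 hs.1.2.1
  have h3 : p * q * s ≤ n := Nat.le_of_dvd (Nat.pos_of_ne_zero hn) h2
  have h4 : (p : ℝ) * q * s ≤ N := by
    refine le_trans ?_ hnN
    exact_mod_cast h3
  have hN0 : (0 : ℝ) < N := by linarith
  set y : ℝ := N ^ (9 / 25 : ℝ) with hy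
  have hy0 : 0 < y := Real.rpow_pos_of_pos hN0 _
  have h5 : y * y * y < p * q * s := by
    have a1 : y * y < (p : ℝ) * q := mul_lt_mul'' hp.2 hq.2 hy0.le hy0.le
    exact mul_lt_mul'' a1 hs.2 (by positivity) hy0.le
  have h6 : N ≤ y * y * y := by
    rw [hy, ← Real.rpow_add hN0, ← Real.rpow_add hN0]
    calc N = N ^ (1 : ℝ) := (Real.rpow_one N).symm
      _ ≤ N ^ (9 / 25 + 9 / 25 + 9 / 25 : ℝ) :=
        Real.rpow_le_rpow_of_exponent_le hN (by norm_num)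
  linarith

theorem e2a2_geom (I : Finset ℕ) {y : ℝ} (hy : 0 < y) (h : ∀ v ∈ I, y ≤ (2 : ℝ) ^ v) :
    ∑ v ∈ I, 1 / (2 : ℝ) ^ (v + 1) ≤ 1 / y := by
  rcases I.eq_empty_or_nonempty with h0 | hne
  · subst h0
    simp only [Finset.sum_empty]
    positivity
  · set a := I.min' hne with ha
    have hI : I ⊆ Finset.Ico a (I.sup id + 1) := by
      intro v hv
      rw [Finset.mem_Ico]
      exact ⟨I.min'_le v hv, Nat.lt_succ_of_le (Finset.le_sup (f := id) hv)⟩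
    have hs : ∀ n, a ≤ n → ∑ v ∈ Finset.Ico a n, 1 / (2 : ℝ) ^ (v + 1) =
        1 / 2 ^ a - 1 / 2 ^ n := by
      intro n hn
      induction n, hn using Nat.le_induction with
      | base => simp
      | succ n hn ih =>
        rw [Finset.sum_Ico_succ_top hn, ih, pow_succ]
        field_simp
        ring
    have han : a ≤ I.sup id + 1 :=
      (Finset.le_sup (f := id) (I.min'_mem hne)).trans (Nat.le_succ _)
    calc ∑ v ∈ I, 1 / (2 : ℝ) ^ (v + 1) ≤
          ∑ v ∈ Finset.Ico a (I.sup id + 1), 1 / (2 : ℝ) ^ (v + 1) :=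
          Finset.sum_le_sum_of_subset_of_nonneg hI (fun _ _ _ => by positivity)
      _ = 1 / 2 ^ a - 1 / 2 ^ (I.sup id + 1) := hs _ han
      _ ≤ 1 / 2 ^ a := by
        have : (0 : ℝ) ≤ 1 / 2 ^ (I.sup id + 1) := by positivity
        linarith
      _ ≤ 1 / y := by
        apply one_div_le_one_div_of_le hy
        exact h a (I.min'_mem hne)

section
variable {b c : ℤ} (A : Ang b c) {M : ℕ} {T : El → Prop}

open Classical in
theorem pairs_le_pr (hT : Cls A M T) {N : ℝ} (hN : 1 ≤ N) {I : Finset ℕ} {B : ℕ → Finset ℕ}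
    {k₀ : ℕ → ℕ} {r : ℕ → El} {π : ℕ → ℕ → El} (hB : Blks A M N I B k₀ r π)
    (f : El → ℝ) (hf : ∀ m, 0 ≤ f m) (G : ℕ → ℕ → El → ℝ)
    (hG : ∀ v ∈ I, ∀ p ∈ B v, ∀ w ∈ Wv A M T (k₀ v) (r v) v N, ∀ m : El,
      A.rp (ml b c (π v p) w) = sm (k₀ v) m → G v p w ≤ f m) :
    ∑ v ∈ I, ∑ p ∈ B v, ∑ w ∈ (Wv A M T (k₀ v) (r v) v N).filter (fun w =>
      ¬ Dv p (cj b (π v p)) w), G v p w ≤ 2 * ∑ m ∈ PS A M T N, f m := by
  have hmq : ∀ v, v ∈ I → ∀ p, p ∈ B v → ∀ w, w ∈ (Wv A M T (k₀ v) (r v) v N).filter (fun w =>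
      ¬ Dv p (cj b (π v p)) w) → ∃ m : El, A.rp (ml b c (π v p) w) = sm (k₀ v) m ∧
        m ∈ PS A M T N ∧ (p : ℤ) ∣ nm b c m := by
    intro v hv p hp w hw
    rw [Finset.mem_filter] at hw
    obtain ⟨hw1, hw2⟩ := hw
    unfold Wv at hw1
    rw [mem_PS] at hw1
    obtain ⟨w1, w2, w3, w4⟩ := hw1
    have hTP := hB.tp v hv
    obtain ⟨m, m1, m2, m3, m4, _, _, m7⟩ := mq_exists A hT hTP hp w1 w3
    have hpm := m7 w4 hw2
    have hk1 : (1 : ℝ) ≤ k₀ v := by exact_mod_cast hTP.k1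
    have hk0 : (0 : ℝ) < k₀ v := by linarith
    refine ⟨m, m1, ?_, ?_⟩
    · rw [mem_PS]
      refine ⟨m2, ?_, m3, fun l hl hd => absurd hd (e2a2_not_dv hpm hl)⟩
      have e1 : (k₀ v : ℝ) * nm b c m = p * nm b c w := by exact_mod_cast m4
      have e2 : (0 : ℝ) < nm b c w := by exact_mod_cast A.wd_nm w w1
      have e3 := (hB.rng v hv p hp).2
      have e4 : (k₀ v : ℝ) * nm b c m ≤ k₀ v * N := by
        rw [e1]
        calc (p : ℝ) * nm b c w ≤ 2 ^ (v + 1) * (k₀ v * N / 2 ^ (v + 1)) := by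
              apply mul_le_mul e3 w2 e2.le (by positivity)
          _ = k₀ v * N := by field_simp
      exact le_of_mul_le_mul_left e4 hk0
    · have h1 : (p : ℤ) ∣ (k₀ v : ℤ) * nm b c m := by
        rw [m4]
        exact dvd_mul_right _ _
      have hpp : Prime (p : ℤ) := Nat.prime_iff_prime_int.1 (hTP.prime p hp)
      rcases hpp.dvd_or_dvd h1 with h2 | h2
      · exact absurd (by exact_mod_cast h2) (ndk A hTP hp)
      · exact h2
  choose! g hg1 hg2 hg3 using hmq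
  set W : ℕ → ℕ → Finset El := fun v p => (Wv A M T (k₀ v) (r v) v N).filter (fun w =>
      ¬ Dv p (cj b (π v p)) w) with hW
  have hWmem : ∀ v p w, w ∈ W v p → w ∈ Wv A M T (k₀ v) (r v) v N := fun v p w hw =>
    (Finset.mem_filter.1 hw).1
  set Tr : Finset (Σ _ : ℕ, Σ _ : ℕ, El) := I.sigma (fun v => (B v).sigma (fun p => W v p))
    with hTr
  have hTrm : ∀ x ∈ Tr, x.1 ∈ I ∧ x.2.1 ∈ B x.1 ∧ x.2.2 ∈ W x.1 x.2.1 := by
    intro x hx
    rw [hTr, Finset.mem_sigma, Finset.mem_sigma] at hx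
    exact hx
  have hmaps : ∀ x ∈ Tr, g x.1 x.2.1 x.2.2 ∈ PS A M T N := by
    intro x hx
    obtain ⟨h1, h2, h3⟩ := hTrm x hx
    exact hg2 _ h1 _ h2 _ h3
  have hfib : ∀ m ∈ PS A M T N, (Tr.filter (fun x => g x.1 x.2.1 x.2.2 = m)).card ≤ 2 := by
    intro m hm
    rw [mem_PS] at hm
    have hm0 := A.wd_nm m hm.1
    have hn : (nm b c m).natAbs ≠ 0 := by
      rw [Int.natAbs_ne_zero]
      exact hm0.ne'
    have hnN : (((nm b c m).natAbs : ℕ) : ℝ) ≤ N := by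
      refine le_trans (le_of_eq ?_) hm.2.1
      rw [Nat.cast_natAbs, abs_of_pos hm0]
    refine le_trans ?_ (e2a2_primes hn hN hnN)
    apply Finset.card_le_card_of_injOn (fun x => x.2.1)
    · intro x hx
      rw [Finset.mem_coe, Finset.mem_filter] at hx
      obtain ⟨h1, h2, h3⟩ := hTrm x hx.1
      have h4 := hg3 _ h1 _ h2 _ h3
      rw [hx.2] at h4
      simp only [Finset.coe_filter, Set.mem_ofPred_eq, Nat.mem_primeFactors]
      refine ⟨⟨(hB.tp _ h1).prime _ h2, ?_, hn⟩, ?_⟩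
      · exact Int.natCast_dvd.1 h4
      · exact lt_of_le_of_lt (hB.lo _ h1) (hB.rng _ h1 _ h2).1
    · rintro ⟨v, p, w⟩ hx ⟨v', p', w'⟩ hx' hpp
      simp only at hpp
      subst hpp
      rw [Finset.mem_coe, Finset.mem_filter] at hx hx'
      obtain ⟨h1, h2, h3⟩ := hTrm _ hx.1
      obtain ⟨h1', h2', h3'⟩ := hTrm _ hx'.1
      simp only at h1 h2 h3 h1' h2' h3' hx hx'
      have hvv : v = v' := by
        have r1 := hB.rng _ h1 _ h2
        have r2 := hB.rng _ h1' _ h2'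
        rcases lt_trichotomy v v' with hlt | heq | hgt
        · exfalso
          have : (2 : ℝ) ^ (v + 1) ≤ 2 ^ v' := pow_le_pow_right₀ (by norm_num) hlt
          linarith [r1.2, r2.1]
        · exact heq
        · exfalso
          have : (2 : ℝ) ^ (v' + 1) ≤ 2 ^ v := pow_le_pow_right₀ (by norm_num) hgt
          linarith [r1.1, r2.2]
      subst hvv
      have hTP := hB.tp _ h1
      have e1 := hg1 _ h1 _ h2 _ h3
      have e2 := hg1 _ h1' _ h2' _ h3'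
      rw [hx.2] at e1
      rw [hx'.2] at e2
      have hw := (mem_PS A).1 (hWmem _ _ _ h3)
      have hw' := (mem_PS A).1 (hWmem _ _ _ h3')
      have hww : w = w' :=
        AB.rp_inj A (A.wd_nm _ (hTP.wd p h2)) hw.1 hw'.1 (e1.trans e2.symm)
      rw [hww]
  calc ∑ v ∈ I, ∑ p ∈ B v, ∑ w ∈ W v p, G v p w
      ≤ ∑ v ∈ I, ∑ p ∈ B v, ∑ w ∈ W v p, f (g v p w) := by
        refine Finset.sum_le_sum fun v hv => Finset.sum_le_sum fun p hp =>
          Finset.sum_le_sum fun w hw => ?_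
        exact hG v hv p hp w (hWmem _ _ _ hw) _ (hg1 _ hv _ hp _ hw)
    _ = ∑ x ∈ Tr, f (g x.1 x.2.1 x.2.2) := by
        rw [hTr, Finset.sum_sigma]
        refine Finset.sum_congr rfl fun v _ => ?_
        rw [Finset.sum_sigma]
    _ = ∑ m ∈ PS A M T N, ∑ x ∈ Tr.filter (fun x => g x.1 x.2.1 x.2.2 = m),
          f (g x.1 x.2.1 x.2.2) :=
        (Finset.sum_fiberwise_of_maps_to hmaps _).symm
    _ ≤ ∑ m ∈ PS A M T N, 2 * f m := by
        refine Finset.sum_le_sum fun m hm => ?_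
        have e1 : ∑ x ∈ Tr.filter (fun x => g x.1 x.2.1 x.2.2 = m), f (g x.1 x.2.1 x.2.2) =
            ∑ x ∈ Tr.filter (fun x => g x.1 x.2.1 x.2.2 = m), f m := by
          refine Finset.sum_congr rfl fun x hx => ?_
          rw [(Finset.mem_filter.1 hx).2]
        rw [e1, Finset.sum_const, nsmul_eq_mul]
        have h2 : ((Tr.filter (fun x => g x.1 x.2.1 x.2.2 = m)).card : ℝ) ≤ 2 := by
          exact_mod_cast hfib m hm
        exact mul_le_mul_of_nonneg_right h2 (hf m)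
    _ = 2 * ∑ m ∈ PS A M T N, f m := by rw [Finset.mul_sum]

open Classical in
theorem e2a2_cof {k₀ : ℕ} {B : Finset ℕ} {r : El} {π : ℕ → El} (hB : TP A M B k₀ r π) {p : ℕ}
    (hp : p ∈ B) (V : El → Prop) (x : ℝ) :
    ((PS A (M * k₀) V x).filter (fun w => Dv p (cj b (π p)) w)).card ≤
      (PS A (M * k₀) (fun _ => True) (k₀ * x / p)).card := by
  have hp0 : (0 : ℤ) < p := by exact_mod_cast (hB.prime p hp).pos
  have hpr : (0 : ℝ) < p := by exact_mod_cast (hB.prime p hp).pos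
  have hk0 : (0 : ℤ) < k₀ := by exact_mod_cast hB.k1
  have hk0' : (k₀ : ℤ) ≠ 0 := hk0.ne'
  have hex : ∀ w, w ∈ (PS A (M * k₀) V x).filter (fun w => Dv p (cj b (π p)) w) →
      ∃ w' : El, ml b c (cj b (π p)) w' = sm k₀ w ∧ (p : ℤ) * nm b c w' = k₀ * nm b c w := by
    intro w hw
    obtain ⟨w', _, h2, h3⟩ := Dv_cof' A hB hp (Finset.mem_filter.1 hw).2
    exact ⟨w', h2, h3⟩
  choose! g hg1 hg2 using hex
  have hpos : ∀ w ∈ (PS A (M * k₀) V x).filter (fun w => Dv p (cj b (π p)) w),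
      0 < nm b c (g w) := by
    intro w hw
    have h1 := A.wd_nm w ((mem_PS A).1 (Finset.mem_filter.1 hw).1).1
    have h2 := hg2 w hw
    have h3 : 0 < (p : ℤ) * nm b c (g w) := by rw [h2]; positivity
    exact pos_of_mul_pos_right h3 hp0.le
  apply Finset.card_le_card_of_injOn (fun w => A.rp (g w))
  · intro w hw
    rw [Finset.mem_coe] at hw
    have h0 := hpos w hw
    have hwm := (mem_PS A).1 (Finset.mem_filter.1 hw).1
    rw [Finset.mem_coe, mem_PS]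
    refine ⟨A.rp_wd _ h0, ?_, trivial, ?_⟩
    · rw [AB.rp_nm A h0, le_div_iff₀ hpr]
      have h2 : (p : ℝ) * nm b c (g w) = k₀ * nm b c w := by exact_mod_cast hg2 w hw
      have h3 : (k₀ : ℝ) * nm b c w ≤ k₀ * x :=
        mul_le_mul_of_nonneg_left hwm.2.1 (by positivity)
      linarith
    · intro l hl hd
      rw [e2a2_dv_iff, AB.rp_gcd A h0, ← e2a2_dv_iff] at hd
      by_cases hlk : l ∣ k₀
      · exact hlk.mul_left M
      · refine hwm.2.2.2 l hl ?_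
        have h4 : dv l (sm k₀ w) := by
          rw [← hg1 w hw]
          obtain ⟨d1, d2⟩ := hd
          constructor
          · unfold ml
            exact dvd_sub (dvd_mul_of_dvd_right d1 _) (dvd_mul_of_dvd_right d2 _)
          · unfold ml
            exact dvd_add (dvd_add (dvd_mul_of_dvd_right d2 _) (dvd_mul_of_dvd_right d1 _))
              (dvd_mul_of_dvd_right d2 _)
        have hlp : Prime (l : ℤ) := Nat.prime_iff_prime_int.1 hl
        have hlk' : ¬ (l : ℤ) ∣ (k₀ : ℤ) := by exact_mod_cast hlk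
        obtain ⟨d1, d2⟩ := h4
        unfold sm at d1 d2
        simp only at d1 d2
        exact ⟨(hlp.dvd_or_dvd d1).resolve_left hlk', (hlp.dvd_or_dvd d2).resolve_left hlk'⟩
  · intro w hw w' hw' heq
    rw [Finset.mem_coe] at hw hw'
    simp only at heq
    obtain ⟨o, _, o2, o3⟩ := AB.rp_eq A (hpos w hw) (hpos w' hw') heq
    have hwm := (mem_PS A).1 (Finset.mem_filter.1 hw).1
    have hwm' := (mem_PS A).1 (Finset.mem_filter.1 hw').1
    have h1 : sm k₀ w' = sm k₀ (ml b c o w) := by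
      rw [← hg1 w' hw', o3, ← ml_assoc, ml_comm b c (cj b (π p)) o, ml_assoc, hg1 w hw,
        sba_ml_sm]
    have h2 : w' = ml b c o w := by
      unfold sm at h1
      rw [Prod.mk.injEq] at h1
      exact Prod.ext (mul_left_cancel₀ hk0' h1.1) (mul_left_cancel₀ hk0' h1.2)
    rw [← A.rp_self w hwm.1, ← A.rp_self w' hwm'.1, h2]
    exact (o2 w (A.wd_nm w hwm.1)).symm

open Classical in
theorem bad_pairs_pr (hT : Cls A M T) : ∃ C : ℝ, 1 ≤ C ∧ ∀ (N : ℝ), 1 ≤ N → ∀ (I : Finset ℕ)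
    (B : ℕ → Finset ℕ) (k₀ : ℕ → ℕ) (r : ℕ → El) (π : ℕ → ℕ → El), Blks A M N I B k₀ r π →
    ∑ v ∈ I, ∑ p ∈ B v, (((Wv A M T (k₀ v) (r v) v N).filter (fun w =>
      Dv p (cj b (π v p)) w)).card : ℝ) ≤ C * N ^ (16 / 25 : ℝ) := by
  obtain ⟨C, hC, hcard⟩ := PS_card A
  have hM1 : (1 : ℝ) ≤ M := by exact_mod_cast hT.M1
  have hM2 : (1 : ℝ) ≤ (M : ℝ) ^ 2 := one_le_pow₀ hM1
  refine ⟨C * (M : ℝ) ^ 2, by nlinarith, ?_⟩
  intro N hN I B k₀ r π hB
  have hN0 : (0 : ℝ) < N := by linarith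
  have hv : ∀ v ∈ I, ∑ p ∈ B v, (((Wv A M T (k₀ v) (r v) v N).filter (fun w =>
      Dv p (cj b (π v p)) w)).card : ℝ) ≤ C * (M : ℝ) ^ 2 * N * (1 / 2 ^ (v + 1)) := by
    intro v hv
    have hTP := hB.tp v hv
    have hk1 : (1 : ℝ) ≤ k₀ v := by exact_mod_cast hTP.k1
    have hkM : (k₀ v : ℝ) ≤ M := by exact_mod_cast Nat.le_of_dvd hT.M1 hTP.kM
    have h1 : ∀ p ∈ B v, (((Wv A M T (k₀ v) (r v) v N).filter (fun w =>
        Dv p (cj b (π v p)) w)).card : ℝ) ≤ C * (M : ℝ) ^ 2 * N * (1 / 2 ^ (v + 1)) / 2 ^ v := by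
      intro p hp
      have hpr : (0 : ℝ) < p := by exact_mod_cast (hTP.prime p hp).pos
      have h2 := e2a2_cof A hTP hp (QC b c (k₀ v) (r v) T) (k₀ v * N / 2 ^ (v + 1))
      have h3 := hcard (M * k₀ v) (fun _ => True) (k₀ v * (k₀ v * N / 2 ^ (v + 1)) / p)
        (by positivity)
      have h4 : (((Wv A M T (k₀ v) (r v) v N).filter (fun w =>
        Dv p (cj b (π v p)) w)).card : ℝ) ≤
          ((PS A (M * k₀ v) (fun _ => True) (k₀ v * (k₀ v * N / 2 ^ (v + 1)) / p)).card : ℝ) := by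
        unfold Wv
        exact_mod_cast h2
      refine (h4.trans h3).trans ?_
      have h5 : (k₀ v : ℝ) * (k₀ v * N / 2 ^ (v + 1)) / p ≤
          M * (M * N / 2 ^ (v + 1)) / 2 ^ v := by
        have h6 := (hB.rng v hv p hp).1
        gcongr
      calc C * ((k₀ v : ℝ) * (k₀ v * N / 2 ^ (v + 1)) / p) ≤
            C * (M * (M * N / 2 ^ (v + 1)) / 2 ^ v) :=
            mul_le_mul_of_nonneg_left h5 (by linarith)
        _ = C * (M : ℝ) ^ 2 * N * (1 / 2 ^ (v + 1)) / 2 ^ v := by ring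
    have hBc : ((B v).card : ℝ) ≤ 2 ^ v := by
      have h6 : B v ⊆ Finset.Ioc (2 ^ v) (2 ^ (v + 1)) := by
        intro p hp
        obtain ⟨a1, a2⟩ := hB.rng v hv p hp
        rw [Finset.mem_Ioc]
        constructor
        · exact_mod_cast a1
        · exact_mod_cast a2
      have h7 := Finset.card_le_card h6
      rw [Nat.card_Ioc] at h7
      have h8 : 2 ^ (v + 1) - 2 ^ v = 2 ^ v := by
        rw [pow_succ]; omega
      rw [h8] at h7
      exact_mod_cast h7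
    calc ∑ p ∈ B v, (((Wv A M T (k₀ v) (r v) v N).filter (fun w =>
          Dv p (cj b (π v p)) w)).card : ℝ) ≤
          ∑ p ∈ B v, C * (M : ℝ) ^ 2 * N * (1 / 2 ^ (v + 1)) / 2 ^ v := Finset.sum_le_sum h1
      _ = (B v).card * (C * (M : ℝ) ^ 2 * N * (1 / 2 ^ (v + 1)) / 2 ^ v) := by
          rw [Finset.sum_const, nsmul_eq_mul]
      _ ≤ 2 ^ v * (C * (M : ℝ) ^ 2 * N * (1 / 2 ^ (v + 1)) / 2 ^ v) := by
          apply mul_le_mul_of_nonneg_right hBc
          positivity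
      _ = C * (M : ℝ) ^ 2 * N * (1 / 2 ^ (v + 1)) := by field_simp
  have hy : (0 : ℝ) < N ^ (9 / 25 : ℝ) := Real.rpow_pos_of_pos hN0 _
  have hg := e2a2_geom I hy (fun v hv => hB.lo v hv)
  calc ∑ v ∈ I, ∑ p ∈ B v, (((Wv A M T (k₀ v) (r v) v N).filter (fun w =>
        Dv p (cj b (π v p)) w)).card : ℝ) ≤
        ∑ v ∈ I, C * (M : ℝ) ^ 2 * N * (1 / 2 ^ (v + 1)) := Finset.sum_le_sum hv
    _ = C * (M : ℝ) ^ 2 * N * ∑ v ∈ I, 1 / (2 : ℝ) ^ (v + 1) := by rw [Finset.mul_sum]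
    _ ≤ C * (M : ℝ) ^ 2 * N * (1 / N ^ (9 / 25 : ℝ)) :=
        mul_le_mul_of_nonneg_left hg (by positivity)
    _ = C * (M : ℝ) ^ 2 * N ^ (16 / 25 : ℝ) := by
        rw [mul_assoc]
        congr 1
        rw [mul_one_div, div_eq_iff hy.ne', ← Real.rpow_add hN0]
        norm_num

end

theorem pairs_le : type_of% @pairs_le_pr := @pairs_le_pr
theorem bad_pairs : type_of% @bad_pairs_pr := @bad_pairs_pr

end Pool.Agent.AQM
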