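import Pool.Agent.Lib_helper39.AQM.Defs
import Pool.Agent.Lib_helper39.AQM.AB
import Pool.Agent.Lib_helper39.MQX.ALG
import Pool.Agent.Lib_helper39.MQX.SBA
import Pool.Agent.Lib_helper39.MQX.SBB
import Pool.Agent.Lib_helper39.MQX.SBC
import Pool.Agent.Lib_helper39.MQX.LSV
import Pool.Agent.Lib_helper39.MQX.PAR
import Pool.Agent.Lib_helper39.MQX.FEJ
import Pool.Agent.Lib_helper39.MQX.EXP
import Pool.Agent.Lib_helper39.AQMF.AL3
import Pool.Agent.Lib_helper39.AQMF.CP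
import Pool.Agent.Lib_helper39.AQMF.ME

/-! block E2B of AQM, proved by helper39 -/

set_option autoImplicit false

namespace Pool.Agent.AQM

open Pool.Agent.MQ Pool.Agent.T2 Filter Topology MeasureTheory

/-- the range of the blocks -/
noncomputable def e2bI (N : ℝ) : Finset ℕ :=
  Finset.Icc ⌈(9 / 25 : ℝ) * Real.logb 2 N⌉₊ (⌊(2 / 5 : ℝ) * Real.logb 2 N⌋₊ - 1)

theorem e2b_pow {N : ℝ} (hN : 0 < N) (a : ℝ) : N ^ a = (2 : ℝ) ^ (a * Real.logb 2 N) := by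
  conv_lhs => rw [← Real.rpow_logb (b := 2) (by norm_num) (by norm_num) hN]
  rw [← Real.rpow_mul (by norm_num), mul_comm]

theorem e2b_lo {N : ℝ} (hN : 0 < N) {v : ℕ} (hv : v ∈ e2bI N) :
    N ^ (9 / 25 : ℝ) ≤ 2 ^ v := by
  unfold e2bI at hv
  rw [Finset.mem_Icc] at hv
  rw [e2b_pow hN, ← Real.rpow_natCast]
  exact Real.rpow_le_rpow_of_exponent_le (by norm_num) (Nat.ceil_le.1 hv.1)

theorem e2b_v {N : ℝ} (hL : 100 ≤ Real.logb 2 N) {v : ℕ} (hv : v ∈ e2bI N) :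
    36 ≤ v ∧ ((v : ℝ) + 1) ≤ 2 / 5 * Real.logb 2 N := by
  unfold e2bI at hv
  rw [Finset.mem_Icc] at hv
  constructor
  · have h1 : (36 : ℝ) ≤ 9 / 25 * Real.logb 2 N := by linarith
    have h2 : (36 : ℝ) ≤ v := h1.trans (Nat.ceil_le.1 hv.1)
    exact_mod_cast h2
  · have h1 : 40 ≤ ⌊(2 / 5 : ℝ) * Real.logb 2 N⌋₊ := by
      apply Nat.le_floor
      push_cast
      linarith
    have h2 : v + 1 ≤ ⌊(2 / 5 : ℝ) * Real.logb 2 N⌋₊ := by omega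
    have h3 : ((v + 1 : ℕ) : ℝ) ≤ 2 / 5 * Real.logb 2 N :=
      (Nat.le_floor_iff (by linarith)).1 h2
    push_cast at h3
    exact h3

theorem e2b_hi {N : ℝ} (hN : 0 < N) (hL : 100 ≤ Real.logb 2 N) {v : ℕ} (hv : v ∈ e2bI N) :
    (2 : ℝ) ^ (v + 1) ≤ N ^ (2 / 5 : ℝ) := by
  have h1 := (e2b_v hL hv).2
  rw [e2b_pow hN, ← Real.rpow_natCast]
  apply Real.rpow_le_rpow_of_exponent_le (by norm_num)
  push_cast
  exact h1

theorem e2b_card {N : ℝ} (hL : 100 ≤ Real.logb 2 N) :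
    Real.logb 2 N / 100 ≤ ((e2bI N).card : ℝ) := by
  unfold e2bI
  rw [Nat.card_Icc]
  set L := Real.logb 2 N with hL'
  have h1 : 40 ≤ ⌊(2 / 5 : ℝ) * L⌋₊ := by
    apply Nat.le_floor
    push_cast
    linarith
  have h2 : ⌊(2 / 5 : ℝ) * L⌋₊ - 1 + 1 = ⌊(2 / 5 : ℝ) * L⌋₊ := by omega
  rw [h2]
  have h3 : (2 / 5 : ℝ) * L < ⌊(2 / 5 : ℝ) * L⌋₊ + 1 := Nat.lt_floor_add_one _
  have h4 : (⌈(9 / 25 : ℝ) * L⌉₊ : ℝ) < 9 / 25 * L + 1 := Nat.ceil_lt_add_one (by linarith)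
  have h5 : ((⌊(2 / 5 : ℝ) * L⌋₊ : ℝ)) - (⌈(9 / 25 : ℝ) * L⌉₊ : ℝ) ≤
      ((⌊(2 / 5 : ℝ) * L⌋₊ - ⌈(9 / 25 : ℝ) * L⌉₊ : ℕ) : ℝ) := by
    have e1 : ⌊(2 / 5 : ℝ) * L⌋₊ ≤ (⌊(2 / 5 : ℝ) * L⌋₊ - ⌈(9 / 25 : ℝ) * L⌉₊) +
        ⌈(9 / 25 : ℝ) * L⌉₊ := by omega
    have e2 : ((⌊(2 / 5 : ℝ) * L⌋₊ : ℕ) : ℝ) ≤ ((⌊(2 / 5 : ℝ) * L⌋₊ - ⌈(9 / 25 : ℝ) * L⌉₊ : ℕ) : ℝ) +
        ((⌈(9 / 25 : ℝ) * L⌉₊ : ℕ) : ℝ) := by exact_mod_cast e1
    linarith
  linarith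

section
variable {b c : ℤ} (A : Ang b c) {M : ℕ} {T : El → Prop}

/-- `PS_low` for all `k₀ ∣ M` -/
theorem e2b_low (hT : Cls A M T) : ∃ C X₀ : ℝ, 1 ≤ C ∧ 1 ≤ X₀ ∧ ∀ k₀ : ℕ, 1 ≤ k₀ → k₀ ≤ M →
    ∀ V : El → Prop, Per (M * k₀) V → (∃ v, V v) → ∀ x : ℝ, X₀ ≤ x →
      x / C ≤ ((PS A (M * k₀) V x).card : ℝ) := by
  have h : ∀ k₀ : ℕ, ∃ C X₀ : ℝ, 1 ≤ C ∧ (1 ≤ k₀ → ∀ V : El → Prop, Per (M * k₀) V →
      (∃ v, V v) → ∀ x : ℝ, X₀ ≤ x → x / C ≤ ((PS A (M * k₀) V x).card : ℝ)) := by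
    intro k₀
    by_cases hk : 1 ≤ k₀
    · obtain ⟨C, X₀, h1, h2⟩ := PS_low A (M * k₀) (Nat.mul_pos hT.M1 hk)
      exact ⟨C, X₀, h1, fun _ => h2⟩
    · exact ⟨1, 1, le_rfl, fun h => absurd h hk⟩
  choose C X hC hX using h
  refine ⟨1 + ∑ k ∈ Finset.Icc 1 M, C k, 1 + ∑ k ∈ Finset.Icc 1 M, |X k|, ?_, ?_, ?_⟩
  · have : 0 ≤ ∑ k ∈ Finset.Icc 1 M, C k := Finset.sum_nonneg fun k _ => by linarith [hC k]
    linarith
  · have : 0 ≤ ∑ k ∈ Finset.Icc 1 M, |X k| := Finset.sum_nonneg fun k _ => abs_nonneg _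
    linarith
  · intro k₀ h1 h2 V hV hne x hx
    have hmem : k₀ ∈ Finset.Icc 1 M := Finset.mem_Icc.2 ⟨h1, h2⟩
    have h3 : C k₀ ≤ ∑ k ∈ Finset.Icc 1 M, C k :=
      Finset.single_le_sum (f := C) (fun k _ => by linarith [hC k]) hmem
    have h4 : |X k₀| ≤ ∑ k ∈ Finset.Icc 1 M, |X k| :=
      Finset.single_le_sum (f := fun k => |X k|) (fun k _ => abs_nonneg _) hmem
    have h5 : X k₀ ≤ x := by
      have := le_abs_self (X k₀)
      linarith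
    have h6 : 0 ≤ x := by
      have := abs_nonneg (X k₀)
      linarith
    refine le_trans ?_ (hX k₀ h1 V hV hne x h5)
    exact div_le_div_of_nonneg_left h6 (by linarith [hC k₀]) (by linarith)

theorem triples_pr (hT : Cls A M T) (hM : GoodM A M) : ∃ c₁ c₂ N₀ : ℝ, 0 < c₁ ∧ 0 < c₂ ∧
    2 ≤ N₀ ∧ ∀ N : ℝ, N₀ ≤ N → ∃ (I : Finset ℕ) (B : ℕ → Finset ℕ) (k₀ : ℕ → ℕ) (r : ℕ → El)
    (π : ℕ → ℕ → El), Blks A M N I B k₀ r π ∧
      (∀ v ∈ I, c₁ * ((2 : ℝ) ^ v / Real.log (2 ^ v)) ≤ ((B v).card : ℝ)) ∧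
      (∀ v ∈ I, c₂ * (N / 2 ^ v) ≤ ((Wv A M T (k₀ v) (r v) v N).card : ℝ)) ∧
      c₂ * N ≤ ∑ v ∈ I, ((B v).card : ℝ) * (Wv A M T (k₀ v) (r v) v N).card := by
  obtain ⟨c₁, P₀, hc₁, hP₀⟩ := typed_block hM
  obtain ⟨C, X₀, hC, hX₀, hlow⟩ := e2b_low A hT
  set a₁ : ℝ := max P₀ 1 with ha₁
  have ha₁1 : 1 ≤ a₁ := le_max_right _ _
  refine ⟨c₁, min (1 / (2 * C)) (c₁ / (80 * C)),
    max (2 ^ 100) (max (a₁ ^ (25 / 9 : ℝ)) (X₀ ^ (5 / 3 : ℝ))), hc₁,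
    lt_min (by positivity) (by positivity), ?_, ?_⟩
  · refine le_trans ?_ (le_max_left _ _)
    norm_num
  intro N hN
  have hN1 : (2 : ℝ) ^ 100 ≤ N := (le_max_left _ _).trans hN
  have hN2 : a₁ ^ (25 / 9 : ℝ) ≤ N := (le_max_left _ _).trans ((le_max_right _ _).trans hN)
  have hN3 : X₀ ^ (5 / 3 : ℝ) ≤ N := (le_max_right _ _).trans ((le_max_right _ _).trans hN)
  have hN0 : 0 < N := lt_of_lt_of_le (by positivity) hN1
  have hNone : 1 ≤ N := le_trans (by norm_num) hN1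
  have hL : 100 ≤ Real.logb 2 N := by
    rw [Real.le_logb_iff_rpow_le (by norm_num) hN0]
    exact_mod_cast hN1
  set L := Real.logb 2 N with hLdef
  have hPv : ∀ v ∈ e2bI N, P₀ ≤ (2 : ℝ) ^ v := by
    intro v hv
    have h1 := e2b_lo hN0 hv
    have h2 : a₁ ≤ N ^ (9 / 25 : ℝ) := by
      calc a₁ = (a₁ ^ (25 / 9 : ℝ)) ^ (9 / 25 : ℝ) := by
            rw [← Real.rpow_mul (by linarith)]
            norm_num
        _ ≤ _ := Real.rpow_le_rpow (by positivity) hN2 (by norm_num)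
    exact (le_max_left _ _).trans (h2.trans h1)
  have hex : ∀ v : ℕ, ∃ (B : Finset ℕ) (k₀ : ℕ) (r : El) (π : ℕ → El), v ∈ e2bI N →
      TP A M B k₀ r π ∧ (∀ p ∈ B, (2 : ℝ) ^ v < (p : ℝ) ∧ (p : ℝ) ≤ 2 * 2 ^ v) ∧
        c₁ * ((2 : ℝ) ^ v / Real.log (2 ^ v)) ≤ (B.card : ℝ) := by
    intro v
    by_cases hv : v ∈ e2bI N
    · obtain ⟨B, k₀, r, π, h1, h2, h3⟩ := hP₀ (2 ^ v) (hPv v hv)
      exact ⟨B, k₀, r, π, fun _ => ⟨h1, h2, h3⟩⟩
    · exact ⟨∅, 1, (1, 0), fun _ => (1, 0), fun h => absurd h hv⟩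
  choose B k₀ r π hB using hex
  have hWlow : ∀ v ∈ e2bI N, 1 / (2 * C) * (N / 2 ^ v) ≤
      ((Wv A M T (k₀ v) (r v) v N).card : ℝ) := by
    intro v hv
    obtain ⟨h1, h2, h3⟩ := hB v hv
    have hv36 := (e2b_v hL hv).1
    have hk1 : 1 ≤ k₀ v := h1.k1
    have hkM : k₀ v ≤ M := Nat.le_of_dvd hT.M1 h1.kM
    have hBne : (B v).Nonempty := by
      rw [← Finset.card_pos]
      have : (0 : ℝ) < ((B v).card : ℝ) := by
        refine lt_of_lt_of_le ?_ h3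
        have h4 : (1 : ℝ) < 2 ^ v := one_lt_pow₀ (by norm_num) (by omega)
        have := Real.log_pos h4
        positivity
      exact_mod_cast this
    have hhi := e2b_hi hN0 hL hv
    have hNr : N ^ (3 / 5 : ℝ) ≤ N / 2 ^ (v + 1) := by
      rw [le_div_iff₀ (by positivity)]
      calc N ^ (3 / 5 : ℝ) * 2 ^ (v + 1) ≤ N ^ (3 / 5 : ℝ) * N ^ (2 / 5 : ℝ) := by gcongr
        _ = N := by
          rw [← Real.rpow_add hN0]
          norm_num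
    have hX3 : X₀ ≤ N ^ (3 / 5 : ℝ) := by
      calc X₀ = (X₀ ^ (5 / 3 : ℝ)) ^ (3 / 5 : ℝ) := by
            rw [← Real.rpow_mul (by linarith)]
            norm_num
        _ ≤ _ := Real.rpow_le_rpow (by positivity) hN3 (by norm_num)
    have hk1r : (1 : ℝ) ≤ (k₀ v : ℝ) := by exact_mod_cast hk1
    have hle : N / 2 ^ (v + 1) ≤ (k₀ v : ℝ) * N / 2 ^ (v + 1) := by
      apply div_le_div_of_nonneg_right _ (by positivity)
      nlinarith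
    have h5 := hlow (k₀ v) hk1 hkM (QC b c (k₀ v) (r v) T) (QC_per hT.per _ hk1 _)
      (QC_nonempty A hT h1 hBne) ((k₀ v : ℝ) * N / 2 ^ (v + 1)) (hX3.trans (hNr.trans hle))
    unfold Wv
    refine le_trans ?_ h5
    calc 1 / (2 * C) * (N / 2 ^ v) = N / 2 ^ (v + 1) / C := by
          rw [pow_succ]
          field_simp
      _ ≤ _ := div_le_div_of_nonneg_right hle (by linarith)
  refine ⟨e2bI N, B, k₀, r, π, ⟨?_, ?_, ?_, ?_⟩, ?_, ?_, ?_⟩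
  · intro v hv; exact e2b_lo hN0 hv
  · intro v hv; exact e2b_hi hN0 hL hv
  · intro v hv; exact (hB v hv).1
  · intro v hv p hp
    obtain ⟨h1, h2⟩ := (hB v hv).2.1 p hp
    refine ⟨h1, ?_⟩
    rw [pow_succ]
    linarith
  · intro v hv; exact (hB v hv).2.2
  · intro v hv
    refine le_trans ?_ (hWlow v hv)
    apply mul_le_mul_of_nonneg_right (min_le_left _ _) (by positivity)
  · have hterm : ∀ v ∈ e2bI N, 5 * c₁ / (4 * C) / L * N ≤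
        ((B v).card : ℝ) * (Wv A M T (k₀ v) (r v) v N).card := by
      intro v hv
      have h1 := (hB v hv).2.2
      have h2 := hWlow v hv
      obtain ⟨h3, h4⟩ := e2b_v hL hv
      have h5 : Real.log (2 ^ v) = v * Real.log 2 := Real.log_pow _ _
      have hl2 : 0 < Real.log 2 := Real.log_pos (by norm_num)
      have hl21 : Real.log 2 ≤ 1 := by
        have := Real.log_two_lt_d9
        linarith
      have hv0 : (0 : ℝ) < v := by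
        have : 0 < v := by omega
        exact_mod_cast this
      have h6 : Real.log (2 ^ v) ≤ 2 / 5 * L := by
        rw [h5]
        nlinarith
      have h7 : 0 < Real.log (2 ^ v) := by rw [h5]; positivity
      have hp : (0 : ℝ) < 2 ^ v := by positivity
      calc 5 * c₁ / (4 * C) / L * N
          = c₁ * (2 ^ v / (2 / 5 * L)) * (1 / (2 * C) * (N / 2 ^ v)) := by
            field_simp
            norm_num
        _ ≤ c₁ * (2 ^ v / Real.log (2 ^ v)) * (1 / (2 * C) * (N / 2 ^ v)) := by gcongr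
        _ ≤ _ := mul_le_mul h1 h2 (by positivity) (by positivity)
    refine le_trans ?_ (Finset.sum_le_sum hterm)
    rw [Finset.sum_const, nsmul_eq_mul]
    have h8 := e2b_card hL
    have hL0 : 0 < L := by linarith
    calc min (1 / (2 * C)) (c₁ / (80 * C)) * N ≤ c₁ / (80 * C) * N := by
          apply mul_le_mul_of_nonneg_right (min_le_right _ _) hN0.le
      _ = L / 100 * (5 * c₁ / (4 * C) / L * N) := by
          field_simp
          norm_num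
      _ ≤ _ := by
          apply mul_le_mul_of_nonneg_right h8 (by positivity)

end

theorem triples : type_of% @triples_pr := @triples_pr

end Pool.Agent.AQM
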