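import Pool.Agent.Lib_helper39.AQM.Defs
import Pool.Agent.Lib_helper39.AQM.AB
import Pool.Agent.Lib_helper39.MQX.ALG
import Pool.Agent.Lib_helper39.MQX.SBA
import Pool.Agent.Lib_helper39.MQX.SBB
import Pool.Agent.Lib_helper39.MQX.SBC
import Pool.Agent.Lib_helper39.MQX.LSV
import Pool.Agent.Lib_helper39.MQX.PAR
import Pool.Agent.Lib_helper39.MQX.FEJ
import Pool.Agent.Lib_helper39.MQX.EXP
import Pool.Agent.Lib_helper39.AQMF.AL1
import Pool.Agent.Lib_helper39.AQMF.AL3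
import Pool.Agent.Lib_helper39.AQMF.LS
import Pool.Agent.Lib_helper39.AQMF.SP
import Pool.Agent.Lib_helper39.AQMF.FC
import Pool.Agent.Lib_helper39.AQMF.E1
import Pool.Agent.Lib_helper39.AQMF.E2A1
import Pool.Agent.Lib_helper39.AQMF.E2A2
import Pool.Agent.Lib_helper39.AQMF.E2B

/-! block E2C of AQM, proved by helper45 -/

set_option autoImplicit false

namespace Pool.Agent.AQM

open Pool.Agent.MQ Pool.Agent.T2 Filter Topology MeasureTheory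

theorem e2c_mem_Ks {K : ℝ} {k : ℤ} : k ∈ Ks K ↔ |(k : ℝ)| ≤ K := by
  unfold Ks
  rw [Finset.mem_Icc, abs_le, Int.le_floor, neg_le, Int.le_floor]
  push_cast
  rw [neg_le]

theorem e2c_KK_sub {K K' : ℝ} (h : K ≤ K') : KK K ⊆ Ks K' := by
  intro k hk
  unfold KK at hk
  rw [Finset.mem_Ioo] at hk
  rw [e2c_mem_Ks]
  have h1 : (⌈K⌉ : ℝ) < K + 1 := Int.ceil_lt_add_one K
  have h2 : (k : ℝ) ≤ ⌈K⌉ - 1 := by
    have : k ≤ ⌈K⌉ - 1 := by omega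
    exact_mod_cast this
  have h3 : -(⌈K⌉ : ℝ) + 1 ≤ (k : ℝ) := by
    have : -⌈K⌉ + 1 ≤ k := by omega
    exact_mod_cast this
  rw [abs_le]
  constructor <;> linarith

theorem e2c_wt {K : ℝ} (hK : 0 < K) {k : ℤ} (hk : k ∈ KK K) :
    0 ≤ 1 - |(k : ℝ)| / ⌈K⌉ ∧ 1 - |(k : ℝ)| / ⌈K⌉ ≤ 1 := by
  unfold KK at hk
  rw [Finset.mem_Ioo] at hk
  have h0 : (0 : ℝ) < ⌈K⌉ := by
    have := Int.ceil_pos.2 hK
    exact_mod_cast this
  have h1 : |(k : ℝ)| ≤ ⌈K⌉ := by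
    rw [abs_le]
    constructor
    · have : -⌈K⌉ ≤ k := by omega
      exact_mod_cast this
    · have : k ≤ ⌈K⌉ := by omega
      exact_mod_cast this
  constructor
  · rw [sub_nonneg, div_le_one h0]
    exact h1
  · have : 0 ≤ |(k : ℝ)| / ⌈K⌉ := by positivity
    linarith

/-- Parseval for finite sets -/
theorem e2c_pars {F : ℝ → ℝ} (hp : ∀ t, F (t + 1) = F t) (hm : Measurable F)
    (h1 : ∀ t, F t = 1 ∨ F t = -1) (U : Finset ℤ) : ∑ k ∈ U, ‖fc F k‖ ^ 2 ≤ 1 := by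
  obtain ⟨h2, h3, _⟩ := parseval hp hm h1
  rw [← h3]
  exact h2.sum_le_tsum _ (fun _ _ => by positivity)

/-- the coefficients of the Fejer mean -/
noncomputable def e2cc (F : ℝ → ℝ) (K : ℝ) (k : ℤ) : ℂ :=
  ((1 - |(k : ℝ)| / ⌈K⌉ : ℝ) : ℂ) * fc F k

theorem e2cc_le {F : ℝ → ℝ} {K : ℝ} (hK : 0 < K) {k : ℤ} (hk : k ∈ KK K) :
    ‖e2cc F K k‖ ≤ ‖fc F k‖ := by
  obtain ⟨h1, h2⟩ := e2c_wt hK hk
  unfold e2cc
  rw [norm_mul, Complex.norm_real, Real.norm_eq_abs, abs_of_nonneg h1]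
  exact mul_le_of_le_one_left (norm_nonneg _) h2

theorem e2cc_sum {F : ℝ → ℝ} {K : ℝ} (hK : 0 < K) {U : Finset ℤ} (hU : U ⊆ KK K) :
    ∑ k ∈ U, ‖e2cc F K k‖ ^ 2 ≤ ∑ k ∈ U, ‖fc F k‖ ^ 2 :=
  Finset.sum_le_sum fun _ hk => pow_le_pow_left₀ (norm_nonneg _) (e2cc_le hK (hU hk)) 2

theorem e2c_cs {ι : Type} (s : Finset ι) (f g : ι → ℂ) :
    ‖∑ i ∈ s, f i * g i‖ ≤ Real.sqrt (∑ i ∈ s, ‖f i‖ ^ 2) * Real.sqrt (∑ i ∈ s, ‖g i‖ ^ 2) := by
  refine (norm_sum_le _ _).trans ?_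
  simp_rw [norm_mul]
  exact Real.sum_mul_le_sqrt_mul_sqrt _ _ _

theorem e2c_csr {ι : Type} (s : Finset ι) (g : ι → ℂ) :
    ∑ i ∈ s, ‖g i‖ ≤ Real.sqrt s.card * Real.sqrt (∑ i ∈ s, ‖g i‖ ^ 2) := by
  have h1 := Real.sum_mul_le_sqrt_mul_sqrt s (fun _ => (1 : ℝ)) (fun i => ‖g i‖)
  simpa using h1

section
variable {b c : ℤ} (A : Ang b c) {M : ℕ} {T : El → Prop}

/-- the phase of a product, for the frequencies in `X` -/
noncomputable def e2cE (F : ℝ → ℝ) (K : ℝ) (X : Finset ℤ) (v w : El) : ℂ :=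
  ∑ k ∈ X, e2cc F K k * (ex (k * A.u v) * ex (k * A.u w))

theorem e2cE_norm {F : ℝ → ℝ} {K : ℝ} (hK : 0 < K) (hp : ∀ t, F (t + 1) = F t)
    (hm : Measurable F) (h1 : ∀ t, F t = 1 ∨ F t = -1) {X : Finset ℤ} (hX : X ⊆ KK K) (v w : El) :
    ‖e2cE A F K X v w‖ ≤ Real.sqrt X.card := by
  unfold e2cE
  have e1 : ‖∑ k ∈ X, e2cc F K k * (ex (k * A.u v) * ex (k * A.u w))‖ ≤
      ∑ k ∈ X, ‖e2cc F K k‖ := by
    refine norm_sum_le_of_le _ (fun k _ => ?_)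
    rw [norm_mul, norm_mul, ex_norm, ex_norm, one_mul, mul_one]
  refine e1.trans ((e2c_csr _ _).trans ?_)
  have e2 : Real.sqrt (∑ k ∈ X, ‖e2cc F K k‖ ^ 2) ≤ 1 := by
    rw [Real.sqrt_le_one]
    exact (e2cc_sum hK hX).trans (e2c_pars hp hm h1 _)
  calc _ ≤ Real.sqrt X.card * 1 := mul_le_mul_of_nonneg_left e2 (Real.sqrt_nonneg _)
    _ = _ := mul_one _

theorem e2c_sm_inj {k : ℕ} (hk : 1 ≤ k) {v w : El} (h : sm k v = sm k w) : v = w := by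
  unfold sm at h
  have hk' : (k : ℤ) ≠ 0 := by
    have : k ≠ 0 := by omega
    exact_mod_cast this
  rw [Prod.mk.injEq] at h
  exact Prod.ext (mul_left_cancel₀ hk' h.1) (mul_left_cancel₀ hk' h.2)

open Classical in
theorem e2c_split (F : ℝ → ℝ) (K t : ℝ) (U : Finset ℤ) :
    Fm F K t = ∑ k ∈ (KK K).filter (fun k => k ∈ U), e2cc F K k * ex (k * t) +
      ∑ k ∈ (KK K).filter (fun k => k ∉ U), e2cc F K k * ex (k * t) := by
  unfold Fm e2cc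
  rw [Finset.sum_filter_add_sum_filter_not]

open Classical in
/-- the sum over all triples -/
theorem e2c_sum (hT : Cls A M T) {h : ℕ → ℤ} (hh : Sgn h) {N K η ε₁ Cl Cp Cb : ℝ} {F : ℝ → ℝ}
    (hp : ∀ t, F (t + 1) = F t) (hm : Measurable F) (h1 : ∀ t, F t = 1 ∨ F t = -1)
    (hN : 1 ≤ N) (hK : 0 < K) (hCl : 0 ≤ Cl)
    (hclose : ∑ m ∈ PS A M T N, ‖Fm F K (A.u m) - gg b c h m‖ ≤ η * N)
    (U : Finset ℤ)
    (hout : ∑ k ∈ (KK K).filter (fun k => k ∉ U), ‖e2cc F K k‖ ^ 2 ≤ ε₁)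
    (hls : ∀ a : ℤ → ℂ, ∑ z ∈ PF A N, ‖∑ k ∈ Ks K, a k * ex (k * A.u z)‖ ^ 2 ≤
      Cl * (K + N) * ∑ k ∈ Ks K, ‖a k‖ ^ 2)
    (hCp : ((PS A M T N).card : ℝ) ≤ Cp * N)
    {I : Finset ℕ} {B : ℕ → Finset ℕ} {k₀ : ℕ → ℕ} {r : ℕ → El} {π : ℕ → ℕ → El}
    (hI : Blks A M N I B k₀ r π)
    (hbad : ∑ v ∈ I, ∑ p ∈ B v, (((Wv A M T (k₀ v) (r v) v N).filter (fun w =>
      Dv p (cj b (π v p)) w)).card : ℝ) ≤ Cb) :
    ∑ v ∈ I, ∑ p ∈ B v, ∑ w ∈ Wv A M T (k₀ v) (r v) v N,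
      ‖e2cE A F K ((KK K).filter (fun k => k ∈ U)) (π v p) w -
        (gg b c h (π v p) : ℂ) * (gg b c h w : ℂ)‖ ≤
      2 * (η * N + Real.sqrt (Cp * N) * Real.sqrt (Cl * (K + N) * ε₁)) +
        (1 + Real.sqrt U.card) * Cb := by
  set KU := (KK K).filter (fun k => k ∈ U) with hKU
  set KV := (KK K).filter (fun k => k ∉ U) with hKV
  have hnmπ : ∀ v ∈ I, ∀ p ∈ B v, nm b c (π v p) ≠ 0 := fun v hv p hp' =>
    (A.wd_nm _ ((hI.tp v hv).wd p hp')).ne'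
  have hnmw : ∀ v, ∀ w ∈ Wv A M T (k₀ v) (r v) v N, A.wd w ∧ QC b c (k₀ v) (r v) T w := by
    intro v w hw
    unfold Wv at hw
    rw [mem_PS] at hw
    exact ⟨hw.1, hw.2.2.1⟩
  have hgg1 : ∀ v ∈ I, ∀ p ∈ B v, ∀ w ∈ Wv A M T (k₀ v) (r v) v N,
      ‖(gg b c h (π v p) : ℂ) * (gg b c h w : ℂ)‖ = 1 := by
    intro v hv p hp' w hw
    rw [norm_mul, gg_norm hh (hnmπ v hv p hp'), gg_norm hh (A.wd_nm _ (hnmw v w hw).1).ne', one_mul]
  -- the good pairs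
  have sgood : ∑ v ∈ I, ∑ p ∈ B v, ∑ w ∈ (Wv A M T (k₀ v) (r v) v N).filter (fun w =>
      ¬ Dv p (cj b (π v p)) w), ‖e2cE A F K KU (π v p) w -
        (gg b c h (π v p) : ℂ) * (gg b c h w : ℂ)‖ ≤
      2 * ∑ m ∈ PS A M T N, (‖Fm F K (A.u m) - gg b c h m‖ +
        ‖∑ k ∈ KV, e2cc F K k * ex (k * A.u m)‖) := by
    refine pairs_le A hT hN hI
      (fun m => ‖Fm F K (A.u m) - gg b c h m‖ + ‖∑ k ∈ KV, e2cc F K k * ex (k * A.u m)‖)
      (fun m => by positivity)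
      (fun v p w => ‖e2cE A F K KU (π v p) w - (gg b c h (π v p) : ℂ) * (gg b c h w : ℂ)‖) ?_
    intro v hv p hp' w hw m hm'
    obtain ⟨m', g1, _, _, _, g5, g6, _⟩ := mq_exists A hT (hI.tp v hv) hp' (hnmw v w hw).1
      (hnmw v w hw).2
    have hmm : m = m' := e2c_sm_inj (hI.tp v hv).k1 (by rw [← hm', ← g1])
    rw [← hmm] at g5 g6
    have e1 : e2cE A F K KU (π v p) w = ∑ k ∈ KU, e2cc F K k * ex (k * A.u m) := by
      unfold e2cE
      refine Finset.sum_congr rfl fun k _ => ?_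
      rw [g6 k]
    have e2 : (gg b c h m : ℂ) = (gg b c h (π v p) : ℂ) * (gg b c h w : ℂ) := by
      rw [g5 h hh]
      push_cast
      rfl
    have e3 := e2c_split F K (A.u m) U
    rw [← hKU, ← hKV] at e3
    rw [e1, ← e2]
    have e4 : ∑ k ∈ KU, e2cc F K k * ex (k * A.u m) - (gg b c h m : ℂ) =
        (Fm F K (A.u m) - gg b c h m) - ∑ k ∈ KV, e2cc F K k * ex (k * A.u m) := by
      rw [e3]
      ring
    rw [e4]
    exact norm_sub_le _ _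
  -- the frequencies outside `U`
  have sout : ∑ m ∈ PS A M T N, ‖∑ k ∈ KV, e2cc F K k * ex (k * A.u m)‖ ≤
      Real.sqrt (Cp * N) * Real.sqrt (Cl * (K + N) * ε₁) := by
    refine (e2c_csr _ _).trans ?_
    refine mul_le_mul (Real.sqrt_le_sqrt hCp) (Real.sqrt_le_sqrt ?_) (Real.sqrt_nonneg _)
      (Real.sqrt_nonneg _)
    have e1 := hls (fun k => if k ∈ KV then e2cc F K k else 0)
    have hKVs : KV ⊆ Ks K := (Finset.filter_subset _ _).trans (e2c_KK_sub le_rfl)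
    have e2 : ∀ z : El, ∑ k ∈ Ks K, (if k ∈ KV then e2cc F K k else 0) * ex (k * A.u z) =
        ∑ k ∈ KV, e2cc F K k * ex (k * A.u z) := by
      intro z
      rw [← Finset.sum_subset hKVs]
      · refine Finset.sum_congr rfl fun k hk => ?_
        rw [if_pos hk]
      · intro k _ hk
        rw [if_neg hk, zero_mul]
    have e3 : ∑ k ∈ Ks K, ‖(if k ∈ KV then e2cc F K k else 0)‖ ^ 2 =
        ∑ k ∈ KV, ‖e2cc F K k‖ ^ 2 := by
      rw [← Finset.sum_subset hKVs]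
      · refine Finset.sum_congr rfl fun k hk => ?_
        rw [if_pos hk]
      · intro k _ hk
        rw [if_neg hk, norm_zero]
        norm_num
    simp_rw [e2] at e1
    rw [e3] at e1
    have e4 : ∑ m ∈ PS A M T N, ‖∑ k ∈ KV, e2cc F K k * ex (k * A.u m)‖ ^ 2 ≤
        ∑ z ∈ PF A N, ‖∑ k ∈ KV, e2cc F K k * ex (k * A.u z)‖ ^ 2 := by
      refine Finset.sum_le_sum_of_subset_of_nonneg ?_ (fun _ _ _ => by positivity)
      intro m hm'
      have g1 := PS_T_prim A hT hm'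
      rw [mem_PS] at hm'
      rw [mem_PF]
      exact ⟨hm'.1, hm'.2.1, g1⟩
    refine e4.trans (e1.trans ?_)
    exact mul_le_mul_of_nonneg_left hout (by positivity)
  -- the bad pairs
  have sbad : ∑ v ∈ I, ∑ p ∈ B v, ∑ w ∈ (Wv A M T (k₀ v) (r v) v N).filter (fun w =>
      Dv p (cj b (π v p)) w), ‖e2cE A F K KU (π v p) w -
        (gg b c h (π v p) : ℂ) * (gg b c h w : ℂ)‖ ≤ (1 + Real.sqrt U.card) * Cb := by
    have hKU1 : Real.sqrt KU.card ≤ Real.sqrt U.card := by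
      refine Real.sqrt_le_sqrt ?_
      have : KU ⊆ U := by
        intro k hk
        rw [hKU] at hk
        exact (Finset.mem_filter.1 hk).2
      exact_mod_cast Finset.card_le_card this
    have e1 : ∀ v ∈ I, ∀ p ∈ B v, ∑ w ∈ (Wv A M T (k₀ v) (r v) v N).filter (fun w =>
        Dv p (cj b (π v p)) w), ‖e2cE A F K KU (π v p) w -
        (gg b c h (π v p) : ℂ) * (gg b c h w : ℂ)‖ ≤ (1 + Real.sqrt U.card) *
        (((Wv A M T (k₀ v) (r v) v N).filter (fun w => Dv p (cj b (π v p)) w)).card : ℝ) := by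
      intro v hv p hp'
      have e2 := Finset.sum_le_card_nsmul ((Wv A M T (k₀ v) (r v) v N).filter (fun w =>
        Dv p (cj b (π v p)) w)) (fun w => ‖e2cE A F K KU (π v p) w -
        (gg b c h (π v p) : ℂ) * (gg b c h w : ℂ)‖) (1 + Real.sqrt U.card) ?_
      · rw [nsmul_eq_mul, mul_comm] at e2
        exact e2
      · intro w hw
        have hw' := (Finset.mem_filter.1 hw).1
        refine (norm_sub_le _ _).trans ?_
        rw [hgg1 v hv p hp' w hw', add_comm]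
        have := e2cE_norm A hK hp hm h1 (X := KU) (Finset.filter_subset _ _) (π v p) w
        linarith
    calc _ ≤ ∑ v ∈ I, ∑ p ∈ B v, (1 + Real.sqrt U.card) *
          (((Wv A M T (k₀ v) (r v) v N).filter (fun w => Dv p (cj b (π v p)) w)).card : ℝ) :=
        Finset.sum_le_sum fun v hv => Finset.sum_le_sum fun p hp' => e1 v hv p hp'
      _ = (1 + Real.sqrt U.card) * ∑ v ∈ I, ∑ p ∈ B v,
          (((Wv A M T (k₀ v) (r v) v N).filter (fun w => Dv p (cj b (π v p)) w)).card : ℝ) := by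
        simp_rw [Finset.mul_sum]
      _ ≤ _ := mul_le_mul_of_nonneg_left hbad (by positivity)
  have e5 : ∑ v ∈ I, ∑ p ∈ B v, ∑ w ∈ Wv A M T (k₀ v) (r v) v N,
      ‖e2cE A F K KU (π v p) w - (gg b c h (π v p) : ℂ) * (gg b c h w : ℂ)‖ =
      ∑ v ∈ I, ∑ p ∈ B v, ∑ w ∈ (Wv A M T (k₀ v) (r v) v N).filter (fun w =>
        ¬ Dv p (cj b (π v p)) w), ‖e2cE A F K KU (π v p) w -
        (gg b c h (π v p) : ℂ) * (gg b c h w : ℂ)‖ +
      ∑ v ∈ I, ∑ p ∈ B v, ∑ w ∈ (Wv A M T (k₀ v) (r v) v N).filter (fun w =>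
        Dv p (cj b (π v p)) w), ‖e2cE A F K KU (π v p) w -
        (gg b c h (π v p) : ℂ) * (gg b c h w : ℂ)‖ := by
    rw [← Finset.sum_add_distrib]
    refine Finset.sum_congr rfl fun v _ => ?_
    rw [← Finset.sum_add_distrib]
    refine Finset.sum_congr rfl fun p _ => ?_
    rw [add_comm, Finset.sum_filter_add_sum_filter_not]
  rw [e5]
  rw [Finset.sum_add_distrib] at sgood
  have e6 : 2 * (∑ m ∈ PS A M T N, ‖Fm F K (A.u m) - gg b c h m‖ +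
      ∑ m ∈ PS A M T N, ‖∑ k ∈ KV, e2cc F K k * ex (k * A.u m)‖) ≤
      2 * (η * N + Real.sqrt (Cp * N) * Real.sqrt (Cl * (K + N) * ε₁)) := by
    have := add_le_add hclose sout
    linarith
  exact add_le_add (sgood.trans e6) sbad

open Classical in
/-- one block -/
theorem e2c_block {h : ℕ → ℤ} (hh : Sgn h) {K e R : ℝ} {F : ℝ → ℝ} (hK : 0 < K)
    (he : 0 ≤ e) (he1 : e ≤ 1) (U : Finset ℤ) {B : Finset ℕ} {π : ℕ → El} {W : Finset El}
    (hπ : ∀ p ∈ B, nm b c (π p) ≠ 0) (hW : ∀ w ∈ W, nm b c w ≠ 0) (hW0 : 0 < (W.card : ℝ))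
    (hsum : ∑ p ∈ B, ∑ w ∈ W, ‖e2cE A F K ((KK K).filter (fun k => k ∈ U)) (π p) w -
      (gg b c h (π p) : ℂ) * (gg b c h w : ℂ)‖ ≤ e * ((B.card : ℝ) * W.card))
    (hR : R ≤ e * W.card)
    (hsp : ∀ a : ℤ → ℂ, ∑ w ∈ W, ‖∑ k ∈ (KK K).filter (fun k => k ∈ U),
      a k * ex (k * A.u w)‖ ^ 2 ≤
        (W.card + R) * ∑ k ∈ (KK K).filter (fun k => k ∈ U), ‖a k‖ ^ 2) :
    (1 - e) ^ 2 * (B.card : ℝ) ^ 2 ≤
      (1 + e) * ∑ k ∈ U, ‖fc F k‖ ^ 2 * ‖Qv A h π k B‖ ^ 2 := by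
  set KU := (KK K).filter (fun k => k ∈ U) with hKU
  set S := ∑ k ∈ U, ‖fc F k‖ ^ 2 * ‖Qv A h π k B‖ ^ 2 with hS
  have hS0 : 0 ≤ S := Finset.sum_nonneg fun _ _ => by positivity
  have hone : ∀ v : El, nm b c v ≠ 0 → (gg b c h v : ℂ) * (gg b c h v : ℂ) = 1 := by
    intro v hv
    rcases gg_pm hh hv with h2 | h2 <;> rw [h2] <;> norm_num
  -- lower bound
  have s1 : (1 - e) * ((B.card : ℝ) * W.card) ≤
      ‖∑ p ∈ B, ∑ w ∈ W, ((gg b c h (π p) : ℂ) * (gg b c h w : ℂ)) * e2cE A F K KU (π p) w‖ := by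
    have e1 : ((B.card : ℂ) * W.card) = ∑ p ∈ B, ∑ w ∈ W,
        ((gg b c h (π p) : ℂ) * (gg b c h w : ℂ)) * ((gg b c h (π p) : ℂ) * (gg b c h w : ℂ)) := by
      have e2 : ∀ p ∈ B, ∀ w ∈ W, ((gg b c h (π p) : ℂ) * (gg b c h w : ℂ)) *
          ((gg b c h (π p) : ℂ) * (gg b c h w : ℂ)) = 1 := by
        intro p hp w hw
        have g1 := hone _ (hπ p hp)
        have g2 := hone _ (hW w hw)
        calc _ = ((gg b c h (π p) : ℂ) * (gg b c h (π p) : ℂ)) *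
              ((gg b c h w : ℂ) * (gg b c h w : ℂ)) := by ring
          _ = 1 := by rw [g1, g2, one_mul]
      rw [Finset.sum_congr rfl (fun p hp => Finset.sum_congr rfl (e2 p hp))]
      simp
    have e3 : ‖∑ p ∈ B, ∑ w ∈ W, ((gg b c h (π p) : ℂ) * (gg b c h w : ℂ)) *
        e2cE A F K KU (π p) w - ((B.card : ℂ) * W.card)‖ ≤ e * ((B.card : ℝ) * W.card) := by
      rw [e1, ← Finset.sum_sub_distrib]
      refine le_trans ?_ hsum
      refine norm_sum_le_of_le _ (fun p hp => ?_)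
      rw [← Finset.sum_sub_distrib]
      refine norm_sum_le_of_le _ (fun w hw => ?_)
      rw [← mul_sub, norm_mul, norm_mul, gg_norm hh (hπ p hp), gg_norm hh (hW w hw), one_mul,
        one_mul]
    have e4 : ‖((B.card : ℂ) * W.card)‖ = (B.card : ℝ) * W.card := by
      rw [norm_mul]
      simp
    have e5 := norm_sub_le (∑ p ∈ B, ∑ w ∈ W, ((gg b c h (π p) : ℂ) * (gg b c h w : ℂ)) *
        e2cE A F K KU (π p) w) (∑ p ∈ B, ∑ w ∈ W, ((gg b c h (π p) : ℂ) * (gg b c h w : ℂ)) *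
        e2cE A F K KU (π p) w - ((B.card : ℂ) * W.card))
    rw [sub_sub_cancel, e4] at e5
    linarith
  -- the sum over `w`
  have s2 : ∑ p ∈ B, ∑ w ∈ W, ((gg b c h (π p) : ℂ) * (gg b c h w : ℂ)) *
      e2cE A F K KU (π p) w = ∑ w ∈ W, (gg b c h w : ℂ) *
        ∑ k ∈ KU, (e2cc F K k * Qv A h π k B) * ex (k * A.u w) := by
    rw [Finset.sum_comm]
    refine Finset.sum_congr rfl fun w _ => ?_
    unfold e2cE Qv
    simp_rw [Finset.mul_sum, Finset.sum_mul]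
    rw [Finset.sum_comm]
    refine Finset.sum_congr rfl fun k _ => ?_
    rw [Finset.mul_sum]
    refine Finset.sum_congr rfl fun p _ => ?_
    ring
  have s3 : ∑ k ∈ KU, ‖e2cc F K k * Qv A h π k B‖ ^ 2 ≤ S := by
    have e1 : ∑ k ∈ KU, ‖e2cc F K k * Qv A h π k B‖ ^ 2 ≤
        ∑ k ∈ KU, ‖fc F k‖ ^ 2 * ‖Qv A h π k B‖ ^ 2 := by
      refine Finset.sum_le_sum fun k hk => ?_
      rw [norm_mul, mul_pow]
      exact mul_le_mul_of_nonneg_right (pow_le_pow_left₀ (norm_nonneg _)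
        (e2cc_le hK ((Finset.filter_subset _ _) hk)) 2) (by positivity)
    refine e1.trans (Finset.sum_le_sum_of_subset_of_nonneg ?_ (fun _ _ _ => by positivity))
    intro k hk
    exact (Finset.mem_filter.1 hk).2
  have s4 : ‖∑ w ∈ W, (gg b c h w : ℂ) *
      ∑ k ∈ KU, (e2cc F K k * Qv A h π k B) * ex (k * A.u w)‖ ≤
        W.card * Real.sqrt ((1 + e) * S) := by
    refine (e2c_cs _ _ _).trans ?_
    have e1 : ∑ w ∈ W, ‖(gg b c h w : ℂ)‖ ^ 2 = W.card := by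
      have : ∀ w ∈ W, ‖(gg b c h w : ℂ)‖ ^ 2 = 1 := by
        intro w hw
        rw [gg_norm hh (hW w hw), one_pow]
      rw [Finset.sum_congr rfl this]
      simp
    have e2 := hsp (fun k => e2cc F K k * Qv A h π k B)
    have e3 : ((W.card : ℝ) + R) * ∑ k ∈ KU, ‖e2cc F K k * Qv A h π k B‖ ^ 2 ≤
        W.card * ((1 + e) * S) := by
      calc ((W.card : ℝ) + R) * ∑ k ∈ KU, ‖e2cc F K k * Qv A h π k B‖ ^ 2 ≤
            ((W.card : ℝ) + e * W.card) * ∑ k ∈ KU, ‖e2cc F K k * Qv A h π k B‖ ^ 2 := by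
            refine mul_le_mul_of_nonneg_right (by linarith) ?_
            exact Finset.sum_nonneg fun _ _ => by positivity
        _ ≤ ((W.card : ℝ) + e * W.card) * S := mul_le_mul_of_nonneg_left s3 (by positivity)
        _ = _ := by ring
    rw [e1]
    calc Real.sqrt W.card * Real.sqrt (∑ w ∈ W, ‖∑ k ∈ KU,
          (e2cc F K k * Qv A h π k B) * ex (k * A.u w)‖ ^ 2) ≤
          Real.sqrt W.card * Real.sqrt (W.card * ((1 + e) * S)) :=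
          mul_le_mul_of_nonneg_left (Real.sqrt_le_sqrt (e2.trans e3)) (Real.sqrt_nonneg _)
      _ = _ := by
          rw [Real.sqrt_mul hW0.le, ← mul_assoc, Real.mul_self_sqrt hW0.le]
  have s5 : (1 - e) * (B.card : ℝ) ≤ Real.sqrt ((1 + e) * S) := by
    rw [s2] at s1
    have e1 := s1.trans s4
    have e2 : (W.card : ℝ) * ((1 - e) * (B.card : ℝ)) ≤ W.card * Real.sqrt ((1 + e) * S) := by
      calc (W.card : ℝ) * ((1 - e) * (B.card : ℝ)) = (1 - e) * ((B.card : ℝ) * W.card) := by ring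
        _ ≤ _ := e1
    exact le_of_mul_le_mul_left e2 hW0
  have s6 : ((1 - e) * (B.card : ℝ)) ^ 2 ≤ (1 + e) * S := by
    have e1 : 0 ≤ (1 - e) * (B.card : ℝ) := mul_nonneg (by linarith) (Nat.cast_nonneg _)
    have e2 := pow_le_pow_left₀ e1 s5 2
    rwa [Real.sq_sqrt (by positivity)] at e2
  calc (1 - e) ^ 2 * (B.card : ℝ) ^ 2 = ((1 - e) * (B.card : ℝ)) ^ 2 := by ring
    _ ≤ _ := s6

theorem e2c_LocH_mono {h : ℕ → ℤ} {N H H' ε ε' : ℝ} {F : ℝ → ℝ} (hN : 0 ≤ N) (hH : 0 < H)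
    (hHH : H ≤ H') (hε : ε' ≤ ε) (hF : LocH A h M T N H' ε' F) : LocH A h M T N H ε F := by
  refine ⟨hF.per, hF.meas, hF.pm, ?_, ?_⟩
  · obtain ⟨J, h1, h2⟩ := hF.jump
    exact ⟨J, h1.trans (div_le_div_of_nonneg_left hN hH hHH), h2⟩
  · exact hF.good.trans (mul_le_mul_of_nonneg_right hε hN)

open Classical in
theorem e2c_out {F : ℝ → ℝ} (hp : ∀ t, F (t + 1) = F t) (hm : Measurable F)
    (h1 : ∀ t, F t = 1 ∨ F t = -1) {K ε₁ : ℝ} (hK : 0 < K) {U : Finset ℤ}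
    (hU : 1 - ε₁ ≤ ∑ k ∈ U, ‖fc F k‖ ^ 2) :
    ∑ k ∈ (KK K).filter (fun k => k ∉ U), ‖e2cc F K k‖ ^ 2 ≤ ε₁ := by
  have h2 := e2cc_sum (F := F) hK (U := (KK K).filter (fun k => k ∉ U)) (Finset.filter_subset _ _)
  have h3 : Disjoint ((KK K).filter (fun k => k ∉ U)) U := by
    rw [Finset.disjoint_left]
    intro k hk
    exact (Finset.mem_filter.1 hk).2
  have h4 := e2c_pars hp hm h1 ((KK K).filter (fun k => k ∉ U) ∪ U)
  rw [Finset.sum_union h3] at h4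
  linarith

theorem e2c_last {e ε₂ Q S : ℝ} (he0 : 0 < e) (he3 : 3 * e ≤ ε₂) (hQ0 : 0 ≤ Q)
    (h : (1 - e) ^ 2 * Q ≤ (1 + e) * S) : (1 - ε₂) * Q ≤ S := by
  have g1 : (1 + e) * ((1 - 3 * e) * Q) ≤ (1 + e) * S := by
    refine le_trans ?_ h
    have g2 : (1 + e) * (1 - 3 * e) ≤ (1 - e) ^ 2 := by nlinarith [sq_nonneg e]
    calc (1 + e) * ((1 - 3 * e) * Q) = ((1 + e) * (1 - 3 * e)) * Q := by ring
      _ ≤ (1 - e) ^ 2 * Q := by gcongr
  have g3 : (1 - 3 * e) * Q ≤ S := le_of_mul_le_mul_left g1 (by linarith)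
  refine le_trans ?_ g3
  gcongr

theorem e2c_num {e c₂ Cp Cl N K : ℝ} (he : 0 < e) (hc₂ : 0 < c₂) (hCp : 1 ≤ Cp) (hCl : 1 ≤ Cl)
    (hN : 1 ≤ N) (_hK0 : 0 ≤ K) (hK : K ≤ N) :
    Real.sqrt (Cp * N) * Real.sqrt (Cl * (K + N) * (e ^ 2 * c₂ ^ 2 / (128 * Cp * Cl))) ≤
      e * c₂ / 8 * N := by
  have hCp0 : 0 < Cp := by linarith
  have hCl0 : 0 < Cl := by linarith
  rw [← Real.sqrt_mul (by positivity)]
  apply Real.sqrt_le_iff.2
  constructor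
  · positivity
  · calc Cp * N * (Cl * (K + N) * (e ^ 2 * c₂ ^ 2 / (128 * Cp * Cl))) ≤
          Cp * N * (Cl * (N + N) * (e ^ 2 * c₂ ^ 2 / (128 * Cp * Cl))) := by gcongr
      _ = (e * c₂ / 8 * N) ^ 2 := by
        field_simp
        ring

end

section
variable {b c : ℤ} (A : Ang b c) (hs : ¬ IsSquare (dsc b c)) {M : ℕ} {T : El → Prop}
include hs

open Classical in
theorem bilin_pr (hT : Cls A M T) (hM : GoodM A M) : ∃ c₁ : ℝ, 0 < c₁ ∧ ∀ ε₂ : ℝ, 0 < ε₂ →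
    ∃ ε H N₀ : ℝ, 0 < ε ∧ 16 ≤ H ∧ ∀ N : ℝ, N₀ ≤ N → ∀ h : ℕ → ℤ, Sgn h → ∀ F : ℝ → ℝ,
      LocH A h M T N H ε F → ∃ (U : Finset ℤ) (P : ℝ) (B : Finset ℕ) (k₀ : ℕ) (r : El)
        (π : ℕ → El), U ⊆ Ks N ∧ N ^ (9 / 25 : ℝ) ≤ P ∧ P ≤ N ^ (2 / 5 : ℝ) ∧ TP A M B k₀ r π ∧
        (∀ p ∈ B, P < (p : ℝ) ∧ (p : ℝ) ≤ 2 * P) ∧ c₁ * (P / Real.log P) ≤ (B.card : ℝ) ∧
        (1 - ε₂) * (B.card : ℝ) ^ 2 ≤ ∑ k ∈ U, ‖fc F k‖ ^ 2 * ‖Qv A h π k B‖ ^ 2 := by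
  obtain ⟨c₁, c₂, Nt, hc₁, hc₂, hNt2, htr⟩ := triples A hT hM
  refine ⟨c₁, hc₁, fun ε₂ hε₂ => ?_⟩
  obtain ⟨Cf, hCf1, hCf⟩ := fm_close A hT
  obtain ⟨Cp, hCp1, hCp⟩ := PS_card A
  obtain ⟨Cb, hCb1, hCb⟩ := bad_pairs A hT
  obtain ⟨Cl, hCl1, hCl⟩ := lsieve A
  obtain ⟨κ, hκ0, hκ1, hκ⟩ := sparse A
  have hX : ∀ q : ℕ, ∃ X₀ : ℝ, 1 ≤ q → 1 ≤ X₀ ∧
      ∀ V : El → Prop, Per q V → ∀ X : ℝ, X₀ ≤ X → ∀ U : Finset ℤ, U ⊆ Ks (X ^ 2 / 2) →
      ∀ a : ℤ → ℂ, ∑ v ∈ PS A q V X, ‖∑ k ∈ U, a k * ex (k * A.u v)‖ ^ 2 ≤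
        ((PS A q V X).card + U.card * X ^ (1 - κ)) * ∑ k ∈ U, ‖a k‖ ^ 2 := by
    intro q
    rcases Nat.lt_or_ge q 1 with hq | hq
    · exact ⟨0, fun h => absurd h (by omega)⟩
    · obtain ⟨X₀, g1, g2⟩ := hκ q hq
      exact ⟨X₀, fun _ => ⟨g1, g2⟩⟩
  choose Xs hXs using hX
  set Xm : ℝ := ∑ j ∈ Finset.range (M + 1), |Xs (M * j)| with hXm
  set e : ℝ := min ε₂ 1 / 3 with he
  have he0 : 0 < e := by
    rw [he]
    have : 0 < min ε₂ 1 := lt_min hε₂ one_pos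
    linarith
  have he3 : 3 * e ≤ ε₂ := by
    rw [he]
    have := min_le_left ε₂ 1
    linarith
  have he1 : e ≤ 1 := by
    rw [he]
    have := min_le_right ε₂ 1
    linarith
  have hCp0 : 0 < Cp := by linarith
  have hCl0 : 0 < Cl := by linarith
  have hCf0 : 0 < Cf := by linarith
  have hCb0 : 0 < Cb := by linarith
  set ε₁ : ℝ := e ^ 2 * c₂ ^ 2 / (128 * Cp * Cl) with hε₁
  have hε₁0 : 0 < ε₁ := by positivity
  set α : ℝ := min (1 / 5) (3 * κ / 10) with hα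
  have hα0 : 0 < α := lt_min (by norm_num) (by linarith)
  have hα5 : α ≤ 1 / 5 := min_le_left _ _
  have hακ : α ≤ 3 * κ / 10 := min_le_right _ _
  obtain ⟨ε', H', N', hε'0, hH'16, hms⟩ := mass_sparse A hs hT hM α ε₁ hα0 hε₁0
  set ε : ℝ := min ε' (e * c₂ / (8 * Cf)) with hε
  have hε0 : 0 < ε := lt_min hε'0 (by positivity)
  set H : ℝ := max H' ((8 * Cf / (e * c₂)) ^ 4) with hH
  have hHH' : H' ≤ H := le_max_left _ _
  have hHε : (8 * Cf / (e * c₂)) ^ 4 ≤ H := le_max_right _ _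
  have hH16 : 16 ≤ H := hH'16.trans hHH'
  have hH0 : 0 < H := by linarith
  have hev : ∀ᶠ N : ℝ in atTop, (2 ≤ N ∧ N' ≤ N ∧ H ≤ N ∧ Nt ≤ N) ∧ Xm ≤ N ^ (3 / 5 : ℝ) ∧
      2 ≤ N ^ (1 / 5 : ℝ) ∧ 8 * Cb / (e * c₂) ≤ N ^ (13 / 50 : ℝ) ∧
      M / (2 * c₂ * e) ≤ N ^ (3 * κ / 10 : ℝ) := by
    filter_upwards [eventually_ge_atTop (2 : ℝ), eventually_ge_atTop N', eventually_ge_atTop H,
      eventually_ge_atTop Nt,
      (tendsto_rpow_atTop (by norm_num : (0 : ℝ) < 3 / 5)).eventually_ge_atTop Xm,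
      (tendsto_rpow_atTop (by norm_num : (0 : ℝ) < 1 / 5)).eventually_ge_atTop 2,
      (tendsto_rpow_atTop (by norm_num : (0 : ℝ) < 13 / 50)).eventually_ge_atTop
        (8 * Cb / (e * c₂)),
      (tendsto_rpow_atTop (by positivity : (0 : ℝ) < 3 * κ / 10)).eventually_ge_atTop
        (M / (2 * c₂ * e))] with N g1 g2 g3 g4 g5 g6 g7 g8
    exact ⟨⟨g1, g2, g3, g4⟩, g5, g6, g7, g8⟩
  obtain ⟨N₀, hN₀⟩ := eventually_atTop.1 hev
  refine ⟨ε, H, N₀, hε0, hH16, ?_⟩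
  intro N hN h hh F hF
  obtain ⟨⟨hN2, hNN', hNH, hNt⟩, hNX, hN5, hNb, hNκ⟩ := hN₀ N hN
  have hN1 : 1 ≤ N := by linarith
  have hN0 : 0 < N := by linarith
  obtain ⟨U, hU1, hU2, hU3⟩ := hms N hNN' h hh F
    (e2c_LocH_mono A hN0.le (by linarith) hHH' (min_le_left _ _) hF)
  have hclose := hCf h hh N H ε F hH16 hNH hε0.le hF
  set K : ℝ := N / Real.sqrt H with hK
  have hsH : 0 < Real.sqrt H := Real.sqrt_pos.2 hH0
  have hK0 : 0 < K := by positivity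
  have hKN : K ≤ N := by
    rw [hK]
    refine div_le_self hN0.le ?_
    rw [Real.one_le_sqrt]
    linarith
  obtain ⟨I, B, k₀, r, π, hI, hBc, hWc, htot⟩ := htr N hNt
  have hINe : I.Nonempty := by
    rw [Finset.nonempty_iff_ne_empty]
    intro h0
    rw [h0, Finset.sum_empty] at htot
    have : 0 < c₂ * N := by positivity
    linarith
  have hout := e2c_out hF.per hF.meas hF.pm hK0 hU3
  have hsum := e2c_sum A hT hh (N := N) (K := K) (η := Cf * (ε + H ^ (-(1 / 4) : ℝ))) (ε₁ := ε₁)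
    (Cl := Cl) (Cp := Cp) (Cb := Cb * N ^ (16 / 25 : ℝ)) hF.per hF.meas hF.pm hN1 hK0 hCl0.le
    hclose U hout (hCl K N hK0.le hN1).2 (hCp M T N hN0.le) hI (hCb N hN1 I B k₀ r π hI)
  -- the error terms
  have hHq : Cf * (ε + H ^ (-(1 / 4) : ℝ)) ≤ e * c₂ / 4 := by
    have g1 : 8 * Cf / (e * c₂) ≤ H ^ (1 / 4 : ℝ) := by
      have e2 : ((8 * Cf / (e * c₂)) ^ 4) ^ (1 / 4 : ℝ) = 8 * Cf / (e * c₂) := by
        rw [← Real.rpow_natCast, ← Real.rpow_mul (by positivity)]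
        norm_num
      rw [← e2]
      exact Real.rpow_le_rpow (by positivity) hHε (by norm_num)
    have g2 : H ^ (-(1 / 4) : ℝ) ≤ e * c₂ / (8 * Cf) := by
      rw [Real.rpow_neg hH0.le]
      calc (H ^ (1 / 4 : ℝ))⁻¹ ≤ (8 * Cf / (e * c₂))⁻¹ := inv_anti₀ (by positivity) g1
        _ = _ := by rw [inv_div]
    have g3 : ε ≤ e * c₂ / (8 * Cf) := min_le_right _ _
    calc Cf * (ε + H ^ (-(1 / 4) : ℝ)) ≤ Cf * (e * c₂ / (8 * Cf) + e * c₂ / (8 * Cf)) := by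
          gcongr
      _ = e * c₂ / 4 := by
        field_simp
        ring
  have hbadN : (1 + Real.sqrt U.card) * (Cb * N ^ (16 / 25 : ℝ)) ≤ e * c₂ / 4 * N := by
    have g1 : Real.sqrt U.card ≤ N ^ (1 / 10 : ℝ) := by
      apply Real.sqrt_le_iff.2
      constructor
      · positivity
      · refine hU2.trans ?_
        rw [← Real.rpow_natCast (N ^ (1 / 10 : ℝ)) 2, ← Real.rpow_mul hN0.le]
        refine Real.rpow_le_rpow_of_exponent_le hN1 ?_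
        norm_num
        linarith
    have g2 : (1 : ℝ) ≤ N ^ (1 / 10 : ℝ) := Real.one_le_rpow hN1 (by norm_num)
    have g3 : N ^ (37 / 50 : ℝ) * N ^ (13 / 50 : ℝ) = N := by
      rw [← Real.rpow_add hN0]
      norm_num
    have g4 : N ^ (1 / 10 : ℝ) * N ^ (16 / 25 : ℝ) = N ^ (37 / 50 : ℝ) := by
      rw [← Real.rpow_add hN0]
      norm_num
    calc (1 + Real.sqrt U.card) * (Cb * N ^ (16 / 25 : ℝ)) ≤
          (N ^ (1 / 10 : ℝ) + N ^ (1 / 10 : ℝ)) * (Cb * N ^ (16 / 25 : ℝ)) := by gcongr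
      _ = 2 * Cb * (N ^ (1 / 10 : ℝ) * N ^ (16 / 25 : ℝ)) := by ring
      _ = 2 * Cb * N ^ (37 / 50 : ℝ) := by rw [g4]
      _ = e * c₂ / 4 * ((8 * Cb / (e * c₂)) * N ^ (37 / 50 : ℝ)) := by
          field_simp
          ring
      _ ≤ e * c₂ / 4 * (N ^ (13 / 50 : ℝ) * N ^ (37 / 50 : ℝ)) := by gcongr
      _ = e * c₂ / 4 * N := by rw [mul_comm (N ^ (13 / 50 : ℝ)), g3]
  have hnum := e2c_num he0 hc₂ hCp1 hCl1 hN1 hK0.le hKN
  rw [← hε₁] at hnum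
  have htotal : ∑ v ∈ I, ∑ p ∈ B v, ∑ w ∈ Wv A M T (k₀ v) (r v) v N,
      ‖e2cE A F K ((KK K).filter (fun k => k ∈ U)) (π v p) w -
        (gg b c h (π v p) : ℂ) * (gg b c h w : ℂ)‖ ≤
      ∑ v ∈ I, e * (((B v).card : ℝ) * (Wv A M T (k₀ v) (r v) v N).card) := by
    have g1 : Cf * (ε + H ^ (-(1 / 4) : ℝ)) * N ≤ e * c₂ / 4 * N := by gcongr
    have g2 : e * (c₂ * N) ≤ e * ∑ v ∈ I, ((B v).card : ℝ) *
        (Wv A M T (k₀ v) (r v) v N).card := by gcongr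
    rw [← Finset.mul_sum]
    refine hsum.trans (le_trans ?_ g2)
    linarith
  obtain ⟨v, hv, hvs⟩ := Finset.exists_le_of_sum_le hINe htotal
  have htp := hI.tp v hv
  have h2v : (0 : ℝ) < 2 ^ v := by positivity
  have h2v1 : (2 : ℝ) ^ (v + 1) = 2 * 2 ^ v := by ring
  -- the second factors
  set x : ℝ := k₀ v * N / 2 ^ (v + 1) with hx
  have hk1 : (1 : ℝ) ≤ k₀ v := by exact_mod_cast htp.k1
  have hxN : N ^ (3 / 5 : ℝ) ≤ x := by
    have g1 : N ^ (3 / 5 : ℝ) * N ^ (2 / 5 : ℝ) = N := by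
      rw [← Real.rpow_add hN0]
      norm_num
    rw [hx, le_div_iff₀ (by positivity)]
    calc N ^ (3 / 5 : ℝ) * 2 ^ (v + 1) ≤ N ^ (3 / 5 : ℝ) * N ^ (2 / 5 : ℝ) := by
          gcongr
          exact hI.hi v hv
      _ = 1 * N := by rw [g1, one_mul]
      _ ≤ k₀ v * N := by gcongr
  have hx1 : 1 ≤ x := (Real.one_le_rpow hN1 (by norm_num)).trans hxN
  have hx0 : 0 < x := by linarith
  set W := Wv A M T (k₀ v) (r v) v N with hW
  have hWx : W = PS A (M * k₀ v) (QC b c (k₀ v) (r v) T) x := rfl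
  have hM0 : 1 ≤ M := hT.M1
  have hMr : (0 : ℝ) < M := by exact_mod_cast hM0
  have hkM : k₀ v ≤ M := Nat.le_of_dvd hM0 htp.kM
  have hkM' : (k₀ v : ℝ) ≤ M := by exact_mod_cast hkM
  have hWlow : 2 * c₂ * x / M ≤ (W.card : ℝ) := by
    refine le_trans ?_ (hWc v hv)
    have g1 : c₂ * (N / 2 ^ v) = 2 * c₂ * x / k₀ v := by
      rw [hx, h2v1]
      field_simp
    rw [g1]
    exact div_le_div_of_nonneg_left (by positivity) (by linarith) hkM'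
  have hW0 : 0 < (W.card : ℝ) := lt_of_lt_of_le (by positivity) hWlow
  have hXx : Xs (M * k₀ v) ≤ x := by
    have g1 : |Xs (M * k₀ v)| ≤ Xm := by
      rw [hXm]
      exact Finset.single_le_sum (f := fun j => |Xs (M * j)|) (fun j _ => abs_nonneg _)
        (Finset.mem_range.2 (by omega))
    exact (le_abs_self _).trans (g1.trans (hNX.trans hxN))
  have hx2 : 2 * N ≤ x ^ 2 := by
    have g1 : (N ^ (3 / 5 : ℝ)) ^ 2 = N * N ^ (1 / 5 : ℝ) := by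
      rw [← Real.rpow_natCast, ← Real.rpow_mul hN0.le]
      nth_rewrite 2 [← Real.rpow_one N]
      rw [← Real.rpow_add hN0]
      norm_num
    calc 2 * N = N * 2 := by ring
      _ ≤ N * N ^ (1 / 5 : ℝ) := by gcongr
      _ = (N ^ (3 / 5 : ℝ)) ^ 2 := g1.symm
      _ ≤ x ^ 2 := pow_le_pow_left₀ (by positivity) hxN 2
  set KU := (KK K).filter (fun k => k ∈ U) with hKU
  have hKUs : KU ⊆ Ks (x ^ 2 / 2) := by
    refine (Finset.filter_subset _ _).trans (e2c_KK_sub ?_)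
    linarith
  have hsp := (hXs (M * k₀ v) (Nat.mul_pos hM0 htp.k1)).2 (QC b c (k₀ v) (r v) T)
    (QC_per hT.per (k₀ v) htp.k1 (r v)) x hXx KU hKUs
  have hR : (KU.card : ℝ) * x ^ (1 - κ) ≤ e * W.card := by
    have g1 : (KU.card : ℝ) ≤ N ^ α := by
      refine le_trans ?_ hU2
      have : KU ⊆ U := by
        intro k hk
        rw [hKU] at hk
        exact (Finset.mem_filter.1 hk).2
      exact_mod_cast Finset.card_le_card this
    have g2 : N ^ α ≤ x ^ (κ / 2) := by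
      calc N ^ α ≤ N ^ (3 * κ / 10) := Real.rpow_le_rpow_of_exponent_le hN1 hακ
        _ = (N ^ (3 / 5 : ℝ)) ^ (κ / 2) := by
          rw [← Real.rpow_mul hN0.le]
          congr 1
          ring
        _ ≤ x ^ (κ / 2) := Real.rpow_le_rpow (by positivity) hxN (by positivity)
    have g3 : x ^ (-(κ / 2)) ≤ (N ^ (3 * κ / 10))⁻¹ := by
      have g4 : N ^ (3 * κ / 10) ≤ x ^ (κ / 2) := by
        calc N ^ (3 * κ / 10) = (N ^ (3 / 5 : ℝ)) ^ (κ / 2) := by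
              rw [← Real.rpow_mul hN0.le]
              congr 1
              ring
          _ ≤ x ^ (κ / 2) := Real.rpow_le_rpow (by positivity) hxN (by positivity)
      rw [Real.rpow_neg hx0.le]
      exact inv_anti₀ (by positivity) g4
    have g5 : x ^ (κ / 2) * x ^ (1 - κ) = x ^ (-(κ / 2)) * x := by
      nth_rewrite 4 [← Real.rpow_one x]
      rw [← Real.rpow_add hx0, ← Real.rpow_add hx0]
      congr 1
      ring
    have g6 : (N ^ (3 * κ / 10))⁻¹ ≤ 2 * c₂ * e / M := by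
      calc (N ^ (3 * κ / 10))⁻¹ ≤ (M / (2 * c₂ * e))⁻¹ := inv_anti₀ (by positivity) hNκ
        _ = _ := by rw [inv_div]
    calc (KU.card : ℝ) * x ^ (1 - κ) ≤ x ^ (κ / 2) * x ^ (1 - κ) := by
          gcongr
          exact g1.trans g2
      _ = x ^ (-(κ / 2)) * x := g5
      _ ≤ (2 * c₂ * e / M) * x := by
          gcongr
          exact g3.trans g6
      _ = e * (2 * c₂ * x / M) := by ring
      _ ≤ e * W.card := by gcongr
  have hfin := e2c_block A hh (K := K) (e := e) (R := KU.card * x ^ (1 - κ)) (F := F) hK0 he0.le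
    he1 U (B := B v) (π := π v) (W := W)
    (fun p hp => (A.wd_nm _ (htp.wd p hp)).ne')
    (fun w hw => by
      rw [hWx, mem_PS] at hw
      exact (A.wd_nm _ hw.1).ne') hW0 hvs hR hsp
  refine ⟨U, 2 ^ v, B v, k₀ v, r v, π v, hU1, hI.lo v hv, ?_, htp, ?_, hBc v hv, ?_⟩
  · refine le_trans ?_ (hI.hi v hv)
    rw [h2v1]
    linarith
  · intro p hp
    obtain ⟨g1, g2⟩ := hI.rng v hv p hp
    exact ⟨g1, by rw [← h2v1]; exact g2⟩
  · exact e2c_last he0 he3 (sq_nonneg _) hfin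

end

theorem bilin : type_of% @bilin_pr := @bilin_pr

end Pool.Agent.AQM
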