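import Pool.Agent.Lib_helper39.AQM.Defs
import Pool.Agent.Lib_helper39.AQM.AB
import Pool.Agent.Lib_helper39.MQX.ALG
import Pool.Agent.Lib_helper39.MQX.SBA
import Pool.Agent.Lib_helper39.MQX.SBB
import Pool.Agent.Lib_helper39.MQX.SBC
import Pool.Agent.Lib_helper39.MQX.LSV
import Pool.Agent.Lib_helper39.MQX.PAR
import Pool.Agent.Lib_helper39.MQX.FEJ
import Pool.Agent.Lib_helper39.MQX.EXP
import Pool.Agent.Lib_helper39.AQMF.CN2
import Pool.Agent.Lib_helper39.AQMF.EL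

/-! block MJ1 of AQM, proved by helper67 -/

/-! # AQM, block MJ1: sums over `d ∣ nm z` -/

set_option autoImplicit false

namespace Pool.Agent.AQM

open Pool.Agent.MQ Pool.Agent.T2 Filter Topology MeasureTheory

theorem mj1_id (b c t : ℤ) (z : El) :
    nm b c z = dt z (t, 1) * dt z (-b - t, 1) + z.2 ^ 2 * fv b c t := by
  simp only [nm, fv, dt]
  ring

theorem mj1_nm (b c t : ℤ) : nm b c (t, 1) = fv b c t := by
  simp only [nm, fv]
  ring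

theorem mj1_nm' (b c t : ℤ) : nm b c (-b - t, 1) = fv b c t := by
  simp only [nm, fv]
  ring

theorem mj1_or {b c t : ℤ} {l : ℕ} (hl : l.Prime) (ht : (l : ℤ) ∣ fv b c t) (z : El) :
    (l : ℤ) ∣ nm b c z ↔ (l : ℤ) ∣ dt z (t, 1) ∨ (l : ℤ) ∣ dt z (-b - t, 1) := by
  have hp := Nat.prime_iff_prime_int.1 hl
  rw [mj1_id b c t z, ← hp.dvd_mul]
  constructor
  · intro h
    exact (dvd_add_left (Dvd.dvd.mul_left ht _)).1 h
  · intro h
    exact dvd_add h (Dvd.dvd.mul_left ht _)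

theorem mj1_and {b c t : ℤ} {l : ℕ} (hl : l.Prime) (hD : ¬ (l : ℤ) ∣ dsc b c)
    (ht : (l : ℤ) ∣ fv b c t) (z : El) :
    ((l : ℤ) ∣ dt z (t, 1) ∧ (l : ℤ) ∣ dt z (-b - t, 1)) ↔ dv l z := by
  have hp := Nat.prime_iff_prime_int.1 hl
  constructor
  · rintro ⟨h1, h2⟩
    have h3 : (l : ℤ) ∣ (2 * t + b) * z.2 := by
      have h4 := dvd_sub h2 h1
      have h5 : dt z (-b - t, 1) - dt z (t, 1) = (2 * t + b) * z.2 := by
        simp only [dt]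
        ring
      rwa [h5] at h4
    have h6 : ¬ (l : ℤ) ∣ 2 * t + b := by
      intro h
      apply hD
      have h7 : dsc b c = (2 * t + b) * (2 * t + b) - 4 * fv b c t := by
        simp only [dsc, fv]
        ring
      rw [h7]
      exact dvd_sub (Dvd.dvd.mul_left h _) (Dvd.dvd.mul_left ht _)
    have h8 : (l : ℤ) ∣ z.2 := (hp.dvd_or_dvd h3).resolve_left h6
    refine ⟨?_, h8⟩
    have h9 : z.1 = dt z (t, 1) + t * z.2 := by
      simp only [dt]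
      ring
    rw [h9]
    exact dvd_add h1 (Dvd.dvd.mul_left h8 _)
  · rintro ⟨h1, h2⟩
    constructor
    · simp only [dt]
      exact dvd_sub (Dvd.dvd.mul_right h1 _) (Dvd.dvd.mul_right h2 _)
    · simp only [dt]
      exact dvd_sub (Dvd.dvd.mul_right h1 _) (Dvd.dvd.mul_right h2 _)

theorem mj1_nm_cong {b c n : ℤ} {v w : El} (h : dv n (v - w)) : n ∣ nm b c v - nm b c w := by
  obtain ⟨h1, h2⟩ := h
  have h3 : nm b c v - nm b c w = (v - w).1 * (v.1 + w.1 + b * v.2) +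
      (v - w).2 * (b * w.1 + c * (v.2 + w.2)) := by
    simp only [nm, Prod.fst_sub, Prod.snd_sub]
    ring
  rw [h3]
  exact dvd_add (Dvd.dvd.mul_right h1 _) (Dvd.dvd.mul_right h2 _)

theorem mj1_dt_cong {n : ℤ} {v w : El} (h : dv n (v - w)) (z : El) : n ∣ dt z v - dt z w := by
  obtain ⟨h1, h2⟩ := h
  have h3 : dt z v - dt z w = z.1 * (v - w).2 - z.2 * (v - w).1 := by
    simp only [dt, Prod.fst_sub, Prod.snd_sub]
    ring
  rw [h3]
  exact dvd_sub (Dvd.dvd.mul_left h2 _) (Dvd.dvd.mul_left h1 _)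

theorem mj1_crt {m n : ℕ} (h : Nat.Coprime m n) (v w : El) :
    ∃ r : El, dv m (r - v) ∧ dv n (r - w) := by
  have h1 : IsCoprime (m : ℤ) (n : ℤ) := Nat.isCoprime_iff_coprime.2 h
  obtain ⟨x, y, hxy⟩ := h1
  refine ⟨(v.1 * (y * n) + w.1 * (x * m), v.2 * (y * n) + w.2 * (x * m)), ⟨?_, ?_⟩, ⟨?_, ?_⟩⟩
  · refine ⟨x * (w.1 - v.1), ?_⟩
    simp only [Prod.fst_sub]
    linear_combination v.1 * hxy
  · refine ⟨x * (w.2 - v.2), ?_⟩
    simp only [Prod.snd_sub]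
    linear_combination v.2 * hxy
  · refine ⟨y * (v.1 - w.1), ?_⟩
    simp only [Prod.fst_sub]
    linear_combination w.1 * hxy
  · refine ⟨y * (v.2 - w.2), ?_⟩
    simp only [Prod.snd_sub]
    linear_combination w.2 * hxy

theorem mj1_dvd_mul {m n : ℕ} (h : Nat.Coprime m n) (a : ℤ) :
    ((m * n : ℕ) : ℤ) ∣ a ↔ (m : ℤ) ∣ a ∧ (n : ℤ) ∣ a := by
  have h1 : IsCoprime (m : ℤ) (n : ℤ) := Nat.isCoprime_iff_coprime.2 h
  push_cast
  constructor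
  · intro h2
    exact ⟨(dvd_mul_right _ _).trans h2, (dvd_mul_left _ _).trans h2⟩
  · rintro ⟨h2, h3⟩
    exact h1.mul_dvd h2 h3

theorem mj1_dv_mul {m n : ℕ} (h : Nat.Coprime m n) (z : El) :
    dv ((m * n : ℕ) : ℤ) z ↔ dv m z ∧ dv n z := by
  unfold dv
  rw [mj1_dvd_mul h, mj1_dvd_mul h]
  tauto

/-- the data of a line modulo `d` -/
def mj1_L (b c : ℤ) (d : ℕ) (r : El) : Prop :=
  (d : ℤ) ∣ nm b c r ∧ ∀ l : ℕ, l.Prime → l ∣ d → ¬ dv l r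

/-- adding a prime to a line -/
theorem mj1_add {b c t : ℤ} {d l : ℕ} {r : El} (hr : mj1_L b c d r) (_hl : l.Prime)
    (hc : Nat.Coprime d l) (ht : (l : ℤ) ∣ nm b c (t, 1)) :
    ∃ r₁ : El, mj1_L b c (d * l) r₁ ∧ ∀ z : El, ((d * l : ℕ) : ℤ) ∣ dt z r₁ ↔
      (d : ℤ) ∣ dt z r ∧ (l : ℤ) ∣ dt z (t, 1) := by
  obtain ⟨r₁, h1, h2⟩ := mj1_crt hc r (t, 1)
  refine ⟨r₁, ⟨?_, ?_⟩, ?_⟩
  · rw [mj1_dvd_mul hc]
    exact ⟨(dvd_iff_dvd_of_dvd_sub (mj1_nm_cong h1)).2 hr.1,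
      (dvd_iff_dvd_of_dvd_sub (mj1_nm_cong h2)).2 ht⟩
  · intro p hp hpd hpr
    rcases (Nat.Prime.dvd_mul hp).1 hpd with h | h
    · apply hr.2 p hp h
      have h3 : (p : ℤ) ∣ d := by exact_mod_cast h
      have h4 : dv p (r₁ - r) := ⟨h3.trans h1.1, h3.trans h1.2⟩
      refine ⟨?_, ?_⟩
      · have h5 := dvd_sub hpr.1 h4.1
        simpa using h5
      · have h5 := dvd_sub hpr.2 h4.2
        simpa using h5
    · have h3 : (p : ℤ) ∣ l := by exact_mod_cast h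
      have h4 : (p : ℤ) ∣ (r₁ - (t, 1)).2 := h3.trans h2.2
      have h5 := dvd_sub hpr.2 h4
      simp only [Prod.snd_sub, sub_sub_cancel] at h5
      have h6 : (p : ℤ) ∣ ((1 : ℕ) : ℤ) := by exact_mod_cast h5
      rw [Int.natCast_dvd_natCast] at h6
      exact hp.one_lt.ne' (Nat.dvd_one.1 h6)
  · intro z
    rw [mj1_dvd_mul hc, dvd_iff_dvd_of_dvd_sub (mj1_dt_cong h1 z),
      dvd_iff_dvd_of_dvd_sub (mj1_dt_cong h2 z)]

open Classical in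
/-- peeling off one prime -/
theorem mj1_peel {b c : ℤ} (Z : Finset El) (F : El → ℂ) {e d l Q : ℕ} {t : ℤ} {r r₁ r₂ : El}
    (hl : l.Prime) (hD : ¬ (l : ℤ) ∣ dsc b c) (ht : (l : ℤ) ∣ fv b c t)
    (hel : Nat.Coprime e l) (hQl : Nat.Coprime l Q)
    (h1 : ∀ z : El, ((d * l : ℕ) : ℤ) ∣ dt z r₁ ↔ (d : ℤ) ∣ dt z r ∧ (l : ℤ) ∣ dt z (t, 1))
    (h2 : ∀ z : El, ((d * l : ℕ) : ℤ) ∣ dt z r₂ ↔ (d : ℤ) ∣ dt z r ∧
      (l : ℤ) ∣ dt z (-b - t, 1)) :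
    ∑ z ∈ Z.filter (fun z => dv e z ∧ (d : ℤ) ∣ dt z r ∧ ((l * Q : ℕ) : ℤ) ∣ nm b c z), F z =
    ∑ z ∈ Z.filter (fun z => dv e z ∧ ((d * l : ℕ) : ℤ) ∣ dt z r₁ ∧ (Q : ℤ) ∣ nm b c z), F z +
    ∑ z ∈ Z.filter (fun z => dv e z ∧ ((d * l : ℕ) : ℤ) ∣ dt z r₂ ∧ (Q : ℤ) ∣ nm b c z), F z -
    ∑ z ∈ Z.filter (fun z => dv ((e * l : ℕ) : ℤ) z ∧ (d : ℤ) ∣ dt z r ∧
      (Q : ℤ) ∣ nm b c z), F z := by
  rw [Finset.sum_filter, Finset.sum_filter, Finset.sum_filter, Finset.sum_filter,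
    ← Finset.sum_add_distrib, ← Finset.sum_sub_distrib]
  apply Finset.sum_congr rfl
  intro z _
  have h3 := mj1_or hl ht z
  have h4 := mj1_and hl hD ht z
  have h5 := mj1_dv_mul hel z
  have h6 := mj1_dvd_mul hQl (nm b c z)
  simp only [h1, h2, h5, h6, h3, ← h4]
  by_cases a1 : dv e z <;> by_cases a2 : (d : ℤ) ∣ dt z r <;>
    by_cases a3 : (Q : ℤ) ∣ nm b c z <;> by_cases a4 : (l : ℤ) ∣ dt z (t, 1) <;>
    by_cases a5 : (l : ℤ) ∣ dt z (-b - t, 1) <;> simp [a1, a2, a3, a4, a5]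

open Classical in
theorem mj1_ind {b c : ℤ} (Z : Finset El) (F : El → ℂ) (m : ℂ) (err : ℝ) (d₀ : ℕ)
    (hd₀ : Squarefree d₀) (hspl : ∀ p : ℕ, p.Prime → p ∣ d₀ → Spl b c p)
    (hbase : ∀ (e d : ℕ) (r : El), e * d ∣ d₀ → mj1_L b c d r →
      ‖∑ z ∈ Z.filter (fun z => dv e z ∧ (d : ℤ) ∣ dt z r), F z - m / ((e : ℂ) ^ 2 * d)‖ ≤ err)
    (P : Finset ℕ) : (∀ p ∈ P, p.Prime) → ∀ (e d : ℕ) (r : El), e * d * ∏ p ∈ P, p ∣ d₀ →
      mj1_L b c d r →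
      ‖∑ z ∈ Z.filter (fun z => dv e z ∧ (d : ℤ) ∣ dt z r ∧
          ((∏ p ∈ P, p : ℕ) : ℤ) ∣ nm b c z), F z -
        m / ((e : ℂ) ^ 2 * d) * ∏ l ∈ P, (2 / (l : ℂ) - 1 / (l : ℂ) ^ 2)‖ ≤ 3 ^ P.card * err := by
  induction P using Finset.induction_on with
  | empty =>
    intro _ e d r hd hr
    have h1 := hbase e d r (by simpa using hd) hr
    simpa using h1
  | insert l P hlP ih =>
    intro hP e d r hd hr
    have hl : l.Prime := hP l (Finset.mem_insert_self _ _)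
    have hP' : ∀ p ∈ P, p.Prime := fun p hp => hP p (Finset.mem_insert_of_mem hp)
    rw [Finset.prod_insert hlP] at hd
    have hsq : Squarefree (e * d * (l * ∏ p ∈ P, p)) := hd₀.squarefree_of_dvd hd
    have hld : l ∣ d₀ := dvd_trans (Dvd.intro_left (e * d) rfl |>.trans
      (mul_dvd_mul_left (e * d) (dvd_mul_right l _))) hd
    obtain ⟨_, _, hD, t, ht⟩ := hspl l hl hld
    -- coprimality
    have hc1 : Nat.Coprime (e * d) (l * ∏ p ∈ P, p) := Nat.coprime_of_squarefree_mul hsq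
    have hc2 : Nat.Coprime (e * d) l := hc1.coprime_mul_right_right
    have hel : Nat.Coprime e l := hc2.coprime_mul_right
    have hdl : Nat.Coprime d l := hc2.coprime_mul_left
    have hlQ : Nat.Coprime l (∏ p ∈ P, p) :=
      Nat.coprime_of_squarefree_mul (hsq.squarefree_of_dvd (dvd_mul_left _ _))
    obtain ⟨r₁, hr₁, h1⟩ := mj1_add hr hl hdl (t := t) (by rw [mj1_nm]; exact ht)
    obtain ⟨r₂, hr₂, h2⟩ := mj1_add hr hl hdl (t := -b - t) (by rw [mj1_nm']; exact ht)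
    have e1 : e * (d * l) * ∏ p ∈ P, p = e * d * (l * ∏ p ∈ P, p) := by ring
    have e2 : e * l * d * ∏ p ∈ P, p = e * d * (l * ∏ p ∈ P, p) := by ring
    have g1 := ih hP' e (d * l) r₁ (by rw [e1]; exact hd) hr₁
    have g2 := ih hP' e (d * l) r₂ (by rw [e1]; exact hd) hr₂
    have g3 := ih hP' (e * l) d r (by rw [e2]; exact hd) hr
    rw [Finset.prod_insert hlP, Finset.prod_insert hlP, Finset.card_insert_of_notMem hlP,
      mj1_peel Z F hl hD ht hel hlQ h1 h2]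
    have hl0 : (l : ℂ) ≠ 0 := by exact_mod_cast hl.ne_zero
    have hed : e * d ≠ 0 := by
      intro h
      rw [h, zero_mul] at hsq
      exact not_squarefree_zero hsq
    have he0 : (e : ℂ) ≠ 0 := by
      have : e ≠ 0 := fun h => hed (by rw [h, zero_mul])
      exact_mod_cast this
    have hd0 : (d : ℂ) ≠ 0 := by
      have : d ≠ 0 := fun h => hed (by rw [h, mul_zero])
      exact_mod_cast this
    set PQ := ∏ l ∈ P, (2 / (l : ℂ) - 1 / (l : ℂ) ^ 2) with hPQ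
    set S1 := ∑ z ∈ Z.filter (fun z => dv e z ∧ ((d * l : ℕ) : ℤ) ∣ dt z r₁ ∧
      ((∏ p ∈ P, p : ℕ) : ℤ) ∣ nm b c z), F z with hS1
    set S2 := ∑ z ∈ Z.filter (fun z => dv e z ∧ ((d * l : ℕ) : ℤ) ∣ dt z r₂ ∧
      ((∏ p ∈ P, p : ℕ) : ℤ) ∣ nm b c z), F z with hS2
    set S3 := ∑ z ∈ Z.filter (fun z => dv ((e * l : ℕ) : ℤ) z ∧ (d : ℤ) ∣ dt z r ∧
      ((∏ p ∈ P, p : ℕ) : ℤ) ∣ nm b c z), F z with hS3
    have h5 : S1 + S2 - S3 - m / ((e : ℂ) ^ 2 * d) * ((2 / (l : ℂ) - 1 / (l : ℂ) ^ 2) * PQ) =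
        (S1 - m / ((e : ℂ) ^ 2 * ((d * l : ℕ) : ℂ)) * PQ) +
        (S2 - m / ((e : ℂ) ^ 2 * ((d * l : ℕ) : ℂ)) * PQ) -
        (S3 - m / (((e * l : ℕ) : ℂ) ^ 2 * d) * PQ) := by
      push_cast
      field_simp
      ring
    rw [h5]
    calc _ ≤ 3 ^ P.card * err + 3 ^ P.card * err + 3 ^ P.card * err :=
          (norm_sub_le _ _).trans (add_le_add ((norm_add_le _ _).trans (add_le_add g1 g2)) g3)
      _ = 3 ^ (P.card + 1) * err := by ring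

open Classical in
/-- the elements of the window divisible by `e` -/
theorem mj1_sm {b c : ℤ} (S : Sys b c) {e d : ℕ} (he : 1 ≤ e) (hc : Nat.Coprime e d) (r : El)
    (x : ℝ) (F : El → ℂ) (hF : ∀ z : El, F (sm e z) = F z) :
    ∑ z ∈ (S.MF x).filter (fun z => dv e z ∧ (d : ℤ) ∣ dt z r), F z =
      ∑ z ∈ (S.MF (x / (e : ℝ) ^ 2)).filter (fun z => (d : ℤ) ∣ dt z r), F z := by
  symm
  have he' : (0 : ℝ) < (e : ℝ) ^ 2 := by positivity
  have heZ : (e : ℤ) ≠ 0 := by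
    have : e ≠ 0 := by omega
    exact_mod_cast this
  have hcop : IsCoprime (d : ℤ) (e : ℤ) := Nat.isCoprime_iff_coprime.2 hc.symm
  have hdt : ∀ z : El, dt (sm e z) r = e * dt z r := by
    intro z
    simp only [dt, sm]
    ring
  apply Finset.sum_nbij (fun z => sm e z)
  · intro z hz
    rw [Finset.mem_filter, mem_MF] at hz ⊢
    obtain ⟨⟨h1, h2⟩, h3⟩ := hz
    refine ⟨⟨(wd_sm S he).2 h1, ?_⟩, ⟨dvd_mul_right _ _, dvd_mul_right _ _⟩, ?_⟩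
    · rw [sba_nm_sm]
      rw [le_div_iff₀ he'] at h2
      push_cast
      linarith
    · rw [hdt]
      exact Dvd.dvd.mul_left h3 _
  · intro z _ w _ h
    simp only [sm, Prod.mk.injEq] at h
    exact Prod.ext (mul_left_cancel₀ heZ h.1) (mul_left_cancel₀ heZ h.2)
  · intro z hz
    rw [Finset.mem_coe, Finset.mem_filter, mem_MF] at hz
    obtain ⟨⟨h1, h2⟩, ⟨⟨a, ha⟩, ⟨a', ha'⟩⟩, h3⟩ := hz
    have h4 : z = sm e (a, a') := Prod.ext ha ha'
    refine ⟨(a, a'), ?_, h4.symm⟩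
    rw [Finset.mem_coe, Finset.mem_filter, mem_MF]
    rw [h4] at h1 h2 h3
    refine ⟨⟨(wd_sm S he).1 h1, ?_⟩, ?_⟩
    · rw [sba_nm_sm] at h2
      rw [le_div_iff₀ he']
      push_cast at h2
      linarith
    · rw [hdt] at h3
      exact hcop.dvd_of_dvd_mul_left h3
  · intro z _
    exact (hF z).symm

open Classical in
theorem div_sums_pr {b c : ℤ} (S : Sys b c) (hs : ¬ IsSquare (dsc b c)) : ∃ (κ₀ κ C X₀ : ℝ)
    (M₁ : ℕ), 0 < κ₀ ∧ 0 < κ ∧ κ ≤ 1 ∧ 1 ≤ C ∧ 1 ≤ X₀ ∧ 1 ≤ M₁ ∧ ∀ d : ℕ, Squarefree d →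
    (∀ p : ℕ, p.Prime → p ∣ d → Spl b c p ∧ ¬ p ∣ M₁) → ∀ x : ℝ, X₀ ≤ x / (d : ℝ) ^ 2 →
    |(((S.MF x).filter (fun z => (d : ℤ) ∣ nm b c z)).card : ℝ) -
      κ₀ * x * ∏ l ∈ d.primeFactors, (2 / (l : ℝ) - 1 / (l : ℝ) ^ 2)| ≤
        C * 3 ^ d.primeFactors.card * Real.sqrt x ∧
    ∀ k : ℤ, k ≠ 0 → |(k : ℝ)| ≤ (x / (d : ℝ) ^ 2) ^ 3 →
      ‖∑ z ∈ (S.MF x).filter (fun z => (d : ℤ) ∣ nm b c z), ex (k * S.u z)‖ ≤
        C * 3 ^ d.primeFactors.card * x ^ (1 - κ) := by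
  obtain ⟨κ₀, hκ₀, hcls⟩ := cls_count S
  obtain ⟨C₁, hC₁, hcls⟩ := hcls 1 le_rfl
  obtain ⟨κ, hκ, hκ1, hexp⟩ := exp_line
  obtain ⟨M₁, C₂, X₁, hM₁, hC₂, hX₁, hexp⟩ := hexp b c S hs
  refine ⟨κ₀, κ, max C₁ C₂, X₁, M₁, hκ₀, hκ, hκ1, le_max_of_le_left hC₁, hX₁, hM₁, ?_⟩
  intro d₀ hd₀ hspl x hx
  have hd₀' : d₀ ≠ 0 := hd₀.ne_zero
  have hd₀r : (1 : ℝ) ≤ d₀ := by exact_mod_cast Nat.one_le_iff_ne_zero.2 hd₀'
  have hd₀2 : (0 : ℝ) < (d₀ : ℝ) ^ 2 := by positivity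
  have hx' := hx
  rw [le_div_iff₀ hd₀2] at hx'
  have hx1 : 1 ≤ x := by
    have : (1 : ℝ) ≤ (d₀ : ℝ) ^ 2 := one_le_pow₀ hd₀r
    nlinarith
  have hx0 : 0 ≤ x := by linarith
  -- bounds for divisors
  have hdiv : ∀ e d : ℕ, e * d ∣ d₀ → 1 ≤ e ∧ 1 ≤ d ∧ Nat.Coprime e d ∧ Squarefree d ∧
      (e : ℝ) ^ 2 * d ≤ (d₀ : ℝ) ^ 2 := by
    intro e d h
    have h1 : e * d ≠ 0 := fun h0 => hd₀' (by rw [h0] at h; exact Nat.eq_zero_of_zero_dvd h)
    have h2 : e ≠ 0 := fun h0 => h1 (by rw [h0, zero_mul])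
    have h3 : d ≠ 0 := fun h0 => h1 (by rw [h0, mul_zero])
    have h4 : Squarefree (e * d) := hd₀.squarefree_of_dvd h
    refine ⟨by omega, by omega, Nat.coprime_of_squarefree_mul h4,
      h4.squarefree_of_dvd (dvd_mul_left _ _), ?_⟩
    have h5 : e * d ≤ d₀ := Nat.le_of_dvd (Nat.pos_of_ne_zero hd₀') h
    have h6 : ((e * d : ℕ) : ℝ) ≤ d₀ := by exact_mod_cast h5
    have h7 : (1 : ℝ) ≤ d := by exact_mod_cast Nat.one_le_iff_ne_zero.2 h3
    have h8 : (0 : ℝ) ≤ e := by positivity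
    push_cast at h6
    calc (e : ℝ) ^ 2 * d ≤ (e : ℝ) ^ 2 * d * d := by
          apply le_mul_of_one_le_right (by positivity) h7
      _ = ((e : ℝ) * d) ^ 2 := by ring
      _ ≤ (d₀ : ℝ) ^ 2 := pow_le_pow_left₀ (by positivity) h6 2
  have hP : ∀ p ∈ d₀.primeFactors, p.Prime := fun p hp => Nat.prime_of_mem_primeFactors hp
  have hprod : ∏ p ∈ d₀.primeFactors, p = d₀ := Nat.prod_primeFactors_of_squarefree hd₀
  have hL1 : mj1_L b c 1 (0, 0) := by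
    refine ⟨by simp, ?_⟩
    intro l hl h
    exact absurd (Nat.dvd_one.1 h) hl.one_lt.ne'
  have hdvd : 1 * 1 * ∏ p ∈ d₀.primeFactors, p ∣ d₀ := by rw [hprod, one_mul, one_mul]
  have hfil : ∀ z : El, (dv (1 : ℕ) z ∧ ((1 : ℕ) : ℤ) ∣ dt z (0, 0) ∧
      ((∏ p ∈ d₀.primeFactors, p : ℕ) : ℤ) ∣ nm b c z) ↔ (d₀ : ℤ) ∣ nm b c z := by
    intro z
    rw [hprod]
    simp [dv]
  have hxe : ∀ e d : ℕ, e * d ∣ d₀ → x / (d₀ : ℝ) ^ 2 ≤ x / ((e : ℝ) ^ 2 * d) := by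
    intro e d h
    obtain ⟨h1, h2, h3, h4, h5⟩ := hdiv e d h
    exact div_le_div_of_nonneg_left hx0 (by positivity) h5
  constructor
  · have h1 := mj1_ind (b := b) (c := c) (S.MF x) (fun _ => 1) ((κ₀ * x : ℝ) : ℂ)
      (C₁ * Real.sqrt x) d₀ hd₀ (fun p hp hpd => (hspl p hp hpd).1) ?_ d₀.primeFactors hP 1 1
      (0, 0) hdvd hL1
    · simp only [hfil] at h1
      simp only [Finset.sum_const, nsmul_eq_mul, mul_one, Nat.cast_one, one_pow, div_one] at h1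
      have h2 : (((((S.MF x).filter (fun z => (d₀ : ℤ) ∣ nm b c z)).card : ℝ) -
          κ₀ * x * ∏ l ∈ d₀.primeFactors, (2 / (l : ℝ) - 1 / (l : ℝ) ^ 2) : ℝ) : ℂ) =
          (((S.MF x).filter (fun z => (d₀ : ℤ) ∣ nm b c z)).card : ℂ) -
          ((κ₀ * x : ℝ) : ℂ) * ∏ l ∈ d₀.primeFactors, (2 / (l : ℂ) - 1 / (l : ℂ) ^ 2) := by
        push_cast
        ring
      rw [← h2, Complex.norm_real, Real.norm_eq_abs] at h1
      refine h1.trans ?_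
      have h3 : C₁ ≤ max C₁ C₂ := le_max_left _ _
      have h4 : 0 ≤ Real.sqrt x := Real.sqrt_nonneg x
      calc (3 : ℝ) ^ d₀.primeFactors.card * (C₁ * Real.sqrt x)
          = C₁ * 3 ^ d₀.primeFactors.card * Real.sqrt x := by ring
        _ ≤ max C₁ C₂ * 3 ^ d₀.primeFactors.card * Real.sqrt x := by gcongr
    · intro e d r hed hr
      obtain ⟨h1, h2, h3, h4, h5⟩ := hdiv e d hed
      have h6 := mj1_sm S h1 h3 r x (fun _ => 1) (fun _ => rfl)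
      rw [h6]
      have hxe' : 1 ≤ x / (e : ℝ) ^ 2 := by
        have h7 := hxe e 1 ((mul_dvd_mul_left e (one_dvd d)).trans hed)
        rw [Nat.cast_one, mul_one] at h7
        linarith
      have h7 := hcls (0, 0) r d h2 (Nat.coprime_one_right d) hr.2 (x / (e : ℝ) ^ 2) hxe'
      have h8 : ∀ w : El, (dv ((1 : ℕ) : ℤ) (w - (0, 0)) ∧ (d : ℤ) ∣ dt w r) ↔
          (d : ℤ) ∣ dt w r := by
        intro w
        simp [dv]
      simp only [h8] at h7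
      have h9 : Real.sqrt (x / (e : ℝ) ^ 2) ≤ Real.sqrt x := by
        apply Real.sqrt_le_sqrt
        apply div_le_self hx0
        have : (1 : ℝ) ≤ e := by exact_mod_cast h1
        exact one_le_pow₀ this
      have h10 : (((((S.MF (x / (e : ℝ) ^ 2)).filter (fun w => (d : ℤ) ∣ dt w r)).card : ℝ) -
          κ₀ * (x / (e : ℝ) ^ 2) / (((1 : ℕ) : ℝ) ^ 2 * d) : ℝ) : ℂ) =
          ∑ z ∈ (S.MF (x / (e : ℝ) ^ 2)).filter (fun z => (d : ℤ) ∣ dt z r), (1 : ℂ) -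
            ((κ₀ * x : ℝ) : ℂ) / ((e : ℂ) ^ 2 * d) := by
        have he0 : (e : ℂ) ≠ 0 := by
          have : e ≠ 0 := by omega
          exact_mod_cast this
        have hd0 : (d : ℂ) ≠ 0 := by
          have : d ≠ 0 := by omega
          exact_mod_cast this
        simp only [Finset.sum_const, nsmul_eq_mul, mul_one]
        push_cast
        field_simp
      rw [← h10, Complex.norm_real, Real.norm_eq_abs]
      exact h7.trans (mul_le_mul_of_nonneg_left h9 (by linarith))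
  · intro k hk hkx
    have h1 := mj1_ind (b := b) (c := c) (S.MF x) (fun z => ex (k * S.u z)) 0
      (C₂ * x ^ (1 - κ)) d₀ hd₀ (fun p hp hpd => (hspl p hp hpd).1) ?_ d₀.primeFactors hP 1 1
      (0, 0) hdvd hL1
    · simp only [hfil] at h1
      simp only [zero_div, zero_mul, sub_zero] at h1
      refine h1.trans ?_
      have h3 : C₂ ≤ max C₁ C₂ := le_max_right _ _
      have h4 : 0 ≤ x ^ (1 - κ) := Real.rpow_nonneg hx0 _
      calc (3 : ℝ) ^ d₀.primeFactors.card * (C₂ * x ^ (1 - κ))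
          = C₂ * 3 ^ d₀.primeFactors.card * x ^ (1 - κ) := by ring
        _ ≤ max C₁ C₂ * 3 ^ d₀.primeFactors.card * x ^ (1 - κ) := by gcongr
    · intro e d r hed hr
      obtain ⟨h1, h2, h3, h4, h5⟩ := hdiv e d hed
      have h6 := mj1_sm S h1 h3 r x (fun z => ex (k * S.u z)) (fun z => by
        show ex (k * S.u (sm e z)) = ex (k * S.u z)
        rw [u_sm S h1])
      rw [h6, zero_div, sub_zero]
      have h7 : x / (e : ℝ) ^ 2 / d = x / ((e : ℝ) ^ 2 * d) := by rw [div_div]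
      have h8 := hxe e d hed
      have hcop : Nat.Coprime d M₁ := by
        apply Nat.Coprime.symm
        rw [Nat.coprime_comm]
        apply Nat.coprime_of_dvd
        intro p hp hpd hpM
        exact (hspl p hp ((hpd.trans (dvd_mul_left _ _)).trans hed)).2 hpM
      have h9 : X₁ ≤ x / (e : ℝ) ^ 2 / d := by rw [h7]; exact hx.trans h8
      have h10 : |(k : ℝ)| ≤ (x / (e : ℝ) ^ 2 / d) ^ 3 := by
        rw [h7]
        refine hkx.trans (pow_le_pow_left₀ ?_ h8 3)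
        exact div_nonneg hx0 hd₀2.le
      have h11 := hexp d r h4 hcop hr.1 hr.2 (x / (e : ℝ) ^ 2) h9 k hk h10
      refine h11.trans ?_
      have h12 : x / (e : ℝ) ^ 2 / d ≤ x := by
        rw [h7]
        apply div_le_self hx0
        have g1 : (1 : ℝ) ≤ e := by exact_mod_cast h1
        have g2 : (1 : ℝ) ≤ d := by exact_mod_cast h2
        exact one_le_mul_of_one_le_of_one_le (one_le_pow₀ g1) g2
      apply mul_le_mul_of_nonneg_left _ (by linarith)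
      apply Real.rpow_le_rpow _ h12 (by linarith)
      linarith

theorem div_sums : type_of% @div_sums_pr := @div_sums_pr

end Pool.Agent.AQM
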