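import Pool.Agent.Lib_helper10.T2F.SLW
import Pool.Agent.Lib_helper39.AQM.Defs
import Pool.Agent.Lib_helper39.AQM.AB
import Pool.Agent.Lib_helper39.MQX.ALG
import Pool.Agent.Lib_helper39.MQX.SBA
import Pool.Agent.Lib_helper39.MQX.SBB
import Pool.Agent.Lib_helper39.MQX.SBC
import Pool.Agent.Lib_helper39.MQX.LSV
import Pool.Agent.Lib_helper39.MQX.PAR
import Pool.Agent.Lib_helper39.MQX.FEJ
import Pool.Agent.Lib_helper39.MQX.EXP
import Pool.Agent.Lib_helper39.AQMF.SM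
import Pool.Agent.Lib_helper39.AQMF.MJ1

/-! block MJ2 of AQM, proved by helper96 -/

/-! AQ part II, block MJ2 (helper96): the majorant of the prime elements. -/

set_option autoImplicit false

namespace Pool.Agent.AQM

open Pool.Agent.MQ Pool.Agent.T2 Filter Topology MeasureTheory

theorem mj2_nine {d : ℕ} (hd : 1 ≤ d) : (9 : ℝ) ^ d.primeFactors.card ≤ (d : ℝ) ^ 4 := by
  have h1 : 2 ^ d.primeFactors.card ≤ d := by
    calc 2 ^ d.primeFactors.card = ∏ _p ∈ d.primeFactors, 2 := by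
          rw [Finset.prod_const]
      _ ≤ ∏ p ∈ d.primeFactors, p :=
          Finset.prod_le_prod' fun p hp => (Nat.prime_of_mem_primeFactors hp).two_le
      _ ≤ d := Nat.le_of_dvd hd (Nat.prod_primeFactors_dvd d)
  calc (9 : ℝ) ^ d.primeFactors.card ≤ ((2 : ℝ) ^ 4) ^ d.primeFactors.card :=
        pow_le_pow_left₀ (by norm_num) (by norm_num) _
    _ = ((2 : ℝ) ^ d.primeFactors.card) ^ 4 := by rw [← pow_mul, ← pow_mul, mul_comm]
    _ ≤ (d : ℝ) ^ 4 := by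
        refine pow_le_pow_left₀ (by positivity) ?_ 4
        exact_mod_cast h1

theorem mj2_sum_nine (D : ℕ) :
    ∑ d ∈ Finset.Icc 1 D, (9 : ℝ) ^ d.primeFactors.card ≤ (D : ℝ) ^ 5 := by
  calc ∑ d ∈ Finset.Icc 1 D, (9 : ℝ) ^ d.primeFactors.card
      ≤ ∑ d ∈ Finset.Icc 1 D, (D : ℝ) ^ 4 := by
        refine Finset.sum_le_sum fun d hd => ?_
        rw [Finset.mem_Icc] at hd
        refine (mj2_nine hd.1).trans ?_
        refine pow_le_pow_left₀ (by positivity) ?_ 4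
        exact_mod_cast hd.2
    _ = (D : ℝ) ^ 5 := by
        rw [Finset.sum_const, Nat.card_Icc, nsmul_eq_mul]
        simp
        ring

theorem mj2_w {θ : ℕ → ℝ} {R : ℝ}
    (hθ : ∀ d, θ d ≠ 0 → (d : ℝ) ≤ R ^ 2) {n : ℕ} (hn : 1 ≤ n) :
    ∑ d ∈ n.divisors, θ d =
      ∑ d ∈ Finset.Icc 1 ⌊R ^ 2⌋₊, (if d ∣ n then θ d else 0) := by
  classical
  have h1 : ∑ d ∈ n.divisors, θ d = ∑ d ∈ n.divisors ∩ Finset.Icc 1 ⌊R ^ 2⌋₊, θ d := by
    symm
    refine Finset.sum_subset Finset.inter_subset_left ?_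
    intro d hd hd2
    by_contra h0
    apply hd2
    rw [Finset.mem_inter]
    refine ⟨hd, ?_⟩
    rw [Finset.mem_Icc]
    refine ⟨Nat.pos_of_mem_divisors hd, ?_⟩
    exact Nat.le_floor (hθ d h0)
  rw [h1, ← Finset.sum_filter]
  congr 1
  ext d
  simp only [Finset.mem_inter, Finset.mem_filter, Nat.mem_divisors]
  constructor
  · rintro ⟨⟨h, _⟩, h'⟩; exact ⟨h', h⟩
  · rintro ⟨h', h⟩; exact ⟨⟨h, by omega⟩, h'⟩

/-- the weight -/
noncomputable def mj2_wt (b c : ℤ) (θ : ℕ → ℝ) (z : El) : ℝ :=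
  ∑ d ∈ ((nm b c z).toNat).divisors, θ d

open Classical in
theorem mj2_exch {b c : ℤ} (S : Sys b c) {A : Type*} [AddCommGroup A] [Module ℝ A] {θ : ℕ → ℝ}
    {R : ℝ} (hθ : ∀ d, θ d ≠ 0 → (d : ℝ) ≤ R ^ 2) (x : ℝ) (G : El → A) :
    ∑ z ∈ S.MF x, mj2_wt b c θ z • G z = ∑ d ∈ Finset.Icc 1 ⌊R ^ 2⌋₊,
      θ d • ∑ z ∈ (S.MF x).filter (fun z => (d : ℤ) ∣ nm b c z), G z := by
  have h1 : ∀ z ∈ S.MF x, mj2_wt b c θ z • G z = ∑ d ∈ Finset.Icc 1 ⌊R ^ 2⌋₊,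
      (if (d : ℤ) ∣ nm b c z then θ d • G z else 0) := by
    intro z hz
    have hz0 := wd_nm S ((mem_MF S).1 hz).1
    unfold mj2_wt
    rw [mj2_w hθ (n := (nm b c z).toNat) (by omega), Finset.sum_smul]
    refine Finset.sum_congr rfl fun d _ => ?_
    have e : d ∣ (nm b c z).toNat ↔ (d : ℤ) ∣ nm b c z := by
      rw [← Int.natCast_dvd_natCast, Int.toNat_of_nonneg hz0.le]
    by_cases h : (d : ℤ) ∣ nm b c z
    · rw [if_pos h, if_pos (e.2 h)]
    · rw [if_neg h, if_neg (fun h' => h (e.1 h')), zero_smul]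
  rw [Finset.sum_congr rfl h1, Finset.sum_comm]
  refine Finset.sum_congr rfl fun d _ => ?_
  rw [Finset.smul_sum, Finset.sum_filter]

/-- only the divisor 1 counts at a prime element -/
theorem mj2_one {b c : ℤ} {θ : ℕ → ℝ} {M : ℕ} {P : ℝ} (hM : 1 ≤ M)
    (hθ : ∀ d, θ d ≠ 0 → ∀ p : ℕ, p.Prime → p ∣ d → ¬ p ∣ M ∧ (p : ℝ) ≤ P)
    (h1 : θ 1 = 1) {z : El} {k p : ℕ} (hp : p.Prime) (hP : P < (p : ℝ))
    (hk1 : 1 ≤ k) (hk : k ∣ M) (hz : nm b c z = k * p) : mj2_wt b c θ z = 1 := by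
  unfold mj2_wt
  have e : (nm b c z).toNat = k * p := by
    rw [hz]
    exact_mod_cast Int.toNat_natCast (k * p)
  rw [e, Finset.sum_eq_single 1]
  · exact h1
  · intro d hd hd1
    by_contra h0
    obtain ⟨q, hq, hqd⟩ := Nat.exists_prime_and_dvd hd1
    obtain ⟨hqM, hqP⟩ := hθ d h0 q hq hqd
    have hdk : q ∣ k * p := hqd.trans (Nat.dvd_of_mem_divisors hd)
    rcases (Nat.Prime.dvd_mul hq).1 hdk with h | h
    · exact hqM (h.trans hk)
    · rw [Nat.prime_dvd_prime_iff_eq hq hp] at h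
      rw [h] at hqP
      linarith
  · intro h
    exfalso
    apply h
    rw [Nat.mem_divisors]
    exact ⟨one_dvd _, Nat.mul_ne_zero (by omega) hp.ne_zero⟩

open Classical in
/-- the majorant, for large `P` -/
theorem mj2_main {b c : ℤ} (S : Sys b c) (M : ℕ) (hM : 1 ≤ M) {κ₀ κ C₁ X₁ c₁ R₀ : ℝ} {M₁ : ℕ}
    (hκ₀ : 0 < κ₀) (hκ : 0 < κ) (hκ1 : κ ≤ 1 / 4) (hC₁ : 1 ≤ C₁) (hX₁ : 1 ≤ X₁) (hc₁ : 0 < c₁)
    (hdiv : ∀ d : ℕ, Squarefree d →
    (∀ p : ℕ, p.Prime → p ∣ d → Spl b c p ∧ ¬ p ∣ M₁) → ∀ x : ℝ, X₁ ≤ x / (d : ℝ) ^ 2 →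
    |(((S.MF x).filter (fun z => (d : ℤ) ∣ nm b c z)).card : ℝ) -
      κ₀ * x * ∏ l ∈ d.primeFactors, (2 / (l : ℝ) - 1 / (l : ℝ) ^ 2)| ≤
        C₁ * 3 ^ d.primeFactors.card * Real.sqrt x ∧
    ∀ k : ℤ, k ≠ 0 → |(k : ℝ)| ≤ (x / (d : ℝ) ^ 2) ^ 3 →
      ‖∑ z ∈ (S.MF x).filter (fun z => (d : ℤ) ∣ nm b c z), ex (k * S.u z)‖ ≤
        C₁ * 3 ^ d.primeFactors.card * x ^ (1 - κ))
    (hmass : ∀ R : ℝ, R₀ ≤ R → c₁ * Real.log R ≤
      ∑ d ∈ (Finset.Icc 1 ⌊R⌋₊).filter (fun d : ℕ => Squarefree d ∧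
      ∀ p : ℕ, p.Prime → p ∣ d → Spl b c p ∧ ¬ p ∣ M * M₁), ∏ p ∈ d.primeFactors,
        (2 / (p : ℝ) - 1 / (p : ℝ) ^ 2) / (1 - (2 / (p : ℝ) - 1 / (p : ℝ) ^ 2)))
    (P : ℝ) (hP2 : 2 ≤ P) (hPR : max R₀ 2 ≤ P ^ (κ / 40)) (hPX : X₁ ≤ P ^ (1 / 2 : ℝ)) :
    ∃ w : El → ℝ, (∀ z ∈ S.MF (2 * M * P), 0 ≤ w z) ∧
      (∀ (z : El) (k p : ℕ), p.Prime → P < (p : ℝ) → 1 ≤ k → k ∣ M → nm b c z = k * p →
        w z = 1) ∧ ∑ z ∈ S.MF (2 * M * P), w z ≤
          (2 * M * κ₀ * (40 / (c₁ * κ)) + 8 * M * C₁) * (P / Real.log P) ∧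
      ∀ j : ℤ, j ≠ 0 → |(j : ℝ)| ≤ 2 * P ^ (14 / 5 : ℝ) →
        ‖∑ z ∈ S.MF (2 * M * P), (w z : ℂ) * ex (j * S.u z)‖ ≤
          2 * M * C₁ * P ^ (1 - 3 * κ / 4) := by
  have hM1 : (1 : ℝ) ≤ M := by exact_mod_cast hM
  have hP0 : 0 < P := by linarith
  have hlogP : 0 < Real.log P := Real.log_pos (by linarith)
  set R : ℝ := P ^ (κ / 40) with hR
  have hR2 : 2 ≤ R := (le_max_right _ _).trans hPR
  have hR0 : 0 < R := by linarith
  have hlogR : Real.log R = κ / 40 * Real.log P := Real.log_rpow hP0 _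
  set T₀ : Finset ℕ := (Finset.range (⌊R⌋₊ + 1)).filter (fun p => Spl b c p ∧ ¬ p ∣ M * M₁)
    with hT₀
  have hT₀p : ∀ p ∈ T₀, p.Prime := fun p hp => (Finset.mem_filter.1 hp).2.1.1
  set h : ℕ → ℝ := fun p => 2 / (p : ℝ) - 1 / (p : ℝ) ^ 2 with hh
  have hhp : ∀ p ∈ T₀, 0 < h p ∧ h p < 1 := by
    intro p hp
    have hp1 := hT₀p p hp
    have hp2 : (2 : ℝ) ≤ p := by exact_mod_cast hp1.two_le
    have hp0 : (0 : ℝ) < p := by linarith
    have e : h p = 1 - (1 - 1 / (p : ℝ)) ^ 2 := by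
      simp only [hh]; field_simp; ring
    have h1 : 0 < 1 / (p : ℝ) := by positivity
    have h2 : 1 / (p : ℝ) ≤ 1 / 2 := one_div_le_one_div_of_le (by norm_num) hp2
    rw [e]
    constructor <;> nlinarith
  obtain ⟨θ, hθ1, hθ2, hθ3, hθ4, hθ5⟩ := selberg_weights T₀ hT₀p h hhp R (by linarith)
  have hθR : ∀ d, θ d ≠ 0 → (d : ℝ) ≤ R ^ 2 := fun d hd => (hθ1 d hd).2.2
  set D : ℕ := ⌊R ^ 2⌋₊ with hD
  have hDR : (D : ℝ) ≤ R ^ 2 := Nat.floor_le (by positivity)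
  have hRP : R ^ 2 ≤ P := by
    calc R ^ 2 = P ^ (κ / 20) := by
          rw [hR, ← Real.rpow_natCast, ← Real.rpow_mul hP0.le]
          congr 1
          push_cast; ring
      _ ≤ P ^ (1 : ℝ) := by
          refine Real.rpow_le_rpow_of_exponent_le (by linarith) ?_
          linarith
      _ = P := Real.rpow_one P
  have hRle : R ≤ P := by nlinarith
  have hθp : ∀ d, θ d ≠ 0 → ∀ p : ℕ, p.Prime → p ∣ d →
      Spl b c p ∧ ¬ p ∣ M * M₁ ∧ (p : ℝ) ≤ P := by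
    intro d hd p hp hpd
    have := (hθ1 d hd).2.1 p hp hpd
    rw [hT₀, Finset.mem_filter, Finset.mem_range] at this
    refine ⟨this.2.1, this.2.2, ?_⟩
    have h1 : p ≤ ⌊R⌋₊ := by omega
    have h2 : (p : ℝ) ≤ R := (Nat.le_floor_iff hR0.le).1 h1
    linarith
  have hR10 : (R ^ 2) ^ 5 = P ^ (κ / 4) := by
    rw [← pow_mul, hR, ← Real.rpow_natCast, ← Real.rpow_mul hP0.le]
    congr 1
    push_cast; ring
  have hD5 : (D : ℝ) ^ 5 ≤ P ^ (κ / 4) := by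
    rw [← hR10]
    exact pow_le_pow_left₀ (by positivity) hDR 5
  -- the size of `2 M P / d ^ 2`
  have hsize : ∀ d ∈ Finset.Icc 1 D, P ^ (39 / 40 : ℝ) ≤ P / (d : ℝ) ^ 2 := by
    intro d hd
    rw [Finset.mem_Icc] at hd
    have hd1 : (1 : ℝ) ≤ d := by exact_mod_cast hd.1
    have hdR : (d : ℝ) ≤ R ^ 2 := le_trans (by exact_mod_cast hd.2) hDR
    have h1 : (d : ℝ) ^ 2 ≤ P ^ (1 / 40 : ℝ) := by
      calc (d : ℝ) ^ 2 ≤ (R ^ 2) ^ 2 := pow_le_pow_left₀ (by positivity) hdR 2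
        _ = P ^ (κ / 10) := by
            rw [← pow_mul, hR, ← Real.rpow_natCast, ← Real.rpow_mul hP0.le]
            congr 1
            push_cast; ring
        _ ≤ P ^ (1 / 40 : ℝ) := by
            refine Real.rpow_le_rpow_of_exponent_le (by linarith) ?_
            linarith
    rw [le_div_iff₀ (by positivity)]
    calc P ^ (39 / 40 : ℝ) * (d : ℝ) ^ 2 ≤ P ^ (39 / 40 : ℝ) * P ^ (1 / 40 : ℝ) :=
          mul_le_mul_of_nonneg_left h1 (by positivity)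
      _ = P := by
          rw [← Real.rpow_add hP0]
          norm_num
  have hge : ∀ d : ℕ, P / (d : ℝ) ^ 2 ≤ 2 * M * P / (d : ℝ) ^ 2 := by
    intro d
    apply div_le_div_of_nonneg_right _ (by positivity)
    nlinarith
  have hX1 : ∀ d ∈ Finset.Icc 1 D, X₁ ≤ 2 * M * P / (d : ℝ) ^ 2 := by
    intro d hd
    calc X₁ ≤ P ^ (1 / 2 : ℝ) := hPX
      _ ≤ P ^ (39 / 40 : ℝ) := Real.rpow_le_rpow_of_exponent_le (by linarith) (by norm_num)
      _ ≤ P / (d : ℝ) ^ 2 := hsize d hd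
      _ ≤ _ := hge d
  -- the conditions of `div_sums`
  have hsq : ∀ d, θ d ≠ 0 → Squarefree d ∧ ∀ p : ℕ, p.Prime → p ∣ d → Spl b c p ∧ ¬ p ∣ M₁ := by
    intro d hd
    refine ⟨(hθ1 d hd).1, fun p hp hpd => ?_⟩
    obtain ⟨h1, h2, _⟩ := hθp d hd p hp hpd
    exact ⟨h1, fun h3 => h2 (h3.mul_left M)⟩
  refine ⟨mj2_wt b c θ, ?_, ?_, ?_, ?_⟩
  · intro z hz
    have hz0 := wd_nm S ((mem_MF S).1 hz).1
    exact hθ4 _ (by omega)
  · intro z k p hp hPp hk1 hk hz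
    refine mj2_one (M := M) (P := P) hM (fun d hd q hq hqd => ?_) hθ3 hp hPp hk1 hk hz
    obtain ⟨_, h2, h3⟩ := hθp d hd q hq hqd
    exact ⟨fun h4 => h2 (h4.mul_right M₁), h3⟩
  · -- the total mass
    have hex := mj2_exch S hθR (2 * M * P) (fun _ => (1 : ℝ))
    simp only [smul_eq_mul, mul_one, Finset.sum_const, nsmul_eq_mul] at hex
    rw [hex]
    set K : ℝ := C₁ * Real.sqrt (2 * M * P) with hK
    have hterm : ∀ d ∈ Finset.Icc 1 D,
        θ d * (((S.MF (2 * M * P)).filter (fun z => (d : ℤ) ∣ nm b c z)).card : ℝ) ≤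
        κ₀ * (2 * M * P) * (θ d * ∏ p ∈ d.primeFactors, h p) + K * 9 ^ d.primeFactors.card := by
      intro d hd
      by_cases h0 : θ d = 0
      · rw [h0]
        simp only [zero_mul, mul_zero, zero_add]
        positivity
      obtain ⟨s1, s2⟩ := hsq d h0
      have h1 := (hdiv d s1 s2 (2 * M * P) (hX1 d hd)).1
      have h2 : |θ d| * |(((S.MF (2 * M * P)).filter
          (fun z => (d : ℤ) ∣ nm b c z)).card : ℝ) -
          κ₀ * (2 * M * P) * ∏ l ∈ d.primeFactors, (2 / (l : ℝ) - 1 / (l : ℝ) ^ 2)| ≤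
          3 ^ d.primeFactors.card * (C₁ * 3 ^ d.primeFactors.card * Real.sqrt (2 * M * P)) :=
        mul_le_mul (hθ2 d) h1 (abs_nonneg _) (by positivity)
      rw [← abs_mul] at h2
      have h3 := (abs_le.1 h2).2
      have e9 : (3 : ℝ) ^ d.primeFactors.card *
          (C₁ * 3 ^ d.primeFactors.card * Real.sqrt (2 * M * P)) =
          K * 9 ^ d.primeFactors.card := by
        rw [show (9 : ℝ) = 3 * 3 by norm_num, mul_pow, hK]; ring
      rw [e9] at h3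
      have e10 : θ d * ((((S.MF (2 * M * P)).filter
          (fun z => (d : ℤ) ∣ nm b c z)).card : ℝ) -
          κ₀ * (2 * M * P) * ∏ l ∈ d.primeFactors, (2 / (l : ℝ) - 1 / (l : ℝ) ^ 2)) =
          θ d * (((S.MF (2 * M * P)).filter (fun z => (d : ℤ) ∣ nm b c z)).card : ℝ) -
          κ₀ * (2 * M * P) * (θ d * ∏ p ∈ d.primeFactors, h p) := by
        simp only [hh]
        ring
      rw [e10] at h3
      linarith
    refine (Finset.sum_le_sum hterm).trans ?_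
    rw [Finset.sum_add_distrib, ← Finset.mul_sum, ← Finset.mul_sum]
    set T : ℝ := ∑ d ∈ (Finset.Icc 1 ⌊R⌋₊).filter (fun d : ℕ => Squarefree d ∧
        ∀ p : ℕ, p.Prime → p ∣ d → p ∈ T₀), ∏ p ∈ d.primeFactors, h p / (1 - h p) with hT
    have hTm : c₁ * Real.log R ≤ T := by
      refine (hmass R ((le_max_left _ _).trans hPR)).trans (le_of_eq ?_)
      rw [hT]
      refine Finset.sum_congr ?_ fun d _ => rfl
      ext d
      simp only [Finset.mem_filter, Finset.mem_Icc, hT₀, Finset.mem_range]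
      constructor
      · rintro ⟨hd, hsq, h2⟩
        refine ⟨hd, hsq, fun p hp hpd => ⟨?_, h2 p hp hpd⟩⟩
        have := Nat.le_of_dvd (by omega) hpd
        omega
      · rintro ⟨hd, hsq, h2⟩
        exact ⟨hd, hsq, fun p hp hpd => (h2 p hp hpd).2⟩
    have h2 : ∑ d ∈ Finset.Icc 1 D, θ d * ∏ p ∈ d.primeFactors, h p ≤
        1 / (c₁ * (κ / 40 * Real.log P)) := by
      refine hθ5.trans ?_
      rw [← hlogR]
      refine one_div_le_one_div_of_le ?_ hTm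
      have : 0 < Real.log R := Real.log_pos (by linarith)
      positivity
    have h3 : κ₀ * (2 * M * P) * ∑ d ∈ Finset.Icc 1 D, θ d * ∏ p ∈ d.primeFactors, h p ≤
        2 * M * κ₀ * (40 / (c₁ * κ)) * (P / Real.log P) := by
      calc κ₀ * (2 * M * P) * ∑ d ∈ Finset.Icc 1 D, θ d * ∏ p ∈ d.primeFactors, h p ≤
            κ₀ * (2 * M * P) * (1 / (c₁ * (κ / 40 * Real.log P))) :=
            mul_le_mul_of_nonneg_left h2 (by positivity)
        _ = 2 * M * κ₀ * (40 / (c₁ * κ)) * (P / Real.log P) := by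
            field_simp
    have h4 : K * ∑ d ∈ Finset.Icc 1 D, (9 : ℝ) ^ d.primeFactors.card ≤
        8 * M * C₁ * (P / Real.log P) := by
      have h5 : Real.log P ≤ P ^ (1 / 4 : ℝ) / (1 / 4) :=
        Real.log_le_rpow_div hP0.le (by norm_num)
      have h6 : Real.sqrt (2 * M * P) ≤ 2 * M * P ^ (1 / 2 : ℝ) := by
        rw [Real.sqrt_mul (by positivity), ← Real.sqrt_eq_rpow]
        have : Real.sqrt (2 * M) ≤ 2 * M := by
          rw [Real.sqrt_le_left (by positivity)]; nlinarith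
        exact mul_le_mul_of_nonneg_right this (Real.sqrt_nonneg _)
      have h7 : P ^ (κ / 4) ≤ P ^ (1 / 4 : ℝ) :=
        Real.rpow_le_rpow_of_exponent_le (by linarith) (by linarith)
      have h8 : P ^ (1 / 2 : ℝ) * P ^ (1 / 4 : ℝ) * P ^ (1 / 4 : ℝ) = P := by
        rw [← Real.rpow_add hP0, ← Real.rpow_add hP0]
        norm_num
      have h9 : K * ∑ d ∈ Finset.Icc 1 D, (9 : ℝ) ^ d.primeFactors.card ≤
          C₁ * (2 * M * P ^ (1 / 2 : ℝ)) * P ^ (1 / 4 : ℝ) := by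
        rw [hK]
        refine mul_le_mul (mul_le_mul_of_nonneg_left h6 (by linarith))
          ((mj2_sum_nine D).trans (hD5.trans h7)) (Finset.sum_nonneg fun _ _ => by positivity)
          (by positivity)
      rw [mul_div_assoc', le_div_iff₀ hlogP]
      calc K * (∑ d ∈ Finset.Icc 1 D, (9 : ℝ) ^ d.primeFactors.card) * Real.log P ≤
            (C₁ * (2 * M * P ^ (1 / 2 : ℝ)) * P ^ (1 / 4 : ℝ)) * (P ^ (1 / 4 : ℝ) / (1 / 4)) :=
            mul_le_mul h9 h5 hlogP.le (by positivity)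
        _ = 8 * M * C₁ * (P ^ (1 / 2 : ℝ) * P ^ (1 / 4 : ℝ) * P ^ (1 / 4 : ℝ)) := by ring
        _ = 8 * M * C₁ * P := by rw [h8]
    rw [add_mul]
    linarith
  · -- the off-diagonal sums
    intro j hj hjX
    have hex := mj2_exch S hθR (2 * M * P) (fun z => ex (j * S.u z))
    simp only [Complex.real_smul] at hex
    rw [hex]
    refine (norm_sum_le _ _).trans ?_
    set K : ℝ := C₁ * (2 * M * P) ^ (1 - κ) with hK
    have hterm : ∀ d ∈ Finset.Icc 1 D,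
        ‖(θ d : ℂ) * ∑ z ∈ (S.MF (2 * M * P)).filter (fun z => (d : ℤ) ∣ nm b c z),
          ex (j * S.u z)‖ ≤ K * 9 ^ d.primeFactors.card := by
      intro d hd
      by_cases h0 : θ d = 0
      · rw [h0]
        simp only [Complex.ofReal_zero, zero_mul, norm_zero]
        positivity
      obtain ⟨s1, s2⟩ := hsq d h0
      have hy : |(j : ℝ)| ≤ (2 * M * P / (d : ℝ) ^ 2) ^ 3 := by
        have h1 : 2 * P ^ (39 / 40 : ℝ) ≤ 2 * M * P / (d : ℝ) ^ 2 := by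
          calc 2 * P ^ (39 / 40 : ℝ) ≤ 2 * (P / (d : ℝ) ^ 2) := by
                have := hsize d hd
                linarith
            _ ≤ 2 * M * (P / (d : ℝ) ^ 2) := by
                have : 0 ≤ P / (d : ℝ) ^ 2 := by positivity
                nlinarith
            _ = _ := by ring
        calc |(j : ℝ)| ≤ 2 * P ^ (14 / 5 : ℝ) := hjX
          _ ≤ 8 * P ^ (117 / 40 : ℝ) := by
              have : P ^ (14 / 5 : ℝ) ≤ P ^ (117 / 40 : ℝ) :=
                Real.rpow_le_rpow_of_exponent_le (by linarith) (by norm_num)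
              have h0 : 0 ≤ P ^ (14 / 5 : ℝ) := by positivity
              linarith
          _ = (2 * P ^ (39 / 40 : ℝ)) ^ 3 := by
              rw [mul_pow, ← Real.rpow_natCast (P ^ (39 / 40 : ℝ)), ← Real.rpow_mul hP0.le]
              norm_num
          _ ≤ _ := pow_le_pow_left₀ (by positivity) h1 3
      have h1 := (hdiv d s1 s2 (2 * M * P) (hX1 d hd)).2 j hj hy
      rw [norm_mul, Complex.norm_real, Real.norm_eq_abs]
      refine (mul_le_mul (hθ2 d) h1 (norm_nonneg _) (by positivity)).trans (le_of_eq ?_)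
      rw [show (9 : ℝ) = 3 * 3 by norm_num, mul_pow, hK]; ring
    refine (Finset.sum_le_sum hterm).trans ?_
    rw [← Finset.mul_sum]
    calc K * ∑ d ∈ Finset.Icc 1 D, (9 : ℝ) ^ d.primeFactors.card ≤ K * P ^ (κ / 4) :=
          mul_le_mul_of_nonneg_left ((mj2_sum_nine D).trans hD5) (by positivity)
      _ ≤ (C₁ * (2 * M * P ^ (1 - κ))) * P ^ (κ / 4) := by
          refine mul_le_mul_of_nonneg_right ?_ (by positivity)
          rw [hK]
          refine mul_le_mul_of_nonneg_left ?_ (by linarith)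
          rw [Real.mul_rpow (by positivity) hP0.le]
          refine mul_le_mul_of_nonneg_right ?_ (by positivity)
          calc (2 * M : ℝ) ^ (1 - κ) ≤ (2 * M : ℝ) ^ (1 : ℝ) :=
                Real.rpow_le_rpow_of_exponent_le (by linarith) (by linarith)
            _ = 2 * M := by simp
      _ = 2 * M * C₁ * P ^ (1 - 3 * κ / 4) := by
          have : P ^ (1 - 3 * κ / 4) = P ^ (1 - κ) * P ^ (κ / 4) := by
            rw [← Real.rpow_add hP0]
            congr 1; ring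
          rw [this]; ring

theorem majorant_pr {b c : ℤ} (S : Sys b c) (hs : ¬ IsSquare (dsc b c)) (M : ℕ) (hM : 1 ≤ M) :
    ∃ κ C X₀ : ℝ, 0 < κ ∧ κ ≤ 1 / 4 ∧ 1 ≤ C ∧ 1 ≤ X₀ ∧ ∀ X : ℝ, X₀ ≤ X → ∀ P : ℝ,
    X ^ (5 / 14 : ℝ) ≤ P → P ≤ X → ∃ w : El → ℝ, (∀ z ∈ S.MF (2 * M * P), 0 ≤ w z) ∧
      (∀ (z : El) (k p : ℕ), p.Prime → P < (p : ℝ) → 1 ≤ k → k ∣ M → nm b c z = k * p →
        w z = 1) ∧ ∑ z ∈ S.MF (2 * M * P), w z ≤ C * (P / Real.log P) ∧
      ∀ j : ℤ, j ≠ 0 → |(j : ℝ)| ≤ 2 * X →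
        ‖∑ z ∈ S.MF (2 * M * P), (w z : ℂ) * ex (j * S.u z)‖ ≤ C * P ^ (1 - 3 * κ / 4) := by
  obtain ⟨κ₀, κd, C₁, X₁, M₁, hκ₀, hκd, hκd1, hC₁, hX₁, hM₁, hdiv⟩ := div_sums S hs
  obtain ⟨c₁, R₀, hc₁, hmass⟩ := split_mass b c hs (M * M₁) (by
    exact Nat.mul_pos hM hM₁)
  set κ : ℝ := κd / 4 with hκdef
  have hκ : 0 < κ := by positivity
  have hκ1 : κ ≤ 1 / 4 := by rw [hκdef]; linarith
  have hM1 : (1 : ℝ) ≤ M := by exact_mod_cast hM
  set A : ℝ := (max R₀ 2) ^ (40 / κ) + X₁ ^ 2 + 2 with hA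
  have hm2 : 2 ≤ max R₀ 2 := le_max_right _ _
  have hmp : 0 < (max R₀ 2) ^ (40 / κ) := Real.rpow_pos_of_pos (by linarith) _
  have hA2 : 2 ≤ A := by
    have : 0 ≤ X₁ ^ 2 := by positivity
    linarith
  have hA0 : 0 < A := by linarith
  have hterm0 : 0 ≤ 2 * M * κ₀ * (40 / (c₁ * κ)) := by positivity
  refine ⟨κ, 2 * M * κ₀ * (40 / (c₁ * κ)) + 8 * M * C₁, A ^ (14 / 5 : ℝ), hκ, hκ1, ?_, ?_, ?_⟩
  · nlinarith
  · exact Real.one_le_rpow (by linarith) (by norm_num)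
  intro X hX P hXP hPX
  have hX1 : 1 ≤ X := (Real.one_le_rpow (by linarith) (by norm_num)).trans hX
  have hAP : A ≤ P := by
    refine le_trans ?_ hXP
    calc A = (A ^ (14 / 5 : ℝ)) ^ (5 / 14 : ℝ) := by
          rw [← Real.rpow_mul hA0.le]; norm_num
      _ ≤ X ^ (5 / 14 : ℝ) := Real.rpow_le_rpow (by positivity) hX (by norm_num)
  have hP2 : 2 ≤ P := hA2.trans hAP
  have hP0 : 0 < P := by linarith
  have hPR : max R₀ 2 ≤ P ^ (κ / 40) := by
    calc max R₀ 2 = ((max R₀ 2) ^ (40 / κ)) ^ (κ / 40) := by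
          rw [← Real.rpow_mul (by linarith), show 40 / κ * (κ / 40) = 1 by field_simp]
          simp
      _ ≤ P ^ (κ / 40) := by
          refine Real.rpow_le_rpow hmp.le ?_ (by positivity)
          have : 0 ≤ X₁ ^ 2 := by positivity
          linarith
  have hPX1 : X₁ ≤ P ^ (1 / 2 : ℝ) := by
    rw [← Real.sqrt_eq_rpow]
    apply Real.le_sqrt_of_sq_le
    linarith
  obtain ⟨w, hw0, hw1, hw2, hw3⟩ := mj2_main S M hM (κ₀ := κ₀) (κ := κ) (C₁ := C₁) (X₁ := X₁)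
    (c₁ := c₁) (R₀ := R₀) (M₁ := M₁) hκ₀ hκ hκ1 hC₁ hX₁ hc₁ (by
      intro d s1 s2 x hx
      obtain ⟨g1, g2⟩ := hdiv d s1 s2 x hx
      refine ⟨g1, fun k hk hk2 => (g2 k hk hk2).trans ?_⟩
      refine mul_le_mul_of_nonneg_left ?_ (by positivity)
      refine Real.rpow_le_rpow_of_exponent_le ?_ (by rw [hκdef]; linarith)
      have hd : (1 : ℝ) ≤ (d : ℝ) ^ 2 := by
        have : (1 : ℝ) ≤ d := by exact_mod_cast Nat.pos_of_ne_zero s1.ne_zero
        nlinarith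
      have hx0 : 1 ≤ x / (d : ℝ) ^ 2 := hX₁.trans hx
      rw [le_div_iff₀ (by linarith)] at hx0
      linarith) hmass P hP2 hPR hPX1
  refine ⟨w, hw0, hw1, hw2, fun j hj hjX => ?_⟩
  refine (hw3 j hj (hjX.trans ?_)).trans ?_
  · have : X ≤ P ^ (14 / 5 : ℝ) := by
      calc X = (X ^ (5 / 14 : ℝ)) ^ (14 / 5 : ℝ) := by
            rw [← Real.rpow_mul (by linarith)]; norm_num
        _ ≤ P ^ (14 / 5 : ℝ) := Real.rpow_le_rpow (by positivity) hXP (by norm_num)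
    linarith
  · refine mul_le_mul_of_nonneg_right ?_ (by positivity)
    nlinarith

theorem majorant : type_of% @majorant_pr := @majorant_pr

end Pool.Agent.AQM
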