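import Pool.Agent.Lib_helper10.T2F.PHM
import Pool.Agent.Lib_helper39.AQM.Defs
import Pool.Agent.Lib_helper39.AQM.AB
import Pool.Agent.Lib_helper39.MQX.ALG
import Pool.Agent.Lib_helper39.MQX.SBA
import Pool.Agent.Lib_helper39.MQX.SBB
import Pool.Agent.Lib_helper39.MQX.SBC
import Pool.Agent.Lib_helper39.MQX.LSV
import Pool.Agent.Lib_helper39.MQX.PAR
import Pool.Agent.Lib_helper39.MQX.FEJ
import Pool.Agent.Lib_helper39.MQX.EXP
import Pool.Agent.Lib_helper39.AQMF.AL1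
import Pool.Agent.Lib_helper39.AQMF.MJ2

/-! block PH of AQM, proved by helper51 -/

/-! AQM block PH: `prime_hm` (template T2F/PHM.lean), by helper51. Cites `majorant`,
`ex_norm`, `ex_add`, `ex_neg`. -/

set_option autoImplicit false

namespace Pool.Agent.AQM

open Pool.Agent.MQ Pool.Agent.T2 Filter Topology MeasureTheory

theorem ph_ex_sub (k l : ℤ) (t : ℝ) :
    ex (k * t) * (starRingEnd ℂ) (ex (l * t)) = ex (((k - l : ℤ) : ℝ) * t) := by
  rw [← ex_neg, ← ex_add]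
  congr 1
  push_cast
  ring

theorem prime_hm_pr {b c : ℤ} (S : Sys b c) (hs : ¬ IsSquare (dsc b c)) (M : ℕ) (hM : 1 ≤ M) :
    ∃ α C X₀ : ℝ, 0 < α ∧ 1 ≤ C ∧ ∀ X : ℝ, X₀ ≤ X → ∀ U : Finset ℤ, U ⊆ Ks X →
    (U.card : ℝ) ≤ X ^ α → ∀ P : ℝ, X ^ (5 / 14 : ℝ) ≤ P → P ≤ X → ∀ (B : Finset ℕ) (k₀ : ℕ)
    (π : ℕ → El), 1 ≤ k₀ → k₀ ∣ M → (∀ p ∈ B, p.Prime ∧ P < (p : ℝ) ∧ (p : ℝ) ≤ 2 * P ∧
      S.wd (π p) ∧ nm b c (π p) = k₀ * p) → ∀ β : ℕ → ℂ, (∀ p, ‖β p‖ ≤ 1) →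
      ∑ k ∈ U, ‖∑ p ∈ B, β p * ex (k * S.u (π p))‖ ^ 2 ≤ C * (P / Real.log P) * B.card := by
  classical
  obtain ⟨κ, C, X₀, hκ, hκ1, hC, hX₀, hmaj⟩ := majorant S hs M hM
  refine ⟨(5 / 14 : ℝ) * (κ / 4), C + C * (2 / κ), max X₀ 2, by positivity, ?_, ?_⟩
  · have : 0 ≤ C * (2 / κ) := by positivity
    linarith
  intro X hX U hU hUc P hP hPX B k₀ π hk₀ hkM hB β₀ hβ₀
  have hX0' : X₀ ≤ X := (le_max_left _ _).trans hX
  have hX2 : 2 ≤ X := (le_max_right _ _).trans hX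
  have hX0 : 0 < X := by linarith
  have hP1 : 1 < P := by
    refine lt_of_lt_of_le ?_ hP
    exact Real.one_lt_rpow (by linarith) (by norm_num)
  have hP0 : 0 < P := by linarith
  have hlogP : 0 < Real.log P := Real.log_pos hP1
  obtain ⟨w, hw0, hw1, hwD, hwE⟩ := hmaj X hX0' P hP hPX
  set Δ : ℝ := C * (P / Real.log P) + C * P ^ (1 - 3 * κ / 4) * U.card with hΔ
  have hgr : ∀ k l : ℤ, ∀ z : El, ex (k * S.u z) * (starRingEnd ℂ) (ex (l * S.u z)) =
      ex (((k - l : ℤ) : ℝ) * S.u z) := fun k l z => ph_ex_sub k l (S.u z)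
  have hpel : ∀ p ∈ B, π p ∈ S.MF (2 * M * P) := by
    intro p hp
    obtain ⟨h1, h2, h3, h4, h5⟩ := hB p hp
    rw [mem_MF_pr]
    refine ⟨h4, ?_⟩
    rw [h5]
    push_cast
    have h6 : (k₀ : ℝ) ≤ M := by exact_mod_cast Nat.le_of_dvd hM hkM
    have h7 : (0 : ℝ) ≤ k₀ := by positivity
    calc (k₀ : ℝ) * p ≤ M * (2 * P) := by
          apply mul_le_mul h6 h3 (by positivity) (by positivity)
      _ = 2 * M * P := by ring
  have key : ∀ β : ℤ → ℂ, ∑ p ∈ B, ‖∑ k ∈ U, β k * ex (k * S.u (π p))‖ ^ 2 ≤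
      Δ * ∑ k ∈ U, ‖β k‖ ^ 2 := by
    intro β
    have h1 : ∑ p ∈ B, ‖∑ k ∈ U, β k * ex (k * S.u (π p))‖ ^ 2 ≤
        ∑ z ∈ S.MF (2 * M * P), w z * ‖∑ k ∈ U, β k * ex (k * S.u z)‖ ^ 2 := by
      have e1 : ∑ p ∈ B, ‖∑ k ∈ U, β k * ex (k * S.u (π p))‖ ^ 2 =
          ∑ z ∈ B.image π, w z * ‖∑ k ∈ U, β k * ex (k * S.u z)‖ ^ 2 := by
        rw [Finset.sum_image]
        · refine Finset.sum_congr rfl fun p hp => ?_
          obtain ⟨g1, g2, g3, g4, g5⟩ := hB p hp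
          rw [hw1 (π p) k₀ p g1 g2 hk₀ hkM g5, one_mul]
        · intro p hp q hq hpq
          obtain ⟨_, _, _, _, g5⟩ := hB p hp
          obtain ⟨_, _, _, _, g5'⟩ := hB q hq
          have h8 : (k₀ : ℤ) * p = k₀ * q := by rw [← g5, ← g5', hpq]
          have h9 : (k₀ : ℤ) ≠ 0 := by positivity
          exact_mod_cast mul_left_cancel₀ h9 h8
      rw [e1]
      refine Finset.sum_le_sum_of_subset_of_nonneg ?_ ?_
      · intro z hz
        obtain ⟨p, hp, rfl⟩ := Finset.mem_image.1 hz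
        exact hpel p hp
      · intro z hz _
        exact mul_nonneg (hw0 z hz) (by positivity)
    refine h1.trans ?_
    refine phm_gram U (S.MF (2 * M * P)) w (fun k z => ex (k * S.u z)) (C * (P / Real.log P))
      (C * P ^ (1 - 3 * κ / 4)) ?_ ?_ (by positivity) β
    · intro k _
      have e1 : ∑ z ∈ S.MF (2 * M * P),
          (w z : ℂ) * (ex (k * S.u z) * (starRingEnd ℂ) (ex (k * S.u z))) =
          ((∑ z ∈ S.MF (2 * M * P), w z : ℝ) : ℂ) := by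
        rw [Complex.ofReal_sum]
        refine Finset.sum_congr rfl fun z hz => ?_
        rw [Complex.mul_conj, Complex.normSq_eq_norm_sq, ex_norm]
        simp
      rw [e1, Complex.norm_real, Real.norm_of_nonneg (Finset.sum_nonneg hw0)]
      exact hwD
    · intro k hk l hl hkl
      have e1 : ∑ z ∈ S.MF (2 * M * P),
          (w z : ℂ) * (ex (k * S.u z) * (starRingEnd ℂ) (ex (l * S.u z))) =
          ∑ z ∈ S.MF (2 * M * P), (w z : ℂ) * ex (((k - l : ℤ) : ℝ) * S.u z) :=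
        Finset.sum_congr rfl fun z hz => by rw [hgr k l z]
      rw [e1]
      refine hwE (k - l) (sub_ne_zero.2 hkl) ?_
      have hk' := mem_Ks.1 (hU hk)
      have hl' := mem_Ks.1 (hU hl)
      push_cast
      calc |(k : ℝ) - l| ≤ |(k : ℝ)| + |(l : ℝ)| := abs_sub _ _
        _ ≤ 2 * X := by linarith
  have hfin := phm_dual U B (fun k p => ex (k * S.u (π p))) Δ (by positivity) key β₀
  have hbc : ∑ p ∈ B, ‖β₀ p‖ ^ 2 ≤ (B.card : ℝ) := by
    calc ∑ p ∈ B, ‖β₀ p‖ ^ 2 ≤ ∑ p ∈ B, (1 : ℝ) := by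
          refine Finset.sum_le_sum fun p _ => ?_
          have := hβ₀ p
          have h0 := norm_nonneg (β₀ p)
          nlinarith
      _ = B.card := by simp
  have hΔ' : Δ ≤ (C + C * (2 / κ)) * (P / Real.log P) := by
    have h1 : (U.card : ℝ) ≤ P ^ (κ / 4) := by
      refine hUc.trans ?_
      rw [Real.rpow_mul hX0.le]
      exact Real.rpow_le_rpow (by positivity) hP (by positivity)
    have h2 : C * P ^ (1 - 3 * κ / 4) * U.card ≤ C * P ^ (1 - κ / 2) := by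
      calc C * P ^ (1 - 3 * κ / 4) * U.card ≤ C * P ^ (1 - 3 * κ / 4) * P ^ (κ / 4) :=
            mul_le_mul_of_nonneg_left h1 (by positivity)
        _ = C * P ^ (1 - κ / 2) := by
            rw [mul_assoc, ← Real.rpow_add hP0]
            congr 2; ring
    have h3 : Real.log P ≤ P ^ (κ / 2) / (κ / 2) :=
      Real.log_le_rpow_div hP0.le (by positivity)
    have h4 : P ^ (1 - κ / 2) ≤ 2 / κ * (P / Real.log P) := by
      rw [mul_div_assoc', le_div_iff₀ hlogP]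
      calc P ^ (1 - κ / 2) * Real.log P ≤ P ^ (1 - κ / 2) * (P ^ (κ / 2) / (κ / 2)) :=
            mul_le_mul_of_nonneg_left h3 (by positivity)
        _ = 2 / κ * (P ^ (1 - κ / 2) * P ^ (κ / 2)) := by field_simp
        _ = 2 / κ * P := by
            rw [← Real.rpow_add hP0]; simp
    rw [hΔ]
    calc C * (P / Real.log P) + C * P ^ (1 - 3 * κ / 4) * U.card ≤
          C * (P / Real.log P) + C * (2 / κ * (P / Real.log P)) := by
          have := mul_le_mul_of_nonneg_left h4 (by linarith : 0 ≤ C)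
          linarith
      _ = _ := by ring
  calc ∑ k ∈ U, ‖∑ p ∈ B, β₀ p * ex (k * S.u (π p))‖ ^ 2 ≤ Δ * ∑ p ∈ B, ‖β₀ p‖ ^ 2 := hfin
    _ ≤ ((C + C * (2 / κ)) * (P / Real.log P)) * B.card :=
        mul_le_mul hΔ' hbc (Finset.sum_nonneg fun p _ => by positivity) (by positivity)

theorem prime_hm : type_of% @prime_hm_pr := @prime_hm_pr

end Pool.Agent.AQM
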