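import Pool.Agent.Lib_helper39.MQX.PAR
import Pool.Agent.Lib_helper39.AQM.Defs
import Pool.Agent.Lib_helper39.AQM.AB
import Pool.Agent.Lib_helper39.MQX.ALG
import Pool.Agent.Lib_helper39.MQX.SBA
import Pool.Agent.Lib_helper39.MQX.SBB
import Pool.Agent.Lib_helper39.MQX.SBC
import Pool.Agent.Lib_helper39.MQX.LSV
import Pool.Agent.Lib_helper39.MQX.FEJ
import Pool.Agent.Lib_helper39.MQX.EXP
import Pool.Agent.Lib_helper39.AQMF.PH
import Pool.Agent.Lib_helper39.AQMF.E2C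

/-! block E3 of AQM, proved by helper1 -/

/-! AQM. Block E3: one frequency. -/

set_option autoImplicit false

namespace Pool.Agent.AQM

open Pool.Agent.MQ Pool.Agent.T2 Filter Topology MeasureTheory

theorem e3_pow_sub (j : ℕ) {x y : ℂ} (hx : ‖x‖ ≤ 1) (hy : ‖y‖ ≤ 1) :
    ‖x ^ j - y ^ j‖ ≤ j * ‖x - y‖ := by
  induction j with
  | zero => simp
  | succ j ih =>
    have e : x ^ (j + 1) - y ^ (j + 1) = x * (x ^ j - y ^ j) + (x - y) * y ^ j := by ring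
    rw [e]
    have h1 : ‖x * (x ^ j - y ^ j)‖ ≤ j * ‖x - y‖ := by
      rw [norm_mul]
      calc ‖x‖ * ‖x ^ j - y ^ j‖ ≤ 1 * ‖x ^ j - y ^ j‖ :=
            mul_le_mul_of_nonneg_right hx (norm_nonneg _)
        _ ≤ j * ‖x - y‖ := by rw [one_mul]; exact ih
    have h2 : ‖(x - y) * y ^ j‖ ≤ ‖x - y‖ := by
      rw [norm_mul, norm_pow]
      calc ‖x - y‖ * ‖y‖ ^ j ≤ ‖x - y‖ * 1 :=
            mul_le_mul_of_nonneg_left (pow_le_one₀ (norm_nonneg _) hy) (norm_nonneg _)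
        _ = ‖x - y‖ := mul_one _
    have h3 := norm_add_le (x * (x ^ j - y ^ j)) ((x - y) * y ^ j)
    push_cast
    linarith

/-- a large sum of unimodular numbers is close to a constant -/
theorem e3_const {B : Finset ℕ} {z : ℕ → ℂ} (hz : ∀ p ∈ B, ‖z p‖ = 1) {η : ℝ} (hη : 0 ≤ η)
    (h : (1 - η) * (B.card : ℝ) ^ 2 ≤ ‖∑ p ∈ B, z p‖ ^ 2) :
    ∃ θ : ℂ, ‖θ‖ = 1 ∧ ∑ p ∈ B, ‖z p - θ‖ ^ 2 ≤ 2 * η * B.card := by
  set Q := ∑ p ∈ B, z p with hQ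
  have hQle : ‖Q‖ ≤ B.card := by
    calc ‖Q‖ ≤ ∑ p ∈ B, ‖z p‖ := norm_sum_le _ _
      _ = ∑ p ∈ B, (1 : ℝ) := Finset.sum_congr rfl hz
      _ = B.card := by simp
  -- the direction
  obtain ⟨θ, hθ, hθQ⟩ : ∃ θ : ℂ, ‖θ‖ = 1 ∧ (starRingEnd ℂ) θ * Q = (‖Q‖ : ℂ) := by
    by_cases h0 : Q = 0
    · exact ⟨1, by simp, by rw [h0]; simp⟩
    · have hn : (‖Q‖ : ℂ) ≠ 0 := by exact_mod_cast norm_ne_zero_iff.2 h0
      have hn' : ‖Q‖ ≠ 0 := norm_ne_zero_iff.2 h0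
      refine ⟨Q / ‖Q‖, ?_, ?_⟩
      · rw [norm_div, Complex.norm_real, norm_norm, div_self hn']
      · rw [map_div₀, Complex.conj_ofReal, div_mul_eq_mul_div, mul_comm, Complex.mul_conj,
          Complex.normSq_eq_norm_sq]
        push_cast
        field_simp
  refine ⟨θ, hθ, ?_⟩
  have hterm : ∀ p ∈ B, ‖z p - θ‖ ^ 2 = 2 - 2 * ((starRingEnd ℂ) θ * z p).re := by
    intro p hp
    have e1 : ‖z p - θ‖ ^ 2 = Complex.normSq (z p - θ) := (Complex.normSq_eq_norm_sq _).symm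
    rw [e1, Complex.normSq_sub, Complex.normSq_eq_norm_sq, Complex.normSq_eq_norm_sq, hz p hp, hθ,
      mul_comm (z p)]
    ring
  rw [Finset.sum_congr rfl hterm, Finset.sum_sub_distrib, ← Finset.mul_sum, ← Complex.re_sum,
    ← Finset.mul_sum, ← hQ, hθQ, Complex.ofReal_re, Finset.sum_const, nsmul_eq_mul]
  have hc : (0 : ℝ) ≤ B.card := Nat.cast_nonneg _
  have h1 : (1 - η) * (B.card : ℝ) ≤ ‖Q‖ := by
    rcases hc.eq_or_lt with h0 | h0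
    · rw [← h0, mul_zero]; exact norm_nonneg _
    · by_contra hcon
      push Not at hcon
      have h2 : ‖Q‖ * ‖Q‖ < (1 - η) * (B.card : ℝ) ^ 2 := by
        calc ‖Q‖ * ‖Q‖ ≤ ‖Q‖ * B.card := mul_le_mul_of_nonneg_left hQle (norm_nonneg _)
          _ < (1 - η) * B.card * B.card := mul_lt_mul_of_pos_right hcon h0
          _ = (1 - η) * (B.card : ℝ) ^ 2 := by ring
      nlinarith
  linarith

theorem e3_pair {B : Finset ℕ} {z z' : ℕ → ℂ} (hz : ∀ p ∈ B, ‖z p‖ = 1)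
    (hz' : ∀ p ∈ B, ‖z' p‖ = 1) {η : ℝ} (hη : 0 ≤ η)
    (h : (1 - η) * (B.card : ℝ) ^ 2 ≤ ‖∑ p ∈ B, z p‖ ^ 2)
    (h' : (1 - η) * (B.card : ℝ) ^ 2 ≤ ‖∑ p ∈ B, z' p‖ ^ 2) (j : ℕ) :
    (1 - j * Real.sqrt (8 * η)) * B.card ≤ ‖∑ p ∈ B, (z p * (starRingEnd ℂ) (z' p)) ^ j‖ := by
  obtain ⟨θ, t1, t2⟩ := e3_const hz hη h
  obtain ⟨θ', t1', t2'⟩ := e3_const hz' hη h'
  set ω := θ * (starRingEnd ℂ) θ' with hω
  have hωn : ‖ω‖ = 1 := by rw [hω, norm_mul, Complex.norm_conj, t1, t1', one_mul]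
  have hterm : ∀ p ∈ B, ‖(z p * (starRingEnd ℂ) (z' p)) ^ j - ω ^ j‖ ≤
      j * (‖z p - θ‖ + ‖z' p - θ'‖) := by
    intro p hp
    have n1 : ‖z p * (starRingEnd ℂ) (z' p)‖ = 1 := by
      rw [norm_mul, Complex.norm_conj, hz p hp, hz' p hp, one_mul]
    refine le_trans (e3_pow_sub j n1.le hωn.le) ?_
    apply mul_le_mul_of_nonneg_left _ (Nat.cast_nonneg _)
    have e : z p * (starRingEnd ℂ) (z' p) - ω = (z p - θ) * (starRingEnd ℂ) (z' p) +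
        θ * (starRingEnd ℂ) (z' p - θ') := by
      rw [hω, map_sub]; ring
    rw [e]
    refine le_trans (norm_add_le _ _) ?_
    rw [norm_mul, norm_mul, Complex.norm_conj, Complex.norm_conj, hz' p hp, t1, mul_one, one_mul]
  -- Cauchy-Schwarz
  have hsum : ∑ p ∈ B, (‖z p - θ‖ + ‖z' p - θ'‖) ≤ Real.sqrt (8 * η) * B.card := by
    have hc : (0 : ℝ) ≤ B.card := Nat.cast_nonneg _
    have hcs : (∑ p ∈ B, (‖z p - θ‖ + ‖z' p - θ'‖)) ^ 2 ≤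
        B.card * ∑ p ∈ B, (‖z p - θ‖ + ‖z' p - θ'‖) ^ 2 := sq_sum_le_card_mul_sum_sq
    have h2 : ∑ p ∈ B, (‖z p - θ‖ + ‖z' p - θ'‖) ^ 2 ≤ 8 * η * B.card := by
      calc ∑ p ∈ B, (‖z p - θ‖ + ‖z' p - θ'‖) ^ 2
          ≤ ∑ p ∈ B, (2 * ‖z p - θ‖ ^ 2 + 2 * ‖z' p - θ'‖ ^ 2) := by
            apply Finset.sum_le_sum
            intro p _
            nlinarith [sq_nonneg (‖z p - θ‖ - ‖z' p - θ'‖)]
        _ = 2 * ∑ p ∈ B, ‖z p - θ‖ ^ 2 + 2 * ∑ p ∈ B, ‖z' p - θ'‖ ^ 2 := by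
            rw [Finset.sum_add_distrib, Finset.mul_sum, Finset.mul_sum]
        _ ≤ 8 * η * B.card := by linarith
    have h3 : 0 ≤ ∑ p ∈ B, (‖z p - θ‖ + ‖z' p - θ'‖) :=
      Finset.sum_nonneg fun p _ => add_nonneg (norm_nonneg _) (norm_nonneg _)
    apply abs_le_of_sq_le_sq' _ (by positivity) |>.2
    rw [mul_pow, Real.sq_sqrt (by positivity)]
    calc (∑ p ∈ B, (‖z p - θ‖ + ‖z' p - θ'‖)) ^ 2
        ≤ B.card * ∑ p ∈ B, (‖z p - θ‖ + ‖z' p - θ'‖) ^ 2 := hcs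
      _ ≤ B.card * (8 * η * B.card) := mul_le_mul_of_nonneg_left h2 hc
      _ = 8 * η * (B.card : ℝ) ^ 2 := by ring
  have hbig : ‖∑ p ∈ B, ω ^ j‖ = B.card := by
    rw [Finset.sum_const, nsmul_eq_mul, norm_mul, norm_pow, hωn, one_pow, mul_one,
      Complex.norm_natCast]
  have hdiff : ‖∑ p ∈ B, (z p * (starRingEnd ℂ) (z' p)) ^ j - ∑ p ∈ B, ω ^ j‖ ≤
      j * (Real.sqrt (8 * η) * B.card) := by
    rw [← Finset.sum_sub_distrib]
    refine le_trans (norm_sum_le _ _) (le_trans (Finset.sum_le_sum hterm) ?_)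
    rw [← Finset.mul_sum]
    exact mul_le_mul_of_nonneg_left hsum (Nat.cast_nonneg _)
  have htri := norm_sub_norm_le (∑ p ∈ B, ω ^ j) (∑ p ∈ B, (z p * (starRingEnd ℂ) (z' p)) ^ j)
  rw [norm_sub_rev] at hdiff
  rw [hbig] at htri
  linarith

theorem e3_ex_pow (t : ℝ) (n : ℕ) : ex t ^ n = ex (n * t) := by
  induction n with
  | zero =>
    rw [pow_zero, Nat.cast_zero, zero_mul]
    have := par_ex_int 0
    rw [Int.cast_zero] at this
    exact this.symm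
  | succ n ih =>
    rw [pow_succ, ih, ← par_ex_add]
    congr 1
    push_cast
    ring

theorem e3_conj (t : ℝ) : (starRingEnd ℂ) (ex t) = ex (-t) := by
  unfold ex
  rw [← Complex.exp_conj]
  congr 1
  simp only [map_mul, Complex.conj_I, Complex.conj_ofReal, map_ofNat]
  push_cast
  ring

/-- symmetry of the coefficients of a real function -/
theorem e3_sym (F : ℝ → ℝ) (k : ℤ) : ‖fc F (-k)‖ = ‖fc F k‖ := by
  have h : fc F (-k) = (starRingEnd ℂ) (fc F k) := by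
    unfold fc
    rw [intervalIntegral.integral_of_le zero_le_one, intervalIntegral.integral_of_le zero_le_one,
      ← integral_conj]
    apply integral_congr_ae
    refine Filter.Eventually.of_forall fun t => ?_
    simp only [map_mul, Complex.conj_ofReal]
    rw [e3_conj]
    congr 2
    push_cast
    ring
  rw [h, Complex.norm_conj]

theorem e3_mass {F : ℝ → ℝ} (hp : ∀ t, F (t + 1) = F t) (hm : Measurable F)
    (h1 : ∀ t, F t = 1 ∨ F t = -1) (U : Finset ℤ) : ∑ k ∈ U, ‖fc F k‖ ^ 2 ≤ 1 := by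
  obtain ⟨a1, a2, _⟩ := parseval_pr hp hm h1
  rw [← a2]
  exact a1.sum_le_tsum U (fun k _ => by positivity)

theorem e3_Ks {N : ℝ} {k : ℤ} (h : k ∈ Ks N) : |(k : ℝ)| ≤ N := by
  unfold Ks at h
  rw [Finset.mem_Icc] at h
  have h1 : |k| ≤ ⌊N⌋ := abs_le.2 h
  have h2 : (|k| : ℝ) ≤ (⌊N⌋ : ℝ) := by exact_mod_cast h1
  exact le_trans h2 (Int.floor_le N)

theorem e3_mem_Ks {N : ℝ} {k : ℤ} (h : |(k : ℝ)| ≤ N) : k ∈ Ks N := by
  unfold Ks
  rw [Finset.mem_Icc, ← abs_le]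
  apply Int.le_floor.2
  push_cast
  exact h

theorem e3_large (J : ℕ) (hJ : 1 ≤ J) {α : ℝ} (hα : 0 < α) (X₀ : ℝ) : ∃ N₂ : ℝ, ∀ N : ℝ, N₂ ≤ N →
    2 ≤ N ∧ X₀ ≤ 2 * J * N ∧ (J : ℝ) ≤ (2 * J * N) ^ α ∧
      (2 * J * N) ^ (5 / 14 : ℝ) ≤ N ^ (9 / 25 : ℝ) := by
  have hJ0 : (0 : ℝ) < J := by exact_mod_cast hJ
  have t1 : Tendsto (fun N : ℝ => 2 * (J : ℝ) * N) atTop atTop :=
    Filter.Tendsto.const_mul_atTop (by positivity) tendsto_id
  have t2 : Tendsto (fun N : ℝ => (2 * (J : ℝ) * N) ^ α) atTop atTop :=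
    (tendsto_rpow_atTop hα).comp t1
  have t3 : Tendsto (fun N : ℝ => N ^ (1 / 350 : ℝ)) atTop atTop :=
    tendsto_rpow_atTop (by norm_num)
  have h := ((eventually_ge_atTop (2 : ℝ)).and (t1.eventually_ge_atTop X₀)).and
    ((t2.eventually_ge_atTop (J : ℝ)).and (t3.eventually_ge_atTop ((2 * (J : ℝ)) ^ (5 / 14 : ℝ))))
  obtain ⟨N₂, hN₂⟩ := Filter.eventually_atTop.1 h
  refine ⟨N₂, fun N hN => ?_⟩
  obtain ⟨⟨a1, a2⟩, a3, a4⟩ := hN₂ N hN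
  refine ⟨a1, a2, a3, ?_⟩
  have hN0 : 0 < N := by linarith
  rw [Real.mul_rpow (by positivity) hN0.le]
  calc (2 * (J : ℝ)) ^ (5 / 14 : ℝ) * N ^ (5 / 14 : ℝ)
      ≤ N ^ (1 / 350 : ℝ) * N ^ (5 / 14 : ℝ) := mul_le_mul_of_nonneg_right a4 (by positivity)
    _ = N ^ (9 / 25 : ℝ) := by
        rw [← Real.rpow_add hN0]; norm_num

/-- two large frequencies of the same block coincide -/
theorem e3_unique {b c : ℤ} (A : Ang b c) {M : ℕ} {h : ℕ → ℤ} (hh : Sgn h) {N P c₁ C η : ℝ}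
    {J : ℕ} (hJ : 1 ≤ J) (hJC : 4 * C / c₁ < J) (hc₁ : 0 < c₁)
    (hη : η = 1 / (32 * ((A.mu : ℝ) * J) ^ 2)) {B : Finset ℕ} {k₀ : ℕ} {r : El} {π : ℕ → El}
    (hTP : TP A M B k₀ r π) (hB : ∀ p ∈ B, P < (p : ℝ) ∧ (p : ℝ) ≤ 2 * P)
    (hBc : c₁ * (P / Real.log P) ≤ (B.card : ℝ)) (hPl : 0 < P / Real.log P) (hC : 0 < C)
    (hph : ∀ U : Finset ℤ, U ⊆ Ks (2 * J * N) → U.card ≤ J → ∀ (π' : ℕ → El),
      (∀ p ∈ B, p.Prime ∧ P < (p : ℝ) ∧ (p : ℝ) ≤ 2 * P ∧ A.S.wd (π' p) ∧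
        nm b c (π' p) = k₀ * p) →
      ∑ k ∈ U, ‖∑ p ∈ B, (1 : ℂ) * ex (k * A.S.u (π' p))‖ ^ 2 ≤ C * (P / Real.log P) * B.card)
    {k k' : ℤ} (hk : |(k : ℝ)| ≤ N) (hk' : |(k' : ℝ)| ≤ N)
    (h1 : (1 - η) * (B.card : ℝ) ^ 2 ≤ ‖Qv A h π k B‖ ^ 2)
    (h2 : (1 - η) * (B.card : ℝ) ^ 2 ≤ ‖Qv A h π k' B‖ ^ 2) : k = k' := by
  by_contra hne
  set l := k - k' with hl
  have hl0 : l ≠ 0 := sub_ne_zero.2 hne
  have hJ0 : (0 : ℝ) < J := by exact_mod_cast hJ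
  have hμ : (1 : ℝ) ≤ A.mu := by exact_mod_cast A.mu_pos
  have hμ0 : (0 : ℝ) < A.mu := by linarith
  have hη0 : 0 ≤ η := by rw [hη]; positivity
  have hn0 : (0 : ℝ) < B.card := lt_of_lt_of_le (mul_pos hc₁ hPl) hBc
  have hwd : ∀ p ∈ B, 0 < nm b c (π p) := fun p hp => A.wd_nm _ (hTP.wd p hp)
  have hgpm : ∀ p ∈ B, gg b c h (π p) = 1 ∨ gg b c h (π p) = -1 := fun p hp =>
    hh.pm _ (Int.natAbs_pos.2 (hwd p hp).ne')
  set z : ℕ → ℂ := fun p => (gg b c h (π p) : ℂ) * ex (k * A.u (π p)) with hz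
  set z' : ℕ → ℂ := fun p => (gg b c h (π p) : ℂ) * ex (k' * A.u (π p)) with hz'
  have hgn : ∀ p ∈ B, ‖(gg b c h (π p) : ℂ)‖ = 1 := by
    intro p hp
    rcases hgpm p hp with e | e <;> rw [e] <;> simp
  have hzn : ∀ p ∈ B, ‖z p‖ = 1 := by
    intro p hp
    rw [hz]; simp only
    rw [norm_mul, hgn p hp, par_ex_norm, one_mul]
  have hzn' : ∀ p ∈ B, ‖z' p‖ = 1 := by
    intro p hp
    rw [hz']; simp only
    rw [norm_mul, hgn p hp, par_ex_norm, one_mul]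
  have hprod : ∀ p ∈ B, z p * (starRingEnd ℂ) (z' p) = ex (l * A.u (π p)) := by
    intro p hp
    rw [hz, hz']; simp only
    rw [map_mul, e3_conj]
    have e1 : (starRingEnd ℂ) (gg b c h (π p) : ℂ) = (gg b c h (π p) : ℂ) := by
      rw [map_intCast]
    rw [e1]
    have e2 : (gg b c h (π p) : ℂ) * (gg b c h (π p) : ℂ) = 1 := by
      rcases hgpm p hp with e | e <;> rw [e] <;> simp
    calc (gg b c h (π p) : ℂ) * ex (k * A.u (π p)) *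
          ((gg b c h (π p) : ℂ) * ex (-(k' * A.u (π p))))
        = ((gg b c h (π p) : ℂ) * (gg b c h (π p) : ℂ)) *
          (ex (k * A.u (π p)) * ex (-(k' * A.u (π p)))) := by ring
      _ = ex (l * A.u (π p)) := by
          rw [e2, one_mul, ← par_ex_add]
          congr 1
          rw [hl]; push_cast; ring
  -- the powers
  have hpow : ∀ p ∈ B, ∀ j : ℕ, (z p * (starRingEnd ℂ) (z' p)) ^ (A.mu * j) =
      ex (((j : ℤ) * l : ℤ) * A.S.u (A.S.rp (π p))) := by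
    intro p hp j
    rw [hprod p hp, e3_ex_pow]
    obtain ⟨n, hn⟩ := A.u_S (π p) (hTP.wd p hp)
    have e : ((A.mu * j : ℕ) : ℝ) * (l * A.u (π p)) =
        ((j : ℤ) * l : ℤ) * A.S.u (A.S.rp (π p)) + (((j : ℤ) * l * n : ℤ) : ℝ) := by
      push_cast
      have : (A.mu : ℝ) * j * (l * A.u (π p)) = j * l * ((A.mu : ℝ) * A.u (π p)) := by ring
      rw [this, hn]
      ring
    rw [e, par_ex_add, par_ex_int, mul_one]
  have hbig : ∀ j : ℕ, j ≤ J → (B.card : ℝ) / 2 ≤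
      ‖∑ p ∈ B, (1 : ℂ) * ex (((j : ℤ) * l : ℤ) * A.S.u (A.S.rp (π p)))‖ := by
    intro j hj
    have h3 := e3_pair hzn hzn' hη0 (by exact h1) (by exact h2) (A.mu * j)
    have e : ∑ p ∈ B, (z p * (starRingEnd ℂ) (z' p)) ^ (A.mu * j) =
        ∑ p ∈ B, (1 : ℂ) * ex (((j : ℤ) * l : ℤ) * A.S.u (A.S.rp (π p))) := by
      apply Finset.sum_congr rfl
      intro p hp
      rw [hpow p hp j, one_mul]
    rw [e] at h3
    refine le_trans ?_ h3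
    have hsq : Real.sqrt (8 * η) = 1 / (2 * (A.mu * J)) := by
      rw [hη]
      have : 8 * (1 / (32 * ((A.mu : ℝ) * J) ^ 2)) = (1 / (2 * (A.mu * J))) ^ 2 := by
        field_simp
        norm_num
      rw [this, Real.sqrt_sq (by positivity)]
    rw [hsq]
    have h4 : ((A.mu * j : ℕ) : ℝ) * (1 / (2 * (A.mu * J))) ≤ 1 / 2 := by
      push_cast
      have hj' : (j : ℝ) ≤ J := by exact_mod_cast hj
      rw [mul_one_div, div_le_div_iff₀ (by positivity) (by norm_num)]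
      nlinarith
    nlinarith
  -- the set of frequencies
  set U : Finset ℤ := (Finset.Icc 1 J).image (fun j : ℕ => (j : ℤ) * l) with hU
  have hinj : Set.InjOn (fun j : ℕ => (j : ℤ) * l) (Finset.Icc 1 J : Set ℕ) := by
    intro x _ y _ hxy
    have := mul_right_cancel₀ hl0 hxy
    exact_mod_cast this
  have hUc : U.card = J := by
    rw [hU, Finset.card_image_of_injOn hinj, Nat.card_Icc, Nat.add_sub_cancel]
  have hUK : U ⊆ Ks (2 * J * N) := by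
    intro x hx
    rw [hU, Finset.mem_image] at hx
    obtain ⟨j, hj, rfl⟩ := hx
    rw [Finset.mem_Icc] at hj
    apply e3_mem_Ks
    have hlN : |(l : ℝ)| ≤ 2 * N := by
      rw [hl]; push_cast
      refine le_trans (abs_sub _ _) ?_
      linarith
    have hjJ : (j : ℝ) ≤ J := by exact_mod_cast hj.2
    push_cast
    rw [abs_mul, Nat.abs_cast]
    have hN0 : 0 ≤ 2 * N := le_trans (abs_nonneg _) hlN
    calc (j : ℝ) * |(l : ℝ)| ≤ J * (2 * N) :=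
          mul_le_mul hjJ hlN (abs_nonneg _) hJ0.le
      _ = 2 * J * N := by ring
  have hfin := hph U hUK hUc.le (fun p => A.S.rp (π p)) (by
    intro p hp
    refine ⟨hTP.prime p hp, (hB p hp).1, (hB p hp).2, A.S.rp_wd _ (hwd p hp), ?_⟩
    obtain ⟨o, o1, _, o3⟩ := A.S.rp_unit _ (hwd p hp)
    rw [o3, nm_ml, o1, one_mul, hTP.nm p hp])
  have hlow : (J : ℝ) * ((B.card : ℝ) / 2) ^ 2 ≤
      ∑ x ∈ U, ‖∑ p ∈ B, (1 : ℂ) * ex (x * A.S.u (A.S.rp (π p)))‖ ^ 2 := by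
    rw [hU, Finset.sum_image hinj]
    calc (J : ℝ) * ((B.card : ℝ) / 2) ^ 2
        = ∑ j ∈ Finset.Icc 1 J, ((B.card : ℝ) / 2) ^ 2 := by
          rw [Finset.sum_const, Nat.card_Icc, Nat.add_sub_cancel, nsmul_eq_mul]
      _ ≤ _ := by
          apply Finset.sum_le_sum
          intro j hj
          exact pow_le_pow_left₀ (by positivity) (hbig j (Finset.mem_Icc.1 hj).2) 2
  have h5 : (J : ℝ) * ((B.card : ℝ) / 2) ^ 2 ≤ C * (P / Real.log P) * B.card :=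
    le_trans hlow hfin
  have h6 : C * (P / Real.log P) * B.card ≤ C / c₁ * (B.card : ℝ) ^ 2 := by
    have : P / Real.log P ≤ B.card / c₁ := by
      rw [le_div_iff₀ hc₁]; linarith
    calc C * (P / Real.log P) * B.card ≤ C * (B.card / c₁) * B.card := by gcongr
      _ = C / c₁ * (B.card : ℝ) ^ 2 := by ring
  have h7 : (J : ℝ) / 4 * (B.card : ℝ) ^ 2 ≤ C / c₁ * (B.card : ℝ) ^ 2 := by
    calc (J : ℝ) / 4 * (B.card : ℝ) ^ 2 = (J : ℝ) * ((B.card : ℝ) / 2) ^ 2 := by ring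
      _ ≤ _ := le_trans h5 h6
  have h8 : (J : ℝ) / 4 ≤ C / c₁ := le_of_mul_le_mul_right h7 (by positivity)
  have h9 : 4 * C / c₁ = 4 * (C / c₁) := by ring
  rw [h9] at hJC
  linarith

theorem one_freq_pr {b c : ℤ} (A : Ang b c) (hs : ¬ IsSquare (dsc b c)) {M : ℕ} {T : El → Prop}
    (hT : Cls A M T) (hM : GoodM A M) (ε₃ : ℝ) (hε₃ : 0 < ε₃) : ∃ ε H N₀ : ℝ,
    0 < ε ∧ 16 ≤ H ∧ ∀ N : ℝ, N₀ ≤ N → ∀ h : ℕ → ℤ, Sgn h → ∀ F : ℝ → ℝ,
      LocH A h M T N H ε F → 1 - ε₃ ≤ ‖fc F 0‖ ^ 2 := by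
  obtain ⟨c₁, hc₁, hbil⟩ := bilin A hs hT hM
  obtain ⟨α, C, X₀, hα, hC, hph⟩ := prime_hm A.S hs M hM.1
  have hC0 : 0 < C := by linarith
  set J : ℕ := ⌊4 * C / c₁⌋₊ + 1 with hJ
  have hJ1 : 1 ≤ J := by omega
  have hJC : 4 * C / c₁ < J := by
    rw [hJ]; push_cast; exact Nat.lt_floor_add_one _
  have hJ0 : (0 : ℝ) < J := by exact_mod_cast hJ1
  have hμ : (1 : ℝ) ≤ A.mu := by exact_mod_cast A.mu_pos
  set η : ℝ := 1 / (32 * ((A.mu : ℝ) * J) ^ 2) with hη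
  have hη0 : 0 < η := by rw [hη]; positivity
  set ε₂ : ℝ := η * min ε₃ (1 / 4) with hε₂
  have hε₂0 : 0 < ε₂ := by
    rw [hε₂]; exact mul_pos hη0 (lt_min hε₃ (by norm_num))
  obtain ⟨ε, H, N₁, hε, hH, hN⟩ := hbil ε₂ hε₂0
  obtain ⟨N₂, hN₂⟩ := e3_large J hJ1 hα X₀
  refine ⟨ε, H, max N₁ N₂, hε, hH, ?_⟩
  intro N hNN h hh F hF
  obtain ⟨U, P, B, k₀, r, π, hU, hP1, hP2, hTP, hB, hBc, hsum⟩ :=
    hN N (le_trans (le_max_left _ _) hNN) h hh F hF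
  obtain ⟨n1, n2, n3, n4⟩ := hN₂ N (le_trans (le_max_right _ _) hNN)
  have hN0 : 0 < N := by linarith
  have hP : 1 < P := lt_of_lt_of_le (Real.one_lt_rpow (by linarith) (by norm_num)) hP1
  have hPl : 0 < P / Real.log P := div_pos (by linarith) (Real.log_pos hP)
  have hn0 : (0 : ℝ) < B.card := lt_of_lt_of_le (mul_pos hc₁ hPl) hBc
  have hP3 : P ≤ 2 * J * N := by
    calc P ≤ N ^ (2 / 5 : ℝ) := hP2
      _ ≤ N ^ (1 : ℝ) := Real.rpow_le_rpow_of_exponent_le (by linarith) (by norm_num)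
      _ = N := Real.rpow_one N
      _ ≤ 2 * J * N := by
          have : (1 : ℝ) ≤ J := by exact_mod_cast hJ1
          nlinarith
  -- uniqueness
  have huniq : ∀ k ∈ U, ∀ k' ∈ U, (1 - η) * (B.card : ℝ) ^ 2 ≤ ‖Qv A h π k B‖ ^ 2 →
      (1 - η) * (B.card : ℝ) ^ 2 ≤ ‖Qv A h π k' B‖ ^ 2 → k = k' := by
    intro k hk k' hk' h1 h2
    refine e3_unique A hh hJ1 hJC hc₁ hη hTP hB hBc hPl hC0 ?_ (e3_Ks (hU hk)) (e3_Ks (hU hk'))
      h1 h2
    intro U' hU' hU'c π' hπ'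
    refine hph (2 * J * N) n2 U' hU' ?_ P (le_trans n4 hP1) hP3 B k₀ π' hTP.k1 hTP.kM hπ'
      (fun _ => 1) (fun _ => by simp)
    refine le_trans ?_ n3
    exact_mod_cast hU'c
  -- the mass
  set a : ℤ → ℝ := fun k => ‖fc F k‖ ^ 2 with ha
  have ha0 : ∀ k, 0 ≤ a k := fun k => by rw [ha]; positivity
  have hmass := e3_mass hF.per hF.meas hF.pm
  set G := U.filter (fun k => (1 - η) * (B.card : ℝ) ^ 2 ≤ ‖Qv A h π k B‖ ^ 2) with hG
  have hQle : ∀ k, ‖Qv A h π k B‖ ^ 2 ≤ (B.card : ℝ) ^ 2 := by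
    intro k
    apply pow_le_pow_left₀ (norm_nonneg _)
    unfold Qv
    refine le_trans (norm_sum_le _ _) ?_
    have : ∀ p ∈ B, ‖(gg b c h (π p) : ℂ) * ex (k * A.u (π p))‖ = 1 := by
      intro p hp
      have hw := A.wd_nm _ (hTP.wd p hp)
      rw [norm_mul, par_ex_norm, mul_one]
      rcases hh.pm _ (Int.natAbs_pos.2 hw.ne') with e | e <;>
        (unfold gg; rw [e]; simp)
    rw [Finset.sum_congr rfl this]
    simp
  have hsplit : ∑ k ∈ U, a k * ‖Qv A h π k B‖ ^ 2 ≤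
      (B.card : ℝ) ^ 2 * (∑ k ∈ G, a k + (1 - η) * (∑ k ∈ U, a k - ∑ k ∈ G, a k)) := by
    have e1 : ∑ k ∈ U, a k - ∑ k ∈ G, a k =
        ∑ k ∈ U.filter (fun k => ¬ (1 - η) * (B.card : ℝ) ^ 2 ≤ ‖Qv A h π k B‖ ^ 2), a k := by
      rw [hG, ← Finset.sum_filter_add_sum_filter_not U
        (fun k => (1 - η) * (B.card : ℝ) ^ 2 ≤ ‖Qv A h π k B‖ ^ 2) a]
      ring
    rw [e1, ← Finset.sum_filter_add_sum_filter_not U
      (fun k => (1 - η) * (B.card : ℝ) ^ 2 ≤ ‖Qv A h π k B‖ ^ 2)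
      (fun k => a k * ‖Qv A h π k B‖ ^ 2), mul_add, ← hG]
    apply add_le_add
    · rw [Finset.mul_sum]
      apply Finset.sum_le_sum
      intro k _
      rw [mul_comm]
      exact mul_le_mul_of_nonneg_right (hQle k) (ha0 k)
    · rw [← mul_assoc, Finset.mul_sum]
      apply Finset.sum_le_sum
      intro k hk
      rw [Finset.mem_filter] at hk
      have := hk.2
      push Not at this
      nlinarith [ha0 k]
  have hGm : 1 - min ε₃ (1 / 4) ≤ ∑ k ∈ G, a k := by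
    have h1 : (1 - ε₂) * (B.card : ℝ) ^ 2 ≤
        (B.card : ℝ) ^ 2 * (∑ k ∈ G, a k + (1 - η) * (∑ k ∈ U, a k - ∑ k ∈ G, a k)) :=
      le_trans hsum hsplit
    have h2 : 1 - ε₂ ≤ ∑ k ∈ G, a k + (1 - η) * (∑ k ∈ U, a k - ∑ k ∈ G, a k) := by
      have hnn : 0 < (B.card : ℝ) ^ 2 := by positivity
      rw [mul_comm] at h1
      exact le_of_mul_le_mul_left h1 hnn
    have h3 : ∑ k ∈ U, a k ≤ 1 := hmass U
    have hη1 : η ≤ 1 := by
      rw [hη, div_le_one (by positivity)]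
      have : (1 : ℝ) ≤ J := by exact_mod_cast hJ1
      nlinarith [mul_le_mul hμ this (by norm_num) (by linarith)]
    have h4 : η * (1 - min ε₃ (1 / 4)) ≤ η * ∑ k ∈ G, a k := by
      have : ε₂ = η * min ε₃ (1 / 4) := hε₂
      nlinarith
    exact le_of_mul_le_mul_left h4 hη0
  have hm4 : min ε₃ (1 / 4) ≤ 1 / 4 := min_le_right _ _
  have hGne : G.Nonempty := by
    by_contra hc
    rw [Finset.not_nonempty_iff_eq_empty] at hc
    rw [hc, Finset.sum_empty] at hGm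
    linarith
  obtain ⟨k₁, hk₁⟩ := hGne
  have hGs : G = {k₁} := by
    apply Finset.eq_singleton_iff_unique_mem.2
    refine ⟨hk₁, fun k hk => ?_⟩
    rw [hG, Finset.mem_filter] at hk hk₁
    exact huniq k hk.1 k₁ hk₁.1 hk.2 hk₁.2
  rw [hGs, Finset.sum_singleton] at hGm
  have hzero : k₁ = 0 := by
    by_contra hne
    have hne' : k₁ ≠ -k₁ := by omega
    have h1 := hmass {k₁, -k₁}
    rw [Finset.sum_pair hne', e3_sym] at h1
    have h2 : a k₁ = ‖fc F k₁‖ ^ 2 := rfl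
    linarith
  rw [hzero] at hGm
  have h3 : min ε₃ (1 / 4) ≤ ε₃ := min_le_left _ _
  have h4 : a 0 = ‖fc F 0‖ ^ 2 := rfl
  linarith

theorem one_freq : type_of% @one_freq_pr := @one_freq_pr

end Pool.Agent.AQM
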