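import Pool.Agent.Lib_helper39.AQM.Defs
import Pool.Agent.Lib_helper39.AQM.AB
import Pool.Agent.Lib_helper39.MQX.ALG
import Pool.Agent.Lib_helper39.MQX.SBA
import Pool.Agent.Lib_helper39.MQX.SBB
import Pool.Agent.Lib_helper39.MQX.SBC
import Pool.Agent.Lib_helper39.MQX.LSV
import Pool.Agent.Lib_helper39.MQX.PAR
import Pool.Agent.Lib_helper39.MQX.FEJ
import Pool.Agent.Lib_helper39.MQX.EXP
import Pool.Agent.Lib_helper39.AQMF.AL1
import Pool.Agent.Lib_helper39.AQMF.LS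
import Pool.Agent.Lib_helper39.AQMF.FC
import Pool.Agent.Lib_helper39.AQMF.E3

/-! block E4 of AQM, proved by helper39 -/

set_option autoImplicit false

namespace Pool.Agent.AQM

open Pool.Agent.MQ Pool.Agent.T2 Filter Topology MeasureTheory

/-- Parseval for finite sets -/
theorem e4_pars {F : ℝ → ℝ} (hp : ∀ t, F (t + 1) = F t) (hm : Measurable F)
    (h1 : ∀ t, F t = 1 ∨ F t = -1) (U : Finset ℤ) : ∑ k ∈ U, ‖fc F k‖ ^ 2 ≤ 1 := by
  obtain ⟨h2, h3, _⟩ := parseval hp hm h1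
  rw [← h3]
  exact h2.sum_le_tsum _ (fun _ _ => by positivity)

theorem e4_mem_Ks {K : ℝ} {k : ℤ} : k ∈ Ks K ↔ |(k : ℝ)| ≤ K := by
  unfold Ks
  rw [Finset.mem_Icc, abs_le, Int.le_floor, neg_le, Int.le_floor]
  push_cast
  rw [neg_le]

theorem e4_mem_KK {K : ℝ} {k : ℤ} (hk : k ∈ KK K) : |(k : ℝ)| ≤ K := by
  unfold KK at hk
  rw [Finset.mem_Ioo] at hk
  have h1 : (⌈K⌉ : ℝ) < K + 1 := Int.ceil_lt_add_one K
  have h2 : (k : ℝ) ≤ ⌈K⌉ - 1 := by
    have : k ≤ ⌈K⌉ - 1 := by omega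
    exact_mod_cast this
  have h3 : -(⌈K⌉ : ℝ) + 1 ≤ (k : ℝ) := by
    have : -⌈K⌉ + 1 ≤ k := by omega
    exact_mod_cast this
  rw [abs_le]
  constructor <;> linarith

theorem e4_wt {K : ℝ} (hK : 0 < K) {k : ℤ} (hk : k ∈ KK K) :
    0 ≤ 1 - |(k : ℝ)| / ⌈K⌉ ∧ 1 - |(k : ℝ)| / ⌈K⌉ ≤ 1 := by
  unfold KK at hk
  rw [Finset.mem_Ioo] at hk
  have h0 : (0 : ℝ) < ⌈K⌉ := by
    have := Int.ceil_pos.2 hK
    exact_mod_cast this
  have h1 : |(k : ℝ)| ≤ ⌈K⌉ := by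
    rw [abs_le]
    constructor
    · have : -⌈K⌉ ≤ k := by omega
      exact_mod_cast this
    · have : k ≤ ⌈K⌉ := by omega
      exact_mod_cast this
  constructor
  · rw [sub_nonneg, div_le_one h0]
    exact h1
  · have : 0 ≤ |(k : ℝ)| / ⌈K⌉ := by positivity
    linarith

section
variable {b c : ℤ} (A : Ang b c) (hs : ¬ IsSquare (dsc b c)) {M : ℕ} {T : El → Prop}

/-- `fc F 0` is real -/
theorem e4_real (F : ℝ → ℝ) : ∃ a : ℝ, fc F 0 = a := by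
  refine ⟨∫ t in (0 : ℝ)..1, F t, ?_⟩
  unfold fc
  rw [← intervalIntegral.integral_ofReal]
  apply intervalIntegral.integral_congr
  intro t _
  have : ex (-(((0 : ℤ) : ℝ) * t)) = 1 := by
    unfold ex
    simp
  simp only [this, mul_one]

open Classical in
/-- the mean square of the Fejer mean minus its constant term -/
theorem e4_sq : ∃ C : ℝ, 1 ≤ C ∧ ∀ (q : ℕ) (V : El → Prop) (N K ε₃ : ℝ) (F : ℝ → ℝ),
    1 ≤ N → 0 < K → K ≤ N → (∀ m ∈ PS A q V N, Pm m) →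
    (∀ t, F (t + 1) = F t) → Measurable F → (∀ t, F t = 1 ∨ F t = -1) →
    1 - ε₃ ≤ ‖fc F 0‖ ^ 2 →
      ∑ m ∈ PS A q V N, ‖Fm F K (A.u m) - fc F 0‖ ^ 2 ≤ C * N * ε₃ := by
  obtain ⟨Cs, hCs1, hCs⟩ := lsieve A
  refine ⟨2 * Cs, by linarith, ?_⟩
  intro q V N K ε₃ F hN hK hKN hPm hp hm h1 hmass
  have hsub : PS A q V N ⊆ PF A N := by
    intro m hm'
    have h2 := hPm m hm'
    rw [mem_PS] at hm'
    rw [mem_PF]
    exact ⟨hm'.1, hm'.2.1, h2⟩
  set a : ℤ → ℂ := fun k => if k ∈ (KK K).erase 0 then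
    ((1 - |(k : ℝ)| / ⌈K⌉ : ℝ) : ℂ) * fc F k else 0 with ha
  have h0K : (0 : ℤ) ∈ KK K := by
    unfold KK
    rw [Finset.mem_Ioo]
    have := Int.ceil_pos.2 hK
    omega
  have hKK : (KK K).erase 0 ⊆ Ks K := by
    intro k hk
    rw [e4_mem_Ks]
    exact e4_mem_KK (Finset.mem_of_mem_erase hk)
  have hsum : ∀ t : ℝ, Fm F K t - fc F 0 = ∑ k ∈ Ks K, a k * ex (k * t) := by
    intro t
    unfold Fm
    rw [← Finset.add_sum_erase _ _ h0K]
    have e0 : ex (((0 : ℤ) : ℝ) * t) = 1 := by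
      unfold ex
      simp
    rw [e0]
    have e1 : (((1 - |((0 : ℤ) : ℝ)| / ⌈K⌉ : ℝ) : ℂ) * fc F 0 * 1) = fc F 0 := by simp
    rw [e1, add_sub_cancel_left, ← Finset.sum_subset hKK]
    · refine Finset.sum_congr rfl fun k hk => ?_
      rw [ha]
      simp only
      rw [if_pos hk]
    · intro k _ hk
      rw [ha]
      simp only
      rw [if_neg hk, zero_mul]
  have hls := (hCs K N hK.le hN).2 a
  have hasum : ∑ k ∈ Ks K, ‖a k‖ ^ 2 ≤ ε₃ := by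
    rw [← Finset.sum_subset hKK]
    · have e1 : ∑ k ∈ (KK K).erase 0, ‖a k‖ ^ 2 ≤ ∑ k ∈ (KK K).erase 0, ‖fc F k‖ ^ 2 := by
        refine Finset.sum_le_sum fun k hk => ?_
        rw [ha]
        simp only
        rw [if_pos hk]
        obtain ⟨h2, h3⟩ := e4_wt hK (Finset.mem_of_mem_erase hk)
        rw [norm_mul, Complex.norm_real, Real.norm_eq_abs, abs_of_nonneg h2, mul_pow]
        refine mul_le_of_le_one_left (by positivity) ?_
        exact pow_le_one₀ h2 h3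
      have e2 := e4_pars hp hm h1 (KK K)
      rw [← Finset.add_sum_erase _ _ h0K] at e2
      linarith
    · intro k _ hk
      rw [ha]
      simp only
      rw [if_neg hk]
      simp
  have hε : 0 ≤ ε₃ := (Finset.sum_nonneg fun _ _ => by positivity).trans hasum
  calc ∑ m ∈ PS A q V N, ‖Fm F K (A.u m) - fc F 0‖ ^ 2
      = ∑ m ∈ PS A q V N, ‖∑ k ∈ Ks K, a k * ex (k * A.u m)‖ ^ 2 := by
        refine Finset.sum_congr rfl fun m _ => ?_
        rw [hsum]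
    _ ≤ ∑ m ∈ PF A N, ‖∑ k ∈ Ks K, a k * ex (k * A.u m)‖ ^ 2 :=
        Finset.sum_le_sum_of_subset_of_nonneg hsub (fun _ _ _ => by positivity)
    _ ≤ Cs * (K + N) * ∑ k ∈ Ks K, ‖a k‖ ^ 2 := hls
    _ ≤ Cs * (N + N) * ε₃ := by gcongr
    _ = _ := by ring

omit hs in
theorem e4_mono {h : ℕ → ℤ} {N H ε H₁ ε₁ : ℝ} {F : ℝ → ℝ} (hN : 0 ≤ N) (hH₁ : 0 < H₁)
    (hH : H₁ ≤ H) (hε : ε ≤ ε₁) (hF : LocH A h M T N H ε F) : LocH A h M T N H₁ ε₁ F := by
  refine ⟨hF.per, hF.meas, hF.pm, ?_, hF.good.trans (by gcongr)⟩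
  obtain ⟨J, h1, h2⟩ := hF.jump
  exact ⟨J, h1.trans (div_le_div_of_nonneg_left hN hH₁ hH), h2⟩

include hs in
open Classical in
theorem const_most_pr (hT : Cls A M T) (hM : GoodM A M) (ε₄ : ℝ) (hε₄ : 0 < ε₄) : ∃ ε H N₀ : ℝ,
    0 < ε ∧ 16 ≤ H ∧ ∀ N : ℝ, N₀ ≤ N → ∀ h : ℕ → ℤ, Sgn h → ∀ F : ℝ → ℝ,
      LocH A h M T N H ε F → ∃ σ : ℤ, (σ = 1 ∨ σ = -1) ∧
        (((PS A M T N).filter (fun m => gg b c h m ≠ σ)).card : ℝ) ≤ ε₄ * N := by
  obtain ⟨Cf, hCf1, hCf⟩ := fm_close A hT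
  obtain ⟨Cc, hCc1, hCc⟩ := PS_card A
  obtain ⟨C, hC1, hC⟩ := e4_sq A
  set ε₃ : ℝ := min 1 ((ε₄ / 2) ^ 2 / (Cc * C)) with hε₃
  have hε₃0 : 0 < ε₃ := lt_min one_pos (by positivity)
  have hε₃1 : ε₃ ≤ 1 := min_le_left _ _
  have hε₃2 : ε₃ ≤ (ε₄ / 2) ^ 2 / (Cc * C) := min_le_right _ _
  obtain ⟨ε₁, H₁, N₁, hε₁, hH₁, h1⟩ := one_freq A hs hT hM ε₃ hε₃0
  refine ⟨min ε₁ (ε₄ / (4 * Cf)), max H₁ ((4 * Cf / ε₄) ^ 4),
    max N₁ (max H₁ ((4 * Cf / ε₄) ^ 4)), lt_min hε₁ (by positivity), hH₁.trans (le_max_left _ _), ?_⟩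
  intro N hN h hh F hF
  set ε : ℝ := min ε₁ (ε₄ / (4 * Cf)) with hε
  set H : ℝ := max H₁ ((4 * Cf / ε₄) ^ 4) with hH
  have hH16 : 16 ≤ H := hH₁.trans (le_max_left _ _)
  have hH0 : 0 < H := by linarith
  have hε0 : 0 < ε := lt_min hε₁ (by positivity)
  have hNN : N₁ ≤ N := (le_max_left _ _).trans hN
  have hNH : H ≤ N := (le_max_right _ _).trans hN
  have hN0 : 0 < N := by linarith
  have hN1 : 1 ≤ N := by linarith
  have hmass := h1 N hNN h hh F (e4_mono A hN0.le (by linarith) (le_max_left _ _)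
    (min_le_left _ _) hF)
  have hclose := hCf h hh N H ε F hH16 hNH hε0.le hF
  set K : ℝ := N / Real.sqrt H with hK
  have hsH : 0 < Real.sqrt H := Real.sqrt_pos.2 hH0
  have hK0 : 0 < K := by positivity
  have hKN : K ≤ N := by
    refine div_le_self hN0.le ?_
    rw [Real.one_le_sqrt]
    linarith
  have hsq := hC M T N K ε₃ F hN1 hK0 hKN (fun m hm => PS_T_prim A hT hm) hF.per hF.meas hF.pm hmass
  obtain ⟨a, ha⟩ := e4_real F
  have ha2 : 1 - ε₃ ≤ a ^ 2 := by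
    rw [ha, Complex.norm_real, Real.norm_eq_abs, sq_abs] at hmass
    exact hmass
  have ha1 : a ^ 2 ≤ 1 := by
    have := e4_pars hF.per hF.meas hF.pm {0}
    rw [Finset.sum_singleton, ha, Complex.norm_real, Real.norm_eq_abs, sq_abs] at this
    exact this
  obtain ⟨σ, hσ, hσa⟩ : ∃ σ : ℤ, (σ = 1 ∨ σ = -1) ∧ |a - σ| ≤ ε₃ := by
    rcases le_or_gt 0 a with h2 | h2
    · refine ⟨1, Or.inl rfl, ?_⟩
      have h3 : a ≤ 1 := by nlinarith
      rw [abs_le]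
      push_cast
      constructor
      · nlinarith
      · linarith
    · refine ⟨-1, Or.inr rfl, ?_⟩
      have h3 : -1 ≤ a := by nlinarith
      rw [abs_le]
      push_cast
      constructor
      · linarith
      · nlinarith
  refine ⟨σ, hσ, ?_⟩
  set P := PS A M T N with hP
  set W := P.filter (fun m => gg b c h m ≠ σ) with hW
  have hnm : ∀ m ∈ P, nm b c m ≠ 0 := by
    intro m hm'
    rw [hP, mem_PS] at hm'
    exact (A.wd_nm _ hm'.1).ne'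
  have key : (W.card : ℝ) ≤ ∑ m ∈ P, ‖Fm F K (A.u m) - gg b c h m‖ +
      ∑ m ∈ P, ‖Fm F K (A.u m) - fc F 0‖ := by
    rw [← Finset.sum_add_distrib]
    have e1 : (W.card : ℝ) = ∑ m ∈ W, (1 : ℝ) := by simp
    rw [e1]
    refine le_trans (Finset.sum_le_sum fun m hm => ?_) (Finset.sum_le_sum_of_subset_of_nonneg
      (Finset.filter_subset _ _) (fun _ _ _ => by positivity))
    rw [hW, Finset.mem_filter] at hm
    have e2 : (2 : ℝ) ≤ ‖((gg b c h m : ℤ) : ℂ) - (σ : ℂ)‖ := by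
      rcases gg_pm hh (hnm m hm.1) with e3 | e3
      · rcases hσ with e4 | e4
        · exact absurd (e3.trans e4.symm) hm.2
        · rw [e3, e4]; norm_num
      · rcases hσ with e4 | e4
        · rw [e3, e4]; norm_num
        · exact absurd (e3.trans e4.symm) hm.2
    have e5 : ((gg b c h m : ℤ) : ℂ) - (σ : ℂ) = -(Fm F K (A.u m) - gg b c h m) +
        (Fm F K (A.u m) - fc F 0) + (fc F 0 - σ) := by ring
    have e6 : ‖fc F 0 - (σ : ℂ)‖ ≤ 1 := by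
      have : fc F 0 - (σ : ℂ) = ((a - σ : ℝ) : ℂ) := by
        rw [ha]
        push_cast
        ring
      rw [this, Complex.norm_real, Real.norm_eq_abs]
      exact hσa.trans hε₃1
    have e7 := norm_add₃_le (a := -(Fm F K (A.u m) - gg b c h m))
      (b := (Fm F K (A.u m) - fc F 0)) (c := (fc F 0 - σ))
    rw [← e5, norm_neg] at e7
    linarith
  have h4 : ∑ m ∈ P, ‖Fm F K (A.u m) - gg b c h m‖ ≤ ε₄ / 2 * N := by
    refine hclose.trans ?_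
    have e1 : H ^ (-(1 / 4) : ℝ) ≤ ε₄ / (4 * Cf) := by
      have e2 : 4 * Cf / ε₄ ≤ H ^ (1 / 4 : ℝ) := by
        have e3 : ((4 * Cf / ε₄) ^ 4) ^ (1 / 4 : ℝ) = 4 * Cf / ε₄ := by
          rw [← Real.rpow_natCast, ← Real.rpow_mul (by positivity)]
          norm_num
        rw [← e3]
        exact Real.rpow_le_rpow (by positivity) (le_max_right _ _) (by norm_num)
      rw [Real.rpow_neg hH0.le]
      calc (H ^ (1 / 4 : ℝ))⁻¹ ≤ (4 * Cf / ε₄)⁻¹ := inv_anti₀ (by positivity) e2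
        _ = _ := by rw [inv_div]
    have e2 : ε ≤ ε₄ / (4 * Cf) := min_le_right _ _
    have hCf0 : 0 < Cf := by linarith
    calc Cf * (ε + H ^ (-(1 / 4) : ℝ)) * N ≤
        Cf * (ε₄ / (4 * Cf) + ε₄ / (4 * Cf)) * N := by gcongr
      _ = _ := by field_simp; ring
  have h5 : ∑ m ∈ P, ‖Fm F K (A.u m) - fc F 0‖ ≤ ε₄ / 2 * N := by
    have e1 : ∑ m ∈ P, ‖Fm F K (A.u m) - fc F 0‖ ≤
        Real.sqrt (P.card * ∑ m ∈ P, ‖Fm F K (A.u m) - fc F 0‖ ^ 2) := by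
      apply Real.le_sqrt_of_sq_le
      exact sq_sum_le_card_mul_sum_sq
    refine e1.trans ?_
    have e2 : ((P.card : ℝ)) * ∑ m ∈ P, ‖Fm F K (A.u m) - fc F 0‖ ^ 2 ≤ (ε₄ / 2 * N) ^ 2 := by
      calc ((P.card : ℝ)) * ∑ m ∈ P, ‖Fm F K (A.u m) - fc F 0‖ ^ 2 ≤
          (Cc * N) * (C * N * ε₃) := by
            refine mul_le_mul (hCc M T N hN0.le) hsq (Finset.sum_nonneg fun _ _ => by positivity)
              (by positivity)
        _ ≤ (Cc * N) * (C * N * ((ε₄ / 2) ^ 2 / (Cc * C))) := by gcongr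
        _ = _ := by
          have hCc0 : 0 < Cc := by linarith
          have hC0 : 0 < C := by linarith
          field_simp
    calc _ ≤ Real.sqrt ((ε₄ / 2 * N) ^ 2) := Real.sqrt_le_sqrt e2
      _ = _ := Real.sqrt_sq (by positivity)
  linarith

end

theorem const_most : type_of% @const_most_pr := @const_most_pr

end Pool.Agent.AQM
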