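import Pool.Agent.Lib_helper39.AQM.Defs
import Pool.Agent.Lib_helper39.AQM.AB
import Pool.Agent.Lib_helper39.MQX.ALG
import Pool.Agent.Lib_helper39.MQX.SBA
import Pool.Agent.Lib_helper39.MQX.SBB
import Pool.Agent.Lib_helper39.MQX.SBC
import Pool.Agent.Lib_helper39.MQX.LSV
import Pool.Agent.Lib_helper39.MQX.PAR
import Pool.Agent.Lib_helper39.MQX.FEJ
import Pool.Agent.Lib_helper39.MQX.EXP
import Pool.Agent.Lib_helper39.AQMF.AL1
import Pool.Agent.Lib_helper39.AQMF.CP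
import Pool.Agent.Lib_helper39.AQMF.E4

/-! block E5 of AQM, proved by helper54 -/

set_option autoImplicit false

/-! AQM, block E5: the end -/

namespace Pool.Agent.AQM

open Pool.Agent.MQ Pool.Agent.T2 Filter Topology MeasureTheory

theorem e5_dv_ml {b c l : ℤ} {v : El} (w : El) (h : dv l v) : dv l (ml b c w v) := by
  obtain ⟨⟨x, hx⟩, ⟨y, hy⟩⟩ := h
  refine ⟨⟨w.1 * x - c * w.2 * y, ?_⟩, ⟨w.1 * y + w.2 * x + b * w.2 * y, ?_⟩⟩
  · simp only [ml, hx, hy]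
    ring
  · simp only [ml, hx, hy]
    ring

/-- multiply by the conjugate -/
theorem e5_nm {b c l : ℤ} {s m : El} (h : dv l (ml b c s m)) :
    l ∣ nm b c s * m.1 ∧ l ∣ nm b c s * m.2 := by
  have h1 := e5_dv_ml (b := b) (c := c) (cj b s) h
  rw [← ml_assoc, ml_cj_self, ml_scal] at h1
  exact h1

theorem e5_dvd_nm {b c l : ℤ} {v : El} (h : dv l v) : l ∣ nm b c v := by
  obtain ⟨⟨x, hx⟩, ⟨y, hy⟩⟩ := h
  refine ⟨l * x ^ 2 + b * x * v.2 + c * y * v.2, ?_⟩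
  unfold nm
  have h2 : v.1 = l * x := hx
  have h3 : v.2 = l * y := hy
  rw [h2]
  rw [show c * v.2 ^ 2 = c * (l * y) * v.2 by rw [← h3]; ring]
  ring

theorem e5_per {b c : ℤ} {M n₀ : ℕ} {T : El → Prop} (hT : Per M T) :
    Per (M * n₀) (fun m => T m ∧ IsCoprime (nm b c m) (n₀ : ℤ)) := by
  rintro v w ⟨h1, h2⟩ ⟨h3, h4⟩
  have h1' : ((M * n₀ : ℕ) : ℤ) ∣ v.1 - w.1 := h1
  have h2' : ((M * n₀ : ℕ) : ℤ) ∣ v.2 - w.2 := h2
  refine ⟨hT v w ⟨?_, ?_⟩ h3, ?_⟩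
  · exact (Int.natCast_dvd_natCast.2 (Dvd.intro n₀ rfl)).trans h1
  · exact (Int.natCast_dvd_natCast.2 (Dvd.intro n₀ rfl)).trans h2
  · obtain ⟨x, hx⟩ := h1'
    obtain ⟨y, hy⟩ := h2'
    push_cast at hx hy
    have hx' : w.1 = v.1 - M * n₀ * x := by linarith
    have hy' : w.2 = v.2 - M * n₀ * y := by linarith
    have e : nm b c w = nm b c v + n₀ * (M * (-(2 * v.1 * x) + M * n₀ * x ^ 2 -
        b * (v.1 * y + v.2 * x) + b * M * n₀ * x * y - 2 * c * v.2 * y + c * M * n₀ * y ^ 2)) := by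
      unfold nm
      rw [hx', hy']
      ring
    rw [e]
    exact IsCoprime.add_mul_left_left h4 _

variable {b c : ℤ} (A : Ang b c) (hs : ¬ IsSquare (dsc b c)) {M : ℕ} {T : El → Prop}

/-- the image of `m` is again in the class -/
theorem e5_map (hT : Cls A M T) {s₀ : El} (hs₀ : T s₀) (hp : Pm s₀) {n₀ : ℕ}
    (hn₀ : (n₀ : ℤ) = nm b c s₀) (hn1 : 1 ≤ n₀) {N : ℝ} {m : El}
    (hm : m ∈ PS A (M * n₀) (fun m => T m ∧ IsCoprime (nm b c m) (n₀ : ℤ)) (N / n₀)) :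
    m ∈ PS A M T N ∧ A.rp (ml b c s₀ m) ∈ PS A M T N := by
  rw [mem_PS] at hm
  obtain ⟨h1, h2, ⟨h3, h4⟩, h5⟩ := hm
  have hn1' : (1 : ℝ) ≤ n₀ := by exact_mod_cast hn1
  have hn0' : (0 : ℝ) < n₀ := by linarith
  have hn0z : (0 : ℤ) < n₀ := by exact_mod_cast hn1
  have hmn := A.wd_nm m h1
  have hmn' : (0 : ℝ) < (nm b c m : ℝ) := by exact_mod_cast hmn
  have hNn : (n₀ : ℝ) * (nm b c m : ℝ) ≤ N := by
    rw [le_div_iff₀ hn0'] at h2
    linarith
  have hcop : ∀ l : ℕ, l.Prime → (l : ℤ) ∣ nm b c m → (l : ℤ) ∣ n₀ → False := by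
    intro l hl g1 g2
    exact (Nat.prime_iff_prime_int.1 hl).not_isUnit (h4.isUnit_of_dvd' g1 g2)
  constructor
  · rw [mem_PS]
    refine ⟨h1, ?_, h3, fun l hl hd => ?_⟩
    · nlinarith
    · rcases (Nat.Prime.dvd_mul hl).1 (h5 l hl hd) with g | g
      · exact g
      · exact absurd (Int.natCast_dvd_natCast.2 g) fun g' => hcop l hl (e5_dvd_nm hd) g'
  · have hpos : 0 < nm b c (ml b c s₀ m) := by
      rw [nm_ml, ← hn₀]
      positivity
    rw [mem_PS]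
    refine ⟨A.rp_wd _ hpos, ?_, ?_, fun l hl hd => ?_⟩
    · rw [AB.rp_nm A hpos, nm_ml, ← hn₀]
      push_cast
      exact hNn
    · rw [hT.rp _ hpos]
      exact hT.mul _ _ hs₀ h3
    · have hpr := Nat.prime_iff_prime_int.1 hl
      -- `l` divides `ml s₀ m`
      have hd' : dv l (ml b c s₀ m) := by
        have g1 : (l : ℤ) ∣ (Int.gcd (A.rp (ml b c s₀ m)).1 (A.rp (ml b c s₀ m)).2 : ℤ) :=
          Int.dvd_coe_gcd hd.1 hd.2
        rw [AB.rp_gcd A hpos] at g1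
        exact ⟨g1.trans (Int.gcd_dvd_left ..), g1.trans (Int.gcd_dvd_right ..)⟩
      obtain ⟨g1, g2⟩ := e5_nm hd'
      rw [← hn₀] at g1 g2
      by_cases hln : (l : ℤ) ∣ n₀
      · exfalso
        have hd2 : dv l (ml b c m s₀) := by rw [ml_comm]; exact hd'
        obtain ⟨g3, g4⟩ := e5_nm hd2
        have hnl : ¬ (l : ℤ) ∣ nm b c m := fun g => hcop l hl g hln
        have g5 : (l : ℤ) ∣ s₀.1 := (hpr.dvd_or_dvd g3).resolve_left hnl
        have g6 : (l : ℤ) ∣ s₀.2 := (hpr.dvd_or_dvd g4).resolve_left hnl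
        have g7 : (l : ℤ) ∣ (Int.gcd s₀.1 s₀.2 : ℤ) := Int.dvd_coe_gcd g5 g6
        have hp' : Int.gcd s₀.1 s₀.2 = 1 := hp
        rw [hp'] at g7
        exact hpr.not_isUnit (isUnit_of_dvd_one (by simpa using g7))
      · have g3 : dv l m := ⟨(hpr.dvd_or_dvd g1).resolve_left hln,
          (hpr.dvd_or_dvd g2).resolve_left hln⟩
        rcases (Nat.Prime.dvd_mul hl).1 (h5 l hl g3) with g | g
        · exact g
        · exact absurd (Int.natCast_dvd_natCast.2 g) hln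

include hs

theorem part_two_M_pr (hT : Cls A M T) (hM : GoodM A M) (s₀ : El) (hs₀ : T s₀) (hp : Pm s₀)
    (hn : 0 < nm b c s₀) : ∃ ε H N₀ : ℝ, 0 < ε ∧ 16 ≤ H ∧ ∀ N : ℝ, N₀ ≤ N → ∀ h : ℕ → ℤ,
      Sgn h → gg b c h s₀ = -1 → ∀ F : ℝ → ℝ, ¬ LocH A h M T N H ε F := by
  classical
  obtain ⟨n₀, hn₀⟩ : ∃ n₀ : ℕ, (n₀ : ℤ) = nm b c s₀ := ⟨(nm b c s₀).natAbs, by omega⟩
  have hn1 : 1 ≤ n₀ := by omega
  have hn1' : (1 : ℝ) ≤ n₀ := by exact_mod_cast hn1
  have hn0' : (0 : ℝ) < n₀ := by linarith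
  obtain ⟨C, X₀, hC1, hC⟩ := PS_low A (M * n₀) (Nat.mul_pos hT.M1 hn1)
  have hC0 : 0 < C := by linarith
  obtain ⟨ε, H, N₁, hε, hH, hmain⟩ := const_most A hs hT hM (1 / (4 * n₀ * C)) (by positivity)
  refine ⟨ε, H, max (max N₁ (n₀ * X₀)) 1, hε, hH, fun N hN h hh hg F hloc => ?_⟩
  have hN1 : N₁ ≤ N := (le_max_left _ _).trans ((le_max_left _ _).trans hN)
  have hN2 : n₀ * X₀ ≤ N := (le_max_right _ _).trans ((le_max_left _ _).trans hN)
  have hN3 : 1 ≤ N := (le_max_right _ _).trans hN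
  obtain ⟨σ, hσ, hbad⟩ := hmain N hN1 h hh F hloc
  set V : El → Prop := fun m => T m ∧ IsCoprime (nm b c m) (n₀ : ℤ) with hV
  set P : Finset El := PS A (M * n₀) V (N / n₀) with hP
  set Bad : Finset El := (PS A M T N).filter (fun m => gg b c h m ≠ σ) with hBad
  have hlow : N / n₀ / C ≤ (P.card : ℝ) := by
    refine hC V (e5_per hT.per) ⟨(1, 0), hT.one, ?_⟩ (N / n₀) ?_
    · have : nm b c (1, 0) = 1 := by simp [nm]
      rw [this]
      exact isCoprime_one_left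
    · rw [le_div_iff₀ hn0']
      linarith
  have hflip : ∀ m ∈ P, gg b c h (A.rp (ml b c s₀ m)) = - gg b c h m := by
    intro m hm
    have hmn := A.wd_nm m ((mem_PS A).1 hm).1
    have hpos : 0 < nm b c (ml b c s₀ m) := by
      rw [nm_ml]
      positivity
    rw [AB.gg_rp A h hpos]
    unfold gg at hg ⊢
    rw [nm_ml, Int.natAbs_mul, hh.mul _ _ (by omega) (by omega), hg]
    ring
  have h1 : (P.filter (fun m => gg b c h m ≠ σ)).card ≤ Bad.card := by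
    refine Finset.card_le_card fun m hm => ?_
    rw [Finset.mem_filter] at hm ⊢
    exact ⟨(e5_map A hT hs₀ hp hn₀ hn1 hm.1).1, hm.2⟩
  have h2 : (P.filter (fun m => ¬ gg b c h m ≠ σ)).card ≤ Bad.card := by
    refine Finset.card_le_card_of_injOn (fun m => A.rp (ml b c s₀ m)) (fun m hm => ?_) ?_
    · have hm' := Finset.mem_filter.1 (Finset.mem_coe.1 hm)
      have g1 := hflip m hm'.1
      have g2 : gg b c h m = σ := not_not.1 hm'.2
      refine Finset.mem_coe.2 (Finset.mem_filter.2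
        ⟨(e5_map A hT hs₀ hp hn₀ hn1 hm'.1).2, ?_⟩)
      show gg b c h (A.rp (ml b c s₀ m)) ≠ σ
      rw [g1, g2]
      rcases hσ with rfl | rfl <;> norm_num
    · intro m hm m' hm' he
      have g1 := ((mem_PS A).1 (Finset.mem_filter.1 (Finset.mem_coe.1 hm)).1).1
      have g2 := ((mem_PS A).1 (Finset.mem_filter.1 (Finset.mem_coe.1 hm')).1).1
      exact AB.rp_inj A hn g1 g2 he
  have h3 : P.card = (P.filter (fun m => gg b c h m ≠ σ)).card +
      (P.filter (fun m => ¬ gg b c h m ≠ σ)).card :=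
    (Finset.card_filter_add_card_filter_not _).symm
  have h4 : (P.card : ℝ) ≤ 2 * (1 / (4 * n₀ * C) * N) := by
    have : (P.card : ℝ) ≤ 2 * (Bad.card : ℝ) := by
      have : P.card ≤ 2 * Bad.card := by omega
      exact_mod_cast this
    linarith
  have h5 : N / n₀ / C = 4 * (1 / (4 * n₀ * C) * N) := by
    field_simp
  have h6 : 0 < 1 / (4 * n₀ * C) * N := by positivity
  linarith

end Pool.Agent.AQM

namespace Pool.Agent.AQM

theorem part_two_M : type_of% @part_two_M_pr := @part_two_M_pr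

end Pool.Agent.AQM
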