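import Pool.Agent.Lib_helper39.AQM.Defs
import Pool.Agent.Lib_helper39.AQM.AB
import Pool.Agent.Lib_helper39.MQX.ALG
import Pool.Agent.Lib_helper39.MQX.SBA
import Pool.Agent.Lib_helper39.MQX.SBB
import Pool.Agent.Lib_helper39.MQX.SBC
import Pool.Agent.Lib_helper39.MQX.LSV
import Pool.Agent.Lib_helper39.MQX.PAR
import Pool.Agent.Lib_helper39.MQX.FEJ
import Pool.Agent.Lib_helper39.MQX.EXP

/-! block EC2 of AQM, proved by helper97 -/

set_option autoImplicit false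

namespace Pool.Agent.AQM

open Pool.Agent.MQ Pool.Agent.T2 Filter Topology MeasureTheory

section
open Pool.Agent.Lib_helper44.EXP

variable {b c : ℤ}

/-- the sum of the elements of a residue class -/
theorem ec2_class_sum (q : ℕ) (hq : 1 ≤ q) (y₀ : ℤ) (n : ℕ) :
    |∑ y ∈ (Finset.Icc 1 n).filter (fun y : ℕ => (q : ℤ) ∣ (y : ℤ) - y₀), (y : ℝ) -
      (n : ℝ) ^ 2 / (2 * q)| ≤ n + (q : ℝ) ^ 2 := by
  have hq0 : (0 : ℝ) < q := by exact_mod_cast hq
  have hq1 : (1 : ℝ) ≤ q := by exact_mod_cast hq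
  induction n using Nat.strong_induction_on with
  | _ n ih =>
    rcases lt_or_ge n q with hn | hn
    · have h1 : 0 ≤ ∑ y ∈ (Finset.Icc 1 n).filter (fun y : ℕ => (q : ℤ) ∣ (y : ℤ) - y₀),
          (y : ℝ) := Finset.sum_nonneg fun _ _ => Nat.cast_nonneg _
      have h2 : ∑ y ∈ (Finset.Icc 1 n).filter (fun y : ℕ => (q : ℤ) ∣ (y : ℤ) - y₀), (y : ℝ) ≤
          (n : ℝ) * n := by
        refine (Finset.sum_le_sum_of_subset_of_nonneg (Finset.filter_subset _ _)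
          fun _ _ _ => Nat.cast_nonneg _).trans ?_
        refine (Finset.sum_le_card_nsmul _ _ (n : ℝ) ?_).trans ?_
        · intro y hy
          rw [Finset.mem_Icc] at hy
          exact_mod_cast hy.2
        · rw [Nat.card_Icc, Nat.add_sub_cancel, nsmul_eq_mul]
      have h3 : (n : ℝ) ≤ q := by exact_mod_cast hn.le
      have hn0 : (0 : ℝ) ≤ n := Nat.cast_nonneg _
      have h5 : (n : ℝ) * n ≤ q ^ 2 := by rw [sq]; exact mul_le_mul h3 h3 hn0 hq0.le
      have h4 : (n : ℝ) ^ 2 / (2 * q) ≤ q ^ 2 := by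
        refine (div_le_self (by positivity) (by linarith)).trans ?_
        rw [sq]; exact h5
      have h6 : 0 ≤ (n : ℝ) ^ 2 / (2 * q) := by positivity
      rw [abs_le]
      constructor <;> linarith
    · obtain ⟨k, rfl⟩ : ∃ k, n = k + q := ⟨n - q, by omega⟩
      have h := ih k (by omega)
      set r : ℤ := ((k : ℤ) - y₀) % q with hr
      have hqz : (0 : ℤ) < q := by exact_mod_cast hq
      have hr0 : 0 ≤ r := Int.emod_nonneg _ hqz.ne'
      have hr1 : r < q := Int.emod_lt_of_pos _ hqz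
      obtain ⟨j, hj⟩ : ∃ j : ℕ, (j : ℤ) = q - r := ⟨((q : ℤ) - r).toNat, by omega⟩
      have hj1 : 1 ≤ j := by omega
      have hj2 : j ≤ q := by omega
      have hdiv : (q : ℤ) ∣ ((k + j : ℕ) : ℤ) - y₀ := by
        have e1 : ((k + j : ℕ) : ℤ) - y₀ = ((k : ℤ) - y₀ - r) + q := by push_cast; omega
        rw [e1]
        exact dvd_add (Int.dvd_self_sub_of_emod_eq rfl) (dvd_refl _)
      have hfil : (Finset.Icc 1 (k + q)).filter (fun y : ℕ => (q : ℤ) ∣ (y : ℤ) - y₀) =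
          insert (k + j) ((Finset.Icc 1 k).filter (fun y : ℕ => (q : ℤ) ∣ (y : ℤ) - y₀)) := by
        ext y
        simp only [Finset.mem_filter, Finset.mem_Icc, Finset.mem_insert]
        constructor
        · rintro ⟨⟨h1, h2⟩, h3⟩
          by_cases h4 : y ≤ k
          · right; exact ⟨⟨h1, h4⟩, h3⟩
          · left
            have h5 : (q : ℤ) ∣ (y : ℤ) - ((k + j : ℕ) : ℤ) := by
              have := dvd_sub h3 hdiv
              rwa [show (y : ℤ) - y₀ - (((k + j : ℕ) : ℤ) - y₀) = (y : ℤ) - ((k + j : ℕ) : ℤ) by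
                ring] at this
            have h6 : |(y : ℤ) - ((k + j : ℕ) : ℤ)| < q := by
              rw [abs_lt]; push_cast; omega
            have h7 := Int.eq_zero_of_abs_lt_dvd h5 h6
            omega
        · rintro (rfl | ⟨⟨h1, h2⟩, h3⟩)
          · exact ⟨⟨by omega, by omega⟩, hdiv⟩
          · exact ⟨⟨h1, by omega⟩, h3⟩
      have hnot : (k + j) ∉ (Finset.Icc 1 k).filter (fun y : ℕ => (q : ℤ) ∣ (y : ℤ) - y₀) := by
        simp only [Finset.mem_filter, Finset.mem_Icc, not_and]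
        intro h1
        omega
      rw [hfil, Finset.sum_insert hnot]
      set s := ∑ y ∈ (Finset.Icc 1 k).filter (fun y : ℕ => (q : ℤ) ∣ (y : ℤ) - y₀), (y : ℝ)
        with hs
      have e2 : ((k + q : ℕ) : ℝ) ^ 2 / (2 * q) = (k : ℝ) ^ 2 / (2 * q) + k + q / 2 := by
        push_cast
        field_simp
        ring
      rw [e2]
      push_cast
      have hj1' : (1 : ℝ) ≤ j := by exact_mod_cast hj1
      have hj2' : (j : ℝ) ≤ q := by exact_mod_cast hj2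
      rw [abs_le] at h ⊢
      constructor <;> linarith [h.1, h.2]

/-- the sum of the `y ≤ √w` in a residue class -/
theorem ec2_tau {q : ℕ} (hq : 1 ≤ q) (y₀ : ℤ) {w : ℝ} (hw : 0 < w) {m : ℕ}
    (hm : Real.sqrt w ≤ m) :
    |∑ y ∈ ((Finset.Icc 1 m).filter (fun y : ℕ => (q : ℤ) ∣ (y : ℤ) - y₀)).filter
      (fun y : ℕ => (y : ℝ) ^ 2 ≤ w), (y : ℝ) - w / (2 * q)| ≤
      (2 + (q : ℝ) ^ 2) * w ^ (3 / 4 : ℝ) := by
  have hq0 : (0 : ℝ) < q := by exact_mod_cast hq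
  have hq1 : (1 : ℝ) ≤ q := by exact_mod_cast hq
  set v := Real.sqrt w with hv
  have hv0 : 0 < v := Real.sqrt_pos.2 hw
  have hvw : v ^ 2 = w := Real.sq_sqrt hw.le
  have hfil : ((Finset.Icc 1 m).filter (fun y : ℕ => (q : ℤ) ∣ (y : ℤ) - y₀)).filter
      (fun y : ℕ => (y : ℝ) ^ 2 ≤ w) =
      (Finset.Icc 1 ⌊v⌋₊).filter (fun y : ℕ => (q : ℤ) ∣ (y : ℤ) - y₀) := by
    ext y
    simp only [Finset.mem_filter, Finset.mem_Icc]
    rw [Nat.le_floor_iff hv0.le, ← hvw, sq_le_sq₀ (by positivity) hv0.le]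
    constructor
    · rintro ⟨⟨⟨h1, _⟩, h3⟩, h4⟩; exact ⟨⟨h1, h4⟩, h3⟩
    · rintro ⟨⟨h1, h4⟩, h3⟩
      refine ⟨⟨⟨h1, ?_⟩, h3⟩, h4⟩
      exact_mod_cast h4.trans hm
  rw [hfil]
  set n := ⌊v⌋₊ with hn
  have hcs := ec2_class_sum q hq y₀ n
  set s := ∑ y ∈ (Finset.Icc 1 n).filter (fun y : ℕ => (q : ℤ) ∣ (y : ℤ) - y₀), (y : ℝ) with hs
  rw [← hvw]
  have h1 : (n : ℝ) ≤ v := Nat.floor_le hv0.le
  have h2 : v < n + 1 := Nat.lt_floor_add_one v
  have hn0 : (0 : ℝ) ≤ n := Nat.cast_nonneg _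
  rcases le_or_gt 1 v with h | h
  · have h3 : v ≤ (v ^ 2) ^ (3 / 4 : ℝ) := by
      rw [← Real.rpow_natCast, ← Real.rpow_mul hv0.le]
      calc v = v ^ (1 : ℝ) := (Real.rpow_one v).symm
        _ ≤ v ^ (((2 : ℕ) : ℝ) * (3 / 4)) := Real.rpow_le_rpow_of_exponent_le h (by norm_num)
    refine le_trans ?_ (mul_le_mul_of_nonneg_left h3 (by positivity))
    have h4 : v ^ 2 / (2 * q) - (n : ℝ) ^ 2 / (2 * q) ≤ v := by
      rw [← sub_div, div_le_iff₀ (by positivity)]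
      have e1 : v ^ 2 - (n : ℝ) ^ 2 = (v - n) * (v + n) := by ring
      have e2 : (v - n) * (v + n) ≤ 1 * (v + n) :=
        mul_le_mul_of_nonneg_right (by linarith) (by linarith)
      have e3 : v * (2 * 1) ≤ v * (2 * q) := by
        apply mul_le_mul_of_nonneg_left _ hv0.le
        linarith
      rw [e1]
      linarith
    have h5 : 0 ≤ v ^ 2 / (2 * q) - (n : ℝ) ^ 2 / (2 * q) := by
      rw [← sub_div]
      apply div_nonneg _ (by positivity)
      have := sq_le_sq₀ hn0 hv0.le |>.2 h1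
      linarith
    have h6 : (q : ℝ) ^ 2 * 1 ≤ (q : ℝ) ^ 2 * v := mul_le_mul_of_nonneg_left h (by positivity)
    have h7 : (2 + (q : ℝ) ^ 2) * v = 2 * v + (q : ℝ) ^ 2 * v := by ring
    rw [h7]
    rw [abs_le] at hcs ⊢
    constructor <;> linarith [hcs.1, hcs.2]
  · have h3 : v ^ 2 ≤ (v ^ 2) ^ (3 / 4 : ℝ) := by
      calc v ^ 2 = (v ^ 2) ^ (1 : ℝ) := (Real.rpow_one _).symm
        _ ≤ (v ^ 2) ^ (3 / 4 : ℝ) := Real.rpow_le_rpow_of_exponent_ge (by positivity)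
            (by nlinarith) (by norm_num)
    have h4 : n = 0 := by
      rw [hn]
      exact Nat.floor_eq_zero.2 h
    have h5 : s = 0 := by rw [hs, h4]; simp
    rw [h5, zero_sub, abs_neg, abs_of_nonneg (by positivity)]
    have h6 : v ^ 2 / (2 * q) ≤ v ^ 2 := div_le_self (by positivity) (by linarith)
    have h7 : 0 ≤ (v ^ 2) ^ (3 / 4 : ℝ) := by positivity
    have h8 : 1 * (v ^ 2) ^ (3 / 4 : ℝ) ≤ (2 + (q : ℝ) ^ 2) * (v ^ 2) ^ (3 / 4 : ℝ) := by
      apply mul_le_mul_of_nonneg_right _ h7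
      have := sq_nonneg (q : ℝ)
      linarith
    linarith

theorem ec2_cont (Y : Sys b c) (ξ : ℝ) : ContinuousOn (fun t => ee (ξ * Y.ur t)) (W Y) :=
  ee_cont.comp_continuousOn (continuousOn_const.mul (ur_cont Y))

theorem ec2_dom (Y : Sys b c) {c0 : ℝ} (h0 : 0 < c0)
    (hc0 : ∀ t : ℝ, (dsc b c < 0 ∨ Y.lam ≤ t) → c0 * (1 + t ^ 2) ≤ t ^ 2 + b * t + c) (ξ : ℝ) :
    IntegrableOn (fun t => ee (ξ * Y.ur t) / (ff b c t : ℂ)) (W Y) := by
  have h1 : Integrable (fun t : ℝ => (1 / c0) * (1 + t ^ 2)⁻¹) :=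
    integrable_inv_one_add_sq.const_mul _
  refine Integrable.mono' h1.integrableOn ?_ ?_
  · apply ContinuousOn.aestronglyMeasurable _ (W_meas Y)
    apply (ec2_cont Y ξ).div
    · exact (Complex.continuous_ofReal.comp (ff_cont b c)).continuousOn
    · intro t ht
      exact_mod_cast (ff_pos Y ht).ne'
  · rw [ae_restrict_iff' (W_meas Y)]
    refine Eventually.of_forall fun t ht => ?_
    have h2 := ff_pos Y ht
    have h3 : c0 * (1 + t ^ 2) ≤ ff b c t := hc0 t (ht.imp id le_of_lt)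
    rw [norm_div, ee_norm, Complex.norm_real, Real.norm_eq_abs, abs_of_pos h2]
    calc 1 / ff b c t ≤ 1 / (c0 * (1 + t ^ 2)) := one_div_le_one_div_of_le (by positivity) h3
      _ = 1 / c0 * (1 + t ^ 2)⁻¹ := by field_simp

theorem ec2_int (Y : Sys b c) (X ξ : ℝ) {y : ℝ} (hy : 0 < y) :
    IntegrableOn (fun t => ee (ξ * Y.ur t)) (Ty Y X y) := by
  have hfin : volume (Ty Y X y) ≠ ⊤ := (Ty_bdd Y X hy).measure_lt_top.ne
  have h1 : IntegrableOn (fun _ : ℝ => (1 : ℝ)) (Ty Y X y) := integrableOn_const hfin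
  refine Integrable.mono' h1 ?_ ?_
  · exact ((ec2_cont Y ξ).mono Set.inter_subset_left).aestronglyMeasurable (Ty_meas Y X y)
  · exact Eventually.of_forall fun t => (ee_norm _).le

/-- one row of a residue class -/
theorem ec2_row (Y : Sys b c) (X : ℝ) {y : ℕ} (hy : 1 ≤ y) (ξ : ℝ) {q : ℕ} (hq : 1 ≤ q)
    (x₀ : ℤ) : ‖∑ x ∈ (Fy Y X y).filter (fun x => (q : ℤ) ∣ x - x₀), ee (ξ * Y.ur (x / y)) -
      (((y : ℝ) / q : ℝ) : ℂ) * ∫ t in Ty Y X y, ee (ξ * Y.ur t)‖ ≤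
        2 * Real.pi * |ξ| + 3 := by
  have hy0 : (0 : ℝ) < y := by exact_mod_cast hy
  have hq0 : (0 : ℝ) < q := by exact_mod_cast hq
  have hqz : (0 : ℤ) < q := by exact_mod_cast hq
  set θ : ℝ := (x₀ : ℝ) / y with hθ
  have hA0 : 0 ≤ 2 * Real.pi * |ξ| := by positivity
  -- the parameters `n`
  set F : Finset ℤ := ((Fy Y X y).filter (fun x => (q : ℤ) ∣ x - x₀)).image
    (fun x => (x - x₀) / q) with hF
  have hpt : ∀ n : ℤ, (n : ℝ) / (y / q) + θ = ((x₀ + q * n : ℤ) : ℝ) / y := by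
    intro n
    rw [hθ]
    push_cast
    field_simp
    ring
  have hFm : ∀ n : ℤ, n ∈ F ↔ (n : ℝ) / ((y : ℝ) / q) ∈ (fun t => t + θ) ⁻¹' (Ty Y X y) := by
    intro n
    rw [Set.mem_preimage, hpt n, ← Fy_Ty Y X hy, hF, Finset.mem_image]
    constructor
    · rintro ⟨x, hx, rfl⟩
      rw [Finset.mem_filter] at hx
      rw [Int.mul_ediv_cancel' hx.2]
      have : x₀ + (x - x₀) = x := by ring
      rw [this]
      exact hx.1
    · intro h
      refine ⟨x₀ + q * n, ?_, ?_⟩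
      · rw [Finset.mem_filter]
        exact ⟨h, ⟨n, by ring⟩⟩
      · rw [show x₀ + (q : ℤ) * n - x₀ = q * n by ring, Int.mul_ediv_cancel_left _ hqz.ne']
  have hmp : MeasurePreserving (fun t : ℝ => t + θ) volume volume :=
    measurePreserving_add_right volume θ
  have hme : MeasurableEmbedding (fun t : ℝ => t + θ) := measurableEmbedding_addRight θ
  have hint : IntegrableOn (fun t => ee (ξ * Y.ur (t + θ))) ((fun t => t + θ) ⁻¹' (Ty Y X y)) := by
    have := (hmp.integrableOn_comp_preimage hme (f := fun t => ee (ξ * Y.ur t))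
      (s := Ty Y X y)).2 (ec2_int Y X ξ hy0)
    exact this
  have hconn : ((fun t : ℝ => t + θ) ⁻¹' (Ty Y X y)).OrdConnected := by
    constructor
    intro s hs t ht x hx
    exact (Ty_conn Y X hy0).out hs ht ⟨by linarith [hx.1], by linarith [hx.2]⟩
  have hbd : Bornology.IsBounded ((fun t : ℝ => t + θ) ⁻¹' (Ty Y X y)) := by
    obtain ⟨R, hR⟩ := (Ty_bdd Y X hy0).subset_closedBall 0
    refine (Metric.isBounded_closedBall (x := (0 : ℝ)) (r := R + |θ|)).subset ?_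
    intro t ht
    have h1 := hR ht
    rw [Metric.mem_closedBall, Real.dist_eq, sub_zero] at h1 ⊢
    have h2 := abs_sub_abs_le_abs_sub t (-θ)
    rw [abs_neg, sub_neg_eq_add] at h2
    linarith
  have hkey := int_sum ((fun t : ℝ => t + θ) ⁻¹' (Ty Y X y)) hconn
    (hme.measurable (Ty_meas Y X y)) (fun t => ee (ξ * Y.ur (t + θ))) (fun t => Y.ur (t + θ))
    (2 * Real.pi * |ξ|) hA0 (y := (y : ℝ) / q) (by positivity) (fun x _ => (ee_norm _).le)
    (by
      intro s _ x _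
      refine (ee_norm_sub _ _).trans (le_of_eq ?_)
      rw [← mul_sub, abs_mul]
      ring)
    (by
      intro s hs t ht hst
      exact ur_anti Y hs.1 ht.1 (by linarith))
    (fun x hx => ur_range Y hx.1) hint F hFm hbd
  have hI : ∫ t in (fun t : ℝ => t + θ) ⁻¹' (Ty Y X y), ee (ξ * Y.ur (t + θ)) =
      ∫ t in Ty Y X y, ee (ξ * Y.ur t) :=
    hmp.setIntegral_preimage_emb hme (fun t => ee (ξ * Y.ur t)) (Ty Y X y)
  have hS : ∑ n ∈ F, ee (ξ * Y.ur ((n : ℝ) / ((y : ℝ) / q) + θ)) =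
      ∑ x ∈ (Fy Y X y).filter (fun x => (q : ℤ) ∣ x - x₀), ee (ξ * Y.ur (x / y)) := by
    rw [hF, Finset.sum_image]
    · refine Finset.sum_congr rfl fun x hx => ?_
      rw [Finset.mem_filter] at hx
      rw [hpt, Int.mul_ediv_cancel' hx.2]
      have : x₀ + (x - x₀) = x := by ring
      rw [this]
    · intro x hx z hz hxz
      simp only [Finset.coe_filter, Set.mem_ofPred_eq] at hx hz
      have h1 := Int.mul_ediv_cancel' hx.2
      have h2 := Int.mul_ediv_cancel' hz.2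
      simp only at hxz
      rw [hxz, h2] at h1
      linarith
  rw [hI, hS] at hkey
  exact hkey

open Classical in
theorem small_class_pr (Y : Sys b c) {c0 : ℝ} (h0 : 0 < c0)
    (hc0 : ∀ t : ℝ, (dsc b c < 0 ∨ Y.lam ≤ t) → c0 * (1 + t ^ 2) ≤ t ^ 2 + b * t + c) (q : ℕ)
    (hq : 1 ≤ q) : ∃ C : ℝ, 0 ≤ C ∧ ∀ X : ℝ, 1 ≤ X → ∀ ξ : ℝ, ∃ Z : ℂ,
    ((∃ n : ℤ, n ≠ 0 ∧ ξ = n) → Z = 0) ∧ ∀ v₀ : El,
    ‖∑ y ∈ (Finset.Icc 1 ⌊Real.sqrt (X / c0)⌋₊).filter (fun y : ℕ => (q : ℤ) ∣ (y : ℤ) - v₀.2),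
      ∑ x ∈ (Fy Y X y).filter (fun x => (q : ℤ) ∣ x - v₀.1), ee (ξ * Y.ur (x / y)) - Z‖ ≤
      C * Real.sqrt X * (|ξ| + 1) + C * X ^ (3 / 4 : ℝ) := by
  have hq0 : (0 : ℝ) < q := by exact_mod_cast hq
  have hq1 : (1 : ℝ) ≤ q := by exact_mod_cast hq
  have hg : Integrable (fun t : ℝ => (1 + ‖t‖ ^ 2) ^ (-(3 / 2 : ℝ) / 2)) :=
    integrable_rpow_neg_one_add_norm_sq (by simp; norm_num)
  set I : ℝ := ∫ t in W Y, c0 ^ (-(3 / 4) : ℝ) * (1 + ‖t‖ ^ 2) ^ (-(3 / 2 : ℝ) / 2) with hI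
  have hI0 : 0 ≤ I := by
    rw [hI]
    apply integral_nonneg
    intro t
    positivity
  set s0 : ℝ := Real.sqrt (1 / c0) with hs0
  have hs0' : 0 ≤ s0 := Real.sqrt_nonneg _
  have hpi := Real.pi_pos
  set D : ℝ := 2 + (q : ℝ) ^ 2 with hD
  have hD0 : 0 < D := by positivity
  refine ⟨s0 * (2 * Real.pi + 3) + D * I, by positivity, ?_⟩
  intro X hX1 ξ
  have hX : 0 < X := by linarith
  refine ⟨((X / (2 * (q : ℝ) ^ 2) : ℝ) : ℂ) * ∫ t in W Y, ee (ξ * Y.ur t) / (ff b c t : ℂ),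
    ?_, ?_⟩
  · rintro ⟨n, hn, rfl⟩
    have := area_zero Y hn
    unfold Gk at this
    rw [this, mul_zero]
  intro v₀
  set m := ⌊Real.sqrt (X / c0)⌋₊ with hm
  have hms : (m : ℝ) ≤ Real.sqrt (X / c0) := Nat.floor_le (Real.sqrt_nonneg _)
  set P : Finset ℕ := (Finset.Icc 1 m).filter (fun y : ℕ => (q : ℤ) ∣ (y : ℤ) - v₀.2) with hP
  have hPm : ∀ y ∈ P, 1 ≤ y := fun y hy => (Finset.mem_Icc.1 (Finset.mem_filter.1 hy).1).1
  have hPc : P.card ≤ m := by
    refine (Finset.card_filter_le _ _).trans ?_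
    rw [Nat.card_Icc, Nat.add_sub_cancel]
  clear_value P
  set G : ℝ → ℂ := fun t => ee (ξ * Y.ur t) with hG
  have hGn : ∀ t, ‖G t‖ = 1 := fun t => ee_norm _
  have hGi : ∀ y : ℕ, 1 ≤ y → IntegrableOn G (Ty Y X y) := by
    intro y hy
    exact ec2_int Y X ξ (by exact_mod_cast hy)
  have hA0 : 0 ≤ 2 * Real.pi * |ξ| := by positivity
  -- step 1
  have hst1 : ∀ y ∈ P, ‖∑ x ∈ (Fy Y X y).filter (fun x => (q : ℤ) ∣ x - v₀.1), G (x / y) -
      (((y : ℝ) / q : ℝ) : ℂ) * ∫ t in Ty Y X y, G t‖ ≤ 2 * Real.pi * |ξ| + 3 := by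
    intro y hy
    exact ec2_row Y X (hPm y hy) ξ hq v₀.1
  -- step 2
  have hint2 : ∀ y ∈ P, Integrable
      ({t : ℝ | (y : ℝ) ^ 2 * ff b c t ≤ X}.indicator (fun t => (((y : ℝ) / q : ℝ) : ℂ) * G t))
      (volume.restrict (W Y)) := by
    intro y hy
    have hms : MeasurableSet {t : ℝ | (y : ℝ) ^ 2 * ff b c t ≤ X} :=
      measurableSet_le (measurable_const.mul (ff_cont b c).measurable) measurable_const
    rw [integrable_indicator_iff hms, IntegrableOn, Measure.restrict_restrict hms]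
    have := (hGi y (hPm y hy)).const_mul (((y : ℝ) / q : ℝ) : ℂ)
    rw [Set.inter_comm]
    exact this
  have hpoint : ∀ t ∈ W Y, ∑ y ∈ P, ({t : ℝ | (y : ℝ) ^ 2 * ff b c t ≤ X}.indicator
      (fun t => (((y : ℝ) / q : ℝ) : ℂ) * G t)) t =
      ((∑ y ∈ P.filter (fun y : ℕ => (y : ℝ) ^ 2 ≤ X / ff b c t),
        (y : ℝ) / q : ℝ) : ℂ) * G t := by
    intro t ht
    push_cast
    rw [Finset.sum_mul, Finset.sum_filter]
    refine Finset.sum_congr rfl fun y _ => ?_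
    have h2 := ff_pos Y ht
    by_cases h3 : (y : ℝ) ^ 2 * ff b c t ≤ X
    · rw [Set.indicator_of_mem (by exact h3), if_pos (by rw [le_div_iff₀ h2]; exact h3)]
    · rw [Set.indicator_of_notMem (by exact h3), if_neg (by rw [le_div_iff₀ h2]; exact h3)]
  have hst2 : ∑ y ∈ P, (((y : ℝ) / q : ℝ) : ℂ) * ∫ t in Ty Y X y, G t =
      ∫ t in W Y, ((∑ y ∈ P.filter (fun y : ℕ => (y : ℝ) ^ 2 ≤ X / ff b c t),
        (y : ℝ) / q : ℝ) : ℂ) * G t := by
    have e1 : ∀ y ∈ P, (((y : ℝ) / q : ℝ) : ℂ) * ∫ t in Ty Y X y, G t =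
        ∫ t in W Y, ({t : ℝ | (y : ℝ) ^ 2 * ff b c t ≤ X}.indicator
          (fun t => (((y : ℝ) / q : ℝ) : ℂ) * G t)) t := by
      intro y hy
      have hms : MeasurableSet {t : ℝ | (y : ℝ) ^ 2 * ff b c t ≤ X} :=
        measurableSet_le (measurable_const.mul (ff_cont b c).measurable) measurable_const
      rw [setIntegral_indicator hms, integral_const_mul]
      rfl
    rw [Finset.sum_congr rfl e1, ← integral_finsetSum _ hint2]
    exact setIntegral_congr_fun (W_meas Y) hpoint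
  -- step 3
  have hintτ : Integrable (fun t => ((∑ y ∈ P.filter
      (fun y : ℕ => (y : ℝ) ^ 2 ≤ X / ff b c t), (y : ℝ) / q : ℝ) : ℂ) * G t)
      (volume.restrict (W Y)) := by
    have := integrable_finsetSum _ hint2
    refine this.congr ?_
    rw [Filter.EventuallyEq, ae_restrict_iff' (W_meas Y)]
    exact Eventually.of_forall hpoint
  have hst3 : (∫ t in W Y, ((∑ y ∈ P.filter
      (fun y : ℕ => (y : ℝ) ^ 2 ≤ X / ff b c t), (y : ℝ) / q : ℝ) : ℂ) * G t) -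
        ((X / (2 * (q : ℝ) ^ 2) : ℝ) : ℂ) * ∫ t in W Y, G t / (ff b c t : ℂ) =
      ∫ t in W Y, ((1 / q * ((∑ y ∈ P.filter
      (fun y : ℕ => (y : ℝ) ^ 2 ≤ X / ff b c t), (y : ℝ)) - X / ff b c t / (2 * q)) : ℝ) : ℂ) *
        G t := by
    rw [← integral_const_mul, ← integral_sub hintτ ((ec2_dom Y h0 hc0 ξ).const_mul _)]
    apply setIntegral_congr_fun (W_meas Y)
    intro t ht
    have h2 : (ff b c t : ℂ) ≠ 0 := by exact_mod_cast (ff_pos Y ht).ne'
    have h3 : (q : ℂ) ≠ 0 := by exact_mod_cast hq0.ne'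
    have h4 : ee (ξ * Y.ur t) = G t := rfl
    simp only [h4]
    rw [← Finset.sum_div]
    push_cast
    field_simp
  -- step 4
  have hst4 : ‖∫ t in W Y, ((1 / q * ((∑ y ∈ P.filter
      (fun y : ℕ => (y : ℝ) ^ 2 ≤ X / ff b c t), (y : ℝ)) - X / ff b c t / (2 * q)) : ℝ) : ℂ) *
        G t‖ ≤ D * I * X ^ (3 / 4 : ℝ) := by
    have e1 : D * I * X ^ (3 / 4 : ℝ) = ∫ t in W Y, (D * X ^ (3 / 4 : ℝ)) *
        (c0 ^ (-(3 / 4) : ℝ) * (1 + ‖t‖ ^ 2) ^ (-(3 / 2 : ℝ) / 2)) := by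
      rw [integral_const_mul, hI]; ring
    rw [e1]
    apply norm_integral_le_of_norm_le
    · exact ((hg.integrableOn).const_mul _).const_mul _
    · rw [ae_restrict_iff' (W_meas Y)]
      refine Eventually.of_forall fun t ht => ?_
      have h2 := ff_pos Y ht
      have h3 : c0 * (1 + t ^ 2) ≤ ff b c t := hc0 t (ht.imp id le_of_lt)
      have hw : 0 < X / ff b c t := by positivity
      rw [norm_mul, hGn, mul_one, Complex.norm_real, Real.norm_eq_abs]
      have h4 : X / ff b c t ≤ X / (c0 * (1 + t ^ 2)) :=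
        div_le_div_of_nonneg_left hX.le (by positivity) h3
      have e2 : X / ff b c t ≤ X / c0 := by
        refine div_le_div_of_nonneg_left hX.le h0 ?_
        nlinarith [sq_nonneg t, mul_nonneg h0.le (sq_nonneg t)]
      have h5 : Real.sqrt (X / ff b c t) ≤ ((m + 1 : ℕ) : ℝ) := by
        refine (Real.sqrt_le_sqrt e2).trans ?_
        push_cast
        exact (Nat.lt_floor_add_one _).le
      have h6 := ec2_tau hq v₀.2 hw h5
      have h7 : ((Finset.Icc 1 (m + 1)).filter (fun y : ℕ => (q : ℤ) ∣ (y : ℤ) - v₀.2)).filter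
            (fun y : ℕ => (y : ℝ) ^ 2 ≤ X / ff b c t) =
          P.filter (fun y : ℕ => (y : ℝ) ^ 2 ≤ X / ff b c t) := by
        ext y
        simp only [hP, Finset.mem_filter, Finset.mem_Icc]
        constructor
        · rintro ⟨⟨⟨h8, _⟩, h10⟩, h9⟩
          refine ⟨⟨⟨h8, ?_⟩, h10⟩, h9⟩
          rw [hm]
          apply Nat.le_floor
          apply Real.le_sqrt_of_sq_le
          exact h9.trans e2
        · rintro ⟨⟨⟨h8, h8'⟩, h10⟩, h9⟩
          exact ⟨⟨⟨h8, by omega⟩, h10⟩, h9⟩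
      rw [h7] at h6
      have h8 : |1 / q * ((∑ y ∈ P.filter
          (fun y : ℕ => (y : ℝ) ^ 2 ≤ X / ff b c t), (y : ℝ)) - X / ff b c t / (2 * q))| ≤
          D * (X / ff b c t) ^ (3 / 4 : ℝ) := by
        rw [abs_mul, abs_of_pos (by positivity : (0 : ℝ) < 1 / q)]
        have h9 : (1 : ℝ) / q ≤ 1 := by rw [div_le_one hq0]; exact hq1
        calc _ ≤ 1 * |(∑ y ∈ P.filter
            (fun y : ℕ => (y : ℝ) ^ 2 ≤ X / ff b c t), (y : ℝ)) - X / ff b c t / (2 * q)| :=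
              mul_le_mul_of_nonneg_right h9 (abs_nonneg _)
          _ ≤ _ := by rw [one_mul]; exact h6
      refine h8.trans ?_
      rw [mul_assoc]
      apply mul_le_mul_of_nonneg_left _ hD0.le
      refine (Real.rpow_le_rpow hw.le h4 (by norm_num)).trans (le_of_eq ?_)
      rw [Real.div_rpow hX.le (by positivity), Real.mul_rpow h0.le (by positivity),
        Real.norm_eq_abs, sq_abs, Real.rpow_neg h0.le,
        show (-(3 / 2 : ℝ) / 2) = -(3 / 4) by norm_num, Real.rpow_neg (by positivity)]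
      field_simp
  have hfin : ∑ y ∈ P, ∑ x ∈ (Fy Y X y).filter (fun x => (q : ℤ) ∣ x - v₀.1), G (x / y) -
        ((X / (2 * (q : ℝ) ^ 2) : ℝ) : ℂ) * ∫ t in W Y, G t / (ff b c t : ℂ) =
      ∑ y ∈ P, (∑ x ∈ (Fy Y X y).filter (fun x => (q : ℤ) ∣ x - v₀.1), G (x / y) -
        (((y : ℝ) / q : ℝ) : ℂ) * ∫ t in Ty Y X y, G t) +
      ((∑ y ∈ P, (((y : ℝ) / q : ℝ) : ℂ) * ∫ t in Ty Y X y, G t) -
        ((X / (2 * (q : ℝ) ^ 2) : ℝ) : ℂ) * ∫ t in W Y, G t / (ff b c t : ℂ)) := by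
    rw [Finset.sum_sub_distrib]
    ring
  rw [hfin, hst2, hst3]
  refine (norm_add_le _ _).trans ?_
  have hsXc : Real.sqrt (X / c0) = s0 * Real.sqrt X := by
    rw [div_eq_mul_one_div, Real.sqrt_mul hX.le, mul_comm]
  have hsX : 0 ≤ Real.sqrt X := Real.sqrt_nonneg _
  have hab := abs_nonneg ξ
  have h1 : ‖∑ y ∈ P, (∑ x ∈ (Fy Y X y).filter (fun x => (q : ℤ) ∣ x - v₀.1), G (x / y) -
        (((y : ℝ) / q : ℝ) : ℂ) * ∫ t in Ty Y X y, G t)‖ ≤
      s0 * (2 * Real.pi + 3) * Real.sqrt X * (|ξ| + 1) := by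
    refine (norm_sum_le_of_le _ hst1).trans ?_
    rw [Finset.sum_const, nsmul_eq_mul]
    have hcard : (P.card : ℝ) ≤ s0 * Real.sqrt X := by
      have e2 : (P.card : ℝ) ≤ m := by exact_mod_cast hPc
      rw [← hsXc]
      exact e2.trans hms
    calc (P.card : ℝ) * (2 * Real.pi * |ξ| + 3)
        ≤ (s0 * Real.sqrt X) * ((2 * Real.pi + 3) * (|ξ| + 1)) := by
          apply mul_le_mul hcard _ (by positivity) (by positivity)
          nlinarith
      _ = _ := by ring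
  have h2 : 0 ≤ D * I * Real.sqrt X * (|ξ| + 1) := by positivity
  have h3 : 0 ≤ s0 * (2 * Real.pi + 3) * X ^ (3 / 4 : ℝ) := by positivity
  calc _ ≤ s0 * (2 * Real.pi + 3) * Real.sqrt X * (|ξ| + 1) + D * I * X ^ (3 / 4 : ℝ) :=
        add_le_add h1 hst4
    _ ≤ _ := by
        have e1 : (s0 * (2 * Real.pi + 3) + D * I) * Real.sqrt X * (|ξ| + 1) =
          s0 * (2 * Real.pi + 3) * Real.sqrt X * (|ξ| + 1) + D * I * Real.sqrt X * (|ξ| + 1) := by
          ring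
        have e2 : (s0 * (2 * Real.pi + 3) + D * I) * X ^ (3 / 4 : ℝ) =
          s0 * (2 * Real.pi + 3) * X ^ (3 / 4 : ℝ) + D * I * X ^ (3 / 4 : ℝ) := by ring
        rw [e1, e2]
        linarith

end

theorem small_class : type_of% @small_class_pr := @small_class_pr

end Pool.Agent.AQM
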