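import Pool.Agent.Lib_helper39.MQX.PRM
import Pool.Agent.Lib_helper39.AQM.Defs
import Pool.Agent.Lib_helper39.AQM.AB
import Pool.Agent.Lib_helper39.MQX.ALG
import Pool.Agent.Lib_helper39.MQX.SBA
import Pool.Agent.Lib_helper39.MQX.SBB
import Pool.Agent.Lib_helper39.MQX.SBC
import Pool.Agent.Lib_helper39.MQX.LSV
import Pool.Agent.Lib_helper39.MQX.PAR
import Pool.Agent.Lib_helper39.MQX.FEJ
import Pool.Agent.Lib_helper39.MQX.EXP
import Pool.Agent.Lib_helper39.AQMF.EC3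

/-! block EL of AQM, proved by helper84 -/

/-! AQM, block EL: character sums over ideals. -/

set_option autoImplicit false

namespace Pool.Agent.AQM

open Pool.Agent.MQ Pool.Agent.T2 Filter Topology MeasureTheory

/-! ### scalars -/

/-- integer multiples -/
def el_sc (n : ℤ) (v : El) : El := (n * v.1, n * v.2)

/-- quotients -/
def el_dv (n : ℤ) (v : El) : El := (v.1 / n, v.2 / n)

theorem el_sc_dv {n : ℤ} {v : El} (h : dv n v) : el_sc n (el_dv n v) = v := by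
  unfold el_sc el_dv
  exact Prod.ext (Int.mul_ediv_cancel' h.1) (Int.mul_ediv_cancel' h.2)

theorem el_dv_sc {n : ℤ} (hn : n ≠ 0) (v : El) : el_dv n (el_sc n v) = v := by
  unfold el_sc el_dv
  exact Prod.ext (Int.mul_ediv_cancel_left _ hn) (Int.mul_ediv_cancel_left _ hn)

theorem el_ml_sc (b c n : ℤ) (v w : El) : ml b c v (el_sc n w) = el_sc n (ml b c v w) := by
  unfold ml el_sc
  simp only [Prod.mk.injEq]
  constructor <;> ring

theorem el_nm_sc (b c n : ℤ) (v : El) : nm b c (el_sc n v) = n ^ 2 * nm b c v := by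
  unfold nm el_sc
  ring

theorem el_sc_sc (m n : ℤ) (v : El) : el_sc m (el_sc n v) = el_sc (m * n) v := by
  unfold el_sc
  simp only [Prod.mk.injEq]
  constructor <;> ring

theorem el_dv_sc_self (n : ℤ) (v : El) : dv n (el_sc n v) := ⟨⟨v.1, rfl⟩, ⟨v.2, rfl⟩⟩

theorem el_ml_cj (b c : ℤ) (d v : El) :
    ml b c d (ml b c (cj b d) v) = el_sc (nm b c d) v := by
  rw [← ml_assoc, ml_comm b c d, ml_cj_self, ml_scal]
  rfl

theorem el_cj_ml (b c : ℤ) (d v : El) :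
    ml b c (cj b d) (ml b c d v) = el_sc (nm b c d) v := by
  rw [← ml_assoc, ml_cj_self, ml_scal]
  rfl

theorem el_dv_ml {b c n : ℤ} {v : El} (h : dv n v) (w : El) : dv n (ml b c w v) := by
  rw [← el_sc_dv h, el_ml_sc]
  exact el_dv_sc_self n _

/-! ### the ideal -/

theorem el_sqf {d : ℕ} (hd : Squarefree d) {N : ℤ}
    (h : ∀ l : ℕ, l.Prime → l ∣ d → (l : ℤ) ∣ N) : (d : ℤ) ∣ N := by
  rw [Int.natCast_dvd, ← Nat.prod_primeFactors_of_squarefree hd]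
  refine Finset.prod_primes_dvd _ (fun a ha => ?_) (fun a ha => ?_)
  · exact (Nat.prime_of_mem_primeFactors ha).prime
  · exact Int.natCast_dvd.1 (h a (Nat.prime_of_mem_primeFactors ha)
      (Nat.dvd_of_mem_primeFactors ha))

theorem el_loc {b c : ℤ} {l : ℕ} (hl : l.Prime) {r v w : El} (hr : ¬ dv l r)
    (hn : (l : ℤ) ∣ nm b c r) (hv : (l : ℤ) ∣ dt v r) (hw : (l : ℤ) ∣ dt w r) :
    (l : ℤ) ∣ dt v w ∧ (l : ℤ) ∣ bl b c v w := by
  have hp : Prime (l : ℤ) := Nat.prime_iff_prime_int.1 hl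
  obtain ⟨x, hx⟩ := hv
  obtain ⟨y, hy⟩ := hw
  obtain ⟨z, hz⟩ := hn
  unfold dt at hx hy
  unfold nm at hz
  by_cases h2 : (l : ℤ) ∣ r.2
  · have h1 : ¬ (l : ℤ) ∣ r.1 := fun h1 => hr ⟨h1, h2⟩
    have key : ∀ N : ℤ, (l : ℤ) ∣ r.1 ^ 2 * N → (l : ℤ) ∣ N := fun N hN =>
      (hp.dvd_or_dvd hN).resolve_left (fun h => h1 (hp.dvd_of_dvd_pow h))
    constructor
    · apply key
      refine ⟨x * w.1 * r.1 - y * r.1 * v.1, ?_⟩
      unfold dt
      linear_combination (w.1 * r.1) * hx - (v.1 * r.1) * hy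
    · apply key
      refine ⟨v.1 * w.1 * z - b * r.1 * w.1 * x -
        c * (v.1 * r.2 * y + x * w.1 * r.2 - l * x * y), ?_⟩
      unfold bl
      linear_combination (v.1 * w.1) * hz + (-b * r.1 * w.1 - c * w.2 * r.1) * hx -
        c * (v.1 * r.2 - l * x) * hy
  · have key : ∀ N : ℤ, (l : ℤ) ∣ r.2 ^ 2 * N → (l : ℤ) ∣ N := fun N hN =>
      (hp.dvd_or_dvd hN).resolve_left (fun h => h2 (hp.dvd_of_dvd_pow h))
    constructor
    · apply key
      refine ⟨x * w.2 * r.2 - y * v.2 * r.2, ?_⟩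
      unfold dt
      linear_combination (w.2 * r.2) * hx - (v.2 * r.2) * hy
    · apply key
      refine ⟨v.2 * w.2 * z + x * w.2 * r.1 + y * v.2 * r.1 + l * x * y + b * v.2 * r.2 * y, ?_⟩
      unfold bl
      linear_combination (v.2 * w.2) * hz + (w.1 * r.2) * hx +
        (v.2 * r.1 + l * x + b * v.2 * r.2) * hy

theorem el_glob {b c : ℤ} {d : ℕ} (hd : Squarefree d) {r v w : El}
    (hn : (d : ℤ) ∣ nm b c r) (hr : ∀ l : ℕ, l.Prime → l ∣ d → ¬ dv l r)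
    (hv : (d : ℤ) ∣ dt v r) (hw : (d : ℤ) ∣ dt w r) :
    (d : ℤ) ∣ dt v w ∧ (d : ℤ) ∣ bl b c v w := by
  have hc : ∀ l : ℕ, l ∣ d → (l : ℤ) ∣ (d : ℤ) := fun l h => Int.natCast_dvd_natCast.2 h
  constructor
  · refine el_sqf hd (fun l hl hld => ?_)
    exact (el_loc hl (hr l hl hld) ((hc l hld).trans hn) ((hc l hld).trans hv)
      ((hc l hld).trans hw)).1
  · refine el_sqf hd (fun l hl hld => ?_)
    exact (el_loc hl (hr l hl hld) ((hc l hld).trans hn) ((hc l hld).trans hv)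
      ((hc l hld).trans hw)).2

theorem el_ideal {b c : ℤ} {d : ℕ} (hd : Squarefree d) {r v : El}
    (hn : (d : ℤ) ∣ nm b c r) (hr : ∀ l : ℕ, l.Prime → l ∣ d → ¬ dv l r)
    (hv : (d : ℤ) ∣ dt v r) (z : El) : (d : ℤ) ∣ dt (ml b c z v) r := by
  have h0 : (d : ℤ) ∣ dt r r := by
    have : dt r r = 0 := by unfold dt; ring
    rw [this]
    exact dvd_zero _
  have h1 := (el_glob (b := b) (c := c) hd hn hr hv h0).2
  have h2 : dt (ml b c z v) r = z.1 * dt v r - z.2 * bl b c v r := by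
    unfold dt ml bl
    ring
  rw [h2]
  exact dvd_sub (Dvd.dvd.mul_left hv _) (Dvd.dvd.mul_left h1 _)

/-! ### Thue -/

theorem el_thue {d : ℕ} (hd : 1 ≤ d) (r : El) : ∃ v : El, v ≠ (0, 0) ∧
    v.1 ^ 2 ≤ d ∧ v.2 ^ 2 ≤ d ∧ (d : ℤ) ∣ dt v r := by
  have : NeZero d := ⟨by omega⟩
  set m := Nat.sqrt d with hm
  have hm1 : m ^ 2 ≤ d := Nat.sqrt_le' d
  have hm2 : d < (m + 1) ^ 2 := Nat.lt_succ_sqrt' d
  have hcard : (Finset.univ : Finset (ZMod d)).card <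
      ((Finset.range (m + 1)) ×ˢ (Finset.range (m + 1))).card := by
    rw [Finset.card_univ, ZMod.card, Finset.card_product, Finset.card_range, ← sq]
    exact hm2
  obtain ⟨q, hq, q', hq', hne, he⟩ := Finset.exists_ne_map_eq_of_card_lt_of_maps_to hcard
    (f := fun q : ℕ × ℕ => (((q.1 : ℤ) * r.2 - q.2 * r.1 : ℤ) : ZMod d))
    (fun _ _ => Finset.mem_univ _)
  simp only [Finset.mem_product, Finset.mem_range] at hq hq'
  have h3 : (m : ℤ) ^ 2 ≤ d := by exact_mod_cast hm1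
  refine ⟨((q.1 : ℤ) - q'.1, (q.2 : ℤ) - q'.2), ?_, ?_, ?_, ?_⟩
  · intro h
    apply hne
    rw [Prod.mk.injEq] at h
    ext
    · have := h.1; omega
    · have := h.2; omega
  · have h1 : |(q.1 : ℤ) - q'.1| ≤ m := by rw [abs_le]; omega
    have h2 : ((q.1 : ℤ) - q'.1) ^ 2 ≤ (m : ℤ) ^ 2 := by
      rw [← sq_abs]; exact pow_le_pow_left₀ (abs_nonneg _) h1 2
    exact h2.trans h3
  · have h1 : |(q.2 : ℤ) - q'.2| ≤ m := by rw [abs_le]; omega
    have h2 : ((q.2 : ℤ) - q'.2) ^ 2 ≤ (m : ℤ) ^ 2 := by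
      rw [← sq_abs]; exact pow_le_pow_left₀ (abs_nonneg _) h1 2
    exact h2.trans h3
  · have h4 := (ZMod.intCast_eq_intCast_iff_dvd_sub _ _ _).1 he.symm
    have h5 : dt ((q.1 : ℤ) - q'.1, (q.2 : ℤ) - q'.2) r =
        (q.1 : ℤ) * r.2 - q.2 * r.1 - ((q'.1 : ℤ) * r.2 - q'.2 * r.1) := by
      unfold dt
      ring
    rw [h5]
    exact h4

/-- an element of the ideal of norm `k d` -/
theorem el_elt {b c : ℤ} (hs : ¬ IsSquare (dsc b c)) {d : ℕ} (hd : Squarefree d) {r : El}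
    (hn : (d : ℤ) ∣ nm b c r) (hr : ∀ l : ℕ, l.Prime → l ∣ d → ¬ dv l r) :
    ∃ (v : El) (k : ℕ), 1 ≤ k ∧ k ≤ (1 + b.natAbs + c.natAbs) * (1 + (dsc b c).natAbs) ∧
      nm b c v = k * d ∧ (d : ℤ) ∣ dt v r := by
  have hD0 : dsc b c ≠ 0 := fun h => hs (by rw [h]; exact ⟨0, rfl⟩)
  have hd1 : 1 ≤ d := Nat.one_le_iff_ne_zero.2 hd.ne_zero
  have hp0 : (0 : ℤ) < d := by exact_mod_cast hd1
  obtain ⟨⟨x, y⟩, hne, hx, hy, hdt⟩ := el_thue hd1 r
  simp only at hx hy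
  have hnm0 : nm b c (x, y) ≠ 0 := prm_nm_ne hs hne
  have hdvd : (d : ℤ) ∣ nm b c (x, y) := by
    have h1 := (el_glob (b := b) (c := c) hd hn hr hdt hdt).2
    have h2 : bl b c (x, y) (x, y) = nm b c (x, y) := by
      unfold bl nm
      ring
    rwa [h2] at h1
  obtain ⟨k, hk⟩ := hdvd
  have hk0 : k ≠ 0 := by
    rintro rfl; rw [mul_zero] at hk; exact hnm0 hk
  have hbound : k.natAbs ≤ 1 + b.natAbs + c.natAbs := by
    have h2 : |nm b c (x, y)| ≤ (1 + |b| + |c|) * d := by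
      unfold nm
      simp only
      have hxy2 : |x * y| ≤ d := by
        have : 2 * |x * y| ≤ x ^ 2 + y ^ 2 := by
          rw [abs_mul]
          have := sq_nonneg (|x| - |y|)
          rw [← sq_abs x, ← sq_abs y]
          nlinarith
        linarith
      calc |x ^ 2 + b * x * y + c * y ^ 2| ≤ |x ^ 2| + |b * x * y| + |c * y ^ 2| :=
            abs_add_three _ _ _
        _ = x ^ 2 + |b| * |x * y| + |c| * y ^ 2 := by
            rw [abs_mul c, abs_of_nonneg (sq_nonneg x), abs_of_nonneg (sq_nonneg y), mul_assoc,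
              abs_mul b]
        _ ≤ d + |b| * d + |c| * d := by
            have := mul_le_mul_of_nonneg_left hxy2 (abs_nonneg b)
            have := mul_le_mul_of_nonneg_left hy (abs_nonneg c)
            linarith
        _ = _ := by ring
    rw [hk, abs_mul, abs_of_pos hp0] at h2
    have h3 : |k| ≤ 1 + |b| + |c| := by
      have : (d : ℤ) * |k| ≤ d * (1 + |b| + |c|) := by linarith
      exact le_of_mul_le_mul_left this hp0
    rw [Int.abs_eq_natAbs, Int.abs_eq_natAbs, Int.abs_eq_natAbs] at h3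
    exact_mod_cast h3
  rcases lt_or_gt_of_ne hk0 with hneg | hpos
  · have hDpos : 0 < dsc b c := by
      by_contra hc
      have hc' : dsc b c < 0 := lt_of_le_of_ne (not_lt.1 hc) hD0
      have h4 : 4 * nm b c (x, y) = (2 * x + b * y) ^ 2 - dsc b c * y ^ 2 := by
        unfold nm dsc; ring
      have h5 : nm b c (x, y) < 0 := by
        rw [hk]; exact mul_neg_of_pos_of_neg hp0 hneg
      have h6 : 0 ≤ - dsc b c * y ^ 2 := mul_nonneg (by linarith) (sq_nonneg y)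
      nlinarith [sq_nonneg (2 * x + b * y)]
    refine ⟨ml b c (-b, 2) (x, y), (-k).toNat * (dsc b c).natAbs, ?_, ?_, ?_, ?_⟩
    · have : 1 ≤ (-k).toNat := by omega
      have : 1 ≤ (dsc b c).natAbs := by omega
      exact Nat.mul_pos (by omega) (by omega)
    · apply Nat.mul_le_mul
      · omega
      · omega
    · rw [nm_ml, hk]
      have e1 : (((-k).toNat : ℕ) : ℤ) = -k := Int.toNat_of_nonneg (by linarith)
      have e2 : (((dsc b c).natAbs : ℕ) : ℤ) = dsc b c := Int.natAbs_of_nonneg hDpos.le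
      push_cast
      rw [e1, abs_of_pos hDpos]
      unfold nm dsc
      simp only
      ring
    · exact el_ideal hd hn hr hdt _
  · refine ⟨(x, y), k.toNat, by omega, ?_, ?_, hdt⟩
    · calc k.toNat ≤ (1 + b.natAbs + c.natAbs) * 1 := by omega
        _ ≤ _ := Nat.mul_le_mul_left _ (by omega)
    · rw [hk, Int.toNat_of_nonneg hpos.le]
      ring

/-! ### the bijection -/

section
variable {b c : ℤ} {d k₀ : ℕ} {r δ : El}

theorem el_fw (hd : Squarefree d) (hn : (d : ℤ) ∣ nm b c r)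
    (hr : ∀ l : ℕ, l.Prime → l ∣ d → ¬ dv l r) (hδ : nm b c δ = k₀ * d) (hk : 1 ≤ k₀)
    (hδr : (d : ℤ) ∣ dt δ r) {v : El} (hv : (d : ℤ) ∣ dt v r) (hnv : 0 < nm b c v) :
    ml b c δ (el_dv d (ml b c (cj b δ) v)) = el_sc k₀ v ∧
      (d : ℤ) * nm b c (el_dv d (ml b c (cj b δ) v)) = k₀ * nm b c v ∧
      0 < nm b c (el_dv d (ml b c (cj b δ) v)) := by
  have hd0 : (0 : ℤ) < d := by exact_mod_cast Nat.pos_of_ne_zero hd.ne_zero
  have hk0 : (0 : ℤ) < k₀ := by exact_mod_cast hk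
  obtain ⟨h1, h2⟩ := el_glob (b := b) (c := c) hd hn hr hδr hv
  have h3 : dv d (ml b c (cj b δ) v) := by
    rw [ml_cj]
    exact ⟨h2, h1⟩
  have h4 := el_sc_dv h3
  set w := el_dv d (ml b c (cj b δ) v) with hw
  have h5 : ml b c δ w = el_sc k₀ v := by
    have h6 : el_sc d (ml b c δ w) = el_sc d (el_sc k₀ v) := by
      rw [← el_ml_sc, h4, el_ml_cj, hδ, el_sc_sc, mul_comm]
    rw [← el_dv_sc hd0.ne' (ml b c δ w), h6, el_dv_sc hd0.ne']
  have h7 : (d : ℤ) * nm b c w = k₀ * nm b c v := by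
    have h8 : nm b c (ml b c δ w) = nm b c (el_sc k₀ v) := by rw [h5]
    rw [nm_ml, hδ, el_nm_sc] at h8
    have h9 : (k₀ : ℤ) * (d * nm b c w) = k₀ * (k₀ * nm b c v) := by
      linear_combination h8
    exact mul_left_cancel₀ hk0.ne' h9
  refine ⟨h5, h7, ?_⟩
  have h10 : 0 < (d : ℤ) * nm b c w := by
    rw [h7]
    positivity
  exact pos_of_mul_pos_right h10 hd0.le

theorem el_bw (hd : Squarefree d) (hn : (d : ℤ) ∣ nm b c r)
    (hr : ∀ l : ℕ, l.Prime → l ∣ d → ¬ dv l r) (hδ : nm b c δ = k₀ * d) (hk : 1 ≤ k₀)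
    (hco : Nat.Coprime d k₀) (hδr : (d : ℤ) ∣ dt δ r) {w : El} (hw : dv k₀ (ml b c δ w))
    (hnw : 0 < nm b c w) :
    ml b c (cj b δ) (el_dv k₀ (ml b c δ w)) = el_sc d w ∧
      (k₀ : ℤ) * nm b c (el_dv k₀ (ml b c δ w)) = d * nm b c w ∧
      0 < nm b c (el_dv k₀ (ml b c δ w)) ∧ (d : ℤ) ∣ dt (el_dv k₀ (ml b c δ w)) r := by
  have hd0 : (0 : ℤ) < d := by exact_mod_cast Nat.pos_of_ne_zero hd.ne_zero
  have hk0 : (0 : ℤ) < k₀ := by exact_mod_cast hk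
  have h4 := el_sc_dv hw
  set v := el_dv k₀ (ml b c δ w) with hv
  have h5 : ml b c (cj b δ) v = el_sc d w := by
    have h6 : el_sc k₀ (ml b c (cj b δ) v) = el_sc k₀ (el_sc d w) := by
      rw [← el_ml_sc, h4, el_cj_ml, hδ, el_sc_sc]
    rw [← el_dv_sc hk0.ne' (ml b c (cj b δ) v), h6, el_dv_sc hk0.ne']
  have h7 : (k₀ : ℤ) * nm b c v = d * nm b c w := by
    have h8 : nm b c (ml b c (cj b δ) v) = nm b c (el_sc d w) := by rw [h5]
    rw [nm_ml, nm_cj, hδ, el_nm_sc] at h8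
    have h9 : (d : ℤ) * (k₀ * nm b c v) = d * (d * nm b c w) := by
      linear_combination h8
    exact mul_left_cancel₀ hd0.ne' h9
  refine ⟨h5, h7, ?_, ?_⟩
  · have h10 : 0 < (k₀ : ℤ) * nm b c v := by
      rw [h7]
      positivity
    exact pos_of_mul_pos_right h10 hk0.le
  · have h11 := el_ideal hd hn hr hδr w
    rw [ml_comm, ← h4] at h11
    have h12 : dt (el_sc k₀ v) r = k₀ * dt v r := by
      unfold dt el_sc
      ring
    rw [h12] at h11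
    exact (Nat.isCoprime_iff_coprime.2 hco).dvd_of_dvd_mul_left h11

theorem el_swap (b c : ℤ) (u v w : El) : ml b c u (ml b c v w) = ml b c v (ml b c u w) := by
  rw [← ml_assoc, ml_comm b c u v, ml_assoc]

open Classical in
theorem el_bij (S : Sys b c) (hd : Squarefree d) (hn : (d : ℤ) ∣ nm b c r)
    (hr : ∀ l : ℕ, l.Prime → l ∣ d → ¬ dv l r) (hδ : nm b c δ = k₀ * d) (hk : 1 ≤ k₀)
    (hco : Nat.Coprime d k₀) (hδr : (d : ℤ) ∣ dt δ r) (X : ℝ) (k : ℤ) :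
    ∑ v ∈ (S.MF X).filter (fun v => (d : ℤ) ∣ dt v r), ex (k * S.u v) =
      ex (k * S.u (S.rp δ)) *
        ∑ w ∈ (S.MF (k₀ * (X / d))).filter (fun w => dv k₀ (ml b c δ w)), ex (k * S.u w) := by
  have hd0 : (0 : ℤ) < d := by exact_mod_cast Nat.pos_of_ne_zero hd.ne_zero
  have hk0 : (0 : ℤ) < k₀ := by exact_mod_cast hk
  have hd0r : (0 : ℝ) < d := by exact_mod_cast hd0
  have hk0r : (0 : ℝ) < k₀ := by exact_mod_cast hk0
  have hδ0 : 0 < nm b c δ := by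
    rw [hδ]
    positivity
  rw [Finset.mul_sum]
  refine Finset.sum_nbij' (fun v => S.rp (el_dv d (ml b c (cj b δ) v)))
    (fun w => S.rp (el_dv k₀ (ml b c δ w))) ?_ ?_ ?_ ?_ ?_
  · intro v hv
    rw [Finset.mem_filter, mem_MF] at hv
    obtain ⟨⟨hv1, hv2⟩, hv3⟩ := hv
    have hnv := wd_nm S hv1
    obtain ⟨h1, h2, h3⟩ := el_fw hd hn hr hδ hk hδr hv3 hnv
    obtain ⟨o, ho1, ho2, ho3⟩ := S.rp_unit _ h3
    rw [Finset.mem_filter, mem_MF]
    refine ⟨⟨S.rp_wd _ h3, ?_⟩, ?_⟩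
    · rw [rp_nm S h3]
      have h4 : (d : ℝ) * (nm b c (el_dv d (ml b c (cj b δ) v)) : ℝ) =
          k₀ * (nm b c v : ℝ) := by exact_mod_cast h2
      have h5 : (nm b c (el_dv d (ml b c (cj b δ) v)) : ℝ) = k₀ * ((nm b c v : ℝ) / d) := by
        field_simp
        linarith
      rw [h5]
      exact mul_le_mul_of_nonneg_left (div_le_div_of_nonneg_right hv2 hd0r.le) hk0r.le
    · rw [ho3, el_swap, h1]
      exact el_dv_ml (el_dv_sc_self _ _) _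
  · intro w hw
    rw [Finset.mem_filter, mem_MF] at hw
    obtain ⟨⟨hw1, hw2⟩, hw3⟩ := hw
    have hnw := wd_nm S hw1
    obtain ⟨h1, h2, h3, h4⟩ := el_bw hd hn hr hδ hk hco hδr hw3 hnw
    obtain ⟨o, ho1, ho2, ho3⟩ := S.rp_unit _ h3
    rw [Finset.mem_filter, mem_MF]
    refine ⟨⟨S.rp_wd _ h3, ?_⟩, ?_⟩
    · rw [rp_nm S h3]
      have h5 : (k₀ : ℝ) * (nm b c (el_dv k₀ (ml b c δ w)) : ℝ) = d * (nm b c w : ℝ) := by
        exact_mod_cast h2
      have h6 : (k₀ : ℝ) * (nm b c (el_dv k₀ (ml b c δ w)) : ℝ) ≤ k₀ * X := by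
        rw [h5]
        calc (d : ℝ) * (nm b c w : ℝ) ≤ d * (k₀ * (X / d)) :=
              mul_le_mul_of_nonneg_left hw2 hd0r.le
          _ = k₀ * X := by field_simp
      exact le_of_mul_le_mul_left h6 hk0r
    · rw [ho3]
      exact el_ideal hd hn hr h4 _
  · intro v hv
    rw [Finset.mem_filter, mem_MF] at hv
    obtain ⟨⟨hv1, hv2⟩, hv3⟩ := hv
    have hnv := wd_nm S hv1
    obtain ⟨h1, h2, h3⟩ := el_fw hd hn hr hδ hk hδr hv3 hnv
    obtain ⟨o, ho1, ho2, ho3⟩ := S.rp_unit _ h3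
    rw [ho3, el_swap, h1, el_ml_sc, el_dv_sc hk0.ne', ho2 v hnv, S.rp_self v hv1]
  · intro w hw
    rw [Finset.mem_filter, mem_MF] at hw
    obtain ⟨⟨hw1, hw2⟩, hw3⟩ := hw
    have hnw := wd_nm S hw1
    obtain ⟨h1, h2, h3, h4⟩ := el_bw hd hn hr hδ hk hco hδr hw3 hnw
    obtain ⟨o, ho1, ho2, ho3⟩ := S.rp_unit _ h3
    rw [ho3, el_swap, h1, el_ml_sc, el_dv_sc hd0.ne', ho2 w hnw, S.rp_self w hw1]
  · intro v hv
    rw [Finset.mem_filter, mem_MF] at hv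
    obtain ⟨⟨hv1, hv2⟩, hv3⟩ := hv
    have hnv := wd_nm S hv1
    obtain ⟨h1, h2, h3⟩ := el_fw hd hn hr hδ hk hδr hv3 hnv
    obtain ⟨n, hn'⟩ := u_ml S hδ0 h3
    have h4 : S.u (S.rp (ml b c δ (el_dv d (ml b c (cj b δ) v)))) = S.u v := by
      rw [h1]
      have h5 : el_sc k₀ v = sm k₀ v := rfl
      rw [h5, S.rp_self _ ((wd_sm S hk).2 hv1)]
      exact u_sm S hk
    rw [h4] at hn'
    rw [hn']
    have h6 : (k : ℝ) * (S.u (S.rp δ) + S.u (S.rp (el_dv d (ml b c (cj b δ) v))) + n) =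
        k * S.u (S.rp δ) + k * S.u (S.rp (el_dv d (ml b c (cj b δ) v))) + ((k * n : ℤ) : ℝ) := by
      push_cast
      ring
    rw [h6, par_ex_add, par_ex_add, par_ex_int, mul_one]

end

/-! ### residue classes -/

theorem el_mod {k x y : ℤ} (hy : 0 ≤ y) (hk : y < k) : x % k = y ↔ k ∣ x - y := by
  constructor
  · intro h
    rw [← h]
    exact Int.dvd_self_sub_emod
  · intro h
    have h1 := (Int.emod_emod_of_dvd x (dvd_refl k))
    have h2 : x % k = y % k := (Int.emod_eq_emod_iff_emod_sub_eq_zero.2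
      (Int.emod_eq_zero_of_dvd h))
    rw [h2]
    exact Int.emod_eq_of_lt hy hk

open Classical in
theorem el_cls {b c : ℤ} (δ : El) {k₀ : ℕ} (hk : 1 ≤ k₀) (F : Finset El) (f : El → ℂ) {B : ℝ}
    (hB : ∀ v₀ : El, ‖∑ v ∈ F.filter (fun v => dv k₀ (v - v₀)), f v‖ ≤ B) :
    ‖∑ w ∈ F.filter (fun w => dv k₀ (ml b c δ w)), f w‖ ≤ (k₀ : ℝ) ^ 2 * B := by
  have hB0 : 0 ≤ B := (norm_nonneg _).trans (hB (0, 0))
  have hk0 : (0 : ℤ) < k₀ := by exact_mod_cast hk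
  set R : Finset El := Finset.Ico (0 : ℤ) k₀ ×ˢ Finset.Ico (0 : ℤ) k₀ with hR
  have hmap : ∀ w ∈ F.filter (fun w => dv k₀ (ml b c δ w)),
      ((w.1 % k₀, w.2 % k₀) : El) ∈ R := by
    intro w _
    rw [hR, Finset.mem_product, Finset.mem_Ico, Finset.mem_Ico]
    exact ⟨⟨Int.emod_nonneg _ hk0.ne', Int.emod_lt_of_pos _ hk0⟩,
      ⟨Int.emod_nonneg _ hk0.ne', Int.emod_lt_of_pos _ hk0⟩⟩
  rw [← Finset.sum_fiberwise_of_maps_to hmap f]
  refine (norm_sum_le _ _).trans ?_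
  have hcard : (R.card : ℝ) = (k₀ : ℝ) ^ 2 := by
    rw [hR, Finset.card_product, Int.card_Ico]
    simp only [sub_zero, Int.toNat_natCast]
    push_cast
    ring
  rw [← hcard, ← nsmul_eq_mul]
  refine Finset.sum_le_card_nsmul _ _ _ (fun v₀ hv₀ => ?_)
  rw [hR, Finset.mem_product, Finset.mem_Ico, Finset.mem_Ico] at hv₀
  have hiff : ∀ w : El, ((w.1 % k₀, w.2 % k₀) : El) = v₀ ↔ dv k₀ (w - v₀) := by
    intro w
    unfold dv
    rw [Prod.ext_iff]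
    simp only [Prod.fst_sub, Prod.snd_sub]
    rw [el_mod hv₀.1.1 hv₀.1.2, el_mod hv₀.2.1 hv₀.2.2]
  have hml : ∀ w : El, dv k₀ (w - v₀) → (dv k₀ (ml b c δ w) ↔ dv k₀ (ml b c δ v₀)) := by
    intro w hw
    have h1 : dv k₀ (ml b c δ (w - v₀)) := el_dv_ml hw _
    have h2 : ml b c δ (w - v₀) = ml b c δ w - ml b c δ v₀ := by
      unfold ml
      ext
      · simp only [Prod.fst_sub, Prod.snd_sub]; ring
      · simp only [Prod.fst_sub, Prod.snd_sub]; ring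
    rw [h2] at h1
    unfold dv at h1 ⊢
    simp only [Prod.fst_sub, Prod.snd_sub] at h1
    constructor
    · rintro ⟨h3, h4⟩
      exact ⟨(dvd_iff_dvd_of_dvd_sub h1.1).1 h3, (dvd_iff_dvd_of_dvd_sub h1.2).1 h4⟩
    · rintro ⟨h3, h4⟩
      exact ⟨(dvd_iff_dvd_of_dvd_sub h1.1).2 h3, (dvd_iff_dvd_of_dvd_sub h1.2).2 h4⟩
  by_cases h0 : dv k₀ (ml b c δ v₀)
  · have h1 : (F.filter (fun w => dv k₀ (ml b c δ w))).filter
        (fun w => ((w.1 % k₀, w.2 % k₀) : El) = v₀) = F.filter (fun v => dv k₀ (v - v₀)) := by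
      ext w
      rw [Finset.mem_filter, Finset.mem_filter, Finset.mem_filter, hiff]
      constructor
      · rintro ⟨⟨h2, _⟩, h3⟩
        exact ⟨h2, h3⟩
      · rintro ⟨h2, h3⟩
        exact ⟨⟨h2, (hml w h3).2 h0⟩, h3⟩
    rw [h1]
    exact hB v₀
  · have h1 : (F.filter (fun w => dv k₀ (ml b c δ w))).filter
        (fun w => ((w.1 % k₀, w.2 % k₀) : El) = v₀) = ∅ := by
      rw [Finset.eq_empty_iff_forall_notMem]
      intro w hw
      rw [Finset.mem_filter, Finset.mem_filter, hiff] at hw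
      exact h0 ((hml w hw.2).1 hw.1.2)
    rw [h1, Finset.sum_empty, norm_zero]
    exact hB0

open Classical in
/-- Thue: `δ` with `d ∣ dt δ r`, `nm δ = k d`, `1 ≤ k ≤ C₀` (if the norm is negative multiply by
`(-b, 2)`, norm `-D`); `M₁ = C₀!`. `v ↦ w = S.rp (conj δ v / d)` is a bijection onto the
`w ∈ MF (k X / d)` with `dv k (ml b c δ w)`. -/
theorem exp_line_pr : ∃ κ : ℝ, 0 < κ ∧ κ ≤ 1 ∧ ∀ (b c : ℤ) (S : Sys b c), ¬ IsSquare (dsc b c) →
    ∃ (M₁ : ℕ) (C X₀ : ℝ), 1 ≤ M₁ ∧ 1 ≤ C ∧ 1 ≤ X₀ ∧ ∀ (d : ℕ) (r : El), Squarefree d →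
    Nat.Coprime d M₁ → (d : ℤ) ∣ nm b c r → (∀ l : ℕ, l.Prime → l ∣ d → ¬ dv l r) →
    ∀ X : ℝ, X₀ ≤ X / d → ∀ k : ℤ, k ≠ 0 → |(k : ℝ)| ≤ (X / d) ^ 3 →
      ‖∑ v ∈ (S.MF X).filter (fun v => (d : ℤ) ∣ dt v r), ex (k * S.u v)‖ ≤
        C * (X / d) ^ (1 - κ) := by
  obtain ⟨κ, hκ0, hκ1, hκ⟩ := exp_real
  refine ⟨κ, hκ0, hκ1, fun b c S hs => ?_⟩
  set C₀ : ℕ := (1 + b.natAbs + c.natAbs) * (1 + (dsc b c).natAbs) with hC₀
  have hC1 : 1 ≤ C₀ := Nat.mul_pos (by omega) (by omega)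
  have hex : ∀ q : ℕ, ∃ X₀ : ℝ, 1 ≤ q → ∀ X : ℝ, X₀ ≤ X → ∀ ξ : ℝ, |ξ| ≤ X ^ 3 → ∃ Z : ℂ,
      ((∃ n : ℤ, n ≠ 0 ∧ ξ = n) → Z = 0) ∧ ∀ v₀ : El,
        ‖∑ v ∈ (S.MF X).filter (fun v => dv q (v - v₀)), ex (ξ * S.u v) - Z‖ ≤ X ^ (1 - κ) := by
    intro q
    by_cases hq : 1 ≤ q
    · obtain ⟨X₀, hX₀⟩ := hκ b c S q hq
      exact ⟨X₀, fun _ => hX₀⟩
    · exact ⟨0, fun h => absurd h hq⟩
  choose T hT using hex
  have hTs : ∀ q ∈ Finset.range (C₀ + 1), T q ≤ 1 + ∑ q ∈ Finset.range (C₀ + 1), |T q| := by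
    intro q hq
    have h1 : |T q| ≤ ∑ q ∈ Finset.range (C₀ + 1), |T q| :=
      Finset.single_le_sum (f := fun q => |T q|) (fun i _ => abs_nonneg (T i)) hq
    have h2 := le_abs_self (T q)
    linarith
  have hTp : 0 ≤ ∑ q ∈ Finset.range (C₀ + 1), |T q| :=
    Finset.sum_nonneg (fun i _ => abs_nonneg _)
  refine ⟨C₀.factorial, (C₀ : ℝ) ^ 3, 1 + ∑ q ∈ Finset.range (C₀ + 1), |T q|,
    Nat.one_le_iff_ne_zero.2 (Nat.factorial_ne_zero _), ?_, by linarith, ?_⟩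
  · have : (1 : ℝ) ≤ C₀ := by exact_mod_cast hC1
    exact one_le_pow₀ this
  intro d r hd hco hn hr X hX k hk0 hk
  obtain ⟨δ, k₀, hk1, hk2, hδ, hδr⟩ := el_elt hs hd hn hr
  have hco' : Nat.Coprime d k₀ :=
    Nat.Coprime.coprime_dvd_right (Nat.dvd_factorial (by omega) hk2) hco
  have hk1r : (1 : ℝ) ≤ k₀ := by exact_mod_cast hk1
  have hk2r : (k₀ : ℝ) ≤ C₀ := by exact_mod_cast hk2
  have hY1 : 1 ≤ X / d := by linarith
  have hY0 : 0 < X / d := by linarith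
  have hY2 : X / d ≤ k₀ * (X / d) := le_mul_of_one_le_left hY0.le hk1r
  have hrange : k₀ ∈ Finset.range (C₀ + 1) := Finset.mem_range.2 (by omega)
  have hbd : ∀ v₀ : El, ‖∑ v ∈ (S.MF (k₀ * (X / d))).filter (fun v => dv k₀ (v - v₀)),
      ex (k * S.u v)‖ ≤ (k₀ * (X / d)) ^ (1 - κ) := by
    obtain ⟨Z, hZ1, hZ2⟩ := hT k₀ hk1 (k₀ * (X / d)) (by linarith [hTs k₀ hrange]) k
      (hk.trans (pow_le_pow_left₀ hY0.le hY2 3))
    intro v₀
    have h1 := hZ2 v₀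
    rw [hZ1 ⟨k, hk0, rfl⟩, sub_zero] at h1
    exact h1
  rw [el_bij S hd hn hr hδ hk1 hco' hδr X k, norm_mul, par_ex_norm, one_mul]
  refine (el_cls (b := b) (c := c) δ hk1 _ _ hbd).trans ?_
  have hκ' : 0 ≤ 1 - κ := by linarith
  have h2 : ((k₀ : ℝ) * (X / d)) ^ (1 - κ) ≤ C₀ * (X / d) ^ (1 - κ) := by
    rw [Real.mul_rpow (by linarith) hY0.le]
    have h3 : (k₀ : ℝ) ^ (1 - κ) ≤ C₀ := by
      calc (k₀ : ℝ) ^ (1 - κ) ≤ (k₀ : ℝ) ^ (1 : ℝ) :=
            Real.rpow_le_rpow_of_exponent_le hk1r (by linarith)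
        _ = k₀ := Real.rpow_one _
        _ ≤ C₀ := hk2r
    exact mul_le_mul_of_nonneg_right h3 (Real.rpow_nonneg hY0.le _)
  have h4 : (k₀ : ℝ) ^ 2 ≤ (C₀ : ℝ) ^ 2 := pow_le_pow_left₀ (by linarith) hk2r 2
  have h5 : 0 ≤ (X / d : ℝ) ^ (1 - κ) := Real.rpow_nonneg hY0.le _
  calc (k₀ : ℝ) ^ 2 * ((k₀ : ℝ) * (X / d)) ^ (1 - κ)
      ≤ (C₀ : ℝ) ^ 2 * (C₀ * (X / d) ^ (1 - κ)) :=
        mul_le_mul h4 h2 (Real.rpow_nonneg (by positivity) _) (by positivity)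
    _ = (C₀ : ℝ) ^ 3 * (X / d) ^ (1 - κ) := by ring

theorem exp_line : type_of% @exp_line_pr := @exp_line_pr

end Pool.Agent.AQM
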