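import Pool.Agent.Lib_helper39.AQM.Defs
import Pool.Agent.Lib_helper39.AQM.AB
import Pool.Agent.Lib_helper39.MQX.ALG
import Pool.Agent.Lib_helper39.MQX.SBA
import Pool.Agent.Lib_helper39.MQX.SBB
import Pool.Agent.Lib_helper39.MQX.SBC
import Pool.Agent.Lib_helper39.MQX.LSV
import Pool.Agent.Lib_helper39.MQX.PAR
import Pool.Agent.Lib_helper39.MQX.FEJ
import Pool.Agent.Lib_helper39.MQX.EXP
import Pool.Agent.Lib_helper39.AQMF.AL1
import Pool.Agent.Lib_helper39.AQMF.MO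

/-! block EP of AQM, proved by helper54 -/

set_option autoImplicit false

/-! AQM, block EP: character sums over `PS` -/

namespace Pool.Agent.AQM

open Pool.Agent.MQ Pool.Agent.T2 Filter Topology MeasureTheory

theorem ep_dv_symm {n : ℤ} {v w : El} (h : dv n (v - w)) : dv n (w - v) := by
  obtain ⟨h1, h2⟩ := h
  refine ⟨?_, ?_⟩
  · have : (w - v).1 = -(v - w).1 := by simp
    rw [this]
    exact (dvd_neg).2 h1
  · have : (w - v).2 = -(v - w).2 := by simp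
    rw [this]
    exact (dvd_neg).2 h2

open Classical in
theorem ep_classes {b c : ℤ} (A : Ang b c) {q : ℕ} (hq : 1 ≤ q) {V : El → Prop} (hV : Per q V)
    (k : ℤ) (Y M : ℝ) (hM : 0 ≤ M)
    (h : ∀ v₀ : El, ‖∑ v ∈ (A.MF Y).filter (fun v => dv q (v - v₀)), ex (k * A.u v)‖ ≤ M) :
    ‖∑ v ∈ (A.MF Y).filter (fun v => V v), ex (k * A.u v)‖ ≤ (q : ℝ) ^ 2 * M := by
  set red : El → El := fun w => (w.1 % (q : ℤ), w.2 % (q : ℤ)) with hred
  set R : Finset El := Finset.Ico (0 : ℤ) q ×ˢ Finset.Ico (0 : ℤ) q with hR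
  have hq' : (0 : ℤ) < q := by exact_mod_cast hq
  have hmap : ∀ w ∈ (A.MF Y).filter (fun v => V v), red w ∈ R := by
    intro w _
    simp only [hR, hred, Finset.mem_product, Finset.mem_Ico]
    exact ⟨⟨Int.emod_nonneg _ hq'.ne', Int.emod_lt_of_pos _ hq'⟩,
      ⟨Int.emod_nonneg _ hq'.ne', Int.emod_lt_of_pos _ hq'⟩⟩
  rw [← Finset.sum_fiberwise_of_maps_to hmap]
  have hcard : (R.card : ℝ) = (q : ℝ) ^ 2 := by
    simp [hR, sq]
  refine (norm_sum_le _ _).trans ?_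
  rw [← hcard, ← nsmul_eq_mul]
  refine Finset.sum_le_card_nsmul _ _ _ fun v₀ hv₀ => ?_
  have key : ∀ w : El, red w = v₀ ↔ dv q (w - v₀) := by
    intro w
    have h0 : v₀.1 % (q : ℤ) = v₀.1 ∧ v₀.2 % (q : ℤ) = v₀.2 := by
      simp only [hR, Finset.mem_product, Finset.mem_Ico] at hv₀
      exact ⟨Int.emod_eq_of_lt hv₀.1.1 hv₀.1.2, Int.emod_eq_of_lt hv₀.2.1 hv₀.2.2⟩
    constructor
    · intro hw
      have h1 : w.1 % (q : ℤ) = v₀.1 := congrArg Prod.fst hw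
      have h2 : w.2 % (q : ℤ) = v₀.2 := congrArg Prod.snd hw
      refine ⟨⟨w.1 / q, ?_⟩, ⟨w.2 / q, ?_⟩⟩
      · have := Int.mul_ediv_add_emod w.1 q
        show w.1 - v₀.1 = _
        linarith
      · have := Int.mul_ediv_add_emod w.2 q
        show w.2 - v₀.2 = _
        linarith
    · rintro ⟨h1, h2⟩
      have h1' : (q : ℤ) ∣ w.1 - v₀.1 := h1
      have h2' : (q : ℤ) ∣ w.2 - v₀.2 := h2
      have e1 : w.1 % (q : ℤ) = v₀.1 := by
        rw [← h0.1]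
        exact Int.emod_eq_emod_iff_emod_sub_eq_zero.2 (Int.emod_eq_zero_of_dvd h1')
      have e2 : w.2 % (q : ℤ) = v₀.2 := by
        rw [← h0.2]
        exact Int.emod_eq_emod_iff_emod_sub_eq_zero.2 (Int.emod_eq_zero_of_dvd h2')
      exact Prod.ext e1 e2
  by_cases hv : V v₀
  · have hset : ((A.MF Y).filter (fun v => V v)).filter (fun w => red w = v₀) =
        (A.MF Y).filter (fun v => dv q (v - v₀)) := by
      ext w
      simp only [Finset.mem_filter, key]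
      constructor
      · rintro ⟨⟨h1, _⟩, h2⟩
        exact ⟨h1, h2⟩
      · rintro ⟨h1, h2⟩
        exact ⟨⟨h1, hV _ _ (ep_dv_symm h2) hv⟩, h2⟩
    rw [hset]
    exact h v₀
  · have hset : ((A.MF Y).filter (fun v => V v)).filter (fun w => red w = v₀) = ∅ := by
      ext w
      simp only [Finset.mem_filter, key, Finset.notMem_empty, iff_false, not_and]
      rintro ⟨_, h1⟩ h2
      exact hv (hV _ _ h2 h1)
    rw [hset]
    simpa using hM

open Classical in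
theorem ep_triv {b c : ℤ} (A : Ang b c) : ∃ C : ℝ, 1 ≤ C ∧ ∀ (k : ℤ) (W : El → Prop) (Y : ℝ),
    0 ≤ Y → ‖∑ v ∈ (A.MF Y).filter (fun v => W v), ex (k * A.u v)‖ ≤ C * Y := by
  obtain ⟨C, hC1, hC⟩ := PS_card A
  refine ⟨C, hC1, fun k W Y hY => ?_⟩
  refine (norm_sum_le _ _).trans ?_
  have h1 : ∑ v ∈ (A.MF Y).filter (fun v => W v), ‖ex (k * A.u v)‖ =
      (((A.MF Y).filter (fun v => W v)).card : ℝ) := by
    rw [Finset.sum_congr rfl fun v _ => ex_norm (k * A.u v)]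
    simp
  rw [h1]
  have h2 : (A.MF Y).filter (fun v => W v) ⊆ PS A 0 (fun _ => True) Y := by
    intro v hv
    have h3 := (Finset.mem_filter.1 hv).1
    rw [mem_PS]
    obtain ⟨h4, h5⟩ := (AB.mem_MF A).1 h3
    exact ⟨h4, h5, trivial, fun l _ _ => dvd_zero l⟩
  have h3 : ((((A.MF Y).filter (fun v => W v)).card : ℕ) : ℝ) ≤
      ((PS A 0 (fun _ => True) Y).card : ℝ) := by
    exact_mod_cast Finset.card_le_card h2
  exact h3.trans (hC 0 _ Y hY)

theorem exp_PS_pr {b c : ℤ} (A : Ang b c) : ∃ κ : ℝ, 0 < κ ∧ κ ≤ 1 ∧ ∀ q : ℕ, 1 ≤ q →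
    ∃ X₀ : ℝ, ∀ V : El → Prop, Per q V → ∀ X : ℝ, X₀ ≤ X → ∀ k : ℤ, k ≠ 0 → |(k : ℝ)| ≤ X ^ 2 →
      ‖∑ v ∈ PS A q V X, ex (k * A.u v)‖ ≤ X ^ (1 - κ) := by
  classical
  obtain ⟨κ, hκ, hκ1, hex⟩ := A.exps
  obtain ⟨C, hC1, hC⟩ := ep_triv A
  obtain ⟨κ₀, h0, h0', h0k⟩ : ∃ κ₀ : ℝ, 0 < κ₀ ∧ κ₀ ≤ 1 / 2 ∧ κ₀ ≤ κ :=
    ⟨min κ (1 / 2), lt_min hκ (by norm_num), min_le_right _ _, min_le_left _ _⟩
  have hsum : Summable (fun e : ℕ => 1 / (e : ℝ) ^ (3 / 2 : ℝ)) :=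
    Real.summable_one_div_nat_rpow.2 (by norm_num)
  set S : ℝ := ∑' e : ℕ, 1 / (e : ℝ) ^ (3 / 2 : ℝ) with hS
  have hS0 : 0 ≤ S := tsum_nonneg fun e => by positivity
  refine ⟨κ₀ / 16, by positivity, by linarith, fun q hq => ?_⟩
  obtain ⟨X₁, hX₁⟩ := hex q hq
  set L : ℝ := ((q : ℝ) ^ 2 + C) * S with hL
  have hL0 : 0 ≤ L := by positivity
  refine ⟨max (max 1 ((max X₁ 1) ^ (4 / 3 : ℝ))) (L ^ (16 / κ₀)), fun V hV X hX k hk hkX => ?_⟩
  have hX1 : 1 ≤ X := (le_max_left _ _).trans ((le_max_left _ _).trans hX)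
  have hX0 : 0 < X := by linarith
  have hXa : X₁ ≤ X ^ (3 / 4 : ℝ) := by
    have h1 : (max X₁ 1) ^ (4 / 3 : ℝ) ≤ X := (le_max_right _ _).trans ((le_max_left _ _).trans hX)
    have h2 : (0 : ℝ) ≤ max X₁ 1 := le_trans zero_le_one (le_max_right _ _)
    have h3 : ((max X₁ 1) ^ (4 / 3 : ℝ)) ^ (3 / 4 : ℝ) ≤ X ^ (3 / 4 : ℝ) :=
      Real.rpow_le_rpow (by positivity) h1 (by norm_num)
    rw [← Real.rpow_mul h2] at h3
    norm_num at h3
    exact h3.1
  have hXb : L ≤ X ^ (κ₀ / 16) := by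
    have h1 : L ^ (16 / κ₀) ≤ X := (le_max_right _ _).trans hX
    have h3 : (L ^ (16 / κ₀)) ^ (κ₀ / 16) ≤ X ^ (κ₀ / 16) :=
      Real.rpow_le_rpow (by positivity) h1 (by positivity)
    rw [← Real.rpow_mul hL0] at h3
    have h4 : 16 / κ₀ * (κ₀ / 16) = 1 := by field_simp
    rw [h4, Real.rpow_one] at h3
    exact h3
  set D : ℕ := ⌊Real.sqrt X⌋₊ with hDdef
  have hD : X < ((D : ℝ) + 1) ^ 2 := by
    have h1 : Real.sqrt X < (D : ℝ) + 1 := Nat.lt_floor_add_one _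
    have h2 : X = Real.sqrt X ^ 2 := (Real.sq_sqrt hX0.le).symm
    rw [h2]
    exact pow_lt_pow_left₀ h1 (Real.sqrt_nonneg _) (by norm_num)
  rw [PS_moebius A hq V (fun v => ex (k * A.u v)) X D hD]
  refine (norm_sum_le _ _).trans ?_
  have hterm : ∀ e ∈ (Finset.Icc 1 D).filter (fun e => Nat.Coprime e q),
      ‖(ArithmeticFunction.moebius e : ℂ) *
        ∑ w ∈ (A.MF (X / (e : ℝ) ^ 2)).filter (fun w => V (sm e w)), ex (k * A.u (sm e w))‖ ≤
      ((q : ℝ) ^ 2 + C) * X ^ (1 - κ₀ / 8) * (1 / (e : ℝ) ^ (3 / 2 : ℝ)) := by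
    intro e he
    have he1 : 1 ≤ e := (Finset.mem_Icc.1 (Finset.mem_filter.1 he).1).1
    have he1' : (1 : ℝ) ≤ e := by exact_mod_cast he1
    have he0 : (0 : ℝ) < e := by linarith
    have hmu : ‖(ArithmeticFunction.moebius e : ℂ)‖ ≤ 1 := by
      rw [Complex.norm_intCast]
      exact_mod_cast ArithmeticFunction.abs_moebius_le_one
    have hcongr : ∑ w ∈ (A.MF (X / (e : ℝ) ^ 2)).filter (fun w => V (sm e w)),
        ex (k * A.u (sm e w)) =
        ∑ w ∈ (A.MF (X / (e : ℝ) ^ 2)).filter (fun w => V (sm e w)), ex (k * A.u w) := by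
      refine Finset.sum_congr rfl fun w hw => ?_
      have h1 := ((AB.mem_MF A).1 (Finset.mem_filter.1 hw).1).1
      rw [A.u_sm w e h1 he1]
    rw [norm_mul, hcongr]
    set Y : ℝ := X / (e : ℝ) ^ 2 with hY
    have hY0 : 0 < Y := by positivity
    have hYX : Y ≤ X := by
      rw [hY]
      exact div_le_self hX0.le (one_le_pow₀ he1')
    set I : ℝ := ‖∑ w ∈ (A.MF Y).filter (fun w => V (sm e w)), ex (k * A.u w)‖ with hI
    have hI0 : 0 ≤ I := norm_nonneg _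
    have hE32 : (0 : ℝ) < (e : ℝ) ^ (3 / 2 : ℝ) := by positivity
    suffices hmain : I * (e : ℝ) ^ (3 / 2 : ℝ) ≤ ((q : ℝ) ^ 2 + C) * X ^ (1 - κ₀ / 8) by
      have h1 : ‖(ArithmeticFunction.moebius e : ℂ)‖ * I ≤ I := by
        calc ‖(ArithmeticFunction.moebius e : ℂ)‖ * I ≤ 1 * I := by gcongr
          _ = I := one_mul _
      refine h1.trans ?_
      rw [mul_one_div, le_div_iff₀ hE32]
      exact hmain
    by_cases hcase : (e : ℝ) ≤ X ^ (κ₀ / 4)
    · -- small content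
      have h2 : (e : ℝ) ^ 2 ≤ X ^ (1 / 4 : ℝ) := by
        calc (e : ℝ) ^ 2 ≤ (X ^ (κ₀ / 4)) ^ 2 := by gcongr
          _ = X ^ (κ₀ / 2) := by
            rw [← Real.rpow_natCast, ← Real.rpow_mul hX0.le]
            congr 1
            push_cast
            ring
          _ ≤ X ^ (1 / 4 : ℝ) := Real.rpow_le_rpow_of_exponent_le hX1 (by linarith)
      have h3 : X ^ (3 / 4 : ℝ) ≤ Y := by
        rw [hY, le_div_iff₀ (by positivity)]
        calc X ^ (3 / 4 : ℝ) * (e : ℝ) ^ 2 ≤ X ^ (3 / 4 : ℝ) * X ^ (1 / 4 : ℝ) := by gcongr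
          _ = X := by
            rw [← Real.rpow_add hX0]
            norm_num
      have h4 : |(k : ℝ)| ≤ Y ^ 3 := by
        refine hkX.trans ?_
        calc X ^ 2 ≤ (X ^ (3 / 4 : ℝ)) ^ 3 := by
              rw [← Real.rpow_natCast (X ^ (3 / 4 : ℝ)), ← Real.rpow_mul hX0.le,
                ← Real.rpow_natCast X]
              refine Real.rpow_le_rpow_of_exponent_le hX1 ?_
              norm_num
          _ ≤ Y ^ 3 := by gcongr
      have hper : Per q (fun w => V (sm e w)) := by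
        intro v w hvw hv
        refine hV _ _ ?_ hv
        obtain ⟨g1, g2⟩ := hvw
        refine ⟨?_, ?_⟩
        · have g3 : (sm e v - sm e w).1 = (e : ℤ) * (v - w).1 := by
            simp only [sm, Prod.fst_sub]
            ring
          rw [g3]
          exact Dvd.dvd.mul_left g1 _
        · have g3 : (sm e v - sm e w).2 = (e : ℤ) * (v - w).2 := by
            simp only [sm, Prod.snd_sub]
            ring
          rw [g3]
          exact Dvd.dvd.mul_left g2 _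
      have h5 : I ≤ (q : ℝ) ^ 2 * Y ^ (1 - κ) := by
        refine ep_classes A hq hper k Y _ (by positivity) fun v₀ => ?_
        have := hX₁ Y (hXa.trans h3) k hk h4 v₀
        convert this using 3
      have h6 : Y ^ (1 - κ) ≤ X ^ (1 - κ₀) :=
        (Real.rpow_le_rpow hY0.le hYX (by linarith)).trans
          (Real.rpow_le_rpow_of_exponent_le hX1 (by linarith))
      have h7 : (e : ℝ) ^ (3 / 2 : ℝ) ≤ X ^ (3 * κ₀ / 8) := by
        calc (e : ℝ) ^ (3 / 2 : ℝ) ≤ (X ^ (κ₀ / 4)) ^ (3 / 2 : ℝ) :=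
              Real.rpow_le_rpow he0.le hcase (by norm_num)
          _ = X ^ (3 * κ₀ / 8) := by
            rw [← Real.rpow_mul hX0.le]
            congr 1
            ring
      calc I * (e : ℝ) ^ (3 / 2 : ℝ) ≤ ((q : ℝ) ^ 2 * X ^ (1 - κ₀)) * X ^ (3 * κ₀ / 8) := by
            refine mul_le_mul (h5.trans ?_) h7 hE32.le (by positivity)
            gcongr
        _ = (q : ℝ) ^ 2 * X ^ (1 - 5 * κ₀ / 8) := by
            rw [mul_assoc, ← Real.rpow_add hX0]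
            congr 2
            ring
        _ ≤ (q : ℝ) ^ 2 * X ^ (1 - κ₀ / 8) :=
            mul_le_mul_of_nonneg_left
              (Real.rpow_le_rpow_of_exponent_le hX1 (by linarith)) (by positivity)
        _ ≤ ((q : ℝ) ^ 2 + C) * X ^ (1 - κ₀ / 8) := by
            gcongr
            linarith
    · -- large content
      have hcase' : X ^ (κ₀ / 4) ≤ (e : ℝ) := (not_le.1 hcase).le
      have h2 : I ≤ C * Y := hC k _ Y hY0.le
      have h3 : X ^ (κ₀ / 8) ≤ (e : ℝ) ^ (1 / 2 : ℝ) := by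
        calc X ^ (κ₀ / 8) = (X ^ (κ₀ / 4)) ^ (1 / 2 : ℝ) := by
              rw [← Real.rpow_mul hX0.le]
              congr 1
              ring
          _ ≤ (e : ℝ) ^ (1 / 2 : ℝ) := Real.rpow_le_rpow (by positivity) hcase' (by norm_num)
      have h4 : (e : ℝ) ^ 2 = (e : ℝ) ^ (3 / 2 : ℝ) * (e : ℝ) ^ (1 / 2 : ℝ) := by
        rw [← Real.rpow_add he0, ← Real.rpow_natCast]
        norm_num
      have h5 : Y * (e : ℝ) ^ (3 / 2 : ℝ) ≤ X ^ (1 - κ₀ / 8) := by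
        have h6 : Y * (e : ℝ) ^ (3 / 2 : ℝ) = X / (e : ℝ) ^ (1 / 2 : ℝ) := by
          rw [hY, h4]
          field_simp
        rw [h6, div_le_iff₀ (by positivity)]
        calc X = X ^ (1 - κ₀ / 8) * X ^ (κ₀ / 8) := by
              rw [← Real.rpow_add hX0]
              norm_num
          _ ≤ X ^ (1 - κ₀ / 8) * (e : ℝ) ^ (1 / 2 : ℝ) := by gcongr
      calc I * (e : ℝ) ^ (3 / 2 : ℝ) ≤ (C * Y) * (e : ℝ) ^ (3 / 2 : ℝ) := by gcongr
        _ = C * (Y * (e : ℝ) ^ (3 / 2 : ℝ)) := by ring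
        _ ≤ C * X ^ (1 - κ₀ / 8) := by gcongr
        _ ≤ ((q : ℝ) ^ 2 + C) * X ^ (1 - κ₀ / 8) := by
            gcongr
            nlinarith [sq_nonneg (q : ℝ)]
  refine (Finset.sum_le_sum hterm).trans ?_
  rw [← Finset.mul_sum]
  have hs : ∑ e ∈ (Finset.Icc 1 D).filter (fun e => Nat.Coprime e q),
      1 / (e : ℝ) ^ (3 / 2 : ℝ) ≤ S :=
    hsum.sum_le_tsum _ fun e _ => by positivity
  calc ((q : ℝ) ^ 2 + C) * X ^ (1 - κ₀ / 8) *
        ∑ e ∈ (Finset.Icc 1 D).filter (fun e => Nat.Coprime e q), 1 / (e : ℝ) ^ (3 / 2 : ℝ)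
      ≤ ((q : ℝ) ^ 2 + C) * X ^ (1 - κ₀ / 8) * S := by gcongr
    _ = L * X ^ (1 - κ₀ / 8) := by rw [hL]; ring
    _ ≤ X ^ (κ₀ / 16) * X ^ (1 - κ₀ / 8) := by gcongr
    _ = X ^ (1 - κ₀ / 16) := by
        rw [← Real.rpow_add hX0]
        congr 1
        ring

theorem exp_PS : type_of% @exp_PS_pr := @exp_PS_pr

end Pool.Agent.AQM
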