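import Pool.Agent.Lib_helper10.T2F.TJA
import Pool.Agent.Lib_helper39.AQM.Defs
import Pool.Agent.Lib_helper39.AQM.AB
import Pool.Agent.Lib_helper39.MQX.ALG
import Pool.Agent.Lib_helper39.MQX.SBA
import Pool.Agent.Lib_helper39.MQX.SBB
import Pool.Agent.Lib_helper39.MQX.SBC
import Pool.Agent.Lib_helper39.MQX.LSV
import Pool.Agent.Lib_helper39.MQX.PAR
import Pool.Agent.Lib_helper39.MQX.FEJ
import Pool.Agent.Lib_helper39.MQX.EXP
import Pool.Agent.Lib_helper39.AQMF.AL1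
import Pool.Agent.Lib_helper39.AQMF.MM2

/-! block L1 of AQM, proved by helper51 -/

/-! AQM block L1: `level_one` (template MRGF/L1.lean), by helper51. Cites `moment`, `mem_PS`,
`gg_norm`. -/

set_option autoImplicit false

namespace Pool.Agent.AQM

open Pool.Agent.MQ Pool.Agent.T2 Filter Topology MeasureTheory

section
variable {b c : ℤ} (A : Ang b c) {M : ℕ}

open Classical in
theorem l1_Sv (hM : 1 ≤ M) : ∃ C : ℝ, 1 ≤ C ∧ ∀ h : ℕ → ℤ, Sgn h → ∀ (q : ℕ)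
    (_ : ∀ l : ℕ, l.Prime → l ∣ q → l ∣ M) (V : El → Prop) (K x : ℝ), 0 ≤ K → K ≤ x → 1 ≤ x →
    ∑ k ∈ Ks K, ‖Sv A h q V k x‖ ^ 2 ≤ C * x ^ 2 := by
  obtain ⟨C, hC, hmom⟩ := moment A M hM
  refine ⟨2 * C, by linarith, ?_⟩
  intro h hh q hq V K x hK hKx hx
  have hTP : TP A M ∅ 1 (1, 0) (fun _ => (1, 0)) :=
    { k1 := le_rfl
      kM := one_dvd _
      prime := by simp
      m4 := by simp
      ndM := by simp
      ndD := by simp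
      wd := by simp
      nm := by simp
      res := by simp }
  have ha : ∀ z : El, ‖(if z ∈ PS A q V x then (gg b c h z : ℂ) else 0)‖ ≤ 1 := by
    intro z
    split_ifs with hz
    · rw [mem_PS] at hz
      exact (gg_norm hh (A.wd_nm z hz.1).ne').le
    · simp
  have hm := hmom K x 1 ∅ 1 (1, 0) (fun _ => (1, 0)) (fun _ => 0)
    (fun z => if z ∈ PS A q V x then (gg b c h z : ℂ) else 0) 0 hTP hK hx le_rfl (by simp)
    (by simp) ha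
  have hsub : PS A q V x ⊆ PS A M (fun _ => True) x := by
    intro z hz
    rw [mem_PS] at hz ⊢
    exact ⟨hz.1, hz.2.1, trivial, fun l hl hd => hq l hl (hz.2.2.2 l hl hd)⟩
  have he : ∀ k : ℤ, ∑ z ∈ PS A M (fun _ => True) x,
      (if z ∈ PS A q V x then (gg b c h z : ℂ) else 0) * ex (k * A.u z) = Sv A h q V k x := by
    intro k
    unfold Sv
    rw [← Finset.sum_subset hsub]
    · exact Finset.sum_congr rfl fun z hz => by simp [hz]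
    · intro z _ hz
      simp [hz]
  simp only [he, pow_zero, one_mul, mul_one, Nat.factorial_zero, Nat.cast_one] at hm
  refine hm.trans ?_
  have hC0 : 0 ≤ C := by linarith
  have hx0 : 0 ≤ x := by linarith
  calc C * (K + x) * x ≤ C * (x + x) * x := by gcongr
    _ = 2 * C * x ^ 2 := by ring

end

section
variable {b c : ℤ} (A : Ang b c) (hs : ¬ IsSquare (dsc b c)) {M : ℕ} {T : El → Prop}
include hs

theorem level_one_pr (hT : Cls A M T) : ∃ C : ℝ, 1 ≤ C ∧ ∀ h : ℕ → ℤ, Sgn h →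
    ∀ (Y H ρ P Q α : ℝ) (B : Finset ℕ) (V : ℕ) (U : Finset ℤ) (k₀ : ℕ) (r : El) (π : ℕ → El),
    TP A M B k₀ r π → 1 ≤ Y → 1 < ρ → ρ ≤ 2 → 0 < α → α ≤ 1 / 4 → 2 ≤ P → Q ≤ H → H ≤ Y →
    (∀ p ∈ B, P < (p : ℝ) ∧ (p : ℝ) ≤ Q ∧ (p : ℝ) ≤ ρ ^ V) → U ⊆ Ks (Y / H) →
    (∀ k ∈ U, ∀ v < V, ‖Qv A h π k (blk ρ v B)‖ ≤ (ρ ^ v) ^ (1 - α)) →
      ∑ k ∈ U, ‖∑ v ∈ Finset.range V, Qv A h π k (blk ρ v B) *
          Sv A h (M * k₀) (QC b c k₀ r T) k (k₀ * Y / ρ ^ v)‖ ^ 2 ≤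
        C * Y ^ 2 * (P ^ (-α) / (α * (ρ - 1))) ^ 2 := by
  classical
  obtain ⟨C₁, hC₁, h₁⟩ := l1_Sv A hT.M1
  have hM1 : (1 : ℝ) ≤ M := by exact_mod_cast hT.M1
  have hM2 : (1 : ℝ) ≤ (M : ℝ) ^ 2 := one_le_pow₀ hM1
  refine ⟨64 * (C₁ * (M : ℝ) ^ 2), by nlinarith, ?_⟩
  intro h hh Y H ρ P Q α B V U k₀ r π hB hY hρ hρ2 hα hα1 hP hQH hHY hBp hU hTk
  have hk1 : (1 : ℝ) ≤ k₀ := by exact_mod_cast hB.k1
  have hkM : (k₀ : ℝ) ≤ M := by exact_mod_cast Nat.le_of_dvd hT.M1 hB.kM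
  have hq : ∀ l : ℕ, l.Prime → l ∣ M * k₀ → l ∣ M := by
    intro l hl hd
    rcases (hl.dvd_mul).1 hd with h1 | h1
    · exact h1
    · exact h1.trans hB.kM
  have hρ0 : (0 : ℝ) < ρ := by linarith
  set S : Finset ℕ := (Finset.range V).filter (fun v => (blk ρ v B).Nonempty) with hSdef
  -- the facts on nonempty blocks
  have hS : ∀ v ∈ S, v < V ∧ P / 2 ≤ ρ ^ v ∧ 0 < H ∧ (ρ ^ v : ℝ) ≤ H := by
    intro v hv
    rw [hSdef, Finset.mem_filter, Finset.mem_range] at hv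
    obtain ⟨hvV, p, hp⟩ := hv
    unfold blk at hp
    rw [Finset.mem_filter] at hp
    obtain ⟨hpB, hp1, hp2⟩ := hp
    obtain ⟨hpP, hpQ, _⟩ := hBp p hpB
    have h2 : (ρ ^ (v + 1) : ℝ) ≤ 2 * ρ ^ v := by
      rw [pow_succ]
      have : (0 : ℝ) < ρ ^ v := by positivity
      nlinarith
    refine ⟨hvV, by linarith, by linarith, by linarith⟩
  have hSum : ∀ k ∈ U, ‖∑ v ∈ Finset.range V, Qv A h π k (blk ρ v B) *
        Sv A h (M * k₀) (QC b c k₀ r T) k (k₀ * Y / ρ ^ v)‖ ^ 2 ≤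
      (∑ v ∈ S, (ρ ^ v : ℝ) ^ (-α)) *
        ∑ v ∈ S, (ρ ^ v : ℝ) ^ (2 - α) *
          ‖Sv A h (M * k₀) (QC b c k₀ r T) k (k₀ * Y / ρ ^ v)‖ ^ 2 := by
    intro k hk
    have e1 : ∑ v ∈ Finset.range V, Qv A h π k (blk ρ v B) *
          Sv A h (M * k₀) (QC b c k₀ r T) k (k₀ * Y / ρ ^ v) =
        ∑ v ∈ S, Qv A h π k (blk ρ v B) *
          Sv A h (M * k₀) (QC b c k₀ r T) k (k₀ * Y / ρ ^ v) := by
      rw [hSdef, Finset.sum_filter]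
      refine Finset.sum_congr rfl fun v _ => ?_
      split_ifs with h
      · rfl
      · rw [Finset.not_nonempty_iff_eq_empty] at h
        rw [h]
        simp [Qv]
    rw [e1]
    have e2 : ‖∑ v ∈ S, Qv A h π k (blk ρ v B) *
          Sv A h (M * k₀) (QC b c k₀ r T) k (k₀ * Y / ρ ^ v)‖ ≤
        ∑ v ∈ S, (ρ ^ v : ℝ) ^ (1 - α) *
          ‖Sv A h (M * k₀) (QC b c k₀ r T) k (k₀ * Y / ρ ^ v)‖ := by
      refine (norm_sum_le _ _).trans (Finset.sum_le_sum fun v hv => ?_)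
      rw [norm_mul]
      exact mul_le_mul_of_nonneg_right (hTk k hk v (hS v hv).1) (norm_nonneg _)
    refine (pow_le_pow_left₀ (norm_nonneg _) e2 2).trans ?_
    refine Finset.sum_sq_le_sum_mul_sum_of_sq_le_mul S (fun v _ => by positivity)
      (fun v _ => by positivity) (fun v _ => le_of_eq ?_)
    have hpv : (0 : ℝ) < ρ ^ v := by positivity
    have e3 : (ρ ^ v : ℝ) ^ (-α) * (ρ ^ v : ℝ) ^ (2 - α) = ((ρ ^ v : ℝ) ^ (1 - α)) ^ 2 := by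
      rw [← Real.rpow_add hpv, ← Real.rpow_natCast ((ρ ^ v : ℝ) ^ (1 - α)) 2,
        ← Real.rpow_mul hpv.le]
      congr 1
      push_cast
      ring
    rw [mul_pow, ← e3]
    ring
  set W : ℝ := ∑ v ∈ S, (ρ ^ v : ℝ) ^ (-α) with hW
  have hW0 : 0 ≤ W := Finset.sum_nonneg fun v _ => by positivity
  have hWle : W ≤ 8 * (P ^ (-α) / (α * (ρ - 1))) :=
    tja_geom hρ hρ2 hα hα1 hP V S fun v hv => ⟨(hS v hv).1, (hS v hv).2.1⟩
  have hv2 : ∀ v ∈ S, (ρ ^ v : ℝ) ^ (2 - α) *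
        ∑ k ∈ U, ‖Sv A h (M * k₀) (QC b c k₀ r T) k (k₀ * Y / ρ ^ v)‖ ^ 2 ≤
      C₁ * (M : ℝ) ^ 2 * Y ^ 2 * (ρ ^ v : ℝ) ^ (-α) := by
    intro v hv
    obtain ⟨_, _, hH0, hvH⟩ := hS v hv
    have hpv : (0 : ℝ) < ρ ^ v := by positivity
    have hY0 : (0 : ℝ) < Y := by linarith
    have h1 : ∑ k ∈ U, ‖Sv A h (M * k₀) (QC b c k₀ r T) k (k₀ * Y / ρ ^ v)‖ ^ 2 ≤
        C₁ * (k₀ * Y / ρ ^ v) ^ 2 := by
      refine (Finset.sum_le_sum_of_subset_of_nonneg hU fun k _ _ => by positivity).trans ?_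
      refine h₁ h hh (M * k₀) hq (QC b c k₀ r T) (Y / H) (k₀ * Y / ρ ^ v) (by positivity) ?_ ?_
      · rw [div_le_div_iff₀ hH0 hpv]
        have h3 : Y * ρ ^ v ≤ Y * H := mul_le_mul_of_nonneg_left hvH hY0.le
        have h4 : Y * H ≤ k₀ * (Y * H) := le_mul_of_one_le_left (by positivity) hk1
        linarith
      · rw [le_div_iff₀ hpv]
        nlinarith
    have h2 : C₁ * (k₀ * Y / ρ ^ v) ^ 2 ≤ C₁ * ((M : ℝ) * Y / ρ ^ v) ^ 2 := by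
      have : (0 : ℝ) ≤ k₀ := by linarith
      gcongr
    have e3 : (ρ ^ v : ℝ) ^ (2 - α) = (ρ ^ v : ℝ) ^ (-α) * (ρ ^ v) ^ 2 := by
      rw [← Real.rpow_natCast (ρ ^ v) 2, ← Real.rpow_add hpv]
      congr 1
      push_cast
      ring
    calc (ρ ^ v : ℝ) ^ (2 - α) *
          ∑ k ∈ U, ‖Sv A h (M * k₀) (QC b c k₀ r T) k (k₀ * Y / ρ ^ v)‖ ^ 2
        ≤ (ρ ^ v : ℝ) ^ (2 - α) * (C₁ * ((M : ℝ) * Y / ρ ^ v) ^ 2) :=
          mul_le_mul_of_nonneg_left (h1.trans h2) (by positivity)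
      _ = C₁ * (M : ℝ) ^ 2 * Y ^ 2 * (ρ ^ v : ℝ) ^ (-α) := by
          rw [e3]
          field_simp
  calc ∑ k ∈ U, ‖∑ v ∈ Finset.range V, Qv A h π k (blk ρ v B) *
          Sv A h (M * k₀) (QC b c k₀ r T) k (k₀ * Y / ρ ^ v)‖ ^ 2
      ≤ ∑ k ∈ U, W * ∑ v ∈ S, (ρ ^ v : ℝ) ^ (2 - α) *
          ‖Sv A h (M * k₀) (QC b c k₀ r T) k (k₀ * Y / ρ ^ v)‖ ^ 2 :=
        Finset.sum_le_sum hSum
    _ = W * ∑ v ∈ S, (ρ ^ v : ℝ) ^ (2 - α) *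
          ∑ k ∈ U, ‖Sv A h (M * k₀) (QC b c k₀ r T) k (k₀ * Y / ρ ^ v)‖ ^ 2 := by
        rw [← Finset.mul_sum, Finset.sum_comm]
        congr 1
        exact Finset.sum_congr rfl fun v _ => by rw [Finset.mul_sum]
    _ ≤ W * ∑ v ∈ S, C₁ * (M : ℝ) ^ 2 * Y ^ 2 * (ρ ^ v : ℝ) ^ (-α) :=
        mul_le_mul_of_nonneg_left (Finset.sum_le_sum hv2) hW0
    _ = C₁ * (M : ℝ) ^ 2 * Y ^ 2 * W ^ 2 := by
        rw [← Finset.mul_sum, ← hW]
        ring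
    _ ≤ C₁ * (M : ℝ) ^ 2 * Y ^ 2 * (8 * (P ^ (-α) / (α * (ρ - 1)))) ^ 2 := by
        refine mul_le_mul_of_nonneg_left (pow_le_pow_left₀ hW0 hWle 2) ?_
        have : 0 ≤ C₁ := by linarith
        positivity
    _ = 64 * (C₁ * (M : ℝ) ^ 2) * Y ^ 2 * (P ^ (-α) / (α * (ρ - 1))) ^ 2 := by ring

end

theorem level_one : type_of% @level_one_pr := @level_one_pr

end Pool.Agent.AQM
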