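import Pool.Agent.Lib_helper39.MQX.REP
import Pool.Agent.Lib_helper39.MQX.PLU
import Pool.Agent.Lib_helper10.T2F.SLG
import Pool.Agent.Lib_helper39.AQM.Defs
import Pool.Agent.Lib_helper39.AQM.AB
import Pool.Agent.Lib_helper39.MQX.ALG
import Pool.Agent.Lib_helper39.MQX.SBA
import Pool.Agent.Lib_helper39.MQX.SBB
import Pool.Agent.Lib_helper39.MQX.SBC
import Pool.Agent.Lib_helper39.MQX.LSV
import Pool.Agent.Lib_helper39.MQX.PAR
import Pool.Agent.Lib_helper39.MQX.FEJ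
import Pool.Agent.Lib_helper39.MQX.EXP
import Pool.Agent.Lib_helper39.AQMF.CN2

/-! block SM of AQM, proved by helper9 -/

/-!
# AQM, block SM: the mass of the sieve of the split primes
-/

set_option autoImplicit false

namespace Pool.Agent.AQM

open Pool.Agent.MQ Pool.Agent.T2 Filter Topology MeasureTheory

/-- the number of divisors over `n` -/
noncomputable def sm_f (n : ℕ) : ℝ := tau n / n

theorem sm_f_nonneg (n : ℕ) : 0 ≤ sm_f n := by
  unfold sm_f tau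
  positivity

theorem sm_f_mul {m n : ℕ} (h : Nat.Coprime m n) : sm_f (m * n) = sm_f m * sm_f n := by
  unfold sm_f tau
  rw [h.card_divisors_mul]
  push_cast
  rw [mul_div_mul_comm]

theorem sm_f_pp {p : ℕ} (hp : p.Prime) (k : ℕ) :
    sm_f (p ^ k) = ((k : ℝ) + 1) * (p : ℝ)⁻¹ ^ k := by
  unfold sm_f tau
  rw [Nat.divisors_prime_pow hp k, Finset.card_map, Finset.card_range]
  push_cast
  rw [inv_pow, div_eq_mul_inv]

theorem sm_local {p : ℕ} (hp : p.Prime) (N : ℕ) :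
    ∑ j ∈ Finset.Icc 1 N, sm_f (p ^ j) ≤ slg_H p := by
  have h2 : (2 : ℝ) ≤ p := by exact_mod_cast hp.two_le
  have h3 : (p : ℝ)⁻¹ ≤ 1 / 2 := by
    rw [inv_eq_one_div]
    exact one_div_le_one_div_of_le (by norm_num) h2
  have h5 : 0 ≤ (p : ℝ)⁻¹ := by positivity
  have h6 := slg_geom_le h5 (by linarith) N
  rw [slg_H_eq hp, Finset.range_eq_Ico, Finset.sum_eq_sum_Ico_succ_bot (by omega)] at *
  have h7 : ∑ j ∈ Finset.Icc 1 N, sm_f (p ^ j) =
      ∑ j ∈ Finset.Ico (0 + 1) (N + 1), ((j : ℝ) + 1) * (p : ℝ)⁻¹ ^ j := by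
    refine Finset.sum_congr ?_ fun j _ => ?_
    · ext j
      simp only [Finset.mem_Icc, Finset.mem_Ico]
      omega
    · rw [sm_f_pp hp]
  rw [h7]
  simp only [Nat.cast_zero, zero_add, pow_zero, mul_one] at h6 ⊢
  linarith

theorem sm_ordCompl {n p : ℕ} {s : Finset ℕ} (hp : p ∉ s) (h : n.primeFactors = insert p s) :
    (n / p ^ n.factorization p).primeFactors = s := by
  rw [← Nat.support_factorization, Nat.factorization_ordCompl, Finsupp.support_erase,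
    Nat.support_factorization, h, Finset.erase_insert hp]

open Classical in
theorem sm_fib (N : ℕ) (s : Finset ℕ) : (∀ p ∈ s, p.Prime) →
    ∑ n ∈ (Finset.Icc 1 N).filter (fun n => n.primeFactors = s), sm_f n ≤ ∏ p ∈ s, slg_H p := by
  induction s using Finset.induction_on with
  | empty =>
    intro _
    have h1 : (Finset.Icc 1 N).filter (fun n => n.primeFactors = ∅) ⊆ {1} := by
      intro n hn
      rw [Finset.mem_filter, Finset.mem_Icc, Nat.primeFactors_eq_empty] at hn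
      rw [Finset.mem_singleton]
      omega
    refine (Finset.sum_le_sum_of_subset_of_nonneg h1 fun n _ _ => sm_f_nonneg n).trans ?_
    simp [sm_f, tau]
  | insert p s hps ih =>
    intro hs
    have hp := hs p (Finset.mem_insert_self p s)
    have ih' := ih (fun q hq => hs q (Finset.mem_insert_of_mem hq))
    set T := (Finset.Icc 1 N).filter (fun n => n.primeFactors = insert p s) with hT
    set T' := (Finset.Icc 1 N).filter (fun n => n.primeFactors = s) with hT'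
    let φ : ℕ → ℕ × ℕ := fun n => (n.factorization p, n / p ^ n.factorization p)
    let g : ℕ × ℕ → ℝ := fun x => sm_f (p ^ x.1) * sm_f x.2
    have hmem : ∀ n ∈ T, 1 ≤ n ∧ n ≤ N ∧ n.primeFactors = insert p s := by
      intro n hn
      rw [hT, Finset.mem_filter, Finset.mem_Icc] at hn
      exact ⟨hn.1.1, hn.1.2, hn.2⟩
    have hFg : ∀ n ∈ T, sm_f n = g (φ n) := by
      intro n hn
      have h1 := hmem n hn
      have h2 : n = p ^ n.factorization p * (n / p ^ n.factorization p) :=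
        (Nat.ordProj_mul_ordCompl_eq_self n p).symm
      have h3 : Nat.Coprime (p ^ n.factorization p) (n / p ^ n.factorization p) :=
        Nat.Coprime.pow_left _ (Nat.coprime_ordCompl hp (by omega))
      conv_lhs => rw [h2]
      exact sm_f_mul h3
    have hinj : Set.InjOn φ T := by
      intro a _ b _ hab
      have h1 : a.factorization p = b.factorization p := congrArg Prod.fst hab
      have h2 : a / p ^ a.factorization p = b / p ^ b.factorization p := congrArg Prod.snd hab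
      rw [← Nat.ordProj_mul_ordCompl_eq_self a p, ← Nat.ordProj_mul_ordCompl_eq_self b p, h2, h1]
    have hsub : T.image φ ⊆ (Finset.Icc 1 N) ×ˢ T' := by
      intro x hx
      obtain ⟨n, hn, rfl⟩ := Finset.mem_image.1 hx
      have h1 := hmem n hn
      have hn0 : n ≠ 0 := by omega
      have hpn : p ∈ n.primeFactors := by rw [h1.2.2]; exact Finset.mem_insert_self p s
      have hdvd := Nat.dvd_of_mem_primeFactors hpn
      rw [Finset.mem_product, Finset.mem_Icc, hT', Finset.mem_filter, Finset.mem_Icc]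
      refine ⟨⟨hp.factorization_pos_of_dvd hn0 hdvd, ?_⟩, ⟨?_, ?_⟩, sm_ordCompl hps h1.2.2⟩
      · exact (Nat.factorization_lt p hn0).le.trans h1.2.1
      · exact Nat.ordCompl_pos p hn0
      · exact (Nat.ordCompl_le n p).trans h1.2.1
    have hg : ∀ x, 0 ≤ g x := fun x => mul_nonneg (sm_f_nonneg _) (sm_f_nonneg _)
    calc ∑ n ∈ T, sm_f n = ∑ n ∈ T, g (φ n) := Finset.sum_congr rfl hFg
      _ = ∑ x ∈ T.image φ, g x := (Finset.sum_image hinj).symm
      _ ≤ ∑ x ∈ (Finset.Icc 1 N) ×ˢ T', g x :=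
          Finset.sum_le_sum_of_subset_of_nonneg hsub fun x _ _ => hg x
      _ = (∑ j ∈ Finset.Icc 1 N, sm_f (p ^ j)) * ∑ n ∈ T', sm_f n := by
          rw [Finset.sum_product, Finset.sum_mul_sum]
      _ ≤ slg_H p * ∏ q ∈ s, slg_H q :=
          mul_le_mul (sm_local hp N) ih' (Finset.sum_nonneg fun n _ => sm_f_nonneg n)
            (slg_H_nonneg hp)
      _ = ∏ q ∈ insert p s, slg_H q := by
          rw [Finset.prod_insert hps]

open Classical in
theorem sm_group (P : ℕ → Prop) (N : ℕ) :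
    ∑ n ∈ (Finset.Icc 1 N).filter (fun n : ℕ => ∀ p : ℕ, p.Prime → p ∣ n → P p), sm_f n ≤
    ∑ d ∈ (Finset.Icc 1 N).filter (fun d : ℕ => Squarefree d ∧
      ∀ p : ℕ, p.Prime → p ∣ d → P p), ∏ p ∈ d.primeFactors, slg_H p := by
  set G := (Finset.Icc 1 N).filter (fun n : ℕ => ∀ p : ℕ, p.Prime → p ∣ n → P p) with hG
  set D := (Finset.Icc 1 N).filter (fun d : ℕ => Squarefree d ∧
      ∀ p : ℕ, p.Prime → p ∣ d → P p) with hD
  have hrad : ∀ n : ℕ, Squarefree (∏ p ∈ n.primeFactors, p) ∧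
      (∏ p ∈ n.primeFactors, p).primeFactors = n.primeFactors := fun n =>
    slg_rad fun p hp => Nat.prime_of_mem_primeFactors hp
  have hmaps : ∀ n ∈ G, (∏ p ∈ n.primeFactors, p) ∈ D := by
    intro n hn
    rw [hG, Finset.mem_filter, Finset.mem_Icc] at hn
    obtain ⟨h2, h3⟩ := hrad n
    have h4 : (∏ p ∈ n.primeFactors, p) ∣ n := Nat.prod_primeFactors_dvd n
    rw [hD, Finset.mem_filter, Finset.mem_Icc]
    refine ⟨⟨Nat.pos_of_ne_zero h2.ne_zero, (Nat.le_of_dvd (by omega) h4).trans hn.1.2⟩, h2, ?_⟩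
    intro p hp hpd
    exact hn.2 p hp (hpd.trans h4)
  rw [← Finset.sum_fiberwise_of_maps_to hmaps]
  refine Finset.sum_le_sum fun d hd => ?_
  rw [hD, Finset.mem_filter] at hd
  refine le_trans ?_ (sm_fib N d.primeFactors fun p hp => Nat.prime_of_mem_primeFactors hp)
  refine Finset.sum_le_sum_of_subset_of_nonneg ?_ fun n _ _ => sm_f_nonneg n
  intro n hn
  rw [Finset.mem_filter, hG, Finset.mem_filter] at hn
  rw [Finset.mem_filter]
  refine ⟨hn.1.1, ?_⟩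
  rw [← hn.2, (hrad n).2]

section
variable {b c : ℤ}

theorem sm_nm_one {q : ℤ} {v : El} (h : dv q (v - (1, 0))) : q ∣ nm b c v - 1 := by
  obtain ⟨⟨s, hs⟩, ⟨t, ht⟩⟩ := h
  have h1 : v.1 = 1 + q * s := by
    have : v.1 - 1 = q * s := hs
    linarith
  have h2 : v.2 = q * t := by
    have : v.2 - 0 = q * t := ht
    linarith
  refine ⟨2 * s + q * s ^ 2 + b * (1 + q * s) * t + c * q * t ^ 2, ?_⟩
  unfold nm
  rw [h1, h2]
  ring

/-- the modulus -/
def sm_q (b c : ℤ) (M : ℕ) : ℕ := 2 * (dsc b c).natAbs * M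

theorem sm_q_pos (hs : ¬ IsSquare (dsc b c)) {M : ℕ} (hM : 1 ≤ M) : 1 ≤ sm_q b c M := by
  have h1 : dsc b c ≠ 0 := by
    intro h
    exact hs (by rw [h]; exact ⟨0, by simp⟩)
  have h2 : 0 < (dsc b c).natAbs := Int.natAbs_pos.2 h1
  unfold sm_q
  exact Nat.succ_le_of_lt (by positivity)

/-- the elements congruent to `1` -/
noncomputable def sm_B (S : Sys b c) (M : ℕ) (x : ℝ) : Finset El :=
  open Classical in (S.MF x).filter (fun w => dv (sm_q b c M) (w - (1, 0)))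

theorem sm_mem_B {S : Sys b c} {M : ℕ} {x : ℝ} {v : El} : v ∈ sm_B S M x ↔
    (S.wd v ∧ (nm b c v : ℝ) ≤ x) ∧ dv (sm_q b c M) (v - (1, 0)) := by
  classical
  unfold sm_B
  rw [Finset.mem_filter, mem_MF]

theorem sm_B_mono {S : Sys b c} {M : ℕ} {x y : ℝ} (h : x ≤ y) : sm_B S M x ⊆ sm_B S M y := by
  intro v hv
  rw [sm_mem_B] at hv ⊢
  exact ⟨⟨hv.1.1, hv.1.2.trans h⟩, hv.2⟩

/-- the primitive elements whose norms have only split prime factors -/
noncomputable def sm_P (S : Sys b c) (M : ℕ) (x : ℝ) : Finset El :=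
  open Classical in (S.MF x).filter (fun w => Int.gcd w.1 w.2 = 1 ∧
    ∀ p : ℕ, p.Prime → p ∣ (nm b c w).natAbs → Spl b c p ∧ ¬ p ∣ M)

theorem sm_mem_P {S : Sys b c} {M : ℕ} {x : ℝ} {v : El} : v ∈ sm_P S M x ↔
    (S.wd v ∧ (nm b c v : ℝ) ≤ x) ∧ Int.gcd v.1 v.2 = 1 ∧
    ∀ p : ℕ, p.Prime → p ∣ (nm b c v).natAbs → Spl b c p ∧ ¬ p ∣ M := by
  classical
  unfold sm_P
  rw [Finset.mem_filter, mem_MF]

/-- the primitive part of an element congruent to `1` -/
theorem sm_part {S : Sys b c} {M : ℕ} {x : ℝ} {v : El} (hv : v ∈ sm_B S M x) :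
    v = sm (Int.gcd v.1 v.2) (rep_pp v) ∧ 1 ≤ Int.gcd v.1 v.2 ∧ rep_pp v ∈ sm_P S M x ∧
    Int.gcd v.1 v.2 ≤ ⌊x⌋₊ ∧ (nm b c v : ℝ) = ((Int.gcd v.1 v.2 : ℕ) : ℝ) ^ 2 *
      (nm b c (rep_pp v) : ℝ) ∧ 0 < nm b c (rep_pp v) := by
  rw [sm_mem_B] at hv
  obtain ⟨⟨hw, hx⟩, hd⟩ := hv
  have hpos : 0 < nm b c v := wd_nm S hw
  have hg0 : Int.gcd v.1 v.2 ≠ 0 := by
    intro h
    rw [Int.gcd_eq_zero_iff] at h
    unfold nm at hpos
    rw [h.1, h.2] at hpos
    simp at hpos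
  have hg1 : 1 ≤ Int.gcd v.1 v.2 := Nat.pos_of_ne_zero hg0
  obtain ⟨h1, h2⟩ := rep_pp_spec hg0
  have h3 : nm b c v = ((Int.gcd v.1 v.2 : ℕ) : ℤ) ^ 2 * nm b c (rep_pp v) := by
    conv_lhs => rw [h1]
    exact rep_nm_sm b c _ _
  have hg2 : (1 : ℤ) ≤ ((Int.gcd v.1 v.2 : ℕ) : ℤ) := by exact_mod_cast hg1
  have hg3 : (0 : ℤ) < ((Int.gcd v.1 v.2 : ℕ) : ℤ) ^ 2 := by positivity
  have h4 : 0 < nm b c (rep_pp v) := by
    by_contra h
    push Not at h
    have : nm b c v ≤ 0 := by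
      rw [h3]
      exact mul_nonpos_of_nonneg_of_nonpos hg3.le h
    linarith
  have hwd : S.wd (rep_pp v) := by
    rw [h1] at hw
    exact (wd_sm S hg1).1 hw
  have h5 : nm b c (rep_pp v) ≤ nm b c v := by
    rw [h3]
    nlinarith
  have h6 : (nm b c (rep_pp v) : ℝ) ≤ x := by
    have : (nm b c (rep_pp v) : ℝ) ≤ (nm b c v : ℝ) := by exact_mod_cast h5
    linarith
  refine ⟨h1, hg1, ?_, ?_, ?_, h4⟩
  · rw [sm_mem_P]
    refine ⟨⟨hwd, h6⟩, h2, fun p hp hpn => ?_⟩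
    have hpz : (p : ℤ) ∣ nm b c (rep_pp v) := Int.natCast_dvd.2 hpn
    have hpv : (p : ℤ) ∣ nm b c v := by
      rw [h3]
      exact Dvd.dvd.mul_left hpz _
    have hq1 := sm_nm_one (b := b) (c := c) hd
    have hnq : ¬ (p : ℤ) ∣ ((sm_q b c M : ℕ) : ℤ) := by
      intro h
      have h7 : (p : ℤ) ∣ nm b c v - 1 := h.trans hq1
      have h8 : (p : ℤ) ∣ 1 := by
        have := dvd_sub hpv h7
        have e : nm b c v - (nm b c v - 1) = 1 := by ring
        rwa [e] at this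
      have h9 : p ∣ 1 := by exact_mod_cast h8
      exact hp.one_lt.ne' (Nat.dvd_one.1 h9)
    have hnq' : ¬ p ∣ sm_q b c M := fun h => hnq (by exact_mod_cast h)
    have hD : (dsc b c).natAbs ∣ sm_q b c M := by
      unfold sm_q
      exact Dvd.dvd.mul_right (Dvd.intro_left 2 rfl) M
    have hMM : M ∣ sm_q b c M := Dvd.intro_left _ rfl
    have h2M : 2 ∣ sm_q b c M := by
      unfold sm_q
      rw [mul_assoc]
      exact Dvd.intro _ rfl
    refine ⟨⟨hp, ?_, ?_, ?_⟩, fun h => hnq' (h.trans hMM)⟩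
    · intro h
      rw [h] at hnq'
      exact hnq' h2M
    · intro h
      exact hnq' ((Int.natCast_dvd.1 h).trans hD)
    · set d : ℕ := (nm b c (rep_pp v)).natAbs with hd
      have hdz : nm b c (rep_pp v) = (d : ℤ) := (Int.natAbs_of_nonneg h4.le).symm
      have hd1 : 1 ≤ d := by
        have : (0 : ℤ) < d := by rw [← hdz]; exact h4
        exact_mod_cast this
      obtain ⟨t, -, ht, -⟩ := rep_root hd1 h2 hdz
      refine ⟨t, ?_⟩
      have : (p : ℤ) ∣ (d : ℤ) := by exact_mod_cast hpn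
      exact this.trans ht
  · apply Nat.le_floor
    have h7 : ((Int.gcd v.1 v.2 : ℕ) : ℤ) ≤ nm b c v := by
      rw [h3]
      nlinarith
    have h8 : ((Int.gcd v.1 v.2 : ℕ) : ℝ) ≤ (nm b c v : ℝ) := by exact_mod_cast h7
    linarith
  · rw [h3]
    push_cast
    ring

/-- the upper bound -/
theorem sm_upper (S : Sys b c) (M : ℕ) (x : ℝ) :
    ∑ v ∈ sm_B S M x, ((nm b c v : ℝ))⁻¹ ≤ 2 * ∑ w ∈ sm_P S M x, ((nm b c w : ℝ))⁻¹ := by
  classical
  let φ : El → ℕ × El := fun v => (Int.gcd v.1 v.2, rep_pp v)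
  let g : ℕ × El → ℝ := fun y => (((y.1 : ℕ) : ℝ) ^ 2)⁻¹ * ((nm b c y.2 : ℝ))⁻¹
  have h1 : ∀ v ∈ sm_B S M x, ((nm b c v : ℝ))⁻¹ = g (φ v) := by
    intro v hv
    obtain ⟨-, -, -, -, h, -⟩ := sm_part hv
    rw [h, mul_inv]
  have hinj : Set.InjOn φ (sm_B S M x) := by
    intro v hv w hw hvw
    have e1 : Int.gcd v.1 v.2 = Int.gcd w.1 w.2 := congrArg Prod.fst hvw
    have e2 : rep_pp v = rep_pp w := congrArg Prod.snd hvw
    rw [(sm_part hv).1, (sm_part hw).1, e1, e2]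
  have hsub : (sm_B S M x).image φ ⊆ (Finset.Icc 1 ⌊x⌋₊) ×ˢ sm_P S M x := by
    intro y hy
    obtain ⟨v, hv, rfl⟩ := Finset.mem_image.1 hy
    obtain ⟨-, h2, h3, h4, -, -⟩ := sm_part hv
    rw [Finset.mem_product, Finset.mem_Icc]
    exact ⟨⟨h2, h4⟩, h3⟩
  have hP : ∀ w ∈ sm_P S M x, 0 ≤ ((nm b c w : ℝ))⁻¹ := by
    intro w hw
    have := wd_nm S (sm_mem_P.1 hw).1.1
    have h : (0 : ℝ) < nm b c w := by exact_mod_cast this
    positivity
  calc ∑ v ∈ sm_B S M x, ((nm b c v : ℝ))⁻¹ = ∑ v ∈ sm_B S M x, g (φ v) := Finset.sum_congr rfl h1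
    _ = ∑ y ∈ (sm_B S M x).image φ, g y := (Finset.sum_image hinj).symm
    _ ≤ ∑ y ∈ (Finset.Icc 1 ⌊x⌋₊) ×ˢ sm_P S M x, g y := by
        refine Finset.sum_le_sum_of_subset_of_nonneg hsub fun y hy _ => ?_
        rw [Finset.mem_product] at hy
        exact mul_nonneg (by positivity) (hP _ hy.2)
    _ = (∑ k ∈ Finset.Icc 1 ⌊x⌋₊, ((k : ℝ) ^ 2)⁻¹) * ∑ w ∈ sm_P S M x, ((nm b c w : ℝ))⁻¹ := by
        rw [Finset.sum_product, Finset.sum_mul_sum]
    _ ≤ 2 * ∑ w ∈ sm_P S M x, ((nm b c w : ℝ))⁻¹ :=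
        mul_le_mul_of_nonneg_right (slg_zeta2 _) (Finset.sum_nonneg hP)

open Classical in
/-- the sum over the primitive elements -/
theorem sm_prim (S : Sys b c) (hs : ¬ IsSquare (dsc b c)) (M : ℕ) (x : ℝ) :
    ∑ w ∈ sm_P S M x, ((nm b c w : ℝ))⁻¹ ≤
      (((S.MF 1).card : ℝ) * Real.sqrt |(dsc b c : ℝ)|) *
      ∑ n ∈ (Finset.Icc 1 ⌊x⌋₊).filter (fun n : ℕ => ∀ p : ℕ, p.Prime → p ∣ n →
        Spl b c p ∧ ¬ p ∣ M), sm_f n := by
  set G := (Finset.Icc 1 ⌊x⌋₊).filter (fun n : ℕ => ∀ p : ℕ, p.Prime → p ∣ n →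
        Spl b c p ∧ ¬ p ∣ M) with hG
  have hmaps : ∀ w ∈ sm_P S M x, (nm b c w).natAbs ∈ G := by
    intro w hw
    rw [sm_mem_P] at hw
    have hpos := wd_nm S hw.1.1
    have hz : ((nm b c w).natAbs : ℤ) = nm b c w := Int.natAbs_of_nonneg hpos.le
    rw [hG, Finset.mem_filter, Finset.mem_Icc]
    refine ⟨⟨?_, ?_⟩, hw.2.2⟩
    · have : 0 < (nm b c w).natAbs := Int.natAbs_pos.2 hpos.ne'
      exact this
    · apply Nat.le_floor
      have h1 : (((nm b c w).natAbs : ℕ) : ℝ) = (nm b c w : ℝ) := by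
        rw [← Int.cast_natCast (R := ℝ), hz]
      rw [h1]
      exact hw.1.2
  rw [← Finset.sum_fiberwise_of_maps_to hmaps, Finset.mul_sum]
  refine Finset.sum_le_sum fun n hn => ?_
  rw [hG, Finset.mem_filter, Finset.mem_Icc] at hn
  have hn0 : (0 : ℝ) < n := by exact_mod_cast hn.1.1
  set Q := (sm_P S M x).filter (fun w => (nm b c w).natAbs = n) with hQ
  have hQ2 : ∀ w ∈ Q, S.wd w ∧ nm b c w = n ∧ Int.gcd w.1 w.2 = 1 := by
    intro w hw
    rw [hQ, Finset.mem_filter, sm_mem_P] at hw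
    have hpos := wd_nm S hw.1.1.1
    refine ⟨hw.1.1.1, ?_, hw.1.2.1⟩
    rw [← hw.2]
    exact (Int.natAbs_of_nonneg hpos.le).symm
  have h1 : ∑ w ∈ Q, ((nm b c w : ℝ))⁻¹ = (Q.card : ℝ) * (n : ℝ)⁻¹ := by
    rw [Finset.sum_congr rfl (g := fun _ => (n : ℝ)⁻¹), Finset.sum_const, nsmul_eq_mul]
    intro w hw
    rw [(hQ2 w hw).2.1]
    push_cast
    rfl
  rw [h1]
  have h2 := rep_prim S hs n hn.1.1 Q hQ2
  calc (Q.card : ℝ) * (n : ℝ)⁻¹ ≤
        (((S.MF 1).card : ℝ) * (Real.sqrt |(dsc b c : ℝ)| * tau n)) * (n : ℝ)⁻¹ :=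
        mul_le_mul_of_nonneg_right h2 (by positivity)
    _ = _ := by
        unfold sm_f
        rw [div_eq_mul_inv]
        ring

/-- the number of elements congruent to `1` in a dyadic range -/
theorem sm_dyad (S : Sys b c) (hs : ¬ IsSquare (dsc b c)) {M : ℕ} (hM : 1 ≤ M) :
    ∃ a x₀ : ℝ, 0 < a ∧ 1 ≤ x₀ ∧ ∀ x : ℝ, x₀ ≤ x →
      a * x ≤ ((sm_B S M (2 * x)).card : ℝ) - ((sm_B S M x).card : ℝ) := by
  classical
  obtain ⟨κ, hκ, hcount⟩ := cls_count S
  have hq := sm_q_pos hs hM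
  obtain ⟨C, hC, hc⟩ := hcount (sm_q b c M) hq
  have hq0 : (0 : ℝ) < (sm_q b c M : ℕ) := by exact_mod_cast hq
  set k0 : ℝ := κ / ((sm_q b c M : ℕ) : ℝ) ^ 2 with hk0
  have hk0p : 0 < k0 := by positivity
  have hB : ∀ x : ℝ, 1 ≤ x → |((sm_B S M x).card : ℝ) - k0 * x| ≤ C * Real.sqrt x := by
    intro x hx
    have h1 := hc (1, 0) (1, 0) 1 le_rfl (Nat.coprime_one_left _)
      (fun l hl h => absurd (Nat.dvd_one.1 h) hl.one_lt.ne') x hx
    have e1 : (S.MF x).filter (fun w => dv ((sm_q b c M : ℕ) : ℤ) (w - (1, 0)) ∧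
        ((1 : ℕ) : ℤ) ∣ dt w (1, 0)) = sm_B S M x := by
      unfold sm_B
      refine Finset.filter_congr fun w _ => ?_
      simp
    rw [e1] at h1
    have e2 : κ * x / (((sm_q b c M : ℕ) : ℝ) ^ 2 * ((1 : ℕ) : ℝ)) = k0 * x := by
      rw [hk0, Nat.cast_one, mul_one]
      ring
    rwa [e2] at h1
  refine ⟨k0 / 2, max 1 ((6 * C / k0) ^ 2), by positivity, le_max_left _ _, fun x hx => ?_⟩
  have hx1 : 1 ≤ x := (le_max_left _ _).trans hx
  have hx2 : (6 * C / k0) ^ 2 ≤ x := (le_max_right _ _).trans hx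
  have h1 := abs_le.1 (hB x hx1)
  have h2 := abs_le.1 (hB (2 * x) (by linarith))
  have h3 : Real.sqrt (2 * x) ≤ 2 * Real.sqrt x := by
    rw [show (2 : ℝ) * Real.sqrt x = Real.sqrt (4 * x) by
      rw [Real.sqrt_mul (by norm_num), show (4 : ℝ) = 2 ^ 2 by norm_num,
        Real.sqrt_sq (by norm_num)]]
    exact Real.sqrt_le_sqrt (by linarith)
  have h4 : 6 * C / k0 ≤ Real.sqrt x := Real.le_sqrt_of_sq_le hx2
  have h5 : 6 * C ≤ k0 * Real.sqrt x := by
    rw [div_le_iff₀ hk0p] at h4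
    linarith
  have h6 : Real.sqrt x * Real.sqrt x = x := Real.mul_self_sqrt (by linarith)
  have h7 : 0 ≤ Real.sqrt x := Real.sqrt_nonneg x
  have h8 : 6 * C * Real.sqrt x ≤ k0 * x := by
    calc 6 * C * Real.sqrt x ≤ k0 * Real.sqrt x * Real.sqrt x :=
          mul_le_mul_of_nonneg_right h5 h7
      _ = k0 * x := by rw [mul_assoc, h6]
  have h9 : C * Real.sqrt (2 * x) ≤ C * (2 * Real.sqrt x) :=
    mul_le_mul_of_nonneg_left h3 (by linarith)
  linarith [h1.2, h2.1]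

/-- the lower bound -/
theorem sm_lower (S : Sys b c) (hs : ¬ IsSquare (dsc b c)) {M : ℕ} (hM : 1 ≤ M) :
    ∃ a R₀ : ℝ, 0 < a ∧ 1 ≤ R₀ ∧ ∀ R : ℝ, R₀ ≤ R →
      a * Real.log R ≤ ∑ v ∈ sm_B S M R, ((nm b c v : ℝ))⁻¹ := by
  classical
  obtain ⟨a, x₀, ha, hx0, hd⟩ := sm_dyad S hs hM
  set T : ℝ → ℝ := fun x => ∑ v ∈ sm_B S M x, ((nm b c v : ℝ))⁻¹ with hT
  have hnn : ∀ (x : ℝ), ∀ v ∈ sm_B S M x, 0 < ((nm b c v : ℝ))⁻¹ := by
    intro x v hv
    have := wd_nm S (sm_mem_B.1 hv).1.1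
    have h : (0 : ℝ) < nm b c v := by exact_mod_cast this
    positivity
  have hmono : ∀ x y : ℝ, x ≤ y → T x ≤ T y := fun x y h =>
    Finset.sum_le_sum_of_subset_of_nonneg (sm_B_mono h) fun v hv _ => (hnn y v hv).le
  have hstep : ∀ x : ℝ, x₀ ≤ x → T x + a / 2 ≤ T (2 * x) := by
    intro x hx
    have hx1 : 0 < x := by linarith
    have hsub : sm_B S M x ⊆ sm_B S M (2 * x) := sm_B_mono (by linarith)
    have h1 : T (2 * x) = T x + ∑ v ∈ sm_B S M (2 * x) \ sm_B S M x, ((nm b c v : ℝ))⁻¹ := by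
      rw [hT]
      simp only
      rw [← Finset.sum_sdiff hsub]
      ring
    have h2 : ((sm_B S M (2 * x) \ sm_B S M x).card : ℝ) =
        ((sm_B S M (2 * x)).card : ℝ) - ((sm_B S M x).card : ℝ) := by
      rw [Finset.card_sdiff_of_subset hsub, Nat.cast_sub (Finset.card_le_card hsub)]
    have h3 : ((sm_B S M (2 * x) \ sm_B S M x).card : ℝ) * (2 * x)⁻¹ ≤
        ∑ v ∈ sm_B S M (2 * x) \ sm_B S M x, ((nm b c v : ℝ))⁻¹ := by
      rw [← nsmul_eq_mul]
      refine Finset.card_nsmul_le_sum _ _ _ fun v hv => ?_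
      have h4 := sm_mem_B.1 (Finset.mem_sdiff.1 hv).1
      have h5 := wd_nm S h4.1.1
      have h6 : (0 : ℝ) < nm b c v := by exact_mod_cast h5
      exact inv_anti₀ h6 h4.1.2
    have h4 := hd x hx
    rw [← h2] at h4
    have h5 : a / 2 = a * x * (2 * x)⁻¹ := by
      field_simp
    have h6 : a * x * (2 * x)⁻¹ ≤ ((sm_B S M (2 * x) \ sm_B S M x).card : ℝ) * (2 * x)⁻¹ :=
      mul_le_mul_of_nonneg_right h4 (by positivity)
    rw [h1]
    linarith
  have hpow : ∀ k : ℕ, (k : ℝ) * (a / 2) ≤ T (2 ^ k * x₀) := by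
    intro k
    induction k with
    | zero =>
      have : 0 ≤ T (2 ^ 0 * x₀) := Finset.sum_nonneg fun v hv => (hnn _ v hv).le
      simpa using this
    | succ k ih =>
      have h1 : (1 : ℝ) ≤ 2 ^ k := one_le_pow₀ (by norm_num)
      have h2 := hstep (2 ^ k * x₀) (by nlinarith)
      rw [show (2 : ℝ) ^ (k + 1) * x₀ = 2 * (2 ^ k * x₀) by ring]
      push_cast
      linarith
  refine ⟨a / 8, max (x₀ ^ 2) 16, by positivity, ?_, fun R hR => ?_⟩
  · exact le_max_of_le_right (by norm_num)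
  · have hR1 : x₀ ^ 2 ≤ R := (le_max_left _ _).trans hR
    have hR2 : 16 ≤ R := (le_max_right _ _).trans hR
    have hR0 : 0 < R := by linarith
    have hx00 : 0 < x₀ := by linarith
    have hl2 : 0 < Real.log 2 := Real.log_pos (by norm_num)
    have hl2' : Real.log 2 ≤ 1 := by
      have := Real.log_two_lt_d9
      linarith
    have hlR : 4 * Real.log 2 ≤ Real.log R := by
      have h := Real.log_le_log (by norm_num) hR2
      have e : Real.log 16 = 4 * Real.log 2 := by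
        rw [show (16 : ℝ) = 2 ^ 4 by norm_num, Real.log_pow]
        norm_num
      linarith
    have hlx : 2 * Real.log x₀ ≤ Real.log R := by
      have h := Real.log_le_log (by positivity) hR1
      rw [Real.log_pow] at h
      push_cast at h
      linarith
    set y : ℝ := Real.log (R / x₀) / Real.log 2 with hy
    have hly : Real.log (R / x₀) = Real.log R - Real.log x₀ := Real.log_div hR0.ne' hx00.ne'
    have hy0 : 0 ≤ y := by
      rw [hy, hly]
      apply div_nonneg _ hl2.le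
      linarith
    have hfl : (2 : ℝ) ^ ⌊y⌋₊ * x₀ ≤ R := by
      rw [← le_div_iff₀ hx00, ← Real.log_le_log_iff (by positivity) (by positivity), Real.log_pow]
      have h := Nat.floor_le hy0
      calc (⌊y⌋₊ : ℝ) * Real.log 2 ≤ y * Real.log 2 := mul_le_mul_of_nonneg_right h hl2.le
        _ = Real.log (R / x₀) := by rw [hy]; field_simp
    have h1 := hpow ⌊y⌋₊
    have h2 := hmono _ _ hfl
    have h3 : y - 1 ≤ ⌊y⌋₊ := by
      have := Nat.lt_floor_add_one y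
      linarith
    have h4 : Real.log R / 4 ≤ y - 1 := by
      have h5 : Real.log R / 2 ≤ Real.log (R / x₀) := by
        rw [hly]; linarith
      have h6 : Real.log R / 4 + 1 ≤ y := by
        rw [hy, le_div_iff₀ hl2]
        nlinarith
      linarith
    have h5 : Real.log R / 4 * (a / 2) ≤ (⌊y⌋₊ : ℝ) * (a / 2) :=
      mul_le_mul_of_nonneg_right (by linarith) (by positivity)
    calc a / 8 * Real.log R = Real.log R / 4 * (a / 2) := by ring
      _ ≤ (⌊y⌋₊ : ℝ) * (a / 2) := h5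
      _ ≤ _ := h1.trans h2

end

open Classical in
theorem split_mass_pr (b c : ℤ) (hs : ¬ IsSquare (dsc b c)) (M : ℕ) (hM : 1 ≤ M) : ∃ c₁ R₀ : ℝ,
    0 < c₁ ∧ ∀ R : ℝ, R₀ ≤ R → c₁ * Real.log R ≤
    ∑ d ∈ (Finset.Icc 1 ⌊R⌋₊).filter (fun d : ℕ => Squarefree d ∧
      ∀ p : ℕ, p.Prime → p ∣ d → Spl b c p ∧ ¬ p ∣ M), ∏ p ∈ d.primeFactors,
        (2 / (p : ℝ) - 1 / (p : ℝ) ^ 2) / (1 - (2 / (p : ℝ) - 1 / (p : ℝ) ^ 2)) := by
  obtain ⟨S⟩ := plu_sys b c hs
  obtain ⟨a, R₀, ha, hR0, hlow⟩ := sm_lower S hs hM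
  set K : ℝ := ((S.MF 1).card : ℝ) * Real.sqrt |(dsc b c : ℝ)| with hK
  have hK0 : 0 ≤ K := by positivity
  refine ⟨a / (2 * (K + 1)), R₀, by positivity, fun R hR => ?_⟩
  have h1 := hlow R hR
  have h2 := sm_upper S M R
  have h3 := sm_prim S hs M R
  have h4 := sm_group (fun p => Spl b c p ∧ ¬ p ∣ M) ⌊R⌋₊
  set G := ∑ n ∈ (Finset.Icc 1 ⌊R⌋₊).filter (fun n : ℕ => ∀ p : ℕ, p.Prime → p ∣ n →
        Spl b c p ∧ ¬ p ∣ M), sm_f n with hG
  have hG0 : 0 ≤ G := Finset.sum_nonneg fun n _ => sm_f_nonneg n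
  have h5 : a * Real.log R ≤ 2 * (K + 1) * G := by
    calc a * Real.log R ≤ 2 * (K * G) := by linarith
      _ ≤ 2 * (K + 1) * G := by nlinarith
  have h6 : a / (2 * (K + 1)) * Real.log R ≤ G := by
    rw [div_mul_eq_mul_div, div_le_iff₀ (by positivity)]
    linarith
  exact h6.trans h4

theorem split_mass : type_of% @split_mass_pr := @split_mass_pr

end Pool.Agent.AQM
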