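import Pool.Agent.Lib_helper39.AQMF.AL1
import Pool.Agent.Lib_helper39.AQMF.AL2
import Pool.Agent.Lib_helper39.AQMF.AL3
import Pool.Agent.Lib_helper39.AQMF.MO
import Pool.Agent.Lib_helper39.AQMF.CN1
import Pool.Agent.Lib_helper39.AQMF.CN2
import Pool.Agent.Lib_helper39.AQMF.CP
import Pool.Agent.Lib_helper39.AQMF.LS
import Pool.Agent.Lib_helper39.AQMF.MM2
import Pool.Agent.Lib_helper39.AQMF.TV
import Pool.Agent.Lib_helper39.AQMF.TA
import Pool.Agent.Lib_helper39.AQMF.TC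
import Pool.Agent.Lib_helper39.AQMF.TR1
import Pool.Agent.Lib_helper39.AQMF.TR2
import Pool.Agent.Lib_helper39.AQMF.L1
import Pool.Agent.Lib_helper39.AQMF.L2
import Pool.Agent.Lib_helper39.AQMF.L3
import Pool.Agent.Lib_helper39.AQMF.TY
import Pool.Agent.Lib_helper39.AQMF.ME
import Pool.Agent.Lib_helper39.AQMF.L4A
import Pool.Agent.Lib_helper39.AQMF.L4C
import Pool.Agent.Lib_helper39.AQMF.L4D
import Pool.Agent.Lib_helper39.AQMF.L4E
import Pool.Agent.Lib_helper39.AQMF.L4F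
import Pool.Agent.Lib_helper39.AQMF.EC1
import Pool.Agent.Lib_helper39.AQMF.EC2
import Pool.Agent.Lib_helper39.AQMF.EC3
import Pool.Agent.Lib_helper39.AQMF.AS
import Pool.Agent.Lib_helper39.AQMF.AF1
import Pool.Agent.Lib_helper39.AQMF.AF2
import Pool.Agent.Lib_helper39.AQMF.EP
import Pool.Agent.Lib_helper39.AQMF.SP
import Pool.Agent.Lib_helper39.AQMF.EL
import Pool.Agent.Lib_helper39.AQMF.SM
import Pool.Agent.Lib_helper39.AQMF.MJ1
import Pool.Agent.Lib_helper39.AQMF.MJ2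
import Pool.Agent.Lib_helper39.AQMF.PH
import Pool.Agent.Lib_helper39.AQMF.FC
import Pool.Agent.Lib_helper39.AQMF.E1
import Pool.Agent.Lib_helper39.AQMF.E2A1
import Pool.Agent.Lib_helper39.AQMF.E2A2
import Pool.Agent.Lib_helper39.AQMF.E2B
import Pool.Agent.Lib_helper39.AQMF.E2C
import Pool.Agent.Lib_helper39.AQMF.E3
import Pool.Agent.Lib_helper39.AQMF.E4
import Pool.Agent.Lib_helper39.AQMF.E5
import Pool.Agent.Lib_helper39.AQMF.Z

/-! AQM: all blocks -/
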